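import Pool.Agent.P.MP_6f117a_ag.Curve

/-! The trace dual of the integral closure consists of regular differentials (tame different),
and the residue at infinity of the line. -/

namespace Pool.Agent.P.MP_6f117a_ag

open WithZero Polynomial
open scoped IntermediateField

universe u

variable {L K : Type u} [Field L] [Field K] [Algebra L K]

/-- Polynomials in `t` as elements of `L(t)`. -/
noncomputable def pol (L : Type u) [Field L] [Algebra L K] (t : K) : L[X] →ₐ[L] L⟮t⟯ :=
  aeval (IntermediateField.AdjoinSimple.gen L t)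

theorem coe_pol (t : K) (p : L[X]) : (pol L t p : K) = aeval t p :=
  (aeval_algebraMap_apply K (IntermediateField.AdjoinSimple.gen L t) p).symm

theorem pol_inj {t : K} (ht : Transcendental L t) : Function.Injective (pol L t) :=
  (injective_iff_map_eq_zero _).2 fun p hp => by_contra fun h =>
    aeval_ne ht h (by rw [← coe_pol, hp]; rfl)

instance (P : Place L K) : P.v.IsTrivialOn L := ⟨fun _ h => P.v_const h⟩

theorem Place.v_aeval_pole (P : Place L K) {t : K} (h : 1 < P.v t) {p : L[X]} (hp : p ≠ 0) :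
    P.v (aeval t p) = P.v t ^ p.natDegree :=
  valuation_aeval_eq_valuation_X_pow_natDegree_of_one_lt_valuation_X t h hp

theorem Place.v_aeval_sub (P : Place L K) {z : K} {c : L} (h : P.v (z - algebraMap L K c) < 1)
    (p : L[X]) : P.v (aeval z p - algebraMap L K (p.eval c)) < 1 := by
  obtain ⟨q, hq⟩ := X_sub_C_dvd_sub_C_eval (a := c) (p := p)
  have := congrArg (aeval z) hq
  simp only [map_sub, aeval_C, map_mul, aeval_X] at this
  rw [this, map_mul]
  refine mul_lt_one_of_nonneg_of_lt_one_left zero_le h (P.v_aeval ?_ q)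
  simpa using P.v.map_add_le h.le (P.triv c)

theorem exists_lam {t : K} (P : Place L K) (hP : 1 < P.v t) : ∃ l : L⟮t⟯ →ₗ[L] L,
    (∀ p, l (pol L t p) = 0) ∧ ∀ r, (∀ k : ℕ, l (pol L t (X ^ k) * r) = 0) → ∃ p, r = pol L t p := by
  have t0 : P.v t ≠ 0 := (zero_lt_one.trans hP).ne'
  have ht : Transcendental L t := P.v.transcendental_of_ne_one L t (by simpa using t0) hP.ne'
  let N : Submodule L L⟮t⟯ :=
    { carrier := {r | P.v r < 1}
      add_mem' := fun h1 h2 => P.v.map_add_lt h1 h2
      zero_mem' := by simp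
      smul_mem' := fun c r h => by
        change P.v (c • (r : K)) < 1
        rw [Algebra.smul_def, map_mul]
        exact mul_lt_one_of_nonneg_of_lt_one_right (P.triv c) zero_le h }
  have one : ∀ p, P.v (pol L t p) < 1 → p = 0 := fun p h => by_contra fun h0 => by
    rw [coe_pol, P.v_aeval_pole hP h0] at h
    exact (one_le_pow₀ hP.le).not_gt h
  have hc : IsCompl (LinearMap.range (pol L t).toLinearMap) N := by
    refine ⟨Submodule.disjoint_def.2 ?_, Submodule.codisjoint_iff_exists_add_eq.2 fun r => ?_⟩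
    · rintro _ ⟨p, rfl⟩ h
      rw [one p h, map_zero]
    · obtain ⟨p, q, e⟩ := (IntermediateField.mem_adjoin_simple_iff L (r : K)).1 r.2
      refine ⟨pol L t (p / q), r - pol L t (p / q), ⟨_, rfl⟩, ?_, by simp⟩
      change P.v ((r : K) - pol L t (p / q)) < 1
      by_cases hq : q = 0
      · simp [e, hq]
      have h1 := aeval_ne ht hq
      have : (r : K) - pol L t (p / q) = aeval t (p % q) / aeval t q := by
        rw [e, coe_pol, EuclideanDomain.mod_eq_sub_mul_div, map_sub, map_mul]; field_simp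
      rw [this, map_div₀, div_lt_one₀ (zero_lt_iff.2 (by simpa using h1))]
      by_cases h0 : p % q = 0
      · simpa [h0] using zero_lt_iff.2 (by simpa using h1)
      rw [P.v_aeval_pole hP h0, P.v_aeval_pole hP hq]
      exact pow_lt_pow_right₀ hP (natDegree_lt_natDegree h0 (degree_mod_lt p hq))
  let pr := LinearMap.linearProjOfIsCompl N (pol L t).toLinearMap (pol_inj ht) hc
  have pr1 : ∀ p, pr (pol L t p) = p := fun p =>
    LinearMap.linearProjOfIsCompl_apply_left N (pol L t).toLinearMap (pol_inj ht) hc p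
  have pr2 : ∀ r, P.v ((r - pol L t (pr r) : L⟮t⟯) : K) < 1 := fun r => by
    obtain ⟨_, ν, ⟨p, rfl⟩, h, rfl⟩ := Submodule.codisjoint_iff_exists_add_eq.1 hc.codisjoint r
    rw [map_add, LinearMap.linearProjOfIsCompl_apply_right' N _ (pol_inj ht) hc ν h, add_zero]
    have h' : P.v ν < 1 := h
    simpa [pr1] using h'
  let l := (lcoeff L 0).comp (pr.comp (LinearMap.mulLeft L (pol L t X)))
  have l0 : ∀ r, l r = (pr (pol L t X * r)).coeff 0 := fun _ => rfl
  have l1 : ∀ p, l (pol L t p) = 0 := fun p => by rw [l0, ← map_mul, pr1]; simp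
  refine ⟨l, l1, fun r hr => ⟨pr r, sub_eq_zero.1 ?_⟩⟩
  set ν := r - pol L t (pr r) with hν
  have key : ∀ k : ℕ, P.v ((pol L t (X ^ k) * ν : L⟮t⟯) : K) < 1 := by
    intro k
    induction k with
    | zero => simpa only [pow_zero, map_one, one_mul] using pr2 r
    | succ k ih =>
      have h1 : l (pol L t (X ^ k) * ν) = 0 := by
        rw [hν, mul_sub, map_sub, hr, ← map_mul, l1, sub_zero]
      rw [l0, ← mul_assoc, ← map_mul, ← pow_succ'] at h1
      have h2 := pr2 (pol L t (X ^ (k + 1)) * ν)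
      set p := pr (pol L t (X ^ (k + 1)) * ν)
      by_cases h0 : p = 0
      · simpa [h0] using h2
      have h3 : P.v ((pol L t (X ^ (k + 1)) * ν : L⟮t⟯) : K) < P.v t := by
        rw [pow_succ', map_mul, mul_assoc, MulMemClass.coe_mul, map_mul, coe_pol, aeval_X]
        exact mul_lt_of_lt_one_right (zero_lt_iff.2 t0) ih
      have h4 := P.v.map_sub_lt h3 (h2.trans hP)
      rw [AddSubgroupClass.coe_sub, sub_sub_cancel, coe_pol, P.v_aeval_pole hP h0] at h4
      have h5 : p.natDegree = 0 := by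
        by_contra h
        exact (le_self_pow₀ hP.le h).not_gt h4
      exact (h0 (by rw [eq_C_of_natDegree_eq_zero h5, h1, map_zero])).elim
  by_contra h0
  have n0 : P.v ν ≠ 0 := by simpa using h0
  have := key (-log (P.v ν)).toNat
  rw [MulMemClass.coe_mul, map_mul, coe_pol, map_pow, aeval_X, map_pow, ← exp_log n0,
    ← exp_log t0, ← exp_nsmul, ← exp_add, ← exp_zero, exp_lt_exp, log_exp, nsmul_eq_mul] at this
  have h1 : 0 < log (P.v t) := (lt_log_iff_exp_lt t0).2 hP
  have h2 := Int.self_le_toNat (-log (P.v ν))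
  nlinarith [Int.natCast_nonneg (-log (P.v (ν : K))).toNat]

variable [IsAlgClosed L] [CharZero L] [FF L K]

theorem trace_ne {t : K} (ht : Transcendental L t) {a c : L} (hc : c ≠ 0) (P : Place L K)
    (hP : P.v (t - algebraMap L K a) < 1) {z : K} (hz : Reg L t z)
    (h1 : P.v (z - algebraMap L K c) < 1) (N : ℕ)
    (h2 : Reg L t ((z * (z - algebraMap L K c)) ^ N / (t - algebraMap L K a))) (p : L[X]) :
    Algebra.trace L⟮t⟯ K z ≠ pol L t ((X - C a) * p) := by
  classical
  obtain ⟨b, hb⟩ := (model ht).basis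
  let n := Module.finrank L⟮t⟯ K
  have t1 : P.v t ≤ 1 := by simpa using P.v.map_add_le hP.le (P.triv a)
  have hbi : ∀ i, Reg L t (b i) := fun i =>
    (hb _).2 ⟨Pi.single i 1, by simp [Pi.single_apply, apply_ite]⟩
  let Φ : Matrix (Fin n) (Fin n) L[X] →ₐ[L] Matrix (Fin n) (Fin n) L⟮t⟯ := (pol L t).mapMatrix
  let Ψ : Matrix (Fin n) (Fin n) L[X] →ₐ[L] Matrix (Fin n) (Fin n) L := (aeval a).mapMatrix
  let Λ : K →ₐ[L] Matrix (Fin n) (Fin n) L⟮t⟯ := (Algebra.leftMulMatrix b).restrictScalars L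
  have inj : Function.Injective Φ := fun M M' h => Matrix.ext fun i j =>
    pol_inj ht (congrFun (congrFun h i) j)
  have ex : ∀ y, Reg L t y → ∃ M, Φ M = Λ y := fun y hy => by
    choose q hq using fun j => (hb _).1 (hy.mul (hbi j))
    refine ⟨Matrix.of fun i j => q j i, Matrix.ext fun i j => ?_⟩
    change pol L t (q j i) = Algebra.leftMulMatrix b y i j
    rw [Algebra.leftMulMatrix_eq_repr_mul, hq j,
      ← congrFun (b.repr_sum_self (fun i => pol L t (q j i))) i]
    simp only [IntermediateField.smul_def, coe_pol, smul_eq_mul]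
  have A : ∀ y M, Φ M = Λ y → Ψ M = 0 → P.v y < 1 := fun y M e h0 => by
    obtain ⟨q, hq⟩ := (hb 1).1 fun P _ => by simp
    rw [← mul_one y, hq, Finset.mul_sum]
    refine P.v.map_sum_lt one_ne_zero fun j _ => ?_
    rw [mul_left_comm, map_mul]
    refine mul_lt_one_of_nonneg_of_lt_one_right (P.v_aeval t1 _) zero_le ?_
    rw [← b.sum_repr (y * b j)]
    refine P.v.map_sum_lt one_ne_zero fun i _ => ?_
    rw [← Algebra.leftMulMatrix_eq_repr_mul, IntermediateField.smul_def, smul_eq_mul, map_mul,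
      show Algebra.leftMulMatrix b y i j = pol L t (M i j) from (congrFun (congrFun e i) j).symm,
      coe_pol]
    refine mul_lt_one_of_nonneg_of_lt_one_left zero_le ?_ (hbi i P t1)
    have h3 : (M i j).eval a = 0 := by simpa [Ψ] using congrFun (congrFun h0 i) j
    simpa [h3] using P.v_aeval_sub hP (M i j)
  obtain ⟨M, hM⟩ := ex z hz
  have com : ∀ f : L[X], Φ (aeval M f) = Λ (aeval z f) := fun f => by
    rw [← aeval_algHom_apply, ← aeval_algHom_apply, hM]
  have r1 : (Ψ M).charpoly.IsRoot c := by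
    have h3 := A _ _ (com (Ψ M).charpoly) (by rw [← aeval_algHom_apply, Matrix.aeval_self_charpoly])
    have h4 := P.v.map_sub_lt h3 (P.v_aeval_sub h1 (Ψ M).charpoly)
    rw [sub_sub_cancel] at h4
    by_contra h
    exact h4.ne (P.v_const h)
  have r2 : aeval (Ψ M) ((X * (X - C c)) ^ N) = 0 := by
    obtain ⟨M', hM'⟩ := ex _ h2
    have s0 := trans_ne (trans_sub ht a)
    have : aeval M ((X * (X - C c)) ^ N) = (X - C a : L[X]) • M' := inj (by
      have e : Φ ((X - C a : L[X]) • M') = pol L t (X - C a) • Φ M' := Matrix.ext fun i j =>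
        map_mul (pol L t) _ _
      rw [com, e, hM']
      change Algebra.leftMulMatrix b _ = _ • Algebra.leftMulMatrix b _
      rw [← map_smul, IntermediateField.smul_def, coe_pol]
      congr 1
      simp only [map_pow, map_mul, map_sub, aeval_X, aeval_C, smul_eq_mul]
      field_simp)
    rw [aeval_algHom_apply, this]
    ext i j
    simp [Ψ]
  have hn : Nonempty (Fin n) := by
    have := FF.fin t ht
    exact ⟨⟨0, Module.finrank_pos⟩⟩
  have r3 : (Ψ M).charpoly.roots.toFinset ⊆ {0, c} := fun r hr => by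
    have h3 := spectrum.subset_polynomial_aeval (Ψ M) ((X * (X - C c)) ^ N)
      ⟨r, Matrix.mem_spectrum_iff_isRoot_charpoly.2
        (isRoot_of_mem_roots (Multiset.mem_toFinset.1 hr)), rfl⟩
    rw [r2, spectrum.zero_eq] at h3
    have h4 : (r = 0 ∨ r - c = 0) ∧ ¬N = 0 := by simpa using h3
    simpa [sub_eq_zero] using h4.1
  intro e
  have e1 : M.trace = (X - C a) * p := pol_inj ht (by
    rw [← e, Algebra.trace_eq_matrix_trace b, AddMonoidHom.map_trace]
    exact congrArg Matrix.trace hM)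
  have e2 : (Ψ M).trace = 0 := by
    have := AddMonoidHom.map_trace (aeval a : L[X] →ₐ[L] L) M
    rw [e1] at this
    exact this.symm.trans (by simp)
  rw [Matrix.trace_eq_sum_roots_charpoly, Finset.sum_multiset_count_of_subset _ _ r3,
    Finset.sum_pair hc.symm, smul_zero, zero_add, nsmul_eq_mul, mul_eq_zero, Nat.cast_eq_zero,
    Multiset.count_eq_zero, mem_roots (Matrix.charpoly_monic _).ne_zero] at e2
  exact e2.elim (fun h => h r1) hc

theorem trace_lemma {t : K} (ht : Transcendental L t) {h : K}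
    (hh : ∀ y, Reg L t y → ∃ p, Algebra.trace L⟮t⟯ K (h * y) = pol L t p) {a : L} (P : Place L K)
    (hP : P.v (t - algebraMap L K a) < 1) : P.v (h * (t - algebraMap L K a)) < 1 := by
  classical
  by_contra hc
  rw [not_lt] at hc
  set s := t - algebraMap L K a with hs
  have s0 : s ≠ 0 := trans_ne (trans_sub ht a)
  have h0 : h * s ≠ 0 := fun e => by simp [e] at hc
  have t1 : P.v t ≤ 1 := by simpa [hs] using P.v.map_add_le hP.le (P.triv a)
  let Z := ((finite_supp (L := L) h0).toFinset ∪ (finite_supp (L := L) s0).toFinset).filter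
    fun Q => Q.v t ≤ 1 ∧ P ≠ Q
  choose! y hy using fun Q (hQ : Q ∈ Z) => (model ht).sep P Q t1 (Finset.mem_filter.1 hQ).2.1
    (Finset.mem_filter.1 hQ).2.2
  have pw : ∀ (Q : Place L K) (w x : K) (N : ℕ), Q.v w < 1 → x ≠ 0 → -log (Q.v x) ≤ N →
      Q.v (w ^ N / x) ≤ 1 := fun Q w x N hw hx hN => by
    have x0 : Q.v x ≠ 0 := by simpa using hx
    have := Q.le_π hw
    rw [map_div₀, Q.v_π, div_le_one₀ exp_pos] at this
    rw [map_div₀, map_pow, div_le_one₀ (zero_lt_iff.2 x0), ← exp_log x0]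
    refine (pow_le_pow_left₀ zero_le this N).trans ?_
    rw [← exp_nsmul, exp_le_exp]; simp; omega
  obtain ⟨N, hN⟩ := Finite.exists_le fun Q : Z => (-log (Q.1.v (h * s))).toNat
  let z := (∏ Q ∈ Z, y Q) ^ (N + 1)
  have y1 : Reg L t (∏ Q ∈ Z, y Q) := fun R hR => by
    rw [map_prod]; exact Finset.prod_le_one' fun Q hQ => (hy Q hQ).1 R hR
  have y2 : ∀ Q ∈ Z, Q.v (∏ Q ∈ Z, y Q) < 1 := fun Q hQ => by
    rw [← Finset.mul_prod_erase _ _ hQ, map_mul, map_prod]
    exact mul_lt_one_of_nonneg_of_lt_one_left zero_le (hy Q hQ).2.2 (Finset.prod_le_one'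
      fun R hR => (hy R (Finset.mem_of_mem_erase hR)).1 Q (Finset.mem_filter.1 hQ).2.1)
  have z1 : Reg L t z := fun R hR => by rw [map_pow]; exact pow_le_one₀ zero_le (y1 R hR)
  have z2 : P.v z = 1 := by
    rw [map_pow, map_prod, Finset.prod_eq_one fun Q hQ => (hy Q hQ).2.1, one_pow]
  have z3 : Reg L t (z / (h * s)) := fun Q hQ => by
    by_cases e : Q ∈ Z
    · exact pw Q _ _ _ (y2 Q e) h0 (by have := hN ⟨Q, e⟩; simp only at this; omega)
    rw [map_div₀, div_le_one₀ (zero_lt_iff.2 (by simpa using h0))]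
    by_cases e' : P = Q
    · rw [← e', z2]; exact hc
    · have : Q.v (h * s) = 1 := by_contra fun h => e (by simp [Z, hQ, e', -map_mul, h])
      rw [this]; exact z1 Q hQ
  obtain ⟨c, hc'⟩ := P.res z2.le
  have c0 : c ≠ 0 := by rintro rfl; simp [z2] at hc'
  have c1 : Reg L t (z - algebraMap L K c) := fun Q hQ => Q.v.map_sub_le (z1 Q hQ) (Q.triv c)
  obtain ⟨N', hN'⟩ := Finite.exists_le fun Q : (finite_supp (L := L) s0).toFinset =>
    (-log (Q.1.v s)).toNat
  obtain ⟨p, hp⟩ := hh _ z3
  refine trace_ne ht c0 P hP z1 hc' N' (fun Q hQ => ?_) p ?_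
  · by_cases e : Q.v s = 1
    · rw [map_div₀, e, div_one, map_pow]; exact pow_le_one₀ zero_le (z1.mul c1 Q hQ)
    refine pw Q _ s _ ?_ s0 (by have := hN' ⟨Q, by simpa using e⟩; simp only at this; omega)
    rw [map_mul]
    by_cases e' : P = Q
    · exact mul_lt_one_of_nonneg_of_lt_one_right (z1 Q hQ) zero_le (e' ▸ hc')
    · refine mul_lt_one_of_nonneg_of_lt_one_left zero_le ?_ (c1 Q hQ)
      rw [map_pow]
      exact pow_lt_one₀ zero_le (y2 Q (by simp [Z, hQ, e', e])) (by omega)
  · have := left_ne_zero_of_mul h0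
    rw [map_mul, ← hp, ← smul_eq_mul, ← map_smul, IntermediateField.smul_def, coe_pol]
    congr 1
    simp only [map_sub, aeval_X, aeval_C, smul_eq_mul, ← hs]
    field_simp

end Pool.Agent.P.MP_6f117a_ag
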