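import Mathlib

/-! Differentials of a transcendence basis form a basis of the module of differentials. -/

namespace Pool.Agent.P.MP_6f117a_ag

universe u

variable {L K : Type u} [Field L] [Field K] [Algebra L K] [CharZero L]

theorem exists_basis_kaehler {ι : Type*} (t : ι → K) (ht : IsTranscendenceBasis L t) :
    ∃ b : Module.Basis ι K Ω[K⁄L], ∀ i, b i = KaehlerDifferential.D L K (t i) := by
  let S := MvPolynomial ι L
  let F := IntermediateField.adjoin L (Set.range t)
  let φ : S →ₐ[L] F := (ht.1.aevalEquivField : _ →ₐ[L] F).comp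
    (IsScalarTower.toAlgHom L S (FractionRing S))
  let _ : Algebra S F := φ.toAlgebra
  let _ : Algebra S K := (MvPolynomial.aeval t : S →ₐ[L] K).toAlgebra
  have : IsScalarTower L S K := .of_algebraMap_eq fun c =>
    ((MvPolynomial.aeval t : S →ₐ[L] K).commutes c).symm
  have : IsScalarTower S F K := .of_algebraMap_eq fun p =>
    (ht.1.aevalEquivField_algebraMap_apply_coe p).symm
  have : IsLocalization (nonZeroDivisors S) F :=
    IsLocalization.isLocalization_of_algEquiv (nonZeroDivisors S)
      { ht.1.aevalEquivField.toRingEquiv with commutes' := fun _ => rfl :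
        FractionRing S ≃ₐ[S] F }
  have : Algebra.FormallyEtale S F := .of_isLocalization (nonZeroDivisors S)
  have : Algebra.IsAlgebraic F K := ht.isAlgebraic_field
  have : CharZero F := charZero_of_injective_algebraMap (algebraMap L F).injective
  have : Algebra.FormallyEtale F K := .of_isSeparable F K
  have : Algebra.FormallyEtale S K := .comp S F K
  refine ⟨((KaehlerDifferential.mvPolynomialBasis L ι).baseChange K).map
    (KaehlerDifferential.tensorKaehlerEquivOfFormallyEtale L S K), fun i => ?_⟩
  rw [Module.Basis.map_apply, Module.Basis.baseChange_apply,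
    KaehlerDifferential.mvPolynomialBasis_apply, ← LinearEquiv.eq_symm_apply,
    ← KaehlerDifferential.tensorKaehlerEquivOfFormallyEtale_symm_D_algebraMap]
  congr 2
  exact MvPolynomial.aeval_X t i

theorem exists_der [IsAlgClosed L] {x : K} (hx : ∀ δ : Derivation L K K, δ x = 0) :
    ∃ c, algebraMap L K c = x := by
  by_contra h
  have h1 : Transcendental L x := fun ha =>
    h (minpoly.mem_range_of_degree_eq_one L x
      (IsAlgClosed.degree_eq_one_of_irreducible L (minpoly.irreducible ha.isIntegral)))
  obtain ⟨s, hs, hb⟩ := exists_isTranscendenceBasis_superset (R := L) (s := {x})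
    ((algebraicIndependent_singleton_iff (⟨x, rfl⟩ : ({x} : Set K))).2 h1)
  obtain ⟨b, e⟩ := exists_basis_kaehler _ hb
  have := hx (KaehlerDifferential.linearMapEquivDerivation L K (b.coord ⟨x, hs rfl⟩))
  rw [KaehlerDifferential.linearMapEquivDerivation_apply_apply,
    show KaehlerDifferential.D L K x = b ⟨x, hs rfl⟩ from (e ⟨x, hs rfl⟩).symm] at this
  simp at this

theorem const_of_basis [IsAlgClosed L] {k : ℕ} (D : Module.Basis (Fin k) K (Derivation L K K))
    (x : K) (hx : ∀ i, D i x = 0) : ∃ c, algebraMap L K c = x := by
  refine exists_der fun δ => ?_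
  have hδ : δ ∈ Submodule.span K (Set.range D) := by rw [D.span_eq]; trivial
  induction hδ using Submodule.span_induction with
  | mem _ h => obtain ⟨i, rfl⟩ := h; exact hx i
  | zero => rfl
  | add _ _ _ _ h1 h2 => simp [h1, h2]
  | smul _ _ _ h => simp [h]

theorem exists_basis_der {k : ℕ} (t : Fin k → K) (ht : IsTranscendenceBasis L t) :
    ∃ D : Module.Basis (Fin k) K (Derivation L K K), (∀ i j, D i (t j) = if j = i then 1 else 0) ∧
      ∀ x, KaehlerDifferential.D L K x = ∑ i, D i x • KaehlerDifferential.D L K (t i) := by
  obtain ⟨b, e⟩ := exists_basis_kaehler t ht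
  have h : ∀ i x, b.dualBasis.map (KaehlerDifferential.linearMapEquivDerivation L K) i x =
      b.repr (KaehlerDifferential.D L K x) i := fun i x => by
    rw [Module.Basis.map_apply, KaehlerDifferential.linearMapEquivDerivation_apply_apply,
      Module.Basis.dualBasis_apply]
  refine ⟨b.dualBasis.map (KaehlerDifferential.linearMapEquivDerivation L K), fun i j => ?_,
    fun x => ?_⟩
  · rw [h, ← e, b.repr_self, Finsupp.single_apply]
  · simp only [h, ← e, b.sum_repr]

end Pool.Agent.P.MP_6f117a_ag
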