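import Pool.Agent.P.MP_6f117a_ag.Places
import Pool.Agent.P.MP_6f117a_ag.Deriv

/-! Product formula, derivations and ramification on a function field in one variable. -/

namespace Pool.Agent.P.MP_6f117a_ag

open WithZero Polynomial
open scoped IntermediateField

universe u

/-- A function field in at most one variable. -/
class FF (L K : Type u) [Field L] [Field K] [Algebra L K] : Prop where
  fin : ∀ t : K, Transcendental L t → FiniteDimensional L⟮t⟯ K

variable {L K : Type u} [Field L] [Field K] [Algebra L K]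

theorem FF.of_fg (h : (⊤ : IntermediateField L K).FG) (h1 : Algebra.trdeg L K ≤ 1) : FF L K where
  fin t ht := by
    have := IntermediateField.fg_top_iff.1 h
    have : Algebra.EssFiniteType L⟮t⟯ K := .of_comp L _ _
    have h2 := ((algebraicIndependent_unique_type_iff (x := fun _ : Unit => t)).2
      ht).isTranscendenceBasis_of_lift_trdeg_le_of_finite (by simpa using h1)
    have h3 := h2.isAlgebraic_field
    rw [Set.range_const] at h3
    exact Algebra.finite_of_essFiniteType_of_isAlgebraic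

theorem adjoin_inv (t : K) : L⟮t⁻¹⟯ = L⟮t⟯ :=
  le_antisymm (IntermediateField.adjoin_simple_le_iff.2
    (inv_mem (IntermediateField.mem_adjoin_simple_self L t)))
    (IntermediateField.adjoin_simple_le_iff.2
      (inv_mem_iff.1 (IntermediateField.mem_adjoin_simple_self L t⁻¹)))

theorem adjoin_sub (t : K) (a : L) : L⟮t - algebraMap L K a⟯ = L⟮t⟯ :=
  le_antisymm (IntermediateField.adjoin_simple_le_iff.2
    (sub_mem (IntermediateField.mem_adjoin_simple_self L t) (IntermediateField.algebraMap_mem _ a)))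
    (IntermediateField.adjoin_simple_le_iff.2 (by
      simpa using add_mem (IntermediateField.mem_adjoin_simple_self L (t - algebraMap L K a))
        (IntermediateField.algebraMap_mem _ a)))

theorem trans_inv {t : K} (ht : Transcendental L t) : Transcendental L t⁻¹ :=
  fun h => ht (IsAlgebraic.inv_iff.1 h)

theorem trans_sub {t : K} (ht : Transcendental L t) (a : L) :
    Transcendental L (t - algebraMap L K a) :=
  fun h => ht (by simpa using h.add (isAlgebraic_algebraMap a))

theorem trans_ne {t : K} (ht : Transcendental L t) : t ≠ 0 := fun h => ht (h ▸ isAlgebraic_zero)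

theorem aeval_ne {t : K} (ht : Transcendental L t) {p : L[X]} (hp : p ≠ 0) : aeval t p ≠ 0 :=
  fun h => ht ⟨p, hp, h⟩

theorem Reg.add {t x y : K} (hx : Reg L t x) (hy : Reg L t y) : Reg L t (x + y) :=
  fun P h => P.v.map_add_le (hx P h) (hy P h)

theorem Reg.mul {t x y : K} (hx : Reg L t x) (hy : Reg L t y) : Reg L t (x * y) :=
  fun P h => by rw [map_mul]; exact mul_le_one' (hx P h) (hy P h)

theorem Reg.aeval (t : K) (p : L[X]) : Reg L t (aeval t p) := fun P h => P.v_aeval h p

theorem Reg.sum {ι : Type*} {t : K} (s : Finset ι) (x : ι → K) (h : ∀ i ∈ s, Reg L t (x i)) :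
    Reg L t (∑ i ∈ s, x i) := fun P hP => P.v.map_sum_le fun i hi => h i hi P hP

theorem Model.exists_den {t : K} (M : Model L t) (ht : Transcendental L t) (x : K) :
    ∃ q : L[X], q ≠ 0 ∧ Reg L t (aeval t q * x) := by
  classical
  obtain ⟨b, hb⟩ := M.basis
  induction b.mem_span x using Submodule.span_induction with
  | mem x hx =>
    obtain ⟨i, rfl⟩ := hx
    exact ⟨1, one_ne_zero, (hb _).2 ⟨Pi.single i 1, by simp [Pi.single_apply, apply_ite]⟩⟩
  | zero => exact ⟨1, one_ne_zero, fun P _ => by simp⟩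
  | add x y _ _ hx hy =>
    obtain ⟨p, hp, h1⟩ := hx
    obtain ⟨q, hq, h2⟩ := hy
    refine ⟨p * q, mul_ne_zero hp hq, ?_⟩
    have := ((Reg.aeval t q).mul h1).add ((Reg.aeval t p).mul h2)
    rwa [show aeval t (p * q) * (x + y) = aeval t q * (aeval t p * x) + aeval t p * (aeval t q * y)
      by rw [map_mul]; ring]
  | smul a x _ hx =>
    obtain ⟨p, hp, h1⟩ := hx
    obtain ⟨r, s, e⟩ := (IntermediateField.mem_adjoin_simple_iff L (a : K)).1 a.2
    by_cases hs : s = 0
    · exact ⟨1, one_ne_zero, fun P _ => by simp [IntermediateField.smul_def, e, hs]⟩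
    refine ⟨p * s, mul_ne_zero hp hs, ?_⟩
    have := aeval_ne ht hs
    rw [show aeval t (p * s) * a • x = aeval t r * (aeval t p * x) by
      rw [IntermediateField.smul_def, e, map_mul, smul_eq_mul]; field_simp]
    exact (Reg.aeval t r).mul h1

theorem Model.exists_den' {t : K} (M : Model L t) (ht : Transcendental L t) {ι : Type*}
    [Fintype ι] (x : ι → K) : ∃ q : L[X], q.Monic ∧ ∀ i, Reg L t (aeval t q * x i) := by
  classical
  choose q hq h using fun i => M.exists_den ht (x i)
  refine ⟨∏ i, q i * C (q i).leadingCoeff⁻¹, monic_prod_of_monic _ _ fun i _ =>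
    monic_mul_leadingCoeff_inv (hq i), fun i => ?_⟩
  rw [← Finset.mul_prod_erase _ _ (Finset.mem_univ i), mul_assoc, mul_comm (q i), map_mul,
    mul_assoc]
  exact (Reg.aeval t _).mul (h i)

theorem Model.exists_der_den {t : K} (M : Model L t) (ht : Transcendental L t)
    (D : Derivation L K K) (hD : D t = 1) :
    ∃ δ : K, δ ≠ 0 ∧ ∀ y, Reg L t y → Reg L t (δ * D y) := by
  obtain ⟨b, hb⟩ := M.basis
  obtain ⟨q, hq, h⟩ := M.exists_den' ht fun i => D (b i)
  refine ⟨_, aeval_ne ht hq.ne_zero, fun y hy => ?_⟩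
  obtain ⟨p, rfl⟩ := (hb y).1 hy
  rw [map_sum, Finset.mul_sum]
  refine Reg.sum _ _ fun i _ => ?_
  have hi : Reg L t (b i) := by
    classical exact (hb _).2 ⟨Pi.single i 1, by simp [Pi.single_apply, apply_ite]⟩
  rw [Derivation.leibniz, Derivation.map_aeval, hD, smul_eq_mul, smul_eq_mul, smul_eq_mul, mul_one,
    mul_add, mul_left_comm]
  exact ((Reg.aeval t _).mul (h i)).add ((Reg.aeval t _).mul (hi.mul (Reg.aeval t _)))

theorem Model.v_der_le {t : K} (M : Model L t) {D : Derivation L K K} {δ : K}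
    (h : ∀ y, Reg L t y → Reg L t (δ * D y)) (P : Place L K) (hP : P.v t ≤ 1)
    (a : K) (ha : P.v a ≤ 1) : P.v (δ * D a) ≤ 1 := by
  obtain ⟨y, z, hy, hz, z1, e⟩ := M.frac P hP a ha
  have e2 : δ * D a * z = δ * D y - a * (δ * D z) := by
    rw [← e, Derivation.leibniz, smul_eq_mul, smul_eq_mul]; ring
  have : P.v (δ * D a * z) ≤ 1 := by
    rw [e2]
    exact P.v.map_sub_le (h y hy P hP) (by rw [map_mul]; exact mul_le_one' ha (h z hz P hP))
  rwa [map_mul, z1, mul_one] at this

variable [IsAlgClosed L]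

theorem const_or_trans (x : K) : (∃ c, algebraMap L K c = x) ∨ Transcendental L x :=
  or_iff_not_imp_right.2 fun h => by
    have ha : IsAlgebraic L x := not_not.1 h
    exact minpoly.mem_range_of_degree_eq_one L x
      (IsAlgClosed.degree_eq_one_of_irreducible L (minpoly.irreducible ha.isIntegral))

theorem Place.trans (P : Place L K) {x : K} (h0 : x ≠ 0) (h1 : P.v x ≠ 1) : Transcendental L x :=
  (const_or_trans x).resolve_left fun ⟨c, hc⟩ =>
    h1 (hc ▸ P.v_const fun h => h0 (by rw [← hc, h, map_zero]))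

theorem Place.π_trans (P : Place L K) : Transcendental L P.π :=
  P.trans P.π_ne (by rw [P.v_π, ne_eq, exp_eq_one]; omega)

variable [CharZero L] [FF L K]

theorem model {t : K} (ht : Transcendental L t) : Model L t :=
  have := FF.fin t ht
  exists_model ht

theorem Place.res (P : Place L K) {x : K} (hx : P.v x ≤ 1) :
    ∃ c, P.v (x - algebraMap L K c) < 1 := (model P.π_trans).res P P.v_π_le x hx

theorem sum_zeros {t : K} (ht : Transcendental L t) (Z : Finset (Place L K))
    (hZ : ∀ P, P ∈ Z ↔ P.v t < 1) : ∑ P ∈ Z, -log (P.v t) = Module.finrank L⟮t⟯ K := by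
  obtain ⟨Z', h1, h2⟩ := (model ht).fund
  rwa [show Z = Z' from Finset.ext fun P => (hZ P).trans (h1 P).symm]

theorem exists_poles {t : K} (ht : Transcendental L t) : ∃ Z : Finset (Place L K),
    (∀ P, P ∈ Z ↔ 1 < P.v t) ∧ ∑ P ∈ Z, log (P.v t) = Module.finrank L⟮t⟯ K := by
  obtain ⟨Z, h1, h2⟩ := (model (trans_inv ht)).fund
  refine ⟨Z, fun P => (h1 P).trans ?_, by rw [adjoin_inv] at h2; simpa using h2⟩
  rw [map_inv₀, inv_lt_one₀ (zero_lt_iff.2 (by simpa using trans_ne ht))]

theorem finite_supp {x : K} (hx : x ≠ 0) : {P : Place L K | P.v x ≠ 1}.Finite := by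
  rcases const_or_trans (L := L) x with ⟨c, rfl⟩ | ht
  · refine Set.finite_empty.subset fun P h => h (P.v_const fun h => hx (by rw [h, map_zero]))
  obtain ⟨Z, h1, -⟩ := (model ht).fund
  obtain ⟨Z', h2, -⟩ := exists_poles ht
  exact (Z.finite_toSet.union Z'.finite_toSet).subset fun P h =>
    (lt_or_gt_of_ne h).imp (h1 P).2 (h2 P).2

theorem prod_formula {x : K} (hx : x ≠ 0) (Z : Finset (Place L K))
    (hZ : ∀ P, P.v x ≠ 1 → P ∈ Z) : ∑ P ∈ Z, log (P.v x) = 0 := by
  classical
  rcases const_or_trans (L := L) x with ⟨c, rfl⟩ | ht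
  · exact Finset.sum_eq_zero fun P _ => by
      rw [P.v_const fun h => hx (by rw [h, map_zero]), log_one]
  obtain ⟨Z₁, h1, e1⟩ := (model ht).fund
  obtain ⟨Z₂, h2, e2⟩ := exists_poles ht
  rw [← Finset.sum_subset (s₁ := Z₁ ∪ Z₂) (fun P h => hZ P ((Finset.mem_union.1 h).elim
      (fun h => ((h1 P).1 h).ne) fun h => ((h2 P).1 h).ne')) fun P _ h => by
        rw [Finset.mem_union, h1, h2, not_or, not_lt, not_lt] at h
        rw [le_antisymm h.2 h.1, log_one],
    Finset.sum_union (Finset.disjoint_left.2 fun P a b => ((h1 P).1 a).asymm ((h2 P).1 b)), e2,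
    ← e1, Finset.sum_neg_distrib, add_neg_cancel]

omit [IsAlgClosed L] in
theorem exists_dt {t : K} (ht : Transcendental L t) : ∃ D : Derivation L K K, D t = 1 ∧
    (∀ x, KaehlerDifferential.D L K x = D x • KaehlerDifferential.D L K t) ∧
    ∀ (δ : Derivation L K K) x, δ x = D x * δ t := by
  have := FF.fin t ht
  obtain ⟨D, h1, h2⟩ := exists_basis_der (L := L) (fun _ : Fin 1 => t)
    (isTranscendenceBasis_iff_algebraicIndependent_isAlgebraic.2
      ⟨algebraicIndependent_unique_type_iff.2 ht, by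
        rw [Set.range_const, ← IntermediateField.isAlgebraic_adjoin_iff_top]; infer_instance⟩)
  refine ⟨D 0, by simpa using h1 0 0, fun x => by simpa using h2 x, fun δ x => ?_⟩
  have := congrArg δ.liftKaehlerDifferential (h2 x)
  simpa using this

theorem Place.v_der (P : Place L K) (δ : Derivation L K K) {a : K} (ha : P.v a ≤ 1) :
    P.v (δ a) ≤ P.v (δ P.π) := by
  obtain ⟨D, h1, -, h2⟩ := exists_dt P.π_trans
  obtain ⟨d, d0, hd⟩ := (model P.π_trans).exists_der_den P.π_trans D h1
  have key : ∀ N : ℕ, (∀ a, P.v a ≤ 1 → P.v (D a) ≤ exp (N : ℤ)) → ∀ a, P.v a ≤ 1 → P.v (D a) ≤ 1 := by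
    intro N
    induction N with
    | zero => exact id
    | succ N ih =>
      refine fun h => ih fun a ha => ?_
      obtain ⟨c, hc⟩ := P.res ha
      have h3 := P.le_π hc
      have e : D a = (a - algebraMap L K c) / P.π + P.π * D ((a - algebraMap L K c) / P.π) := by
        have := D.leibniz P.π ((a - algebraMap L K c) / P.π)
        rw [mul_div_cancel₀ _ P.π_ne, h1] at this
        simpa [add_comm] using this
      rw [e]
      refine P.v.map_add_le (h3.trans (by rw [← exp_zero, exp_le_exp]; omega)) ?_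
      rw [map_mul, P.v_π]
      refine (mul_le_mul_right (h _ h3) _).trans ?_
      rw [← exp_add, exp_le_exp]; omega
  rw [h2 δ a, map_mul]
  refine mul_le_of_le_one_left' (key (-log (P.v d)).toNat (fun a ha => ?_) a ha)
  have := (model P.π_trans).v_der_le hd P P.v_π_le a ha
  have h0 : P.v d ≠ 0 := by simpa using d0
  rw [map_mul, mul_comm, ← le_mul_inv_iff₀ (zero_lt_iff.2 h0), one_mul, ← exp_log h0,
    ← exp_neg] at this
  exact this.trans (exp_le_exp.2 (Int.self_le_toNat _))

theorem Place.der_π_ne (P : Place L K) {δ : Derivation L K K} (h : δ ≠ 0) : δ P.π ≠ 0 := by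
  obtain ⟨D, -, -, h2⟩ := exists_dt P.π_trans
  exact fun e => h (Derivation.ext fun x => by rw [h2 δ x, e, mul_zero]; rfl)

theorem Place.v_der_eq (P : Place L K) {δ : Derivation L K K} (h : δ ≠ 0) {s : K} (h0 : s ≠ 0)
    (h1 : P.v s ≠ 1) : P.v (δ s) = P.v s * exp 1 * P.v (δ P.π) := by
  have : CharZero K := charZero_of_injective_algebraMap (algebraMap L K).injective
  have hu := P.v_unit h0
  have hπ := P.π_ne
  have hs : P.v s ≠ 0 := by simpa using h0
  have hz : log (P.v s) ≠ 0 := fun e => h1 (by rw [← exp_log hs, e, exp_zero])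
  have h3 : P.π ^ log (P.v s) ≠ 0 := zpow_ne_zero _ hπ
  have e : δ s = s * (-((log (P.v s) : ℤ) : K) * P.π⁻¹ * δ P.π +
      (s * P.π ^ log (P.v s))⁻¹ * δ (s * P.π ^ log (P.v s))) := by
    simp only [Derivation.leibniz, Derivation.leibniz_zpow, zsmul_eq_mul, zpow_sub_one₀ hπ,
      smul_eq_mul]
    field_simp
    ring
  have e1 : P.v (-((log (P.v s) : ℤ) : K) * P.π⁻¹ * δ P.π) = exp 1 * P.v (δ P.π) := by
    have := P.v_const (c := ((log (P.v s) : ℤ) : L)) (Int.cast_ne_zero.2 hz)
    rw [map_intCast] at this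
    rw [map_mul, map_mul, Valuation.map_neg, this, map_inv₀, P.v_π, ← exp_neg, neg_neg, one_mul]
  rw [e, map_mul, P.v.map_add_eq_of_lt_left, e1, mul_assoc]
  rw [e1, map_mul, map_inv₀, hu, inv_one, one_mul, mul_comm (exp 1),
    lt_mul_exp_iff_le (by simpa using P.der_π_ne h)]
  exact P.v_der δ hu.le

/-- The order at `P` of the differential dual to `δ`. -/
noncomputable def Place.κ (P : Place L K) (δ : Derivation L K K) : ℤ := log (P.v (δ P.π))

theorem Place.κ_eq (P : Place L K) {δ : Derivation L K K} {s : K} (h : δ s = 1) (h0 : s ≠ 0)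
    (h1 : P.v s ≠ 1) : P.κ δ = -log (P.v s) - 1 := by
  have hδ : δ ≠ 0 := by rintro rfl; simp at h
  have := congrArg log (P.v_der_eq hδ h0 h1)
  rw [h, map_one, log_one, log_mul (by simpa using h0) (by simpa using P.der_π_ne hδ),
    log_mul (by simpa using h0) exp_ne_zero, log_exp] at this
  rw [Place.κ]; omega

theorem finite_κ {t : K} (ht : Transcendental L t) {D : Derivation L K K} (hD : D t = 1) :
    {P : Place L K | P.κ D ≠ 0}.Finite := by
  obtain ⟨d, d0, hd⟩ := (model ht).exists_der_den ht D hD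
  obtain ⟨Z, hZ, -⟩ := exists_poles ht
  refine (Z.finite_toSet.union (finite_supp d0)).subset fun P h => by_contra fun hc => h ?_
  simp only [Set.mem_union, Finset.mem_coe, hZ, Set.mem_ofPred_eq, not_or, not_lt, not_not] at hc
  have h1 := (model ht).v_der_le hd P hc.1 _ P.v_π_le
  have h2 := P.v_der D hc.1
  rw [map_mul, hc.2, one_mul] at h1
  rw [hD, map_one] at h2
  rw [Place.κ, le_antisymm h1 h2, log_one]

end Pool.Agent.P.MP_6f117a_ag
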