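import Mathlib

/-! Vanishing sums of units: the ratios of the terms of a minimal vanishing sum have bounded
weight in any filtration that is stable under enough derivations. -/

namespace Pool.Agent.P.MP_6f117a_ag

universe u

/-- A weight filtration on a field, stable under a family of derivations. -/
structure Filt (L K : Type u) [Field L] [Field K] [Algebra L K] where
  k : ℕ
  der : Fin k → Derivation L K K
  Q : ℕ → Set K
  U : Set K
  mono : ∀ {a b x}, a ≤ b → x ∈ Q a → x ∈ Q b
  mul : ∀ {a b x y}, x ∈ Q a → y ∈ Q b → x * y ∈ Q (a + b)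
  add : ∀ {a b x y}, x ∈ Q a → y ∈ Q b → x + y ∈ Q (a + b)
  inv : ∀ {a x}, x ∈ Q a → x⁻¹ ∈ Q a
  const : ∀ {x}, (∀ i, der i x = 0) → x ∈ Q 0
  derQ : ∀ {a x} (i), x ∈ Q a → der i x ∈ Q (2 * a + 1)
  ne : ∀ {x}, x ∈ U → x ≠ 0
  div : ∀ {x y}, x ∈ U → y ∈ U → x / y ∈ U
  logU : ∀ {x} (i), x ∈ U → der i x / x ∈ Q 1

theorem exists_min_zero {K ι : Type*} [AddCommMonoid K] (y : ι → K) (s : Finset ι)
    (hs : s.Nonempty) (h0 : ∑ j ∈ s, y j = 0) :
    ∃ C ⊆ s, C.Nonempty ∧ ∑ j ∈ C, y j = 0 ∧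
      ∀ C' ⊆ C, C'.Nonempty → C' ≠ C → ∑ j ∈ C', y j ≠ 0 := by
  classical
  induction s using Finset.strongInduction with
  | H s ih =>
    by_cases h : ∀ C' ⊆ s, C'.Nonempty → C' ≠ s → ∑ j ∈ C', y j ≠ 0
    · exact ⟨s, le_rfl, hs, h0, h⟩
    · push Not at h
      obtain ⟨C', h1, h2, h3, h4⟩ := h
      obtain ⟨C, a1, a2⟩ := ih C' (Finset.ssubset_iff_subset_ne.2 ⟨h1, h3⟩) h2 h4
      exact ⟨C, a1.trans h1, a2⟩

namespace Filt

variable {L K : Type u} [Field L] [Field K] [Algebra L K] (F : Filt L K)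

theorem zero_mem (a : ℕ) : (0 : K) ∈ F.Q a := F.mono (Nat.zero_le a) (F.const fun _ => by simp)

theorem one_mem (a : ℕ) : (1 : K) ∈ F.Q a := F.mono (Nat.zero_le a) (F.const fun _ => by simp)

theorem divQ {a b : ℕ} {x y : K} (hx : x ∈ F.Q a) (hy : y ∈ F.Q b) : x / y ∈ F.Q (a + b) := by
  rw [div_eq_mul_inv]; exact F.mul hx (F.inv hy)

theorem sum_mem {ι : Type*} (s : Finset ι) (y : ι → K) (a : ℕ) (h : ∀ j ∈ s, y j ∈ F.Q a) :
    ∑ j ∈ s, y j ∈ F.Q (s.card * a) := by
  classical
  induction s using Finset.induction_on with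
  | empty => simpa using F.zero_mem 0
  | insert j s hj ih =>
    rw [Finset.sum_insert hj, Finset.card_insert_of_notMem hj, add_mul, one_mul, add_comm _ a]
    exact F.add (h j (by simp)) (ih fun i hi => h i (by simp [hi]))

end Filt

/-- The statement proved by induction on the number of terms. -/
def Bnd (N c c' : ℕ) : Prop :=
  ∀ (L K : Type u) [Field L] [Field K] [Algebra L K] (F : Filt L K) (ι : Type) (s : Finset ι)
    (x q : ι → K), s.card ≤ N → (∀ j ∈ s, x j ∈ F.U) → (∀ j ∈ s, q j ∈ F.Q c ∧ q j ≠ 0) →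
    ∑ j ∈ s, x j * q j = 0 → (∀ C ⊆ s, C.Nonempty → C ≠ s → ∑ j ∈ C, x j * q j ≠ 0) →
    ∀ j ∈ s, ∀ l ∈ s, x j / x l ∈ F.Q c'

theorem step_block {N c g : ℕ} (ih : Bnd.{u} N (6 * c + 2) g)
    {L K : Type u} [Field L] [Field K] [Algebra L K] (F : Filt L K) {ι : Type} (s : Finset ι)
    (x q : ι → K) (hN : s.card ≤ N + 1) (hx : ∀ j ∈ s, x j ∈ F.U)
    (hq : ∀ j ∈ s, q j ∈ F.Q c ∧ q j ≠ 0) (h0 : ∑ j ∈ s, x j * q j = 0)
    {j₁ j₀ : ι} (h₁ : j₁ ∈ s) (h₀ : j₀ ∈ s) (hne : j₁ ≠ j₀) :
    ∃ C ⊆ s, 2 ≤ C.card ∧ ∀ j ∈ C, ∀ l ∈ C, x j / x l ∈ F.Q (2 * c + g) := by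
  classical
  have x0 := F.ne (hx _ h₀)
  have q0 := (hq _ h₀).2
  by_cases hc : ∀ i, F.der i (x j₁ * q j₁ / (x j₀ * q j₀)) = 0
  · have x1 := F.ne (hx _ h₁)
    have q1 := (hq _ h₁).2
    have e : x j₁ / x j₀ = x j₁ * q j₁ / (x j₀ * q j₀) * (q j₀ / q j₁) := by field_simp
    have m : x j₁ / x j₀ ∈ F.Q (2 * c + g) := by
      rw [e]
      exact F.mono (by omega) (F.mul (F.const hc) (F.divQ (hq _ h₀).1 (hq _ h₁).1))
    refine ⟨{j₁, j₀}, by simp [Finset.insert_subset_iff, h₁, h₀], by simp [hne], ?_⟩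
    intro j hj l hl
    simp only [Finset.mem_insert, Finset.mem_singleton] at hj hl
    rcases hj with rfl | rfl <;> rcases hl with rfl | rfl
    · rw [div_self x1]; exact F.one_mem _
    · exact m
    · rw [← inv_div]; exact F.inv m
    · rw [div_self x0]; exact F.one_mem _
  · push Not at hc
    obtain ⟨i, hi⟩ := hc
    set q' : ι → K := fun j => q j / q j₀ * (F.der i (x j / x j₀) / (x j / x j₀)) +
      F.der i (q j / q j₀) with hq'
    have e : ∀ j ∈ s, x j / x j₀ * q' j = F.der i (x j * q j / (x j₀ * q j₀)) := by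
      intro j hj
      have xj := F.ne (hx _ hj)
      rw [mul_div_mul_comm, Derivation.leibniz, hq']
      simp only [smul_eq_mul]
      field_simp
      ring
    have m : ∀ j ∈ s, q' j ∈ F.Q (6 * c + 2) := fun j hj =>
      F.mono (by omega) (F.add (F.mul (F.divQ (hq _ hj).1 (hq _ h₀).1)
        (F.logU i (F.div (hx _ hj) (hx _ h₀)))) (F.derQ i (F.divQ (hq _ hj).1 (hq _ h₀).1)))
    set s' := s.filter fun j => q' j ≠ 0 with hs'
    have sub : s' ⊆ s := Finset.filter_subset _ _
    have z : ∑ j ∈ s', x j / x j₀ * q' j = 0 := by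
      rw [hs', Finset.sum_filter_of_ne fun j _ h => right_ne_zero_of_mul h,
        Finset.sum_congr rfl e, ← map_sum, ← Finset.sum_div, h0, zero_div, map_zero]
    have n1 : j₁ ∈ s' := Finset.mem_filter.2 ⟨h₁, fun h => hi (by rw [← e _ h₁, h, mul_zero])⟩
    have n0 : j₀ ∉ s' := fun h => (Finset.mem_filter.1 h).2 (by simp [hq', x0, q0])
    obtain ⟨C, c1, c2, c3, c4⟩ := exists_min_zero _ s' ⟨_, n1⟩ z
    have cN : C.card ≤ N := by
      have : C ⊆ s.erase j₀ := fun j hj =>
        Finset.mem_erase.2 ⟨fun h => n0 (h ▸ c1 hj), sub (c1 hj)⟩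
      have := Finset.card_le_card this
      rw [Finset.card_erase_of_mem h₀] at this
      omega
    have r := ih L K F ι C (fun j => x j / x j₀) q' cN
      (fun j hj => F.div (hx _ (sub (c1 hj))) (hx _ h₀))
      (fun j hj => ⟨m j (sub (c1 hj)), (Finset.mem_filter.1 (c1 hj)).2⟩) c3 c4
    refine ⟨C, c1.trans sub, ?_, fun j hj l hl => ?_⟩
    · by_contra hlt
      obtain ⟨j, rfl⟩ := Finset.card_eq_one.1 (show C.card = 1 by
        have := c2.card_pos; omega)
      have hj := c1 (Finset.mem_singleton_self j)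
      rw [Finset.sum_singleton] at c3
      exact mul_ne_zero (F.ne (F.div (hx _ (sub hj)) (hx _ h₀))) (Finset.mem_filter.1 hj).2 c3
    · have := r j hj l hl
      rw [div_div_div_cancel_right₀ x0] at this
      exact F.mono (by omega) this

theorem exists_bnd (N : ℕ) : ∀ c, ∃ c', Bnd.{u} N c c' := by
  induction N with
  | zero =>
    refine fun c => ⟨0, fun L K _ _ _ F ι s x q hN _ _ _ _ j hj => ?_⟩
    simp [Finset.card_eq_zero.1 (Nat.le_zero.1 hN)] at hj
  | succ N ih =>
    intro c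
    obtain ⟨g, hg⟩ := ih (6 * c + 2)
    obtain ⟨g', hg'⟩ := ih ((N + 1) * (2 * c + g + c))
    refine ⟨2 * (2 * c + g + g'), fun L K _ _ _ F ι s x q hN hx hq h0 hmin j₁ h₁ j₀ h₀ => ?_⟩
    classical
    by_cases hne : j₁ = j₀
    · rw [hne, div_self (F.ne (hx _ h₀))]; exact F.one_mem _
    obtain ⟨C, c1, c2, c3⟩ := step_block hg F s x q hN hx hq h0 h₁ h₀ hne
    by_cases hC : C = s
    · exact F.mono (by omega) (c3 _ (hC ▸ h₁) _ (hC ▸ h₀))
    obtain ⟨l, hl⟩ : C.Nonempty := Finset.card_pos.1 (by omega)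
    have xl := F.ne (hx _ (c1 hl))
    set q' : ι → K := Function.update q l (∑ j ∈ C, x j / x l * q j) with hq'
    have el : x l * q' l = ∑ j ∈ C, x j * q j := by
      rw [hq', Function.update_self, Finset.mul_sum]
      exact Finset.sum_congr rfl fun j _ => by field_simp
    have eo : ∀ A ⊆ s \ C, ∑ j ∈ A, x j * q' j = ∑ j ∈ A, x j * q j := fun A hA =>
      Finset.sum_congr rfl fun j hj => by
        rw [hq', Function.update_of_ne]
        rintro rfl
        exact (Finset.mem_sdiff.1 (hA hj)).2 hl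
    have ei : ∀ A ⊆ s \ C, ∑ j ∈ insert l A, x j * q' j = ∑ j ∈ C ∪ A, x j * q j := by
      intro A hA
      rw [Finset.sum_insert fun h => (Finset.mem_sdiff.1 (hA h)).2 hl, el, eo A hA,
        Finset.sum_union]
      exact Finset.disjoint_left.2 fun j hj h => (Finset.mem_sdiff.1 (hA h)).2 hj
    have sub : insert l (s \ C) ⊆ s := Finset.insert_subset (c1 hl) Finset.sdiff_subset
    have r := hg' L K F ι (insert l (s \ C)) x q'
      (by
        have := Finset.card_insert_le l (s \ C)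
        rw [Finset.card_sdiff_of_subset c1] at this
        have := Finset.card_le_card c1
        omega)
      (fun j hj => hx j (sub hj))
      (by
        intro j hj
        by_cases e : j = l
        · subst e
          refine ⟨?_, fun h => hmin C c1 ⟨j, hl⟩ hC (by rw [← el, h, mul_zero])⟩
          rw [hq', Function.update_self]
          exact F.mono (Nat.mul_le_mul_right _ ((Finset.card_le_card c1).trans hN))
            (F.sum_mem C _ _ fun i hi => F.mul (c3 i hi j hl) (hq i (c1 hi)).1)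
        · rw [hq', Function.update_of_ne e]
          exact ⟨F.mono (by nlinarith) (hq j (sub hj)).1, (hq j (sub hj)).2⟩)
      (by rw [ei _ le_rfl, Finset.union_sdiff_of_subset c1, h0])
      (by
        intro A hA hne hAne
        by_cases hlA : l ∈ A
        · have hA' : A.erase l ⊆ s \ C := fun j hj =>
            (Finset.mem_insert.1 (hA (Finset.mem_erase.1 hj).2)).resolve_left
              (Finset.mem_erase.1 hj).1
          rw [← Finset.insert_erase hlA, ei _ hA']
          refine hmin _ (Finset.union_subset c1 (hA'.trans Finset.sdiff_subset))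
            ⟨l, by simp [hl]⟩ fun h => hAne (Finset.Subset.antisymm hA fun j hj => ?_)
          rcases Finset.mem_insert.1 hj with rfl | hj
          · exact hlA
          · have := Finset.mem_sdiff.1 hj
            have h2 : j ∈ C ∪ A.erase l := h ▸ this.1
            exact Finset.mem_of_mem_erase ((Finset.mem_union.1 h2).resolve_left this.2)
        · have hA' : A ⊆ s \ C := fun j hj =>
            (Finset.mem_insert.1 (hA hj)).resolve_left fun e => hlA (e ▸ hj)
          rw [eo A hA']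
          refine hmin A (hA'.trans Finset.sdiff_subset) hne fun h => hlA (h ▸ c1 hl))
    have key : ∀ j ∈ s, x j / x l ∈ F.Q (2 * c + g + g') := by
      intro j hj
      by_cases e : j ∈ C
      · exact F.mono (by omega) (c3 j e l hl)
      · exact F.mono (by omega) (r j (by simp [hj, e]) l (by simp))
    have := F.divQ (key _ h₁) (key _ h₀)
    rw [div_div_div_cancel_right₀ xl] at this
    exact F.mono (by omega) this

/-- A vanishing sum splits along any function that is constant on pairs with ratio of small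
weight. -/
theorem split_sum {N c' : ℕ} (hB : Bnd.{u} N 0 c')
    {L K : Type u} [Field L] [Field K] [Algebra L K] (F : Filt L K) {ι A : Type} [DecidableEq A]
    (x q : ι → K) (f : ι → A) (s : Finset ι) (hN : s.card ≤ N) (hx : ∀ j ∈ s, x j ∈ F.U)
    (hq : ∀ j ∈ s, q j ∈ F.Q 0 ∧ q j ≠ 0) (h0 : ∑ j ∈ s, x j * q j = 0)
    (hf : ∀ j ∈ s, ∀ l ∈ s, x j / x l ∈ F.Q c' → f j = f l) (γ : A) :
    ∑ j ∈ s with f j = γ, x j * q j = 0 := by
  classical
  induction s using Finset.strongInduction with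
  | H s ih =>
    rcases s.eq_empty_or_nonempty with rfl | hs
    · simp
    obtain ⟨C, c1, c2, c3, c4⟩ := exists_min_zero _ s hs h0
    have r := hB L K F ι C x q ((Finset.card_le_card c1).trans hN) (fun j hj => hx j (c1 hj))
      (fun j hj => hq j (c1 hj)) c3 c4
    have sub : s \ C ⊆ s := Finset.sdiff_subset
    have i1 := ih (s \ C) (Finset.sdiff_ssubset c1 c2) ((Finset.card_le_card sub).trans hN)
      (fun j hj => hx j (sub hj)) (fun j hj => hq j (sub hj))
      (by have := Finset.sum_sdiff (f := fun j => x j * q j) c1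
          rwa [c3, h0, add_zero] at this)
      (fun j hj l hl => hf j (sub hj) l (sub hl))
    have i2 : ∑ j ∈ C with f j = γ, x j * q j = 0 := by
      by_cases e : ∃ l ∈ C, f l = γ
      · obtain ⟨l, hl, rfl⟩ := e
        rw [Finset.filter_true_of_mem fun j hj => hf j (c1 hj) l (c1 hl) (r j hj l hl), c3]
      · rw [Finset.filter_false_of_mem fun j hj h => e ⟨j, hj, h⟩, Finset.sum_empty]
    rw [← Finset.sdiff_union_of_subset c1, Finset.filter_union, Finset.sum_union, i1, i2, add_zero]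
    exact Finset.disjoint_filter_filter Finset.sdiff_disjoint

end Pool.Agent.P.MP_6f117a_ag
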