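import Pool.Agent.P.MP_6f117a_ag.Defs
import Pool.Agent.P.MP_6f117a_ag.Filt

/-! Logarithmic pluricanonical forms and the filtration by quotients of such forms. -/

namespace Pool.Agent.P.MP_6f117a_ag

open WithZero

universe u

variable {L K : Type u} [Field L] [Field K] [Algebra L K] {k : ℕ}

namespace Place

variable (P : Place L K)

/-- A uniformiser. -/
noncomputable def π : K := Classical.choose (P.surj (exp (-1)))

theorem v_π : P.v P.π = exp (-1) := Classical.choose_spec (P.surj (exp (-1)))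

theorem π_ne : P.π ≠ 0 := fun h => by simpa [h] using P.v_π.symm

theorem v_π_le : P.v P.π ≤ 1 := by rw [P.v_π, ← exp_zero, exp_le_exp]; omega

theorem mul_mem {M : Submodule P.v.integer K} {a x : K} (ha : P.v a ≤ 1) (hx : x ∈ M) :
    a * x ∈ M := M.smul_mem (⟨a, ha⟩ : P.v.integer) hx

theorem smul_mem {V : Type*} [AddCommGroup V] [Module K V] {M : Submodule P.v.integer V} {a : K}
    {x : V} (ha : P.v a ≤ 1) (hx : x ∈ M) : a • x ∈ M :=
  M.smul_mem (⟨a, ha⟩ : P.v.integer) hx

theorem v_unit {x : K} (hx : x ≠ 0) : P.v (x * P.π ^ (log (P.v x))) = 1 := by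
  rw [map_mul, map_zpow₀, P.v_π, ← exp_zsmul, ← exp_log ((map_ne_zero P.v).2 hx), ← exp_add]
  simp

theorem le_π {x : K} (hx : P.v x < 1) : P.v (x / P.π) ≤ 1 := by
  rcases eq_or_ne x 0 with rfl | h
  · simp
  have h' := (map_ne_zero P.v).2 h
  rw [← exp_log h', ← exp_zero, exp_lt_exp] at hx
  rw [map_div₀, P.v_π, ← exp_log h', ← exp_sub, ← exp_zero, exp_le_exp]
  omega

end Place

variable (D : Fin k → Derivation L K K) (P : Place L K)

/-- Regular top forms at a place. -/
def Jm : Submodule P.v.integer K := Submodule.span P.v.integer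
  {J | ∃ a : Fin k → K, (∀ j, P.v (a j) ≤ 1) ∧ J = (Matrix.of fun i j => D i (a j)).det}

theorem mem_pluri {r : ℕ} {h : K} : h ∈ Pluri D r ↔ ∀ P : Place L K, h ∈ Jm D P ^ r := Iff.rfl

/-- The differential of `a` in the frame dual to `D`. -/
def dv (a : K) : Fin k → K := fun i => D i a

/-- Regular one-forms at a place. -/
def Nm : Submodule P.v.integer (Fin k → K) :=
  Submodule.span P.v.integer {c | ∃ a, P.v a ≤ 1 ∧ c = dv D a}

theorem dv_mem {a : K} (ha : P.v a ≤ 1) : dv D a ∈ Nm D P := Submodule.subset_span ⟨a, ha, rfl⟩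

theorem detA (c : Matrix (Fin k) (Fin k) K) (h : ∀ j, c j ∈ Nm D P) : c.det ∈ Jm D P := by
  classical
  suffices H : ∀ (s : Finset (Fin k)) (c : Matrix (Fin k) (Fin k) K), (∀ j ∈ s, c j ∈ Nm D P) →
      (∀ j ∉ s, ∃ a, P.v a ≤ 1 ∧ c j = dv D a) → c.det ∈ Jm D P from
    H Finset.univ c (fun j _ => h j) (by simp)
  intro s
  induction s using Finset.induction_on with
  | empty =>
    intro c _ h2
    choose a ha using fun j => h2 j (by simp)
    refine Submodule.subset_span ⟨a, fun j => (ha j).1, ?_⟩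
    rw [← Matrix.det_transpose]
    congr 1
    ext i j
    simp [(ha j).2, dv]
  | insert j s hj ih =>
    intro c h1 h2
    have key : ∀ y ∈ Nm D P, (c.updateRow j y).det ∈ Jm D P := by
      intro y hy
      induction hy using Submodule.span_induction with
      | mem y hy =>
        refine ih _ (fun i hi => ?_) fun i hi => ?_
        · rw [Matrix.updateRow_ne (by rintro rfl; exact hj hi)]
          exact h1 i (by simp [hi])
        · by_cases e : i = j
          · rw [e, Matrix.updateRow_self]; exact hy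
          · rw [Matrix.updateRow_ne e]; exact h2 i (by simp [e, hi])
      | zero =>
        rw [Matrix.det_eq_zero_of_row_eq_zero j (by simp)]
        exact zero_mem _
      | add y z _ _ hy hz => rw [Matrix.det_updateRow_add]; exact add_mem hy hz
      | smul a y _ hy =>
        have : a • y = (a : K) • y := rfl
        rw [this, Matrix.det_updateRow_smul]
        exact P.mul_mem a.2 hy
    simpa using key _ (h1 j (by simp))

theorem logD {x : K} (hx : x ≠ 0) :
    x⁻¹ • dv D x - ((-log (P.v x) : ℤ) : K) • P.π⁻¹ • dv D P.π ∈ Nm D P := by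
  have h1 := P.v_unit hx
  have hπ := P.π_ne
  have h2 : P.v (x * P.π ^ log (P.v x))⁻¹ ≤ 1 := by rw [map_inv₀, h1, inv_one]
  have := P.smul_mem h2 (dv_mem D P h1.le)
  refine (congrArg (· ∈ Nm D P) (funext fun i => ?_)).mp this
  have h3 : P.π ^ log (P.v x) ≠ 0 := zpow_ne_zero _ hπ
  simp only [dv, Pi.smul_apply, Pi.sub_apply, smul_eq_mul, Derivation.leibniz,
    Derivation.leibniz_zpow, zsmul_eq_mul, zpow_sub_one₀ hπ, Int.cast_neg]
  field_simp
  ring

theorem detB [CharZero L] (c : Matrix (Fin k) (Fin k) K) (z : Fin k → ℤ)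
    (h : ∀ j, c j - (z j : K) • P.π⁻¹ • dv D P.π ∈ Nm D P) : P.π * c.det ∈ Jm D P := by
  by_cases hz : ∀ j, z j = 0
  · exact P.mul_mem P.v_π_le (detA D P c fun j => by simpa [hz j] using h j)
  push Not at hz
  obtain ⟨j₀, hj₀⟩ := hz
  have : CharZero K := charZero_of_injective_algebraMap (algebraMap L K).injective
  have hz0 : (z j₀ : K) ≠ 0 := Int.cast_ne_zero.2 hj₀
  have vz : ∀ j, P.v ((z j : K) / z j₀) ≤ 1 := fun j => by
    simpa using P.triv ((z j : L) / z j₀)
  have vz' : P.v (z j₀ : K) ≤ 1 := by simpa using P.triv (z j₀ : L)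
  set B : Matrix (Fin k) (Fin k) K := Matrix.of fun j =>
    if j = j₀ then c j₀ else c j - ((z j : K) / z j₀) • c j₀ with hB
  have e : c.det = B.det := by
    refine Matrix.det_eq_of_forall_row_eq_smul_add_const
      (fun j => if j = j₀ then 0 else (z j : K) / z j₀) j₀ (by simp) fun i j => ?_
    by_cases e : i = j₀ <;> simp [hB, e]
  have e2 : P.π * B.det = (B.updateRow j₀ (P.π • B j₀)).det := by
    rw [Matrix.det_updateRow_smul, Matrix.updateRow_eq_self]
  rw [e, e2]
  refine detA D P _ fun j => ?_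
  by_cases e : j = j₀
  · rw [e, Matrix.updateRow_self]
    have := add_mem (P.smul_mem P.v_π_le (h j₀)) (P.smul_mem vz' (dv_mem D P P.v_π_le))
    refine (congrArg (· ∈ Nm D P) (funext fun i => ?_)).mp this
    have := P.π_ne
    simp only [hB, Pi.add_apply, Pi.smul_apply, Pi.sub_apply, smul_eq_mul, Matrix.of_apply,
      if_true]
    field_simp
    ring
  · rw [Matrix.updateRow_ne e]
    have := sub_mem (h j) (P.smul_mem (vz j) (h j₀))
    refine (congrArg (· ∈ Nm D P) (funext fun i => ?_)).mp this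
    simp only [hB, Pi.smul_apply, Pi.sub_apply, smul_eq_mul, Matrix.of_apply, if_neg e]
    field_simp
    ring

variable {I : Type} (ρ : I → K)

open Classical in
/-- A local equation of the reduced boundary divisor. -/
noncomputable def bd : K := if ∃ i, P.v (ρ i) ≠ 1 then P.π else 1

theorem v_bd : P.v (bd P ρ) ≤ 1 := by
  unfold bd; split_ifs
  · exact P.v_π_le
  · simp

/-- Functions invertible off the boundary. -/
def Un : Set K := {x | x ≠ 0 ∧ ∀ P : Place L K, P.v x ≠ 1 → ∃ i, P.v (ρ i) ≠ 1}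

theorem detC [CharZero L] (c : Matrix (Fin k) (Fin k) K)
    (h : ∀ j, (∃ a, P.v a ≤ 1 ∧ c j = dv D a) ∨ ∃ x ∈ Un (L := L) ρ, c j = x⁻¹ • dv D x) :
    bd P ρ * c.det ∈ Jm D P := by
  have H : ∀ j, ∃ z : ℤ, (z ≠ 0 → ∃ i, P.v (ρ i) ≠ 1) ∧
      c j - (z : K) • P.π⁻¹ • dv D P.π ∈ Nm D P := by
    intro j
    rcases h j with ⟨a, ha, e⟩ | ⟨x, hx, e⟩
    · exact ⟨0, by simp, by simpa [e] using dv_mem D P ha⟩
    · exact ⟨_, fun hz => hx.2 P fun h1 => hz (by simp [h1]), e ▸ logD D P hx.1⟩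
  choose z hz using H
  unfold bd
  split_ifs with hε
  · exact detB D P c z fun j => (hz j).2
  · rw [one_mul]
    refine detA D P c fun j => ?_
    have : z j = 0 := by_contra fun h => hε ((hz j).1 h)
    simpa [this] using (hz j).2

/-- Logarithmic pluricanonical forms of weight `c`. -/
def Lam (c : ℕ) (h : K) : Prop := ∀ P : Place L K, bd P ρ ^ c * h ∈ Jm D P ^ c

variable {D ρ}

theorem Lam.mul {a b : ℕ} {x y : K} (hx : Lam D ρ a x) (hy : Lam D ρ b y) :
    Lam D ρ (a + b) (x * y) := fun P => by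
  rw [pow_add, pow_add, mul_mul_mul_comm]
  exact Submodule.mul_mem_mul (hx P) (hy P)

theorem Lam.add {a : ℕ} {x y : K} (hx : Lam D ρ a x) (hy : Lam D ρ a y) :
    Lam D ρ a (x + y) := fun P => by
  rw [mul_add]; exact add_mem (hx P) (hy P)

theorem Lam.const (c : L) : Lam D ρ 0 (algebraMap L K c) := fun P => by
  rw [pow_zero, pow_zero, one_mul, Submodule.mem_one]
  exact ⟨⟨_, P.triv c⟩, rfl⟩

theorem Lam.pow {x : K} (hx : Lam D ρ 1 x) (a : ℕ) : Lam D ρ a (x ^ a) := by
  induction a with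
  | zero => simpa using Lam.const (D := D) (ρ := ρ) 1
  | succ a ih => rw [pow_succ]; exact ih.mul hx

variable (D ρ) (t : Fin k → I)

/-- The matrix of logarithmic differentials of the chosen coordinates. -/
def logM : Matrix (Fin k) (Fin k) K := Matrix.of fun j => (ρ (t j))⁻¹ • dv D (ρ (t j))

/-- The logarithmic vector fields dual to the chosen coordinates. -/
noncomputable def lder (i : Fin k) : Derivation L K K :=
  ∑ l, ((logM D ρ t).transpose.adjugate i l / (logM D ρ t).det) • D l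

theorem lder_apply (i : Fin k) (x : K) :
    lder D ρ t i x = ((logM D ρ t).updateRow i (dv D x)).det / (logM D ρ t).det := by
  rw [← Matrix.cramer_transpose_apply, Matrix.cramer_eq_adjugate_mulVec, lder,
    show (∑ l, ((logM D ρ t).transpose.adjugate i l / (logM D ρ t).det) • D l) x =
      ∑ l, (((logM D ρ t).transpose.adjugate i l / (logM D ρ t).det) • D l) x from
        (congrFun (map_sum Derivation.coeFnAddMonoidHom
          (fun l => ((logM D ρ t).transpose.adjugate i l / (logM D ρ t).det) • D l) Finset.univ)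
            x).trans (Finset.sum_apply _ _ _)]
  simp only [Matrix.mulVec, dotProduct, Finset.sum_div, Derivation.smul_apply, smul_eq_mul, dv]
  exact Finset.sum_congr rfl fun l _ => by ring

variable {ρ}

theorem mem_Un (hρ : ∀ i, ρ i ≠ 0) (i : I) : ρ i ∈ Un (L := L) ρ := ⟨hρ i, fun _ h => ⟨i, h⟩⟩

variable [CharZero L]

theorem det_mem (hρ : ∀ i, ρ i ≠ 0) : Lam D ρ 1 (logM D ρ t).det := fun P => by
  rw [pow_one, pow_one]
  exact detC D P ρ _ fun j => .inr ⟨_, mem_Un hρ (t j), rfl⟩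

theorem upd_mem (hρ : ∀ i, ρ i ≠ 0) (i : Fin k) (y : Fin k → K)
    (hy : (∃ a, P.v a ≤ 1 ∧ y = dv D a) ∨ ∃ x ∈ Un (L := L) ρ, y = x⁻¹ • dv D x) :
    bd P ρ * ((logM D ρ t).updateRow i y).det ∈ Jm D P := by
  refine detC D P ρ _ fun j => ?_
  by_cases e : j = i
  · rw [e, Matrix.updateRow_self]; exact hy
  · rw [Matrix.updateRow_ne e]; exact .inr ⟨_, mem_Un hρ (t j), rfl⟩

/-- The filtration by quotients of logarithmic pluricanonical forms. -/
noncomputable def logFilt (hρ : ∀ i, ρ i ≠ 0) (hω : (logM D ρ t).det ≠ 0)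
    (hc : ∀ x, (∀ i, D i x = 0) → ∃ c, algebraMap L K c = x) : Filt L K where
  k := k
  der := lder D ρ t
  Q c := {x | ∃ σ, Lam D ρ c σ ∧ ∃ τ, Lam D ρ c τ ∧ τ ≠ 0 ∧ x = σ / τ}
  U := Un (L := L) ρ
  mono := by
    rintro a b x hab ⟨σ, hσ, τ, hτ, h0, rfl⟩
    obtain ⟨d, rfl⟩ := Nat.exists_eq_add_of_le hab
    have := Lam.pow (det_mem D t hρ) d
    exact ⟨_, hσ.mul this, _, hτ.mul this, mul_ne_zero h0 (pow_ne_zero _ hω),
      (mul_div_mul_right _ _ (pow_ne_zero _ hω)).symm⟩
  mul := by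
    rintro a b x y ⟨σ, hσ, τ, hτ, h0, rfl⟩ ⟨σ', hσ', τ', hτ', h0', rfl⟩
    exact ⟨_, hσ.mul hσ', _, hτ.mul hτ', mul_ne_zero h0 h0', div_mul_div_comm _ _ _ _⟩
  add := by
    rintro a b x y ⟨σ, hσ, τ, hτ, h0, rfl⟩ ⟨σ', hσ', τ', hτ', h0', rfl⟩
    exact ⟨_, (hσ.mul hτ').add (hτ.mul hσ'), _, hτ.mul hτ', mul_ne_zero h0 h0',
      div_add_div _ _ h0 h0'⟩
  inv := by
    rintro a x ⟨σ, hσ, τ, hτ, h0, rfl⟩
    by_cases h : σ = 0
    · exact ⟨σ, hσ, τ, hτ, h0, by simp [h]⟩
    · exact ⟨τ, hτ, σ, hσ, h, inv_div _ _⟩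
  const := by
    intro x hx
    have h1 : (logM D ρ t).transpose.cramer (dv D x) = 0 := funext fun i => by
      have := hx i
      rw [lder_apply, div_eq_zero_iff, or_iff_left hω] at this
      rw [Matrix.cramer_transpose_apply, this, Pi.zero_apply]
    have h2 := Matrix.mulVec_cramer (logM D ρ t).transpose (dv D x)
    rw [h1, Matrix.mulVec_zero, Matrix.det_transpose, eq_comm, smul_eq_zero,
      or_iff_right hω] at h2
    obtain ⟨c, rfl⟩ := hc x fun i => congrFun h2 i
    exact ⟨_, Lam.const c, _, Lam.const 1, by simp, by simp⟩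
  derQ := by
    rintro a x i ⟨σ, hσ, τ, hτ, h0, rfl⟩
    refine ⟨τ * τ * ((logM D ρ t).updateRow i (dv D (σ / τ))).det, fun P => ?_,
      τ * τ * (logM D ρ t).det, two_mul a ▸ (hτ.mul hτ).mul (det_mem D t hρ),
      mul_ne_zero (mul_ne_zero h0 h0) hω, by
        rw [lder_apply, mul_div_mul_left _ _ (mul_ne_zero h0 h0)]⟩
    rw [pow_succ, pow_succ, mul_mul_mul_comm, two_mul]
    rcases le_total (P.v (σ / τ)) 1 with h | h
    · exact Submodule.mul_mem_mul (hτ.mul hτ P) (upd_mem D P t hρ i _ (.inl ⟨_, h, rfl⟩))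
    · have hσ0 : σ ≠ 0 := by rintro rfl; simp at h
      have h' : P.v (τ / σ) ≤ 1 := by
        rw [← inv_div, map_inv₀]; exact inv_le_one_of_one_le₀ h
      have e : dv D (σ / τ) = (-(σ / τ) ^ 2) • dv D (τ / σ) := funext fun l => by
        have := (D l).leibniz_inv (τ / σ)
        rw [inv_div] at this
        simp only [dv, this, Pi.smul_apply, smul_eq_mul]
      have := neg_mem (Submodule.mul_mem_mul (hσ.mul hσ P)
        (upd_mem D P t hρ i _ (.inl ⟨_, h', rfl⟩)))
      rw [e, Matrix.det_updateRow_smul]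
      refine (congrArg (· ∈ _) ?_).mp this
      field_simp
  ne := fun h => h.1
  div := by
    rintro x y hx hy
    refine ⟨div_ne_zero hx.1 hy.1, fun P h => ?_⟩
    by_cases e : P.v x = 1
    · exact hy.2 P fun e' => h (by simp [e, e'])
    · exact hx.2 P e
  logU := by
    intro x i hx
    refine ⟨((logM D ρ t).updateRow i (x⁻¹ • dv D x)).det, fun P => ?_, _, det_mem D t hρ, hω, ?_⟩
    · simpa using upd_mem D P t hρ i _ (.inr ⟨x, hx, rfl⟩)
    · rw [lder_apply, Matrix.det_updateRow_smul]; ring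

omit [CharZero L] in
theorem prod_mem_pow {M : Submodule P.v.integer K} (s : Finset I) (z : I → K) (c : ℕ)
    (h : ∀ i ∈ s, z i ∈ M ^ c) : ∏ i ∈ s, z i ∈ M ^ (s.card * c) := by
  classical
  induction s using Finset.induction_on with
  | empty => simp
  | insert j s hj ih =>
    rw [Finset.prod_insert hj, Finset.card_insert_of_notMem hj, add_mul, one_mul, add_comm,
      pow_add]
    exact Submodule.mul_mem_mul (h j (by simp)) (ih fun i hi => h i (by simp [hi]))

theorem interp_mem [Fintype I] (hρ : ∀ i, ρ i ≠ 0) {c : ℕ} (m a : I → ℕ) (σ τ : I → K)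
    (hσ : ∀ i, Lam D ρ c (σ i)) (hτ : ∀ i, Lam D ρ c (τ i)) (e : ∀ i, τ i * ρ i ^ m i = σ i)
    (h1 : ∀ i, Fintype.card I * c + 1 ≤ a i) (h2 : ∀ i, a i + (Fintype.card I * c + 1) ≤ m i) :
    (∏ i, τ i * ρ i ^ a i) * (logM D ρ t).det ∈ Pluri D (Fintype.card I * c + 1) := by
  classical
  rw [mem_pluri]
  intro P
  set R := Fintype.card I * c + 1 with hR
  have hπ := P.π_ne
  have A : ∀ i (z : K), (P.v (ρ i) ≤ 1 → P.v (ρ i ^ a i * z) ≤ 1) →
      (1 ≤ P.v (ρ i) → P.v ((ρ i)⁻¹ ^ (m i - a i) * z) ≤ 1) →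
      bd P ρ ^ c * (τ i * ρ i ^ a i * z) ∈ Jm D P ^ c := by
    intro i z z1 z2
    rcases le_total (P.v (ρ i)) 1 with h | h
    · refine (congrArg (· ∈ _) ?_).mp (P.mul_mem (z1 h) (hτ i P))
      ring
    · refine (congrArg (· ∈ _) ?_).mp (P.mul_mem (z2 h) (hσ i P))
      obtain ⟨d, hd⟩ := Nat.exists_eq_add_of_le ((Nat.le_add_right _ _).trans (h2 i))
      have := hρ i
      rw [← e i, hd, Nat.add_sub_cancel_left, pow_add, inv_pow]
      field_simp
  have A1 : ∀ i, bd P ρ ^ c * (τ i * ρ i ^ a i * 1) ∈ Jm D P ^ c := fun i =>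
    A i 1 (fun h => by rw [mul_one, map_pow]; exact pow_le_one₀ zero_le h)
      fun h => by rw [mul_one, map_pow, map_inv₀]; exact pow_le_one₀ zero_le (inv_le_one_of_one_le₀ h)
  have B : ∀ (x : K) (b : ℕ), P.v x < 1 → R ≤ b → P.v (x ^ b * P.π⁻¹ ^ R) ≤ 1 := by
    intro x b hx hb
    obtain ⟨d, rfl⟩ := Nat.exists_eq_add_of_le hb
    rw [show x ^ (R + d) * P.π⁻¹ ^ R = (x / P.π) ^ R * x ^ d by ring, map_mul, map_pow, map_pow]
    exact mul_le_one' (pow_le_one₀ zero_le (P.le_π hx)) (pow_le_one₀ zero_le hx.le)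
  have W := det_mem D t hρ P
  by_cases hε : ∃ i, P.v (ρ i) ≠ 1
  · obtain ⟨i₀, hi₀⟩ := id hε
    have := Submodule.mul_mem_mul (prod_mem_pow P Finset.univ (fun i => bd P ρ ^ c *
      (τ i * ρ i ^ a i * if i = i₀ then P.π⁻¹ ^ R else 1)) c fun i _ => by
        split_ifs with h
        · subst h
          refine A i _ (fun h => B _ _ (lt_of_le_of_ne h hi₀) (h1 i)) fun h => B _ _ ?_ ?_
          · rw [map_inv₀]; exact inv_lt_one_of_one_lt₀ (lt_of_le_of_ne h hi₀.symm)
          · have := h2 i; omega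
        · exact A1 i) W
    rw [← pow_add, Finset.card_univ] at this
    refine (congrArg (· ∈ _) ?_).mp this
    have hb : bd P ρ = P.π := if_pos hε
    rw [Finset.prod_mul_distrib, Finset.prod_mul_distrib, Finset.prod_ite_eq', Finset.prod_const,
      hb, Finset.card_univ, if_pos (Finset.mem_univ _), inv_pow, hR, ← pow_mul, mul_comm c]
    field_simp
    ring
  · have := Submodule.mul_mem_mul (prod_mem_pow P Finset.univ _ c fun i _ => A1 i) W
    rw [← pow_add, Finset.card_univ] at this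
    have hb : bd P ρ = 1 := if_neg hε
    simpa [hb, hR] using this

/-- If large powers of the `ρ i` are quotients of logarithmic forms, the `ρ i` are quotients of
regular pluricanonical forms. -/
theorem exists_pluri [Fintype I] (hρ : ∀ i, ρ i ≠ 0) (hω : (logM D ρ t).det ≠ 0)
    (hc : ∀ x, (∀ i, D i x = 0) → ∃ c, algebraMap L K c = x) {c : ℕ} (m : I → ℕ)
    (hm : ∀ i, 2 * (Fintype.card I * c + 1) + 1 ≤ m i)
    (hQ : ∀ i, ρ i ^ m i ∈ (logFilt D t hρ hω hc).Q c) :
    ∃ h : K, h ≠ 0 ∧ h ∈ Pluri D (Fintype.card I * c + 1) ∧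
      ∀ i, h * ρ i ∈ Pluri D (Fintype.card I * c + 1) := by
  classical
  choose σ hσ τ hτ h0 e using hQ
  have e' : ∀ i, τ i * ρ i ^ m i = σ i := fun i => by rw [e i, mul_div_cancel₀ _ (h0 i)]
  set R := Fintype.card I * c + 1 with hR
  refine ⟨_, mul_ne_zero (Finset.prod_ne_zero_iff.2 fun i _ => mul_ne_zero (h0 i)
    (pow_ne_zero _ (hρ i))) hω, interp_mem D t hρ m (fun _ => R) σ τ hσ hτ e' (fun _ => le_rfl)
      fun i => by have := hm i; omega, fun i => ?_⟩
  have := interp_mem D t hρ m (fun j => R + if j = i then 1 else 0) σ τ hσ hτ e'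
    (fun _ => Nat.le_add_right _ _) fun j => by have := hm j; split_ifs <;> omega
  refine (congrArg (· ∈ _) ?_).mp this
  simp only [pow_add, ← mul_assoc, Finset.prod_mul_distrib, pow_ite, pow_one, pow_zero,
    Finset.prod_ite_eq', Finset.mem_univ, if_true]
  ring

end Pool.Agent.P.MP_6f117a_ag
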