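import Pool.Agent.P.MP_6f117a_ag.Blocks
import Pool.Agent.P.MP_6f117a_ag.LogForms
import Pool.Agent.P.MP_6f117a_ag.Deriv

/-! Block ratios are quotients of regular pluricanonical forms of bounded weight. -/

namespace Pool.Agent.P.MP_6f117a_ag

open scoped LaurentPolynomial

universe u

theorem Un_pow {L K : Type u} [Field L] [Field K] [Algebra L K] {I : Type} {ρ : I → K} {x : K}
    (hx : x ∈ Un (L := L) ρ) (m : ℕ) : x ^ m ∈ Un (L := L) ρ :=
  ⟨pow_ne_zero _ hx.1, fun P h => hx.2 P fun e => h (by simp [e])⟩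

/-- The ratio of the two monomials of a pair. -/
def rat {K σ J : Type*} [Field K] [Fintype σ] (a : J → σ → ℕ) (x : σ → K) (E : Finset (J × J))
    (e : E) : K := mon x (a e.1.1) / mon x (a e.1.2)

theorem Blk.ne {L K : Type u} [Field L] [Field K] [Algebra L K] {σ ι J : Type} [Fintype σ]
    {τ : J → ι} {a : J → σ → ℕ} {c : J → L} {m : ι → ℕ} (hm : ∀ t, 0 < m t) {x : σ → K}
    {e : J × J} (h : Blk τ a c m x e) : mon x (a e.1) ≠ 0 ∧ mon x (a e.2) ≠ 0 := by
  obtain ⟨C, h1, -, h2, h3⟩ := h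
  exact ⟨fun h => (h1 _ h2).2 (by simp [term, h, (hm _).ne']),
    fun h => (h1 _ h3).2 (by simp [term, h, (hm _).ne'])⟩

/-- The statement on block ratios. -/
def BlkPluri (N r₀ m₀ : ℕ) : Prop :=
  ∀ (L K : Type u) [Field L] [IsAlgClosed L] [CharZero L] [Field K] [Algebra L K] (σ ι J : Type)
    [Fintype σ] [Fintype J] (τ : J → ι) (a : J → σ → ℕ) (c : J → L) (m : ι → ℕ),
    Fintype.card J ≤ N → (∀ t, m₀ ≤ m t) → ∀ (x : σ → K) (E : Finset (J × J)),
    (∀ e, e ∈ E ↔ Blk τ a c m x e) → ∀ (k : ℕ) (t : Fin k → E)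
    (D : Module.Basis (Fin k) K (Derivation L K K)),
    (∀ i j, D i (rat a x E (t j)) = if j = i then 1 else 0) →
    ∃ r, 0 < r ∧ r ≤ r₀ ∧ ∃ h : K, h ≠ 0 ∧ h ∈ Pluri D r ∧ ∀ e, h * rat a x E e ∈ Pluri D r

theorem exists_blkPluri (N : ℕ) : ∃ r₀ m₀, 0 < m₀ ∧ BlkPluri.{u} N r₀ m₀ := by
  obtain ⟨c', hB⟩ := exists_bnd.{u} N 0
  refine ⟨N * N * c' + 1, 2 * (N * N * c' + 1) + 1, by omega, ?_⟩
  intro L K _ _ _ _ _ σ ι J _ _ τ a c m hN hm x E hE k t D hD
  classical
  have hm0 : ∀ t, 0 < m t := fun t => by have := hm t; omega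
  have hρ : ∀ e, rat a x E e ≠ 0 := fun e =>
    div_ne_zero (((hE _).1 e.2).ne hm0).1 (((hE _).1 e.2).ne hm0).2
  have hω : (logM D (rat a x E) t).det ≠ 0 := by
    have : logM D (rat a x E) t = Matrix.diagonal fun j => (rat a x E (t j))⁻¹ := by
      ext j i
      simp [logM, dv, hD, Matrix.diagonal_apply]
    rw [this, Matrix.det_diagonal]
    exact Finset.prod_ne_zero_iff.2 fun j _ => inv_ne_zero (hρ _)
  have hcard : Fintype.card E * c' + 1 ≤ N * N * c' + 1 := by
    have : Fintype.card E ≤ N * N := by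
      rw [Fintype.card_coe]
      exact (Finset.card_le_univ E).trans (by rw [Fintype.card_prod]; exact Nat.mul_le_mul hN hN)
    gcongr
  refine ⟨_, by omega, hcard, exists_pluri D t hρ hω (const_of_basis D) (c := c')
    (fun e => m (τ e.1.1)) (fun e => by have := hm (τ e.1.1); omega) ?_⟩
  rintro ⟨⟨j, l⟩, he⟩
  obtain ⟨C, h1, h2, h3, h4⟩ := (hE _).1 he
  have hl := (((hE _).1 he).ne hm0).2
  have mem : ∀ s ∈ C, (s, l) ∈ E := fun s hs =>
    (hE _).2 ⟨C, fun r hr => ⟨(h1 r hr).1.trans (h1 s hs).1.symm, (h1 r hr).2⟩, h2, hs, h4⟩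
  have e : ∀ A ⊆ C, ∑ s ∈ A, (mon x (a s) / mon x (a l)) ^ m (τ j) * algebraMap L K (c s) =
      (∑ s ∈ A, term τ a c m x s) / mon x (a l) ^ m (τ j) := fun A hA => by
    rw [Finset.sum_div]
    refine Finset.sum_congr rfl fun s hs => ?_
    rw [term, (h1 s (hA hs)).1, div_pow]
    ring
  have := hB L K (logFilt D t hρ hω (const_of_basis D)) J C
    (fun s => (mon x (a s) / mon x (a l)) ^ m (τ j)) (fun s => algebraMap L K (c s))
    ((Finset.card_le_univ C).trans hN) (fun s hs => Un_pow (mem_Un hρ ⟨_, mem s hs⟩) _)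
    (fun s hs => ⟨(logFilt D t hρ hω (const_of_basis D)).const fun i => by simp,
      right_ne_zero_of_mul (h1 s hs).2⟩) (by rw [e C le_rfl, h2.2.1, zero_div])
    (fun A hA n1 n2 => by
      rw [e A hA]; exact div_ne_zero (h2.2.2 A hA n1 n2) (pow_ne_zero _ hl)) j h3 l h4
  simpa [div_self hl, rat] using this

theorem exists_fin_basis {L K : Type u} [Field L] [Field K] [Algebra L K] {I : Type} [Finite I]
    (ρ : I → K) (h : Algebra.IsAlgebraic (IntermediateField.adjoin L (Set.range ρ)) K) :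
    ∃ (k : ℕ) (t : Fin k → I), IsTranscendenceBasis L fun j => ρ (t j) := by
  have : Algebra.IsAlgebraic (Algebra.adjoin L (Set.range ρ)) K :=
    IntermediateField.isAlgebraic_adjoin_iff_top.1 h
  obtain ⟨s, hs, hb⟩ := exists_isTranscendenceBasis_subset (R := L) (Set.range ρ)
  have : Finite s := (Set.finite_range ρ).subset hs
  obtain ⟨k, ⟨e⟩⟩ := Finite.exists_equiv_fin s
  choose t ht using fun y : s => hs y.2
  exact ⟨k, fun j => t (e.symm j), by
    simp only [ht]; exact hb.comp_equiv e.symm⟩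

theorem sparse_generalType {N r₀ m₀ : ℕ} (h0 : 0 < m₀) (hB : BlkPluri.{u} N r₀ m₀)
    {L K : Type u} [Field L] [IsAlgClosed L] [CharZero L] [Field K] [Algebra L K] {σ ι J : Type}
    [Fintype σ] [Fintype J] [DecidableEq ι] (τ : J → ι) (a : J → σ → ℕ) (c : J → L) (m : ι → ℕ)
    (hN : Fintype.card J ≤ N) (hm : ∀ t, m₀ ≤ m t)
    (hG : ∀ x : σ → L[T;T⁻¹], Ideal.span (Set.range x) = ⊤ →
      Eqs τ a c m x → ∃ (c : σ → L) (g : L[T;T⁻¹]), ∀ i, x i = c i • g)
    (x : σ → K) (hx : Eqs τ a c m x)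
    (hK : IntermediateField.adjoin L {y | ∃ i j, y = x i / x j} = ⊤) : GeneralType L K := by
  classical
  obtain ⟨A, hA⟩ := exists_rel_bnd τ a c m hG
  let E := Finset.univ.filter (Blk τ a c m x)
  have hE : ∀ e, e ∈ E ↔ Blk τ a c m x e := by simp [E]
  have hne := fun e (he : e ∈ E) => ((hE e).1 he).ne fun t => h0.trans_le (hm t)
  let F := IntermediateField.adjoin L (Set.range (rat a x E))
  have alg : Algebra.IsAlgebraic F K := by
    have : IntermediateField.adjoin L {y | ∃ i j, y = x i / x j} ≤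
        (algebraicClosure F K).restrictScalars L := by
      rw [IntermediateField.adjoin_le_iff]
      rintro _ ⟨i, j, rfl⟩
      change _ ∈ algebraicClosure F K
      by_cases h : x i = 0 ∨ x j = 0
      · rw [div_eq_zero_iff.2 h]; exact zero_mem _
      push Not at h
      obtain ⟨M, hM, b, -, e⟩ := hA K x hx E (fun e => (hE e).2) hne i j h.1 h.2
      have : (x i / x j) ^ M ∈ F := e ▸ prod_mem fun e _ =>
        zpow_mem (IntermediateField.subset_adjoin L _ (Set.mem_range_self (f := rat a x E) e)) _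
      exact mem_algebraicClosure_iff.2 (IsAlgebraic.of_pow hM
        (isAlgebraic_algebraMap (⟨_, this⟩ : F)))
    exact ⟨fun y => mem_algebraicClosure_iff.1 (this (hK ▸ IntermediateField.mem_top : y ∈ _))⟩
  obtain ⟨k, t, ht⟩ := exists_fin_basis _ alg
  obtain ⟨D, hD, -⟩ := exists_basis_der _ ht
  obtain ⟨r, r0, -, h, h1, h2, h3⟩ := hB L K σ ι J τ a c m hN hm x E hE k t D hD
  exact ⟨k, D, r, h, fun j => h * rat a x E (t j), r0, h1, h2, fun j => h3 _, by
    simpa only [mul_div_cancel_left₀ _ h1] using ht.1⟩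

theorem eqs_iff {L R : Type u} [Field L] [CommRing R] [Algebra L R] {σ ι : Type} [Fintype σ]
    [Fintype ι] [DecidableEq ι] (F : ι → MvPolynomial σ L) (m : ι → ℕ) (x : σ → R) :
    Eqs (J := Σ t, (F t).support) Sigma.fst (fun j => j.2.1) (fun j => (F j.1).coeff j.2) m x ↔
      ∀ t, MvPolynomial.aeval x (MvPolynomial.expand (m t) (F t)) = 0 := by
  refine forall_congr' fun t => iff_of_eq (congrArg (· = 0) ?_)
  rw [Finset.sum_filter, Fintype.sum_sigma, Finset.sum_eq_single t (fun s _ h => by simp [h])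
    (by simp), MvPolynomial.aeval_expand, MvPolynomial.aeval_def, MvPolynomial.eval₂_eq',
    ← Finset.sum_coe_sort (F t).support]
  refine Finset.sum_congr rfl fun s _ => ?_
  simp only [term, mon, if_true, Pi.pow_apply, ← Finset.prod_pow, ← pow_mul, mul_comm]

end Pool.Agent.P.MP_6f117a_ag
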