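import Pool.Agent.P.MP_6f117a_ag.RR
import Pool.Agent.P.MP_6f117a_ag.Hyp

/-! Heights: algebraic hyperbolicity of sparse systems, and the converse implications. -/

namespace Pool.Agent.P.MP_6f117a_ag

open WithZero Module
open scoped IntermediateField LaurentPolynomial

universe u

variable {L K : Type u} [Field L] [Field K] [Algebra L K]

theorem rational_ff {s : K} (hs : Transcendental L s) (h : L⟮s⟯ = ⊤) :
    (⊤ : IntermediateField L K).FG ∧ Algebra.trdeg L K = 1 := by
  refine ⟨⟨{s}, by simpa using h⟩, ?_⟩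
  have : IsTranscendenceBasis L fun _ : PUnit.{u + 1} => s :=
    isTranscendenceBasis_iff_algebraicIndependent_isAlgebraic.2
      ⟨algebraicIndependent_unique_type_iff.2 hs, by
        rw [Set.range_const, ← IntermediateField.isAlgebraic_adjoin_iff_top, h]
        infer_instance⟩
  simpa using this.cardinalMk_eq_trdeg.symm

theorem FF.isTB [FF L K] {t : K} (ht : Transcendental L t) :
    IsTranscendenceBasis L fun _ : Fin 1 => t :=
  have := FF.fin t ht
  isTranscendenceBasis_iff_algebraicIndependent_isAlgebraic.2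
    ⟨algebraicIndependent_unique_type_iff.2 ht, by
      rw [Set.range_const, ← IntermediateField.isAlgebraic_adjoin_iff_top]; infer_instance⟩

theorem Place.log_prod (P : Place L K) {I : Type*} (s : Finset I) (y : I → K) (hy : ∀ i, y i ≠ 0) :
    log (P.v (∏ i ∈ s, y i)) = ∑ i ∈ s, log (P.v (y i)) := by
  classical
  induction s using Finset.induction_on with
  | empty => simp
  | insert i s hi ih =>
    rw [Finset.prod_insert hi, Finset.sum_insert hi, map_mul, log_mul (by simpa using hy i)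
      ((map_ne_zero P.v).2 (Finset.prod_ne_zero_iff.2 fun i _ => hy i)), ih]

variable [IsAlgClosed L] [CharZero L]

section

variable [FF L K]

theorem height_le {D : Fin 1 → Derivation L K K} (h0 : D 0 ≠ 0) {r : ℕ} {h ρ : K} (hh : h ≠ 0)
    (hρ : ρ ≠ 0) (h1 : h ∈ Pluri D r) (h2 : h * ρ ∈ Pluri D r) (Z : Finset (Place L K)) :
    ∑ P ∈ Z, |log (P.v ρ)| ≤ 4 * r * genus L K := by
  classical
  have h3 := mul_ne_zero hh hρ
  let Y := Z ∪ (finite_κ' h0).toFinset ∪ (finite_supp (L := L) hh).toFinset ∪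
    (finite_supp (L := L) h3).toFinset
  have e1 := prod_formula hh Y (by simp +contextual [Y])
  have e2 := prod_formula h3 Y (by simp +contextual [Y, -map_mul])
  have e3 := deg_can_le h0 Y (by simp +contextual [Y])
  refine (Finset.sum_le_sum_of_subset_of_nonneg (t := Y) (fun P h => by simp [Y, h])
    fun _ _ _ => abs_nonneg _).trans ((Finset.sum_le_sum (g := fun P : Place L K =>
      2 * r * P.κ (D 0) - log (P.v h) - log (P.v (h * ρ))) fun P _ => ?_).trans ?_)
  · have a1 := (log_le_iff_le_exp (by simpa using hh)).2 (pluri_le h0 h1 P)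
    have a2 := (log_le_iff_le_exp (by simpa using h3)).2 (pluri_le h0 h2 P)
    rw [map_mul, log_mul (by simpa using hh) (by simpa using hρ)] at a2 ⊢
    rw [abs_le]; constructor <;> linarith
  · rw [Finset.sum_sub_distrib, Finset.sum_sub_distrib, e1, e2, ← Finset.mul_sum]
    nlinarith [Int.natCast_nonneg r]

theorem degree_eq {n : ℕ} {x : Fin (n + 1) → K} {i : Fin (n + 1)} (hi : x i ≠ 0) :
    ∃ Z : Finset (Place L K), (∀ P j, x j ≠ 0 → P.v (x j) ≠ 1 → P ∈ Z) ∧
      degree L x = ∑ P ∈ Z, log (Finset.univ.sup fun j => P.v (x j / x i)) := by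
  classical
  have fin : {P : Place L K | ∃ j, x j ≠ 0 ∧ P.v (x j) ≠ 1}.Finite := by
    simp only [Set.ofPred_exists]
    refine Set.finite_iUnion fun j => ?_
    by_cases h : x j = 0
    · simp [h]
    · simpa [h] using finite_supp h
  refine ⟨fin.toFinset, fun P j h1 h2 => by simpa using ⟨j, h1, h2⟩, ?_⟩
  rw [degree, finsum_eq_sum_of_support_subset (s := fin.toFinset) _ fun P hP => by_contra fun h =>
    hP (by
      simp only [Set.Finite.coe_toFinset, Set.mem_ofPred_eq, not_exists, not_and, not_not] at h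
      rw [le_antisymm (b := 1) (Finset.sup_le fun j _ => by
        by_cases e : x j = 0
        · simp [e]
        · exact (h j e).le) ((h i hi).ge.trans (Finset.le_sup (f := fun j => P.v (x j))
          (Finset.mem_univ i))), log_one]), ← sub_zero (∑ P ∈ _, _),
    ← prod_formula hi fin.toFinset fun P h => by simpa using ⟨i, hi, h⟩,
    ← Finset.sum_sub_distrib]
  refine Finset.sum_congr rfl fun P _ => ?_
  have v0 : P.v (x i) ≠ 0 := by simpa using hi
  obtain ⟨j, -, hj⟩ := Finset.exists_mem_eq_sup Finset.univ Finset.univ_nonempty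
    fun j => P.v (x j)
  have le : ∀ l, P.v (x l) ≤ P.v (x j) := fun l =>
    hj ▸ Finset.le_sup (f := fun j => P.v (x j)) (Finset.mem_univ l)
  rw [hj, ← log_div ((zero_lt_iff.2 v0).trans_le (le i)).ne' v0, ← map_div₀]
  congr 1
  refine le_antisymm (Finset.le_sup (f := fun j => P.v (x j / x i)) (Finset.mem_univ j))
    (Finset.sup_le fun l _ => ?_)
  rw [map_div₀, map_div₀]
  exact div_le_div_of_nonneg_right (le l) zero_le

theorem eq_zero_of_rational {s : K} (hs : Transcendental L s) (h : L⟮s⟯ = ⊤)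
    {δ : Derivation L K K} (hδ : δ ≠ 0) {r : ℕ} (hr : 0 < r) {x : K}
    (hx : ∀ P : Place L K, P.v x ≤ exp (r * P.κ δ)) : x = 0 := by
  obtain ⟨D, hD, -⟩ := exists_dt hs
  have D0 : D ≠ 0 := by rintro rfl; simp at hD
  obtain ⟨g, g0, rfl⟩ := exists_smul D0 hδ
  have s0 : ∀ P : Place L K, P.v s ≠ 0 := fun P => by simpa using trans_ne hs
  have k1 : ∀ P : Place L K, 1 < P.v s → P.κ D < 0 := fun P hP => by
    have := (lt_log_iff_exp_lt (s0 P)).2 hP
    rw [P.κ_eq hD (trans_ne hs) hP.ne']; omega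
  have k2 : ∀ P : Place L K, P.κ D ≤ 0 := fun P => by
    rcases le_or_gt (P.v s) 1 with hP | hP
    · obtain ⟨a, ha⟩ := P.res hP
      obtain ⟨Z, h1, h2⟩ := (model (trans_sub hs a)).fund
      have t0 := trans_ne (trans_sub hs a)
      have := Finset.single_le_sum (f := fun P : Place L K => -log (P.v (s - algebraMap L K a)))
        (fun Q hQ => neg_nonneg.2 ((log_le_iff_le_exp (by simpa using t0)).2 ((h1 Q).1 hQ).le))
        ((h1 P).2 ha)
      rw [h2, adjoin_sub, h, IntermediateField.finrank_top] at this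
      rw [P.κ_eq (by simpa using hD) t0 ha.ne]
      omega
    · exact (k1 P hP).le
  have e : ∀ P : Place L K, P.v (x / g ^ r) ≤ exp (r * P.κ D) := fun P => by
    have v0 : P.v g ≠ 0 := by simpa using g0
    have := hx P
    rw [κ_smul D0 g0, mul_add, exp_add, ← nsmul_eq_mul, exp_nsmul, exp_log v0] at this
    rwa [map_div₀, map_pow, div_le_iff₀ (zero_lt_iff.2 (pow_ne_zero _ v0)), mul_comm]
  obtain ⟨P, hP⟩ := exists_pole hs
  have := eq_zero_of_lt (fun Q => (e Q).trans (by
    rw [← exp_zero, exp_le_exp]; exact mul_nonpos_of_nonneg_of_nonpos (by simp) (k2 Q))) P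
    ((e P).trans_lt (by
      rw [← exp_zero, exp_lt_exp]; exact mul_neg_of_pos_of_neg (by simpa) (k1 P hP)))
  simpa [g0] using this

end

theorem sparse_algHyp {N r₀ m₀ : ℕ} (h0 : 0 < m₀) (hB : BlkPluri.{u} N r₀ m₀) {n : ℕ} {ι J : Type}
    [Fintype J] [DecidableEq ι] (τ : J → ι) (a : J → Fin (n + 1) → ℕ) (c : J → L) (m : ι → ℕ)
    (hN : Fintype.card J ≤ N) (hm : ∀ t, m₀ ≤ m t)
    (hG : ∀ x : Fin (n + 1) → L[T;T⁻¹], Ideal.span (Set.range x) = ⊤ →
      Eqs τ a c m x → ∃ (c : Fin (n + 1) → L) (g : L[T;T⁻¹]), ∀ i, x i = c i • g) :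
    ∃ α : ℝ, ∀ (K : Type u) [Field K] [Algebra L K], (⊤ : IntermediateField L K).FG →
      Algebra.trdeg L K = 1 → ∀ x : Fin (n + 1) → K, x ≠ 0 → Eqs τ a c m x →
        (degree L x : ℝ) ≤ α * genus L K := by
  classical
  obtain ⟨A, hA⟩ := exists_rel_bnd τ a c m hG
  refine ⟨(A * (Fintype.card (J × J) * (4 * r₀)) : ℕ), fun K _ _ h1 h2 x x0 hx => ?_⟩
  have := FF.of_fg h1 h2.le
  let E := Finset.univ.filter (Blk τ a c m x)
  have hE : ∀ e, e ∈ E ↔ Blk τ a c m x e := by simp [E]
  have hne := fun e (he : e ∈ E) => ((hE e).1 he).ne fun t => h0.trans_le (hm t)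
  have hρ : ∀ e, rat a x E e ≠ 0 := fun e => div_ne_zero (hne _ e.2).1 (hne _ e.2).2
  obtain ⟨i, hi⟩ := Function.ne_iff.1 x0
  obtain ⟨Z, -, e⟩ := degree_eq (L := L) hi
  have H : ∀ e, ∑ P ∈ Z, |log (P.v (rat a x E e))| ≤ 4 * r₀ * genus L K := fun e => by
    rcases const_or_trans (L := L) (rat a x E e) with ⟨y, hy⟩ | ht
    · rw [Finset.sum_eq_zero fun P _ => by
        rw [← hy, P.v_const fun h => hρ e (by rw [← hy, h, map_zero]), log_one, abs_zero]]
      positivity
    obtain ⟨D, hD, -⟩ := exists_basis_der _ (FF.isTB ht)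
    obtain ⟨r, -, r1, h, h1, h2, h3⟩ := hB L K _ ι J τ a c m hN hm x E hE 1 (fun _ => e) D hD
    exact (height_le (D.ne_zero 0) h1 (hρ e) h2 (h3 e) Z).trans (by gcongr)
  have key : ∀ P : Place L K, log (Finset.univ.sup fun j => P.v (x j / x i)) ≤
      A * ∑ e, |log (P.v (rat a x E e))| := fun P => by
    obtain ⟨j, -, hj⟩ := Finset.exists_mem_eq_sup Finset.univ Finset.univ_nonempty
      fun j => P.v (x j / x i)
    rw [hj]
    by_cases xj : x j = 0
    · rw [xj, zero_div, map_zero, log_zero]; positivity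
    obtain ⟨M, hM, b, hb, e⟩ := hA K x hx E (fun e => (hE e).2) hne j i xj hi
    have e2 : M * log (P.v (x j / x i)) = ∑ e, b e * log (P.v (rat a x E e)) := by
      rw [← nsmul_eq_mul, ← log_pow, ← map_pow, e]
      refine (P.log_prod _ _ fun e => zpow_ne_zero _ (hρ e)).trans
        (Finset.sum_congr rfl fun e _ => ?_)
      rw [map_zpow₀, log_zpow, smul_eq_mul]
    refine (le_abs_self _).trans ((le_mul_of_one_le_left (abs_nonneg _)
      (show (1 : ℤ) ≤ M by omega)).trans ?_)
    rw [← abs_of_nonneg (Int.natCast_nonneg M), ← abs_mul, e2, Finset.mul_sum]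
    refine (Finset.abs_sum_le_sum_abs _ _).trans (Finset.sum_le_sum fun e _ => ?_)
    rw [abs_mul]
    exact mul_le_mul_of_nonneg_right (hb e) (abs_nonneg _)
  have : degree L x ≤ A * (Fintype.card (J × J) * (4 * r₀ * genus L K)) := by
    rw [e]
    refine (Finset.sum_le_sum fun P _ => key P).trans ?_
    rw [← Finset.mul_sum, Finset.sum_comm]
    refine mul_le_mul_of_nonneg_left ((Finset.sum_le_card_nsmul _ _ _ fun e _ => H e).trans ?_)
      (by positivity)
    rw [nsmul_eq_mul, Finset.card_univ, Fintype.card_coe]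
    gcongr
    exact Finset.card_le_univ E
  have := (Int.cast_le (R := ℝ)).2 this
  push_cast at this ⊢
  linarith

/-- Laurent polynomials as rational functions. -/
noncomputable def lau (L : Type u) [Field L] : L[T;T⁻¹] →ₐ[L] RatFunc L :=
  { LaurentPolynomial.eval₂ (algebraMap L (RatFunc L)) (Units.mk0 RatFunc.X RatFunc.X_ne_zero) with
    commutes' := fun c => LaurentPolynomial.eval₂_C _ _ c }

omit [IsAlgClosed L] [CharZero L] in
theorem lau_inj : Function.Injective (lau L) := (injective_iff_map_eq_zero _).2 fun f hf => by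
  obtain ⟨n, p, e⟩ := f.exists_T_pow
  have h1 : lau L (Polynomial.toLaurent p) = 0 := by rw [e, map_mul, hf, zero_mul]
  have h2 : p = 0 := by_contra fun h => aeval_ne RatFunc.transcendental_X h
    ((LaurentPolynomial.eval₂_toLaurent _ _ p).symm.trans h1)
  rw [h2, map_zero] at e
  exact (LaurentPolynomial.isUnit_T _).mul_left_eq_zero.1 e.symm

variable {n : ℕ} {ι : Type} (G : ι → MvPolynomial (Fin (n + 1)) L)

omit [CharZero L] in
theorem gm_of_ratio (h : ∀ (y : Fin (n + 1) → RatFunc L) i j, y i ≠ 0 →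
    (∀ t, MvPolynomial.aeval y (G t) = 0) → ¬Transcendental L (y j / y i)) : GmConstant G := by
  intro x h1 h2
  obtain ⟨i, hi⟩ : ∃ i, x i ≠ 0 := by
    by_contra hc
    push Not at hc
    rw [show x = 0 from funext hc] at h1
    simp at h1
  have h0 : lau L (x i) ≠ 0 := (map_ne_zero_iff _ lau_inj).2 hi
  choose c hc using fun j => (const_or_trans _).resolve_right (h (fun j => lau L (x j)) i j h0
    fun t => by rw [← MvPolynomial.comp_aeval_apply, h2, map_zero])
  exact ⟨c, x i, fun j => lau_inj (by rw [map_smul, Algebra.smul_def, hc, div_mul_cancel₀ _ h0])⟩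

theorem gm_of_algHyp (h : AlgHyperbolic G) : GmConstant G := by
  refine gm_of_ratio G fun y i j hi hy ht => ?_
  obtain ⟨α, hα⟩ := h
  obtain ⟨h1, h2⟩ := rational_ff (L := L) RatFunc.transcendental_X RatFunc.adjoin_X
  have := FF.of_fg h1 h2.le
  have h3 := hα _ h1 h2 y (fun h => hi (congrFun h i)) hy
  obtain ⟨D, hD, -⟩ := exists_dt (L := L) RatFunc.transcendental_X
  have D0 : D ≠ 0 := by rintro rfl; simp at hD
  rw [genus_eq D0, (Submodule.eq_bot_iff (can D)).2 fun x hx => eq_zero_of_rational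
    RatFunc.transcendental_X RatFunc.adjoin_X D0 one_pos (by simpa using mem_can.1 hx),
    finrank_bot, Nat.cast_zero, mul_zero, Int.cast_nonpos] at h3
  obtain ⟨Z, hZ, e⟩ := degree_eq (L := L) hi
  obtain ⟨P, hP⟩ := exists_pole ht
  have hj : y j ≠ 0 := left_ne_zero_of_mul (div_eq_mul_inv (y j) (y i) ▸ trans_ne ht)
  refine h3.not_gt (e ▸ Finset.sum_pos' (fun Q _ => le_log_of_exp_le ?_) ⟨P, ?_,
    lt_log_of_exp_lt (hP.trans_le
      (Finset.le_sup (f := fun j => P.v (y j / y i)) (Finset.mem_univ j)))⟩)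
  · simpa [hi] using Finset.le_sup (f := fun j => Q.v (y j / y i)) (Finset.mem_univ i)
  · by_contra hc
    simp [not_not.1 (mt (hZ P i hi) hc), not_not.1 (mt (hZ P j hj) hc)] at hP

theorem gm_of_hyp {d : ι → ℕ} (hd : ∀ t (K : Type u) [Field K] [Algebra L K]
    (y : Fin (n + 1) → K) (z : K), MvPolynomial.aeval (fun j => y j / z) (G t) =
      MvPolynomial.aeval y (G t) / z ^ d t) (h : Hyperbolic G) : GmConstant G := by
  refine gm_of_ratio G fun y i j hi hy ht => ?_
  let E := IntermediateField.adjoin L {w | ∃ k l, w = y k / y l}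
  have mem : ∀ k l, y k / y l ∈ E := fun k l => IntermediateField.subset_adjoin _ _ ⟨k, l, rfl⟩
  have hE : E ≠ ⊥ := fun e => by
    obtain ⟨c, hc⟩ := IntermediateField.mem_bot.1 (e ▸ mem j i)
    exact ht (hc ▸ isAlgebraic_algebraMap c)
  let s : E := ⟨_, RatFunc.Luroth.generator_mem⟩
  have hs : Transcendental L s := fun h =>
    RatFunc.Luroth.transcendental_generator hE (h.algHom E.val)
  have top : (⊤ : IntermediateField L E).map E.val = E := by
    rw [← AlgHom.fieldRange_eq_map, IntermediateField.fieldRange_val]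
  have h1 : L⟮s⟯ = ⊤ := IntermediateField.map_injective E.val (by
    rw [top, IntermediateField.adjoin_map, Set.image_singleton]
    exact RatFunc.Luroth.eq_adjoin_generator.symm)
  obtain ⟨k, D, r, h₀, -, r0, h2, h3, -⟩ := h E (fun k => ⟨_, mem k i⟩)
    (fun e => by simpa [hi] using congrArg Subtype.val (congrFun e i))
    (fun t => (map_eq_zero E.val).1 ((MvPolynomial.comp_aeval_apply _ _ _).trans
      ((hd t _ y _).trans (by rw [hy, zero_div]))))
    (IntermediateField.map_injective E.val (by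
      rw [top, IntermediateField.adjoin_map]
      congr 1
      ext w
      constructor
      · rintro ⟨_, ⟨k, l, rfl⟩, rfl⟩
        exact ⟨k, l, by simp [div_div_div_cancel_right₀ hi]⟩
      · rintro ⟨k, l, rfl⟩
        exact ⟨_, ⟨k, l, rfl⟩, by simp [div_div_div_cancel_right₀ hi]⟩))
  obtain ⟨f1, f2⟩ := rational_ff hs h1
  have := FF.of_fg f1 f2.le
  obtain ⟨D', -⟩ := exists_basis_der _ (FF.isTB hs)
  obtain rfl : k = 1 := by simpa using Fintype.card_congr (D.indexEquiv D')
  exact h2 (eq_zero_of_rational hs h1 (D.ne_zero 0) r0 (pluri_le (D.ne_zero 0) h3))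

end Pool.Agent.P.MP_6f117a_ag
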