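import Pool.Agent.P.MP_6f117a_ag.Filt

/-! Sparse systems of equations: either a one-parameter subgroup preserves every minimal vanishing
block, or the coordinate ratios are multiplicatively dependent on the block ratios. -/

namespace Pool.Agent.P.MP_6f117a_ag

open MvPolynomial
open scoped LaurentPolynomial

universe u

theorem exists_point {L K : Type u} [Field L] [IsAlgClosed L] [Field K] [Algebra L K] {σ : Type}
    [Finite σ] (x : σ → K) : ∃ p : σ → L, (∀ i, x i ≠ 0 → p i ≠ 0) ∧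
      ∀ f : MvPolynomial σ L, aeval x f = 0 → aeval p f = 0 := by
  let φ : MvPolynomial (σ ⊕ σ) L →ₐ[L] K := aeval (Sum.elim x fun i => (x i)⁻¹)
  obtain ⟨M, hM, hle⟩ := Ideal.exists_le_maximal (RingHom.ker φ) (RingHom.ker_ne_top φ)
  obtain ⟨p, rfl⟩ := isMaximal_iff_eq_vanishingIdeal_singleton.1 hM
  have h : ∀ f, φ f = 0 → aeval p f = 0 := fun f hf =>
    (mem_vanishingIdeal_singleton_iff p f).1 (hle hf)
  refine ⟨fun i => p (.inl i), fun i hi h0 => ?_, fun f hf => ?_⟩
  · have := h (X (.inl i) * X (.inr i) - 1) (by simp [φ, hi])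
    simp [h0] at this
  · have := h (rename Sum.inl f) (by rw [← hf]; simp only [φ, aeval_rename]; rfl)
    rwa [aeval_rename] at this

/-- A minimal vanishing subsum. -/
def MinZ {K J : Type*} [AddCommMonoid K] (y : J → K) (C : Finset J) : Prop :=
  C.Nonempty ∧ ∑ j ∈ C, y j = 0 ∧ ∀ C' ⊆ C, C'.Nonempty → C' ≠ C → ∑ j ∈ C', y j ≠ 0

theorem split_min {K J A : Type*} [AddCommMonoid K] [DecidableEq A] (y : J → K) (f : J → A)
    (s : Finset J) (h0 : ∑ j ∈ s, y j = 0)
    (hf : ∀ C ⊆ s, MinZ y C → ∀ j ∈ C, ∀ l ∈ C, f j = f l) (γ : A) :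
    ∑ j ∈ s with f j = γ, y j = 0 := by
  classical
  induction s using Finset.strongInduction with
  | H s ih =>
    rcases s.eq_empty_or_nonempty with rfl | hs
    · simp
    obtain ⟨C, c1, c2⟩ := exists_min_zero _ s hs h0
    have sub : s \ C ⊆ s := Finset.sdiff_subset
    have i1 := ih (s \ C) (Finset.sdiff_ssubset c1 c2.1)
      (by have := Finset.sum_sdiff (f := y) c1
          rwa [c2.2.1, h0, add_zero] at this) fun C' h => hf C' (h.trans sub)
    have i2 : ∑ j ∈ C with f j = γ, y j = 0 := by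
      by_cases e : ∃ l ∈ C, f l = γ
      · obtain ⟨l, hl, rfl⟩ := e
        rw [Finset.filter_true_of_mem fun j hj => hf C c1 c2 j hj l hl, c2.2.1]
      · rw [Finset.filter_false_of_mem fun j hj h => e ⟨j, hj, h⟩, Finset.sum_empty]
    rw [← Finset.sdiff_union_of_subset c1, Finset.filter_union, Finset.sum_union, i1, i2, add_zero]
    exact Finset.disjoint_filter_filter Finset.sdiff_disjoint

theorem lattice_dich {I σ : Type} [Fintype I] [Fintype σ] (d : I → σ → ℤ) (v : σ → ℤ) :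
    (∃ M : ℕ, 0 < M ∧ ∃ b : I → ℤ, (M : ℤ) • v = ∑ e, b e • d e) ∨
      ∃ w : σ → ℤ, (∀ e, ∑ i, w i * d e i = 0) ∧ ∑ i, w i * v i ≠ 0 := by
  classical
  by_cases h : (fun i => (v i : ℚ)) ∈ Submodule.span ℚ (Set.range fun e i => (d e i : ℚ))
  · obtain ⟨b, hb⟩ := (Submodule.mem_span_range_iff_exists_fun ℚ).1 h
    obtain ⟨⟨M, hM⟩, h2⟩ := IsLocalization.exist_integer_multiples_of_finite (nonZeroDivisors ℤ) b
    choose b' hb' using h2
    have hM0 : M ≠ 0 := nonZeroDivisors.ne_zero hM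
    refine .inl ⟨(M * M).toNat, by have := mul_self_pos.2 hM0; omega, fun e => M * b' e, ?_⟩
    ext i
    have := congrFun hb i
    rw [Int.toNat_of_nonneg (mul_self_nonneg M)]
    simp only [Finset.sum_apply, Pi.smul_apply, smul_eq_mul] at this ⊢
    apply Int.cast_injective (α := ℚ)
    push_cast
    rw [← this, Finset.mul_sum]
    refine Finset.sum_congr rfl fun e _ => ?_
    have := hb' e
    simp only [algebraMap_int_eq, eq_intCast, zsmul_eq_mul] at this
    rw [this]; ring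
  · obtain ⟨f, h1, h2⟩ := Submodule.exists_dual_map_eq_bot_of_notMem h inferInstance
    obtain ⟨⟨M, hM⟩, h3⟩ := IsLocalization.exist_integer_multiples_of_finite (nonZeroDivisors ℤ)
      fun i => f (Pi.single i 1)
    choose w hw using h3
    have hM0 : (M : ℚ) ≠ 0 := Int.cast_ne_zero.2 (nonZeroDivisors.ne_zero hM)
    have key : ∀ z : σ → ℤ, ((∑ i, w i * z i : ℤ) : ℚ) = M * f fun i => (z i : ℚ) := fun z => by
      rw [LinearMap.pi_apply_eq_sum_univ, Finset.mul_sum]
      push_cast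
      refine Finset.sum_congr rfl fun i _ => ?_
      have := hw i
      simp only [algebraMap_int_eq, eq_intCast, zsmul_eq_mul] at this
      rw [this, show (fun j => if i = j then (1 : ℚ) else 0) = Pi.single i 1 from
        funext fun j => by simp [Pi.single_apply, eq_comm], smul_eq_mul]
      ring
    refine .inr ⟨w, fun e => ?_, fun h0 => ?_⟩
    · apply Int.cast_injective (α := ℚ)
      have : f (fun i => (d e i : ℚ)) ∈ (⊥ : Submodule ℚ ℚ) :=
        h2 ▸ Submodule.mem_map_of_mem (Submodule.subset_span ⟨e, rfl⟩)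
      rw [key, (Submodule.mem_bot ℚ).1 this]; simp
    · have := key v
      rw [h0] at this
      exact mul_ne_zero hM0 h1 (by simpa using this.symm)

/-- The monomial with exponent `α`. -/
def mon {R σ : Type*} [CommMonoid R] [Fintype σ] (x : σ → R) (α : σ → ℕ) : R := ∏ i, x i ^ α i

theorem zpow_rel {K I σ : Type*} [Field K] [Fintype I] [Fintype σ] [DecidableEq σ] (x : σ → K)
    (α β : I → σ → ℕ) (hα : ∀ e, mon x (α e) ≠ 0) (hβ : ∀ e, mon x (β e) ≠ 0) {i i' : σ}
    (hi : x i ≠ 0) (hi' : x i' ≠ 0) (M : ℕ) (b : I → ℤ)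
    (h : (M : ℤ) • (Pi.single i 1 - Pi.single i' 1 : σ → ℤ) =
      ∑ e, b e • fun s => (α e s : ℤ) - β e s) :
    (x i / x i') ^ M = ∏ e, (mon x (α e) / mon x (β e)) ^ b e := by
  classical
  let u : σ → Kˣ := fun s => if h : x s = 0 then 1 else Units.mk0 _ h
  let Φ := Fintype.linearCombination ℤ fun s => Additive.ofMul (u s)
  have h1 : ∀ γ : σ → ℕ, mon x γ ≠ 0 → ((Φ fun s => (γ s : ℤ)).toMul : Kˣ) = mon x γ := by
    intro γ hγ
    simp only [Φ, Fintype.linearCombination_apply, toMul_sum, toMul_zsmul, toMul_ofMul,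
      zpow_natCast, Units.coe_prod, Units.val_pow_eq_pow_val, mon]
    refine Finset.prod_congr rfl fun s _ => ?_
    by_cases e : x s = 0
    · have : γ s = 0 := by_contra fun h =>
        Finset.prod_ne_zero_iff.1 hγ s (Finset.mem_univ _) (by simp [e, h])
      simp [this]
    · simp [u, e]
  have h2 : ∀ s, x s ≠ 0 → ((Φ (Pi.single s 1)).toMul : Kˣ) = x s := fun s hs => by
    simp [Φ, u, hs]
  have := congrArg (fun z => (((Φ z).toMul : Kˣ) : K)) h
  simp only [map_smul, map_sub, map_sum, toMul_zsmul, toMul_sub, toMul_sum, zpow_natCast,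
    Units.val_pow_eq_pow_val, Units.val_div_eq_div_val, h2 i hi, h2 i' hi', Units.coe_prod,
    Units.val_zpow_eq_zpow_val] at this
  rw [this]
  refine Finset.prod_congr rfl fun e _ => ?_
  rw [← h1 _ (hα e), ← h1 _ (hβ e), ← Units.val_div_eq_div_val, ← toMul_sub, ← map_sub]
  rfl

section

variable {L : Type u} [Field L] {σ ι J : Type} [Fintype σ] [Fintype J] [DecidableEq ι]
  (τ : J → ι) (a : J → σ → ℕ) (c : J → L) (m : ι → ℕ)

/-- The terms of the system. -/
def term {R : Type*} [CommRing R] [Algebra L R] (x : σ → R) (j : J) : R :=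
  mon x (a j) ^ m (τ j) * algebraMap L R (c j)

/-- The system of equations. -/
def Eqs {R : Type*} [CommRing R] [Algebra L R] (x : σ → R) : Prop :=
  ∀ t, ∑ j with τ j = t, term τ a c m x j = 0

omit [Fintype J] [DecidableEq ι] in
theorem map_term {R S : Type*} [CommRing R] [Algebra L R] [CommRing S] [Algebra L S]
    (φ : R →ₐ[L] S) (x : σ → R) (j : J) :
    φ (term τ a c m x j) = term τ a c m (fun i => φ (x i)) j := by
  simp [term, mon]

variable {K : Type u} [Field K] [Algebra L K]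

/-- Pairs of terms lying in a common minimal vanishing block. -/
def Blk (x : σ → K) (e : J × J) : Prop :=
  ∃ C : Finset J, (∀ j ∈ C, τ j = τ e.1 ∧ term τ a c m x j ≠ 0) ∧ MinZ (term τ a c m x) C ∧
    e.1 ∈ C ∧ e.2 ∈ C

theorem eqs_twist [IsAlgClosed L] (x : σ → K) (hx : Eqs τ a c m x) (w : σ → ℤ)
    (hw : ∀ e, Blk τ a c m x e → ∑ i, w i * ((a e.1 i : ℤ) - a e.2 i) = 0) :
    ∃ p : σ → L, (∀ i, x i ≠ 0 → p i ≠ 0) ∧
      Eqs τ a c m fun i => (LaurentPolynomial.C (p i) * LaurentPolynomial.T (w i) : L[T;T⁻¹]) := by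
  classical
  obtain ⟨p, hp, hf⟩ := exists_point (L := L) x
  refine ⟨p, hp, fun t => ?_⟩
  let f : J → ℤ := fun j => ∑ i, w i * a j i
  have h1 : ∀ γ, ∑ j ∈ (Finset.univ.filter fun j => τ j = t) with f j = γ,
      term τ a c m p j = 0 := by
    intro γ
    have := hf (∑ j ∈ (Finset.univ.filter fun j => τ j = t) with f j = γ, term τ a c m X j) (by
      simp only [map_sum, map_term, aeval_X]
      refine split_min _ f _ (hx t) (fun C hC hm j hj l hl => ?_) γ
      by_cases e : j = l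
      · rw [e]
      have := hw (j, l) ⟨C, fun r hr => ⟨(Finset.mem_filter.1 (hC hr)).2.trans
        (Finset.mem_filter.1 (hC hj)).2.symm, ?_⟩, hm, hj, hl⟩
      · simpa only [mul_sub, Finset.sum_sub_distrib, sub_eq_zero] using this
      · have := hm.2.2 {r} (by simpa using hr) (by simp) (by
          rintro rfl
          exact e ((Finset.mem_singleton.1 hj).trans (Finset.mem_singleton.1 hl).symm))
        simpa using this)
    simpa only [map_sum, map_term, aeval_X] using this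
  have h2 : ∀ j, term τ a c m
      (fun i => (LaurentPolynomial.C (p i) * LaurentPolynomial.T (w i) : L[T;T⁻¹])) j =
      LaurentPolynomial.C (term τ a c m p j) * LaurentPolynomial.T (m (τ j) * f j) := fun j => by
    have : ∀ s : Finset σ, ∏ i ∈ s, (LaurentPolynomial.T (w i) : L[T;T⁻¹]) ^ a j i =
        LaurentPolynomial.T (∑ i ∈ s, w i * a j i) := fun s => by
      induction s using Finset.induction_on with
      | empty => simp
      | insert i s hi ih =>
        rw [Finset.prod_insert hi, Finset.sum_insert hi, ih, LaurentPolynomial.T_pow,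
          LaurentPolynomial.T_add, mul_comm (w i)]
    simp only [term, mon, mul_pow, Finset.prod_mul_distrib, this, map_mul,
      map_pow, map_prod, Algebra.algebraMap_self, RingHom.id_apply,
      LaurentPolynomial.algebraMap_apply, f]
    rw [← LaurentPolynomial.T_pow]
    ring
  simp only [h2]
  rw [← Finset.sum_fiberwise_of_maps_to (t := Finset.univ.image f) (g := f) (by simp)]
  refine Finset.sum_eq_zero fun γ _ => ?_
  rw [Finset.sum_congr rfl (g := fun j => LaurentPolynomial.C (term τ a c m p j) *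
    LaurentPolynomial.T (m t * γ)) fun j hj => by
      rw [(Finset.mem_filter.1 hj).2, (Finset.mem_filter.1 (Finset.mem_filter.1 hj).1).2],
    ← Finset.sum_mul, ← map_sum, h1, map_zero, zero_mul]

theorem exists_rel [IsAlgClosed L] (hG : ∀ x : σ → L[T;T⁻¹], Ideal.span (Set.range x) = ⊤ →
      Eqs τ a c m x → ∃ (c : σ → L) (g : L[T;T⁻¹]), ∀ i, x i = c i • g)
    (x : σ → K) (hx : Eqs τ a c m x) [DecidableEq σ] (E : Finset (J × J))
    (hE : ∀ e, Blk τ a c m x e → e ∈ E) {i i' : σ} (hi : x i ≠ 0) (hi' : x i' ≠ 0) :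
    ∃ M : ℕ, 0 < M ∧ ∃ b : E → ℤ, (M : ℤ) • (Pi.single i 1 - Pi.single i' 1 : σ → ℤ) =
      ∑ e, b e • fun s => (a e.1.1 s : ℤ) - a e.1.2 s := by
  refine (lattice_dich _ _).resolve_right fun ⟨w, h1, h2⟩ => h2 ?_
  obtain ⟨p, hp, he⟩ := eqs_twist τ a c m x hx w fun e h => h1 ⟨e, hE e h⟩
  obtain ⟨c', g, hc⟩ := hG _ (Ideal.eq_top_of_isUnit_mem _ (Ideal.subset_span ⟨i, rfl⟩)
    (((hp i hi).isUnit.map LaurentPolynomial.C).mul (LaurentPolynomial.isUnit_T _))) he
  have e : (c' i') • (LaurentPolynomial.C (p i) * LaurentPolynomial.T (w i) : L[T;T⁻¹]) =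
      (c' i) • (LaurentPolynomial.C (p i') * LaurentPolynomial.T (w i')) := by
    rw [hc i, hc i', smul_comm]
  have h0 : c' i' ≠ 0 := fun h => by
    have := hc i'
    rw [h, zero_smul] at this
    exact (((hp i' hi').isUnit.map LaurentPolynomial.C).mul
      (LaurentPolynomial.isUnit_T _)).ne_zero this
  have := congrArg LaurentPolynomial.degree e
  rw [LaurentPolynomial.smul_eq_C_mul, LaurentPolynomial.smul_eq_C_mul, ← mul_assoc, ← mul_assoc,
    ← map_mul, ← map_mul, LaurentPolynomial.degree_C_mul_T _ _ (mul_ne_zero h0 (hp i hi))] at this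
  by_cases h3 : c' i * p i' = 0
  · simp [h3] at this
  rw [LaurentPolynomial.degree_C_mul_T _ _ h3] at this
  simp [mul_sub, Pi.single_apply, WithBot.coe_inj.1 this]

/-- Uniform multiplicative relations between coordinate ratios and block ratios. -/
theorem exists_rel_bnd [IsAlgClosed L] (hG : ∀ x : σ → L[T;T⁻¹], Ideal.span (Set.range x) = ⊤ →
      Eqs τ a c m x → ∃ (c : σ → L) (g : L[T;T⁻¹]), ∀ i, x i = c i • g) :
    ∃ A : ℕ, ∀ (K : Type u) [Field K] [Algebra L K] (x : σ → K), Eqs τ a c m x →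
      ∀ E : Finset (J × J), (∀ e, Blk τ a c m x e → e ∈ E) →
      (∀ e ∈ E, mon x (a e.1) ≠ 0 ∧ mon x (a e.2) ≠ 0) → ∀ i i', x i ≠ 0 → x i' ≠ 0 →
      ∃ M : ℕ, 0 < M ∧ ∃ b : E → ℤ, (∀ e, |b e| ≤ A) ∧
        (x i / x i') ^ M = ∏ e : E, (mon x (a e.1.1) / mon x (a e.1.2)) ^ b e := by
  classical
  let R : (E : Finset (J × J)) → σ → σ → ℕ → (E → ℤ) → Prop := fun E i i' M b =>
    0 < M ∧ (M : ℤ) • (Pi.single i 1 - Pi.single i' 1 : σ → ℤ) =
      ∑ e, b e • fun s => (a e.1.1 s : ℤ) - a e.1.2 s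
  have : ∀ z : Finset (J × J) × σ × σ, ∃ A : ℕ, (∃ M b, R z.1 z.2.1 z.2.2 M b) →
      ∃ M b, R z.1 z.2.1 z.2.2 M b ∧ ∀ e, |b e| ≤ A := fun z => by
    by_cases h : ∃ M b, R z.1 z.2.1 z.2.2 M b
    · obtain ⟨M, b, h⟩ := h
      obtain ⟨A, hA⟩ := Finite.exists_le fun e => (b e).natAbs
      exact ⟨A, fun _ => ⟨M, b, h, fun e => by
        rw [Int.abs_eq_natAbs]; exact_mod_cast hA e⟩⟩
    · exact ⟨0, fun h' => (h h').elim⟩
  choose A hA using this
  obtain ⟨B, hB⟩ := Finite.exists_le A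
  refine ⟨B, fun K _ _ x hx E hE h0 i i' hi hi' => ?_⟩
  obtain ⟨M, hM, b, hb⟩ := exists_rel τ a c m hG x hx E hE hi hi'
  obtain ⟨M, b, ⟨hM, hb⟩, h⟩ := hA (E, i, i') ⟨M, b, hM, hb⟩
  exact ⟨M, hM, b, fun e => (h e).trans (by exact_mod_cast hB _),
    zpow_rel x _ _ (fun e => (h0 _ e.2).1) (fun e => (h0 _ e.2).2) hi hi' M b hb⟩

end

end Pool.Agent.P.MP_6f117a_ag
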