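import Mathlib

/-! Function-field dictionary for closed subvarieties of projective space. -/

namespace Pool.Agent.P.MP_6f117a_ag

open scoped WithZero LaurentPolynomial

universe u

/-- A place of `K / L`: a normalised discrete valuation of `K` that is trivial on `L`. -/
structure Place (L K : Type u) [Field L] [Field K] [Algebra L K] where
  v : Valuation K ℤᵐ⁰
  surj : Function.Surjective v
  triv : ∀ c : L, v (algebraMap L K c) ≤ 1

section

variable (L K : Type u) [Field L] [Field K] [Algebra L K]

/-- The dimension over `L` of the space of differentials of `K / L` that are regular at every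
place. For a function field in one variable this is the genus of its smooth projective model. -/
noncomputable def genus : ℕ :=
  Module.finrank L (Submodule.span L {ω : Ω[K⁄L] | ∀ P : Place L K,
    ω ∈ Submodule.span P.v.integer {η | ∃ a, P.v a ≤ 1 ∧ η = KaehlerDifferential.D L K a}})

variable {K}

/-- The degree of the pull-back of `O(1)` along the map to projective space with homogeneous
coordinates `x`: the sum over all places of `- min_i ord (x i)`. -/
noncomputable def degree {n : ℕ} (x : Fin (n + 1) → K) : ℤ :=
  ∑ᶠ P : Place L K, WithZero.log (Finset.univ.sup fun i => P.v (x i))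

variable {L}

/-- `r`-canonical forms regular at every place, written in the frame dual to `D 1 ∧ ⋯ ∧ D k`:
the form `d a₁ ∧ ⋯ ∧ d aₖ` has coordinate `det (D i (a j))`. -/
def Pluri {k : ℕ} (D : Fin k → Derivation L K K) (r : ℕ) : Set K :=
  {h | ∀ P : Place L K, h ∈ Submodule.span P.v.integer
    {J | ∃ a : Fin k → K, (∀ j, P.v (a j) ≤ 1) ∧ J = (Matrix.of fun i j => D i (a j)).det} ^ r}

end

/-- A variety with function field `K` is of general type: some pluricanonical system has an image
of dimension `k = dim`. -/
def GeneralType (L K : Type u) [Field L] [Field K] [Algebra L K] : Prop :=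
  ∃ (k : ℕ) (D : Module.Basis (Fin k) K (Derivation L K K)) (r : ℕ) (h₀ : K) (h : Fin k → K),
    0 < r ∧ h₀ ≠ 0 ∧ h₀ ∈ Pluri D r ∧ (∀ i, h i ∈ Pluri D r) ∧
      AlgebraicIndependent L fun i => h i / h₀

section

variable {L : Type u} [Field L] {n : ℕ} {ι : Type} (G : ι → MvPolynomial (Fin (n + 1)) L)

/-- `X = {G = 0}` is algebraically hyperbolic for `O(1)`. -/
def AlgHyperbolic : Prop :=
  ∃ α : ℝ, ∀ (K : Type u) [Field K] [Algebra L K], (⊤ : IntermediateField L K).FG →
    Algebra.trdeg L K = 1 → ∀ x : Fin (n + 1) → K, x ≠ 0 →
      (∀ t, MvPolynomial.aeval x (G t) = 0) → (degree L x : ℝ) ≤ α * genus L K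

/-- Every integral closed subvariety of `X = {G = 0}` (with generic point `x` and function field
`K`) is of general type. -/
def Hyperbolic : Prop :=
  ∀ (K : Type u) [Field K] [Algebra L K] (x : Fin (n + 1) → K), x ≠ 0 →
    (∀ t, MvPolynomial.aeval x (G t) = 0) →
      IntermediateField.adjoin L {y | ∃ i j, y = x i / x j} = ⊤ → GeneralType L K

/-- Every morphism from the multiplicative group to `X = {G = 0}` is constant. -/
def GmConstant : Prop :=
  ∀ x : Fin (n + 1) → L[T;T⁻¹], Ideal.span (Set.range x) = ⊤ →
    (∀ t, MvPolynomial.aeval x (G t) = 0) →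
      ∃ (c : Fin (n + 1) → L) (g : L[T;T⁻¹]), ∀ i, x i = c i • g

end

end Pool.Agent.P.MP_6f117a_ag
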