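import Pool.Agent.P.MP_6f117a_ag.Curve

/-! Riemann-Roch spaces and the space of regular differentials. -/

namespace Pool.Agent.P.MP_6f117a_ag

open WithZero Polynomial Module
open scoped IntermediateField

universe u

variable {L K : Type u} [Field L] [Field K] [Algebra L K]

/-- Functions with a pole of order at most `z` at `P`. -/
def Place.le (P : Place L K) (z : ℤ) : Submodule L K where
  carrier := {x | P.v x ≤ exp z}
  add_mem' h1 h2 := P.v.map_add_le h1 h2
  zero_mem' := by simp
  smul_mem' c x h := by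
    change P.v (c • x) ≤ _
    rw [Algebra.smul_def, map_mul]
    exact (mul_le_of_le_one_left' (P.triv c)).trans h

/-- Functions `h` such that `h` times the differential dual to `δ` is regular. -/
noncomputable def can (δ : Derivation L K K) : Submodule L K := ⨅ P : Place L K, P.le (P.κ δ)

theorem mem_can {δ : Derivation L K K} {x : K} :
    x ∈ can δ ↔ ∀ P : Place L K, P.v x ≤ exp (P.κ δ) := Submodule.mem_iInf _

theorem fd_of_bound (U : Submodule L K) (N : ℕ)
    (h : ∀ V ≤ U, FiniteDimensional L V → finrank L V ≤ N) : FiniteDimensional L U := by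
  refine Module.rank_lt_aleph0_iff.1 ((rank_le (n := N) fun s hs => ?_).trans_lt
    Cardinal.natCast_lt_aleph0)
  have := finrank_span_eq_card (hs.map' U.subtype U.ker_subtype)
  rw [Fintype.card_coe] at this
  rw [← this]
  exact h _ (Submodule.span_le.2 (by rintro _ ⟨i, rfl⟩; exact i.1.2))
    (FiniteDimensional.span_of_finite L (Set.finite_range _))

variable [IsAlgClosed L] [CharZero L] [FF L K]

theorem step_one (P : Place L K) (V : Submodule L K) [FiniteDimensional L V] (z : ℤ)
    (h : V ≤ P.le (z + 1)) : finrank L V ≤ finrank L (V ⊓ P.le z : Submodule L K) + 1 := by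
  by_cases h0 : V ≤ P.le z
  · rw [inf_eq_left.2 h0]; omega
  obtain ⟨x, hx, h1⟩ := SetLike.not_le_iff_exists.1 h0
  have h1 : exp z < P.v x := not_le.1 h1
  have v0 : P.v x ≠ 0 := (exp_pos.trans h1).ne'
  have x0 : x ≠ 0 := by simpa using v0
  have e : P.v x = exp (z + 1) := le_antisymm (h hx) (by
    rw [← exp_log v0, exp_lt_exp] at h1
    rw [← exp_log v0, exp_le_exp]; omega)
  have : V ≤ V ⊓ P.le z ⊔ L ∙ x := fun y hy => by
    obtain ⟨c, hc⟩ := P.res (x := y / x) (by
      rw [map_div₀, e, div_le_one₀ exp_pos]; exact h hy)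
    refine Submodule.mem_sup.2 ⟨y - c • x, ⟨sub_mem hy (V.smul_mem c hx), ?_⟩, c • x,
      Submodule.smul_mem _ c (Submodule.mem_span_singleton_self x), by simp⟩
    change P.v _ ≤ _
    rw [show y - c • x = (y / x - algebraMap L K c) * x by rw [Algebra.smul_def]; field_simp,
      ← lt_mul_exp_iff_le exp_ne_zero, ← exp_add, map_mul, e]
    exact mul_lt_of_lt_one_left exp_pos hc
  refine (Submodule.finrank_mono this).trans
    ((Submodule.finrank_add_le_finrank_add_finrank _ _).trans ?_)
  rw [finrank_span_singleton x0]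

theorem step_nat (P : Place L K) (z : ℤ) (a : ℕ) (V : Submodule L K) [FiniteDimensional L V]
    (h : V ≤ P.le (z + a)) : finrank L V ≤ finrank L (V ⊓ P.le z : Submodule L K) + a := by
  induction a generalizing V with
  | zero => rw [inf_eq_left.2 (by simpa using h)]; omega
  | succ a ih =>
    have h1 := step_one P V (z + a) (by rwa [add_assoc])
    have h2 := ih (V ⊓ P.le (z + a)) inf_le_right
    have h3 : finrank L (V ⊓ P.le (z + a) ⊓ P.le z : Submodule L K) ≤
        finrank L (V ⊓ P.le z : Submodule L K) :=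
      Submodule.finrank_mono (inf_le_inf_right _ inf_le_left)
    omega

theorem step_many (Z : Finset (Place L K)) (z y : Place L K → ℤ) (V : Submodule L K)
    [FiniteDimensional L V] (hy : ∀ P ∈ Z, z P ≤ y P) (h : ∀ P ∈ Z, V ≤ P.le (y P)) :
    ∃ W ≤ V, (∀ P ∈ Z, W ≤ P.le (z P)) ∧
      (finrank L V : ℤ) ≤ finrank L W + ∑ P ∈ Z, (y P - z P) := by
  classical
  induction Z using Finset.induction_on with
  | empty => exact ⟨V, le_rfl, by simp, by simp⟩
  | insert P Z hP ih =>
    obtain ⟨W, h1, h2, h3⟩ := ih (fun Q hQ => hy Q (by simp [hQ])) fun Q hQ => h Q (by simp [hQ])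
    have := Submodule.finiteDimensional_of_le h1
    have e := Int.toNat_of_nonneg (sub_nonneg.2 (hy P (by simp)))
    have h4 := step_nat P (z P) (y P - z P).toNat W (by
      rw [e, add_sub_cancel]; exact h1.trans (h P (by simp)))
    refine ⟨W ⊓ P.le (z P), inf_le_left.trans h1, fun Q hQ => ?_, ?_⟩
    · rcases Finset.mem_insert.1 hQ with rfl | hQ
      · exact inf_le_right
      · exact inf_le_left.trans (h2 Q hQ)
    · rw [Finset.sum_insert hP]; omega

theorem exists_pole {t : K} (ht : Transcendental L t) : ∃ P : Place L K, 1 < P.v t := by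
  obtain ⟨Z, h1, h2⟩ := exists_poles ht
  have := FF.fin t ht
  have := finrank_pos (R := L⟮t⟯) (M := K)
  obtain ⟨P, hP⟩ := Z.eq_empty_or_nonempty.resolve_left (by rintro rfl; simp at h2; omega)
  exact ⟨P, (h1 P).1 hP⟩

theorem eq_zero_of_lt {x : K} (h : ∀ P : Place L K, P.v x ≤ 1) (P : Place L K) (hP : P.v x < 1) :
    x = 0 := by_contra fun h0 =>
  have ⟨Q, hQ⟩ := exists_pole (P.trans h0 hP.ne)
  hQ.not_ge (h Q)

omit [CharZero L] [FF L K] in
theorem exists_trans {δ : Derivation L K K} (h : δ ≠ 0) : ∃ t, Transcendental L t ∧ δ t ≠ 0 := by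
  obtain ⟨t, ht⟩ := DFunLike.ne_iff.1 h
  exact ⟨t, (const_or_trans t).resolve_left (by rintro ⟨c, rfl⟩; simp at ht), ht⟩

theorem κ_smul {δ : Derivation L K K} (h : δ ≠ 0) {g : K} (hg : g ≠ 0) (P : Place L K) :
    P.κ (g • δ) = log (P.v g) + P.κ δ := by
  rw [Place.κ, Derivation.smul_apply, smul_eq_mul, map_mul,
    log_mul (by simpa using hg) (by simpa using P.der_π_ne h), Place.κ]

theorem exists_smul {δ δ' : Derivation L K K} (h : δ ≠ 0) (h' : δ' ≠ 0) :
    ∃ g : K, g ≠ 0 ∧ δ' = g • δ := by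
  obtain ⟨t, ht, h0⟩ := exists_trans h
  obtain ⟨D, -, -, hD⟩ := exists_dt ht
  have e : δ' = (δ' t / δ t) • δ := Derivation.ext fun x => by
    rw [Derivation.smul_apply, hD δ x, hD δ' x, smul_eq_mul]; field_simp
  exact ⟨_, fun h => h' (by rw [e, h, zero_smul]), e⟩

theorem finite_κ' {δ : Derivation L K K} (h : δ ≠ 0) : {P : Place L K | P.κ δ ≠ 0}.Finite := by
  obtain ⟨t, ht, -⟩ := exists_trans h
  obtain ⟨D, hD, -⟩ := exists_dt ht
  have h1 : D ≠ 0 := by rintro rfl; simp at hD
  obtain ⟨g, hg, rfl⟩ := exists_smul h1 h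
  refine ((finite_κ ht hD).union (finite_supp hg)).subset fun P hP => by_contra fun hc => hP ?_
  simp only [Set.mem_union, Set.mem_ofPred_eq, not_or, not_not] at hc
  rw [κ_smul h1 hg, hc.1, hc.2, log_one, add_zero]

theorem fd_can {δ : Derivation L K K} (h : δ ≠ 0) : FiniteDimensional L (can δ) := by
  classical
  obtain ⟨t, ht, -⟩ := exists_trans h
  obtain ⟨P, -⟩ := exists_pole ht
  let Z := insert P (finite_κ' h).toFinset
  refine fd_of_bound _ (∑ Q ∈ Z, (|Q.κ δ| + 1)).toNat fun V hV _ => ?_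
  obtain ⟨W, h1, h2, h3⟩ := step_many Z (fun _ => -1) (fun Q => |Q.κ δ|) V
    (fun Q _ => by have := abs_nonneg (Q.κ δ); omega) fun Q _ x hx =>
      (mem_can.1 (hV hx) Q).trans (exp_le_exp.2 (le_abs_self _))
  have lt : ∀ x ∈ W, ∀ Q ∈ Z, Q.v x < 1 := fun x hx Q hQ =>
    lt_of_le_of_lt (h2 Q hQ hx) (by rw [← exp_zero, exp_lt_exp]; omega)
  have : W = ⊥ := (Submodule.eq_bot_iff _).2 fun x hx => eq_zero_of_lt (fun Q => by
    by_cases e : Q ∈ Z
    · exact (lt x hx Q e).le
    · have : Q.κ δ = 0 := by_contra fun h => e (by simp [Z, h])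
      simpa [this] using mem_can.1 (hV (h1 hx)) Q) P (lt x hx P (by simp [Z]))
  subst this
  simp only [finrank_bot, sub_neg_eq_add] at h3
  omega

theorem genus_eq {δ : Derivation L K K} (h : δ ≠ 0) : genus L K = finrank L (can δ) := by
  obtain ⟨t, ht, h0⟩ := exists_trans h
  obtain ⟨D, D1, hD, hD'⟩ := exists_dt ht
  let ω := (δ t)⁻¹ • KaehlerDifferential.D L K t
  have hω : ∀ x, KaehlerDifferential.D L K x = δ x • ω := fun x => by
    rw [hD x, hD' δ x, smul_smul, mul_inv_cancel_right₀ h0]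
  let φ : K →ₗ[L] Ω[K⁄L] := (LinearMap.toSpanSingleton K _ ω).restrictScalars L
  have lift : ∀ x, δ.liftKaehlerDifferential (φ x) = x := fun x => by simp [φ, ω, h0]
  have inj : Function.Injective φ := fun x y e => by rw [← lift x, e, lift]
  have v0 : ∀ P : Place L K, P.v (δ P.π) = exp (P.κ δ) := fun P =>
    (exp_log (by simpa using P.der_π_ne h)).symm
  rw [genus, (Submodule.equivMapOfInjective φ inj _).finrank_eq, ← Submodule.span_eq (.map φ _)]
  refine congrArg (fun S : Set Ω[K⁄L] => finrank L (Submodule.span L S)) (Set.ext fun η => ?_)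
  constructor
  · intro hη
    have H : ∀ P : Place L K, ∃ x, P.v x ≤ exp (P.κ δ) ∧ φ x = η := fun P => by
      have h2 := hη P
      clear hη
      induction h2 using Submodule.span_induction with
      | mem _ h => obtain ⟨a, ha, rfl⟩ := h; exact ⟨δ a, v0 P ▸ P.v_der δ ha, (hω a).symm⟩
      | zero => exact ⟨0, by simp, map_zero _⟩
      | add _ _ _ _ h1 h2 =>
        obtain ⟨x, h1, rfl⟩ := h1
        obtain ⟨y, h2, rfl⟩ := h2
        exact ⟨x + y, P.v.map_add_le h1 h2, map_add _ _ _⟩
      | smul a _ _ h =>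
        obtain ⟨x, h1, rfl⟩ := h
        exact ⟨a * x, by rw [map_mul]; exact (mul_le_of_le_one_left' a.2).trans h1,
          mul_smul (a : K) x ω⟩
    obtain ⟨P, -⟩ := exists_pole ht
    obtain ⟨x, -, rfl⟩ := H P
    exact ⟨x, mem_can.2 fun Q => by obtain ⟨y, h, e⟩ := H Q; exact inj e ▸ h, rfl⟩
  · rintro ⟨x, hx, rfl⟩ P
    have := P.smul_mem (a := x / δ P.π) (by
      rw [map_div₀, v0, div_le_one₀ exp_pos]; exact mem_can.1 hx P)
      (Submodule.subset_span (s := {η | ∃ a, P.v a ≤ 1 ∧ η = KaehlerDifferential.D L K a})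
        ⟨_, P.v_π_le, rfl⟩)
    rwa [hω, smul_smul, div_mul_cancel₀ _ (P.der_π_ne h)] at this

theorem pluri_le {D : Fin 1 → Derivation L K K} (h : D 0 ≠ 0) {r : ℕ} {x : K}
    (hx : x ∈ Pluri D r) (P : Place L K) : P.v x ≤ exp (r * P.κ (D 0)) := by
  have v0 : P.v (D 0 P.π) = exp (P.κ (D 0)) := (exp_log (by simpa using P.der_π_ne h)).symm
  have h1 : ∀ y ∈ Jm D P, P.v y ≤ exp (P.κ (D 0)) := fun y hy => by
    induction hy using Submodule.span_induction with
    | mem _ h =>
      obtain ⟨a, ha, rfl⟩ := h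
      simpa [v0] using P.v_der (D 0) (ha 0)
    | zero => simp
    | add _ _ _ _ h1 h2 => exact P.v.map_add_le h1 h2
    | smul a _ _ h =>
      change P.v (a.1 * _) ≤ _
      rw [map_mul]; exact (mul_le_of_le_one_left' a.2).trans h
  replace hx := (mem_pluri D).1 hx P
  induction hx using Submodule.pow_induction_on_left' with
  | algebraMap a => rw [Nat.cast_zero, zero_mul]; exact a.2
  | add _ _ _ _ _ h1 h2 => exact P.v.map_add_le h1 h2
  | mem_mul y hy i z _ h =>
    rw [map_mul, Nat.cast_succ, add_mul, one_mul, add_comm, exp_add]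
    exact mul_le_mul' (h1 y hy) h

end Pool.Agent.P.MP_6f117a_ag
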