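import Pool.Agent.P.MP_6f117a_ag.SIface

/-! Step BND2 of the proof for surfaces in projective three-space. -/

namespace Pool.Agent.P.MP_6f117a_ag.Surf

open MvPolynomial Module
open Ideal (span)
open scoped Polynomial WithZero

universe u

section

open WithZero
open scoped IntermediateField

variable {L K : Type u} [Field L] [Field K] [Algebra L K]

theorem trans_bnd2 {E : IntermediateField L K} {t : E} :
    Transcendental L (t : K) ↔ Transcendental L t :=
  transcendental_algebraMap_iff (algebraMap E K).injective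

theorem ff_bnd2 [FF L K] (E : IntermediateField L K) : FF L E where
  fin t ht := by
    have h := FF.fin (L := L) (t : K) (trans_bnd2.2 ht)
    rw [← IntermediateField.lift_adjoin_simple] at h
    have : Module.Finite L⟮t⟯ K := Module.Finite.of_equiv_equiv
      (IntermediateField.liftAlgEquiv L⟮t⟯).symm.toRingEquiv (RingEquiv.refl K)
      (RingHom.ext fun _ => rfl)
    exact Module.Finite.left L⟮t⟯ E K

theorem place_bnd2 (E : IntermediateField L K) [Algebra.IsIntegral E K] (P : Place L K) :
    ∃ Q : Place L E, ∀ x : E, Q.v x ≤ 1 → P.v x ≤ 1 := by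
  classical
  have v0 : ∀ x : E, x ≠ 0 → P.v x ≠ 0 := fun x hx => by simpa using hx
  let H : AddSubgroup ℤ :=
    { carrier := {z | ∃ x : E, x ≠ 0 ∧ log (P.v x) = z}
      add_mem' := by
        rintro _ _ ⟨x, hx, rfl⟩ ⟨y, hy, rfl⟩
        exact ⟨x * y, mul_ne_zero hx hy, by
          rw [MulMemClass.coe_mul, map_mul, log_mul (v0 x hx) (v0 y hy)]⟩
      zero_mem' := ⟨1, one_ne_zero, by simp⟩
      neg_mem' := by
        rintro _ ⟨x, hx, rfl⟩
        exact ⟨x⁻¹, inv_ne_zero hx, by simp⟩ }
  obtain ⟨a, ha⟩ := Int.subgroup_cyclic H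
  have hd : ∀ z, z ∈ H ↔ |a| ∣ z := fun z => by
    rw [ha, AddSubgroup.mem_closure_singleton, abs_dvd]
    exact exists_congr fun n => by rw [smul_eq_mul, mul_comm, eq_comm]
  have hdv : ∀ x : E, x ≠ 0 → |a| ∣ log (P.v x) := fun x hx => (hd _).1 ⟨x, hx, rfl⟩
  have hpos : 0 < |a| := abs_pos.2 fun h0 => by
    have h1 : ∀ x : E, P.v x ≤ 1 := fun x => by
      rcases eq_or_ne x 0 with rfl | hx
      · simp
      have := hdv x hx
      rw [h0, abs_zero, zero_dvd_iff] at this
      rw [← exp_log (v0 x hx), this, exp_zero]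
    let φ : E →+* P.v.integer := (algebraMap E K).codRestrict _ h1
    let _ := φ.toAlgebra
    have : IsScalarTower E P.v.integer K := .of_algebraMap_eq fun _ => rfl
    have h2 : P.v P.π⁻¹ ≤ 1 := (Valuation.integer.integers P.v).mem_of_integral
      (Algebra.IsIntegral.isIntegral (R := E) P.π⁻¹).tower_top
    rw [map_inv₀, P.v_π, ← exp_neg, ← exp_zero, exp_le_exp] at h2
    omega
  let f : E → ℤᵐ⁰ := fun x => if x = 0 then 0 else exp (log (P.v x) / |a|)
  have f1 : ∀ x, x ≠ 0 → f x = exp (log (P.v x) / |a|) := fun x hx => if_neg hx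
  have mono : ∀ x y : E, P.v x ≤ P.v y → f x ≤ f y := fun x y h => by
    rcases eq_or_ne x 0 with rfl | hx
    · simp [f]
    have hy : y ≠ 0 := by
      rintro rfl
      exact v0 x hx (by simpa using h)
    rw [f1 x hx, f1 y hy, exp_le_exp]
    exact Int.ediv_le_ediv hpos ((log_le_log (v0 x hx) (v0 y hy)).2 h)
  have one : f 1 = 1 := by simp [f]
  let w : Valuation E ℤᵐ⁰ :=
    { toFun := f
      map_zero' := if_pos rfl
      map_one' := one
      map_mul' := fun x y => by
        rcases eq_or_ne x 0 with rfl | hx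
        · simp [f]
        rcases eq_or_ne y 0 with rfl | hy
        · simp [f]
        rw [f1 x hx, f1 y hy, f1 _ (mul_ne_zero hx hy), MulMemClass.coe_mul, map_mul,
          log_mul (v0 x hx) (v0 y hy), Int.add_ediv_of_dvd_left (hdv x hx), exp_add]
      map_add_le_max' := fun x y => by
        rcases le_max_iff.1 (P.v.map_add x y) with h | h
        · exact le_max_of_le_left (mono _ _ h)
        · exact le_max_of_le_right (mono _ _ h) }
  refine ⟨⟨w, fun z => ?_, fun c => (mono _ 1 (P.v.map_one.symm ▸ P.triv c)).trans one.le⟩,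
    fun x hx => ?_⟩
  · rcases eq_or_ne z 0 with rfl | hz
    · exact ⟨0, map_zero _⟩
    obtain ⟨x, hx, e⟩ := (hd (|a| * log z)).2 (dvd_mul_right _ _)
    exact ⟨x, (f1 x hx).trans (by rw [e, Int.mul_ediv_cancel_left _ hpos.ne', exp_log hz])⟩
  · rcases eq_or_ne x 0 with rfl | h0
    · simp
    replace hx : f x ≤ 1 := hx
    obtain ⟨n, hn⟩ := hdv x h0
    rw [f1 x h0, hn, Int.mul_ediv_cancel_left _ hpos.ne', ← exp_zero, exp_le_exp] at hx
    rw [← exp_log (v0 x h0), hn, ← exp_zero, exp_le_exp]
    exact mul_nonpos_of_nonneg_of_nonpos hpos.le hx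

end

open WithZero in
open scoped IntermediateField in
theorem pBND2 (L : Type u) [Field L] [IsAlgClosed L] [CharZero L] :
    S_BND2 L := by
  classical
  intro K _ _ _ E hE hg
  have := ff_bnd2 E
  obtain ⟨t, htE, ht⟩ := SetLike.not_le_iff_exists.1 fun h => hE (le_bot_iff.1 h)
  have ht : Transcendental L t := (const_or_trans t).resolve_left (IntermediateField.mem_bot.not.1 ht)
  have ht' : Transcendental L (⟨t, htE⟩ : E) := trans_bnd2.1 ht
  have := FF.fin t ht
  have : FiniteDimensional E K := by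
    have h := IntermediateField.adjoin_simple_le_iff.2 htE
    let _ := (IntermediateField.inclusion h).toAlgebra
    have : IsScalarTower L⟮t⟯ E K := .of_algebraMap_eq fun _ => rfl
    exact Module.Finite.of_restrictScalars_finite L⟮t⟯ E K
  obtain ⟨D, D1, D2, -⟩ := exists_dt ht'
  obtain ⟨δ, δ1, -, -⟩ := exists_dt ht
  have hD : D ≠ 0 := by rintro rfl; simp at D1
  have hδ : δ ≠ 0 := by rintro rfl; simp at δ1
  have ext : ∀ x : E, δ x = D x := fun x => by
    have := congrArg (δ.compAlgebraMap E).liftKaehlerDifferential (D2 x)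
    rw [map_smul, Derivation.liftKaehlerDifferential_comp_D,
      Derivation.liftKaehlerDifferential_comp_D] at this
    refine this.trans ?_
    change D x • δ t = _
    rw [δ1, IntermediateField.smul_def, smul_eq_mul, mul_one]
  have hc : ∀ h ∈ can D, ∀ P : Place L K, P.v (h : E) ≤ exp (P.κ δ) := fun h hh P => by
    obtain ⟨Q, hQ⟩ := place_bnd2 E P
    have h0 := Q.der_π_ne hD
    have h1 := hQ (h / D Q.π) (by
      rw [map_div₀, div_le_one₀ (zero_lt_iff.2 (by simpa using h0))]
      exact (mem_can.1 hh Q).trans (exp_log (by simpa using h0)).le)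
    have h2 := P.v_der δ (hQ _ Q.v_π_le)
    rw [IntermediateField.coe_div, map_div₀, div_le_one₀ (zero_lt_iff.2 (by simpa using h0)),
      ← ext] at h1
    exact h1.trans (h2.trans (exp_log (by simpa using P.der_π_ne hδ)).ge)
  rw [genus_eq hD] at hg
  have := fd_can hD
  obtain ⟨⟨h, hh⟩, h0⟩ := (finrank_pos_iff_exists_ne_zero (R := L) (M := can D)).1 (by omega)
  have h0 : h ≠ 0 := fun e => h0 (Subtype.ext e)
  obtain ⟨g, hg', g0⟩ := SetLike.not_le_iff_exists.1 fun hle : can D ≤ L ∙ h => by
    have := Submodule.finrank_mono hle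
    rw [finrank_span_singleton h0] at this
    omega
  have hs : Transcendental L (g / h) := (const_or_trans _).resolve_left (by
    rintro ⟨c, hc⟩
    exact g0 (Submodule.mem_span_singleton.2 ⟨c, by rw [Algebra.smul_def, hc, div_mul_cancel₀ _ h0]⟩))
  have g1 : (g : K) ≠ 0 := fun e => g0 (by rw [show g = 0 from Subtype.ext e]; exact zero_mem _)
  have h1 : (h : K) ≠ 0 := fun e => h0 (Subtype.ext e)
  have hs' := trans_bnd2.2 hs
  have := FF.fin _ hs'
  have a1 := IntermediateField.finrank_le_of_le_left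
    (IntermediateField.adjoin_simple_le_iff.2 (g / h).2)
  obtain ⟨Z, -, a2⟩ := exists_poles hs'
  let Y := Z ∪ (finite_κ' hδ).toFinset ∪ (finite_supp (L := L) h1).toFinset
  have a3 := prod_formula h1 Y (by simp +contextual [Y])
  have a4 := deg_can_le hδ Y (by simp +contextual [Y])
  have a5 : ∑ P ∈ Z, log (P.v (g / h : E)) ≤ ∑ P ∈ Y, (P.κ δ - log (P.v (h : K))) := by
    refine (Finset.sum_le_sum fun P _ => ?_).trans (Finset.sum_le_sum_of_subset_of_nonneg
      (fun P hP => by simp [Y, hP]) fun P _ _ =>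
        sub_nonneg.2 ((log_le_iff_le_exp (by simpa using h1)).2 (hc h hh P)))
    rw [IntermediateField.coe_div, map_div₀, log_div (by simpa using g1) (by simpa using h1)]
    exact sub_le_sub_right ((log_le_iff_le_exp (by simpa using g1)).2 (hc g hg' P)) _
  rw [Finset.sum_sub_distrib, a3, a2] at a5
  omega

end Pool.Agent.P.MP_6f117a_ag.Surf
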