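import Pool.Agent.P.MP_6f117a_ag.LogForms

/-! Places of a function field in one variable and the primes of an affine model. -/

namespace Pool.Agent.P.MP_6f117a_ag

open WithZero Polynomial IsDedekindDomain
open scoped IntermediateField nonZeroDivisors

universe u

variable {L K : Type u} [Field L] [Field K] [Algebra L K]

theorem Place.ext' {P Q : Place L K} (h : P.v = Q.v) : P = Q := by
  cases P; cases Q; congr

theorem Place.v_aeval (P : Place L K) {t : K} (ht : P.v t ≤ 1) (p : L[X]) :
    P.v (aeval t p) ≤ 1 := by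
  induction p using Polynomial.induction_on' with
  | add p q hp hq => rw [map_add]; exact P.v.map_add_le hp hq
  | monomial n c =>
    rw [aeval_monomial, map_mul, map_pow]
    exact mul_le_one' (P.triv c) (pow_le_one₀ zero_le ht)

theorem Place.v_const (P : Place L K) {c : L} (hc : c ≠ 0) : P.v (algebraMap L K c) = 1 := by
  have h := P.triv c⁻¹
  rw [map_inv₀, map_inv₀, inv_le_one₀ (zero_lt_iff.2 (by simpa using hc))] at h
  exact le_antisymm (P.triv c) h

/-- Functions regular wherever `t` is. -/
def Reg (L : Type u) [Field L] [Algebra L K] (t x : K) : Prop :=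
  ∀ P : Place L K, P.v t ≤ 1 → P.v x ≤ 1

/-- The facts on places that come from the integral closure of `L[t]`. -/
structure Model (L : Type u) [Field L] [Algebra L K] (t : K) : Prop where
  basis : ∃ b : Module.Basis (Fin (Module.finrank L⟮t⟯ K)) L⟮t⟯ K,
    ∀ x, Reg L t x ↔ ∃ p : Fin (Module.finrank L⟮t⟯ K) → L[X], x = ∑ i, aeval t (p i) * b i
  sep : ∀ P P' : Place L K, P.v t ≤ 1 → P'.v t ≤ 1 → P ≠ P' →
    ∃ y, Reg L t y ∧ P.v y = 1 ∧ P'.v y < 1
  frac : ∀ P : Place L K, P.v t ≤ 1 → ∀ x, P.v x ≤ 1 →
    ∃ y z, Reg L t y ∧ Reg L t z ∧ P.v z = 1 ∧ x * z = y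
  res : ∀ P : Place L K, P.v t ≤ 1 → ∀ x, P.v x ≤ 1 → ∃ c, P.v (x - algebraMap L K c) < 1
  fund : ∃ Z : Finset (Place L K), (∀ P, P ∈ Z ↔ P.v t < 1) ∧
    ∑ P ∈ Z, -log (P.v t) = Module.finrank L⟮t⟯ K

section

variable [Algebra L[X] K] [IsScalarTower L L[X] K] {B : Type u} [CommRing B] [IsDedekindDomain B]
  [Algebra L[X] B] [Algebra B K] [IsScalarTower L[X] B K] [IsFractionRing B K]
  [Algebra L B] [IsScalarTower L B K]

theorem alg_eq (p : L[X]) : algebraMap L[X] K p = aeval (algebraMap L[X] K X) p := by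
  rw [aeval_algebraMap_apply, aeval_X_left_apply]

theorem v_int [Algebra.IsIntegral L[X] B] (P : Place L K) (ht : P.v (algebraMap L[X] K X) ≤ 1)
    (b : B) : P.v (algebraMap B K b) ≤ 1 := by
  let φ : L[X] →+* P.v.integer := (algebraMap L[X] K).codRestrict _ fun p => by
    rw [alg_eq]; exact P.v_aeval ht p
  let _ := φ.toAlgebra
  have : IsScalarTower L[X] P.v.integer K := .of_algebraMap_eq fun _ => rfl
  exact (Valuation.integer.integers P.v).mem_of_integral
    ((Algebra.IsIntegral.isIntegral (R := L[X]) b).algebraMap (B := K)).tower_top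

/-- The place attached to a prime. -/
noncomputable def toPlace (w : HeightOneSpectrum B) : Place L K where
  v := w.valuation K
  surj := w.valuation_surjective K
  triv c := by
    rw [IsScalarTower.algebraMap_apply L B K]; exact w.valuation_le_one _

theorem exists_prime [Algebra.IsIntegral L[X] B] (P : Place L K)
    (ht : P.v (algebraMap L[X] K X) ≤ 1) : ∃ w : HeightOneSpectrum B, P = toPlace w := by
  have hB := v_int (B := B) P ht
  let I : Ideal B :=
    { carrier := {b | P.v (algebraMap B K b) < 1}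
      add_mem' := fun h1 h2 => by
        simp only [Set.mem_ofPred_eq, map_add]; exact P.v.map_add_lt h1 h2
      zero_mem' := by simp
      smul_mem' := fun c b h => by
        simp only [Set.mem_ofPred_eq, smul_eq_mul, map_mul]
        exact mul_lt_one_of_nonneg_of_lt_one_right (hB c) zero_le h }
  have mem : ∀ b, b ∈ I ↔ P.v (algebraMap B K b) < 1 := fun _ => Iff.rfl
  have one : ∀ b, b ∉ I → P.v (algebraMap B K b) = 1 := fun b h =>
    le_antisymm (hB b) (not_lt.1 h)
  let w : HeightOneSpectrum B :=
    { asIdeal := I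
      isPrime := ⟨(Ideal.ne_top_iff_one _).2 (by simp [mem]), fun {a b} h => by
        by_contra hc
        push Not at hc
        simp [mem, one _ hc.1, one _ hc.2] at h⟩
      ne_bot := fun h => by
        obtain ⟨a, b, hb, e⟩ := IsFractionRing.div_surjective (A := B) P.π
        have hb' := nonZeroDivisors.ne_zero hb
        have ha : a ≠ 0 := by rintro rfl; exact P.π_ne (by simpa using e.symm)
        have := P.v_π
        rw [← e, map_div₀, one a (by simpa [h] using ha), one b (by simpa [h] using hb'), div_one,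
          ← exp_zero, exp_inj] at this
        omega }
  have le : ∀ x, w.valuation K x ≤ 1 → P.v x ≤ 1 := fun x hx => by
    obtain ⟨n, d, e⟩ := w.exists_primeCompl_mul_eq_of_integer x hx
    have := hB n
    rwa [← e, map_mul, one d d.2, mul_one] at this
  have eq1 : ∀ x, w.valuation K x = 1 → P.v x = 1 := fun x hx => by
    have h0 : x ≠ 0 := by rintro rfl; simp at hx
    have := le x⁻¹ (by simp [hx])
    rw [map_inv₀, inv_le_one₀ (zero_lt_iff.2 (by simpa using h0))] at this
    exact le_antisymm (le x hx.le) this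
  let Q : Place L K := toPlace w
  have key : ∀ x, x ≠ 0 → log (P.v x) = -log (P.v Q.π) * log (Q.v x) := fun x hx => by
    have := congrArg log (eq1 _ (Q.v_unit hx))
    rw [map_mul, map_zpow₀, log_mul (by simpa using hx) (zpow_ne_zero _ (by simpa using Q.π_ne)),
      log_zpow, log_one, smul_eq_mul] at this
    linear_combination this
  have h1 : log (P.v Q.π) ≤ 0 := by
    rw [log_le_iff_le_exp (by simpa using Q.π_ne)]; exact le _ Q.v_π_le
  have h2 := key _ P.π_ne
  rw [P.v_π, log_exp] at h2
  have h3 : -log (P.v Q.π) = 1 :=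
    Int.eq_one_of_mul_eq_one_right (b := -log (Q.v P.π)) (by omega) (by linear_combination h2)
  refine ⟨w, Place.ext' (Valuation.ext fun x => ?_)⟩
  rcases eq_or_ne x 0 with rfl | hx
  · simp
  have := key x hx
  rw [h3, one_mul] at this
  rw [← exp_log (x := P.v x) (by simpa using hx), this, exp_log (by simpa using hx)]

theorem reg_iff [Algebra.IsIntegral L[X] B] (x : K) :
    Reg L (algebraMap L[X] K X) x ↔ ∃ b, algebraMap B K b = x := by
  refine ⟨fun h => HeightOneSpectrum.mem_integers_of_valuation_le_one K x fun w =>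
    h (toPlace w) ?_, ?_⟩
  · rw [IsScalarTower.algebraMap_apply L[X] B K]; exact w.valuation_le_one _
  · rintro ⟨b, rfl⟩ P hP; exact v_int P hP b

variable [IsScalarTower L L[X] B] [Module.Finite L[X] B] [IsAlgClosed L]

omit [Algebra L[X] K] [IsScalarTower L L[X] K] [Algebra L K] [Algebra B K] [IsScalarTower L B K]
  [IsScalarTower L[X] B K] [IsFractionRing B K] [IsDedekindDomain B] in
theorem res_bij (q : Ideal B) [q.IsMaximal] : Function.Bijective (algebraMap L (B ⧸ q)) := by
  let _ := Ideal.Quotient.field q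
  have : Algebra.FiniteType L B := .trans (S := L[X]) inferInstance inferInstance
  have := finite_of_finite_type_of_isJacobsonRing L (B ⧸ q)
  exact IsAlgClosed.algebraMap_bijective_of_isIntegral

theorem fund_aux [Module.Free L[X] B] [FaithfulSMul L[X] B] :
    ∃ Z : Finset (Place L K), (∀ P, P ∈ Z ↔ P.v (algebraMap L[X] K X) < 1) ∧
      ∑ P ∈ Z, -log (P.v (algebraMap L[X] K X)) = Module.finrank L[X] B := by
  classical
  let p : Ideal L[X] := Ideal.span {X}
  have : p.IsMaximal := PrincipalIdealRing.isMaximal_of_irreducible irreducible_X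
  have hp : p ≠ ⊥ := by simp [p]
  have hX : algebraMap L[X] B X ≠ 0 := by simp
  have hm : p.map (algebraMap L[X] B) = Ideal.span {algebraMap L[X] B X} := by
    simp [p, Ideal.map_span]
  let _ : Fintype (p.primesOver B) := (IsDedekindDomain.primesOver_finite p B).fintype
  let w : p.primesOver B → HeightOneSpectrum B := fun q =>
    ⟨q.1, q.2.1, Ideal.ne_bot_of_mem_primesOver hp q.2⟩
  have inj : Function.Injective fun q => (toPlace (w q) : Place L K) := fun q q' h => by
    have := HeightOneSpectrum.eq_of_valuation_isEquiv_valuation (K := K) (p := w q) (q := w q')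
      (by rw [show (w q).valuation K = (w q').valuation K from congrArg Place.v h])
    exact Subtype.ext (congrArg HeightOneSpectrum.asIdeal this)
  refine ⟨Finset.univ.image fun q => toPlace (w q), fun P => ?_, ?_⟩
  · simp only [Finset.mem_image, Finset.mem_univ, true_and]
    rw [IsScalarTower.algebraMap_apply L[X] B K]
    constructor
    · rintro ⟨q, rfl⟩
      refine ((w q).valuation_lt_one_iff_mem _).2 ?_
      have := q.2.2
      exact (Ideal.mem_of_liesOver q.1 p X).1 (Ideal.mem_span_singleton_self _)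
    · intro h
      obtain ⟨v, rfl⟩ := exists_prime (B := B) P
        (by rw [IsScalarTower.algebraMap_apply L[X] B K]; exact h.le)
      have h1 := (v.valuation_lt_one_iff_mem _).1 h
      exact ⟨⟨v.asIdeal, v.isPrime, ⟨this.eq_of_le (Ideal.IsPrime.under _ _).ne_top
        ((Ideal.span_singleton_le_iff_mem _).2 h1)⟩⟩, rfl⟩
  · rw [Finset.sum_image fun q _ q' _ h => inj h,
      ← Ideal.sum_ramification_inertia_eq_finrank p B, Nat.cast_sum]
    refine Finset.sum_congr rfl fun q _ => ?_
    have := q.2.1
    have := q.2.2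
    have : q.1.IsMaximal := (w q).isMaximal
    have e : q.1.inertiaDeg L[X] = 1 := by
      rw [Ideal.inertiaDeg_eq_of_isMaximal p]
      let _ := Ideal.Quotient.field p
      let _ := Ideal.Quotient.field q.1
      refine Algebra.finrank_eq_one_iff_bijective_algebraMap.2 ⟨RingHom.injective _, fun y => ?_⟩
      obtain ⟨c, rfl⟩ := (res_bij (L := L) q.1).2 y
      exact ⟨algebraMap L _ c, (IsScalarTower.algebraMap_apply L _ _ c).symm⟩
    rw [e, mul_one, Ideal.IsDedekindDomain.ramificationIdx_eq_multiplicity p q.1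
      (by simpa [hm] using hX), hm, IsScalarTower.algebraMap_apply L[X] B K]
    change -log ((w q).valuation K _) = _
    rw [HeightOneSpectrum.valuation_of_algebraMap,
      HeightOneSpectrum.intValuation_eq_exp_neg_multiplicity _ hX, log_exp, neg_neg]

end

theorem exists_model [IsAlgClosed L] [CharZero L] {t : K} (ht : Transcendental L t)
    [FiniteDimensional L⟮t⟯ K] : Model L t := by
  let φ : L[X] →ₐ[L] L⟮t⟯ := aeval (IntermediateField.AdjoinSimple.gen L t)
  let _ : Algebra L[X] L⟮t⟯ := φ.toAlgebra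
  let _ : Algebra L[X] K := (aeval t : L[X] →ₐ[L] K).toAlgebra
  have hX : algebraMap L[X] K X = t := aeval_X t
  have : IsScalarTower L L[X] K := .of_algebraMap_eq fun c =>
    ((aeval t : L[X] →ₐ[L] K).commutes c).symm
  have : IsScalarTower L[X] L⟮t⟯ K := .of_algebraMap_eq fun p =>
    aeval_algebraMap_apply K (IntermediateField.AdjoinSimple.gen L t) p
  have : IsFractionRing L[X] L⟮t⟯ := IsLocalization.isLocalization_of_algEquiv L[X]⁰
    { (RatFunc.algEquivOfTranscendental t ht).toRingEquiv with
      commutes' := RatFunc.algEquivOfTranscendental_algebraMap t ht : RatFunc L ≃ₐ[L[X]] L⟮t⟯ }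
  have : CharZero L⟮t⟯ := charZero_of_injective_algebraMap (algebraMap L L⟮t⟯).injective
  have : Module.IsTorsionFree L[X] K := .trans_faithfulSMul L[X] L⟮t⟯ K
  let B := integralClosure L[X] K
  have : IsDedekindDomain B := integralClosure.isDedekindDomain L[X] L⟮t⟯ K
  have : IsFractionRing B K := integralClosure.isFractionRing_of_finite_extension L⟮t⟯ K
  have : Module.Finite L[X] B := IsIntegralClosure.finite L[X] L⟮t⟯ K B
  have : Module.Free L[X] B := IsIntegralClosure.module_free L[X] L⟮t⟯ K B
  have := IsIntegralClosure.isLocalization L[X] L⟮t⟯ K B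
  have rk := IsIntegralClosure.rank L[X] L⟮t⟯ K B
  have hr : ∀ x, Reg L t x ↔ ∃ b, algebraMap B K b = x := fun x => hX ▸ reg_iff x
  have hp : ∀ P : Place L K, P.v t ≤ 1 → ∃ w : HeightOneSpectrum B, P = toPlace w :=
    fun P h => exists_prime P (hX ▸ h)
  refine ⟨?_, fun P P' h h' ne => ?_, fun P h x hx => ?_, fun P h x hx => ?_,
    by simpa only [hX, rk] using fund_aux (L := L) (K := K) (B := B)⟩
  · let b := Module.finBasisOfFinrankEq L[X] B rk
    refine ⟨b.localizationLocalization L⟮t⟯ L[X]⁰ K, fun x => (hr x).trans ⟨?_, ?_⟩⟩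
    · rintro ⟨y, rfl⟩
      refine ⟨b.repr y, ?_⟩
      conv_lhs => rw [← b.sum_repr y]
      simp only [map_sum, Algebra.smul_def, map_mul, Module.Basis.localizationLocalization_apply]
      rfl
    · rintro ⟨p, rfl⟩
      refine ⟨∑ i, p i • b i, ?_⟩
      simp only [map_sum, Algebra.smul_def, map_mul, Module.Basis.localizationLocalization_apply]
      rfl
  · obtain ⟨w, rfl⟩ := hp P h
    obtain ⟨w', rfl⟩ := hp P' h'
    obtain ⟨y, h1, h2⟩ := SetLike.not_le_iff_exists.1 fun hle : w'.asIdeal ≤ w.asIdeal =>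
      ne (by rw [HeightOneSpectrum.ext (w'.isMaximal.eq_of_le w.isPrime.ne_top hle)])
    exact ⟨_, (hr _).2 ⟨y, rfl⟩, w.valuation_eq_one_iff_notMem.2 h2,
      (w'.valuation_lt_one_iff_mem _).2 h1⟩
  · obtain ⟨w, rfl⟩ := hp P h
    obtain ⟨n, d, e⟩ := w.exists_primeCompl_mul_eq_of_integer x hx
    exact ⟨_, _, (hr _).2 ⟨n, rfl⟩, (hr _).2 ⟨d, rfl⟩, w.valuation_eq_one_iff_notMem.2 d.2, e⟩
  · obtain ⟨w, rfl⟩ := hp P h
    obtain ⟨a, ha⟩ := w.exists_valuation_sub_lt_of_integer hx 1
    have := w.isMaximal
    obtain ⟨c, hc⟩ := (res_bij (L := L) w.asIdeal).2 (Ideal.Quotient.mk _ a)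
    have h2 := (w.valuation_lt_one_iff_mem (K := K) _).2
      (Ideal.Quotient.eq.1 (hc.symm : _ = Ideal.Quotient.mk _ (algebraMap L B c)))
    refine ⟨c, ?_⟩
    have e : x - algebraMap L K c =
        algebraMap B K (a - algebraMap L B c) - (algebraMap B K a - x) := by
      rw [map_sub, ← IsScalarTower.algebraMap_apply]; ring
    rw [e]
    exact (w.valuation K).map_sub_lt h2 ha

end Pool.Agent.P.MP_6f117a_ag
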