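import Pool.Agent.P.MP_6f117a_ag.Genus
import Pool.Agent.P.MP_6f117a_ag.Trace

/-! The degree of a canonical divisor is at most twice the genus. -/

namespace Pool.Agent.P.MP_6f117a_ag

open WithZero Polynomial Module
open scoped IntermediateField

universe u

variable {L K : Type u} [Field L] [Field K] [Algebra L K]

theorem finrank_fam {t : K} (ht : Transcendental L t) {n : ℕ} {g : Fin n → K}
    (hg : LinearIndependent L⟮t⟯ g) (k : ℕ) : finrank L (Submodule.span L
      (Set.range fun p : Fin k × Fin n => t ^ (p.1 : ℕ) * g p.2)) = k * n := by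
  have h1 : LinearIndependent L fun j : Fin k => pol L t (monomial j 1) := by
    simpa [Function.comp_def] using ((basisMonomials L).linearIndependent.map' (pol L t).toLinearMap
      (LinearMap.ker_eq_bot.2 (pol_inj ht))).comp (Fin.val : Fin k → ℕ) Fin.val_injective
  have := finrank_span_eq_card (linearIndependent_smul h1 hg)
  rwa [show (fun p : Fin k × Fin n => pol L t (monomial p.1 1) • g p.2) =
    fun p => t ^ (p.1 : ℕ) * g p.2 from funext fun p => by
      simp [IntermediateField.smul_def, coe_pol, aeval_monomial], Fintype.card_prod,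
    Fintype.card_fin, Fintype.card_fin] at this

theorem Place.exists_le (P : Place L K) (C : Submodule L K) [FiniteDimensional L C] :
    ∃ m : ℕ, C ≤ P.le m := by
  obtain ⟨s, rfl⟩ := (Module.Finite.iff_fg (N := C)).1 inferInstance
  obtain ⟨m, hm⟩ := Finite.exists_le fun x : s => (log (P.v x)).toNat
  refine ⟨m, Submodule.span_le.2 fun x hx => le_exp_of_log_le ?_⟩
  have := hm ⟨x, hx⟩
  simp only at this
  omega

/-- Functions regular wherever `t` is, as a subspace. -/
def regSub (L : Type u) [Field L] [Algebra L K] (t : K) : Submodule L K where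
  carrier := {x | Reg L t x}
  add_mem' := Reg.add
  zero_mem' := fun P _ => by simp
  smul_mem' c x h := by
    rw [Algebra.smul_def]; exact Reg.mul (fun P _ => P.triv c) h

theorem Reg.pow_mul {t x : K} (h : Reg L t x) (j : ℕ) : Reg L t (t ^ j * x) := by
  simpa using (Reg.aeval t (X ^ j)).mul h

variable [IsAlgClosed L] [CharZero L] [FF L K]

theorem riemann {t : K} (ht : Transcendental L t) {δ : Derivation L K K} (hδ : δ ≠ 0)
    (h0 : ∀ P : Place L K, P.v t ≤ 1 → P.κ δ ≤ 0) {g : Fin (finrank L⟮t⟯ K) → K}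
    (hg : LinearIndependent L⟮t⟯ g) (d : ℕ) (g1 : ∀ i, Reg L t (g i))
    (g2 : ∀ i (P : Place L K), 1 < P.v t → P.v (g i) ≤ P.v t ^ d)
    (C : Submodule L K) [FiniteDimensional L C] (hC : C ≤ regSub L t)
    (dis : Disjoint (Submodule.span L (Set.range fun p : ℕ × Fin _ => t ^ p.1 * g p.2)) C)
    (Z : Finset (Place L K)) (hZ : ∀ P, P.κ δ ≠ 0 → P ∈ Z) :
    (finrank L C : ℤ) + finrank L⟮t⟯ K + ∑ P ∈ Z, P.κ δ ≤ genus L K + d * finrank L⟮t⟯ K := by
  classical
  obtain ⟨Y, hY, eY⟩ := exists_poles ht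
  choose m hm using fun P : Place L K => P.exists_le C
  obtain ⟨M, hM⟩ := Finite.exists_le fun P : Y => max (m P) (P.1.κ δ).toNat
  have t0 : ∀ P : Place L K, P.v t ≠ 0 := fun P => by simpa using trans_ne ht
  have hM' : ∀ P : Place L K, 1 < P.v t → (m P : ℤ) ≤ (M + d) * log (P.v t) ∧
      P.κ δ ≤ (M + d) * log (P.v t) := fun P h => by
    have h1 := hM ⟨P, (hY P).2 h⟩
    have h2 : 0 < log (P.v t) := (lt_log_iff_exp_lt (t0 P)).2 h
    have h3 : (M : ℤ) ≤ (M + d) * log (P.v t) := by nlinarith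
    simp only at h1
    omega
  let A := Submodule.span L (Set.range fun p : Fin (M + 1) × Fin _ => t ^ (p.1 : ℕ) * g p.2)
  have : FiniteDimensional L A := FiniteDimensional.span_of_finite L (Set.finite_range _)
  have hA : finrank L (A ⊔ C : Submodule L K) = (M + 1) * finrank L⟮t⟯ K + finrank L C := by
    rw [← finrank_fam ht hg, ← Submodule.finrank_sup_add_finrank_inf_eq,
      (dis.mono_left (Submodule.span_mono (by rintro _ ⟨p, rfl⟩; exact ⟨(p.1, p.2), rfl⟩))).eq_bot,
      finrank_bot, add_zero]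
  have hB : A ⊔ C ≤ regSub L t :=
    sup_le (Submodule.span_le.2 (by rintro _ ⟨p, rfl⟩; exact (g1 _).pow_mul _)) hC
  obtain ⟨W, h1, h2, h3⟩ := step_many (Z ∪ Y) (fun P => P.κ δ)
    (fun P => if P ∈ Y then (M + d) * log (P.v t) else 0) (A ⊔ C)
    (fun P _ => by
      split_ifs with h
      · exact (hM' P ((hY P).1 h)).2
      · exact h0 P (not_lt.1 (mt (hY P).2 h)))
    fun P _ => by
      split_ifs with h
      · have h := (hY P).1 h
        refine sup_le (Submodule.span_le.2 ?_) fun x hx =>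
          le_trans (hm P hx) (exp_le_exp.2 (hM' P h).1)
        rintro _ ⟨p, rfl⟩
        change P.v _ ≤ _
        rw [map_mul, map_pow, ← Nat.cast_add, ← nsmul_eq_mul, exp_nsmul, exp_log (t0 P), pow_add]
        exact mul_le_mul' (pow_le_pow_right₀ h.le (Nat.lt_succ_iff.1 p.1.2)) (g2 _ P h)
      · exact fun x hx => hB hx P (not_lt.1 (mt (hY P).2 h))
  have := fd_can hδ
  have h4 : finrank L W ≤ finrank L (can δ) := Submodule.finrank_mono fun x hx =>
    mem_can.2 fun P => by
      by_cases e : P ∈ Z ∪ Y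
      · exact h2 P e hx
      · rw [Finset.mem_union, not_or] at e
        rw [not_not.1 (mt (hZ P) e.1)]
        exact hB (h1 hx) P (not_lt.1 (mt (hY P).2 e.2))
  rw [Finset.sum_sub_distrib, Finset.sum_ite_mem, Finset.inter_eq_right.2 Finset.subset_union_right,
    ← Finset.mul_sum, eY, ← Finset.sum_subset Finset.subset_union_left
      fun P _ h => not_not.1 (mt (hZ P) h), hA] at h3
  rw [genus_eq hδ]
  push_cast at h3
  linarith [Int.ofNat_le.2 h4]

theorem dual_bound {t : K} (ht : Transcendental L t) {D : Derivation L K K} (hD : D t = 1)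
    {n : ℕ} {g g' : Fin n → K} (hg : LinearIndependent L⟮t⟯ g') (d : ℕ)
    (tr : ∀ i j, Algebra.trace L⟮t⟯ K (g' i * g j) = if j = i then 1 else 0)
    (g2 : ∀ i (P : Place L K), 1 < P.v t → P.v (g' i) * P.v t ^ d ≤ 1)
    (C : Submodule L K) [FiniteDimensional L C]
    (hC : Submodule.span L (Set.range fun p : ℕ × Fin n => t ^ p.1 * g p.2) ⊔ C = regSub L t) :
    (d - 1) * n ≤ genus L K + finrank L C := by
  have D0 : D ≠ 0 := by rintro rfl; simp at hD
  obtain ⟨P₀, hP₀⟩ := exists_pole ht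
  obtain ⟨l, l1, l2⟩ := exists_lam P₀ hP₀
  let W := Submodule.span L (Set.range fun p : Fin (d - 1) × Fin n => t ^ (p.1 : ℕ) * g' p.2)
  have : FiniteDimensional L W := FiniteDimensional.span_of_finite L (Set.finite_range _)
  obtain ⟨β, hβ⟩ : ∃ β : K →ₗ[L] K →ₗ[L] L, ∀ x y, β x y = l (Algebra.trace L⟮t⟯ K (x * y)) :=
    ⟨(LinearMap.mul L K).compr₂ (l.comp ((Algebra.trace L⟮t⟯ K).restrictScalars L)),
      fun _ _ => rfl⟩
  have sm : ∀ (k : ℕ) (x : K), Algebra.trace L⟮t⟯ K (t ^ k * x) =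
      pol L t (X ^ k) * Algebra.trace L⟮t⟯ K x := fun k x => by
    rw [← smul_eq_mul (pol L t _), ← map_smul, IntermediateField.smul_def, coe_pol]; simp
  have z : ∀ x ∈ W, ∀ y ∈ Submodule.span L (Set.range fun p : ℕ × Fin n => t ^ p.1 * g p.2),
      β x y = 0 := fun x hx y hy => by
    refine (Submodule.span_le (p := LinearMap.ker (β x))).2 ?_ hy
    rintro _ ⟨p, rfl⟩
    refine (Submodule.span_le (p := LinearMap.ker (β.flip _))).2 ?_ hx
    rintro _ ⟨p', rfl⟩
    change β _ _ = 0
    rw [hβ, mul_mul_mul_comm, ← pow_add, sm, tr]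
    split_ifs
    · rw [mul_one, l1]
    · simp
  let Φ := β.domRestrict₁₂ W C
  have h1 := Φ.finrank_range_add_finrank_ker
  have h2 := (Submodule.finrank_le (LinearMap.range Φ)).trans_eq Subspace.dual_finrank_eq
  have := fd_can D0
  have h3 : finrank L ((LinearMap.ker Φ).map W.subtype) ≤ finrank L (can D) := by
    refine Submodule.finrank_mono ?_
    rintro _ ⟨⟨x, hx⟩, h0, rfl⟩
    refine mem_can.2 fun P => ?_
    change P.v x ≤ _
    have t0 : P.v t ≠ 0 := by simpa using trans_ne ht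
    rcases le_or_gt (P.v t) 1 with h | h
    · have z2 : ∀ y, Reg L t y → β x y = 0 := fun y hy => by
        obtain ⟨a, ha, c, hc, rfl⟩ := Submodule.mem_sup.1 (hC.ge hy)
        rw [map_add, z x hx a ha, zero_add]
        exact DFunLike.congr_fun (LinearMap.mem_ker.1 h0) ⟨c, hc⟩
      obtain ⟨a, ha⟩ := P.res h
      have s0 := trans_ne (trans_sub ht a)
      have := trace_lemma ht (h := x) (fun y hy => l2 _ fun k => by
        rw [← sm, mul_left_comm, ← hβ, z2 _ (hy.pow_mul k)]) P ha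
      have v0 : P.v (t - algebraMap L K a) ≠ 0 := by simpa using s0
      rw [P.κ_eq (by simpa using hD) s0 ha.ne, ← lt_mul_exp_iff_le exp_ne_zero, ← exp_add,
        sub_add_cancel, exp_neg, exp_log v0, ← one_div, lt_div_iff₀ (zero_lt_iff.2 v0), ← map_mul]
      exact this
    · refine (Submodule.span_le (p := P.le (P.κ D))).2 ?_ hx
      rintro _ ⟨p, rfl⟩
      change P.v _ ≤ _
      have h4 := g2 p.2 P h
      have h5 : 0 < log (P.v t) := (lt_log_iff_exp_lt t0).2 h
      have h6 := p.1.2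
      rw [← le_div_iff₀ (zero_lt_iff.2 (pow_ne_zero _ t0))] at h4
      rw [P.κ_eq hD (trans_ne ht) h.ne', map_mul, map_pow]
      refine (mul_le_mul_right h4 _).trans ?_
      rw [← exp_log t0, ← exp_nsmul, ← exp_nsmul, one_div, ← exp_neg, ← exp_add, log_exp,
        exp_le_exp, nsmul_eq_mul, nsmul_eq_mul]
      have h7 : ((p.1 : ℕ) : ℤ) + 2 ≤ d := by omega
      nlinarith
  rw [Submodule.finrank_map_subtype_eq] at h3
  rw [finrank_fam ht hg] at h1
  rw [genus_eq D0, ← h1, add_comm]
  exact add_le_add h3 h2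

theorem rr_core {t : K} (ht : Transcendental L t) (F : IntermediateField L K) (hF : L⟮t⟯ = F)
    {f f' : Fin (finrank F K) → K} (hf : LinearIndependent F f) (hf' : LinearIndependent F f')
    (tr : ∀ i j, Algebra.trace F K (f' i * f j) = if j = i then 1 else 0)
    (h : ∀ i (P : Place L K), 1 < P.v t → P.v (f i) ≤ 1 ∧ P.v (f' i) ≤ 1)
    {δ : Derivation L K K} (hδ : δ ≠ 0) (Z : Finset (Place L K)) (hZ : ∀ P, P.κ δ ≠ 0 → P ∈ Z) :
    ∑ P ∈ Z, P.κ δ ≤ 2 * genus L K := by
  classical
  subst hF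
  obtain ⟨D, hD, -⟩ := exists_dt ht
  have D0 : D ≠ 0 := by rintro rfl; simp at hD
  obtain ⟨r, r0, hr⟩ := (model ht).exists_der_den ht D hD
  have D1 : r • D ≠ 0 := smul_ne_zero r0 D0
  have h0 : ∀ P : Place L K, P.v t ≤ 1 → P.κ (r • D) ≤ 0 := fun P hP =>
    (log_le_iff_le_exp (by simpa using P.der_π_ne D1)).2
      ((model ht).v_der_le hr P hP _ P.v_π_le)
  obtain ⟨q, hq, h1⟩ := (model ht).exists_den' ht f
  have q0 := aeval_ne ht hq.ne_zero
  let u : L⟮t⟯ˣ := Units.mk0 (pol L t q) fun e => q0 (by rw [← coe_pol, e]; rfl)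
  have hg : LinearIndependent L⟮t⟯ fun i => aeval t q * f i := by
    simpa [u, Units.smul_def, IntermediateField.smul_def, coe_pol, Pi.smul_def'] using
      hf.units_smul fun _ => u
  have hg' : LinearIndependent L⟮t⟯ fun i => (aeval t q)⁻¹ * f' i := by
    simpa [u, Units.smul_def, IntermediateField.smul_def, coe_pol, Pi.smul_def'] using
      hf'.units_smul fun _ => u⁻¹
  obtain ⟨C, c1, c2⟩ := IsModularLattice.exists_disjoint_and_sup_eq (a := Submodule.span L
    (Set.range fun p : ℕ × Fin _ => t ^ p.1 * (aeval t q * f p.2))) (b := regSub L t)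
    (Submodule.span_le.2 (by rintro _ ⟨p, rfl⟩; exact (h1 _).pow_mul _))
  obtain ⟨g, g0, rfl⟩ := exists_smul D1 hδ
  let Y := Z ∪ (finite_κ' D1).toFinset ∪ (finite_supp (L := L) g0).toFinset
  have R := fun (C' : Submodule L K) (_ : FiniteDimensional L C') (hC : C' ≤ C) =>
    riemann ht D1 h0 hg q.natDegree h1 (fun i P hP => by
      rw [map_mul, P.v_aeval_pole hP hq.ne_zero]; exact mul_le_of_le_one_right' (h i P hP).1)
      C' (hC.trans (le_sup_right.trans c2.le)) (c1.mono_right hC) Y (by simp +contextual [Y])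
  have : FiniteDimensional L C := fd_of_bound C
    (genus L K + q.natDegree * finrank L⟮t⟯ K - ∑ P ∈ Y, P.κ (r • D) : ℤ).toNat fun V hV i => by
      have := R V i hV
      rw [← Int.ofNat_le]
      refine le_trans ?_ (Int.self_le_toNat _)
      linarith [Int.natCast_nonneg (finrank L⟮t⟯ K)]
  have R1 := R C this le_rfl
  have R2 := dual_bound ht hD (g := fun i => aeval t q * f i) hg' q.natDegree (fun i j => by
    rw [mul_mul_mul_comm, inv_mul_cancel₀ q0, one_mul, tr]) (fun i P hP => by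
      rw [map_mul, map_inv₀, P.v_aeval_pole hP hq.ne_zero, mul_right_comm,
        inv_mul_cancel₀ (pow_ne_zero _ (zero_lt_one.trans hP).ne'), one_mul]
      exact (h i P hP).2) C c2
  rw [Finset.sum_subset (s₂ := Y) (fun P h => by simp [Y, h]) fun P _ h => not_not.1 (mt (hZ P) h)]
  simp only [κ_smul D1 g0]
  rw [Finset.sum_add_distrib, prod_formula g0 Y (by simp +contextual [Y]), zero_add]
  rw [Nat.sub_mul, one_mul, tsub_le_iff_right, ← Int.ofNat_le] at R2
  push_cast at R2
  linarith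

theorem deg_can_le {δ : Derivation L K K} (hδ : δ ≠ 0) (Z : Finset (Place L K))
    (hZ : ∀ P, P.κ δ ≠ 0 → P ∈ Z) : ∑ P ∈ Z, P.κ δ ≤ 2 * genus L K := by
  classical
  obtain ⟨ρ, hρ, -⟩ := exists_trans hδ
  have := FF.fin ρ hρ
  have : CharZero L⟮ρ⟯ := charZero_of_injective_algebraMap (algebraMap L L⟮ρ⟯).injective
  let f := finBasis L⟮ρ⟯ K
  let f' := (Algebra.traceForm L⟮ρ⟯ K).dualBasis (traceForm_nondegenerate L⟮ρ⟯ K) f
  have fin : {a : L | ∃ i, ∃ P : Place L K, (P.v (f i) ≠ 1 ∨ P.v (f' i) ≠ 1) ∧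
      P.v (ρ - algebraMap L K a) < 1}.Finite := by
    refine (Set.finite_iUnion fun i => ((finite_supp (L := L) (f.ne_zero i)).union
      (finite_supp (L := L) (f'.ne_zero i))).biUnion
        (t := fun P => {a : L | P.v (ρ - algebraMap L K a) < 1}) fun P _ =>
        Set.Subsingleton.finite fun a ha b hb => by_contra fun h => ?_).subset ?_
    · have := P.v.map_sub_lt hb ha
      rw [sub_sub_sub_cancel_left, ← map_sub, P.v_const (sub_ne_zero.2 h)] at this
      exact this.false
    · rintro a ⟨i, P, h1, h2⟩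
      simp only [Set.mem_iUnion]
      exact ⟨i, P, h1, h2⟩
  obtain ⟨a, ha⟩ := fin.exists_notMem
  refine rr_core (trans_inv (trans_sub hρ a)) L⟮ρ⟯ (by rw [adjoin_inv, adjoin_sub])
    f.linearIndependent f'.linearIndependent
    (fun i j => LinearMap.BilinForm.apply_dualBasis_left (traceForm_nondegenerate L⟮ρ⟯ K) f i j) (fun i P hP => ?_) hδ Z hZ
  rw [map_inv₀, one_lt_inv₀ (zero_lt_iff.2 (by simpa using trans_ne (trans_sub hρ a)))] at hP
  have : ¬(P.v (f i) ≠ 1 ∨ P.v (f' i) ≠ 1) := fun h => ha ⟨i, P, h, hP⟩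
  push Not at this
  exact ⟨this.1.le, this.2.le⟩

end Pool.Agent.P.MP_6f117a_ag
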