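import Pool.Agent.P.MP_6f117a_ag.SIface

/-! Step BND1 of the proof for surfaces in projective three-space. -/

namespace Pool.Agent.P.MP_6f117a_ag.Surf

open MvPolynomial Module
open Ideal (span)
open scoped Polynomial WithZero

universe u

namespace Bnd1Aux

variable {L : Type u} [Field L] {K : Type u} [Field K] [Algebra L K]

theorem card_le_cod (x : Fin 4 → K) (I : Ideal (S L)) (hI : ∀ G ∈ I, aeval x G = 0) (n : ℕ)
    {κ : Type} [Fintype κ] (A : κ → S L) (hA : ∀ k, (A k).IsHomogeneous n)
    (hli : LinearIndependent L fun k => aeval x (A k)) :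
    (Fintype.card κ : ℤ) ≤ cod (frm L) I n := by
  let φ : frm L n →ₗ[L] K := (aeval x : S L →ₐ[L] K).toLinearMap.comp (frm L n).subtype
  have h1 := φ.finrank_range_add_finrank_ker
  have h2 : hf (frm L) ⊤ n = finrank L (frm L n) := by
    unfold hf
    rw [Submodule.restrictScalars_top, top_inf_eq]
  have h3 : hf (frm L) I n ≤ finrank L (LinearMap.ker φ) := by
    unfold hf
    rw [← (Submodule.comapSubtypeEquivOfLe
      (inf_le_right : I.restrictScalars L ⊓ frm L n ≤ frm L n)).finrank_eq]
    exact Submodule.finrank_mono fun G hG => hI G hG.1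
  have h4 : Fintype.card κ ≤ finrank L (LinearMap.range φ) := by
    let v : κ → LinearMap.range φ := fun k => ⟨aeval x (A k), ⟨A k, hA k⟩, rfl⟩
    have : LinearIndependent L v :=
      LinearIndependent.of_comp (LinearMap.range φ).subtype hli
    exact this.fintype_card_le_finrank
  unfold cod
  omega

theorem frac (x : Fin 4 → K) (k : K) (hk : k ∈ ratios L x) :
    ∃ (n : ℕ) (A B : S L), A.IsHomogeneous n ∧ B.IsHomogeneous n ∧
      aeval x B ≠ 0 ∧ k * aeval x B = aeval x A := by
  unfold ratios at hk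
  induction hk using IntermediateField.adjoin_induction with
  | mem k hk =>
    obtain ⟨i, j, rfl⟩ := hk
    by_cases h : x j = 0
    · exact ⟨0, 0, 1, isHomogeneous_zero _ _ _, isHomogeneous_one _ _, by simp, by simp [h]⟩
    · exact ⟨1, X i, X j, isHomogeneous_X L i, isHomogeneous_X L j, by simpa using h,
        by simp [h]⟩
  | algebraMap c =>
    exact ⟨0, C c, 1, isHomogeneous_C _ _, isHomogeneous_one _ _, by simp, by simp⟩
  | add a b _ _ ha hb =>
    obtain ⟨n, A, B, h1, h2, h3, h4⟩ := ha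
    obtain ⟨m, A', B', h5, h6, h7, h8⟩ := hb
    refine ⟨n + m, A * B' + B * A', B * B', (h1.mul h6).add (h2.mul h5), h2.mul h6,
      by rw [map_mul]; exact mul_ne_zero h3 h7, ?_⟩
    rw [map_add, map_mul, map_mul, map_mul, ← h4, ← h8]
    ring
  | inv a _ ha =>
    obtain ⟨n, A, B, h1, h2, h3, h4⟩ := ha
    by_cases h0 : a = 0
    · exact ⟨0, 0, 1, isHomogeneous_zero _ _ _, isHomogeneous_one _ _, by simp, by simp [h0]⟩
    · refine ⟨n, B, A, h2, h1, by rw [← h4]; exact mul_ne_zero h0 h3, ?_⟩
      rw [← h4, ← mul_assoc, inv_mul_cancel₀ h0, one_mul]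
  | mul a b _ _ ha hb =>
    obtain ⟨n, A, B, h1, h2, h3, h4⟩ := ha
    obtain ⟨m, A', B', h5, h6, h7, h8⟩ := hb
    refine ⟨n + m, A * A', B * B', h1.mul h5, h2.mul h6,
      by rw [map_mul]; exact mul_ne_zero h3 h7, ?_⟩
    rw [map_mul, map_mul, ← h4, ← h8]
    ring

theorem common (x : Fin 4 → K) {κ : Type} (e : κ → K) (he : ∀ k, e k ∈ ratios L x)
    (s : Finset κ) : ∃ (n : ℕ) (B : S L), B.IsHomogeneous n ∧ aeval x B ≠ 0 ∧
      ∀ k ∈ s, ∃ A : S L, A.IsHomogeneous n ∧ e k * aeval x B = aeval x A := by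
  classical
  induction s using Finset.induction_on with
  | empty => exact ⟨0, 1, isHomogeneous_one _ _, by simp, by simp⟩
  | insert i s _ ih =>
    obtain ⟨n, B, h1, h2, h3⟩ := ih
    obtain ⟨m, A', B', h5, h6, h7, h8⟩ := frac x (e i) (he i)
    refine ⟨n + m, B * B', h1.mul h6, by rw [map_mul]; exact mul_ne_zero h2 h7, fun k hk => ?_⟩
    rcases Finset.mem_insert.mp hk with rfl | hk
    · exact ⟨B * A', h1.mul h5, by rw [map_mul, map_mul, ← h8]; ring⟩
    · obtain ⟨A, h9, h10⟩ := h3 k hk
      exact ⟨A * B', h9.mul h6, by rw [map_mul, map_mul, ← h10]; ring⟩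

theorem pow_indep {M : Type u} [Field M] [Algebra L M] (t : M) (ht : Transcendental L t) (n : ℕ) :
    LinearIndependent L fun a : Fin (n + 1) => t ^ (a : ℕ) := by
  have h1 : LinearIndependent L fun a : ℕ => t ^ a := by
    have h2 := (Polynomial.basisMonomials L).linearIndependent.map'
      (Polynomial.aeval t : L[X] →ₐ[L] M).toLinearMap
      (LinearMap.ker_eq_bot.mpr (transcendental_iff_injective.mp ht))
    have h3 : (fun a : ℕ => t ^ a) =
        (Polynomial.aeval t : L[X] →ₐ[L] M).toLinearMap ∘ Polynomial.basisMonomials L := by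
      funext a
      simp
    rw [h3]; exact h2
  exact h1.comp _ Fin.val_injective

theorem rank_le (x : Fin 4 → K) (I : Ideal (S L)) (hI : ∀ G ∈ I, aeval x G = 0) (e : ℕ)
    (hd : HasDeg I e) (i j : Fin 4) (hi : x i ≠ 0) (ht : Transcendental L (x j / x i))
    {D : ℕ} (v : Fin D → K) (hv : ∀ k, v k ∈ ratios L x)
    (hli : LinearIndependent (IntermediateField.adjoin L {x j / x i}) v) : D ≤ e := by
  obtain ⟨c, n₁, hc⟩ := hd
  obtain ⟨n₀, B, -, hB, hA⟩ := common x v hv Finset.univ
  choose A hA1 hA2 using fun k => hA k (Finset.mem_univ k)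
  have key : ∀ n : ℕ, (((n + 1) * D : ℕ) : ℤ) ≤ cod (frm L) I (n + n₀) := by
    intro n
    have h1 := card_le_cod x I hI (n + n₀) (κ := Fin (n + 1) × Fin D)
      (fun p => X i ^ (n - p.1) * X j ^ (p.1 : ℕ) * A p.2) (fun p => by
        have := (((isHomogeneous_X L i).pow (n - p.1)).mul
          ((isHomogeneous_X L j).pow (p.1 : ℕ))).mul (hA1 p.2)
        have h : 1 * (n - p.1) + 1 * p.1 = n := by have := p.1.2; omega
        rwa [h] at this) (by
        let t := IntermediateField.AdjoinSimple.gen L (x j / x i)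
        have ht' : Transcendental L t := fun h =>
          ht (h.algebraMap (A := K))
        have h2 := linearIndependent_smul (pow_indep t ht' n) hli
        have h3 := h2.map' (LinearMap.mulLeft L (x i ^ n * aeval x B))
          (LinearMap.ker_eq_bot.mpr
            (mul_right_injective₀ (mul_ne_zero (pow_ne_zero _ hi) hB)))
        have h4 : (fun p : Fin (n + 1) × Fin D =>
            aeval x (X i ^ (n - p.1) * X j ^ (p.1 : ℕ) * A p.2 : S L)) =
            LinearMap.mulLeft L (x i ^ n * aeval x B) ∘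
              fun p : Fin (n + 1) × Fin D => t ^ (p.1 : ℕ) • v p.2 := by
          funext p
          have h5 : x i ^ n = x i ^ (n - p.1) * x i ^ (p.1 : ℕ) := by
            rw [← pow_add]; congr 1; have := p.1.2; omega
          have h6 : t ^ (p.1 : ℕ) • v p.2 = (x j / x i) ^ (p.1 : ℕ) * v p.2 := by
            rw [Algebra.smul_def, map_pow]; rfl
          simp only [Function.comp_apply, LinearMap.mulLeft_apply, map_mul, map_pow, aeval_X]
          rw [h6, ← hA2, h5, div_pow]
          field_simp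
        rw [h4]; exact h3)
    simpa using h1
  by_contra hlt
  push Not at hlt
  have h1 := key (n₁ + e * n₀ + c.natAbs)
  rw [hc _ (by omega)] at h1
  have h2 : c ≤ (c.natAbs : ℤ) := Int.le_natAbs
  have h3 : (e : ℤ) + 1 ≤ D := by exact_mod_cast hlt
  push_cast at h1
  rw [Int.natCast_natAbs] at h2
  have h4 : (0 : ℤ) ≤ |c| := abs_nonneg c
  have h5 : (0 : ℤ) ≤ (n₁ : ℤ) + e * n₀ + |c| + 1 := by positivity
  have h6 := mul_le_mul_of_nonneg_left h3 h5
  have h7 : (0 : ℤ) ≤ n₁ := by positivity
  have h8 : (0 : ℤ) ≤ e := by positivity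
  nlinarith

end Bnd1Aux

open Bnd1Aux in
theorem pBND1 (L : Type u) [Field L] [IsAlgClosed L] [CharZero L]
    (hSIG1 : S_SIG1 L) (hHFA : S_HFA L) (hDEG : S_DEG L) :
    S_BND1 L := by
  intro d F hF N
  refine ⟨4 * (N * d), fun K _ _ _ x hx hxF hon => ?_⟩
  obtain ⟨s, hs, G, hG, hFG, hxG⟩ := hon
  obtain ⟨i, hi⟩ := Function.ne_iff.mp hx
  have hdeg := (hHFA d F hF).form s G hG hFG
  have hI : ∀ H ∈ (span {G} ⊔ span {F} : Ideal (S L)), aeval x H = 0 := by
    intro H hH
    obtain ⟨a, ha, b, hb, rfl⟩ := Submodule.mem_sup.mp hH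
    obtain ⟨a, rfl⟩ := Ideal.mem_span_singleton'.mp ha
    obtain ⟨b, rfl⟩ := Ideal.mem_span_singleton'.mp hb
    rw [map_add, map_mul, map_mul, hxG, hxF, mul_zero, mul_zero, add_zero]
  have := (hDEG K x hx).le_sum i (N * d * finrank (ratios L x) K) hi fun j ht => by
    have hfin := FF.fin (L := L) _ ht
    have hle : IntermediateField.adjoin L {x j / x i} ≤ ratios L x :=
      IntermediateField.adjoin.mono _ _ _ (Set.singleton_subset_iff.mpr ⟨j, i, rfl⟩)
    let E := IntermediateField.extendScalars hle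
    have h1 := Module.finrank_mul_finrank (IntermediateField.adjoin L {x j / x i}) E K
    have h2 : finrank E K = finrank (ratios L x) K := rfl
    let b := Module.finBasis (IntermediateField.adjoin L {x j / x i}) E
    have h3 := rank_le x _ hI (s * d) (by exact_mod_cast hdeg) i j hi ht
      (fun k => (b k : K)) (fun k => (b k).2)
      (b.linearIndependent.map' E.val.toLinearMap
        (LinearMap.ker_eq_bot.mpr Subtype.val_injective))
    rw [← h1, h2]
    exact Nat.mul_le_mul_right _ (h3.trans (Nat.mul_le_mul_right _ hs))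
  push_cast at this ⊢
  linarith

end Pool.Agent.P.MP_6f117a_ag.Surf
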