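import Pool.Agent.P.MP_6f117a_ag.SIface

/-! Step COND of the proof for surfaces in projective three-space. -/

namespace Pool.Agent.P.MP_6f117a_ag.Surf

open MvPolynomial Module
open Ideal (span)
open scoped Polynomial WithZero

universe u

theorem dir_cond {L : Type u} [Field L] [CharZero L] (hCOND0 : S_COND0.{u}) (hDIRE : S_DIRE L)
    {m d : ℕ} {F : MvPolynomial (Fin (m + 1)) L} (hF : F.IsHomogeneous d) (hF0 : F ≠ 0)
    {K : Type u} [Field K] (φ : MvPolynomial (Fin (m + 1)) L →+* K) (hφ : ∀ G, φ G = 0 ↔ F ∣ G)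
    {a b : MvPolynomial (Fin (m + 1)) L} (hb : φ b ≠ 0) (hi : IsIntegral φ.range (φ a / φ b))
    {o : Fin (m + 1) → L} (ho : eval o F ≠ 0) :
    (∑ i, C (o i) * pderiv i F) * a ∈ span {F, b} := by
  have ho0 : o ≠ 0 := by
    rintro rfl
    have h1 : coeff 0 F ≠ 0 := by simpa [constantCoeff_eq] using ho
    have h2 : d = 0 := by simpa using (hF h1).symm
    have h3 : F = C (coeff 0 F) := totalDegree_eq_zero_iff_eq_C.1 (by rw [hF.totalDegree hF0, h2])
    have h4 : F ∣ 1 := by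
      rw [h3]
      exact isUnit_iff_dvd_one.1 ((isUnit_iff_ne_zero.2 h1).map C)
    exact one_ne_zero ((map_one φ).symm.trans ((hφ 1).2 h4))
  obtain ⟨e, e1, e2, e3⟩ := hDIRE m o ho0
  set c := eval o F with hc
  set u : MvPolynomial (Fin (m + 1)) L := C c⁻¹ with hu
  have huc : u * C c = 1 := by rw [hu, ← C_mul, inv_mul_cancel₀ ho, C_1]
  have heu : e u = Polynomial.C (C c⁻¹) := e.commutes c⁻¹
  have hm : (e (u * F)).Monic := by
    rw [map_mul, heu]
    refine Polynomial.monic_of_natDegree_le_of_coeff_eq_one d ?_ ?_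
    · refine (Polynomial.natDegree_C_mul_le _ _).trans ?_
      rw [Polynomial.natDegree_le_iff_coeff_eq_zero]
      intro N hN
      by_contra h
      exact absurd ((((e2 d F).1 hF) N).1 h) (by omega)
    · rw [Polynomial.coeff_C_mul, e3 d F hF, ← C_mul, inv_mul_cancel₀ ho, C_1]
  set ψ : (MvPolynomial (Fin m) L)[X] →+* K := φ.comp (e.symm : _ →+* _) with hψ
  have hψe : ∀ x, ψ (e x) = φ x := fun x => by simp [hψ]
  have hr : ψ.range = φ.range := by
    ext z
    constructor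
    · rintro ⟨x, rfl⟩; exact ⟨e.symm x, rfl⟩
    · rintro ⟨x, rfl⟩; exact ⟨e x, hψe x⟩
  have h1 := hCOND0 (MvPolynomial (Fin m) L) (e (u * F)) hm K ψ (fun G => by
    obtain ⟨G, rfl⟩ := e.surjective G
    rw [hψe, hφ, map_dvd_iff]
    exact ((IsUnit.of_mul_eq_one _ huc).mul_left_dvd).symm) (e a) (e b) (by rwa [hψe])
    (by rw [hψe, hψe, hr]; exact hi)
  rw [map_mul, heu, Polynomial.derivative_C_mul, e1, ← heu, ← map_mul, ← map_mul,
    ← map_mul, Ideal.mem_span_pair] at h1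
  obtain ⟨p, q, h2⟩ := h1
  obtain ⟨p, rfl⟩ := e.surjective p
  obtain ⟨q, rfl⟩ := e.surjective q
  rw [← map_mul, ← map_mul, ← map_add, e.injective.eq_iff] at h2
  refine Ideal.mem_span_pair.2 ⟨p, C c * q, ?_⟩
  linear_combination C c * h2 + ((∑ i, C (o i) * pderiv i F) * a - p * F) * huc

theorem pCOND (L : Type u) [Field L] [IsAlgClosed L] [CharZero L]
    (hCOND0 : S_COND0.{u}) (hDIRE : S_DIRE L) (hDIR2 : S_DIR2 L) :
    S_COND L := by
  classical
  intro n d F hF hF0 K _ φ hφ a b hb hi i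
  obtain _ | m := n
  · exact i.elim0
  by_contra hc
  obtain ⟨f, h1, h2⟩ := Submodule.exists_le_ker_of_notMem
    (p := (span {F, b} : Ideal _).restrictScalars L) (v := pderiv i F * a) hc
  obtain ⟨o, h3, h4⟩ := hDIR2.1 (m + 1) F {fun j => f (pderiv j F * a)} hF0 (by
    intro w hw
    rw [Finset.mem_singleton.1 hw]
    exact fun h => h1 (congrFun h i))
  apply h4 _ (Finset.mem_singleton_self _)
  have h5 : f _ = 0 := h2 (dir_cond hCOND0 hDIRE hF hF0 φ hφ hb hi h3)
  rw [← h5, Finset.sum_mul, map_sum, dotProduct]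
  refine Finset.sum_congr rfl fun j _ => ?_
  rw [mul_assoc, ← smul_eq_C_mul, map_smul, smul_eq_mul, mul_comm]

end Pool.Agent.P.MP_6f117a_ag.Surf
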