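import Pool.Agent.P.MP_6f117a_ag.SIface

/-! Step CONE of the proof for surfaces in projective three-space. -/

namespace Pool.Agent.P.MP_6f117a_ag.Surf

open MvPolynomial Module
open Ideal (span)
open scoped Polynomial WithZero

universe u

namespace ConeAux

variable {L : Type u} [Field L]

theorem two_choose (n : ℕ) : 2 * (((n + 2).choose 2 : ℕ) : ℤ) = (n + 2) * (n + 1) := by
  induction n with
  | zero => simp
  | succ n ih =>
    rw [show n + 1 + 2 = (n + 2) + 1 by ring, Nat.choose_succ_succ' (n + 2) 1, Nat.choose_one_right]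
    push_cast
    linear_combination ih

theorem top_ne {g : S L} (hg : g ≠ 0) : homogeneousComponent g.totalDegree g ≠ 0 := by
  obtain ⟨m, hm, e⟩ := Finset.exists_mem_eq_sup g.support (support_nonempty.2 hg)
    fun s : Fin 4 →₀ ℕ => s.sum fun _ e => e
  intro h
  have := congrArg (coeff m) h
  rw [coeff_homogeneousComponent, if_pos, coeff_zero] at this
  · exact mem_support_iff.1 hm this
  · rw [totalDegree, e]
    rfl

theorem key (W : Submodule L (S L)) (I : Ideal (S L)) (n : ℕ) :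
    (finrank L (W ⊓ frm L n : Submodule L (S L)) : ℤ) ≤ cod (frm L) I n +
      finrank L ((W ⊓ frm L n) ⊓ (I.restrictScalars L ⊓ frm L n) : Submodule L (S L)) := by
  have : FiniteDimensional L (W ⊓ frm L n : Submodule L (S L)) :=
    Submodule.finiteDimensional_of_le inf_le_right
  have h1 := Submodule.finrank_sup_add_finrank_inf_eq (W ⊓ frm L n)
    (I.restrictScalars L ⊓ frm L n)
  have h2 : finrank L ((W ⊓ frm L n) ⊔ (I.restrictScalars L ⊓ frm L n) : Submodule L (S L)) ≤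
      hf (frm L) ⊤ n :=
    Submodule.finrank_mono (sup_le (le_inf (fun _ _ => Submodule.mem_top) inf_le_right)
      (le_inf (fun _ _ => Submodule.mem_top) inf_le_right))
  rw [cod, hf, hf]
  rw [hf] at h2
  omega

end ConeAux

open ConeAux in
theorem pCONE (L : Type u) [Field L] [IsAlgClosed L] [CharZero L]
    (hDIR2 : S_DIR2 L) (hCONE0 : S_CONE0 L) :
    S_CONE L := by
  classical
  intro o I e ho hI hH hD
  obtain ⟨c1, -, c3, c4⟩ := hCONE0 o
  obtain ⟨c, n₀, hc⟩ := hD
  set W : Submodule L (S L) := LinearMap.ker (dd o : S L →ₗ[L] S L) with hW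
  have hk : ∀ m, n₀ ≤ m → ((m : ℤ) + 2) * (m + 1) ≤ 2 * (e * m + c) + 2 *
      finrank L ((W ⊓ frm L m) ⊓ (I.restrictScalars L ⊓ frm L m) : Submodule L (S L)) :=
    fun m hm => by
      have := key W I m
      rw [c4 ho m, hc m hm] at this
      have h2 := two_choose m
      omega
  have hex : ∃ n, ∃ b : S L, b ≠ 0 ∧ b.IsHomogeneous n ∧ dd o b = 0 ∧ b ∈ I := by
    let m := n₀ + 2 * e.natAbs + 2 * c.natAbs
    have h1 := hk m (by omega)
    have h2 : (W ⊓ frm L m) ⊓ (I.restrictScalars L ⊓ frm L m) ≠ ⊥ := by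
      intro h
      rw [h, finrank_bot] at h1
      have h3 : 2 * e ≤ m := by omega
      have h4 : 2 * c ≤ m := by omega
      have h5 : (0 : ℤ) ≤ m := by omega
      push_cast at h1
      nlinarith
    obtain ⟨b, hb, hb0⟩ := Submodule.exists_mem_ne_zero_of_ne_bot h2
    exact ⟨m, b, hb0, hb.1.2, hb.1.1, hb.2.1⟩
  obtain ⟨b, hb0, hbh, hbd, hbI⟩ := Nat.find_spec hex
  set n := Nat.find hex with hn
  have hmin : ∀ g : S L, g ≠ 0 → dd o g = 0 → g ∈ I → n ≤ g.totalDegree := fun g h0 h1 h2 =>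
    Nat.find_min' hex ⟨_, top_ne h0, homogeneousComponent_isHomogeneous _ _, c3 g _ h1,
      homogeneousComponent_mem_of_mem hI h2 _⟩
  have hdvd : ∀ b' ∈ I, dd o b' = 0 → b ∣ b' := by
    intro b' h1 h2
    rcases eq_or_ne b' 0 with rfl | h0
    · exact dvd_zero _
    obtain ⟨a₁, a₂, g, hr, e1, e2⟩ := UniqueFactorizationMonoid.exists_reduced_factors b hb0 b'
    have e1' : a₁ * g = b := by rw [mul_comm, e1]
    have e2' : a₂ * g = b' := by rw [mul_comm, e2]
    have hg : g ∈ I := hH a₁ a₂ g (c1 a₁ g (e1' ▸ hb0) (e1' ▸ hbd)) (c1 a₂ g (e2' ▸ h0) (e2' ▸ h2))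
      hr (e1' ▸ hbI) (e2' ▸ h1)
    have hne := mul_ne_zero_iff.1 (e1 ▸ hb0 : g * a₁ ≠ 0)
    have h3 := hmin g hne.1 (c1 g a₁ (e1 ▸ hb0) (e1 ▸ hbd)) hg
    have h4 := hbh.totalDegree hb0
    rw [← e1, totalDegree_mul_of_isDomain hne.1 hne.2] at h4
    have h5 := totalDegree_eq_zero_iff_eq_C.1 (show a₁.totalDegree = 0 by omega)
    have h6 : IsUnit a₁ := by
      rw [h5]
      refine IsUnit.map C (Ne.isUnit fun h => hne.2 ?_)
      rw [h5, h, map_zero]
    rw [← e1, ← e2, h6.mul_right_dvd]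
    exact dvd_mul_right _ _
  refine ⟨n, b, hb0, hbh, ?_, hbd, hbI, hdvd⟩
  by_contra hlt
  let k := n₀ + e.natAbs * n + c.natAbs + 1
  have h1 := hk (n + k) (by omega)
  have : FiniteDimensional L (W ⊓ frm L k : Submodule L (S L)) :=
    Submodule.finiteDimensional_of_le inf_le_right
  have h2 : (W ⊓ frm L (n + k)) ⊓ (I.restrictScalars L ⊓ frm L (n + k)) ≤
      (W ⊓ frm L k).map (LinearMap.mulLeft L b) := by
    intro x hx
    rcases eq_or_ne x 0 with rfl | h0
    · exact Submodule.zero_mem _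
    obtain ⟨y, -, hy, e1⟩ := exists_comp (𝒜 := frm L) (I := ⊤) (J := ⊥)
      (Ideal.IsHomogeneous.top _) (Ideal.IsHomogeneous.bot _) (g := b) (x := x) (i := k) (j := n)
      hbh hx.1.2 (by
        rw [Ideal.mul_top, sup_bot_eq]
        exact Ideal.mem_span_singleton.2 (hdvd x hx.2.1 hx.1.1))
    have e2 : y * b = x := by rw [mul_comm]; exact (sub_eq_zero.1 (Ideal.mem_bot.1 e1)).symm
    exact ⟨y, ⟨c1 y b (e2 ▸ h0) (e2 ▸ hx.1.1), hy⟩, by rw [← e2, mul_comm]; rfl⟩
  have h3 := (Submodule.finrank_mono h2).trans (Submodule.finrank_map_le _ _)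
  rw [c4 ho k] at h3
  have h4 := two_choose k
  have h5 : e * n ≤ e.natAbs * n := mul_le_mul_of_nonneg_right (by omega) (by omega)
  have h6 : (k : ℤ) = n₀ + e.natAbs * n + c.natAbs + 1 := by simp [k]
  have h7 : c ≤ c.natAbs := by omega
  have h8 : (e + 1) * k ≤ n * k := mul_le_mul_of_nonneg_right (by omega) (by omega)
  have h9 : (0 : ℤ) ≤ n := by omega
  have h10 : (0 : ℤ) ≤ n₀ := by omega
  zify at h3
  push_cast at h1
  nlinarith

end Pool.Agent.P.MP_6f117a_ag.Surf
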