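import Pool.Agent.P.MP_6f117a_ag.SIface

/-! Step CONE0 of the proof for surfaces in projective three-space. -/

namespace Pool.Agent.P.MP_6f117a_ag.Surf

open MvPolynomial Module
open Ideal (span)
open scoped Polynomial WithZero

universe u

namespace Cone0

variable {L : Type u} [Field L]

theorem rank3 (n : ℕ) : finrank L (homogeneousSubmodule (Fin 3) L n) = (n + 2).choose 2 := by
  classical
  have e : {d : Fin 3 →₀ ℕ | d.degree = n} = ↑((Finset.univ : Finset (Fin 3)).finsuppAntidiag n) := by
    ext d
    simp [Finsupp.degree_eq_sum]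
  rw [homogeneousSubmodule_eq_finsupp_supported, e]
  refine (AddMonoidAlgebra.supportedEquivFinsupp _).finrank_eq.trans ?_
  rw [finrank_finsupp_self]
  simp only [Finset.coe_sort_coe, Fintype.card_coe]
  rw [Finset.card_finsuppAntidiag_nat_eq_choose, Finset.card_univ, Fintype.card_fin,
    show 3 + n - 1 = n + 2 by omega]
  exact Nat.choose_symm_add

theorem comp_dd (o : Fin 4 → L)
    (h : ∀ (n : ℕ) (G : S L), G.IsHomogeneous n → (dd o G).IsHomogeneous (n - 1)) (m : ℕ)
    (a : S L) : dd o (homogeneousComponent (m + 1) a) = homogeneousComponent m (dd o a) := by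
  induction a using MvPolynomial.induction_on' with
  | add p q hp hq => simp only [map_add, hp, hq]
  | monomial k c =>
    have h1 : (monomial k c : S L).IsHomogeneous k.degree := isHomogeneous_monomial c rfl
    rw [homogeneousComponent_of_mem h1, homogeneousComponent_of_mem (h _ _ h1)]
    by_cases e : m + 1 = k.degree
    · rw [if_pos e, if_pos (by omega)]
    · rw [if_neg e, map_zero]
      split_ifs with e'
      · obtain rfl : k = 0 := (Finsupp.degree_eq_zero_iff k).1 (by omega)
        exact (derivation_C (dd o) c).symm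
      · rfl

end Cone0

theorem pCONE0 (L : Type u) [Field L] [IsAlgClosed L] [CharZero L]
    (hDIRE : S_DIRE L) (hDIR2 : S_DIR2 L) :
    S_CONE0 L := by
  intro o
  obtain ⟨-, -, -, -, h5, h6⟩ := hDIR2
  have h3 : ∀ (a : S L) (n : ℕ), dd o a = 0 → dd o (homogeneousComponent n a) = 0 := by
    intro a n ha
    cases n with
    | zero => rw [homogeneousComponent_zero]; exact derivation_C (dd o) _
    | succ m => rw [Cone0.comp_dd o (h5 o), ha, map_zero]
  by_cases ho : o = 0
  · subst ho
    refine ⟨fun a _ _ _ => by simp [h6], fun d F a hF hd h0 => (h0 ?_).elim, h3,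
      fun h => (h rfl).elim⟩
    rw [eval_zero, constantCoeff_eq]
    exact hF.coeff_eq_zero (by simpa using hd.ne)
  obtain ⟨e, e1, e2, e3⟩ := hDIRE 3 o ho
  have key : ∀ a : S L, dd o a = 0 ↔ (e a).natDegree = 0 := by
    intro a
    rw [h6, ← map_eq_zero_iff e e.injective, ← e1]
    exact Polynomial.derivative_eq_zero
  have h1 : ∀ a a' : S L, a * a' ≠ 0 → dd o (a * a') = 0 → dd o a = 0 := by
    intro a a' h0 h
    rw [key, map_mul, Polynomial.natDegree_mul
      ((map_ne_zero_iff e e.injective).2 (left_ne_zero_of_mul h0))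
      ((map_ne_zero_iff e e.injective).2 (right_ne_zero_of_mul h0))] at h
    rw [key]
    omega
  refine ⟨h1, ?_, h3, fun _ n => ?_⟩
  · rintro d F _ hF hd h0 ha ⟨c, rfl⟩
    by_contra hne
    have h2 := (key F).1 (h1 F c hne ha)
    have h4 : (e F).coeff d = 0 := Polynomial.coeff_eq_zero_of_natDegree_lt (by omega)
    rw [e3 d F hF, C_eq_zero] at h4
    exact h0 h4
  · let φ : MvPolynomial (Fin 3) L →ₐ[L] S L := e.symm.toAlgHom.comp Polynomial.CAlgHom
    have hφ : ∀ b, e (φ b) = Polynomial.C b := fun b => e.apply_symm_apply _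
    have hi : Function.Injective φ.toLinearMap := fun b b' h =>
      Polynomial.C_injective (by rw [← hφ, ← hφ]; exact congrArg e h)
    have e4 : (LinearMap.ker (dd o : S L →ₗ[L] S L) ⊓ frm L n : Submodule L (S L)) =
        (homogeneousSubmodule (Fin 3) L n).map φ.toLinearMap := by
      ext a
      constructor
      · rintro ⟨ha, hb⟩
        refine ⟨(e a).coeff 0, ((e2 n a).1 hb 0).2, e.injective ?_⟩
        exact (hφ _).trans (Polynomial.eq_C_of_natDegree_eq_zero ((key a).1 ha)).symm
      · rintro ⟨b, hb, rfl⟩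
        refine ⟨(key (φ b)).2 (by rw [hφ, Polynomial.natDegree_C]), (e2 n (φ b)).2 fun i => ?_⟩
        rw [hφ, Polynomial.coeff_C]
        split_ifs with hi0
        · subst hi0
          exact ⟨fun _ => Nat.zero_le _, hb⟩
        · exact ⟨fun h => (h rfl).elim, isHomogeneous_zero _ _ _⟩
    rw [e4, ← (Submodule.equivMapOfInjective _ hi _).finrank_eq, Cone0.rank3]

end Pool.Agent.P.MP_6f117a_ag.Surf
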