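import Pool.Agent.P.MP_6f117a_ag.SIface

/-! Step GOOD of the proof for surfaces in projective three-space. -/

namespace Pool.Agent.P.MP_6f117a_ag.Surf

open MvPolynomial Module
open Ideal (span)
open scoped Polynomial WithZero

universe u

namespace GoodAux

variable {L : Type u} [Field L]

theorem euler [CharZero L] {σ : Type} [Fintype σ] {F : MvPolynomial σ L} {d : ℕ}
    (hF : F.IsHomogeneous d) (hd : 0 < d) (p : σ → L) (h : ∀ i, eval p (pderiv i F) = 0) :
    eval p F = 0 := by
  have := congrArg (eval p) hF.sum_X_mul_pderiv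
  simp only [map_sum, map_mul, h, mul_zero, Finset.sum_const_zero, nsmul_eq_mul, map_natCast] at this
  exact (mul_eq_zero.1 this.symm).resolve_left (Nat.cast_ne_zero.2 hd.ne')

/-- Restriction to the plane at infinity. -/
noncomputable def res : S L →ₐ[L] MvPolynomial (Fin 3) L := aeval (Fin.cons 0 X)

theorem res_zero : res (X 0 : S L) = 0 := by simp [res]

theorem res_succ (i : Fin 3) : res (X i.succ : S L) = X i := by simp [res]

theorem sub_res (a : S L) : a - rename Fin.succ (res a) ∈ span {(X 0 : S L)} := by
  rw [← Ideal.Quotient.eq]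
  have : (Ideal.Quotient.mkₐ L (span {(X 0 : S L)})) =
      (Ideal.Quotient.mkₐ L (span {(X 0 : S L)})).comp ((rename Fin.succ).comp res) := by
    refine algHom_ext fun i => ?_
    refine Fin.cases ?_ (fun i => ?_) i
    · simp only [AlgHom.comp_apply, res_zero, map_zero, Ideal.Quotient.mkₐ_eq_mk]
      exact Ideal.Quotient.eq_zero_iff_mem.2 (Ideal.subset_span rfl)
    · simp only [AlgHom.comp_apply, res_succ, rename_X]
  exact DFunLike.congr_fun this a

theorem comap_res (F : S L) : (span {res F}).comap res = span {F, X 0} := by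
  have hle : span {(X 0 : S L)} ≤ span {F, X 0} := Ideal.span_mono (by simp)
  refine le_antisymm (fun a ha => ?_) (Ideal.span_le.2 ?_)
  · obtain ⟨c, hc⟩ := Ideal.mem_span_singleton'.1 (Ideal.mem_comap.1 ha)
    have e : a = (a - rename Fin.succ (res a)) +
        rename Fin.succ c * (F - (F - rename Fin.succ (res F))) := by
      rw [← hc, map_mul]; ring
    rw [e]
    exact add_mem (hle (sub_res a)) (Ideal.mul_mem_left _ _
      (sub_mem (Ideal.subset_span (by simp)) (hle (sub_res F))))
  · rintro a (rfl | rfl)
    · exact Ideal.mem_comap.2 (Ideal.subset_span rfl)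
    · exact Ideal.mem_comap.2 (by rw [res_zero]; exact zero_mem _)

theorem res_hom {F : S L} {d : ℕ} (hF : F.IsHomogeneous d) : (res F).IsHomogeneous d := by
  have := hF.aeval (Fin.cons 0 X : Fin 4 → MvPolynomial (Fin 3) L) (n := 1) fun i => by
    refine Fin.cases ?_ (fun i => ?_) i
    · exact isHomogeneous_zero _ _ _
    · exact isHomogeneous_X L i
  rw [one_mul] at this
  exact this

theorem pderiv_res (i : Fin 3) (a : S L) : pderiv i (res a) = res (pderiv i.succ a) := by
  induction a using MvPolynomial.induction_on with
  | C c => simp [res]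
  | add p q hp hq => simp only [map_add, hp, hq]
  | mul_X p k hp =>
    have e : pderiv i (res (X k : S L)) = res (pderiv i.succ (X k : S L)) := by
      refine Fin.cases ?_ (fun k => ?_) k
      · rw [res_zero, pderiv_X_of_ne (Fin.succ_ne_zero i).symm, map_zero, map_zero]
      · rw [res_succ]
        by_cases h : k = i
        · simp [h]
        · rw [pderiv_X_of_ne h, pderiv_X_of_ne (fun z => h (Fin.succ_injective _ z)), map_zero]
    simp only [map_mul, Derivation.leibniz, smul_eq_mul, map_add, hp, e]

theorem eval_res (p : Fin 3 → L) (a : S L) : eval p (res a) = eval (Fin.cons 0 p) a := by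
  have : (aeval p : MvPolynomial (Fin 3) L →ₐ[L] L).comp res = aeval (Fin.cons 0 p) := by
    refine algHom_ext fun i => ?_
    refine Fin.cases ?_ (fun i => ?_) i
    · simp [res_zero]
    · simp [res_succ]
  exact DFunLike.congr_fun this a

theorem eval_single {F : S L} {d : ℕ} (hF : F.IsHomogeneous d) (i : Fin 4) :
    eval (Pi.single i 1) F = coeff (Finsupp.single i d) F := by
  rw [eval_eq', Finset.sum_eq_single (Finsupp.single i d)]
  · rw [Finset.prod_eq_one, mul_one]
    intro j _
    by_cases h : j = i
    · simp [h]
    · simp [Finsupp.single_apply, Ne.symm h]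
  · intro m hm hne
    have hdeg : m.degree = d := by
      by_contra hc
      exact mem_support_iff.1 hm (hF.coeff_eq_zero hc)
    obtain ⟨j, hj, hj'⟩ : ∃ j, j ≠ i ∧ m j ≠ 0 := by
      by_contra hc
      push Not at hc
      apply hne
      have e : m = Finsupp.single i (m i) := by
        ext j
        by_cases h : j = i
        · simp [h]
        · simp [Finsupp.single_apply, Ne.symm h, hc j h]
      rw [e, Finsupp.degree_single] at hdeg
      rw [e, hdeg]
    rw [Finset.prod_eq_zero (Finset.mem_univ j), mul_zero]
    simp [hj, hj']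
  · intro h
    rw [notMem_support_iff.1 h, zero_mul]

end GoodAux

open GoodAux in
theorem pGOOD (L : Type u) [Field L] [IsAlgClosed L] [CharZero L]
    (hPRIME : S_PRIME L) :
    S_GOOD L := by
  intro d F hF hd hs hm
  refine ⟨hF, hd, hPRIME 1 d F hF (by omega) fun p hp =>
    hs p (euler hF (by omega) p hp) fun i => hp i.succ, ?_, ?_, fun i => ?_⟩
  · have hp : Prime (res F) := by
      refine hPRIME 0 d (res F) (res_hom hF) (by omega) fun p hp => ?_
      have h0 := euler (res_hom hF) (by omega) p hp
      have := hs (Fin.cons 0 p) (by rwa [eval_res] at h0) fun i => by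
        rw [dF, ← eval_res, ← pderiv_res]; exact hp i
      funext i
      exact congrFun this i.succ
    rw [← comap_res]
    have := (Ideal.span_singleton_prime hp.ne_zero).2 hp
    exact Ideal.comap_isPrime _ _
  · have key : ∀ i : Fin 4, ∃ N : ℕ, X i ^ N ∈ span {F} ⊔ span (Set.range (dF F)) := by
      intro i
      change X i ∈ (span {F} ⊔ span (Set.range (dF F))).radical
      rw [← vanishingIdeal_zeroLocus_eq_radical (K := L)]
      intro p hp
      have := hs p (hp F (Ideal.mem_sup_left (Ideal.subset_span rfl))) fun j =>
        hp _ (Ideal.mem_sup_right (Ideal.subset_span ⟨j, rfl⟩))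
      rw [aeval_X, this, Pi.zero_apply]
    choose N hN using key
    exact ⟨Finset.univ.sup N, fun i =>
      Ideal.pow_mem_of_pow_mem _ (hN i) (Finset.le_sup (Finset.mem_univ i))⟩
  · rw [← eval_single hF]
    exact hm i

end Pool.Agent.P.MP_6f117a_ag.Surf
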