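import Pool.Agent.P.MP_6f117a_ag.SIface

/-! Step TRANS of the proof for surfaces in projective three-space. -/

namespace Pool.Agent.P.MP_6f117a_ag.Surf

open MvPolynomial Module
open Ideal (span)
open scoped Polynomial WithZero

universe u

namespace TransAux

variable {L : Type u} [Field L]

section

variable {K : Type u} [CommRing K] [Algebra L K]

/-- The action of a matrix on a coordinate vector. -/
def act (g : Matrix (Fin 4) (Fin 4) L) (x : Fin 4 → K) : Fin 4 → K := fun i => ∑ j, g i j • x j

theorem act_act (g h : Matrix (Fin 4) (Fin 4) L) (x : Fin 4 → K) :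
    act g (act h x) = act (g * h) x := by
  funext i
  simp only [act, Matrix.mul_apply, Finset.smul_sum, Finset.sum_smul, smul_smul]
  exact Finset.sum_comm

theorem act_one (x : Fin 4 → K) : act (1 : Matrix (Fin 4) (Fin 4) L) x = x := by
  funext i
  simp [act, Matrix.one_apply]

theorem act_zero (g : Matrix (Fin 4) (Fin 4) L) : act g (0 : Fin 4 → K) = 0 := by
  funext i
  simp [act]

theorem aeval_lin (g : Matrix (Fin 4) (Fin 4) L) (x : Fin 4 → K) (a : S L) :
    aeval x (lin g a) = aeval (act g x) a := by
  have : (aeval x : S L →ₐ[L] K).comp (lin g) = aeval (act g x) := by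
    refine algHom_ext fun i => ?_
    simp [lin, act, Algebra.smul_def]
  exact DFunLike.congr_fun this a

end

theorem lin_eq (g : Matrix (Fin 4) (Fin 4) L) (a : S L) : lin g a = aeval (act g X) a := by
  rw [← aeval_lin, aeval_X_left_apply]

theorem lin_lin {g h : Matrix (Fin 4) (Fin 4) L} (e : g * h = 1) (a : S L) :
    lin h (lin g a) = a := by
  rw [lin_eq h, aeval_lin, act_act, e, act_one, aeval_X_left_apply]

theorem lin_X (g : Matrix (Fin 4) (Fin 4) L) (i : Fin 4) :
    lin g (X i) = ∑ j, C (g i j) * X j := by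
  simp [lin]

theorem lin_hom (g : Matrix (Fin 4) (Fin 4) L) {a : S L} {n : ℕ} (ha : a.IsHomogeneous n) :
    (lin g a).IsHomogeneous n := by
  have := ha.aeval (fun i => ∑ j, C (g i j) * X j : Fin 4 → S L) (n := 1)
    fun i => IsHomogeneous.sum _ _ _ fun j _ => (isHomogeneous_X L j).C_mul _
  rw [one_mul] at this
  exact this

theorem pderiv_lin (g : Matrix (Fin 4) (Fin 4) L) (j : Fin 4) (a : S L) :
    pderiv j (lin g a) = ∑ i, g i j • lin g (pderiv i a) := by
  induction a using MvPolynomial.induction_on with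
  | C c => simp [lin]
  | add p q hp hq => simp only [map_add, hp, hq, smul_add, Finset.sum_add_distrib]
  | mul_X p k hp =>
    have e : pderiv j (lin g (X k)) = C (g k j) := by
      rw [lin_X]
      simp [pderiv_X, Pi.single_apply]
    have e' : ∑ i, g i j • (lin g p * lin g (pderiv i (X k : S L))) = lin g p * C (g k j) := by
      rw [Finset.sum_eq_single k]
      · simp [smul_eq_C_mul, mul_comm]
      · intro i _ hi
        simp [pderiv_X, Pi.single_apply, hi.symm]
      · simp
    simp only [map_mul, Derivation.leibniz, smul_eq_mul, map_add, smul_add, Finset.sum_add_distrib,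
      hp, e, e', Finset.mul_sum, mul_smul_comm]

theorem noSmall {g h : Matrix (Fin 4) (Fin 4) L} (e : g * h = 1) (e' : h * g = 1) {d : ℕ}
    {F : S L} (hF : NoSmall d F) : NoSmall d (lin g F) := by
  intro n b hn hb hh
  by_contra hc
  push Not at hc
  obtain ⟨i, j, hij⟩ := hF n (lin h b) hn (fun z => hb (by rw [← lin_lin e' b, z, map_zero]))
    (lin_hom h hh)
  have hJ : ∀ a ∈ span (Set.range fun k => pderiv k (lin g F)),
      lin h a ∈ span (Set.range fun k => pderiv k F) := by
    intro a ha
    refine (Ideal.span_le.2 ?_ : span (Set.range fun k => pderiv k (lin g F)) ≤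
      (span (Set.range fun k => pderiv k F)).comap (lin h)) ha
    rintro _ ⟨k, rfl⟩
    change lin h (pderiv k (lin g F)) ∈ span (Set.range fun k => pderiv k F)
    rw [pderiv_lin, map_sum]
    refine sum_mem fun l _ => ?_
    rw [map_smul, lin_lin e]
    exact Submodule.smul_of_tower_mem _ _ (Ideal.subset_span ⟨l, rfl⟩)
  apply hij
  have : lin h b * pderiv i (pderiv j F) =
      ∑ l, ∑ k, h l j • h k i • lin h (b * pderiv k (pderiv l (lin g F))) := by
    conv_lhs => rw [← lin_lin e F]
    simp only [pderiv_lin h, map_sum, Derivation.map_smul, Finset.mul_sum, Finset.smul_sum,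
      mul_smul_comm, map_mul]
  rw [this]
  exact sum_mem fun l _ => sum_mem fun k _ =>
    Submodule.smul_of_tower_mem _ _ (Submodule.smul_of_tower_mem _ _ (hJ _ (hc k l)))

section

variable {K : Type u} [Field K] [Algebra L K]

theorem sup_act (g : Matrix (Fin 4) (Fin 4) L) (x : Fin 4 → K) (P : Place L K) :
    (Finset.univ.sup fun i => P.v (act g x i)) ≤ Finset.univ.sup fun i => P.v (x i) := by
  refine Finset.sup_le fun i _ => P.v.map_sum_le fun j _ => ?_
  rw [Algebra.smul_def, map_mul]
  exact (mul_le_of_le_one_left' (P.triv _)).trans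
    (Finset.le_sup (f := fun i => P.v (x i)) (Finset.mem_univ j))

theorem degree_act {g h : Matrix (Fin 4) (Fin 4) L} (e : g * h = 1) (x : Fin 4 → K) :
    degree L (act h x) = degree L x := by
  refine finsum_congr fun P => congrArg _ (le_antisymm (sup_act h x P) ?_)
  have := sup_act g (act h x) P
  rwa [act_act, e, act_one] at this

theorem ne_act {g h : Matrix (Fin 4) (Fin 4) L} (e : g * h = 1) {x : Fin 4 → K} (hx : x ≠ 0) :
    act h x ≠ 0 := fun z => hx (by rw [← act_one (L := L) x, ← e, ← act_act, z, act_zero])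

theorem ratios_act (g : Matrix (Fin 4) (Fin 4) L) {x : Fin 4 → K} (hx : x ≠ 0) :
    IntermediateField.adjoin L {w | ∃ i j, w = act g x i / act g x j} ≤
      IntermediateField.adjoin L {w | ∃ i j, w = x i / x j} := by
  obtain ⟨k, hk⟩ := Function.ne_iff.1 hx
  have key : ∀ i, act g x i / x k ∈ IntermediateField.adjoin L {w | ∃ i j, w = x i / x j} := by
    intro i
    rw [act, Finset.sum_div]
    refine sum_mem fun j _ => ?_
    rw [smul_div_assoc]
    exact IntermediateField.smul_mem _ (IntermediateField.subset_adjoin L _ (by exact ⟨j, k, rfl⟩))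
  rw [IntermediateField.adjoin_le_iff]
  rintro _ ⟨i, j, rfl⟩
  rw [← div_div_div_cancel_right₀ hk]
  exact div_mem (key i) (key j)

end

end TransAux

open TransAux in
theorem pTRANS (L : Type u) [Field L] [IsAlgClosed L] [CharZero L] :
    S_TRANS L := by
  intro d F g hg
  have e : g * g⁻¹ = 1 := Matrix.mul_nonsing_inv g hg.isUnit
  have e' : g⁻¹ * g = 1 := Matrix.nonsing_inv_mul g hg.isUnit
  refine ⟨noSmall e e', ?_, ?_, ?_⟩
  · rintro ⟨α, β, H⟩
    refine ⟨α, β, fun K _ _ h1 h2 x hx hF hr => ?_⟩
    rw [← degree_act e x]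
    refine H K h1 h2 _ (ne_act e hx) (by rw [aeval_lin, act_act, e, act_one, hF]) ?_
    have := ratios_act g (ne_act e hx)
    rw [act_act, e, act_one, hr] at this
    exact top_le_iff.1 this
  · intro H K _ _ h1 h2 h3 x hx hF
    obtain ⟨c, γ, hc⟩ := H K h1 h2 h3 _ (ne_act e' hx) (by rwa [aeval_lin] at hF)
    refine ⟨fun i => ∑ j, g⁻¹ i j * c j, γ, fun i => ?_⟩
    have : x i = act g⁻¹ (act g x) i := by rw [act_act, e', act_one]
    rw [this, act, Finset.sum_smul]
    exact Finset.sum_congr rfl fun j _ => by rw [hc j, smul_smul]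
  · rintro ⟨α, H⟩
    refine ⟨α, fun K _ _ h1 h2 x hx hF => ?_⟩
    rw [← degree_act e x]
    exact H K h1 h2 _ (ne_act e hx) fun _ => by rw [aeval_lin, act_act, e, act_one, hF ()]

end Pool.Agent.P.MP_6f117a_ag.Surf
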