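import Pool.Agent.P.MP_6f117a_ag.SIface
import Pool.Agent.P.MP_6f117a_ag.STrans
import Pool.Agent.P.MP_6f117a_ag.SGood

/-! Step COORD of the proof for surfaces in projective three-space. -/

namespace Pool.Agent.P.MP_6f117a_ag.Surf

open MvPolynomial Module
open Ideal (span)
open scoped Polynomial WithZero

universe u

namespace CoordAux

open TransAux GoodAux

variable {L : Type u} [Field L]

theorem eval_scale {F : S L} {d : ℕ} (hF : F.IsHomogeneous d) (t : L) (x : Fin 4 → L) :
    eval (t • x) F = t ^ d * eval x F := by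
  rw [eval_eq', eval_eq', Finset.mul_sum]
  refine Finset.sum_congr rfl fun m hm => ?_
  have hdeg : m.degree = d := by
    by_contra hc
    exact mem_support_iff.1 hm (hF.coeff_eq_zero hc)
  simp only [Pi.smul_apply, smul_eq_mul, mul_pow, Finset.prod_mul_distrib,
    Finset.prod_pow_eq_pow_sum, ← Finsupp.degree_eq_sum, hdeg]
  ring

/-- The gradients along the surface satisfy a nontrivial equation. -/
theorem exists_dual {F : S L} (h0 : F ≠ 0) : ∃ Ψ : S L, Ψ ≠ 0 ∧
    ∀ x : Fin 4 → L, eval x F = 0 → eval (fun i => eval x (pderiv i F)) Ψ = 0 := by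
  have hdep : ¬AlgebraicIndependent L (Fin.cons F fun i => pderiv i F : Fin 5 → S L) := by
    intro h
    have := h.lift_cardinalMk_le_trdeg
    rw [MvPolynomial.trdeg_of_isDomain] at this
    simp only [Cardinal.mk_fintype, Fintype.card_fin, Cardinal.lift_natCast, Nat.cast_le] at this
    omega
  rw [algebraicIndependent_iff] at hdep
  push Not at hdep
  obtain ⟨P, hP, hP0⟩ := hdep
  let φ : (S L)[X] →+* S L :=
    Polynomial.eval₂RingHom (aeval (R := L) fun i => pderiv i F).toRingHom F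
  have hφ : φ.comp (finSuccEquiv L 4).toRingEquiv.toRingHom =
      (aeval (R := L) (Fin.cons F fun i => pderiv i F : Fin 5 → S L)).toRingHom := by
    refine ringHom_ext (fun c => ?_) fun i => ?_
    · simp [φ, finSuccEquiv_apply]
    · refine Fin.cases ?_ (fun i => ?_) i
      · simp [φ, finSuccEquiv_X_zero]
      · simp [φ, finSuccEquiv_X_succ]
  have h1 : φ (finSuccEquiv L 4 P) = 0 := (DFunLike.congr_fun hφ P).trans hP
  obtain ⟨q, hq, hq'⟩ := Polynomial.exists_eq_pow_rootMultiplicity_mul_and_not_dvd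
    (finSuccEquiv L 4 P) (by simpa using hP0) 0
  rw [map_zero, sub_zero] at hq hq'
  have hX : φ Polynomial.X = F := by simp [φ]
  rw [hq, map_mul, map_pow, hX] at h1
  have h2 : φ q = 0 := (mul_eq_zero.1 h1).resolve_left (pow_ne_zero _ h0)
  refine ⟨q.coeff 0, fun z => hq' (Polynomial.X_dvd_iff.2 z), fun x hx => ?_⟩
  rw [← Polynomial.X_mul_divX_add q, map_add, map_mul, hX] at h2
  have h3 := congrArg (eval x) h2
  rw [map_add, map_mul, hx, zero_mul, zero_add, map_zero] at h3
  have h4 : (aeval x : S L →ₐ[L] L).comp (aeval fun i => pderiv i F) =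
      aeval fun i => eval x (pderiv i F) := by
    refine algHom_ext fun i => ?_
    simp [coe_aeval_eq_eval]
  have h5 : φ (Polynomial.C (q.coeff 0)) = aeval (fun i => pderiv i F) (q.coeff 0) := by simp [φ]
  rw [h5] at h3
  exact (DFunLike.congr_fun h4 (q.coeff 0)).symm.trans h3

/-- A plane that is nowhere tangent to the surface. -/
theorem exists_plane [IsAlgClosed L] (hDIR2 : S_DIR2 L) {d : ℕ} {F : S L} (hF : F.IsHomogeneous d)
    (hd : 2 ≤ d) (hs : ∀ p : Fin 4 → L, (∀ i, eval p (pderiv i F) = 0) → p = 0) :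
    ∃ l : Fin 4 → L, l 0 ≠ 0 ∧ ∀ (x : Fin 4 → L) (c : L), eval x F = 0 →
      (∀ i, eval x (pderiv i F) = c * l i) → x = 0 := by
  have h0 : F ≠ 0 := by
    rintro rfl
    have := congrFun (hs 1 (by simp)) 0
    simp at this
  obtain ⟨Ψ, hΨ, hΨ'⟩ := exists_dual h0
  obtain ⟨l, hl, hl'⟩ := hDIR2.1 4 Ψ {Pi.single 0 1} hΨ (by simp)
  refine ⟨l, by simpa using hl', fun x c hx hc => hs x fun i => ?_⟩
  by_cases hc0 : c = 0
  · rw [hc, hc0, zero_mul]
  obtain ⟨t, ht⟩ := IsAlgClosed.exists_pow_nat_eq c⁻¹ (n := d - 1) (by omega)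
  have := hΨ' (t • x) (by rw [eval_scale hF, hx, mul_zero])
  have e : (fun i => eval (t • x) (pderiv i F)) = l := by
    funext i
    rw [eval_scale hF.pderiv, ht, hc, ← mul_assoc, inv_mul_cancel₀ hc0, one_mul]
  rw [e] at this
  exact absurd this hl

/-- The point of the plane with given last three coordinates. -/
def up (l : Fin 4 → L) (y : Fin 3 → L) : Fin 4 → L := Fin.cons (-(∑ i, l i.succ * y i) / l 0) y

/-- The change of coordinates. -/
def gm (l : Fin 4 → L) (M : Matrix (Fin 3) (Fin 3) L) : Matrix (Fin 4) (Fin 4) L :=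
  Matrix.of fun i j => (Fin.cons (Pi.single 0 1) fun k => up l fun a => M a k :
    Fin 4 → Fin 4 → L) j i

theorem gm_inj (l : Fin 4 → L) {M : Matrix (Fin 3) (Fin 3) L} (hM : M.det ≠ 0) {p : Fin 4 → L}
    (h : act (gm l M) p = 0) : p = 0 := by
  have h1 : (fun k : Fin 3 => p k.succ) = 0 := by
    refine Matrix.eq_zero_of_mulVec_eq_zero hM (funext fun a => ?_)
    have := congrFun h a.succ
    simpa [act, gm, up, Fin.sum_univ_succ (n := 3), Matrix.mulVec, dotProduct] using this
  have h2 : ∀ k : Fin 3, p k.succ = 0 := congrFun h1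
  funext i
  refine Fin.cases ?_ h2 i
  have := congrFun h 0
  simpa [act, gm, Fin.sum_univ_succ (n := 3), h2] using this

theorem gm_det (l : Fin 4 → L) {M : Matrix (Fin 3) (Fin 3) L} (hM : M.det ≠ 0) :
    (gm l M).det ≠ 0 := by
  intro h
  obtain ⟨v, hv, hv'⟩ := Matrix.exists_mulVec_eq_zero_iff.2 h
  exact hv (gm_inj l hM hv')

theorem eval_lin (g : Matrix (Fin 4) (Fin 4) L) (p : Fin 4 → L) (a : S L) :
    eval p (lin g a) = eval (act g p) a := aeval_lin g p a

theorem gm_smooth {F : S L} {l : Fin 4 → L} (hl : l 0 ≠ 0)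
    (hF : ∀ (x : Fin 4 → L) (c : L), eval x F = 0 → (∀ i, eval x (pderiv i F) = c * l i) → x = 0)
    {M : Matrix (Fin 3) (Fin 3) L} (hM : M.det ≠ 0) (p : Fin 4 → L)
    (h0 : eval p (lin (gm l M) F) = 0) (h1 : ∀ i, eval p (dF (lin (gm l M) F) i) = 0) : p = 0 := by
  rw [eval_lin] at h0
  set x := act (gm l M) p with hx
  set u : Fin 4 → L := fun i => eval x (pderiv i F) with hu
  have h2 : (fun a : Fin 3 => u a.succ - u 0 / l 0 * l a.succ) = 0 := by
    refine Matrix.eq_zero_of_vecMul_eq_zero hM (funext fun k => ?_)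
    have := h1 k
    rw [dF, pderiv_lin, map_sum] at this
    simp only [smul_eval, eval_lin, ← hx] at this
    rw [Fin.sum_univ_succ] at this
    simp only [gm, up, Matrix.of_apply, Fin.cons_succ, Fin.cons_zero] at this
    simp only [Matrix.vecMul, dotProduct, Pi.zero_apply, Fin.sum_univ_three] at this ⊢
    field_simp at this ⊢
    simp only [hu]
    linear_combination this
  refine gm_inj l hM (hF x (u 0 / l 0) h0 fun i => ?_)
  refine Fin.cases ?_ (fun a => ?_) i
  · rw [div_mul_cancel₀ _ hl]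
  · exact sub_eq_zero.1 (congrFun h2 a)

theorem act_col (l : Fin 4 → L) (M : Matrix (Fin 3) (Fin 3) L) (k : Fin 3) :
    act (gm l M) (Pi.single k.succ (1 : L)) = up l fun a => M a k := by
  funext i
  simp [act, gm, Pi.single_apply]

theorem act_cons (l : Fin 4 → L) (y : Fin 3 → L) :
    act (gm l 1) (Fin.cons 0 y : Fin 4 → L) = up l y := by
  funext i
  refine Fin.cases ?_ (fun a => ?_) i
  · simp [act, gm, up, Fin.sum_univ_succ (n := 3), Matrix.one_apply, Fin.sum_univ_three]
    ring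
  · simp [act, gm, up, Fin.sum_univ_succ (n := 3), Matrix.one_apply]

theorem exists_basis (hDIR2 : S_DIR2 L) {G : MvPolynomial (Fin 3) L} (hG : G ≠ 0) :
    ∃ M : Matrix (Fin 3) (Fin 3) L, M.det ≠ 0 ∧ ∀ k, eval (fun a => M a k) G ≠ 0 := by
  obtain ⟨x, hx, hx'⟩ := hDIR2.1 3 G {Pi.single 0 1} hG (by simp)
  have x0 : x 0 ≠ 0 := by simpa using hx'
  obtain ⟨y, hy, hy'⟩ := hDIR2.1 3 G {![-x 1, x 0, 0]} hG (by
    simp only [Finset.mem_singleton]
    rintro _ rfl h
    exact x0 (congrFun h 1))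
  have y0 : x 0 * y 1 - x 1 * y 0 ≠ 0 := by
    have := hy' _ (Finset.mem_singleton_self _)
    simp only [dotProduct, Fin.sum_univ_three] at this
    intro h
    apply this
    simp
    linear_combination h
  obtain ⟨z, hz, hz'⟩ := hDIR2.1 3 G
    {![x 1 * y 2 - x 2 * y 1, x 2 * y 0 - x 0 * y 2, x 0 * y 1 - x 1 * y 0]} hG (by
    simp only [Finset.mem_singleton]
    rintro _ rfl h
    exact y0 (congrFun h 2))
  refine ⟨Matrix.of fun a k => (![x, y, z] : Fin 3 → Fin 3 → L) k a, fun h => ?_, fun k => ?_⟩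
  · apply hz' _ (Finset.mem_singleton_self _)
    rw [Matrix.det_fin_three] at h
    simp [dotProduct, Fin.sum_univ_three] at h ⊢
    linear_combination h
  · fin_cases k
    · exact hx
    · exact hy
    · exact hz

end CoordAux

open CoordAux TransAux GoodAux in
theorem pCOORD (L : Type u) [Field L] [IsAlgClosed L] [CharZero L]
    (hDIR2 : S_DIR2 L) :
    S_COORD L := by
  intro d F hF hd hs
  obtain ⟨l, hl, hl'⟩ := exists_plane hDIR2 hF hd hs
  have hG : res (lin (gm l 1) F) ≠ 0 := by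
    intro h
    have := gm_smooth hl hl' (M := 1) (by simp) (Fin.cons 0 1) (by rw [← eval_res, h, map_zero])
      fun i => by rw [dF, ← eval_res, ← pderiv_res, h, map_zero, map_zero]
    have := congrFun this (Fin.succ 0)
    simp at this
  obtain ⟨M, hM, hM'⟩ := exists_basis hDIR2 hG
  refine ⟨gm l M, gm_det l hM, lin_hom _ hF, gm_smooth hl hl' hM, fun k => ?_⟩
  have := hM' k
  rw [eval_res, eval_lin, act_cons] at this
  rwa [eval_lin, act_col]

end Pool.Agent.P.MP_6f117a_ag.Surf
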