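import Pool.Agent.P.MP_6f117a_ag.SIface

/-! Step CURVE of the proof for surfaces in projective three-space. -/

namespace Pool.Agent.P.MP_6f117a_ag.Surf

open MvPolynomial Module
open Ideal (span)
open scoped Polynomial WithZero

universe u

section

open WithZero

variable {L : Type u} [Field L] [IsAlgClosed L] [CharZero L] {K : Type u} [Field K] [Algebra L K]
  [FF L K]

theorem vk_curve (P : Place L K) {δ : Derivation L K K} (h : δ ≠ 0) :
    P.v (δ P.π) = exp (P.κ δ) := (exp_log (by simpa using P.der_π_ne h)).symm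

theorem der_curve (P : Place L K) {δ : Derivation L K K} (h : δ ≠ 0) {x : K} {z : ℤ}
    (hx : P.v x ≤ exp z) : P.v (δ x) ≤ exp (z + (P.κ δ + 1)) := by
  rcases eq_or_ne x 0 with rfl | h0
  · simp
  by_cases h1 : P.v x = 1
  · refine (P.v_der δ h1.le).trans ?_
    rw [h1, ← exp_zero, exp_le_exp] at hx
    rw [vk_curve P h, exp_le_exp]
    omega
  · rw [P.v_der_eq h h0 h1, vk_curve P h, mul_assoc, ← exp_add, exp_add z, add_comm 1]
    exact mul_le_mul_left hx _

theorem loc_curve (P : Place L K) {δ : Derivation L K K} {y : Fin 4 → K} {m : ℤ} (hm : 0 ≤ m)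
    (hy : ∀ i, P.v (y i) ≤ exp m) (h1 : δ (y 1) = 1) (i : Fin 4) :
    P.v (δ (y i)) ≤ exp (m + (2 * P.κ δ + 3 * m)) ∧
      P.v (δ (δ (y i))) ≤ exp (m + 2 * (2 * P.κ δ + 3 * m)) := by
  have hδ : δ ≠ 0 := by rintro rfl; simp at h1
  by_cases h : 1 ≤ P.κ δ + 3 * m
  · have h2 := der_curve P hδ (hy i)
    exact ⟨h2.trans (exp_le_exp.2 (by omega)),
      (der_curve P hδ h2).trans (exp_le_exp.2 (by omega))⟩
  have h2 : P.v (y 1) ≤ 1 := by
    by_contra hc
    rw [not_le] at hc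
    have h0 : P.v (y 1) ≠ 0 := (zero_lt_one.trans hc).ne'
    have h3 := P.κ_eq h1 (by simpa using h0) hc.ne'
    have h4 := hy 1
    rw [← exp_log h0, exp_le_exp] at h4
    rw [← exp_log h0, ← exp_zero, exp_lt_exp] at hc
    omega
  have h3 := P.v_der δ h2
  rw [h1, map_one, vk_curve P hδ, ← exp_zero, exp_le_exp] at h3
  obtain rfl : m = 0 := by omega
  have h4 : P.κ δ = 0 := by omega
  have h5 : ∀ x, P.v x ≤ 1 → P.v (δ x) ≤ 1 := fun x hx => by
    simpa [vk_curve P hδ, h4] using P.v_der δ hx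
  simpa [h4] using ⟨h5 _ (hy i), h5 _ (h5 _ (hy i))⟩

omit [IsAlgClosed L] [CharZero L] [FF L K] in
theorem ev_curve (P : Place L K) (φ : S L →+* K) (z : T2 → K) {m ε : ℤ}
    (hφ : ∀ (n : ℕ) (G : S L), G.IsHomogeneous n → P.v (φ G) ≤ exp m ^ n)
    (hz : ∀ j, P.v (z j) ≤ exp (m + w2 j * ε)) {a b : ℕ} {G : U L} (hG : G ∈ bih L w2 (a, b)) :
    P.v (eval₂Hom φ z G) ≤ exp (b * m + a * ε) := by
  rw [coe_eval₂Hom, eval₂_eq']
  refine P.v.map_sum_le fun k hk => ?_
  obtain ⟨h1, h2, h3⟩ := mem_bih'.1 hG k (mem_support_iff.1 hk)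
  have h4 : P.v (∏ j, z j ^ k j) ≤ exp (∑ j, (k j : ℤ) * (m + w2 j * ε)) := by
    rw [map_prod]
    induction (Finset.univ : Finset T2) using Finset.induction_on with
    | empty => simp
    | insert j s hj ih =>
      rw [Finset.prod_insert hj, Finset.sum_insert hj, exp_add, map_pow, ← nsmul_eq_mul, exp_nsmul]
      exact mul_le_mul' (pow_le_pow_left₀ zero_le (hz j) _) ih
  rw [map_mul]
  refine (mul_le_mul' (hφ _ _ h3) h4).trans (le_of_eq ?_)
  rw [← exp_nsmul, ← exp_add, nsmul_eq_mul, Nat.cast_sub h2, ← h1, Finsupp.weight_apply,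
    Finsupp.sum_fintype _ _ (by simp), Finsupp.degree_eq_sum]
  congr 1
  simp only [mul_add, Finset.sum_add_distrib, smul_eq_mul, Nat.cast_sum, Nat.cast_mul,
    Finset.sum_mul, sub_mul, mul_assoc]
  ring

end

open WithZero in
theorem pCURVE (L : Type u) [Field L] [IsAlgClosed L] [CharZero L]
    (hDEG : S_DEG L) :
    S_CURVE L := by
  classical
  intro F c I hI h0 a b r Q hQ hs hne
  have hD := hDEG c.K c.y fun h => by simpa [h] using c.y0
  have hδ : c.δ ≠ 0 := fun h => by simpa [h] using c.dt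
  refine ⟨hD.nonneg, ?_⟩
  have key : ∀ P : Place L c.K, log (P.v (c.ev Q)) ≤
      (b - r + 3 * a) * log (mx P c.y) + 2 * a * P.κ c.δ := fun P => by
    obtain ⟨m, hm⟩ : ∃ m, m = log (mx P c.y) := ⟨_, rfl⟩
    have e : mx P c.y = exp m := by rw [hm, exp_log (hD.mx_ne P)]
    have hy : ∀ i, P.v (c.y i) ≤ exp m := fun i =>
      e ▸ Finset.le_sup (f := fun i => P.v (c.y i)) (Finset.mem_univ i)
    have hm0 : 0 ≤ m := by
      have := hy 0
      rwa [c.y0, map_one, ← exp_zero, exp_le_exp] at this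
    obtain ⟨i, hi⟩ := hD.mx_eq P
    obtain ⟨t, ht⟩ := hs i
    have h1 : xj T2 L i ^ (r + t) * Q ∈ bih L w2 ((0, r) + (a, b + t)) := by
      have := SetLike.mul_mem_graded (SetLike.pow_mem_graded (r + t) (xj_mem (L := L) w2 i)) hQ
      rwa [show (r + t) • ((0, 1) : ℕ × ℕ) + (a, b) = (0, r) + (a, b + t) by
        simp only [Prod.smul_mk, Prod.mk_add_mk, smul_eq_mul, Prod.mk.injEq]; omega] at this
    obtain ⟨G, -, h2, h3⟩ := exists_comp (Ideal.IsHomogeneous.top _) hI
      (C_mem_bih w2 (isHomogeneous_X_pow (R := L) (0 : Fin 4) r)) h1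
      (by rw [Ideal.mul_top, pow_add, mul_assoc]; exact Ideal.mul_mem_left _ _ ht)
    have h4 := h0 _ h3
    have h5 : ∀ s, c.ev (C s) = aeval c.y s := fun s => eval₂Hom_C _ _ _
    rw [map_sub, map_mul, map_mul, map_pow, h5, h5, aeval_X, map_pow, aeval_X, c.y0, one_pow,
      one_mul, sub_eq_zero] at h4
    have h6 : P.v (c.ev G) ≤ exp ((b + t : ℕ) * m + a * (2 * P.κ c.δ + 3 * m)) :=
      ev_curve P _ _ (fun n G hG => e ▸ hD.v_le P n G hG) (fun j => by
        rcases j with j | j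
        · simpa [w2] using (loc_curve P hm0 hy c.dt j.succ).1
        · simpa [w2] using (loc_curve P hm0 hy c.dt j.succ).2) h2
    have h7 : P.v (c.ev Q) ≠ 0 := by simpa using hne
    rw [← h4, map_mul, map_pow, ← hi, e, ← exp_log h7, ← exp_nsmul, ← exp_add, exp_le_exp,
      nsmul_eq_mul] at h6
    rw [← hm]
    push_cast at h6
    linarith
  let Z := (finite_supp (L := L) hne).toFinset ∪ hD.fin.toFinset ∪ (finite_κ' hδ).toFinset
  have h1 := Finset.sum_le_sum fun P (_ : P ∈ Z) => key P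
  rw [prod_formula hne Z (by simp +contextual [Z]), Finset.sum_add_distrib, ← Finset.mul_sum,
    ← Finset.mul_sum, hD.sum_mx Z (by simp +contextual [Z])] at h1
  have h2 := mul_le_mul_of_nonneg_left (deg_can_le hδ Z (by simp +contextual [Z]))
    (show (0 : ℤ) ≤ 2 * a by positivity)
  linarith

end Pool.Agent.P.MP_6f117a_ag.Surf
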