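import Pool.Agent.P.MP_6f117a_ag.SIface

/-! Step DEG of the proof for surfaces in projective three-space. -/

namespace Pool.Agent.P.MP_6f117a_ag.Surf

open MvPolynomial Module
open Ideal (span)
open scoped Polynomial WithZero

universe u

namespace DegA

open WithZero

variable {L : Type u} [Field L] {K : Type u} [Field K] [Algebra L K] {ξ : Fin 4 → K}

theorem aeval_smul {n : ℕ} {G : S L} (h : G.IsHomogeneous n) (t : K) (ξ : Fin 4 → K) :
    aeval (t • ξ) G = t ^ n * aeval ξ G := by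
  rw [aeval_def, aeval_def, eval₂_eq', eval₂_eq', Finset.mul_sum]
  refine Finset.sum_congr rfl fun m hm => ?_
  have := h (mem_support_iff.1 hm)
  rw [weight_one, Finsupp.degree_eq_sum] at this
  simp only [Pi.smul_apply, smul_eq_mul, mul_pow, Finset.prod_mul_distrib,
    Finset.prod_pow_eq_pow_sum, this]
  ring

theorem le_mx (P : Place L K) (ξ : Fin 4 → K) (i : Fin 4) : P.v (ξ i) ≤ mx P ξ :=
  Finset.le_sup (f := fun j => P.v (ξ j)) (Finset.mem_univ i)

theorem mx_eq (P : Place L K) (ξ : Fin 4 → K) : ∃ i, mx P ξ = P.v (ξ i) :=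
  let ⟨j, _, hj⟩ := Finset.exists_mem_eq_sup Finset.univ Finset.univ_nonempty fun j => P.v (ξ j)
  ⟨j, hj⟩

theorem mx_ne (h : ξ ≠ 0) (P : Place L K) : mx P ξ ≠ 0 := by
  obtain ⟨i, hi⟩ := Function.ne_iff.1 h
  exact ((zero_lt_iff.2 (by simpa using hi)).trans_le (le_mx P ξ i)).ne'

theorem mx_smul (P : Place L K) (t : K) (ξ : Fin 4 → K) : mx P (t • ξ) = P.v t * mx P ξ := by
  obtain ⟨i, hi⟩ := mx_eq P ξ
  refine le_antisymm (Finset.sup_le fun j _ => ?_) ?_
  · rw [Pi.smul_apply, smul_eq_mul, map_mul]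
    exact mul_le_mul_right (le_mx P ξ j) _
  · rw [hi, ← map_mul]
    exact le_mx P (t • ξ) i

theorem v_aeval_le (P : Place L K) {η : Fin 4 → K} (h : ∀ j, P.v (η j) ≤ 1) (G : S L) :
    P.v (aeval η G) ≤ 1 := by
  induction G using MvPolynomial.induction_on with
  | C c => rw [aeval_C]; exact P.triv c
  | add p q hp hq => rw [map_add]; exact P.v.map_add_le hp hq
  | mul_X p i hp => rw [map_mul, map_mul, aeval_X]; exact mul_le_one' hp (h i)

theorem v_sub_lt (P : Place L K) {η : Fin 4 → K} (h : ∀ j, P.v (η j) ≤ 1) {p : Fin 4 → L}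
    (hp : ∀ j, P.v (η j - algebraMap L K (p j)) < 1) (G : S L) :
    P.v (aeval η G - algebraMap L K (eval p G)) < 1 := by
  induction G using MvPolynomial.induction_on with
  | C c => simp
  | add a b ha hb =>
    rw [map_add, map_add, map_add, add_sub_add_comm]
    exact P.v.map_add_lt ha hb
  | mul_X a i ha =>
    rw [map_mul, map_mul, map_mul, aeval_X, eval_X,
      show aeval η a * η i - algebraMap L K (eval p a) * algebraMap L K (p i) =
        (aeval η a - algebraMap L K (eval p a)) * η i +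
          algebraMap L K (eval p a) * (η i - algebraMap L K (p i)) by ring]
    refine P.v.map_add_lt ?_ ?_
    · rw [map_mul]; exact (mul_le_of_le_one_right' (h i)).trans_lt ha
    · rw [map_mul]; exact (mul_le_of_le_one_left' (P.triv _)).trans_lt (hp i)

theorem norm (h : ξ ≠ 0) (P : Place L K) : ∃ i, ξ i ≠ 0 ∧ mx P ξ = P.v (ξ i) ∧
    (∀ j, P.v (((ξ i)⁻¹ • ξ) j) ≤ 1) ∧ ∀ (n : ℕ) (G : S L), G.IsHomogeneous n →
      P.v (aeval ξ G) = mx P ξ ^ n * P.v (aeval ((ξ i)⁻¹ • ξ) G) := by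
  obtain ⟨i, hi⟩ := mx_eq P ξ
  have h0 := mx_ne h P
  have h1 : ξ i ≠ 0 := fun e => h0 (by rw [hi, e, map_zero])
  refine ⟨i, h1, hi, fun j => (le_mx P _ j).trans ?_, fun n G hG => ?_⟩
  · rw [mx_smul, map_inv₀, ← hi, inv_mul_cancel₀ h0]
  · rw [aeval_smul hG, map_mul, map_pow, map_inv₀, ← hi, ← mul_assoc, ← mul_pow,
      mul_inv_cancel₀ h0, one_pow, one_mul]

theorem v_le (h : ξ ≠ 0) (P : Place L K) (n : ℕ) (G : S L) (hG : G.IsHomogeneous n) :
    P.v (aeval ξ G) ≤ mx P ξ ^ n := by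
  obtain ⟨i, -, -, h2, h3⟩ := norm h P
  rw [h3 n G hG]
  exact mul_le_of_le_one_right' (v_aeval_le P h2 G)

theorem ord_nonneg (h : ξ ≠ 0) (P : Place L K) (n : ℕ) (G : S L) (hG : G.IsHomogeneous n)
    (h0 : aeval ξ G ≠ 0) : 0 ≤ ord P ξ n G := by
  have := (log_le_log (by simpa using h0) (pow_ne_zero n (mx_ne h P))).2 (v_le h P n G hG)
  rw [log_pow, nsmul_eq_mul] at this
  exact sub_nonneg.2 this

theorem sum_mx (ξ : Fin 4 → K) (Z : Finset (Place L K)) (hZ : ∀ P, mx P ξ ≠ 1 → P ∈ Z) :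
    ∑ P ∈ Z, log (mx P ξ) = degree L ξ :=
  (finsum_eq_sum_of_support_subset (fun P : Place L K => log (mx P ξ)) (s := Z) fun P hP =>
    hZ P fun e => hP (by simp only [e, log_one])).symm

theorem ord_X (P : Place L K) (i : Fin 4) :
    ord P ξ 1 (X i : S L) = log (mx P ξ) - log (P.v (ξ i)) := by
  rw [ord, aeval_X, Nat.cast_one, one_mul]

theorem log_nonpos {x : ℤᵐ⁰} (h : x ≤ 1) : log x ≤ 0 := by
  rcases eq_or_ne x 0 with rfl | e
  · exact le_rfl
  · exact (log_le_iff_le_exp e).2 h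

variable [IsAlgClosed L] [CharZero L] [FF L K]

theorem fin (h : ξ ≠ 0) : {P : Place L K | mx P ξ ≠ 1}.Finite := by
  refine (Set.finite_iUnion (f := fun j => {P : Place L K | ξ j ≠ 0 ∧ P.v (ξ j) ≠ 1})
    fun j => ?_).subset fun P hP => ?_
  · by_cases e : ξ j = 0
    · simp [e]
    · simpa [e] using finite_supp e
  · obtain ⟨i, h1, h2, -⟩ := norm h P
    exact Set.mem_iUnion.2 ⟨i, h1, h2 ▸ hP⟩

theorem ord_fin (h : ξ ≠ 0) (n : ℕ) (G : S L) (h0 : aeval ξ G ≠ 0) :
    {P : Place L K | ord P ξ n G ≠ 0}.Finite :=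
  ((fin h).union (finite_supp h0)).subset fun P hP => by_contra fun hc => hP (by
    simp only [Set.mem_union, Set.mem_ofPred_eq, not_or, not_not] at hc
    rw [ord, hc.1, hc.2, log_one, mul_zero, sub_zero])

theorem sum_ord (h : ξ ≠ 0) (n : ℕ) (G : S L) (Z : Finset (Place L K)) (h0 : aeval ξ G ≠ 0)
    (hZ : ∀ P, ord P ξ n G ≠ 0 → P ∈ Z) : ∑ P ∈ Z, ord P ξ n G = n * degree L ξ := by
  classical
  let Y := Z ∪ (fin (L := L) h).toFinset ∪ (finite_supp (L := L) h0).toFinset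
  rw [Finset.sum_subset (s₂ := Y) (fun P hP => by simp [Y, hP])
    fun P _ hP => not_not.1 (mt (hZ P) hP)]
  simp only [ord]
  rw [Finset.sum_sub_distrib, ← Finset.mul_sum, sum_mx ξ Y (by simp +contextual [Y]),
    prod_formula h0 Y (by simp +contextual [Y]), sub_zero]

theorem red (h : ξ ≠ 0) (P : Place L K) : ∃ p : Fin 4 → L, p ≠ 0 ∧ ∀ (n : ℕ) (G : S L),
    G.IsHomogeneous n → (eval p G ≠ 0 ↔ aeval ξ G ≠ 0 ∧ ord P ξ n G = 0) := by
  obtain ⟨i, h1, -, h2, h3⟩ := norm h P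
  choose p hp using fun j => P.res (h2 j)
  refine ⟨p, fun e => ?_, fun n G hG => ?_⟩
  · have := hp i
    simp [e, h1] at this
  have k := v_sub_lt P h2 hp G
  have m0 := pow_ne_zero n (mx_ne h P)
  have e := h3 n G hG
  refine ⟨fun hc => ?_, fun ⟨a, b⟩ hc => ?_⟩
  · have c1 := P.v_const hc
    have c2 : P.v (aeval ((ξ i)⁻¹ • ξ) G) = 1 := by
      rw [← c1] at k ⊢
      exact P.v.map_eq_of_sub_lt k
    rw [c2, mul_one] at e
    exact ⟨fun z => m0 (by rw [← e, z, map_zero]), by rw [ord, e, log_pow, nsmul_eq_mul, sub_self]⟩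
  · rw [hc, map_zero, sub_zero] at k
    have a0 : P.v (aeval ξ G) ≠ 0 := by simpa using a
    have a1 : P.v (aeval ((ξ i)⁻¹ • ξ) G) ≠ 0 := fun z => a0 (by rw [e, z, mul_zero])
    have := (log_lt_iff_lt_exp a1 (a := 0)).2 k
    rw [ord, e, log_mul m0 a1, log_pow, nsmul_eq_mul] at b
    omega

theorem deg_eq (h : ξ ≠ 0) {i : Fin 4} (hi : ξ i ≠ 0) : ∃ Z : Finset (Place L K),
    (∀ P, ord P ξ 1 (X i : S L) ≠ 0 → P ∈ Z) ∧ (∀ P : Place L K, 0 ≤ ord P ξ 1 (X i : S L)) ∧
      ∑ P ∈ Z, ord P ξ 1 (X i : S L) = degree L ξ := by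
  have h0 : aeval ξ (X i : S L) ≠ 0 := by simpa using hi
  refine ⟨(ord_fin h 1 _ h0).toFinset, by simp,
    fun P => ord_nonneg h P 1 _ (isHomogeneous_X L i) h0, ?_⟩
  rw [sum_ord h 1 _ _ h0 (by simp), Nat.cast_one, one_mul]

theorem smul (h : ξ ≠ 0) (t : K) (ht : t ≠ 0) : degree L (t • ξ) = degree L ξ := by
  classical
  let Y := (fin (L := L) h).toFinset ∪ (finite_supp (L := L) ht).toFinset
  rw [← sum_mx ξ Y (by simp +contextual [Y]), ← sum_mx (t • ξ) Y fun P hP => by_contra fun hc =>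
    hP (by
      simp only [Y, Finset.mem_union, Set.Finite.mem_toFinset, Set.mem_ofPred_eq, not_or,
        not_not] at hc
      rw [mx_smul, hc.1, hc.2, one_mul]), ← zero_add (∑ P ∈ Y, log (mx P ξ)),
    ← prod_formula ht Y (by simp +contextual [Y]), ← Finset.sum_add_distrib]
  exact Finset.sum_congr rfl fun P _ => by rw [mx_smul, log_mul (by simpa using ht) (mx_ne h P)]

theorem pos (h : ξ ≠ 0) (i j : Fin 4) (ht : Transcendental L (ξ j / ξ i)) : 0 < degree L ξ := by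
  have hi : ξ i ≠ 0 := fun e => trans_ne ht (by rw [e, div_zero])
  obtain ⟨Z, h1, h2, h3⟩ := deg_eq (L := L) h hi
  obtain ⟨P, hP⟩ := exists_pole ht
  have v0 : P.v (ξ i) ≠ 0 := by simpa using hi
  rw [map_div₀, one_lt_div₀ (zero_lt_iff.2 v0)] at hP
  have : 0 < ord P ξ 1 (X i : S L) := by
    rw [ord_X, sub_pos, log_lt_log v0 (mx_ne h P)]
    exact hP.trans_le (le_mx P ξ j)
  exact h3 ▸ Finset.sum_pos' (fun Q _ => h2 Q) ⟨P, h1 P this.ne', this⟩

theorem sum_max (t : K) (β : ℕ) (h : Transcendental L t →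
    finrank (IntermediateField.adjoin L {t}) K ≤ β) (Z : Finset (Place L K)) :
    ∑ P ∈ Z, max 0 (log (P.v t)) ≤ β := by
  classical
  rcases const_or_trans (L := L) t with ⟨c, rfl⟩ | ht
  · rw [Finset.sum_eq_zero fun P _ => max_eq_left (log_nonpos (P.triv c))]
    positivity
  obtain ⟨Y, h1, h2⟩ := exists_poles ht
  refine (Finset.sum_le_sum_of_subset_of_nonneg (Finset.subset_union_left (s₂ := Y))
    fun _ _ _ => le_max_left _ _).trans ?_
  rw [← Finset.sum_subset Finset.subset_union_right fun P _ hP =>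
      max_eq_left (log_nonpos (not_lt.1 (mt (h1 P).2 hP))),
    Finset.sum_congr rfl fun P hP => max_eq_right (le_log_of_exp_le ((h1 P).1 hP).le), h2]
  exact_mod_cast h ht

theorem le_sum (h : ξ ≠ 0) (i : Fin 4) (β : ℕ) (hi : ξ i ≠ 0)
    (hb : ∀ j, Transcendental L (ξ j / ξ i) →
      finrank (IntermediateField.adjoin L {ξ j / ξ i}) K ≤ β) : degree L ξ ≤ 4 * β := by
  obtain ⟨Z, -, -, h3⟩ := deg_eq (L := L) h hi
  rw [← h3]
  refine (Finset.sum_le_sum (g := fun P : Place L K => ∑ j, max 0 (log (P.v (ξ j / ξ i))))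
    fun P _ => ?_).trans ?_
  · obtain ⟨j, hj, e, -⟩ := norm h P
    rw [ord_X, e, ← log_div (by simpa using hj) (by simpa using hi), ← map_div₀]
    exact (le_max_right _ _).trans (Finset.single_le_sum
      (f := fun j => max 0 (log (P.v (ξ j / ξ i)))) (fun _ _ => le_max_left _ _) (Finset.mem_univ j))
  · rw [Finset.sum_comm]
    refine (Finset.sum_le_card_nsmul _ _ _ fun j _ => sum_max _ β (hb j) Z).trans ?_
    simp

end DegA

theorem pDEG (L : Type u) [Field L] [IsAlgClosed L] [CharZero L] :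
    S_DEG L := fun K _ _ _ ξ h =>
  { mx_ne := DegA.mx_ne h
    mx_eq := fun P => DegA.mx_eq P ξ
    v_le := DegA.v_le h
    fin := DegA.fin h
    sum_mx := DegA.sum_mx ξ
    ord_nonneg := DegA.ord_nonneg h
    ord_fin := DegA.ord_fin h
    sum_ord := DegA.sum_ord h
    ord_mul := fun P n m G H a b => by
      simp only [ord]
      rw [map_mul, map_mul, WithZero.log_mul (by simpa using a) (by simpa using b)]
      push_cast
      ring
    red := DegA.red h
    nonneg := by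
      obtain ⟨i, hi⟩ := Function.ne_iff.1 h
      obtain ⟨Z, -, h2, h3⟩ := DegA.deg_eq (L := L) h hi
      exact h3 ▸ Finset.sum_nonneg fun P _ => h2 P
    smul := DegA.smul h
    pos := DegA.pos h
    le_sum := DegA.le_sum h }

end Pool.Agent.P.MP_6f117a_ag.Surf
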