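import Pool.Agent.P.MP_6f117a_ag.SIface

/-! Step DELTA of the proof for surfaces in projective three-space. -/

namespace Pool.Agent.P.MP_6f117a_ag.Surf

open MvPolynomial Module
open Ideal (span)
open scoped Polynomial WithZero

universe u

theorem pow_hom_delta {L : Type u} [Field L] {I : Ideal (S L)} (hI : I.IsHomogeneous (frm L))
    (k : ℕ) : (I ^ k).IsHomogeneous (frm L) := by
  induction k with
  | zero => rw [pow_zero, Ideal.one_eq_top]; exact Ideal.IsHomogeneous.top _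
  | succ k ih => rw [pow_succ]; exact ih.mul hI

theorem arith_delta (d μ j s p k e e' : ℤ) (hd : 0 ≤ d) (hk : 0 < k) (hμ : 0 ≤ μ)
    (h4 : 4 * p ^ 2 ≤ k * μ)
    (h1 : (k * s + (k * μ - 3 * p ^ 2) - (k * j - 2 * p ^ 2 + (d - 1) * p ^ 2)) * d ≤ e')
    (h2 : e' ≤ k * e) : -(μ * d ^ 2) ≤ 4 * ((j - s) * d + e) := by
  have h3 : 0 ≤ d * (k * μ) := by positivity
  have h5 : 4 * p ^ 2 * d ^ 2 ≤ k * μ * d ^ 2 := mul_le_mul_of_nonneg_right h4 (by positivity)
  refine le_of_mul_le_mul_left ?_ hk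
  nlinarith

theorem pDELTA (L : Type u) [Field L] [IsAlgClosed L] [CharZero L]
    (hSIG1 : S_SIG1 L) (hHS : S_HS L) (hSUP : S_SUP L) (hP3 : S_P3 L) (hIZ : S_IZ L) (hPI : S_PI L) (hRES1 : S_RES1 L) (hRES2 : S_RES2 L) (hRES3 : S_RES3 L) :
    S_DELTA L := by
  intro d F hF γ π μ j s P f e hL hπ hp hf hFf he
  set p := π.natDegree with hpdef
  have hnat : P.natDegree = p := hL.nat
  have hP0 : P ≠ 0 := by
    intro h
    rw [h, Polynomial.natDegree_zero] at hnat
    omega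
  have hc : P.coeff p ≠ 0 := by
    rw [← hnat]
    exact Polynomial.leadingCoeff_ne_zero.2 hP0
  obtain ⟨h3, h2, -⟩ := hL.deg p hc
  have hQ := (hPI d F hF γ π μ j P hL).1
  obtain ⟨hB, hFB, hfB⟩ := (hIZ d F hF μ j _ hQ).2.2.2.2.2 s f hf
  set B := bI F (piOf P) f with hBdef
  set k := 2 * p - 1 with hk
  have hfk : ¬F ∣ f ^ k := fun h => hFf (hF.prime.dvd_of_dvd_pow h)
  have hI : (B ^ k ⊔ span {F}).IsHomogeneous (frm L) :=
    (pow_hom_delta hB k).sup (hom_span (j := d) hF.hom)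
  have hFI : F ∈ B ^ k ⊔ span {F} := Ideal.mem_sup_right (Ideal.mem_span_singleton_self F)
  obtain ⟨e', he'⟩ := hHS d F hF _ hI hFI
    ⟨f ^ k, Ideal.mem_sup_left (Ideal.pow_mem_pow hfB k), hfk⟩
  have hle := hSUP d F hF B hB hFB ⟨f, hfB, hFf⟩ k e e' he he'
  have hCF : (C F : U1 L) ∈ K1 F :=
    (hSIG1 d F hF).le_K1 (Ideal.mem_sup_right (Ideal.mem_span_singleton_self _))
  have hmain := hP3 d F hF _ e' (s * k) _ _ (f ^ k) (disc F P p) hI hFI he' (hf.pow k) hfk
    (hRES1 d F hF μ j p P hp hnat hL.deg) (hRES2 d F hF γ π μ j P hL hπ hp) (by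
      intro g hg i
      obtain ⟨a, ha, b, hb, rfl⟩ := Submodule.mem_sup.1 hg
      obtain ⟨c, rfl⟩ := Ideal.mem_span_singleton'.1 hb
      obtain ⟨t, ht⟩ := hRES3 d F hF μ j p P f hp hnat hQ hL.deg a ha i
      refine ⟨t, ?_⟩
      have e1 : C (dF F i) ^ t * (C (a + c * F) * disc F P p) =
          C (dF F i) ^ t * (C a * disc F P p) +
            (C (dF F i) ^ t * C c * disc F P p) * (C F : U1 L) := by
        rw [map_add, map_mul]; ring
      rw [e1]
      exact add_mem ht (Ideal.mem_sup_right (Ideal.mul_mem_left _ _ hCF)))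
  have hpk : p ≤ k := by omega
  have a1 : 3 * p ^ 2 ≤ k * μ := by nlinarith
  have a2 : 2 * p ^ 2 ≤ k * j := by nlinarith
  have a3 : 1 ≤ d := by have := hF.two; omega
  rw [← hk] at hmain
  push_cast [Nat.cast_sub a1, Nat.cast_sub a2, Nat.cast_sub a3] at hmain
  by_cases hμ : μ = 3 ∧ p = 1
  · exact Or.inl hμ
  have h4 : 4 ≤ μ := by omega
  have a4 : 4 * p ^ 2 ≤ k * μ := by
    rcases Nat.eq_or_lt_of_le hp with h | h
    · have : k = 1 := by omega
      rw [this, ← h]; omega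
    · obtain ⟨q, hq⟩ : ∃ q, p = q + 2 := ⟨p - 2, by omega⟩
      have : k = 2 * q + 3 := by omega
      rw [this, hq]
      rw [hq] at h3
      nlinarith
  refine Or.inr ⟨h4, arith_delta d μ j s p k e e' (by positivity) (by
    have : 0 < k := by omega
    exact_mod_cast this) (by positivity) (by exact_mod_cast a4) ?_ hle⟩
  rw [mul_comm (k : ℤ) s]
  exact hmain

end Pool.Agent.P.MP_6f117a_ag.Surf
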