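import Pool.Agent.P.MP_6f117a_ag.SIface

/-! Step DIR2 of the proof for surfaces in projective three-space. -/

namespace Pool.Agent.P.MP_6f117a_ag.Surf

open MvPolynomial Module
open Ideal (span)
open scoped Polynomial WithZero

universe u

namespace Dir2

variable {L : Type u} [Field L]

/-- The linear form with the given coefficients. -/
noncomputable def lf {n : ℕ} : (Fin n → L) →ₗ[L] MvPolynomial (Fin n) L :=
  Fintype.linearCombination L X

theorem lf_apply {n : ℕ} (a : Fin n → L) : lf a = ∑ i, a i • (X i : MvPolynomial (Fin n) L) :=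
  Fintype.linearCombination_apply _ _ _

theorem eval_lf {n : ℕ} (a o : Fin n → L) : eval o (lf a) = a ⬝ᵥ o := by
  simp [lf_apply, dotProduct, smul_eval]

theorem lf_eq_zero {n : ℕ} {a : Fin n → L} (h : lf a = 0) : a = 0 := by
  ext i
  have h1 := eval_lf a (Pi.single i 1)
  rw [h, map_zero, dotProduct_single, mul_one] at h1
  exact h1.symm

theorem lf_hom {n : ℕ} (a : Fin n → L) : (lf a).IsHomogeneous 1 := by
  rw [lf_apply]
  refine IsHomogeneous.sum _ _ _ fun i _ => ?_
  rw [smul_eq_C_mul]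
  exact (isHomogeneous_X L i).C_mul _

theorem dd_apply (o : Fin 4 → L) (G : S L) : dd o G = ∑ i, C (o i) * pderiv i G := by
  have h : ∀ s : Finset (Fin 4), (∑ i ∈ s, o i • (pderiv i : Derivation L (S L) (S L))) G =
      ∑ i ∈ s, C (o i) * pderiv i G := by
    intro s
    induction s using Finset.induction_on with
    | empty => simp
    | insert i s hi ih =>
      rw [Finset.sum_insert hi, Finset.sum_insert hi, Derivation.add_apply, ih,
        Derivation.smul_apply, smul_eq_C_mul]
  exact h _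

theorem dd_lf (o a : Fin 4 → L) : dd o (lf a) = C (a ⬝ᵥ o) := by
  rw [lf_apply, map_sum, dotProduct, map_sum]
  refine Finset.sum_congr rfl fun i _ => ?_
  rw [Derivation.map_smul, dd_apply, Finset.sum_eq_single i]
  · simp [smul_eq_C_mul]
  · intro j _ hj
    rw [pderiv_X_of_ne hj.symm, mul_zero]
  · simp

theorem pderiv_comm {σ : Type} (i j : σ) (G : MvPolynomial σ L) :
    pderiv i (pderiv j G) = pderiv j (pderiv i G) := by
  classical
  induction G using MvPolynomial.induction_on with
  | C a => simp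
  | add p q hp hq => simp [hp, hq]
  | mul_X p k hp =>
    have h : ∀ a b : σ, pderiv a (pderiv b (X k : MvPolynomial σ L)) = 0 := by
      intro a b
      by_cases hb : k = b
      · subst hb
        simp
      · rw [pderiv_X_of_ne hb, map_zero]
    simp only [Derivation.leibniz, map_add, smul_eq_mul, h, hp]
    ring

theorem relPrime {n : ℕ} (a : Fin 2 → Fin n → L) (ha : LinearIndependent L a) :
    IsRelPrime (lf (a 0)) (lf (a 1)) := by
  rintro d ⟨e₀, h₀⟩ ⟨e₁, h₁⟩
  have hne : ∀ k, lf (a k) ≠ 0 := fun k h => ha.ne_zero k (lf_eq_zero h)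
  have hd : d ≠ 0 := fun h => hne 0 (by rw [h₀, h, zero_mul])
  have he₀ : e₀ ≠ 0 := fun h => hne 0 (by rw [h₀, h, mul_zero])
  have he₁ : e₁ ≠ 0 := fun h => hne 1 (by rw [h₁, h, mul_zero])
  have t₀ := totalDegree_mul_of_isDomain hd he₀
  have t₁ := totalDegree_mul_of_isDomain hd he₁
  have l₀ := (lf_hom (a 0)).totalDegree_le
  have l₁ := (lf_hom (a 1)).totalDegree_le
  rw [h₀] at l₀
  rw [h₁] at l₁
  by_cases h : d.totalDegree = 0
  · rw [totalDegree_eq_zero_iff_eq_C] at h
    rw [h] at hd ⊢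
    refine IsUnit.map C (isUnit_iff_ne_zero.2 fun h0 => hd ?_)
    rw [h0, map_zero]
  · exfalso
    have c₀ : e₀ = C (coeff 0 e₀) := totalDegree_eq_zero_iff_eq_C.1 (by omega)
    have c₁ : e₁ = C (coeff 0 e₁) := totalDegree_eq_zero_iff_eq_C.1 (by omega)
    have h2 : lf (coeff 0 e₁ • a 0 + (-coeff 0 e₀) • a 1) = 0 := by
      rw [map_add, map_smul, map_smul, h₀, h₁, smul_eq_C_mul, smul_eq_C_mul, map_neg, ← c₀, ← c₁]
      ring
    have h3 := Fintype.linearIndependent_iff.1 ha ![coeff 0 e₁, -coeff 0 e₀]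
      (by simpa [Fin.sum_univ_two] using lf_eq_zero h2) 0
    refine he₁ ?_
    rw [c₁]
    simpa using h3

end Dir2

open Dir2 in
theorem pDIR2 (L : Type u) [Field L] [IsAlgClosed L] [CharZero L] :
    S_DIR2 L := by
  classical
  refine ⟨fun n F T hF hT => ?_, fun p G i hi => ?_, fun o q => ?_, fun o o' G => ?_,
    fun o n G hG => ?_, dd_apply⟩
  · have h1 : F * ∏ w ∈ T, lf w ≠ 0 :=
      mul_ne_zero hF (Finset.prod_ne_zero_iff.2 fun w hw h => hT w hw (lf_eq_zero h))
    have h2 : ∃ o, eval o (F * ∏ w ∈ T, lf w) ≠ 0 := by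
      by_contra h
      push Not at h
      exact h1 (MvPolynomial.funext fun o => by rw [h o, map_zero])
    obtain ⟨o, ho⟩ := h2
    rw [map_mul, map_prod] at ho
    refine ⟨o, left_ne_zero_of_mul ho, fun w hw => ?_⟩
    rw [← eval_lf]
    exact Finset.prod_ne_zero_iff.1 (right_ne_zero_of_mul ho) w hw
  · obtain ⟨φ, h1, h2⟩ := Submodule.exists_dual_map_eq_bot_of_notMem
      (p := p.restrictScalars L) (x := pderiv i G) hi inferInstance
    refine ⟨fun j => φ (pderiv j G), fun h => h1 (congrFun h i), fun o ho hp => ho ?_⟩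
    have h3 : φ (dd o G) = 0 := by
      rw [← Submodule.mem_bot L, ← h2]
      exact Submodule.mem_map_of_mem hp
    rw [← h3, dd_apply, map_sum, dotProduct]
    refine Finset.sum_congr rfl fun j _ => ?_
    rw [← smul_eq_C_mul, map_smul, smul_eq_mul, mul_comm]
  · let T : (Fin 4 → L) →ₗ[L] L × L :=
      { toFun := fun a => (a ⬝ᵥ o, a ⬝ᵥ q)
        map_add' := fun a b => by simp [add_dotProduct]
        map_smul' := fun c a => by simp [smul_dotProduct] }
    have h1 := T.finrank_range_add_finrank_ker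
    have h2 := Submodule.finrank_le (LinearMap.range T)
    simp only [finrank_prod, finrank_self, finrank_fintype_fun_eq_card, Fintype.card_fin] at h1 h2
    obtain ⟨a, ha⟩ := exists_linearIndependent_of_le_finrank (R := L) (M := LinearMap.ker T)
      (n := 2) (by omega)
    have hk : ∀ k, (a k : Fin 4 → L) ⬝ᵥ o = 0 ∧ (a k : Fin 4 → L) ⬝ᵥ q = 0 := fun k =>
      Prod.mk_eq_zero.1 (a k).2
    refine ⟨lf (a 0), lf (a 1), lf_hom _, lf_hom _,
      relPrime (fun k => (a k : Fin 4 → L)) (ha.map' (LinearMap.ker T).subtype (by simp)),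
      ?_, ?_, ?_, ?_⟩
    · rw [dd_lf, (hk 0).1, map_zero]
    · rw [dd_lf, (hk 1).1, map_zero]
    · rw [eval_lf, (hk 0).2]
    · rw [eval_lf, (hk 1).2]
  · simp only [dd_apply, map_sum, pderiv_C_mul]
    rw [Finset.sum_comm]
    refine Finset.sum_congr rfl fun i _ => Finset.sum_congr rfl fun j _ => ?_
    rw [pderiv_comm j i]
    ring
  · rw [dd_apply]
    exact IsHomogeneous.sum _ _ _ fun i _ => hG.pderiv.C_mul _

end Pool.Agent.P.MP_6f117a_ag.Surf
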