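import Pool.Agent.P.MP_6f117a_ag.SIface

/-! Step DIRE of the proof for surfaces in projective three-space. -/

namespace Pool.Agent.P.MP_6f117a_ag.Surf

open MvPolynomial Module
open Ideal (span)
open scoped Polynomial WithZero

universe u

namespace DireA

variable {L : Type u} [Field L] {n : ℕ}

/-- a linear substitution -/
noncomputable def sub (g : Matrix (Fin n) (Fin n) L) :
    MvPolynomial (Fin n) L →ₐ[L] MvPolynomial (Fin n) L :=
  aeval fun i => ∑ j, C (g i j) * X j

theorem sub_X (g : Matrix (Fin n) (Fin n) L) (i : Fin n) :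
    sub g (X i) = ∑ j, C (g i j) * X j := aeval_X _ _

theorem sub_C (g : Matrix (Fin n) (Fin n) L) (c : L) : sub g (C c) = C c := aeval_C _ _

theorem sub_comp (g h : Matrix (Fin n) (Fin n) L) : (sub g).comp (sub h) = sub (h * g) := by
  refine algHom_ext fun i => ?_
  simp only [AlgHom.comp_apply, sub_X, map_sum, map_mul, sub_C, Matrix.mul_apply, Finset.mul_sum,
    Finset.sum_mul, mul_assoc]
  exact Finset.sum_comm

theorem sub_one : sub (1 : Matrix (Fin n) (Fin n) L) = AlgHom.id L _ := by
  refine algHom_ext fun i => ?_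
  simp [sub_X, Matrix.one_apply, apply_ite]

theorem sub_hom (g : Matrix (Fin n) (Fin n) L) {d : ℕ} {a : MvPolynomial (Fin n) L}
    (h : a.IsHomogeneous d) : (sub g a).IsHomogeneous d := by
  have := h.aeval (fun i => ∑ j, C (g i j) * X j : Fin n → MvPolynomial (Fin n) L) (n := 1)
    fun i => IsHomogeneous.sum _ _ _ fun j _ => by
      simpa using (isHomogeneous_C (Fin n) (g i j)).mul (isHomogeneous_X L j)
  rwa [one_mul] at this

/-- the substitution as an isomorphism -/
noncomputable def subE (g : Matrix (Fin n) (Fin n) L) (hg : IsUnit g.det) :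
    MvPolynomial (Fin n) L ≃ₐ[L] MvPolynomial (Fin n) L :=
  AlgEquiv.ofAlgHom (sub g) (sub g⁻¹)
    (by rw [sub_comp, Matrix.nonsing_inv_mul _ hg, sub_one])
    (by rw [sub_comp, Matrix.mul_nonsing_inv _ hg, sub_one])

theorem sub_hom_iff (g : Matrix (Fin n) (Fin n) L) (hg : IsUnit g.det) {d : ℕ}
    {a : MvPolynomial (Fin n) L} : (sub g a).IsHomogeneous d ↔ a.IsHomogeneous d :=
  ⟨fun h => by
    have := sub_hom g⁻¹ h
    rwa [← AlgHom.comp_apply, sub_comp, Matrix.mul_nonsing_inv _ hg, sub_one] at this,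
    sub_hom g⟩

theorem chain (g : Matrix (Fin n) (Fin n) L) (k : Fin n) (a : MvPolynomial (Fin n) L) :
    pderiv k (sub g a) = sub g (∑ i, C (g i k) * pderiv i a) := by
  classical
  induction a using MvPolynomial.induction_on with
  | C c => simp [sub_C]
  | add p q hp hq => simp only [map_add, hp, hq, mul_add, Finset.sum_add_distrib]
  | mul_X p i hp =>
    have e1 : pderiv k (sub g (X i)) = C (g i k) := by
      simp [sub_X, pderiv_X, Pi.single_apply, apply_ite]
    have e2 : ∑ j, C (g j k) * pderiv j (p * X i) =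
        (∑ j, C (g j k) * pderiv j p) * X i + p * C (g i k) := by
      simp only [Derivation.leibniz, smul_eq_mul, mul_add, Finset.sum_add_distrib, Finset.sum_mul,
        pderiv_X, Pi.single_apply, mul_ite, mul_one, mul_zero, Finset.sum_ite_eq, Finset.mem_univ,
        if_true]
      rw [add_comm, mul_comm p]
      congr 1
      exact Finset.sum_congr rfl fun j _ => by ring
    rw [map_mul, Derivation.leibniz, hp, e1, e2, map_add, map_mul, map_mul, sub_C, smul_eq_mul,
      smul_eq_mul]
    ring

theorem eval_sub (g : Matrix (Fin n) (Fin n) L) (x : Fin n → L) (a : MvPolynomial (Fin n) L) :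
    eval x (sub g a) = eval (g.mulVec x) a := by
  induction a using MvPolynomial.induction_on with
  | C c => simp [sub_C]
  | add p q hp hq => simp only [map_add, hp, hq]
  | mul_X p i hp => simp [hp, sub_X, Matrix.mulVec, dotProduct]

theorem der_fse (a : MvPolynomial (Fin (n + 1)) L) :
    Polynomial.derivative (finSuccEquiv L n a) = finSuccEquiv L n (pderiv 0 a) := by
  induction a using MvPolynomial.induction_on with
  | C c => simp [finSuccEquiv_apply]
  | add p q hp hq => simp only [map_add, hp, hq]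
  | mul_X p i hp =>
    rw [map_mul, Polynomial.derivative_mul, hp, Derivation.leibniz, smul_eq_mul, smul_eq_mul,
      map_add, map_mul, map_mul]
    refine Fin.cases ?_ (fun j => ?_) i
    · simp [finSuccEquiv_X_zero, add_comm, mul_comm]
    · simp [finSuccEquiv_X_succ, pderiv_X, mul_comm]

theorem wt_cons (i : ℕ) (m : Fin n →₀ ℕ) :
    Finsupp.weight (1 : Fin (n + 1) → ℕ) (m.cons i) = i + Finsupp.weight (1 : Fin n → ℕ) m := by
  simp only [Finsupp.weight_apply, Pi.one_apply, smul_eq_mul, mul_one, Finsupp.sum_cons]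

theorem hom_fse (d : ℕ) (b : MvPolynomial (Fin (n + 1)) L) : b.IsHomogeneous d ↔
    ∀ i, ((finSuccEquiv L n b).coeff i ≠ 0 → i ≤ d) ∧
      ((finSuccEquiv L n b).coeff i).IsHomogeneous (d - i) := by
  refine ⟨fun h i => ⟨fun hi => ?_, fun m hm => ?_⟩, fun h m hm => ?_⟩
  · obtain ⟨m, hm⟩ := ne_zero_iff.1 hi
    rw [finSuccEquiv_coeff_coeff] at hm
    have := h hm
    rw [wt_cons] at this
    omega
  · rw [finSuccEquiv_coeff_coeff] at hm
    have := h hm
    rw [wt_cons] at this
    omega
  · rw [← Finsupp.cons_tail m] at hm ⊢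
    rw [← finSuccEquiv_coeff_coeff] at hm
    have h1 := (h (m 0)).1 fun e => hm (by rw [e, coeff_zero])
    have h2 := (h (m 0)).2 hm
    rw [wt_cons]
    omega

theorem top_fse {d : ℕ} {b : MvPolynomial (Fin (n + 1)) L} (h : b.IsHomogeneous d) :
    (finSuccEquiv L n b).coeff d = C (eval (Fin.cons 1 0 : Fin (n + 1) → L) b) := by
  have h0 := ((hom_fse d b).1 h d).2
  rw [Nat.sub_self, ← totalDegree_zero_iff_isHomogeneous, totalDegree_eq_zero_iff_eq_C] at h0
  have e : Polynomial.map (eval (0 : Fin n → L)) (finSuccEquiv L n b) =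
      Polynomial.monomial d (coeff 0 ((finSuccEquiv L n b).coeff d)) := by
    refine Polynomial.ext fun i => ?_
    rw [Polynomial.coeff_map, Polynomial.coeff_monomial, eval_zero, constantCoeff_eq]
    split_ifs with e
    · rw [e]
    · rw [finSuccEquiv_coeff_coeff]
      by_contra hc
      have := h hc
      rw [wt_cons, map_zero] at this
      omega
  rw [eval_eq_eval_mv_eval', e, Polynomial.eval_monomial, one_pow, mul_one]
  exact h0

theorem exists_mat {o : Fin (n + 1) → L} (ho : o ≠ 0) :
    ∃ g : Matrix (Fin (n + 1)) (Fin (n + 1)) L, IsUnit g.det ∧ ∀ i, g i 0 = o i := by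
  obtain ⟨k, hk⟩ := Function.ne_iff.1 ho
  refine ⟨((1 : Matrix _ _ L).updateCol k o).submatrix id (Equiv.swap 0 k), ?_, fun i => by simp⟩
  rw [Matrix.det_permute', ← Matrix.cramer_apply, Matrix.cramer_one]
  refine IsUnit.mul ?_ (Ne.isUnit hk)
  exact (Equiv.Perm.sign (Equiv.swap 0 k)).isUnit.map (Int.castRingHom L)

end DireA

theorem pDIRE (L : Type u) [Field L] [IsAlgClosed L] [CharZero L] :
    S_DIRE L := by
  intro n o ho
  obtain ⟨g, hg, h0⟩ := DireA.exists_mat ho
  refine ⟨(DireA.subE g hg).trans (finSuccEquiv L n), fun a => ?_, fun d a => ?_, fun d a h => ?_⟩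
  · change Polynomial.derivative (finSuccEquiv L n (DireA.sub g a)) =
      finSuccEquiv L n (DireA.sub g _)
    rw [DireA.der_fse, DireA.chain]
    simp only [h0]
  · exact (DireA.sub_hom_iff g hg).symm.trans (DireA.hom_fse d _)
  · change (finSuccEquiv L n (DireA.sub g a)).coeff d = _
    rw [DireA.top_fse (DireA.sub_hom g h), DireA.eval_sub]
    congr 3
    funext i
    simp [Matrix.mulVec, dotProduct, Fin.sum_univ_succ, h0]

end Pool.Agent.P.MP_6f117a_ag.Surf
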