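import Pool.Agent.P.MP_6f117a_ag.SIface

/-! Step EXC of the proof for surfaces in projective three-space. -/

namespace Pool.Agent.P.MP_6f117a_ag.Surf

open MvPolynomial Module
open Ideal (span)
open scoped Polynomial WithZero

universe u

theorem eq_C_exc {L : Type u} [Field L] {b : ℕ} {G : U1 L} (h : G ∈ bih L w1 (0, b)) :
    G = C (coeff 0 G) := by
  classical
  ext1 m
  rw [coeff_C]
  split_ifs with e
  · rw [e]
  · by_contra hc
    have := (mem_bih'.1 h m hc).1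
    rw [show w1 = 1 from rfl, weight_one, Finsupp.degree_eq_zero_iff] at this
    exact e this.symm

theorem split_exc {A : Type u} [CommRing A] {I : Ideal A} {c : A} {Z : MvPolynomial (Fin 3) A}
    (k : Fin 3) (h : C c * eta A k + inc A Z ∈ I.map (C : A →+* MvPolynomial T2 A)) :
    c ∈ I ∧ ∀ m, coeff m Z ∈ I := by
  let φ : MvPolynomial T2 A →ₐ[A] MvPolynomial (Fin 3) A := aeval (Sum.elim X fun _ => 0)
  have h1 : ∀ G, φ (inc A G) = G := fun G => by
    simp only [φ, inc, aeval_rename]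
    exact aeval_X_left_apply G
  have h2 : Z ∈ I.map (C : A →+* MvPolynomial (Fin 3) A) := by
    have := Ideal.mem_map_of_mem φ.toRingHom h
    rw [Ideal.map_map] at this
    convert this using 1
    · exact congrArg (Ideal.map · I) (RingHom.ext fun a => (φ.commutes a).symm)
    · change Z = φ _
      rw [map_add, h1]
      simp [eta, φ]
  have h3 : inc A Z ∈ I.map (C : A →+* MvPolynomial T2 A) := by
    have := Ideal.mem_map_of_mem (inc A).toRingHom h2
    rw [Ideal.map_map] at this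
    rwa [show RingHom.comp _ C = C from RingHom.ext fun a => (inc A).commutes a] at this
  refine ⟨?_, mem_map_C_iff.1 h2⟩
  have := Ideal.mem_map_of_mem (eval (Sum.elim (Pi.single (k + 1) 1) (Pi.single (k + 2) 1)))
    ((add_mem_cancel_right h3).1 h)
  rw [Ideal.map_map, show RingHom.comp _ C = RingHom.id A from RingHom.ext fun a => eval_C a,
    Ideal.map_id] at this
  convert this using 1
  fin_cases k <;> simp [eta]

theorem num_exc {d e : ℕ} (hd : 300 ≤ d) (he : e < 40 * d) : ∃ N : ℕ,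
    (e : ℤ) * (N + 1) < (N + 3).choose 3 ∧ N < d ∧
      ∀ M : ℕ, (M * d : ℤ) ≤ 2 * e + (5 * d - 6 : ℕ) → (2 + M * N) ^ 2 ≤ 2000000 * d := by
  have h1 := Nat.sqrt_le' (240 * d)
  have h2 := Nat.lt_succ_sqrt' (240 * d)
  generalize Nat.sqrt (240 * d) = r at h1 h2
  have h3 : r + 1 < d := by nlinarith
  refine ⟨r + 1, ?_, h3, fun M hM => ?_⟩
  · have : 6 * (r + 1 + 3).choose 3 = (r + 4) * (r + 3) * (r + 2) := by
      rw [show 6 = Nat.factorial 3 from rfl, ← Nat.descFactorial_eq_factorial_mul_choose]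
      simp [Nat.descFactorial]; ring
    have h4 : 6 * (e * (r + 1 + 1)) < 6 * (r + 1 + 3).choose 3 := by
      rw [this, show 6 * (e * (r + 1 + 1)) = 6 * e * (r + 2) by ring]
      exact Nat.mul_lt_mul_of_pos_right (by nlinarith) (by omega)
    exact_mod_cast Nat.lt_of_mul_lt_mul_left h4
  · have h4 : M * d < 85 * d := by zify; omega
    have h5 : M ≤ 84 := Nat.le_of_lt_succ (Nat.lt_of_mul_lt_mul_right h4)
    calc (2 + M * (r + 1)) ^ 2 ≤ (2 + 84 * (r + 1)) ^ 2 := by gcongr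
      _ ≤ _ := by nlinarith

theorem pEXC (L : Type u) [Field L] [IsAlgClosed L] [CharZero L]
    (hSIG1 : S_SIG1 L) (hSIG2 : S_SIG2 L) (hSIG3 : S_SIG3 L) (hHFA : S_HFA L) (hHS : S_HS L) (hIZ : S_IZ L) (hPI : S_PI L) (hKOS : S_KOS L) (hMULT : S_MULT L) :
    S_EXC L := by
  classical
  intro d F hF hd hH γ π j s P f e hP hπ f1 f2 he
  have h1 := hSIG1 d F hF
  have h2 := hSIG2 d F hF
  have h3 := hSIG3 d F hF
  have ha := hHFA d F hF
  have hQ := (hPI d F hF γ π 3 j P hP).1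
  obtain ⟨b1, b2, -⟩ := (hIZ d F hF 3 j _ hQ).2.2.2.2.2 s f f1
  have lead : ∀ {R : Type u} [Semiring R] {p : R[X]}, p.natDegree = 1 → p.coeff 1 ≠ 0 :=
    fun {R _ p} h => h ▸ Polynomial.leadingCoeff_ne_zero.2 fun e => by simp [e] at h
  obtain ⟨-, hj, c1⟩ := hP.deg 1 (lead (hP.nat.trans hπ))
  have c0 : P.coeff 0 ∈ bih L w1 (3, j) := by
    by_cases h : P.coeff 0 = 0
    · rw [h]; exact zero_mem _
    · exact (hP.deg 0 h).2.2
  obtain ⟨f0, hf0, g0⟩ : ∃ f0 : S L, P.coeff 1 = C f0 ∧ f0.IsHomogeneous (j - 2) :=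
    ⟨_, eq_C_exc c1, by simpa using coeff_hom c1 0⟩
  have g1 : ¬F ∣ f0 := fun h => by
    obtain ⟨D, D0, hD⟩ := hP.spec
    have := congrArg (Polynomial.coeff · 1) hD
    simp only [GenPt.e2, Polynomial.coe_mapRingHom, Polynomial.coeff_map, hf0,
      Polynomial.coeff_C_mul] at this
    rw [show (sp1 (S L)).toRingHom (C f0) = Polynomial.C f0 from (sp1 (S L)).commutes f0,
      Polynomial.map_C, show γ.e0 f0 = 0 from (γ.ker _ _ g0).2 h, map_zero] at this
    exact mul_ne_zero (Polynomial.C_ne_zero.2 D0) (lead hπ) this.symm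
  have g2 : (f0 * dF F 2).IsHomogeneous (j - 2 + (d - 1)) := g0.mul (h1.dF_hom 2)
  have g3 : ¬F ∣ f0 * dF F 2 := fun h => (hF.prime.dvd_or_dvd h).elim g1 (h1.not_dvd_dF 2)
  have hq : piOf P = C f0 * eta (S L) 2 + inc (S L) (P.coeff 0) := by
    rw [piOf, Polynomial.eval₂_eq_sum_range, hP.nat, hπ]
    simp only [Finset.sum_range_succ, Finset.sum_range_zero, hf0]
    rw [show (inc (S L)).toRingHom (C f0) = C f0 from (inc (S L)).commutes f0]
    simp [add_comm]
  choose t t1 _ t3 using h3.sig_eta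
  let Z : Fin 3 → U1 L := fun k => C f0 * t k + sig1 F k (P.coeff 0)
  have hZ : ∀ k, sig F k (piOf P) =
      C (f0 * dF F 2 * dF F k ^ 5) * eta (S L) k + inc (S L) (Z k) := fun k => by
    rw [hq, map_add, map_mul, t3, h2.sig_inc, map_add, map_mul (inc (S L)),
      show sig F k (C f0) = C f0 from (sig F k).commutes f0,
      show inc (S L) (C f0) = C f0 from (inc (S L)).commutes f0]
    simp only [map_mul]
    ring
  have hZ' : ∀ k, ∀ z ∈ (Z k).coeffs, z.IsHomogeneous (j - 2 + (d - 1) + (5 * d - 6)) := by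
    intro k z hz
    obtain ⟨m, hm, rfl⟩ := mem_coeffs_iff.1 hz
    have : Z k ∈ bih L w1 (3, j + 2 * 3 * (d - 1)) := add_mem (by
      convert SetLike.mul_mem_graded (C_mem_bih w1 g0) (t1 k) using 2
      exact Prod.ext rfl (show _ = j - 2 + (2 + 6 * (d - 1)) by omega)) (h1.sig1_mem k _ _ _ c0)
    obtain ⟨m1, -, m2⟩ := mem_bih'.1 this m (mem_support_iff.1 hm)
    rw [show w1 = 1 from rfl, weight_one] at m1
    convert m2 using 1
    omega
  let Zs : Set (S L) := ((Z 0).coeffs ∪ (Z 1).coeffs : Finset (S L))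
  have hZs : ∀ z ∈ Zs, ∃ k, z ∈ (Z k).coeffs := fun z hz =>
    (Finset.mem_union.1 hz).elim (fun h => ⟨_, h⟩) fun h => ⟨_, h⟩
  let J : Ideal (S L) := ⨅ z ∈ Zs, (span {F, f0 * dF F 2}).colon {z}
  have mJ : ∀ b, b ∈ J ↔ ∀ z ∈ Zs, b * z ∈ span {F, f0 * dF F 2} := fun b => by
    simp only [J, Submodule.mem_iInf, Submodule.mem_colon_singleton, smul_eq_mul]
  have hJ : J.IsHomogeneous (frm L) := Ideal.IsHomogeneous.iInf₂ fun z hz =>
    let ⟨k, hk⟩ := hZs z hz
    hom_colon (by rw [Ideal.span_insert]; exact (hom_span hF.hom).sup (hom_span g2)) (hZ' k z hk)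
  have FJ : F ∈ J := (mJ _).2 fun z _ => Ideal.mul_mem_right _ _ (Ideal.subset_span (by simp))
  obtain ⟨e', he'⟩ := hHS d F hF J hJ FJ
    ⟨_, (mJ _).2 fun z _ => Ideal.mul_mem_right _ _ (Ideal.subset_span (by simp)), g3⟩
  have key : ∀ g ∈ bI F (piOf P) f, ∀ k, g * (f0 * dF F 2 * dF F k ^ 5) ∈ span {f, F} ∧
      ∀ m, g * coeff m (Z k) ∈ span {f, F} := fun g hg k => by
    have h4 : C g * piOf P ∈ span {C f} ⊔ KK F := Submodule.mem_colon_singleton.1 hg
    obtain ⟨a, a1, b, a2, a3⟩ := Submodule.mem_sup.1 h4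
    obtain ⟨a, rfl⟩ := Ideal.mem_span_singleton.1 a1
    obtain ⟨w, hw⟩ := (h2.mem_KK k b).1 a2
    have := congrArg (sig F k) a3
    rw [map_add, map_mul, map_mul, hw, hZ, show sig F k (C f) = C f from (sig F k).commutes f,
      show sig F k (C g) = C g from (sig F k).commutes g] at this
    have h5 := split_exc (I := span {f, F}) (c := g * (f0 * dF F 2 * dF F k ^ 5))
      (Z := C g * Z k) k (by
        rw [map_mul (inc (S L)), show inc (S L) (C g) = C g from (inc (S L)).commutes g,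
          C_mul, mul_assoc, ← mul_add, ← this]
        exact add_mem (Ideal.mul_mem_right _ _ (Ideal.mem_map_of_mem _ (Ideal.subset_span
          (by simp)))) (Ideal.mul_mem_right _ _ (Ideal.mem_map_of_mem _ (Ideal.subset_span
          (by simp)))))
    simpa only [coeff_C_mul] using h5
  have h6 := ha.mono _ _ _ _ (((hom_span g2).mul b1).sup (hom_span hF.hom)) (by
    obtain ⟨N, hN⟩ := hF.null
    refine sup_le (Ideal.mul_le.2 fun r hr g hg => ?_) (le_sup_right.trans (le_sat _ _))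
    obtain ⟨r, rfl⟩ := Ideal.mem_span_singleton'.1 hr
    rw [mul_assoc]
    refine Ideal.mul_mem_left _ _ (mem_sat_of_pow (dF F)
      (fun i => (sup_le_sup_right le_sup_right _ : _ ≤ _ ⊔ span {F} ⊔ _) (hN i)) fun k => ⟨5, ?_⟩)
    obtain ⟨b, w, hb⟩ := Ideal.mem_span_pair.1 (key g hg k).1
    rw [show dF F k ^ 5 * (f0 * dF F 2 * g) = f * b + w * F by linear_combination -hb]
    refine add_mem (Ideal.mem_sup_left (Ideal.mul_mem_mul (Ideal.mem_span_singleton_self f)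
      ((mJ b).2 fun z hz => ?_))) (Ideal.mem_sup_right (Ideal.mem_span_singleton'.2 ⟨w, rfl⟩))
    obtain ⟨k', hk⟩ := hZs z hz
    obtain ⟨m, -, rfl⟩ := mem_coeffs_iff.1 hk
    obtain ⟨y, w', hy⟩ := Ideal.mem_span_pair.1 ((key g hg k').2 m)
    obtain ⟨v, hv⟩ := (hF.prime.dvd_or_dvd (show F ∣ f * (b * coeff m (Z k') -
      dF F k ^ 5 * y * (f0 * dF F 2)) from ⟨f0 * dF F 2 * dF F k ^ 5 * w' - w * coeff m (Z k'), by
        linear_combination coeff m (Z k') * hb - f0 * dF F 2 * dF F k ^ 5 * hy⟩)).resolve_left f2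
    exact Ideal.mem_span_pair.2 ⟨v, dF F k ^ 5 * y, by linear_combination -hv⟩)
    (ha.shift _ _ _ _ b1 b2 g2 g3 he) (ha.shift _ _ _ _ hJ FJ f1 f2 he')
  by_contra hc
  obtain ⟨N, n1, n2, n3⟩ := num_exc (e := e') hd (by
    have : ((j - 2 + (d - 1) : ℕ) : ℤ) = j + d - 3 := by omega
    rw [this] at h6
    zify
    nlinarith)
  obtain ⟨M, b, m1, m2, m3, m4⟩ := hMULT d F hF Zs e' _ _ N _ (Finset.finite_toSet _) g2 g3
    (fun z hz => let ⟨k, hk⟩ := hZs z hz; hZ' k z hk) he' n1 n2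
  have m5 : ∀ k m, (Z k).coeffs ⊆ (Z 0).coeffs ∪ (Z 1).coeffs →
      b * coeff m (Z k) ∈ span {F, f0 * dF F 2} := fun k m h => by
    by_cases h0 : coeff m (Z k) = 0
    · rw [h0, mul_zero]; exact zero_mem _
    · exact m4 _ (h (coeff_mem_coeffs m h0))
  obtain ⟨i, i', hi⟩ := hH _ (X 0 ^ 2 * b) (n3 M m1) (mul_ne_zero (pow_ne_zero _ (X_ne_zero _)) m2)
    ((isHomogeneous_X_pow _ _).mul m3)
  refine hi (hKOS d F hF b _ (Z 0) (Z 1) g3 ((h2.inc_mem_KK _).1 ?_)
    (fun m => m5 0 m Finset.subset_union_left) (fun m => m5 1 m Finset.subset_union_right) i i')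
  have r1 : ∀ k, sig F k (piOf P) - C (dF F k) ^ (2 * 3) * piOf P ∈ KK F := fun k =>
    h2.le_KK (Ideal.mem_sup_left (h2.sig_sub k _ _ _ hQ))
  have r2 := h3.eta_rel 2
  have r3 : X (.inl 2) * cee F - X (.inr 2) * ell F ∈ KK F := h2.le_KK (Ideal.mem_sup_left (sub_mem
    (Ideal.mem_sup_right (Ideal.mem_span_singleton'.2 ⟨_, rfl⟩))
    (Ideal.mem_sup_left (Ideal.mem_span_singleton'.2 ⟨_, rfl⟩))))
  have ci : ∀ a, inc (S L) (C a) = C a := (inc (S L)).commutes
  convert add_mem (Ideal.mul_mem_left _ (C (f0 * dF F 2 * dF F 0 ^ 5 * dF F 1 ^ 5)) r3) (sub_mem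
    (Ideal.mul_mem_left _ (C (dF F 1) ^ 6) (r1 0)) (Ideal.mul_mem_left _ (C (dF F 0) ^ 6) (r1 1)))
    using 1
  rw [← r2, hZ, hZ, show (2 : Fin 3) + 1 = 0 from rfl, show (2 : Fin 3) + 2 = 1 from rfl]
  simp only [map_add, map_sub, map_mul, map_pow, ci]
  ring

end Pool.Agent.P.MP_6f117a_ag.Surf
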