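import Pool.Agent.P.MP_6f117a_ag.SIface

/-! Step FILT of the proof for surfaces in projective three-space. -/

namespace Pool.Agent.P.MP_6f117a_ag.Surf

open MvPolynomial Module
open Ideal (span)
open scoped Polynomial WithZero

universe u

namespace WFilt

variable {L : Type u} [Field L] (W : Web L)

/-- The values of reduced polynomials with coefficients of bounded degree. -/
def Q (w : ℕ) : Submodule L W.E where
  carrier := {x | ∃ p : (A2 L)[X], p.degree < W.G.degree ∧ (∀ i, (p.coeff i).totalDegree ≤ w) ∧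
    Polynomial.aeval W.u p = x}
  add_mem' := by
    rintro _ _ ⟨p, h1, h2, rfl⟩ ⟨q, h3, h4, rfl⟩
    exact ⟨p + q, (p.degree_add_le q).trans_lt (max_lt h1 h3), fun i => by
      rw [Polynomial.coeff_add]
      exact (totalDegree_add _ _).trans (max_le (h2 i) (h4 i)), map_add _ _ _⟩
  zero_mem' := ⟨0, bot_lt_iff_ne_bot.2 (Polynomial.degree_ne_bot.2 W.monic.ne_zero), by simp,
    map_zero _⟩
  smul_mem' := by
    rintro c _ ⟨p, h1, h2, rfl⟩
    exact ⟨c • p, (Polynomial.degree_smul_le c p).trans_lt h1, fun i =>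
      (totalDegree_smul_le c _).trans (h2 i), by
        rw [← algebraMap_smul (A2 L) c p, map_smul, algebraMap_smul]⟩

variable {W}

theorem mono {w w' : ℕ} (h : w ≤ w') {x : W.E} (hx : x ∈ Q W w) : x ∈ Q W w' :=
  let ⟨p, h1, h2, h3⟩ := hx; ⟨p, h1, fun i => (h2 i).trans h, h3⟩

theorem ex {x : W.E} (hx : x ∈ (Polynomial.aeval W.u : (A2 L)[X] →ₐ[A2 L] W.E).range) :
    ∃ w, x ∈ Q W w := by
  obtain ⟨p, rfl⟩ := hx
  refine ⟨(p %ₘ W.G).support.sup fun i => ((p %ₘ W.G).coeff i).totalDegree, p %ₘ W.G,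
    p.degree_modByMonic_lt W.monic, fun i => ?_,
    Polynomial.aeval_modByMonic_eq_self_of_root ((W.ker _).2 dvd_rfl)⟩
  by_cases h : i ∈ (p %ₘ W.G).support
  · exact Finset.le_sup (f := fun i => ((p %ₘ W.G).coeff i).totalDegree) h
  · simp [Polynomial.notMem_support_iff.1 h]

theorem alg_mul {w m : ℕ} {a : A2 L} (ha : a.totalDegree ≤ m) {x : W.E} (hx : x ∈ Q W w) :
    algebraMap (A2 L) W.E a * x ∈ Q W (m + w) := by
  obtain ⟨p, h1, h2, rfl⟩ := hx
  exact ⟨a • p, (Polynomial.degree_smul_le a p).trans_lt h1, fun i =>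
    (totalDegree_mul _ _).trans (add_le_add ha (h2 i)), by rw [map_smul, Algebra.smul_def]⟩

theorem eq_sum {w : ℕ} {x : W.E} (hx : x ∈ Q W w) : ∃ r : ℕ → A2 L, (∀ i, (r i).totalDegree ≤ w) ∧
    x = ∑ i ∈ Finset.range W.G.natDegree, algebraMap (A2 L) W.E (r i) * W.u ^ i := by
  obtain ⟨p, h1, h2, rfl⟩ := hx
  refine ⟨p.coeff, h2, ?_⟩
  by_cases h : p = 0
  · simp [h]
  · simp only [Polynomial.aeval_eq_sum_range' (Polynomial.natDegree_lt_natDegree h h1),
      Algebra.smul_def]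

instance (w : ℕ) : FiniteDimensional L (Q W w) :=
  Submodule.finiteDimensional_of_le (S₂ := (Finset.range W.G.natDegree).sup fun i =>
    (restrictTotalDegree (Fin 2) L w).map (LinearMap.mulRight L (W.u ^ i) ∘ₗ
      (IsScalarTower.toAlgHom L (A2 L) W.E).toLinearMap)) fun x hx => by
    obtain ⟨r, h, rfl⟩ := eq_sum hx
    exact Submodule.sum_mem _ fun i hi => (Finset.le_sup (f := fun i =>
      (restrictTotalDegree (Fin 2) L w).map (LinearMap.mulRight L (W.u ^ i) ∘ₗ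
        (IsScalarTower.toAlgHom L (A2 L) W.E).toLinearMap)) hi :)
      ⟨r i, (mem_restrictTotalDegree _ _ _).2 (h i), rfl⟩

theorem ex_all {y : ℕ → W.E}
    (h : ∀ i, y i ∈ (Polynomial.aeval W.u : (A2 L)[X] →ₐ[A2 L] W.E).range) (n : ℕ) :
    ∃ w, ∀ i ∈ Finset.range n, y i ∈ Q W w := by
  choose w hw using fun i => ex (h i)
  exact ⟨(Finset.range n).sup w, fun i hi => mono (Finset.le_sup hi) (hw i)⟩

theorem u_mem : W.u ∈ (Polynomial.aeval W.u : (A2 L)[X] →ₐ[A2 L] W.E).range :=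
  ⟨Polynomial.X, Polynomial.aeval_X _⟩

theorem bd_mul {y : W.E} (h : y ∈ (Polynomial.aeval W.u : (A2 L)[X] →ₐ[A2 L] W.E).range) :
    ∃ v, ∀ w, ∀ x ∈ Q W w, y * x ∈ Q W (w + v) := by
  obtain ⟨v, hv⟩ := ex_all (fun i => mul_mem h (pow_mem u_mem i)) W.G.natDegree
  refine ⟨v, fun w x hx => ?_⟩
  obtain ⟨r, h1, rfl⟩ := eq_sum hx
  rw [Finset.mul_sum]
  exact Submodule.sum_mem _ fun i hi => by
    rw [mul_left_comm]; exact alg_mul (h1 i) (hv i hi)

theorem der_mem (k : Fin 2) {y : W.E}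
    (h : y ∈ (Polynomial.aeval W.u : (A2 L)[X] →ₐ[A2 L] W.E).range) :
    Polynomial.aeval W.u W.G.derivative * W.d k y ∈
      (Polynomial.aeval W.u : (A2 L)[X] →ₐ[A2 L] W.E).range := by
  have h1 : ∀ p : (A2 L)[X], W.d k (Polynomial.aeval W.u p) - Polynomial.aeval W.u p.derivative *
      W.d k W.u ∈ (Polynomial.aeval W.u : (A2 L)[X] →ₐ[A2 L] W.E).range := fun p => by
    induction p using Polynomial.induction_on' with
    | add p q hp hq => convert add_mem hp hq using 1; simp only [map_add]; ring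
    | monomial n a =>
      convert mul_mem (Subalgebra.algebraMap_mem _ (pderiv k a)) (pow_mem (u_mem (W := W)) n)
        using 1
      simp [Polynomial.derivative_monomial, Polynomial.aeval_monomial, W.der]
      ring
  have h2 := h1 W.G
  rw [(W.ker _).2 dvd_rfl, map_zero, zero_sub, neg_mem_iff] at h2
  obtain ⟨p, rfl⟩ := h
  convert add_mem (mul_mem (AlgHom.mem_range_self _ W.G.derivative) (h1 p))
    (mul_mem (AlgHom.mem_range_self _ p.derivative) h2) using 1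
  change _ * W.d k (Polynomial.aeval W.u p) = _
  ring

theorem deg_pderiv (k : Fin 2) (a : A2 L) : (pderiv k a).totalDegree ≤ a.totalDegree := by
  rw [a.as_sum, map_sum, ← a.as_sum]
  refine totalDegree_finsetSum_le fun m hm => ?_
  rw [pderiv_monomial]
  refine (totalDegree_monomial_le _ _).trans (le_trans ?_ (le_totalDegree hm))
  exact Finsupp.sum_le_sum_index tsub_le_self (fun _ _ => monotone_id) fun _ _ => rfl

theorem bd_der (k : Fin 2) : ∃ v, ∀ w, ∀ x ∈ Q W w,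
    Polynomial.aeval W.u W.G.derivative * W.d k x ∈ Q W (w + v) := by
  obtain ⟨v, hv⟩ := ex_all (fun i => mul_mem (AlgHom.mem_range_self _ W.G.derivative)
    (pow_mem (u_mem (W := W)) i)) W.G.natDegree
  obtain ⟨v', hv'⟩ := ex_all (fun i => der_mem k (pow_mem (u_mem (W := W)) i)) W.G.natDegree
  refine ⟨v + v', fun w x hx => ?_⟩
  obtain ⟨r, h1, rfl⟩ := eq_sum hx
  rw [map_sum, Finset.mul_sum]
  refine Submodule.sum_mem _ fun i hi => ?_
  convert add_mem (mono (show _ ≤ w + (v + v') by omega) (alg_mul (h1 i) (hv' i hi))) (mono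
    (show _ ≤ w + (v + v') by omega) (alg_mul ((deg_pderiv k _).trans (h1 i)) (hv i hi))) using 1
  rw [Derivation.leibniz, W.der, smul_eq_mul, smul_eq_mul]
  ring

theorem alg_ne {a : A2 L} (h : a ≠ 0) : algebraMap (A2 L) W.E a ≠ 0 := fun e =>
  (Polynomial.natDegree_le_of_dvd ((W.ker (Polynomial.C a)).1 (by simpa using e))
    (Polynomial.C_ne_zero.2 h)).not_gt (by simpa using W.deg_pos)

theorem div {f s : A2 L} (hf : Prime f) (hs : ¬f ∣ s) {w : ℕ} {x y : W.E}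
    (hx : algebraMap (A2 L) W.E f ^ 2 * x ∈ Q W (2 * f.totalDegree + w))
    (hy : y ∈ (Polynomial.aeval W.u : (A2 L)[X] →ₐ[A2 L] W.E).range)
    (h : algebraMap (A2 L) W.E s * x = y) : x ∈ Q W w := by
  obtain ⟨p, h1, h2, h3⟩ := hx
  obtain ⟨_, q, h4, -, rfl⟩ := ex hy
  have h5 : s • p - f ^ 2 • q = 0 := Polynomial.eq_zero_of_dvd_of_degree_lt ((W.ker _).1 (by
      rw [map_sub, map_smul, map_smul, h3, ← h, Algebra.smul_def, Algebra.smul_def, map_pow]
      ring)) ((Polynomial.degree_sub_le _ _).trans_lt (max_lt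
    ((Polynomial.degree_smul_le _ _).trans_lt h1) ((Polynomial.degree_smul_le _ _).trans_lt h4)))
  obtain ⟨r, rfl⟩ := (Polynomial.C_dvd_iff_dvd_coeff (f ^ 2) p).2 fun i =>
    hf.pow_dvd_of_dvd_mul_left 2 hs ⟨q.coeff i, by
      simpa [sub_eq_zero] using congrArg (Polynomial.coeff · i) h5⟩
  rw [Polynomial.degree_C_mul (pow_ne_zero 2 hf.ne_zero)] at h1
  refine ⟨r, h1, fun i => ?_, mul_left_cancel₀ (pow_ne_zero 2 (alg_ne hf.ne_zero)) (by
    rw [← h3]; simp)⟩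
  by_cases e : r.coeff i = 0
  · simp [e]
  have := h2 i
  rw [Polynomial.coeff_C_mul, sq, totalDegree_mul_of_isDomain (mul_ne_zero hf.ne_zero hf.ne_zero) e,
    totalDegree_mul_of_isDomain hf.ne_zero hf.ne_zero] at this
  omega

end WFilt

open WFilt in
theorem pFILT (L : Type u) [Field L] [IsAlgClosed L] [CharZero L] :
    S_FILT L := by
  intro W
  have hu := u_mem (W := W)
  have hΓ := AlgHom.mem_range_self (Polynomial.aeval W.u) W.G.derivative
  have hg := (Polynomial.aeval W.u : (A2 L)[X] →ₐ[A2 L] W.E).range.algebraMap_mem W.g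
  have g0 := alg_ne (W := W) W.g_ne
  have Γ0 : Polynomial.aeval W.u W.G.derivative ≠ 0 := fun e => by
    obtain ⟨b, hb⟩ := W.Δ_eq
    exact alg_ne W.Δ_ne (by rw [← hb, map_mul, e, mul_zero])
  obtain ⟨v0, h0⟩ := bd_der (W := W) 0
  obtain ⟨v1, h1⟩ := bd_der (W := W) 1
  obtain ⟨v2, h2⟩ := bd_mul (mul_mem (mul_mem hg hg) hΓ)
  obtain ⟨v3, h3⟩ := bd_mul (mul_mem (mul_mem hg hu) hΓ)
  obtain ⟨v4, h4⟩ := bd_mul (sub_mem (mul_mem hΓ (sub_mem (mul_mem hg (der_mem 1 hu))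
    (mul_mem hu (der_mem 1 hg)))) (mul_mem hg (add_mem (mul_mem hg (der_mem 0 hΓ))
      (mul_mem hu (der_mem 1 hΓ)))))
  obtain ⟨v5, h5⟩ := bd_mul hΓ
  obtain ⟨v6, h6⟩ := ex_all (fun k => AlgHom.mem_range_self (Polynomial.aeval W.u)
    (W.G /ₘ Polynomial.X ^ (k + 1))) W.G.natDegree
  have hz : W.z = W.u / algebraMap (A2 L) W.E W.g := rfl
  set Γ := Polynomial.aeval W.u W.G.derivative with eΓ
  set g := algebraMap (A2 L) W.E W.g
  refine ⟨(Q W (W.c * W.G.natDegree + v0 + v1 + v2 + v3 + v4 + v5 + v6)).map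
    (LinearMap.mulLeft L (g ^ 2 * Γ ^ 3)⁻¹), inferInstance, fun f h hf _ _ hr ⟨s, p, s1, s2⟩ => ?_⟩
  refine ⟨g ^ 2 * Γ ^ 3 * W.Lop (W.kap f h), div hf s1 ?_ (mul_mem (mul_mem (pow_mem hg 2)
    (pow_mem hΓ 3)) (AlgHom.mem_range_self _ p)) (by rw [← s2]; ring),
    inv_mul_cancel_left₀ (mul_ne_zero (pow_ne_zero _ g0) (pow_ne_zero _ Γ0)) _⟩
  obtain ⟨ψ, e, hψ⟩ : ∃ ψ, W.kap f h = ψ / (algebraMap (A2 L) W.E f * Γ) ∧
      ψ ∈ Q W (f.totalDegree + W.c * W.G.natDegree + v6) :=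
    ⟨_, rfl, Submodule.sum_mem _ fun k hk => by
      rw [mul_comm (Polynomial.aeval _ _)]
      exact alg_mul ((hr k).1.trans (add_le_add_right
        (Nat.mul_le_mul_left _ (Finset.mem_range.1 hk).le) _)) (h6 k hk)⟩
  have f0 := alg_ne (W := W) hf.ne_zero
  have m : ∀ {x a w}, a.totalDegree ≤ f.totalDegree → x ∈ Q W w →
      w ≤ f.totalDegree + (W.c * W.G.natDegree + v0 + v1 + v2 + v3 + v4 + v5 + v6) →
      algebraMap (A2 L) W.E a * x ∈ Q W (2 * f.totalDegree +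
        (W.c * W.G.natDegree + v0 + v1 + v2 + v3 + v4 + v5 + v6)) := fun h1 h2 h3 =>
    mono (by omega) (alg_mul h1 h2)
  convert sub_mem (sub_mem (add_mem (add_mem (m le_rfl (h2 _ _ (h0 _ _ hψ)) (by omega))
    (m le_rfl (h3 _ _ (h1 _ _ hψ)) (by omega))) (m le_rfl (h4 _ _ hψ) (by omega)))
    (m (deg_pderiv 0 f) (h2 _ _ (h5 _ _ hψ)) (by omega)))
    (m (deg_pderiv 1 f) (h3 _ _ (h5 _ _ hψ)) (by omega)) using 1
  simp only [Web.Lop, Web.D, e, hz, Derivation.leibniz_div, Derivation.leibniz, smul_eq_mul,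
    ← W.der]
  field_simp
  ring

end Pool.Agent.P.MP_6f117a_ag.Surf
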