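import Pool.Agent.P.MP_6f117a_ag.SIface

/-! Step FIN of the proof for surfaces in projective three-space. -/

namespace Pool.Agent.P.MP_6f117a_ag.Surf

open MvPolynomial Module
open Ideal (span)
open scoped Polynomial WithZero

universe u

namespace FinAux

variable {L : Type u} [Field L] {K : Type u} [Field K] [Algebra L K]

theorem aeval_scale {F : S L} {d : ℕ} (hF : F.IsHomogeneous d) (t : K) (x : Fin 4 → K) :
    aeval (t • x) F = t ^ d * aeval x F := by
  rw [aeval_def, aeval_def, eval₂_eq', eval₂_eq', Finset.mul_sum]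
  refine Finset.sum_congr rfl fun m hm => ?_
  have hdeg : m.degree = d := by
    by_contra hc
    exact mem_support_iff.1 hm (hF.coeff_eq_zero hc)
  simp only [Pi.smul_apply, smul_eq_mul, mul_pow, Finset.prod_mul_distrib,
    Finset.prod_pow_eq_pow_sum, ← Finsupp.degree_eq_sum, hdeg]
  ring

theorem On.scale {F : S L} {N : ℕ} {x : Fin 4 → K} {t : K} (ht : t ≠ 0) (h : On F N (t • x)) :
    On F N x := by
  obtain ⟨n, hn, G, h1, h2, h3⟩ := h
  rw [aeval_scale h1] at h3
  exact ⟨n, hn, G, h1, h2, (mul_eq_zero.1 h3).resolve_left (pow_ne_zero _ ht)⟩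

theorem On.mono {F : S L} {N M : ℕ} {x : Fin 4 → K} (h : On F N x) (hM : N ≤ M) : On F M x := by
  obtain ⟨n, hn, h⟩ := h
  exact ⟨n, hn.trans hM, h⟩

variable [IsAlgClosed L] [CharZero L]

theorem step1 (hDEG : S_DEG L) {d : ℕ} {F : S L} (hF : Good d F) (h1 : Sig1 d F) {α N : ℕ}
    (H : ∀ c : Cv F, True → degree L c.y ≤ α * genus L c.K ∨ On F N c.y) [FF L K]
    {x : Fin 4 → K} (hx : x ≠ 0) (hF0 : aeval x F = 0) :
    degree L x ≤ α * genus L K ∨ On F (N + 1) x := by
  have two := hF.two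
  by_cases h0 : x 0 = 0
  · exact .inr ⟨1, by omega, X 0, isHomogeneous_X L 0,
      h1.not_dvd 1 _ two (X_ne_zero 0) (isHomogeneous_X L 0), by simpa using h0⟩
  have hi : (x 0)⁻¹ ≠ 0 := inv_ne_zero h0
  have y0 : ((x 0)⁻¹ • x) 0 = 1 := by simp [h0]
  rcases const_or_trans (L := L) (((x 0)⁻¹ • x) 1) with ⟨c, hc⟩ | ht
  · have hh : (X 1 - C c * X 0 : S L).IsHomogeneous 1 :=
      (isHomogeneous_X L 1).sub (isHomogeneous_C_mul_X c 0)
    refine .inr (On.scale hi ⟨1, by omega, X 1 - C c * X 0, hh, h1.not_dvd 1 _ two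
      (fun e => ?_) hh, ?_⟩)
    · simpa using congrArg (eval (Pi.single 1 1)) e
    · rw [map_sub, map_mul, aeval_X, aeval_X, aeval_C, y0, hc, mul_one, sub_self]
  · obtain ⟨D, hD, -⟩ := exists_dt ht
    rcases H ⟨K, (x 0)⁻¹ • x, D, y0, by rw [aeval_scale hF.hom, hF0, mul_zero], hD⟩ trivial
      with h | h
    · exact .inl (((hDEG K x hx).smul _ hi).symm.trans_le h)
    · exact .inr (On.mono (On.scale hi h) (by omega))

theorem rank_le (hBND2 : S_BND2 L) {d : ℕ} {F : S L} (hF : F.IsHomogeneous d)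
    (hN : NoLowGenus F) [FF L K] (h2 : Algebra.trdeg L K = 1) {x : Fin 4 → K} (hx : x ≠ 0)
    (hF0 : aeval x F = 0) : finrank (ratios L x) K ≤ 2 * genus L K := by
  by_cases hE : ratios L x = ⊥
  · rw [hE, IntermediateField.finrank_bot', finrank_of_not_finite fun h => ?_]
    · omega
    · rw [trdeg_eq_zero_iff.2 inferInstance] at h2
      exact zero_ne_one h2
  refine hBND2 K _ hE ?_
  by_contra hg
  obtain ⟨i, hi⟩ := Function.ne_iff.1 hx
  have hi : x i ≠ 0 := hi
  have mem : ∀ k l, x k / x l ∈ ratios L x := fun k l =>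
    IntermediateField.subset_adjoin _ _ ⟨k, l, rfl⟩
  have fg : (⊤ : IntermediateField L (ratios L x)).FG := by
    rw [IntermediateField.fg_top_iff, IntermediateField.essFiniteType_iff]
    refine IntermediateField.fg_adjoin_of_finite
      ((Set.finite_range fun p : Fin 4 × Fin 4 => x p.1 / x p.2).subset ?_)
    rintro _ ⟨k, l, rfl⟩
    exact ⟨(k, l), rfl⟩
  have tr : Algebra.trdeg L (ratios L x) = 1 := by
    refine le_antisymm (h2 ▸ trdeg_le_of_injective (ratios L x).val Subtype.val_injective) ?_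
    rw [Cardinal.one_le_iff_ne_zero, Ne, trdeg_eq_zero_iff]
    intro h
    refine hE (eq_bot_iff.2 fun w hw => ?_)
    rcases const_or_trans (L := L) w with ⟨c, hc⟩ | ht
    · exact IntermediateField.mem_bot.2 ⟨c, hc⟩
    · exact absurd ((h.isAlgebraic ⟨w, hw⟩).algHom (ratios L x).val) ht
  obtain ⟨c, g, hc⟩ := hN (ratios L x) fg tr (by omega) (fun k => ⟨_, mem k i⟩)
    (fun e => by simpa [hi] using congrArg Subtype.val (congrFun e i))
    ((map_eq_zero (ratios L x).val).1 ((MvPolynomial.comp_aeval_apply _ _ _).trans (by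
      have := aeval_scale hF (x i)⁻¹ x
      rw [hF0, mul_zero] at this
      rw [← this]
      congr 2
      funext k
      simp [div_eq_inv_mul])))
  have hc' : ∀ k, x k / x i = c k • (g : K) := fun k => congrArg Subtype.val (hc k)
  have g0 : (g : K) ≠ 0 := fun e => by simpa [e, hi] using hc' i
  refine hE (eq_bot_iff.2 (IntermediateField.adjoin_le_iff.2 ?_))
  rintro _ ⟨k, l, rfl⟩
  refine IntermediateField.mem_bot.2 ⟨c k / c l, ?_⟩
  rw [← div_div_div_cancel_right₀ hi, hc', hc', Algebra.smul_def, Algebra.smul_def,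
    mul_div_mul_right _ _ g0, map_div₀]

end FinAux

open FinAux in
theorem pFIN (L : Type u) [Field L] [IsAlgClosed L] [CharZero L]
    (hSIG1 : S_SIG1 L) (hDEG : S_DEG L) (hBND1 : S_BND1 L) (hBND2 : S_BND2 L) :
    S_FIN L := by
  rintro d F hF ⟨α, N, H⟩
  obtain ⟨β, hβ⟩ := hBND1 d F hF (N + 1)
  refine ⟨⟨α, β, fun K _ _ h1 h2 x hx hF0 hr => ?_⟩,
    fun hN => ⟨α + 2 * β, fun K _ _ h1 h2 x hx hF0 => ?_⟩⟩
  · have := FF.of_fg h1 h2.le
    have key : degree L x ≤ α * genus L K + β := by
      rcases step1 hDEG hF (hSIG1 d F hF) H hx hF0 with h | h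
      · omega
      · have := hβ K x hx hF0 h
        rw [ratios, hr, IntermediateField.finrank_top] at this
        have : (0 : ℤ) ≤ α * genus L K := by positivity
        omega
    exact_mod_cast key
  · have := FF.of_fg h1 h2.le
    have key : degree L x ≤ (α + 2 * β) * genus L K := by
      rcases step1 hDEG hF (hSIG1 d F hF) H hx (hF0 ()) with h | h
      · have : (0 : ℤ) ≤ β * genus L K := by positivity
        linarith
      · have h3 := hβ K x hx (hF0 ()) h
        have h4 : (finrank (ratios L x) K : ℤ) ≤ 2 * genus L K := by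
          exact_mod_cast rank_le hBND2 hF.hom hN h2 hx (hF0 ())
        have h5 := mul_le_mul_of_nonneg_left h4 (Int.natCast_nonneg β)
        have : (0 : ℤ) ≤ α * genus L K := by positivity
        linarith
    exact_mod_cast key

end Pool.Agent.P.MP_6f117a_ag.Surf
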