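import Pool.Agent.P.MP_6f117a_ag.SIface

/-! Step FINT of the proof for surfaces in projective three-space. -/

namespace Pool.Agent.P.MP_6f117a_ag.Surf

open MvPolynomial Module
open Ideal (span)
open scoped Polynomial WithZero

universe u

namespace Fint

variable {L : Type u} [Field L]

/-- The chain rule, uniformly in the target. -/
theorem chain (t : A2 L → (A2 L)[X]) (r : (A2 L)[X]) : ∃ r₁ : (A2 L)[X],
    ∀ (F : Type u) [CommRing F] [Algebra L F] (θ : (A2 L)[X] →+* F) (D : Derivation L F F),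
      (∀ a, D (θ (Polynomial.C a)) = θ (t a)) →
        D (θ r) = θ r₁ + θ r.derivative * D (θ Polynomial.X) := by
  induction r using Polynomial.induction_on with
  | C a => exact ⟨t a, fun F _ _ θ D h => by simp [h]⟩
  | add p q hp hq =>
    obtain ⟨p₁, hp⟩ := hp
    obtain ⟨q₁, hq⟩ := hq
    refine ⟨p₁ + q₁, fun F _ _ θ D h => ?_⟩
    rw [map_add, map_add, hp F θ D h, hq F θ D h, map_add, map_add, map_add]
    ring
  | monomial n a ih =>
    obtain ⟨p₁, hp⟩ := ih
    refine ⟨p₁ * Polynomial.X, fun F _ _ θ D h => ?_⟩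
    rw [pow_succ, ← mul_assoc, Polynomial.derivative_mul, Polynomial.derivative_X, map_mul θ,
      Derivation.leibniz, hp F θ D h]
    simp only [smul_eq_mul, map_add, map_mul, map_one]
    ring

/-- The derivative of a quotient vanishes if and only if one polynomial identity holds. -/
theorem quot (t : A2 L → (A2 L)[X]) (G p q : (A2 L)[X]) : ∃ r : (A2 L)[X],
    ∀ (F : Type u) [CommRing F] [Algebra L F] (θ : (A2 L)[X] →+* F) (D : Derivation L F F),
      (∀ a, D (θ (Polynomial.C a)) = θ (t a)) → θ G = 0 → ∀ x, θ q * x = θ p →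
        θ r = θ q ^ 2 * θ G.derivative * D x := by
  obtain ⟨G₁, hG⟩ := chain t G
  obtain ⟨p₁, hp⟩ := chain t p
  obtain ⟨q₁, hq⟩ := chain t q
  refine ⟨q * (G.derivative * p₁ - p.derivative * G₁) - p * (G.derivative * q₁ - q.derivative * G₁),
    fun F _ _ θ D h h0 x hx => ?_⟩
  have a1 := hG F θ D h
  have a2 := hp F θ D h
  have a3 := hq F θ D h
  rw [h0, map_zero] at a1
  rw [← hx, Derivation.leibniz, a3] at a2
  simp only [smul_eq_mul] at a2
  simp only [map_sub, map_mul, ← hx]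
  linear_combination (θ q * θ p.derivative - θ q * x * θ q.derivative) * a1 -
    θ q * θ G.derivative * a2

theorem der_aeval {K : Type u} [Field K] [Algebra L K] (y : Fin 2 → K) (δ : Derivation L K K)
    (a : A2 L) : δ (aeval y a) = aeval y (pderiv 0 a) * δ (y 0) + aeval y (pderiv 1 a) * δ (y 1) := by
  induction a using MvPolynomial.induction_on with
  | C a => simp
  | add p q hp hq => simp only [map_add, hp, hq]; ring
  | mul_X p i hp =>
    simp only [map_mul, aeval_X, Derivation.leibniz, hp, smul_eq_mul, map_add, pderiv_X]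
    fin_cases i <;> simp <;> ring

theorem inj (W : Web L) {a : A2 L} (h : algebraMap (A2 L) W.E a = 0) : a = 0 := by
  have h1 : W.G ∣ Polynomial.C a := (W.ker _).1 (by simpa using h)
  by_contra h0
  have := Polynomial.natDegree_le_of_dvd h1 (by simpa using h0)
  rw [Polynomial.natDegree_C] at this
  have := W.deg_pos
  omega

/-- A nonconstant element satisfies an equation without constant roots. -/
theorem exists_eq (W : Web L) (x : W.E) (hx : ∀ c, algebraMap L W.E c ≠ x) :
    ∃ P : (A2 L)[X], Polynomial.aeval x P = 0 ∧ ∀ c : L, P.eval (C c) ≠ 0 := by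
  classical
  obtain ⟨s, p, hs, hsp⟩ := W.frac x
  have hu : IsIntegral (A2 L) W.u := ⟨W.G, W.monic, (W.ker _).2 dvd_rfl⟩
  have hp : IsIntegral (A2 L) (Polynomial.aeval W.u p) :=
    adjoin_le_integralClosure hu (Polynomial.aeval_mem_adjoin_singleton _ _)
  have hal : IsAlgebraic (A2 L) x := by
    refine IsAlgebraic.of_smul (mem_nonZeroDivisors_of_ne_zero hs) ?_
    rw [Algebra.smul_def, hsp]
    exact hp.isAlgebraic
  have hex : ∃ n, ∃ P : (A2 L)[X], P ≠ 0 ∧ Polynomial.aeval x P = 0 ∧ P.natDegree = n := by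
    obtain ⟨P, h1, h2⟩ := hal
    exact ⟨_, P, h1, h2, rfl⟩
  obtain ⟨P, h1, h2, h3⟩ := Nat.find_spec hex
  refine ⟨P, h2, fun c hc => ?_⟩
  obtain ⟨Q, rfl⟩ := Polynomial.dvd_iff_isRoot.2 hc
  have hQ : Q ≠ 0 := right_ne_zero_of_mul h1
  rw [map_mul, mul_eq_zero] at h2
  rcases h2 with h2 | h2
  · refine hx c ?_
    rw [map_sub, Polynomial.aeval_X, Polynomial.aeval_C, sub_eq_zero] at h2
    rw [h2, IsScalarTower.algebraMap_apply L (A2 L) W.E]
    rfl
  · refine Nat.find_min hex (m := Q.natDegree) ?_ ⟨Q, hQ, h2, rfl⟩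
    rw [← h3, Polynomial.natDegree_mul (Polynomial.X_sub_C_ne_zero _) hQ,
      Polynomial.natDegree_X_sub_C]
    omega

theorem deg_eval (P : (A2 L)[X]) : ∃ M, ∀ c : L, (P.eval (C c)).totalDegree ≤ M := by
  refine ⟨(Finset.range (P.natDegree + 1)).sup fun i => (P.coeff i).totalDegree, fun c => ?_⟩
  rw [Polynomial.eval_eq_sum_range]
  refine totalDegree_finsetSum_le fun i hi => (totalDegree_mul _ _).trans ?_
  rw [← map_pow, totalDegree_C, add_zero]
  exact Finset.le_sup (f := fun i => (P.coeff i).totalDegree) hi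

end Fint

open Fint in
theorem pFINT (L : Type u) [Field L] [IsAlgClosed L] [CharZero L] :
    S_FINT L := by
  intro W x hx hD
  obtain ⟨s, p, hs, hsp⟩ := W.frac x
  obtain ⟨P, hP, hPc⟩ := exists_eq W x hx
  obtain ⟨M, hM⟩ := deg_eval P
  obtain ⟨b, hb⟩ := W.Δ_eq
  obtain ⟨r, hr⟩ := quot (fun a => Polynomial.C (W.g * pderiv 0 a) +
    Polynomial.X * Polynomial.C (pderiv 1 a)) W.G p (Polynomial.C s)
  have hg : algebraMap (A2 L) W.E W.g ≠ 0 := fun h => W.g_ne (inj W h)
  have hrE : Polynomial.aeval W.u r = 0 := by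
    have := hr W.E (Polynomial.aeval W.u : (A2 L)[X] →ₐ[A2 L] W.E)
      (algebraMap (A2 L) W.E W.g • W.d 0 + W.u • W.d 1) (fun a => by
        simp only [Derivation.add_apply, Derivation.smul_apply, smul_eq_mul, RingHom.coe_coe,
          Polynomial.aeval_C, Polynomial.aeval_X, map_add, map_mul, W.der])
      ((W.ker _).2 dvd_rfl) x (by simpa using hsp)
    have e : (algebraMap (A2 L) W.E W.g • W.d 0 + W.u • W.d 1) x =
        algebraMap (A2 L) W.E W.g * W.D x := by
      simp only [Derivation.add_apply, Derivation.smul_apply, smul_eq_mul, Web.D, Web.z]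
      field_simp
    rw [e, hD] at this
    simpa using this
  refine ⟨M + s.totalDegree + W.g.totalDegree + W.Δ.totalDegree, fun c hc => ?_⟩
  by_cases h1 : c.e0 s = 0
  · exact ⟨s, hs, by omega, h1⟩
  by_cases h2 : c.e0 W.g = 0
  · exact ⟨W.g, W.g_ne, by omega, h2⟩
  by_cases h3 : c.e0 W.Δ = 0
  · exact ⟨W.Δ, W.Δ_ne, by omega, h3⟩
  let χ : (A2 L)[X] →+* c.K := Polynomial.eval₂RingHom c.e0 (c.e0 W.g * c.δ (c.y 1))
  have hC : ∀ a, χ (Polynomial.C a) = c.e0 a := fun a => Polynomial.eval₂_C _ _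
  have hX : χ Polynomial.X = c.e0 W.g * c.δ (c.y 1) := Polynomial.eval₂_X _ _
  have hG : χ W.G = 0 := hc
  have tr : ∀ q, Polynomial.aeval W.u q = 0 → χ q = 0 := fun q hq => by
    obtain ⟨q', rfl⟩ := (W.ker q).1 hq
    rw [map_mul, hG, zero_mul]
  have hΓ : χ W.G.derivative ≠ 0 := fun h => h3 (by
    have := tr (b * W.G.derivative - Polynomial.C W.Δ) (by rw [map_sub, hb]; simp)
    rw [map_sub, map_mul, h, hC] at this
    simpa using this)
  have hxC : c.e0 s * (χ p / c.e0 s) = χ p := mul_div_cancel₀ _ h1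
  have hδ := hr c.K χ (c.e0 W.g • c.δ) (fun a => by
    rw [map_add, map_mul χ, hC, hC, hC, hX, map_mul, Derivation.smul_apply, smul_eq_mul]
    have := der_aeval c.y c.δ a
    rw [c.dt] at this
    change c.δ (c.e0 a) = c.e0 (pderiv 0 a) * 1 + c.e0 (pderiv 1 a) * c.δ (c.y 1) at this
    rw [this]
    ring) hG (χ p / c.e0 s) (by rw [hC, hxC])
  rw [tr r hrE, hC, Derivation.smul_apply, smul_eq_mul] at hδ
  have hδ0 : c.δ (χ p / c.e0 s) = 0 := by simpa [h1, h2, hΓ] using hδ
  obtain ⟨l, hl⟩ := c.const _ hδ0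
  have hl' : c.e0 (C l) = χ p / c.e0 s := by rw [← hl]; exact aeval_C _ _
  have h4 := tr ((P.scaleRoots s).comp p) (by
    rw [Polynomial.aeval_comp, ← hsp, Polynomial.aeval_def, Polynomial.scaleRoots_eval₂_mul,
      ← Polynomial.aeval_def, hP, mul_zero])
  have h5 : χ ((P.scaleRoots s).comp p) = (P.scaleRoots s).eval₂ c.e0 (χ p) :=
    Polynomial.eval₂_comp _
  rw [h5, ← hxC, Polynomial.scaleRoots_eval₂_mul, ← hl', Polynomial.eval₂_at_apply] at h4
  exact ⟨P.eval (C l), hPc l, (hM l).trans (by omega),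
    (mul_eq_zero.1 h4).resolve_left (pow_ne_zero _ h1)⟩

end Pool.Agent.P.MP_6f117a_ag.Surf
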