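import Pool.Agent.P.MP_6f117a_ag.SIface

/-! Step FREE of the proof for surfaces in projective three-space. -/

namespace Pool.Agent.P.MP_6f117a_ag.Surf

open MvPolynomial Module
open Ideal (span)
open scoped Polynomial WithZero

universe u

theorem last_mem_free {L : Type u} [Field L] {d : ℕ} {F : S L} (g : Good d F) {I : Ideal (S L)}
    (hF : F ∈ I) (h : ∀ i : Fin 4, i ≠ 3 → X i ∈ I) : X 3 ^ d ∈ I := by
  classical
  have h3 : coeff (Finsupp.single 3 d) F ≠ 0 := g.mon 2
  have h1 : ∑ m ∈ F.support.erase (Finsupp.single 3 d), monomial m (coeff m F) ∈ I := by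
    refine I.sum_mem fun m hm => ?_
    obtain ⟨h4, h5⟩ := Finset.mem_erase.1 hm
    have h6 := g.hom (mem_support_iff.1 h5)
    rw [weight_one, Finsupp.degree_eq_sum, Fin.sum_univ_four] at h6
    obtain ⟨i, hi, hm⟩ : ∃ i : Fin 4, i ≠ 3 ∧ m i ≠ 0 := by
      by_contra hc
      push Not at hc
      have a0 := hc 0 (by decide)
      have a1 := hc 1 (by decide)
      have a2 := hc 2 (by decide)
      refine h4 (Finsupp.ext fun j => ?_)
      fin_cases j <;> simp [a0, a1, a2]
      omega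
    exact I.mem_of_dvd (X_dvd_monomial.2 (Or.inr hm)) (h i hi)
  rw [F.as_sum, ← Finset.add_sum_erase _ _ (mem_support_iff.2 h3)] at hF
  have h2 := I.mul_mem_left (C (coeff (Finsupp.single 3 d) F)⁻¹) ((I.add_mem_iff_left h1).1 hF)
  rwa [C_mul_monomial, inv_mul_cancel₀ h3, ← X_pow_eq_monomial] at h2

theorem pFREE (L : Type u) [Field L] [IsAlgClosed L] [CharZero L]
    (hREGSEQ : S_REGSEQ L) :
    S_FREE L := by
  intro d F g c n N s s' hn hs h
  have h2 := g.two
  have hx : (X 1 + C c * X 2 : S L).IsHomogeneous 1 :=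
    (isHomogeneous_X L 1).add ((isHomogeneous_X L 2).C_mul c)
  have hxN : ((X 1 + C c * X 2 : S L) ^ N).IsHomogeneous N := by simpa using hx.pow N
  obtain ⟨-, -, key⟩ := hREGSEQ ![d, 1, N, N] ![F, X 0, (X 1 + C c * X 2) ^ N, X 2 ^ N]
    (fun i => by fin_cases i <;> simp <;> omega)
    (fun i => by
      fin_cases i
      exacts [g.hom, isHomogeneous_X L 0, hxN, isHomogeneous_X_pow 2 N])
    (by
      set J : Ideal (S L) := span (Set.range ![F, X 0, (X 1 + C c * X 2) ^ N, X 2 ^ N])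
      have a0 : X 0 ∈ J.radical := Ideal.le_radical (Ideal.subset_span ⟨1, rfl⟩)
      have a2 : X 2 ∈ J.radical := ⟨N, Ideal.subset_span ⟨3, rfl⟩⟩
      have a1 : X 1 ∈ J.radical := by
        have b : X 1 + C c * X 2 ∈ J.radical := ⟨N, Ideal.subset_span ⟨2, rfl⟩⟩
        exact (Ideal.add_mem_iff_left _ (Ideal.mul_mem_left _ _ a2)).1 b
      have a : ∀ i : Fin 4, i ≠ 3 → X i ∈ J.radical := fun i hi => by
        fin_cases i
        exacts [a0, a1, a2, absurd rfl hi]
      have a3 : X 3 ∈ J.radical := Ideal.mem_radical_of_pow_mem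
        (last_mem_free g (Ideal.le_radical (Ideal.subset_span ⟨0, rfl⟩)) a)
      have b : ∀ i : Fin 4, ∃ t : ℕ, X i ^ t ∈ J := fun i => by
        by_cases hi : i = 3
        exacts [hi ▸ a3, a i hi]
      choose t ht using b
      exact ⟨Finset.univ.sup t, fun i =>
        Ideal.pow_mem_of_pow_mem _ (ht i) (Finset.le_sup (Finset.mem_univ i))⟩)
  have e : (span {F, X 0, (X 1 + C c * X 2) ^ N} : Ideal (S L)) =
      span {(X 1 + C c * X 2) ^ N} ⊔ span {F, X 0} := by
    simp only [Ideal.span_insert]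
    ac_rfl
  have h3 : s ∈ (span {F, X 0, (X 1 + C c * X 2) ^ N} : Ideal (S L)) := key s (by
    show X 2 ^ N * s ∈ (span {F, X 0, (X 1 + C c * X 2) ^ N} : Ideal (S L))
    have := sub_mem (Ideal.mem_sup_left (T := span {F, X 0})
      (Ideal.mem_span_singleton.2 (dvd_mul_right ((X 1 + C c * X 2) ^ N) s'))) (Ideal.mem_sup_right h)
    rwa [sub_sub_cancel, ← e] at this)
  rw [e] at h3
  refine mem_of_comp (𝒜 := frm L) ?_ hxN hs (fun i => by omega) h3
  rw [Ideal.span_insert]
  exact (hom_span g.hom).sup (hom_span (isHomogeneous_X L 0))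

end Pool.Agent.P.MP_6f117a_ag.Surf
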