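import Pool.Agent.P.MP_6f117a_ag.SIface

/-! Step GEN of the proof for surfaces in projective three-space. -/

namespace Pool.Agent.P.MP_6f117a_ag.Surf

open MvPolynomial Module
open Ideal (span)
open scoped Polynomial WithZero

universe u

theorem scale_gen {L : Type u} [Field L] {K : Type u} [Field K] [Algebra L K] {G : S L} {n : ℕ}
    (hG : G.IsHomogeneous n) (t : K) (x : Fin 4 → K) :
    aeval (fun i => t * x i) G = t ^ n * aeval x G := by
  rw [G.as_sum, map_sum, map_sum, Finset.mul_sum]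
  refine Finset.sum_congr rfl fun m hm => ?_
  have h1 : ∑ i, m i = n := by
    have := hG (mem_support_iff.mp hm)
    rw [← this, Finsupp.weight_apply, Finsupp.sum_fintype _ _ (by simp)]
    simp
  rw [aeval_monomial, aeval_monomial, Finsupp.prod_fintype _ _ (by simp),
    Finsupp.prod_fintype _ _ (by simp), ← h1, ← Finset.prod_pow_eq_pow_sum]
  simp only [mul_pow, Finset.prod_mul_distrib]
  ring

theorem pGEN (L : Type u) [Field L] [IsAlgClosed L] [CharZero L]
    (hSIG1 : S_SIG1 L) :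
    S_GEN L := by
  intro d F hF
  have hs := hSIG1 d F hF
  have hp : (span {F} : Ideal (S L)).IsPrime :=
    (Ideal.span_singleton_prime hF.prime.ne_zero).mpr hF.prime
  let Q := S L ⧸ (span {F} : Ideal (S L))
  let K0 := FractionRing Q
  let ψ : S L →ₐ[L] K0 := (IsScalarTower.toAlgHom L Q K0).comp (Ideal.Quotient.mkₐ L _)
  have hψ : ∀ G, ψ G = 0 ↔ F ∣ G := by
    intro G
    change algebraMap Q K0 (Ideal.Quotient.mk _ G) = 0 ↔ _
    rw [map_eq_zero_iff _ (IsFractionRing.injective Q K0), Ideal.Quotient.eq_zero_iff_mem,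
      Ideal.mem_span_singleton]
  let x : Fin 4 → K0 := fun i => ψ (X i)
  have hx : ∀ G, aeval x G = ψ G := by
    intro G
    have : (aeval x : S L →ₐ[L] K0) = ψ := MvPolynomial.algHom_ext fun i => by simp [x]
    rw [this]
  have hx0 : x 0 ≠ 0 := by
    intro h
    have h2 := hF.two
    exact hs.not_dvd 1 (X 0) (by omega) (X_ne_zero 0) (isHomogeneous_X L 0) ((hψ _).mp h)
  let z : Fin 4 → K0 := fun i => (x 0)⁻¹ * x i
  have hz0 : z 0 = 1 := inv_mul_cancel₀ hx0
  let E := IntermediateField.adjoin L (Set.range z)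
  let y : Fin 4 → E := fun i => ⟨z i, IntermediateField.subset_adjoin _ _ ⟨i, rfl⟩⟩
  have hy : ∀ G : S L, ((aeval y G : E) : K0) = aeval z G := by
    intro G
    have : E.val.comp (aeval y : S L →ₐ[L] E) = aeval z :=
      MvPolynomial.algHom_ext fun i => by simp [y]
    exact DFunLike.congr_fun this G
  have hfrac : ∀ k ∈ E, ∃ (n : ℕ) (A B : S L), A.IsHomogeneous n ∧ B.IsHomogeneous n ∧
      aeval z B ≠ 0 ∧ k * aeval z B = aeval z A := by
    intro k hk
    induction hk using IntermediateField.adjoin_induction with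
    | mem k hk =>
      obtain ⟨i, rfl⟩ := hk
      exact ⟨1, X i, X 0, isHomogeneous_X L i, isHomogeneous_X L 0, by simp [hz0], by simp [hz0]⟩
    | algebraMap c =>
      exact ⟨0, C c, 1, isHomogeneous_C _ _, isHomogeneous_one _ _, by simp, by simp⟩
    | add a b _ _ ha hb =>
      obtain ⟨n, A, B, h1, h2, h3, h4⟩ := ha
      obtain ⟨m, A', B', h5, h6, h7, h8⟩ := hb
      refine ⟨n + m, A * B' + B * A', B * B', (h1.mul h6).add (h2.mul h5), h2.mul h6,
        by rw [map_mul]; exact mul_ne_zero h3 h7, ?_⟩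
      rw [map_add, map_mul, map_mul, map_mul, ← h4, ← h8]
      ring
    | inv a _ ha =>
      obtain ⟨n, A, B, h1, h2, h3, h4⟩ := ha
      by_cases h0 : a = 0
      · exact ⟨0, 0, 1, isHomogeneous_zero _ _ _, isHomogeneous_one _ _, by simp, by simp [h0]⟩
      · refine ⟨n, B, A, h2, h1, by rw [← h4]; exact mul_ne_zero h0 h3, ?_⟩
        rw [← h4, ← mul_assoc, inv_mul_cancel₀ h0, one_mul]
    | mul a b _ _ ha hb =>
      obtain ⟨n, A, B, h1, h2, h3, h4⟩ := ha
      obtain ⟨m, A', B', h5, h6, h7, h8⟩ := hb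
      refine ⟨n + m, A * A', B * B', h1.mul h5, h2.mul h6,
        by rw [map_mul]; exact mul_ne_zero h3 h7, ?_⟩
      rw [map_mul, map_mul, ← h4, ← h8]
      ring
  refine ⟨{ K := E, y := y, y0 := Subtype.ext hz0, ker := ?_, frac := ?_ }⟩
  · intro n G hG
    rw [← hψ, ← hx, ← Subtype.val_inj, hy]
    change aeval (fun i => (x 0)⁻¹ * x i) G = 0 ↔ _
    rw [scale_gen hG, mul_eq_zero, or_iff_right (pow_ne_zero _ (inv_ne_zero hx0))]
  · intro k
    obtain ⟨n, A, B, h1, h2, h3, h4⟩ := hfrac k k.2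
    refine ⟨n, A, B, h1, h2, fun h => h3 ?_, Subtype.ext ?_⟩
    · rw [← hy, h]; rfl
    · rw [← hy, ← hy] at h4
      exact h4

end Pool.Agent.P.MP_6f117a_ag.Surf
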