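import Pool.Agent.P.MP_6f117a_ag.SIface

/-! Step GENC of the proof for surfaces in projective three-space. -/

namespace Pool.Agent.P.MP_6f117a_ag.Surf

open MvPolynomial Module
open Ideal (span)
open scoped Polynomial WithZero

universe u

open DirectSum in
theorem low_genc {L : Type u} [Field L] {I : Ideal (S L)} (hI : I.IsHomogeneous (frm L))
    {a z : S L} {m : ℕ} (haz : a * z ∈ I) (hm : ∀ i, i < m → (decompose (frm L) a i : S L) = 0) :
    ∃ n : ℕ, (decompose (frm L) a m : S L) ^ n * z ∈ I := by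
  classical
  have key : ∀ k, ∃ n : ℕ, ∀ j, j < k →
      (decompose (frm L) a m : S L) ^ n * (decompose (frm L) z j : S L) ∈ I := by
    intro k
    induction k with
    | zero => exact ⟨0, fun j hj => absurd hj (Nat.not_lt_zero j)⟩
    | succ k ih =>
      obtain ⟨n, hn⟩ := ih
      refine ⟨n + 1, fun j hj => ?_⟩
      rcases (Nat.le_of_lt_succ hj).eq_or_lt with rfl | hj
      · have h1 := I.mul_mem_left ((decompose (frm L) a m : S L) ^ n) (hI (m + j) haz)
        rw [decompose_mul, coe_mul_apply_eq_sum_antidiagonal, Finset.mul_sum,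
          ← Finset.add_sum_erase _ _ (Finset.HasAntidiagonal.mem_antidiagonal.2 rfl : (m, j) ∈ _)] at h1
        rw [pow_succ, mul_assoc]
        refine (I.add_mem_iff_left (I.sum_mem fun x hx => ?_)).1 h1
        have h2 := Finset.HasAntidiagonal.mem_antidiagonal.1 (Finset.mem_of_mem_erase hx)
        have h3 : x ≠ (m, j) := Finset.ne_of_mem_erase hx
        rcases lt_trichotomy x.2 j with h | h | h
        · rw [mul_left_comm]
          exact I.mul_mem_left _ (hn _ h)
        · exact absurd (Prod.ext (by simp only; omega) h) h3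
        · rw [hm x.1 (by omega), zero_mul, mul_zero]
          exact I.zero_mem
      · rw [pow_succ', mul_assoc]
        exact I.mul_mem_left _ (hn j hj)
  obtain ⟨n, hn⟩ := key ((decompose (frm L) z).support.sup id + 1)
  refine ⟨n, ?_⟩
  rw [← sum_support_decompose (frm L) z, Finset.mul_sum]
  exact I.sum_mem fun j hj => hn j (Nat.lt_succ_of_le (Finset.le_sup (f := id) hj))

open DirectSum in
theorem hom_genc {L : Type u} [Field L] (I : Ideal (S L)) (z : S L)
    (hI : I.IsHomogeneous (frm L)) (hp : (I.colon {z}).IsPrime) :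
    Ideal.IsHomogeneous (frm L) (I.colon {z}) := by
  classical
  intro m a ha
  induction m using Nat.strong_induction_on with
  | _ m ih =>
  set a' : S L := a - ∑ i ∈ Finset.range m, (decompose (frm L) a i : S L) with ha'
  have h1 : a' ∈ I.colon {z} :=
    sub_mem ha (Ideal.sum_mem _ fun i hi => ih i (Finset.mem_range.1 hi))
  have h2 : ∀ k, (decompose (frm L) a' k : S L) =
      if k < m then 0 else (decompose (frm L) a k : S L) := by
    intro k
    rw [ha', decompose_sub, decompose_sum, DirectSum.sub_apply, DFinsupp.finsetSum_apply,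
      Submodule.coe_sub, AddSubmonoidClass.coe_finsetSum]
    split_ifs with h
    · rw [Finset.sum_eq_single_of_mem k (Finset.mem_range.2 h)
        fun i _ hi => decompose_of_mem_ne (frm L) (SetLike.coe_mem _) hi,
        decompose_of_mem_same (frm L) (SetLike.coe_mem _), sub_self]
    · rw [Finset.sum_eq_zero fun i hi => decompose_of_mem_ne (frm L) (SetLike.coe_mem _)
        (by have := Finset.mem_range.1 hi; omega), sub_zero]
  obtain ⟨n, hn⟩ := low_genc hI (m := m) (Submodule.mem_colon_singleton.1 h1)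
    fun i hi => by rw [h2, if_pos hi]
  rw [h2, if_neg (lt_irrefl m)] at hn
  exact hp.mem_of_pow_mem n (Submodule.mem_colon_singleton.2 hn)

theorem scale_genc {L K : Type u} [Field L] [CommRing K] [Algebra L K] (w : K) (x : Fin 4 → K)
    {n : ℕ} {G : S L} (hG : G.IsHomogeneous n) :
    aeval (fun j => w * x j) G = w ^ n * aeval x G := by
  rw [G.as_sum, map_sum, map_sum, Finset.mul_sum]
  refine Finset.sum_congr rfl fun m hm => ?_
  rw [aeval_monomial, aeval_monomial, ← hG (mem_support_iff.1 hm), mul_left_comm,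
    Finsupp.weight_apply]
  congr 1
  simp only [Finsupp.prod, Finsupp.sum, mul_pow, Finset.prod_mul_distrib,
    Finset.prod_pow_eq_pow_sum, smul_eq_mul, Pi.one_apply, mul_one]

theorem grow_genc {L K : Type u} [Field L] [Field K] [Algebra L K] {p : Ideal (S L)}
    {ξ : Fin 4 → K} (hk : ∀ (n : ℕ) (G : S L), G.IsHomogeneous n → (aeval ξ G = 0 ↔ G ∈ p))
    {i a b : Fin 4} (hi : ξ i = 1) (h : AlgebraicIndependent L ![ξ a, ξ b]) (n : ℕ) :
    ((n : ℤ) + 1) ^ 2 ≤ cod (frm L) p (2 * n) := by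
  set A : Submodule L (S L) := (⊤ : Ideal (S L)).restrictScalars L ⊓ frm L (2 * n) with hA
  set ψ := (aeval ξ : S L →ₐ[L] K).toLinearMap.domRestrict A with hψ
  have h1 := ψ.finrank_range_add_finrank_ker
  have h2 : finrank L (LinearMap.ker ψ) = hf (frm L) p (2 * n) := by
    rw [← Submodule.finrank_map_subtype_eq, hf]
    refine congrArg (fun V : Submodule L (S L) => finrank L V) ?_
    ext x
    simp only [Submodule.mem_map, LinearMap.mem_ker, Submodule.mem_inf,
      Submodule.restrictScalars_mem]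
    constructor
    · rintro ⟨y, hy, rfl⟩
      exact ⟨(hk _ _ y.2.2).1 hy, y.2.2⟩
    · rintro ⟨h3, h4⟩
      exact ⟨⟨x, trivial, h4⟩, (hk _ _ h4).2 h3, rfl⟩
  have h3 : LinearIndependent L fun x : Fin (n + 1) × Fin (n + 1) =>
      ξ a ^ (x.1 : ℕ) * ξ b ^ (x.2 : ℕ) := by
    have e1 := (basisMonomials (Fin 2) L).linearIndependent.map'
      (aeval ![ξ a, ξ b] : MvPolynomial (Fin 2) L →ₐ[L] K).toLinearMap
      (LinearMap.ker_eq_bot.2 h)
    have e2 := e1.comp (fun x : Fin (n + 1) × Fin (n + 1) =>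
      Finsupp.single 0 (x.1 : ℕ) + Finsupp.single 1 (x.2 : ℕ)) (by
        intro x y hxy
        have a0 := DFunLike.congr_fun hxy 0
        have a1 := DFunLike.congr_fun hxy 1
        simp at a0 a1
        exact Prod.ext (Fin.ext a0) (Fin.ext a1))
    refine (congrArg (fun v : Fin (n + 1) × Fin (n + 1) → K => LinearIndependent L v) ?_).mp e2
    funext x
    simp [aeval_monomial, Finsupp.prod_add_index', pow_add]
  have h4 : (n + 1) * (n + 1) ≤ finrank L (LinearMap.range ψ) := by
    have e1 := finrank_span_eq_card h3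
    rw [Fintype.card_prod, Fintype.card_fin] at e1
    rw [← e1]
    refine Submodule.finrank_mono (Submodule.span_le.2 ?_)
    rintro _ ⟨x, rfl⟩
    have e2 : (X i ^ (2 * n - x.1 - x.2) * (X a ^ (x.1 : ℕ) * X b ^ (x.2 : ℕ)) : S L).IsHomogeneous
        (2 * n) := by
      have := (isHomogeneous_X_pow (R := L) i (2 * n - x.1 - x.2)).mul
        ((isHomogeneous_X_pow (R := L) a x.1).mul (isHomogeneous_X_pow (R := L) b x.2))
      rwa [show 2 * n - x.1 - x.2 + (x.1 + x.2) = 2 * n by omega] at this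
    exact ⟨⟨_, trivial, e2⟩, by simp [hψ, hi]⟩
  have h5 : finrank L A = hf (frm L) ⊤ (2 * n) := rfl
  have h6 : ((n + 1) * (n + 1) : ℕ) + hf (frm L) p (2 * n) ≤ hf (frm L) ⊤ (2 * n) := by
    rw [← h5, ← h1, h2]
    exact Nat.add_le_add_right h4 _
  have h7 : (((n + 1) * (n + 1) : ℕ) : ℤ) + hf (frm L) p (2 * n) ≤ hf (frm L) ⊤ (2 * n) := by
    exact_mod_cast h6
  push_cast at h7
  simp only [cod]
  linarith

theorem ff_genc {L K : Type u} [Field L] [Field K] [Algebra L K] {p : Ideal (S L)} {e : ℤ}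
    (he : HasDeg p e) {ξ : Fin 4 → K}
    (hk : ∀ (n : ℕ) (G : S L), G.IsHomogeneous n → (aeval ξ G = 0 ↔ G ∈ p))
    {i : Fin 4} (hi : ξ i = 1) (ht : IntermediateField.adjoin L (Set.range ξ) = ⊤) : FF L K := by
  refine FF.of_fg (ht ▸ IntermediateField.fg_adjoin_of_finite (Set.finite_range ξ)) ?_
  have : Algebra.IsAlgebraic (Algebra.adjoin L (Set.range ξ)) K := by
    rw [← IntermediateField.isAlgebraic_adjoin_iff_top, ht, Algebra.isAlgebraic_iff_isIntegral]
    exact Algebra.isIntegral_of_surjective IntermediateField.topEquiv.surjective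
  obtain ⟨t, h1, h2⟩ := exists_isTranscendenceBasis_subset (R := L) (Set.range ξ)
  rw [← h2.cardinalMk_eq_trdeg, Cardinal.le_one_iff_subsingleton]
  refine ⟨fun x y => ?_⟩
  by_contra hxy
  obtain ⟨a, ha⟩ := h1 x.2
  obtain ⟨b, hb⟩ := h1 y.2
  have h3 : AlgebraicIndependent L ![ξ a, ξ b] := by
    have := h2.1.comp ![x, y] (by
      intro j k hjk
      fin_cases j <;> fin_cases k <;> simp_all)
    convert this using 1
    funext j
    fin_cases j <;> simp [ha, hb]
  obtain ⟨c, n₀, h4⟩ := he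
  obtain ⟨n, h5, h6⟩ : ∃ n : ℕ, n₀ ≤ n ∧ 2 * |e| + |c| < n :=
    ⟨n₀ + (2 * |e| + |c|).toNat + 1, by omega, by omega⟩
  have h7 := grow_genc hk hi h3 n
  rw [h4 (2 * n) (by omega)] at h7
  push_cast at h7
  have h8 : (0 : ℤ) ≤ n := Int.natCast_nonneg n
  nlinarith [le_abs_self e, le_abs_self c, abs_nonneg e, abs_nonneg c,
    mul_le_mul_of_nonneg_right (le_abs_self e) h8, mul_le_mul_of_nonneg_right h6.le h8,
    mul_nonneg (abs_nonneg c) h8]

theorem pGENC (L : Type u) [Field L] [IsAlgClosed L] [CharZero L]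
    (hDEG : S_DEG L) (hDIR2 : S_DIR2 L) :
    S_GENC L := by
  refine ⟨hom_genc, ?_⟩
  rintro p e hp - he ⟨i, hi⟩
  set x : Fin 4 → FractionRing (S L ⧸ p) := fun j =>
    algebraMap (S L ⧸ p) _ (Ideal.Quotient.mk p (X j)) with hx
  have h1 : ∀ G : S L, aeval x G = 0 ↔ G ∈ p := by
    have e1 : aeval x = (IsScalarTower.toAlgHom L (S L ⧸ p) (FractionRing (S L ⧸ p))).comp
        (Ideal.Quotient.mkₐ L p) := algHom_ext fun j => by simp [hx]
    intro G
    rw [e1, AlgHom.comp_apply, IsScalarTower.toAlgHom_apply, FaithfulSMul.algebraMap_eq_zero_iff,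
      Ideal.Quotient.mkₐ_eq_mk, Ideal.Quotient.eq_zero_iff_mem]
  have h2 : x i ≠ 0 := fun h => hi ((h1 _).1 (by rwa [aeval_X]))
  set K := IntermediateField.adjoin L (Set.range fun j => (x i)⁻¹ * x j) with hK
  set ξ : Fin 4 → K := fun j => ⟨(x i)⁻¹ * x j, IntermediateField.subset_adjoin _ _ ⟨j, rfl⟩⟩
    with hξ
  have h3 : ξ i = 1 := Subtype.ext (inv_mul_cancel₀ h2)
  have h4 : ∀ (n : ℕ) (G : S L), G.IsHomogeneous n → (aeval ξ G = 0 ↔ G ∈ p) := by
    intro n G hG
    have e1 : K.val (aeval ξ G) = (x i)⁻¹ ^ n * aeval x G := by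
      rw [← scale_genc _ x hG, ← AlgHom.comp_apply, comp_aeval]
      rfl
    rw [← h1, ← map_eq_zero_iff K.val K.val.injective, e1, mul_eq_zero,
      or_iff_right (pow_ne_zero _ (inv_ne_zero h2))]
  have h5 : IntermediateField.adjoin L (Set.range ξ) = ⊤ := by
    rw [← IntermediateField.lift_inj, IntermediateField.lift_adjoin, IntermediateField.lift_top,
      ← Set.range_comp]
    rfl
  have h6 : ξ ≠ 0 := fun h => one_ne_zero (h3.symm.trans (congrFun h i))
  have := ff_genc he h4 h3 h5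
  refine ⟨⟨K, ξ, h6, h4⟩, fun o ho => ?_⟩
  by_contra hc
  have h7 : ∀ j, ∃ c, algebraMap L K c = ξ j := fun j =>
    (const_or_trans (ξ j)).resolve_right fun h =>
      hc ((hDEG K ξ h6).pos i j (by rwa [h3, div_one]))
  choose q hq using h7
  obtain ⟨a₁, a₂, g1, g2, g3, g4, g5, g6, g7⟩ := hDIR2.2.2.1 o q
  have h8 : ∀ a : S L, a.IsHomogeneous 1 → eval q a = 0 → a * 1 ∈ p := by
    intro a ha h
    rw [mul_one, ← h4 1 a ha, show ξ = algebraMap L K ∘ q from (funext hq).symm,
      aeval_algebraMap_apply, aeval_eq_eval, h, map_zero]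
  exact hp.ne_top ((Ideal.eq_top_iff_one p).2 (ho a₁ a₂ 1 g4 g5 g3 (h8 _ g1 g6) (h8 _ g2 g7)))

end Pool.Agent.P.MP_6f117a_ag.Surf
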