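import Pool.Agent.P.MP_6f117a_ag.SIface

/-! Step HART of the proof for surfaces in projective three-space. -/

namespace Pool.Agent.P.MP_6f117a_ag.Surf

open MvPolynomial Module
open Ideal (span)
open scoped Polynomial WithZero

universe u

namespace HartA

theorem core {R : Type u} [CommRing R] [IsDomain R] [DecompositionMonoid R] {f g y : R[X]}
    (hm : f.Monic) (hp : Prime f) (hg : ¬f ∣ g) {r₁ r₂ : R} (hr : IsRelPrime r₁ r₂)
    (h1 : Polynomial.C r₁ * y ∈ span {f, g}) (h2 : Polynomial.C r₂ * y ∈ span {f, g}) :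
    y ∈ span {f, g} := by
  by_cases h0 : r₁ = 0
  · rw [h0, isRelPrime_zero_left] at hr
    exact (Ideal.unit_mul_mem_iff_mem _ (Polynomial.isUnit_C.2 hr)).1 h2
  obtain ⟨s₁, u₁, e1⟩ := Ideal.mem_span_pair.1 h1
  obtain ⟨s₂, u₂, e2⟩ := Ideal.mem_span_pair.1 h2
  have k1 : f ∣ g * (Polynomial.C r₂ * u₁ - Polynomial.C r₁ * u₂) :=
    ⟨Polynomial.C r₁ * s₂ - Polynomial.C r₂ * s₁, by
      linear_combination Polynomial.C r₂ * e1 - Polynomial.C r₁ * e2⟩
  have k2 := (Polynomial.modByMonic_eq_zero_iff_dvd hm).2 ((hp.dvd_or_dvd k1).resolve_left hg)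
  rw [Polynomial.sub_modByMonic, ← Polynomial.smul_eq_C_mul, ← Polynomial.smul_eq_C_mul,
    Polynomial.smul_modByMonic, Polynomial.smul_modByMonic, sub_eq_zero] at k2
  obtain ⟨w, hw⟩ : Polynomial.C r₁ ∣ u₁ %ₘ f := (Polynomial.C_dvd_iff_dvd_coeff _ _).2 fun i => by
    have := congrArg (fun p => Polynomial.coeff p i) k2
    simp only [Polynomial.coeff_smul, smul_eq_mul] at this
    exact hr.dvd_of_dvd_mul_left ⟨_, this⟩
  have k3 := Polynomial.modByMonic_add_div u₁ f
  have k4 : f ∣ Polynomial.C r₁ * (y - g * w) :=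
    ⟨s₁ + g * (u₁ /ₘ f), by linear_combination -e1 + g * hw - g * k3⟩
  rcases hp.dvd_or_dvd k4 with h | ⟨s, h⟩
  · have := Polynomial.natDegree_le_of_dvd h (by simpa using h0)
    rw [Polynomial.natDegree_C, Nat.le_zero, hm.natDegree_eq_zero] at this
    exact absurd (this ▸ isUnit_one) hp.not_isUnit
  · exact Ideal.mem_span_pair.2 ⟨s, w, by linear_combination -h⟩

end HartA

theorem pHART (L : Type u) [Field L] [IsAlgClosed L] [CharZero L]
    (hDIRE : S_DIRE L) (hDIR2 : S_DIR2 L) :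
    S_HART L := by
  intro d F o hF hp ho a₁ a₂ f y d1 d2 hr hf h1 h2
  have o0 : o ≠ 0 := by
    rintro rfl
    rw [eval_zero, constantCoeff_eq] at ho
    have := hF ho
    rw [map_zero] at this
    subst this
    rw [← totalDegree_zero_iff_isHomogeneous, totalDegree_eq_zero_iff_eq_C] at hF
    exact hp.not_isUnit (hF ▸ (Ne.isUnit ho).map C)
  obtain ⟨e, e1, e2, e3⟩ := hDIRE 3 o o0
  have hC : ∀ a, dd o a = 0 → e a = Polynomial.C ((e a).coeff 0) := fun a ha =>
    Polynomial.eq_C_of_derivative_eq_zero (by rw [e1, ← hDIR2.2.2.2.2.2, ha, map_zero])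
  have hu : IsUnit (C (eval o F)⁻¹ : S L) := (Ne.isUnit (inv_ne_zero ho)).map C
  have eC : ∀ c : L, e (C c) = Polynomial.C (C c) := fun c => e.commutes c
  have hm : (e (C (eval o F)⁻¹ * F)).Monic := by
    refine Polynomial.monic_of_natDegree_le_of_coeff_eq_one d
      (Polynomial.natDegree_le_iff_coeff_eq_zero.2 fun i hi => ?_) ?_
    · rw [map_mul, eC, Polynomial.coeff_C_mul,
        not_not.1 (mt (((e2 d F).1 hF) i).1 hi.not_ge), mul_zero]
    · rw [map_mul, eC, Polynomial.coeff_C_mul, e3 d F hF, ← map_mul, inv_mul_cancel₀ ho, map_one]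
  have hq : Prime (e (C (eval o F)⁻¹ * F)) :=
    (MulEquiv.prime_iff e).2 ((prime_isUnit_mul hu).2 hp)
  have tr : ∀ z, z ∈ span {F, f} ↔ e z ∈ span {e (C (eval o F)⁻¹ * F), e f} := fun z => by
    rw [← Set.image_pair, ← Ideal.map_span, ← Ideal.mem_comap,
      Ideal.comap_map_of_bijective e e.bijective,
      Ideal.span_insert, Ideal.span_insert, Ideal.span_singleton_mul_left_unit hu]
  rw [tr] at h1 h2 ⊢
  rw [map_mul e a₁, hC _ d1] at h1
  rw [map_mul e a₂, hC _ d2] at h2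
  refine HartA.core hm hq (fun h => hf ?_) (fun t t1 t2 => ?_) h1 h2
  · exact (hu.mul_left_dvd).1 ((map_dvd_iff e).1 h)
  · have k : ∀ a, dd o a = 0 → t ∣ (e a).coeff 0 → e.symm (Polynomial.C t) ∣ a := fun a ha h => by
      rw [← map_dvd_iff e, AlgEquiv.apply_symm_apply, hC a ha]
      exact map_dvd Polynomial.C h
    have := (hr (k _ d1 t1) (k _ d2 t2)).map e
    rwa [AlgEquiv.apply_symm_apply, Polynomial.isUnit_C] at this

end Pool.Agent.P.MP_6f117a_ag.Surf
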