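import Pool.Agent.P.MP_6f117a_ag.SIface

/-! Step HFA of the proof for surfaces in projective three-space. -/

namespace Pool.Agent.P.MP_6f117a_ag.Surf

open MvPolynomial Module
open Ideal (span)
open scoped Polynomial WithZero

universe u

namespace HfaA

variable {L : Type u} [Field L]

theorem hf_top (n : ℕ) : hf (frm L) (⊤ : Ideal (S L)) n = (n + 3).choose 3 := by
  classical
  have e : {d : Fin 4 →₀ ℕ | d.degree = n} = ↑((Finset.univ : Finset (Fin 4)).finsuppAntidiag n) := by
    ext d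
    simp [Finsupp.degree_eq_sum]
  rw [hf, Submodule.restrictScalars_top, top_inf_eq, frm, homogeneousSubmodule_eq_finsupp_supported,
    e]
  refine (AddMonoidAlgebra.supportedEquivFinsupp _).finrank_eq.trans ?_
  rw [finrank_finsupp_self]
  simp only [Finset.coe_sort_coe, Fintype.card_coe]
  rw [Finset.card_finsuppAntidiag_nat_eq_choose, Finset.card_univ, Fintype.card_fin,
    show 4 + n - 1 = n + 3 by omega]
  exact Nat.choose_symm_add

theorem ch3 (n : ℕ) : (((n + 3).choose 3 : ℕ) : ℚ) = (n + 3) * (n + 2) * (n + 1) / 6 := by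
  have h := Nat.descFactorial_eq_factorial_mul_choose (n + 3) 3
  have h2 : (n + 3).descFactorial 3 = (n + 1) * ((n + 2) * (n + 3)) := by
    simp [Nat.descFactorial_succ]
  rw [h2, show Nat.factorial 3 = 6 from rfl] at h
  have h3 : ((n : ℚ) + 1) * ((n + 2) * (n + 3)) = 6 * (((n + 3).choose 3 : ℕ) : ℚ) := by
    exact_mod_cast h
  linear_combination (-1 / 6 : ℚ) * h3

theorem hf_bot (n : ℕ) : hf (frm L) (⊥ : Ideal (S L)) n = 0 := by
  rw [hf, Submodule.restrictScalars_bot, bot_inf_eq, finrank_bot]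

theorem colon_eq {P : Ideal (S L)} (hp : P.IsPrime) {g : S L} (hg : g ∉ P) : P.colon {g} = P :=
  le_antisymm (fun _ hx => (hp.mem_or_mem (Submodule.mem_colon_singleton.1 hx)).resolve_right hg)
    Ideal.le_colon

variable {d : ℕ} {F : S L}

theorem codF (h : Good d F) (n : ℕ) (hn : d ≤ n) : (cod (frm L) (span {F}) n : ℚ) = PA d n := by
  obtain ⟨i, rfl⟩ := Nat.exists_eq_add_of_le hn
  have := cod_sup_span (𝒜 := frm L) (J := ⊥) (Ideal.IsHomogeneous.bot _) (g := F) h.hom i
  rw [sup_bot_eq, colon_eq Ideal.isPrime_bot (by simpa using h.prime.ne_zero)] at this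
  rw [this, cod, cod, hf_bot, hf_bot, hf_top, hf_top]
  push_cast
  rw [ch3, ch3, PA]
  push_cast
  ring

theorem prime_span (h : Good d F) : (span {F}).IsPrime :=
  (Ideal.span_singleton_prime h.prime.ne_zero).2 h.prime

theorem not_dvd (h : Good d F) : ¬F ∣ X 0 := fun e => by
  have h1 := totalDegree_le_of_dvd_of_isDomain e (X_ne_zero 0)
  rw [h.hom.totalDegree h.prime.ne_zero, totalDegree_X] at h1
  have := h.two
  omega

theorem cod0 (h : Good d F) (n : ℕ) (hn : d < n) :
    2 * cod (frm L) (span {F, X 0}) n = 2 * d * n + d * (3 - d) := by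
  obtain ⟨i, rfl⟩ : ∃ i, n = 1 + i := ⟨n - 1, by omega⟩
  have := cod_sup_span (𝒜 := frm L) (J := span {F}) (hom_span (j := d) h.hom) (g := X 0)
    (isHomogeneous_X L 0) i
  rw [colon_eq (prime_span h) (by rw [Ideal.mem_span_singleton]; exact not_dvd h)] at this
  rw [Ideal.span_insert, sup_comm, this]
  have a := codF h (1 + i) (by omega)
  have b := codF h i (by omega)
  have : (2 : ℚ) * ((cod (frm L) (span {F}) (1 + i) : ℚ) - cod (frm L) (span {F}) i) =
      2 * d * (1 + i : ℕ) + d * (3 - d) := by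
    rw [a, b, PA, PA]; push_cast; ring
  exact_mod_cast this

theorem shift (h : Good d F) (I : Ideal (S L)) (e : ℤ) (s : ℕ) (g : S L)
    (hI : I.IsHomogeneous (frm L)) (hF : F ∈ I) (hg : g.IsHomogeneous s) (hFg : ¬F ∣ g)
    (hd : HasDeg I e) : HasDeg (span {g} * I ⊔ span {F}) (e + s * d) := by
  obtain ⟨c, n₀, hc⟩ := hd
  refine ⟨c + (cod (frm L) (span {F}) (s + d) - cod (frm L) (span {F}) d - s * d * d) -
    (e + s * d) * s, s + (n₀ + d), fun n hn => ?_⟩
  obtain ⟨i, rfl⟩ : ∃ i, n = s + i := ⟨n - s, by omega⟩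
  have h1 := hf_mul_prime (𝒜 := frm L) hI (hom_span (j := d) h.hom) (prime_span h)
    ((Ideal.span_singleton_le_iff_mem _).2 hF) (g := g) (j := s) hg
    (by rw [Ideal.mem_span_singleton]; exact hFg) i
  have h2 := hc i (by omega)
  have h3 : (cod (frm L) (span {F}) (s + i) : ℚ) - cod (frm L) (span {F}) i =
      cod (frm L) (span {F}) (s + d) - cod (frm L) (span {F}) d + s * d * (i - d) := by
    rw [codF h _ (by omega), codF h _ (by omega), codF h _ (by omega), codF h _ le_rfl]
    simp only [PA]; push_cast; ring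
  have h4 : cod (frm L) (span {F}) (s + i) - cod (frm L) (span {F}) i =
      cod (frm L) (span {F}) (s + d) - cod (frm L) (span {F}) d + s * d * (i - d) := by
    exact_mod_cast h3
  have h5 : cod (frm L) (span {g} * I ⊔ span {F}) (s + i) =
      cod (frm L) (span {F}) (s + i) - cod (frm L) (span {F}) i + cod (frm L) I i := by
    simp only [cod]; omega
  rw [h5, h4, h2]
  push_cast
  ring

theorem mono (I J : Ideal (S L)) (e e' : ℤ) (hI : I.IsHomogeneous (frm L)) (h : I ≤ sat X J)
    (h1 : HasDeg I e) (h2 : HasDeg J e') : e' ≤ e := by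
  obtain ⟨c, n₁, h1⟩ := h1
  obtain ⟨c', n₂, h2⟩ := h2
  obtain ⟨n₀, h0⟩ := tors0 hI h
  by_contra hc
  have a := h1 (n₀ + n₁ + n₂ + (c - c').natAbs + 1) (by omega)
  have b := h2 (n₀ + n₁ + n₂ + (c - c').natAbs + 1) (by omega)
  have k := hf_le (𝒜 := frm L) (h0 (n₀ + n₁ + n₂ + (c - c').natAbs + 1) (by omega))
  generalize hn : n₀ + n₁ + n₂ + (c - c').natAbs + 1 = n at a b k
  have k1 : e' * n + c' ≤ e * n + c := by
    rw [← a, ← b]; simp only [cod]; omega
  have k2 : c - c' < n := by omega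
  have k3 : (0 : ℤ) ≤ n := Int.natCast_nonneg n
  nlinarith

theorem map_hom {τ : Type} (wt : τ → ℕ) (I : Ideal (S L)) (hI : I.IsHomogeneous (frm L)) :
    (I.map (C : S L →+* Jet τ L)).IsHomogeneous (bih L wt) := by
  obtain ⟨s, h1, rfl⟩ := exists_hom_gens hI
  rw [Ideal.map_span]
  refine Ideal.homogeneous_span _ _ ?_
  rintro _ ⟨g, hg, rfl⟩
  obtain ⟨j, hj⟩ := h1 g hg
  exact ⟨(0, j), C_mem_bih wt hj⟩

end HfaA

theorem pHFA (L : Type u) [Field L] [IsAlgClosed L] [CharZero L]
    (hSIG1 : S_SIG1 L) :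
    S_HFA L := fun d F h =>
  { top := HfaA.hf_top
    codF := HfaA.codF h
    cod0 := HfaA.cod0 h
    shift := HfaA.shift h
    form := fun s g hg hFg => by
      have := HfaA.shift h ⊤ 0 s g (Ideal.IsHomogeneous.top _) trivial hg hFg
        ⟨0, 0, fun n _ => by simp [cod]⟩
      rwa [Ideal.mul_top, zero_add] at this
    mono := HfaA.mono
    map1 := HfaA.map_hom w1
    map2 := HfaA.map_hom w2 }

end Pool.Agent.P.MP_6f117a_ag.Surf
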