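import Pool.Agent.P.MP_6f117a_ag.SIface

/-! Step HFB of the proof for surfaces in projective three-space. -/

namespace Pool.Agent.P.MP_6f117a_ag.Surf

open MvPolynomial Module
open Ideal (span)
open scoped Polynomial WithZero

universe u

theorem sum_hfb {L : Type u} [Field L] {τ : Type} (wt : τ → ℕ) (I : Ideal (S L)) (a b : ℕ)
    (M : Finset (τ →₀ ℕ)) (hM : ∀ m, m ∈ M ↔ Finsupp.weight wt m = a)
    (hb : ∀ m ∈ M, m.degree ≤ b) :
    hf (bih L wt) (I.map (C : S L →+* Jet τ L)) (a, b) =
      ∑ m ∈ M, hf (frm L) I (b - m.degree) := by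
  classical
  let V : Submodule L (Jet τ L) := (I.map (C : S L →+* Jet τ L)).restrictScalars L ⊓ bih L wt (a, b)
  let W : M → Submodule L (S L) := fun m => I.restrictScalars L ⊓ frm L (b - m.1.degree)
  let φ : V →ₗ[L] ∀ m : M, W m :=
    { toFun := fun G m => ⟨coeff m.1 G.1, mem_map_C_iff.1 G.2.1 m.1, coeff_hom G.2.2 m.1⟩
      map_add' := fun _ _ => by ext m; simp
      map_smul' := fun _ _ => by ext m; simp }
  have hinj : Function.Injective φ := by
    rw [injective_iff_map_eq_zero]
    intro G hG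
    refine Subtype.ext (MvPolynomial.ext _ _ fun m => ?_)
    by_contra hm
    have hm' : coeff m G.1 ≠ 0 := by simpa using hm
    have h1 := (mem_bih'.1 G.2.2 m hm').1
    exact hm' (congrArg Subtype.val (congrFun hG ⟨m, (hM m).2 h1⟩))
  have hsurj : Function.Surjective φ := by
    intro w
    refine ⟨⟨∑ m : M, monomial m.1 (w m).1, Submodule.mem_inf.2 ⟨?_, ?_⟩⟩, ?_⟩
    · refine Submodule.sum_mem _ fun m _ => ?_
      rw [Submodule.restrictScalars_mem, ← mul_one (w m).1, ← zero_add m.1, ← monomial_mul]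
      exact Ideal.mul_mem_right _ _ (Ideal.mem_map_of_mem _ (w m).2.1)
    · refine Submodule.sum_mem _ fun m _ => ?_
      have := monomial_mem_bih wt m.1 (w m).2.2
      rwa [(hM _).1 m.2, Nat.add_sub_cancel' (hb _ m.2)] at this
    · funext m
      refine Subtype.ext ?_
      change coeff m.1 (∑ m : M, monomial m.1 (w m).1) = _
      rw [coeff_sum, Finset.sum_eq_single m]
      · simp
      · intro m' _ hm'
        rw [coeff_monomial, if_neg fun e => hm' (Subtype.ext e)]
      · simp
  have hW : ∀ m, FiniteDimensional L (W m) := fun m =>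
    Submodule.finiteDimensional_of_le inf_le_right
  have := (LinearEquiv.ofBijective φ ⟨hinj, hsurj⟩).finrank_eq
  rw [finrank_pi_fintype] at this
  rw [← Finset.sum_coe_sort]
  exact this

theorem mem_hfb (n : ℕ) (m : Fin 3 →₀ ℕ) :
    m ∈ Finset.finsuppAntidiag Finset.univ n ↔ m.degree = n := by
  simp [Finset.mem_finsuppAntidiag, Finsupp.degree_eq_sum]

theorem card_hfb (n : ℕ) :
    (Finset.finsuppAntidiag (Finset.univ : Finset (Fin 3)) n).card = (n + 2).choose 2 := by
  rw [Finset.card_finsuppAntidiag_nat_eq_choose, Finset.card_univ, Fintype.card_fin,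
    show 3 + n - 1 = n + 2 by omega]
  exact Nat.choose_symm_add

theorem deg_hfb (p q : Fin 3 →₀ ℕ) : (p.sumElim q).degree = p.degree + q.degree := by
  simp [Finsupp.degree_eq_sum, Fintype.sum_sum_type]

theorem wt_hfb (p q : Fin 3 →₀ ℕ) :
    Finsupp.weight w2 (p.sumElim q) = p.degree + 2 * q.degree := by
  simp [Finsupp.weight_apply, Finsupp.sum_fintype, Finsupp.degree_eq_sum, Fintype.sum_sum_type, w2,
    Finset.mul_sum, mul_comm]

theorem pHFB (L : Type u) [Field L] [IsAlgClosed L] [CharZero L] :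
    S_HFB L := by
  classical
  intro I a b hab
  constructor
  · rw [sum_hfb w1 I a b (Finset.finsuppAntidiag Finset.univ a)
      (fun m => by rw [mem_hfb, ← weight_one]; rfl)
      (fun m hm => ((mem_hfb a m).1 hm).le.trans hab), ← card_hfb, ← smul_eq_mul,
      ← Finset.sum_const]
    exact Finset.sum_congr rfl fun m hm => by rw [(mem_hfb a m).1 hm]
  · let N : Finset (Σ _ : ℕ, (Fin 3 →₀ ℕ) × (Fin 3 →₀ ℕ)) :=
      (Finset.range (a / 2 + 1)).sigma fun l =>
        Finset.finsuppAntidiag Finset.univ (a - 2 * l) ×ˢ Finset.finsuppAntidiag Finset.univ l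
    have hN : ∀ x, x ∈ N ↔ x.1 < a / 2 + 1 ∧ x.2.1.degree = a - 2 * x.1 ∧ x.2.2.degree = x.1 :=
      fun x => by simp only [N, Finset.mem_sigma, Finset.mem_range, Finset.mem_product, mem_hfb]
    rw [sum_hfb w2 I a b (N.image fun x => x.2.1.sumElim x.2.2)]
    · rw [Finset.sum_image, Finset.sum_sigma]
      · refine Finset.sum_congr rfl fun l hl => ?_
        rw [← card_hfb, ← card_hfb, ← Finset.card_product]
        refine Finset.sum_const_nat fun x hx => ?_
        rw [Finset.mem_product, mem_hfb, mem_hfb] at hx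
        rw [Finset.mem_range] at hl
        rw [deg_hfb, hx.1, hx.2]
        congr 1
        omega
      · rintro ⟨l, p, q⟩ hx ⟨l', p', q'⟩ hy e
        have h1 := (hN _).1 hx
        have h2 := (hN _).1 hy
        have e1 : p = p' := Finsupp.ext fun i => DFunLike.congr_fun e (.inl i)
        have e2 : q = q' := Finsupp.ext fun i => DFunLike.congr_fun e (.inr i)
        subst e1 e2
        obtain rfl : l = l' := h1.2.2.symm.trans h2.2.2
        rfl
    · intro m
      obtain ⟨⟨p, q⟩, rfl⟩ := Finsupp.sumFinsuppEquivProdFinsupp.symm.surjective m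
      change p.sumElim q ∈ _ ↔ Finsupp.weight w2 (p.sumElim q) = a
      rw [Finset.mem_image]
      constructor
      · rintro ⟨x, hx, e⟩
        rw [← e, wt_hfb]
        have := (hN x).1 hx
        omega
      · intro h
        rw [wt_hfb] at h
        exact ⟨⟨q.degree, p, q⟩, (hN _).2 ⟨by dsimp only; omega, by dsimp only; omega, rfl⟩, rfl⟩
    · intro m hm
      obtain ⟨x, hx, rfl⟩ := Finset.mem_image.1 hm
      rw [deg_hfb]
      have := (hN x).1 hx
      omega

end Pool.Agent.P.MP_6f117a_ag.Surf
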