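import Pool.Agent.P.MP_6f117a_ag.SIface

/-! Step HFJ of the proof for surfaces in projective three-space. -/

namespace Pool.Agent.P.MP_6f117a_ag.Surf

open MvPolynomial Module
open Ideal (span)
open scoped Polynomial WithZero

universe u

namespace Hfj

/-- The number of monomials of degree `x` in three variables. -/
def cc (x : ℚ) : ℚ := (x + 2) * (x + 1) / 2

/-- The sum in the Hilbert function of an extended ideal. -/
def tt (h : ℤ → ℚ) (x : ℚ) (N : ℕ) (m : ℤ) : ℚ :=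
  ∑ l ∈ Finset.range N, cc (x - 2 * l) * cc l * h (m + l)

theorem cast_choose (n : ℕ) : (((n + 2).choose 2 : ℕ) : ℚ) = cc n := by
  rw [Nat.cast_choose_two]; unfold cc; push_cast; ring

theorem tt_ext (h : ℤ → ℚ) (a : ℕ) (m : ℤ) :
    tt h a (a / 2 + 1) m = tt h a ((a + 1) / 2 + 1) m := by
  rcases Nat.even_or_odd' a with ⟨k, rfl | rfl⟩
  · rw [show (2 * k + 1) / 2 = 2 * k / 2 by omega]
  · rw [show (2 * k + 1 + 1) / 2 + 1 = (k + 1) + 1 by omega, show (2 * k + 1) / 2 = k by omega]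
    unfold tt
    rw [Finset.sum_range_succ _ (k + 1)]
    have : cc (((2 * k + 1 : ℕ) : ℚ) - 2 * ((k + 1 : ℕ) : ℚ)) = 0 := by
      unfold cc; push_cast; ring
    rw [this, zero_mul, zero_mul, add_zero]

theorem tt_shift (h : ℤ → ℚ) (x : ℚ) (N : ℕ) (m : ℤ) : tt h x N m =
    ∑ l ∈ Finset.range (N + 1), cc (x + 2 - 2 * l) * cc (l - 1) * h (m - 1 + l) := by
  rw [Finset.sum_range_succ']
  have : cc (((0 : ℕ) : ℚ) - 1) = 0 := by unfold cc; norm_num
  rw [this, mul_zero, zero_mul, add_zero]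
  refine Finset.sum_congr rfl fun l _ => ?_
  push_cast
  rw [show x + 2 - 2 * ((l : ℚ) + 1) = x - 2 * l by ring, add_sub_cancel_right,
    show m - 1 + ((l : ℤ) + 1) = m + l by ring]

theorem comb (h : ℤ → ℚ) (D : ℤ) (a : ℕ) (b : ℤ) :
    tt h (a + 3 : ℕ) ((a + 3) / 2 + 1) (b - (a + 3 : ℕ)) -
      tt h (a + 2 : ℕ) ((a + 2) / 2 + 1) (b - (a + 3 : ℕ) - D) -
      tt h (a + 1 : ℕ) ((a + 1) / 2 + 1) (b - (a + 3 : ℕ) - D + 1) +
      tt h a (a / 2 + 1) (b - (a + 3 : ℕ) - 2 * D + 1) = Phi D h (a + 3) b := by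
  rw [tt_ext h (a + 2), tt_ext h a, tt_shift h (a + 1 : ℕ), tt_shift h a,
    show (a + 1) / 2 + 1 + 1 = (a + 3) / 2 + 1 by omega]
  unfold tt Phi
  rw [← Finset.sum_sub_distrib, ← Finset.sum_sub_distrib, ← Finset.sum_add_distrib]
  refine Finset.sum_congr rfl fun l _ => ?_
  generalize b - ((a + 3 : ℕ) : ℤ) = m
  rw [show m - D + l = m + l - D by ring, show m - D + 1 - 1 + l = m + l - D by ring,
    show m - 2 * D + 1 - 1 + l = m + l - 2 * D by ring]
  unfold phi cc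
  push_cast
  ring

variable {L : Type u} [Field L]

theorem psi (hHFB : S_HFB L) (I : Ideal (S L)) (F : S L) (h : ℤ → ℚ) (n₀ : ℕ)
    (hh : ∀ n : ℕ, n₀ ≤ n → (hf (frm L) I n : ℚ) - hf (frm L) (span {F}) n = h n) (a b : ℕ)
    (hab : a + n₀ ≤ b) :
    (hf (bih L w2) (I.map (C : S L →+* U L)) (a, b) : ℚ) - hf (bih L w2) (span {C F}) (a, b) =
      tt h a (a / 2 + 1) ((b : ℤ) - a) := by
  have e : (span {C F} : Ideal (U L)) = (span {F}).map (C : S L →+* U L) := by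
    rw [Ideal.map_span, Set.image_singleton]
  rw [e, (hHFB I a b (by omega)).2, (hHFB (span {F}) a b (by omega)).2, Nat.cast_sum,
    Nat.cast_sum, ← Finset.sum_sub_distrib]
  refine Finset.sum_congr rfl fun l hl => ?_
  have hl' : 2 * l ≤ a := by have := Finset.mem_range.1 hl; omega
  have e1 : ((b - a + l : ℕ) : ℤ) = (b : ℤ) - a + l := by omega
  rw [Nat.cast_mul, Nat.cast_mul, Nat.cast_mul, Nat.cast_mul, ← mul_sub, hh _ (by omega),
    cast_choose, cast_choose, e1, Nat.cast_sub hl']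
  push_cast
  rfl

end Hfj

theorem pHFJ (L : Type u) [Field L] [IsAlgClosed L] [CharZero L]
    (hSIG1 : S_SIG1 L) (hSIG2 : S_SIG2 L) (hHFA : S_HFA L) (hHFB : S_HFB L) (hKZ : S_KZ L) :
    S_HFJ L := by
  intro d F hF I hI hFI h n₀ hh
  have s2 := hSIG2 d F hF
  obtain ⟨-, k2, k3⟩ := hKZ d F hF I hI
  have hM := (hHFA d F hF).map2 I hI
  have hpsi := Hfj.psi hHFB I F h n₀ hh
  have hPM : (span {C F} : Ideal (U L)) ≤ I.map C :=
    (Ideal.span_singleton_le_iff_mem _).2 (Ideal.mem_map_of_mem _ hFI)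
  generalize I.map (C : S L →+* U L) = M at k2 k3 hM hpsi hPM ⊢
  have hC : Prime (C F : U L) := (prime_C_iff T2).2 hF.prime
  have hP : (span {C F} : Ideal (U L)).IsHomogeneous (bih L w2) := hom_span (C_mem_bih w2 hF.hom)
  have hp : (span {C F} : Ideal (U L)).IsPrime := (Ideal.span_singleton_prime hC.ne_zero).2 hC
  have n1 : ell F ∉ (span {C F} : Ideal (U L)) := fun e =>
    s2.not_dvd_ell (Ideal.mem_span_singleton.1 e)
  have n2 : cee F ∉ (span {C F} : Ideal (U L)) := fun e =>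
    s2.not_dvd_cee (Ideal.mem_span_singleton.1 e)
  have n3 : ell F * cee F ∉ (span {C F} : Ideal (U L)) := fun e => (hp.mem_or_mem e).elim n1 n2
  have m3 : ell F * cee F ∈ bih L w2 ((1, d) + (2, d)) :=
    SetLike.mul_mem_graded s2.ell_mem s2.cee_mem
  have hA := ((hom_span s2.ell_mem).mul hM).sup hP
  have hB := ((hom_span s2.cee_mem).mul hM).sup hP
  have l1 : span {ell F} ≤ KK F := (le_sup_left.trans le_sup_left).trans s2.le_KK
  have l2 : span {cee F} ≤ KK F := (le_sup_right.trans le_sup_left).trans s2.le_KK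
  have l3 : span {C F} ≤ KK F := le_sup_right.trans s2.le_KK
  have i1 : (span {ell F} * M ⊔ span {C F}) ⊔ (span {cee F} * M ⊔ span {C F}) ≤ M ⊓ KK F :=
    le_inf (sup_le (sup_le Ideal.mul_le_right hPM) (sup_le Ideal.mul_le_right hPM))
      (sup_le (sup_le (Ideal.mul_le_left.trans l1) l3) (sup_le (Ideal.mul_le_left.trans l2) l3))
  have i2 : span {ell F * cee F} * M ⊔ span {C F} ≤
      (span {ell F} * M ⊔ span {C F}) ⊓ (span {cee F} * M ⊔ span {C F}) :=
    le_inf (sup_le_sup_right (Ideal.mul_mono_left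
      (Ideal.span_singleton_le_span_singleton.2 (dvd_mul_right _ _))) _)
      (sup_le_sup_right (Ideal.mul_mono_left
        (Ideal.span_singleton_le_span_singleton.2 (dvd_mul_left _ _))) _)
  obtain ⟨c1, t1⟩ := tors one_le_w2 (hM.inf s2.KK_hom) k2
  obtain ⟨c2, t2⟩ := tors one_le_w2 (hA.inf hB) k3
  refine ⟨c1 + c2 + n₀ + 2 * d, fun a b ha hab => ?_⟩
  obtain ⟨a, rfl⟩ : ∃ a', a = a' + 3 := ⟨a - 3, by omega⟩
  obtain ⟨b, rfl⟩ : ∃ b', b = b' + 2 * d := ⟨b - 2 * d, by omega⟩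
  have e1 := hf_sup_inf hM s2.KK_hom (a + 3, b + 2 * d)
  have e2 := le_antisymm (hf_le (t1 (a + 3) (b + 2 * d) (by omega))) (hf_mono i1 _)
  have e3 := hf_sup_inf hA hB (a + 3, b + 2 * d)
  have e4 := le_antisymm (hf_le (t2 (a + 3) (b + 2 * d) (by omega))) (hf_mono i2 _)
  have e5 := hf_mul_prime hM hP hp hPM s2.ell_mem n1 (a + 2, b + d)
  have e6 := hf_mul_prime hM hP hp hPM s2.cee_mem n2 (a + 1, b + d)
  have e7 := hf_mul_prime hM hP hp hPM m3 n3 (a, b)
  rw [show ((1, d) : ℕ × ℕ) + (a + 2, b + d) = (a + 3, b + 2 * d) from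
    Prod.ext (by simp only [Prod.fst_add]; omega) (by simp only [Prod.snd_add]; omega)] at e5
  rw [show ((2, d) : ℕ × ℕ) + (a + 1, b + d) = (a + 3, b + 2 * d) from
    Prod.ext (by simp only [Prod.fst_add]; omega) (by simp only [Prod.snd_add]; omega)] at e6
  rw [show ((1, d) : ℕ × ℕ) + (2, d) + (a, b) = (a + 3, b + 2 * d) from
    Prod.ext (by simp only [Prod.fst_add]; omega) (by simp only [Prod.snd_add]; omega)] at e7
  have p0 := hpsi (a + 3) (b + 2 * d) (by omega)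
  have p1 := hpsi (a + 2) (b + d) (by omega)
  have p2 := hpsi (a + 1) (b + d) (by omega)
  have p3 := hpsi a b (by omega)
  rw [← Hfj.comb h (d - 1) a (b + 2 * d : ℕ), ← p0,
    show ((b + 2 * d : ℕ) : ℤ) - (a + 3 : ℕ) - (d - 1) + 1 = (b + d : ℕ) - (a + 1 : ℕ) by
      push_cast; ring,
    show ((b + 2 * d : ℕ) : ℤ) - (a + 3 : ℕ) - (d - 1) = (b + d : ℕ) - (a + 2 : ℕ) by
      push_cast; ring,
    show ((b + 2 * d : ℕ) : ℤ) - (a + 3 : ℕ) - 2 * (d - 1) + 1 = b - a by push_cast; ring,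
    ← p1, ← p2, ← p3]
  rw [e2] at e1
  rw [e4] at e3
  have f1 := congrArg (Nat.cast : ℕ → ℚ) e1
  have f3 := congrArg (Nat.cast : ℕ → ℚ) e3
  have f5 := congrArg (Nat.cast : ℕ → ℚ) e5
  have f6 := congrArg (Nat.cast : ℕ → ℚ) e6
  have f7 := congrArg (Nat.cast : ℕ → ℚ) e7
  rw [Nat.cast_add, Nat.cast_add] at f1 f3 f5 f6 f7
  linarith

end Pool.Agent.P.MP_6f117a_ag.Surf
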