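import Pool.Agent.P.MP_6f117a_ag.SIface

/-! Step HFJ1 of the proof for surfaces in projective three-space. -/

namespace Pool.Agent.P.MP_6f117a_ag.Surf

open MvPolynomial Module
open Ideal (span)
open scoped Polynomial WithZero

universe u

theorem pHFJ1 (L : Type u) [Field L] [IsAlgClosed L] [CharZero L]
    (hSIG1 : S_SIG1 L) (hHFA : S_HFA L) (hHFB : S_HFB L) (hKZ : S_KZ L) :
    S_HFJ1 L := by
  intro d F hF I hI hFI
  have h1 := hSIG1 d F hF
  have hM := (hHFA d F hF).map1 I hI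
  have h2 := hF.two
  obtain ⟨c, hc⟩ := tors one_le_w1 (hM.inf h1.K1_hom) (hKZ d F hF I hI).1
  refine ⟨c + d, by omega, fun a b ha hb => ?_⟩
  have hP : (span {C F} : Ideal (U1 L)) = (span {F} : Ideal (S L)).map C := by
    rw [Ideal.map_span, Set.image_singleton]
  have hPM : (span {C F} : Ideal (U1 L)) ≤ I.map C :=
    (Ideal.span_singleton_le_iff_mem _).2 (Ideal.mem_map_of_mem _ hFI)
  have hPh : (span {C F} : Ideal (U1 L)).IsHomogeneous (bih L w1) :=
    hom_span (C_mem_bih w1 hF.hom)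
  have hpr : Prime (C F : U1 L) := (MvPolynomial.prime_C_iff _).2 hF.prime
  have hPp : (span {C F} : Ideal (U1 L)).IsPrime :=
    (Ideal.span_singleton_prime hpr.ne_zero).2 hpr
  have e1 := hf_sup_inf hM h1.K1_hom (a, b)
  have e2 : hf (bih L w1) (I.map C ⊓ K1 F) (a, b) =
      hf (bih L w1) (span {ell1 F} * I.map C ⊔ span {C F}) (a, b) := by
    have g1 : span {ell1 F} * I.map C ≤ I.map (C : S L →+* U1 L) :=
      Ideal.mul_le.2 fun x _ y hy => Ideal.mul_mem_left _ _ hy
    have g2 : span {ell1 F} * I.map C ≤ K1 F :=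
      Ideal.mul_le.2 fun x hx y _ => Ideal.mul_mem_right _ _ (h1.le_K1 (Ideal.mem_sup_left hx))
    have g3 : (span {C F} : Ideal (U1 L)) ≤ K1 F := le_sup_right.trans h1.le_K1
    have g4 : span {ell1 F} * I.map C ⊔ span {C F} ≤ I.map C ⊓ K1 F :=
      sup_le (le_inf g1 g2) (le_inf hPM g3)
    exact le_antisymm (hf_le (hc a b (by omega))) (hf_mono g4 _)
  have e3 := hf_mul_prime hM hPh hPp hPM h1.ell1_mem
    (fun h => h1.not_dvd_ell1 (Ideal.mem_span_singleton.1 h)) (a - 1, b - d)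
  have e4 : ((1, d) : ℕ × ℕ) + (a - 1, b - d) = (a, b) := by
    rw [Prod.mk_add_mk, Prod.mk.injEq]
    omega
  rw [e4, ← e2, hP] at e3
  have f1 := (hHFB I a b (by omega)).1
  have f2 := (hHFB (span {F}) a b (by omega)).1
  have f3 := (hHFB I (a - 1) (b - d) (by omega)).1
  have f4 := (hHFB (span {F}) (a - 1) (b - d) (by omega)).1
  rw [show a - 1 + 2 = a + 1 by omega, show b - d - (a - 1) = b - a - (d - 1) by omega] at f3 f4
  rw [f2, f3, f4] at e3
  rw [f1] at e1
  zify at e1 e3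
  linear_combination e1 - e3

end Pool.Agent.P.MP_6f117a_ag.Surf
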