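import Pool.Agent.P.MP_6f117a_ag.SIface

/-! Step HFZ of the proof for surfaces in projective three-space. -/

namespace Pool.Agent.P.MP_6f117a_ag.Surf

open MvPolynomial Module
open Ideal (span)
open scoped Polynomial WithZero

universe u

theorem shift_hfz (D : ℤ) (h : ℤ → ℚ) (a : ℕ) (b k : ℤ) :
    Phi D h a (b - k) = Phi D (fun n => h (n - k)) a b := by
  refine Finset.sum_congr rfl fun l _ => ?_
  simp only [phi]
  rw [show b - k - a + l = b - a + l - k by ring, show b - a + l - k - D = b - a + l - D - k by ring,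
    show b - a + l - k - 2 * D = b - a + l - 2 * D - k by ring]

theorem pHFZ (L : Type u) [Field L] [IsAlgClosed L] [CharZero L]
    (hSIG1 : S_SIG1 L) (hSIG2 : S_SIG2 L) (hHFA : S_HFA L) (hHFJ : S_HFJ L) (hQUE : S_QUE L) (hIZ : S_IZ L) :
    S_HFZ L := by
  intro d F hF μ j s Q f e hQ hQK hfs hFf hZ ⟨c₀, n₀, he⟩
  have s2 := hSIG2 d F hF
  have ha := hHFA d F hF
  obtain ⟨z1, z2, -, -, -, z3⟩ := hIZ d F hF μ j Q hQ
  obtain ⟨b1, b2, -⟩ := z3 s f hfs
  have hCf : (C f : U L) ∈ bih L w2 (0, s) := C_mem_bih w2 hfs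
  have hCF : C F ∈ KK F := (s2.C_mem_KK F).2 dvd_rfl
  set SS : Ideal (U L) := (span {C f} ⊔ KK F).colon {Q} with hSS
  have hSh : SS.IsHomogeneous (bih L w2) := hom_colon ((hom_span hCf).sup s2.KK_hom) hQ
  have hKS : KK F ≤ SS := le_sup_right.trans Ideal.le_colon
  have eqI : span {C f} * IZ hF.prime Q ⊔ KK F = span {Q} * SS ⊔ KK F := by
    refine le_antisymm (sup_le (fun x hx => ?_) le_sup_right) (sup_le (fun x hx => ?_) le_sup_right)
    · obtain ⟨G, hG, rfl⟩ := Ideal.mem_span_singleton_mul.1 hx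
      obtain ⟨y', hy, k, hk, e1⟩ := Submodule.mem_sup.1 (hZ G hG)
      obtain ⟨y, rfl⟩ := Ideal.mem_span_singleton.1 hy
      rw [← e1]
      refine add_mem (Ideal.mem_sup_left (Ideal.mem_span_singleton_mul.2 ⟨y, ?_, rfl⟩))
        (Ideal.mem_sup_right hk)
      refine Submodule.mem_colon_singleton.2 ?_
      rw [smul_eq_mul, show y * Q = C f * G - k by rw [← e1]; ring]
      exact sub_mem (Ideal.mem_sup_left (Ideal.mem_span_singleton.2 ⟨G, rfl⟩))
        (Ideal.mem_sup_right hk)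
    · obtain ⟨y, hy, rfl⟩ := Ideal.mem_span_singleton_mul.1 hx
      obtain ⟨G', hG, k, hk, e1⟩ := Submodule.mem_sup.1 (Submodule.mem_colon_singleton.1 hy)
      obtain ⟨G, rfl⟩ := Ideal.mem_span_singleton.1 hG
      rw [smul_eq_mul, mul_comm y] at e1
      rw [← e1]
      refine add_mem (Ideal.mem_sup_left (Ideal.mem_span_singleton_mul.2 ⟨G, ?_, rfl⟩))
        (Ideal.mem_sup_right hk)
      refine ⟨s, f, hfs, hFf, ?_⟩
      rw [show C f * G = Q * y - k by rw [← e1]; ring]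
      exact sub_mem (Ideal.mem_sup_left (Ideal.mem_span_singleton.2 ⟨y, rfl⟩))
        (Ideal.mem_sup_right hk)
  have hJS : (bI F Q f).map C ⊔ KK F ≤ SS := sup_le (Ideal.map_le_iff_le_comap.2 le_rfl) hKS
  obtain ⟨N, hN⟩ := hF.null
  have hSJ : SS ≤ sat (xj T2 L) ((bI F Q f).map C ⊔ KK F) := by
    refine le_of_hom hSh ?_
    rintro ⟨a, b⟩ G hG hG'
    refine mem_sat_of_pow (fun k => C (dF F k)) (N := N) (fun i => ?_)
      (hQUE d F hF μ j a b Q G f hQ hG' hFf
        (by rw [mul_comm]; exact Submodule.mem_colon_singleton.1 hG))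
    have h1 : span {F} ⊔ span (Set.range (dF F)) ≤ Ideal.comap (C : S L →+* U L)
        (((bI F Q f).map C ⊔ KK F) ⊔ span (Set.range fun k => C (dF F k))) := by
      refine sup_le ((Ideal.span_singleton_le_iff_mem _).2 ?_) (Ideal.span_le.2 ?_)
      · exact Ideal.mem_sup_left (Ideal.mem_sup_right hCF)
      · rintro _ ⟨k, rfl⟩
        exact Ideal.mem_sup_right (Ideal.subset_span ⟨k, rfl⟩)
    have h2 := Ideal.mem_comap.1 (h1 (hN i))
    rwa [map_pow] at h2
  obtain ⟨c₁, h1⟩ := tors one_le_w2 hSh hSJ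
  obtain ⟨c₂, h2⟩ := hHFJ d F hF (bI F Q f) b1 b2 (fun n => PA d n - e * n - c₀) (d + n₀) (by
    intro n hn
    have e1 := ha.codF n (by omega)
    have e2 : (cod (frm L) (bI F Q f) n : ℚ) = e * n + c₀ := by exact_mod_cast he n (by omega)
    simp only [cod] at e1 e2
    push_cast at e1 e2 ⊢
    linarith)
  obtain ⟨c₃, h3⟩ := hHFJ d F hF ⊤ (Ideal.IsHomogeneous.top _) trivial (PA d) d (by
    intro n hn
    have e1 := ha.codF n hn
    simp only [cod] at e1
    push_cast at e1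
    exact e1)
  refine ⟨PA d (-((j : ℤ) - s)) - PA d 0 + e * ((j : ℚ) - s) - c₀, c₁ + c₂ + c₃ + j,
    fun a b h4 h5 => ?_⟩
  have e1 := hf_mul_prime z1 s2.KK_hom s2.KK_prime (le_sup_right.trans z2) hCf
    (fun h => hFf ((s2.C_mem_KK f).1 h)) (a, b)
  have e2 := hf_mul_prime hSh s2.KK_hom s2.KK_prime hKS hQ hQK (a - μ, b + s - j)
  have e3 : ((μ, j) + (a - μ, b + s - j) : ℕ × ℕ) = (0, s) + (a, b) := by
    simp only [Prod.mk_add_mk, Prod.mk.injEq]; omega
  rw [e3, ← eqI] at e2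
  have e4 : hf (bih L w2) SS (a - μ, b + s - j) =
      hf (bih L w2) ((bI F Q f).map C ⊔ KK F) (a - μ, b + s - j) :=
    le_antisymm (hf_le (h1 _ _ (by omega))) (hf_mono hJS _)
  have e5 := h2 (a - μ) (b + s - j) (by omega) (by omega)
  have e6 := h3 a b (by omega) (by omega)
  rw [Ideal.map_top, top_sup_eq] at e6
  rw [show ((b + s - j : ℕ) : ℤ) = b - ((j : ℤ) - s) by omega, shift_hfz] at e5
  have e7 : (fun n : ℤ => PA d n - (((j : ℤ) - s) * d + e : ℤ) * n +
      (PA d (-((j : ℤ) - s)) - PA d 0 + e * ((j : ℚ) - s) - c₀)) =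
      fun n : ℤ => PA d (n - ((j : ℤ) - s)) - e * ((n - ((j : ℤ) - s) : ℤ) : ℚ) - c₀ := by
    funext n
    simp only [PA]
    push_cast
    ring
  rw [e7, ← e5, ← e6, ← e4]
  have e8 : (hf (bih L w2) (IZ hF.prime Q) (a, b) : ℚ) + hf (bih L w2) (KK F) (a - μ, b + s - j) =
      hf (bih L w2) SS (a - μ, b + s - j) + hf (bih L w2) (KK F) (a, b) := by
    exact_mod_cast (by omega : hf (bih L w2) (IZ hF.prime Q) (a, b) +
      hf (bih L w2) (KK F) (a - μ, b + s - j) =
      hf (bih L w2) SS (a - μ, b + s - j) + hf (bih L w2) (KK F) (a, b))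
  simp only [cod]
  push_cast
  linarith

end Pool.Agent.P.MP_6f117a_ag.Surf
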