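import Pool.Agent.P.MP_6f117a_ag.SIface

/-! Step HS of the proof for surfaces in projective three-space. -/

namespace Pool.Agent.P.MP_6f117a_ag.Surf

open MvPolynomial Module
open Ideal (span)
open scoped Polynomial WithZero

universe u

theorem num_hs (a b : ℕ → ℤ) (A c : ℤ) (N : ℕ) (h1 : ∀ n, N ≤ n → a (n + 1) = a n + b (n + 1))
    (h2 : ∀ n, N ≤ n → b n ≤ b (n + 1)) (h3 : ∀ n, 0 ≤ b n) (h4 : ∀ n, N ≤ n → a n ≤ A * n + c) :
    ∃ (e : ℕ) (c' : ℤ) (n₀ : ℕ), ∀ n : ℕ, n₀ ≤ n → a n = e * n + c' := by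
  have mono : ∀ m, N ≤ m → ∀ t, b m ≤ b (m + t) := by
    intro m hm t
    induction t with
    | zero => exact le_rfl
    | succ t ih => exact ih.trans (h2 (m + t) (by omega))
  have grow : ∀ m, N ≤ m → ∀ t : ℕ, a m + b m * t ≤ a (m + t) := by
    intro m hm t
    induction t with
    | zero => simp
    | succ t ih =>
      have e1 := h1 (m + t) (by omega)
      have e2 := mono m hm (t + 1)
      rw [← add_assoc] at e2 ⊢
      push_cast
      linarith
  have bdd : ∀ m, N ≤ m → b m ≤ A := by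
    intro m hm
    by_contra h
    have h5 : A + 1 ≤ b m := by omega
    obtain ⟨t, ht⟩ : ∃ t : ℕ, A * m + c - a m < t := ⟨(A * m + c - a m).toNat + 1, by omega⟩
    have e1 := grow m hm t
    have e2 := h4 (m + t) (by omega)
    push_cast at e2
    nlinarith [mul_le_mul_of_nonneg_right h5 (Int.natCast_nonneg t)]
  obtain ⟨e, ⟨m, hm, rfl⟩, he⟩ := Int.exists_greatest_of_bdd (P := fun z => ∃ m, N ≤ m ∧ b m = z)
    ⟨A, by rintro _ ⟨m, hm, rfl⟩; exact bdd m hm⟩ ⟨_, N, le_rfl, rfl⟩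
  have const : ∀ t, b (m + t) = b m := fun t =>
    le_antisymm (he _ ⟨m + t, by omega, rfl⟩) (mono m hm t)
  have lin : ∀ t : ℕ, a (m + t) = a m + b m * t := by
    intro t
    induction t with
    | zero => simp
    | succ t ih =>
      have e1 := h1 (m + t) (by omega)
      have e2 := const (t + 1)
      rw [← add_assoc] at e2 ⊢
      push_cast
      linarith
  refine ⟨(b m).toNat, a m - b m * m, m, fun n hn => ?_⟩
  obtain ⟨t, rfl⟩ := Nat.exists_eq_add_of_le hn
  rw [lin, Int.toNat_of_nonneg (h3 m)]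
  push_cast
  ring

theorem step_hs {L : Type u} [Field L] [Infinite L] {I : Ideal (S L)}
    (hI : I.IsHomogeneous (frm L)) : ∃ x ∈ frm L 1, ∃ n₀, ∀ n, n₀ ≤ n →
      cod (frm L) I (n + 1) = cod (frm L) I n + cod (frm L) (span {x} ⊔ I) (n + 1) := by
  obtain ⟨T, h1, h2⟩ := exists_ass_sat (X : Fin 4 → S L) I
  obtain ⟨x, hx, h3⟩ := exists_avoid (frm L 1) T fun P hP => by
    obtain ⟨i, hi⟩ := (h1 P hP).2.2.1
    exact ⟨X i, isHomogeneous_X L i, hi⟩
  obtain ⟨n₀, h4⟩ := tors0 (I := I) (hom_colon hI hx) fun G hG =>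
    h2 x h3 G (le_sat _ _ (by
      rw [mul_comm]; exact Submodule.mem_colon_singleton.1 hG))
  refine ⟨x, hx, n₀, fun n hn => ?_⟩
  have e1 := cod_sup_span hI hx n
  have e2 : hf (frm L) (I.colon {x}) n = hf (frm L) I n :=
    le_antisymm (hf_le fun G hG hG' => h4 n hn G hG hG') (hf_mono Ideal.le_colon n)
  rw [add_comm 1 n] at e1
  rw [e1]
  simp only [cod, e2]
  ring

theorem pHS (L : Type u) [Field L] [IsAlgClosed L] [CharZero L]
    (hSIG1 : S_SIG1 L) (hHFA : S_HFA L) :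
    S_HS L := by
  classical
  rintro d F hF I hI hFI ⟨g, hg, hFg⟩
  obtain ⟨s, hs⟩ : ∃ s, ¬F ∣ (DirectSum.decompose (frm L) g s : S L) := by
    by_contra h
    push Not at h
    apply hFg
    rw [← DirectSum.sum_support_decompose (frm L) g]
    exact Finset.dvd_sum fun i _ => h i
  obtain ⟨c, n₁, h1⟩ := (hHFA d F hF).form s _ (DirectSum.decompose (frm L) g s).2 hs
  obtain ⟨x, hx, n₂, h2⟩ := step_hs hI
  obtain ⟨y, -, n₃, h3⟩ := step_hs ((hom_span hx).sup hI)
  refine num_hs (cod (frm L) I) (cod (frm L) (span {x} ⊔ I)) (s * d) c (n₁ + n₂ + n₃)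
    (fun n hn => h2 n (by omega)) (fun n hn => ?_) (cod_nonneg _) fun n hn => ?_
  · rw [h3 n (by omega)]
    exact le_add_of_nonneg_right (cod_nonneg _ _)
  · rw [← h1 n (by omega)]
    have := hf_mono (𝒜 := frm L) (show span {(DirectSum.decompose (frm L) g s : S L)} ⊔ span {F} ≤ I
      from sup_le ((Ideal.span_singleton_le_iff_mem _).2 (hI s hg))
        ((Ideal.span_singleton_le_iff_mem _).2 hFI)) n
    simp only [cod]
    omega

end Pool.Agent.P.MP_6f117a_ag.Surf
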