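import Pool.Agent.P.MP_6f117a_ag.SIface

/-! Step IZ of the proof for surfaces in projective three-space. -/

namespace Pool.Agent.P.MP_6f117a_ag.Surf

open MvPolynomial Module
open Ideal (span)
open scoped Polynomial WithZero

universe u

namespace IzA

open DirectSum

variable {L : Type u} [Field L]

theorem dec_C {τ : Type} (wt : τ → ℕ) (g : S L) (n : ℕ) :
    (decompose (bih L wt) (C g : Jet τ L) (0, n) : Jet τ L) = C (decompose (frm L) g n : S L) := by
  induction g using Decomposition.inductionOn (frm L) with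
  | zero => simp
  | @homogeneous i m =>
    by_cases e : i = n
    · subst e
      rw [decompose_of_mem_same _ (C_mem_bih wt m.2), decompose_of_mem_same _ m.2]
    · rw [decompose_of_mem_ne _ (C_mem_bih wt m.2) (by simpa using e),
        decompose_of_mem_ne _ m.2 e, map_zero]
  | add a b ha hb =>
    simp only [map_add, decompose_add, DirectSum.add_apply, Submodule.coe_add, ha, hb]

theorem hom_comap {τ : Type} (wt : τ → ℕ) {K : Ideal (Jet τ L)} (h : K.IsHomogeneous (bih L wt)) :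
    (K.comap (C : S L →+* Jet τ L)).IsHomogeneous (frm L) := fun n g hg => by
  rw [Ideal.mem_comap, ← dec_C wt]
  exact h _ hg

theorem unif {F : S L} (hF : Prime F) (Q : U L) (t : Finset (U L)) (ht : ∀ G ∈ t, G ∈ IZ hF Q) :
    ∃ (s : ℕ) (f : S L), f.IsHomogeneous s ∧ ¬F ∣ f ∧ ∀ G ∈ t, C f * G ∈ span {Q} ⊔ KK F := by
  classical
  induction t using Finset.induction_on with
  | empty => exact ⟨0, 1, isHomogeneous_one _ _, hF.not_dvd_one, by simp⟩
  | insert a t _ ih =>
    obtain ⟨s, f, h1, h2, h3⟩ := ih fun G hG => ht G (Finset.mem_insert_of_mem hG)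
    obtain ⟨m, g, h4, h5, h6⟩ := ht a (Finset.mem_insert_self _ _)
    refine ⟨s + m, f * g, h1.mul h4, fun h => (hF.dvd_or_dvd h).elim h2 h5, fun G hG => ?_⟩
    rcases Finset.mem_insert.1 hG with rfl | hG
    · rw [map_mul, mul_assoc]; exact Ideal.mul_mem_left _ _ h6
    · rw [map_mul, mul_comm (C f), mul_assoc]; exact Ideal.mul_mem_left _ _ (h3 G hG)

end IzA

theorem pIZ (L : Type u) [Field L] [IsAlgClosed L] [CharZero L]
    (hSIG1 : S_SIG1 L) (hSIG2 : S_SIG2 L) (hSIG3 : S_SIG3 L) :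
    S_IZ L := by
  intro d F hF μ j Q hQ
  have s1 := hSIG1 d F hF
  have s2 := hSIG2 d F hF
  have s3 := hSIG3 d F hF
  have hJ : (span {Q} ⊔ KK F).IsHomogeneous (bih L w2) := (hom_span hQ).sup s2.KK_hom
  refine ⟨?_, fun G hG => ⟨0, 1, isHomogeneous_one _ _, hF.prime.not_dvd_one, by simpa using hG⟩,
    ?_, ?_, ?_, fun s f hf => ⟨?_, ?_, ?_⟩⟩
  · rintro i r ⟨n, s, h1, h2, h3⟩
    refine ⟨n, s, h1, h2, ?_⟩
    rw [← DirectSum.coe_decompose_mul_add_of_left_mem (bih L w2) (C_mem_bih w2 h1)]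
    exact hJ _ h3
  · rintro G ⟨n, s, h1, h2, h3⟩
    refine ⟨n + 1, s * X 0, h1.mul (isHomogeneous_X L 0), fun h => (hF.prime.dvd_or_dvd h).elim h2
      (s1.not_dvd 1 _ hF.two (X_ne_zero 0) (isHomogeneous_X L 0)), ?_⟩
    rw [map_mul, mul_assoc]
    exact h3
  · rintro h0 G ⟨n, s, h1, h2, h3⟩
    refine ⟨n, s, h1, h2, ?_⟩
    obtain ⟨a, ha, k, hk, e⟩ := Submodule.mem_sup.1 h3
    obtain ⟨y, rfl⟩ := Ideal.mem_span_singleton'.1 ha
    rw [← smul_eq_C_mul, ← Derivation.map_smul, smul_eq_C_mul, ← e, map_add, Derivation.leibniz, h0,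
      smul_zero, zero_add, smul_eq_mul]
    exact add_mem (Ideal.mem_sup_left (Ideal.mul_mem_right _ _ (Ideal.mem_span_singleton_self Q)))
      (Ideal.mem_sup_right (s3.dl_KK k hk))
  · obtain ⟨t, ht⟩ := IsNoetherian.noetherian (IZ hF.prime Q)
    obtain ⟨s, f, h1, h2, h3⟩ := IzA.unif hF.prime Q t fun G hG =>
      ht ▸ Submodule.subset_span hG
    refine ⟨s, f, h1, h2, fun G hG => ?_⟩
    have : IZ hF.prime Q ≤ (span {Q} ⊔ KK F).colon {C f} := by
      rw [← ht]
      refine Submodule.span_le.2 fun G hG => Submodule.mem_colon_singleton.2 ?_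
      rw [smul_eq_mul, mul_comm]
      exact h3 G hG
    rw [mul_comm]
    exact Submodule.mem_colon_singleton.1 (this hG)
  · exact IzA.hom_comap w2 (hom_colon ((hom_span (C_mem_bih w2 hf)).sup s2.KK_hom) hQ)
  · exact Ideal.le_colon (Ideal.mem_sup_right ((s2.C_mem_KK F).2 dvd_rfl))
  · exact Ideal.le_colon (Ideal.mem_sup_left (Ideal.mem_span_singleton_self _))

end Pool.Agent.P.MP_6f117a_ag.Surf
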