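import Pool.Agent.P.MP_6f117a_ag.SIface

/-! Step JOUM of the proof for surfaces in projective three-space. -/

namespace Pool.Agent.P.MP_6f117a_ag.Surf

open MvPolynomial Module
open Ideal (span)
open scoped Polynomial WithZero

universe u

namespace JoumA

variable {L : Type u} [Field L] (W : Web L)

theorem alg_ne {a : A2 L} (ha : a ≠ 0) : algebraMap (A2 L) W.E a ≠ 0 := fun h => by
  have h1 := (W.ker (Polynomial.C a)).1 (by rwa [Polynomial.aeval_C])
  have h2 := Polynomial.natDegree_le_of_dvd h1 (by simpa using ha)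
  rw [Polynomial.natDegree_C] at h2
  exact h2.not_gt W.deg_pos

/-- the elements that are regular along a curve -/
def locSub {f : A2 L} (hf : Prime f) : Submodule L W.E where
  carrier := {x | W.Loc f x}
  add_mem' := by
    rintro a b ⟨s, p, h1, h2⟩ ⟨t, r, h3, h4⟩
    refine ⟨s * t, Polynomial.C t * p + Polynomial.C s * r,
      fun h => (hf.dvd_or_dvd h).elim h1 h3, ?_⟩
    rw [map_add, map_mul, map_mul, map_mul, Polynomial.aeval_C, Polynomial.aeval_C, ← h2, ← h4]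
    ring
  zero_mem' := ⟨1, 0, hf.not_dvd_one, by simp⟩
  smul_mem' := by
    rintro c a ⟨s, p, h1, h2⟩
    refine ⟨s, Polynomial.C (algebraMap L (A2 L) c) * p, h1, ?_⟩
    rw [map_mul, Polynomial.aeval_C, ← IsScalarTower.algebraMap_apply, ← h2, Algebra.smul_def]
    ring

theorem loc_kap {f f' : A2 L} (hf : Prime f) (h0 : f' ≠ 0) (h1 : ¬f ∣ f') (h2 : ¬f ∣ W.Δ)
    (h : ℕ → A2 L) : W.Loc f (W.kap f' h) := by
  obtain ⟨b, hb⟩ := W.Δ_eq
  refine ⟨f' * W.Δ, b * ∑ k ∈ Finset.range W.G.natDegree,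
    W.G /ₘ Polynomial.X ^ (k + 1) * Polynomial.C (h k),
    fun e => (hf.dvd_or_dvd e).elim h1 h2, ?_⟩
  have a1 := alg_ne W h0
  have a2 := alg_ne W W.Δ_ne
  rw [← hb, map_mul] at a2
  have a3 := right_ne_zero_of_mul a2
  rw [map_mul, ← hb, map_mul, map_mul, map_sum, Web.kap]
  simp only [map_mul, Polynomial.aeval_C]
  field_simp

/-- the vector field as a derivation -/
noncomputable def Dd : Derivation L W.E W.E := W.d 0 + W.z • W.d 1

theorem Dd_apply (x : W.E) : Dd W x = W.D x := rfl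

/-- the operator as a linear map -/
noncomputable def LopL : W.E →ₗ[L] W.E := (Dd W).toLinearMap + LinearMap.mulLeft L (W.d 1 W.z)

theorem LopL_apply (x : W.E) : LopL W x = Dd W x + W.d 1 W.z * x := rfl

theorem ker_fg (h : ∀ x, W.D x = 0 → ∃ c, algebraMap L W.E c = x) :
    FiniteDimensional L (LinearMap.ker (LopL W)) := by
  by_cases e : LinearMap.ker (LopL W) = ⊥
  · rw [e]; infer_instance
  obtain ⟨k', h1, h0⟩ := Submodule.exists_mem_ne_zero_of_ne_bot e
  refine Submodule.finiteDimensional_of_le (S₂ := Submodule.span L {k'}) fun k hk => ?_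
  rw [LinearMap.mem_ker, LopL_apply] at h1 hk
  have e1 := (Dd W).leibniz (k / k') k'
  rw [div_mul_cancel₀ _ h0, smul_eq_mul, smul_eq_mul] at e1
  have e2 : k' * Dd W (k / k') = 0 := by
    have : k / k' * k' = k := div_mul_cancel₀ _ h0
    linear_combination hk - e1 - k / k' * h1 + W.d 1 W.z * this
  obtain ⟨c, hc⟩ := h _ ((mul_eq_zero.1 e2).resolve_left h0)
  exact Submodule.mem_span_singleton.2 ⟨c, by rw [Algebra.smul_def, hc, div_mul_cancel₀ _ h0]⟩

end JoumA

open JoumA in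
theorem pJOUM (L : Type u) [Field L] [IsAlgClosed L] [CharZero L]
    (hKERF : S_KERF L) (hREP : S_REP L) (hLOC : S_LOC L) (hFILT : S_FILT L) (hFINT : S_FINT L) :
    S_JOUM L := by
  intro W
  by_cases hx : ∃ x, (∀ c, algebraMap L W.E c ≠ x) ∧ W.D x = 0
  · obtain ⟨x, h1, h2⟩ := hx
    exact hFINT W x h1 h2
  have hk := ker_fg W fun x h => by
    by_contra hc
    exact hx ⟨x, fun c e => hc ⟨c, e⟩, h⟩
  let Gd : A2 L → Prop := fun f =>
    Prime f ∧ ¬f ∣ W.g ∧ ¬f ∣ W.Δ ∧ ¬f ∣ pderiv 1 f ∧ W.Inv f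
  by_cases hb : ∃ N, ∀ f, Gd f → f.totalDegree ≤ N
  · obtain ⟨N, hN⟩ := hb
    refine ⟨N + W.g.totalDegree + W.Δ.totalDegree, fun c hc => ?_⟩
    obtain ⟨f, h1, h2, h3, h4⟩ := hKERF c
    by_cases a1 : f ∣ W.g
    · exact ⟨W.g, W.g_ne, by omega, (h2 _).2 a1⟩
    by_cases a2 : f ∣ W.Δ
    · exact ⟨W.Δ, W.Δ_ne, by omega, (h2 _).2 a2⟩
    have := hN f ⟨h1, a1, a2, h3, h4 W hc⟩
    exact ⟨f, h1.ne_zero, by omega, (h2 _).2 dvd_rfl⟩
  exfalso
  push Not at hb
  have hS : {n | ∃ f, Gd f ∧ f.totalDegree = n}.Infinite :=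
    Set.infinite_of_forall_exists_gt fun N => let ⟨f, h1, h2⟩ := hb N; ⟨_, ⟨f, h1, rfl⟩, h2⟩
  choose f hf hd using fun i => (hS.natEmbedding _ i).2
  have nd : ∀ i j, i ≠ j → ¬f i ∣ f j := fun i j hij h => hij (by
    have a := (hf i).1.associated_of_dvd (hf j).1 h
    refine (hS.natEmbedding _).injective (Subtype.ext ?_)
    rw [← hd, ← hd]
    exact le_antisymm (totalDegree_le_of_dvd_of_isDomain a.dvd (hf j).1.ne_zero)
      (totalDegree_le_of_dvd_of_isDomain a.symm.dvd (hf i).1.ne_zero))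
  choose h hh using fun i => hREP W (f i) (hf i).1 (hf i).2.2.2.1 (hf i).2.2.2.2
  have hl := fun i => hLOC W (f i) (h i) (hf i).1 (hf i).2.1 (hf i).2.2.1 (hf i).2.2.2.1
    (hf i).2.2.2.2 (hh i)
  have li : LinearIndependent L fun i => W.kap (f i) (h i) := by
    refine linearIndependent_iff_notMem_span.2 fun i hi => (hl i).2 ?_
    refine (Submodule.span_le (p := locSub W (hf i).1)).2 ?_ hi
    rintro _ ⟨j, hj, rfl⟩
    exact loc_kap W (hf i).1 (hf j).1.ne_zero (nd i j (Ne.symm hj.2)) (hf i).2.2.1 _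
  obtain ⟨V, hV, hV'⟩ := hFILT W
  have fg : (Submodule.span L (Set.range fun i => W.kap (f i) (h i))).FG := by
    refine Submodule.fg_of_fg_map_of_fg_inf_ker (LopL W) ?_ ?_
    · refine Module.Finite.iff_fg.1 (Submodule.finiteDimensional_of_le (S₂ := V) ?_)
      rw [Submodule.map_span, Submodule.span_le]
      rintro _ ⟨_, ⟨i, rfl⟩, rfl⟩
      exact hV' (f i) (h i) (hf i).1 (hf i).2.1 (hf i).2.2.1 (hh i) (hl i).1
    · exact Module.Finite.iff_fg.1 (Submodule.finiteDimensional_of_le inf_le_right)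
  obtain ⟨t, ht⟩ := fg
  have := li.finite_of_le_span_finite _ (t : Set W.E) (by rw [ht]; exact Submodule.subset_span)
  exact not_finite ℕ

end Pool.Agent.P.MP_6f117a_ag.Surf
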