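import Pool.Agent.P.MP_6f117a_ag.SIface

/-! Step KERF of the proof for surfaces in projective three-space. -/

namespace Pool.Agent.P.MP_6f117a_ag.Surf

open MvPolynomial Module
open Ideal (span)
open scoped Polynomial WithZero

universe u

namespace Kerf

variable {L : Type u} [Field L]

theorem chain (c : PCv L) (a : A2 L) :
    c.δ (aeval c.y a) = aeval c.y (pderiv 0 a) + aeval c.y (pderiv 1 a) * c.δ (c.y 1) := by
  induction a using MvPolynomial.induction_on with
  | C a => simp
  | add p q hp hq => simp only [map_add, hp, hq]; ring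
  | mul_X p i hp =>
    simp only [map_mul, aeval_X, Derivation.leibniz, smul_eq_mul, hp, map_add]
    fin_cases i
    · simp [c.dt]; ring
    · simp; ring

theorem pderiv_eq_zero_of_dvd {f : A2 L} (hf : f ≠ 0) (i : Fin 2) (h : f ∣ pderiv i f) :
    pderiv i f = 0 := by
  by_contra h0
  obtain ⟨g, hg⟩ := h
  have hg0 : g ≠ 0 := by rintro rfl; exact h0 (by simpa using hg)
  have h1 : (X i * pderiv i f).totalDegree ≤ f.totalDegree := by
    have e : X i * pderiv i f = ∑ m ∈ f.support, m i • monomial m (coeff m f) := by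
      conv_lhs => rw [f.as_sum, map_sum, Finset.mul_sum]
      exact Finset.sum_congr rfl fun m _ => X_mul_pderiv_monomial
    rw [e]
    refine totalDegree_finsetSum_le fun m hm => (totalDegree_smul_le _ _).trans ?_
    exact (totalDegree_monomial_le _ _).trans (le_totalDegree hm)
  rw [hg, totalDegree_mul_of_isDomain (X_ne_zero i) (mul_ne_zero hf hg0),
    totalDegree_mul_of_isDomain hf hg0, totalDegree_X] at h1
  omega

theorem eq_C_of_pderiv [CharZero L] {f : A2 L} (h : ∀ i, pderiv i f = 0) : f = C (coeff 0 f) := by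
  classical
  ext m
  rw [coeff_C]
  split_ifs with hm
  · rw [← hm]
  · obtain ⟨i, hi⟩ : ∃ i, m i ≠ 0 := by
      by_contra hc
      push Not at hc
      exact hm (Finsupp.ext fun i => (hc i).symm)
    have h1 := coeff_pderiv (i := i) f (m - Finsupp.single i 1)
    rw [h i, coeff_zero, tsub_add_cancel_of_le
      (Finsupp.single_le_iff.mpr (Nat.one_le_iff_ne_zero.mpr hi))] at h1
    refine (mul_eq_zero.mp h1.symm).resolve_right ?_
    exact Nat.cast_add_one_ne_zero _

theorem exists_gen [IsAlgClosed L] (c : PCv L) :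
    ∃ f : A2 L, Prime f ∧ ∀ a, aeval c.y a = 0 ↔ f ∣ a := by
  set P : Ideal (A2 L) := RingHom.ker c.e0 with hP
  have hmem : ∀ a, a ∈ P ↔ aeval c.y a = 0 := fun a => Iff.rfl
  have : P.IsPrime := RingHom.ker_isPrime _
  have h0 : P ≠ ⊥ := by
    obtain ⟨φ, hφ, hφ'⟩ := c.dep
    intro h
    exact hφ (by simpa [h] using (hmem φ).mpr hφ')
  have hnm : ¬ P.IsMaximal := by
    intro h
    obtain ⟨x, hx⟩ := isMaximal_iff_eq_vanishingIdeal_singleton.mp h
    have h1 : (X 0 - C (x 0) : A2 L) ∈ P := by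
      rw [hx, mem_vanishingIdeal_singleton_iff]
      simp
    rw [hmem, map_sub, aeval_X, aeval_C, sub_eq_zero] at h1
    have h2 := c.dt
    rw [h1, Derivation.map_algebraMap] at h2
    exact zero_ne_one h2
  obtain ⟨M, hM, hPM⟩ := P.exists_le_maximal Ideal.IsPrime.ne_top'
  have hlt : P < M := lt_of_le_of_ne hPM fun h => hnm (h ▸ hM)
  have hdim : ringKrullDim (A2 L) = 2 := by
    rw [MvPolynomial.ringKrullDim_of_isNoetherianRing, ringKrullDim_eq_zero_of_field]
    simp
  have h2 : M.height ≤ 2 := by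
    have := Ideal.height_le_ringKrullDim_of_ne_top hM.ne_top
    rw [hdim] at this
    exact WithBot.coe_le_coe.mp this
  have h3 : P.height < 2 := (Ideal.height_strict_mono_of_isPrime hlt).trans_le h2
  have h4 : P.height = 1 := by
    have h5 : P.height ≠ 0 := Ideal.height_eq_zero_iff_eq_bot.not.mpr h0
    refine le_antisymm ?_ (Order.one_le_iff_ne_zero.mpr h5)
    exact Order.le_of_lt_add_one (by rwa [one_add_one_eq_two])
  obtain ⟨f, hf⟩ := UniqueFactorizationMonoid.isPrincipal_of_height_eq_one h4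
  have hf' : P = span {f} := hf
  have hf0 : f ≠ 0 := by
    rintro rfl
    exact h0 (by simpa using hf')
  refine ⟨f, (Ideal.span_singleton_prime hf0).mp (hf' ▸ this), fun a => ?_⟩
  rw [← hmem, hf', Ideal.mem_span_singleton]

end Kerf

theorem pKERF (L : Type u) [Field L] [IsAlgClosed L] [CharZero L] :
    S_KERF L := by
  intro c
  obtain ⟨f, hf, hk⟩ := Kerf.exists_gen c
  have h0 : aeval c.y (pderiv 0 f) + aeval c.y (pderiv 1 f) * c.δ (c.y 1) = 0 := by
    rw [← Kerf.chain, (hk f).mpr dvd_rfl, map_zero]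
  refine ⟨f, hf, hk, fun h => ?_, fun W hW => ?_⟩
  · have h1 := Kerf.pderiv_eq_zero_of_dvd hf.ne_zero 1 h
    rw [h1, map_zero, zero_mul, add_zero, hk] at h0
    have h2 := Kerf.pderiv_eq_zero_of_dvd hf.ne_zero 0 h0
    have h3 := Kerf.eq_C_of_pderiv (f := f) (fun i => by fin_cases i; exacts [h2, h1])
    apply hf.not_isUnit
    rw [h3]
    refine (IsUnit.mk0 _ fun h4 => hf.ne_zero ?_).map C
    rw [h3, h4, map_zero]
  · rw [Web.Inv, ← hk]
    rw [Web.Sol, Polynomial.eval₂_eq_sum_range] at hW
    have h1 := congrArg (· * aeval c.y (pderiv 1 f) ^ W.G.natDegree) hW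
    simp only [zero_mul, Finset.sum_mul] at h1
    rw [map_sum, ← h1]
    refine Finset.sum_congr rfl fun i hi => ?_
    obtain ⟨k, hk'⟩ := Nat.exists_eq_add_of_le (Nat.lt_succ_iff.mp (Finset.mem_range.mp hi))
    have h2 : -(aeval c.y W.g * aeval c.y (pderiv 0 f)) =
        aeval c.y W.g * c.δ (c.y 1) * aeval c.y (pderiv 1 f) := by
      linear_combination (-aeval c.y W.g) * h0
    rw [map_mul, map_mul, map_pow, map_pow, map_neg, map_mul, h2, hk', Nat.add_sub_cancel_left,
      mul_pow, pow_add]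
    simp only [PCv.e0, RingHom.coe_coe]
    ring

end Pool.Agent.P.MP_6f117a_ag.Surf
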