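import Pool.Agent.P.MP_6f117a_ag.SIface

/-! Step KOS of the proof for surfaces in projective three-space. -/

namespace Pool.Agent.P.MP_6f117a_ag.Surf

open MvPolynomial Module
open Ideal (span)
open scoped Polynomial WithZero

universe u

section

variable {R : Type u} [CommRing R]

theorem lin_kos (c : Fin 3 → R) (k : Fin 3) {J : Ideal R} (hw : ∀ G, c k * G ∈ J → G ∈ J)
    {H : MvPolynomial (Fin 3) R} (h : (∑ i, C (c i) * X i) * H ∈ J.map C) : H ∈ J.map C := by
  classical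
  rw [mem_map_C_iff] at h ⊢
  by_contra hc
  push Not at hc
  obtain ⟨m₀, h₀⟩ := hc
  have hs : ∀ m, coeff m H ∉ J → m ∈ H.support.filter fun m => coeff m H ∉ J := fun m hm =>
    Finset.mem_filter.2 ⟨mem_support_iff.2 fun e => hm (e ▸ J.zero_mem), hm⟩
  obtain ⟨m, hm, hmax⟩ := Finset.exists_max_image _ (fun m => m k) ⟨m₀, hs m₀ h₀⟩
  refine (Finset.mem_filter.1 hm).2 (hw _ ?_)
  have h1 := h (Finsupp.single k 1 + m)
  rw [Finset.sum_mul, coeff_sum, ← Finset.add_sum_erase _ _ (Finset.mem_univ k), mul_assoc,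
    coeff_C_mul, coeff_X_mul] at h1
  refine (J.add_mem_iff_left (J.sum_mem fun i hi => ?_)).1 h1
  rw [mul_assoc, coeff_C_mul, coeff_X_mul']
  split_ifs
  · refine J.mul_mem_left _ (by_contra fun hc => ?_)
    have := hmax _ (hs _ hc)
    simp [Finsupp.single_eq_of_ne' (Finset.ne_of_mem_erase hi)] at this
  · simp

theorem can_kos {I : Ideal R} {u : R} (hu : ∀ G, u * G ∈ I → G ∈ I) {G : MvPolynomial (Fin 3) R}
    (h : C u * G ∈ I.map C) : G ∈ I.map C :=
  mem_map_C_iff.2 fun m => hu _ (by simpa only [coeff_C_mul] using mem_map_C_iff.1 h m)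

theorem reg_kos (c : Fin 3 → R) (k : Fin 3) {I : Ideal R} {u : R} (hu : ∀ G, u * G ∈ I → G ∈ I)
    (hw : ∀ G, c k * G ∈ I ⊔ span {u} → G ∈ I ⊔ span {u}) (n : ℕ) (G : MvPolynomial (Fin 3) R)
    (h : C u ^ n * G ∈ I.map C ⊔ span {∑ i, C (c i) * X i}) :
    G ∈ I.map C ⊔ span {∑ i, C (c i) * X i} := by
  induction n generalizing G with
  | zero => simpa using h
  | succ n ih =>
    rw [pow_succ, mul_assoc] at h
    obtain ⟨a, ha, b, hb, e⟩ := Submodule.mem_sup.1 (ih _ h)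
    obtain ⟨H, rfl⟩ := Ideal.mem_span_singleton.1 hb
    have h1 : H ∈ (I ⊔ span {u}).map (C : R →+* MvPolynomial (Fin 3) R) := lin_kos c k hw (by
      rw [eq_sub_of_add_eq' e, Ideal.map_sup]
      exact sub_mem (Ideal.mem_sup_right (Ideal.mul_mem_right _ _
        (Ideal.mem_map_of_mem _ (Ideal.mem_span_singleton_self u)))) (Ideal.mem_sup_left ha))
    rw [Ideal.map_sup, Ideal.map_span, Set.image_singleton] at h1
    obtain ⟨a', ha', b', hb', rfl⟩ := Submodule.mem_sup.1 h1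
    obtain ⟨H', rfl⟩ := Ideal.mem_span_singleton.1 hb'
    have h2 : G - (∑ i, C (c i) * X i) * H' ∈ I.map (C : R →+* MvPolynomial (Fin 3) R) :=
      can_kos hu (by
        rw [show C u * (G - (∑ i, C (c i) * X i) * H') = a + (∑ i, C (c i) * X i) * a' by
          linear_combination -e]
        exact add_mem ha (Ideal.mul_mem_left _ _ ha'))
    exact Submodule.mem_sup.2 ⟨_, h2, _, Ideal.mem_span_singleton.2 ⟨H', rfl⟩, sub_add_cancel _ _⟩

theorem eval_kos {J : Ideal R} {G : MvPolynomial (Fin 3) R} (h : G ∈ J.map C) (v : Fin 3 → R) :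
    eval v G ∈ J :=
  have : J.map (C : R →+* MvPolynomial (Fin 3) R) ≤ J.comap (eval v) :=
    Ideal.map_le_iff_le_comap.2 fun s hs => by simpa using hs
  this h

theorem comm_kos {σ : Type} (i j : σ) (G : MvPolynomial σ R) :
    pderiv i (pderiv j G) = pderiv j (pderiv i G) := by
  classical
  induction G using MvPolynomial.induction_on with
  | C a => simp
  | add p q hp hq => simp only [map_add, hp, hq]
  | mul_X p k hp =>
    simp only [Derivation.leibniz, smul_eq_mul, map_add, hp, pderiv_X, Pi.single_apply]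
    split_ifs <;> simp <;> ring

end

section

variable {L : Type u} [Field L] {d : ℕ} {F : S L}

theorem seq_kos (hR : S_REGSEQ L) (hF : Good d F) (h1 : Sig1 d F) (a b c : Fin 3)
    (h : ∀ i, i = a ∨ i = b ∨ i = c) {e : ℕ} (he : 0 < e) :
    (∀ G, dF F a ^ e * G ∈ span {F} → G ∈ span {F}) ∧
    (∀ G, dF F b * G ∈ span {F} ⊔ span {dF F a ^ e} → G ∈ span {F} ⊔ span {dF F a ^ e}) ∧
    ∀ G, dF F c * G ∈ span {F} ⊔ span {dF F a ^ e} ⊔ span {dF F b} →
      G ∈ span {F} ⊔ span {dF F a ^ e} ⊔ span {dF F b} := by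
  have h2 := hF.two
  have := hR ![d, (d - 1) * e, d - 1, d - 1] ![F, dF F a ^ e, dF F b, dF F c]
    (fun i => by fin_cases i <;> simp <;> omega)
    (fun i => by
      fin_cases i
      exacts [hF.hom, (h1.dF_hom a).pow e, h1.dF_hom b, h1.dF_hom c]) (by
      obtain ⟨N, hN⟩ := hF.null
      have h3 : span {F} ⊔ span (Set.range (dF F)) ≤
          (span (Set.range ![F, dF F a ^ e, dF F b, dF F c])).radical := by
        refine sup_le ((Ideal.span_singleton_le_iff_mem _).2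
          (Ideal.le_radical (Ideal.subset_span ⟨0, rfl⟩))) (Ideal.span_le.2 ?_)
        rintro _ ⟨i, rfl⟩
        rcases h i with rfl | rfl | rfl
        · exact ⟨e, Ideal.subset_span ⟨1, rfl⟩⟩
        · exact Ideal.le_radical (Ideal.subset_span ⟨2, rfl⟩)
        · exact Ideal.le_radical (Ideal.subset_span ⟨3, rfl⟩)
      choose t ht using fun i => h3 (hN i)
      refine ⟨N * ∑ i, t i, fun i => ?_⟩
      rw [← Finset.add_sum_erase _ _ (Finset.mem_univ i), pow_mul, pow_add]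
      exact Ideal.mul_mem_right _ _ (ht i))
  simp only [Ideal.span_insert, sup_assoc] at this ⊢
  exact this

theorem K1_kos (hR : S_REGSEQ L) (hF : Good d F) (h1 : Sig1 d F) :
    K1 F = (span {F}).map C ⊔ span {ell1 F} := by
  obtain ⟨h2, h3, -⟩ := seq_kos hR hF h1 2 1 0 (by decide) one_pos
  rw [pow_one] at h2 h3
  refine le_antisymm (fun G hG => ?_) ?_
  · obtain ⟨t, ht⟩ := h1.K1_pow 2 G hG
    refine reg_kos (dF F) 1 h2 h3 t G ?_
    rwa [Ideal.map_span, Set.image_singleton, sup_comm]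
  · rw [Ideal.map_span, Set.image_singleton, sup_comm]
    exact h1.le_K1

theorem div_kos (hR : S_REGSEQ L) (hF : Good d F) (h1 : Sig1 d F) (a b c : Fin 3)
    (h : ∀ i, i = a ∨ i = b ∨ i = c) {E W : U1 L}
    (hE : C (dF F b) ^ 6 * E - C (dF F a) ^ 5 * W ∈ K1 F) :
    ∃ A, E - C (dF F a) ^ 5 * A ∈ K1 F := by
  obtain ⟨-, h2, h3⟩ := seq_kos hR hF h1 a b c h (e := 5) (by norm_num)
  have h4 := reg_kos (dF F) c h2 h3 6 E
  rw [Ideal.map_sup, sup_right_comm, Ideal.map_span _ {_ ^ 5}, Set.image_singleton, map_pow] at h4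
  replace h4 : _ ∈ (span {F}).map C ⊔ span {ell1 F} ⊔ _ →
    _ ∈ (span {F}).map C ⊔ span {ell1 F} ⊔ _ := h4
  rw [← K1_kos hR hF h1] at h4
  obtain ⟨x, hx, y, hy, rfl⟩ := Submodule.mem_sup.1 (h4 (Submodule.mem_sup.2
    ⟨_, hE, _, Ideal.mem_span_singleton.2 ⟨W, rfl⟩, sub_add_cancel _ _⟩))
  obtain ⟨A, rfl⟩ := Ideal.mem_span_singleton.1 hy
  exact ⟨A, by simpa using hx⟩

theorem C_kos (h1 : Sig1 d F) {s : S L} : C s ∈ K1 F ↔ F ∣ s := by
  rw [h1.free_mem_K1 0 _ (by simp [kill1]), C_dvd_iff_dvd_coeff]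
  classical
  refine ⟨fun h => by simpa using h 0, fun h m => ?_⟩
  rw [coeff_C]
  split_ifs
  exacts [h, dvd_zero _]

theorem split_kos (h1 : Sig1 d F) {b f : S L} {Z : U1 L} (h : ∀ m, b * coeff m Z ∈ span {F, f}) :
    ∃ E, C b * Z - C f * E ∈ K1 F := by
  have : C b * Z ∈ (span {F, f}).map (C : S L →+* U1 L) :=
    mem_map_C_iff.2 fun m => by simpa only [coeff_C_mul] using h m
  rw [Ideal.map_span, Set.image_pair] at this
  obtain ⟨x, y, e⟩ := Ideal.mem_span_pair.1 this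
  refine ⟨y, ?_⟩
  rw [← e, mul_comm y, add_sub_cancel_right]
  exact Ideal.mul_mem_left _ _ ((C_kos h1).2 dvd_rfl)

end

theorem pKOS (L : Type u) [Field L] [IsAlgClosed L] [CharZero L]
    (hSIG1 : S_SIG1 L) (hREGSEQ : S_REGSEQ L) :
    S_KOS L := by
  intro d F hF b f Z₀ Z₁ hf h h0 h1
  have hS := hSIG1 d F hF
  have hd := hF.two
  obtain ⟨E₀, e0⟩ := split_kos hS h0
  obtain ⟨E₁, e1⟩ := split_kos hS h1
  have hW : C (b * dF F 0 ^ 5 * dF F 1 ^ 5) * (hess F * X 2) + C (dF F 1) ^ 6 * E₀ -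
      C (dF F 0) ^ 6 * E₁ ∈ K1 F := by
    refine (hS.K1_prime.mem_or_mem (x := C f) ?_).resolve_left fun hc => hf ((C_kos hS).1 hc)
    have := add_mem (sub_mem (Ideal.mul_mem_left _ (C b) h)
      (Ideal.mul_mem_left _ (C (dF F 1) ^ 6) e0)) (Ideal.mul_mem_left _ (C (dF F 0) ^ 6) e1)
    refine (congrArg (· ∈ K1 F) ?_).mp this
    simp only [map_mul]
    ring
  obtain ⟨A₀, a0⟩ := div_kos hREGSEQ hF hS 0 1 2 (by decide) (E := E₀)
    (W := C (dF F 0) * E₁ - C (b * dF F 1 ^ 5) * (hess F * X 2)) (by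
      refine (congrArg (· ∈ K1 F) ?_).mp hW
      simp only [map_mul, map_pow]
      ring)
  obtain ⟨A₁, a1⟩ := div_kos hREGSEQ hF hS 1 0 2 (by decide) (E := E₁)
    (W := C (dF F 1) * E₀ + C (b * dF F 0 ^ 5) * (hess F * X 2)) (by
      refine (congrArg (· ∈ K1 F) ?_).mp (neg_mem hW)
      simp only [map_mul, map_pow]
      ring)
  have hV : C b * hess F * X 2 + C (dF F 1) * A₀ - C (dF F 0) * A₁ ∈ K1 F := by
    refine (hS.K1_prime.mem_or_mem (x := C (dF F 0 ^ 5 * dF F 1 ^ 5)) ?_).resolve_left fun hc =>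
      (hF.prime.dvd_or_dvd ((C_kos hS).1 hc)).elim
        (fun hc => hS.not_dvd_dF 0 (hF.prime.dvd_of_dvd_pow hc))
        fun hc => hS.not_dvd_dF 1 (hF.prime.dvd_of_dvd_pow hc)
    have := add_mem (sub_mem hW (Ideal.mul_mem_left _ (C (dF F 1) ^ 6) a0))
      (Ideal.mul_mem_left _ (C (dF F 0) ^ 6) a1)
    refine (congrArg (· ∈ K1 F) ?_).mp this
    simp only [map_mul, map_pow]
    ring
  set J : Ideal (S L) := span (Set.range fun k => pderiv k F)
  have hJ : ∀ k, pderiv k F ∈ J := fun k => Ideal.subset_span ⟨k, rfl⟩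
  have hnat : ∀ (n : ℕ) (x : S L), n ≠ 0 → n • x ∈ J → x ∈ J := fun n x hn hx => by
    have := J.mul_mem_left (C (n : L)⁻¹) hx
    rwa [nsmul_eq_mul, ← mul_assoc, ← map_natCast C, ← map_mul,
      inv_mul_cancel₀ (Nat.cast_ne_zero.2 hn), map_one, one_mul] at this
  have hFJ : F ∈ J := hnat d F (by omega) (by
    rw [← hF.hom.sum_X_mul_pderiv]
    exact J.sum_mem fun i _ => J.mul_mem_left _ (hJ i))
  have hC : ∀ i, C (dF F i) ∈ J.map (C : S L →+* U1 L) := fun i => Ideal.mem_map_of_mem _ (hJ _)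
  have hK : K1 F ≤ J.map C := by
    rw [K1_kos hREGSEQ hF hS]
    exact sup_le (Ideal.map_mono ((Ideal.span_singleton_le_iff_mem _).2 hFJ))
      ((Ideal.span_singleton_le_iff_mem _).2
        (Ideal.sum_mem _ fun i _ => Ideal.mul_mem_right _ _ (hC i)))
  have hU : C b * hess F * X 2 ∈ J.map (C : S L →+* U1 L) := by
    have := sub_mem (add_mem (hK hV) (Ideal.mul_mem_right A₁ _ (hC 0)))
      (Ideal.mul_mem_right A₀ _ (hC 1))
    rwa [sub_add_cancel, add_sub_cancel_right] at this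
  have hT : C b * hess F ∈ J.map (C : S L →+* U1 L) := mem_map_C_iff.2 fun m =>
    coeff_mul_X m 2 (C b * hess F) ▸ mem_map_C_iff.1 hU (m + Finsupp.single 2 1)
  have hq : ∀ v : Fin 3 → S L, b * ∑ i, ∑ j, pderiv j.succ (dF F i) * v i * v j ∈ J := fun v => by
    simpa [hess] using eval_kos hT v
  have haff : ∀ i j : Fin 3, b * pderiv i.succ (pderiv j.succ F) ∈ J := fun i j => by
    refine hnat 2 _ two_ne_zero ?_
    have := sub_mem (sub_mem (hq (Pi.single i 1 + Pi.single j 1)) (hq (Pi.single i 1)))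
      (hq (Pi.single j 1))
    refine (congrArg (· ∈ J) ?_).mp this
    simp only [Pi.add_apply, mul_add, Finset.sum_add_distrib, Pi.single_apply, mul_ite,
      mul_one, mul_zero, Finset.sum_ite_eq', Finset.mem_univ, if_true, dF, comm_kos j.succ i.succ]
    ring
  have heul : ∀ a : Fin 4, X 0 * pderiv 0 (pderiv a F) =
      (d - 1) • pderiv a F - ∑ j : Fin 3, X j.succ * pderiv j.succ (pderiv a F) := fun a => by
    rw [← (hF.hom.pderiv (i := a)).sum_X_mul_pderiv, Fin.sum_univ_succ, add_sub_cancel_right]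
  have hmix : ∀ j : Fin 3, X 0 * b * pderiv 0 (pderiv j.succ F) ∈ J := fun j => by
    rw [mul_comm (X 0), mul_assoc, heul, mul_sub, Finset.mul_sum]
    exact sub_mem (J.mul_mem_left _ (nsmul_mem (hJ _) _)) (J.sum_mem fun i _ => by
      rw [mul_left_comm]; exact J.mul_mem_left _ (haff i j))
  intro i j
  rw [sq, mul_assoc (X 0)]
  induction i using Fin.cases with
  | zero =>
    induction j using Fin.cases with
    | zero =>
      rw [mul_comm (X 0) (X 0 * b), mul_assoc, heul, mul_sub, Finset.mul_sum]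
      exact sub_mem (J.mul_mem_left _ (nsmul_mem (hJ _) _)) (J.sum_mem fun i _ => by
        rw [mul_left_comm, comm_kos]; exact J.mul_mem_left _ (hmix i))
    | succ j => rw [mul_assoc]; exact J.mul_mem_left _ (hmix j)
  | succ i =>
    induction j using Fin.cases with
    | zero => rw [mul_assoc, comm_kos]; exact J.mul_mem_left _ (hmix i)
    | succ j => rw [mul_assoc, mul_assoc]; exact J.mul_mem_left _ (J.mul_mem_left _ (haff i j))

end Pool.Agent.P.MP_6f117a_ag.Surf
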