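import Pool.Agent.P.MP_6f117a_ag.SIface

/-! Step KRON of the proof for surfaces in projective three-space. -/

namespace Pool.Agent.P.MP_6f117a_ag.Surf

open MvPolynomial Module
open Ideal (span)
open scoped Polynomial WithZero

universe u

theorem norm_kron {K : Type u} [Field K] (V : ValuationSubring K) {σ : Type} {P : MvPolynomial σ K}
    (h : P ≠ 0) : ∃ (c : K) (P' : MvPolynomial σ V), P = C c * map V.subtype P' ∧
      map (IsLocalRing.residue V) P' ≠ 0 := by
  obtain ⟨m, hm, h1⟩ := P.support.exists_max_image (fun m => V.valuation (coeff m P))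
    (support_nonempty.2 h)
  have h0 := mem_support_iff.1 hm
  have h2 : ∀ n, coeff n P / coeff m P ∈ V := fun n => by
    rw [← V.valuation_le_one_iff, map_div₀, div_le_one₀ (zero_lt_iff.2 (by simpa using h0))]
    by_cases e : n ∈ P.support
    · exact h1 n e
    · simp [notMem_support_iff.1 e]
  have h3 : ∀ n, coeff n (∑ k ∈ P.support, monomial k (⟨_, h2 k⟩ : V)) = ⟨_, h2 n⟩ := fun n => by
    classical
    rw [coeff_sum, Finset.sum_eq_single n (fun k _ hk => by simp [coeff_monomial, hk])
      fun e => by simp [notMem_support_iff.1 e]; rfl, coeff_monomial, if_pos rfl]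
  refine ⟨coeff m P, ∑ k ∈ P.support, monomial k (⟨_, h2 k⟩ : V), ?_, fun e => ?_⟩
  · ext n
    rw [coeff_C_mul, coeff_map, h3]
    exact (mul_div_cancel₀ _ h0).symm
  · have := congrArg (coeff m) e
    rw [coeff_map, h3, show (⟨_, h2 m⟩ : V) = 1 from Subtype.ext (div_self h0)] at this
    simp at this

theorem pKRON : S_KRON.{u} := by
  classical
  intro K _ B σ P Q h m n
  have := iInf_valuationSubring_superset (K := K) (s := B)
  rw [Subring.closure_eq] at this
  refine (this.le (Subring.mem_iInf.2 fun V => ?_) : _ ∈ (integralClosure B K).toSubring)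
  by_cases hP : P = 0
  · simp [hP]
  by_cases hQ : Q = 0
  · simp [hQ]
  obtain ⟨p, P', rfl, h1⟩ := norm_kron V.1 hP
  obtain ⟨q, Q', rfl, h2⟩ := norm_kron V.1 hQ
  obtain ⟨k, hk⟩ := ne_zero_iff.1 (mul_ne_zero h1 h2)
  rw [← map_mul, coeff_map, Ne, IsLocalRing.residue_eq_zero_iff, IsLocalRing.notMem_maximalIdeal]
    at hk
  obtain ⟨w, hw⟩ := hk.exists_right_inv
  have h3 := V.2 (h k)
  rw [mul_mul_mul_comm, ← map_mul, ← map_mul, coeff_C_mul, coeff_map] at h3
  have h4 : p * q ∈ V.1 := by
    have := V.1.mul_mem _ _ h3 w.2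
    rwa [mul_assoc, show V.1.subtype _ * (w : K) = 1 from congrArg Subtype.val hw, mul_one] at this
  rw [coeff_C_mul, coeff_C_mul, mul_mul_mul_comm, coeff_map, coeff_map]
  exact V.1.mul_mem _ _ h4 (V.1.mul_mem _ _ (Subtype.prop _) (Subtype.prop _))

end Pool.Agent.P.MP_6f117a_ag.Surf
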