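import Pool.Agent.P.MP_6f117a_ag.SIface

/-! Step KZ of the proof for surfaces in projective three-space. -/

namespace Pool.Agent.P.MP_6f117a_ag.Surf

open MvPolynomial Module
open Ideal (span)
open scoped Polynomial WithZero

universe u

section

variable {L : Type u} [Field L] {τ : Type}

theorem sat_of_kz {d : ℕ} {F : S L} (hF : Good d F) {J : Ideal (Jet τ L)} (hJ : C F ∈ J)
    {G : Jet τ L} (h : ∀ k, ∃ t : ℕ, C (dF F k) ^ t * G ∈ J) : G ∈ sat (xj τ L) J := by
  obtain ⟨N, hN⟩ := hF.null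
  refine mem_sat_of_pow (fun k => (C (dF F k) : Jet τ L)) (N := N) (fun i => ?_) h
  have h1 : span {F} ⊔ span (Set.range (dF F)) ≤
      (J ⊔ span (Set.range fun k => (C (dF F k) : Jet τ L))).comap (C : S L →+* Jet τ L) := by
    refine sup_le ?_ (Ideal.span_le.2 ?_)
    · rw [Ideal.span_singleton_le_iff_mem]
      exact Ideal.mem_sup_left hJ
    · rintro _ ⟨k, rfl⟩
      exact Ideal.mem_sup_right (Ideal.subset_span ⟨k, rfl⟩)
  have h2 := Ideal.mem_comap.1 (h1 (hN i))
  rwa [map_pow] at h2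

theorem key_kz (wt : τ → ℕ) (φ : Jet τ L →ₐ[S L] Jet τ L) (c : Jet τ L) (J : Ideal (Jet τ L))
    (h : ∀ m, φ (monomial m 1) - c ^ (2 * Finsupp.weight wt m) * monomial m 1 ∈ J)
    {I : Ideal (S L)} {G : Jet τ L} (hG : G ∈ I.map (C : S L →+* Jet τ L)) {a b : ℕ}
    (hb : G ∈ bih L wt (a, b)) : φ G - c ^ (2 * a) * G ∈ J * I.map (C : S L →+* Jet τ L) := by
  have e : φ G - c ^ (2 * a) * G = ∑ m ∈ G.support,
      (φ (monomial m 1) - c ^ (2 * a) * monomial m 1) * C (coeff m G) := by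
    conv_lhs => rw [G.as_sum]
    rw [map_sum, Finset.mul_sum, ← Finset.sum_sub_distrib]
    refine Finset.sum_congr rfl fun m _ => ?_
    have e1 : monomial m (coeff m G) = C (coeff m G) * monomial m (1 : S L) := by
      rw [C_mul_monomial, mul_one]
    have e2 : φ (C (coeff m G)) = C (coeff m G) := φ.commutes _
    rw [e1, map_mul, e2]
    ring
  rw [e]
  refine Ideal.sum_mem _ fun m hm => ?_
  have h1 := (mem_bih'.1 hb m (mem_support_iff.1 hm)).1
  refine Ideal.mul_mem_mul (h1 ▸ h m) (Ideal.mem_map_of_mem _ ?_)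
  exact (mem_map_C_iff.1 hG) m

theorem mono_kz (wt : τ → ℕ) (φ : Jet τ L →ₐ[S L] Jet τ L) (c : Jet τ L) (J : Ideal (Jet τ L))
    (h : ∀ j, φ (X j) - c ^ (2 * wt j) * X j ∈ J) (m : τ →₀ ℕ) :
    φ (monomial m 1) - c ^ (2 * Finsupp.weight wt m) * monomial m 1 ∈ J := by
  rw [← Ideal.Quotient.eq]
  induction m using Finsupp.induction_linear with
  | zero => simp
  | add a b ha hb =>
    have e : monomial (a + b) (1 : S L) = monomial a 1 * monomial b 1 := by
      rw [monomial_mul, mul_one]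
    rw [e, map_mul, map_mul, ha, hb, ← map_mul, map_add]
    congr 1
    ring
  | single j n =>
    rw [← X_pow_eq_monomial, map_pow, map_pow, Ideal.Quotient.eq.2 (h j), ← map_pow,
      Finsupp.weight_single, smul_eq_mul]
    congr 1
    ring

/-- Elimination of the first order variable number `k` only. -/
noncomputable def tau_kz (F : S L) (k : Fin 3) : U L →ₐ[S L] U L :=
  aeval (Sum.elim (fun j => inc (S L) (sig1 F k (X j))) fun j => C (dF F k) ^ 4 * X (.inr j))

theorem tau_inc_kz (F : S L) (k : Fin 3) (G : U1 L) :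
    tau_kz F k (inc (S L) G) = inc (S L) (sig1 F k G) := by
  have : (tau_kz F k).comp (inc (S L)) = (inc (S L)).comp (sig1 F k) := by
    refine algHom_ext fun j => ?_
    simp [tau_kz, inc]
  exact DFunLike.congr_fun this G

theorem tau_X_kz {d : ℕ} {F : S L} (h1 : Sig1 d F) (k : Fin 3) (j : T2) :
    tau_kz F k (X j) - C (dF F k) ^ (2 * w2 j) * X j ∈ span {ell F} := by
  cases j with
  | inl j =>
    obtain ⟨y, hy⟩ := Ideal.mem_span_singleton.1 (h1.sig1_sub k 1 1 (X j) (X_mem_bih w1 j))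
    have h2 := congrArg (inc (S L)) hy
    rw [map_sub, map_mul, map_mul, map_pow] at h2
    refine Ideal.mem_span_singleton.2 ⟨inc (S L) y, ?_⟩
    rw [ell, ← h2]
    simp [tau_kz, inc, w2]
  | inr j => simp [tau_kz, w2]

theorem tau_cee_kz {d : ℕ} {F : S L} (hF : Good d F) (h1 : Sig1 d F) (k : Fin 3) :
    ¬C F ∣ tau_kz F k (cee F) := by
  rintro ⟨y, hy⟩
  let ψ : (Fin 3 → S L) → U L →ₐ[S L] S L := fun v => aeval (Sum.elim (fun _ => 0) v)
  have hψ : ∀ v, ∑ i, dF F i * (dF F k ^ 4 * v i) +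
      aeval (fun _ => (0 : S L)) (sig1 F k (hess F)) = F * ψ v y := by
    intro v
    have h2 := congrArg (ψ v) hy
    rw [cee, map_add, tau_inc_kz, map_add, map_mul] at h2
    have e1 : ψ v (C F) = F := by simp [ψ]
    have e2 : ψ v (inc (S L) (sig1 F k (hess F))) =
        aeval (fun _ => (0 : S L)) (sig1 F k (hess F)) := by
      simp only [ψ, inc, aeval_rename]
      rfl
    have e3 : ψ v (tau_kz F k (∑ i, C (dF F i) * X (.inr i))) =
        ∑ i, dF F i * (dF F k ^ 4 * v i) := by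
      simp [ψ, tau_kz]
    rw [e1, e2, e3] at h2
    exact h2
  have h3 := hψ (Pi.single k 1)
  have h4 := hψ 0
  have e4 : ∑ i, dF F i * (dF F k ^ 4 * (Pi.single k 1 : Fin 3 → S L) i) = dF F k ^ 5 := by
    rw [Finset.sum_eq_single k]
    · simp only [Pi.single_eq_same]
      ring
    · intro i _ hi
      simp [Pi.single_eq_of_ne hi]
    · simp
  simp only [Pi.zero_apply, mul_zero, Finset.sum_const_zero, zero_add] at h4
  rw [e4, h4] at h3
  have h5 : F ∣ dF F k ^ 5 := ⟨ψ (Pi.single k 1) y - ψ 0 y, by linear_combination h3⟩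
  exact h1.not_dvd_dF k (hF.prime.dvd_of_dvd_pow h5)

end

theorem pKZ (L : Type u) [Field L] [IsAlgClosed L] [CharZero L]
    (hSIG1 : S_SIG1 L) (hSIG2 : S_SIG2 L) (hHFA : S_HFA L) :
    S_KZ L := by
  intro d F hF I hI
  have h1 := hSIG1 d F hF
  have h2 := hSIG2 d F hF
  have h3 := hHFA d F hF
  refine ⟨?_, ?_, ?_⟩
  · refine le_of_hom ((h3.map1 I hI).inf h1.K1_hom) ?_
    rintro ⟨a, b⟩ G ⟨hG, hK⟩ hb
    refine sat_of_kz hF (Ideal.mem_sup_right (Ideal.mem_span_singleton_self _)) fun k => ⟨2 * a, ?_⟩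
    have h4 := key_kz w1 (sig1 F k) (C (dF F k)) (span {ell1 F})
      (fun m => h1.sig1_sub k _ _ _ (monomial_mem_bih w1 m (isHomogeneous_one (Fin 4) L))) hG hb
    have h5 := Ideal.mem_span_singleton.2 ((h1.mem_K1 k G).1 hK)
    have := Ideal.sub_mem _ (Ideal.mem_sup_right h5) (Ideal.mem_sup_left h4)
    rwa [sub_sub_cancel] at this
  · refine le_of_hom ((h3.map2 I hI).inf h2.KK_hom) ?_
    rintro ⟨a, b⟩ G ⟨hG, hK⟩ hb
    refine sat_of_kz hF
      (Ideal.mem_sup_left (Ideal.mem_sup_right (Ideal.mem_span_singleton_self _)))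
      fun k => ⟨2 * a, ?_⟩
    have h4 := key_kz w2 (sig F k) (C (dF F k)) (span {ell F} ⊔ span {cee F})
      (fun m => h2.sig_sub k _ _ _ (monomial_mem_bih w2 m (isHomogeneous_one (Fin 4) L))) hG hb
    rw [Ideal.sup_mul] at h4
    have h5 := Ideal.mem_span_singleton.2 ((h2.mem_KK k G).1 hK)
    have h6 : sig F k G ∈ (span {ell F} * I.map C ⊔ span {C F}) ⊔
        (span {cee F} * I.map C ⊔ span {C F}) := Ideal.mem_sup_left (Ideal.mem_sup_right h5)
    have h7 : span {ell F} * I.map (C : S L →+* U L) ⊔ span {cee F} * I.map C ≤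
        (span {ell F} * I.map C ⊔ span {C F}) ⊔ (span {cee F} * I.map C ⊔ span {C F}) :=
      sup_le_sup le_sup_left le_sup_left
    have := Ideal.sub_mem _ h6 (h7 h4)
    rwa [sub_sub_cancel] at this
  · have hCF : (span {C F} : Ideal (U L)).IsHomogeneous (bih L w2) :=
      hom_span (C_mem_bih w2 hF.hom)
    have hm := h3.map2 I hI
    refine le_of_hom ((((hom_span h2.ell_mem).mul hm).sup hCF).inf
      (((hom_span h2.cee_mem).mul hm).sup hCF)) ?_
    rintro p x ⟨hx1, hx2⟩ hp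
    by_cases hr : ∃ i, (2, d) + i = p
    · obtain ⟨⟨a, b⟩, rfl⟩ := hr
      obtain ⟨G, hG, hGb, hv⟩ := exists_comp hm hCF h2.cee_mem hp hx2
      obtain ⟨v, hv⟩ := Ideal.mem_span_singleton.1 hv
      obtain ⟨x1, hx1', x2, hx2', e⟩ := Submodule.mem_sup.1 hx1
      obtain ⟨G1, -, rfl⟩ := Ideal.mem_span_singleton_mul.1 hx1'
      obtain ⟨w, rfl⟩ := Ideal.mem_span_singleton.1 hx2'
      refine sat_of_kz hF (Ideal.mem_sup_right (Ideal.mem_span_singleton_self _))
        fun k => ⟨2 * a, ?_⟩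
      have e1 : tau_kz F k (ell F) = 0 := by rw [ell, tau_inc_kz, h1.sig1_ell1, map_zero]
      have e2 : tau_kz F k (C F) = C F := (tau_kz F k).commutes F
      have e3 : cee F * G = ell F * G1 + C F * (w - v) := by linear_combination -hv - e
      have e4 := congrArg (tau_kz F k) e3
      rw [map_mul, map_add, map_mul, map_mul, e1, e2, zero_mul, zero_add] at e4
      have hp' : Prime (C F : U L) := (prime_C_iff T2).2 hF.prime
      obtain ⟨y, hy⟩ := (hp'.dvd_or_dvd ⟨_, e4⟩).resolve_left (tau_cee_kz hF h1 k)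
      have h4 := key_kz w2 (tau_kz F k) (C (dF F k)) (span {ell F})
        (mono_kz w2 _ _ _ (tau_X_kz h1 k)) hG hGb
      obtain ⟨z, hz, e5⟩ := Ideal.mem_span_singleton_mul.1 h4
      have e6 : C (dF F k) ^ (2 * a) * x =
          ell F * cee F * (-z) + C F * (cee F * y + C (dF F k) ^ (2 * a) * v) := by
        linear_combination C (dF F k) ^ (2 * a) * hv + cee F * e5 + cee F * hy
      rw [e6]
      exact Ideal.add_mem _
        (Ideal.mem_sup_left (Ideal.mul_mem_mul (Ideal.mem_span_singleton_self _) (neg_mem hz)))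
        (Ideal.mem_sup_right (Ideal.mul_mem_right _ _ (Ideal.mem_span_singleton_self _)))
    · push Not at hr
      refine le_sat _ _ (Ideal.mem_sup_right (mem_of_comp hCF h2.cee_mem hp hr ?_))
      have h7 : span {cee F} * I.map (C : S L →+* U L) ⊔ span {C F} ≤
          span {cee F} ⊔ span {C F} := sup_le_sup_right Ideal.mul_le_left _
      exact h7 hx2

end Pool.Agent.P.MP_6f117a_ag.Surf
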