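import Pool.Agent.P.MP_6f117a_ag.SIface

/-! Step LIFT of the proof for surfaces in projective three-space. -/

namespace Pool.Agent.P.MP_6f117a_ag.Surf

open MvPolynomial Module
open Ideal (span)
open scoped Polynomial WithZero

universe u

namespace LiftAux

variable {L : Type u} [Field L]

theorem common {F : S L} (γ : GenPt F) {ι : Type} (s : Finset ι) (f : ι → γ.K) :
    ∃ (n : ℕ) (D : S L), D.IsHomogeneous n ∧ γ.e0 D ≠ 0 ∧
      ∀ i ∈ s, ∃ A : S L, A.IsHomogeneous n ∧ f i * γ.e0 D = γ.e0 A := by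
  classical
  induction s using Finset.induction_on with
  | empty => exact ⟨0, 1, isHomogeneous_one _ _, by simp, by simp⟩
  | insert a s _ ih =>
    obtain ⟨n, D, h1, h2, h3⟩ := ih
    obtain ⟨m, A, B, k1, k2, k3, k4⟩ := γ.frac (f a)
    have k3' : γ.e0 B ≠ 0 := k3
    have k4' : f a * γ.e0 B = γ.e0 A := k4
    refine ⟨n + m, D * B, h1.mul k2, by rw [map_mul]; exact mul_ne_zero h2 k3', fun i hi => ?_⟩
    rcases Finset.mem_insert.1 hi with rfl | hi
    · exact ⟨D * A, h1.mul k1, by rw [map_mul, map_mul, ← k4']; ring⟩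
    · obtain ⟨A', l1, l2⟩ := h3 i hi
      exact ⟨A' * B, l1.mul k2, by rw [map_mul, map_mul, ← l2]; ring⟩

theorem mono_eq {A : Type u} [CommRing A] (a b : ℕ) (s : A) :
    (monomial (Finsupp.single 0 a + Finsupp.single 1 b) s : MvPolynomial (Fin 3) A) =
      C s * X 0 ^ a * X 1 ^ b := by
  rw [C_mul_X_pow_eq_monomial, X_pow_eq_monomial, monomial_mul, mul_one]

theorem kill_mono {A : Type u} [CommRing A] (a b : ℕ) (s : A) :
    kill1 A 2 (monomial (Finsupp.single 0 a + Finsupp.single 1 b) s) =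
      monomial (Finsupp.single 0 a + Finsupp.single 1 b) s := by
  rw [mono_eq]
  simp [kill1]

theorem sp_mono {A : Type u} [CommRing A] (a b : ℕ) (s : A) :
    sp1 A (monomial (Finsupp.single 0 a + Finsupp.single 1 b) s) = Polynomial.monomial b s := by
  rw [mono_eq, ← Polynomial.C_mul_X_pow_eq_monomial]
  simp [sp1]

end LiftAux

open LiftAux in
theorem pLIFT (L : Type u) [Field L] [IsAlgClosed L] [CharZero L]
    (hSIG1 : S_SIG1 L) :
    S_LIFT L := by
  classical
  intro d F _ γ π hπ
  let s : Finset (ℕ × ℕ) := π.support.biUnion fun l => (π.coeff l).support.image fun m => (l, m)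
  have hs : ∀ l m, (l, m) ∈ s ↔ (π.coeff l).coeff m ≠ 0 := by
    intro l m
    simp only [s, Finset.mem_biUnion, Finset.mem_image, Polynomial.mem_support_iff, Prod.mk.injEq]
    constructor
    · rintro ⟨l', -, m', h, rfl, rfl⟩
      exact h
    · intro h
      exact ⟨l, fun e => h (by simp [e]), m, h, rfl, rfl⟩
  have hne : s.Nonempty := ⟨(π.natDegree, (π.coeff π.natDegree).natDegree), (hs _ _).2 (by
    have h1 : π.coeff π.natDegree ≠ 0 := Polynomial.leadingCoeff_ne_zero.2 hπ
    exact Polynomial.leadingCoeff_ne_zero.2 h1)⟩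
  obtain ⟨n, D, hD, hD0, hA⟩ := common γ s fun p => (π.coeff p.1).coeff p.2
  choose! A hA1 hA2 using hA
  obtain ⟨p0, hp0, hμ⟩ := Finset.exists_mem_eq_sup s hne fun p => p.2 + 3 * p.1
  set μ := s.sup fun p => p.2 + 3 * p.1 with hμdef
  have hle : ∀ l m, (π.coeff l).coeff m ≠ 0 → m + 3 * l ≤ μ := fun l m h =>
    Finset.le_sup (f := fun p : ℕ × ℕ => p.2 + 3 * p.1) ((hs l m).2 h)
  let Q : ℕ → U1 L := fun l => ∑ m ∈ (π.coeff l).support,
    monomial (Finsupp.single 0 (μ - 3 * l - m) + Finsupp.single 1 m) (A (l, m) * X 0 ^ l)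
  let P : (U1 L)[X] := ∑ l ∈ π.support, Polynomial.monomial l (Q l)
  have hQ0 : ∀ l, π.coeff l = 0 → Q l = 0 := fun l h => by simp [Q, h]
  have hP : ∀ l, P.coeff l = Q l := fun l => by
    simp only [P, Polynomial.finsetSum_coeff, Polynomial.coeff_monomial]
    rw [Finset.sum_ite_eq']
    split_ifs with h
    · rfl
    · exact (hQ0 l (by simpa using h)).symm
  have he : ∀ l m, (π.coeff l).coeff m ≠ 0 →
      γ.e0 (A (l, m) * X 0 ^ l) = γ.e0 D * (π.coeff l).coeff m := fun l m h => by
    have h0 : γ.e0 (X 0) = 1 := by simp [GenPt.e0, γ.y0]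
    rw [map_mul, map_pow, h0, one_pow, mul_one, ← hA2 _ ((hs l m).2 h), mul_comm]
  have hhom : ∀ l m, (π.coeff l).coeff m ≠ 0 → (A (l, m) * X 0 ^ l).IsHomogeneous (n + l) :=
    fun l m h => (hA1 _ ((hs l m).2 h)).mul (isHomogeneous_X_pow 0 l)
  have hsp : ∀ l, (sp1 (S L) (Q l)).map γ.e0 = Polynomial.C (γ.e0 D) * π.coeff l := fun l => by
    simp only [Q, map_sum, sp_mono, Polynomial.map_sum, Polynomial.map_monomial]
    conv_rhs => rw [(π.coeff l).as_sum_support, Finset.mul_sum]
    refine Finset.sum_congr rfl fun m hm => ?_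
    rw [he l m (Polynomial.mem_support_iff.1 hm), Polynomial.C_mul_monomial]
  refine ⟨μ, μ + n, P, fun l hl => ?_, fun l => ?_, ?_, ⟨γ.e0 D, hD0, ?_⟩, ?_⟩
  · rw [hP] at hl ⊢
    have h1 : π.coeff l ≠ 0 := fun e => hl (hQ0 l e)
    have h2 := hle l _ (Polynomial.leadingCoeff_ne_zero.2 h1)
    refine ⟨by omega, by omega, Submodule.sum_mem _ fun m hm => ?_⟩
    have h3 := Polynomial.mem_support_iff.1 hm
    have h4 := hle l m h3
    have h5 := monomial_mem_bih w1 (Finsupp.single 0 (μ - 3 * l - m) + Finsupp.single 1 m)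
      (hhom l m h3)
    have e1 : Finsupp.weight w1 (Finsupp.single (0 : Fin 3) (μ - 3 * l - m) +
        Finsupp.single 1 m) = μ - 3 * l := by
      simp only [map_add, Finsupp.weight_single, w1, smul_eq_mul, mul_one]
      omega
    have e2 : (Finsupp.single (0 : Fin 3) (μ - 3 * l - m) + Finsupp.single 1 m).degree + (n + l) =
        μ + n - 2 * l := by
      simp only [map_add, Finsupp.degree_single]
      omega
    rwa [e1, e2] at h5
  · rw [hP]
    simp only [Q, map_sum, kill_mono]
  · refine le_antisymm (Polynomial.natDegree_le_iff_coeff_eq_zero.2 fun N hN => ?_)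
      (Polynomial.le_natDegree_of_ne_zero ?_)
    · rw [hP]
      exact hQ0 N (Polynomial.coeff_eq_zero_of_natDegree_lt hN)
    · rw [hP]
      intro e
      have := hsp π.natDegree
      rw [e, map_zero, Polynomial.map_zero] at this
      exact mul_ne_zero (Polynomial.C_ne_zero.2 hD0) (Polynomial.leadingCoeff_ne_zero.2 hπ)
        this.symm
  · ext1 l
    rw [Polynomial.coeff_C_mul, ← hsp, ← hP]
    simp [GenPt.e2]
  · obtain ⟨l, m⟩ := p0
    have h1 := (hs l m).1 hp0
    dsimp only at hμ
    refine ⟨l, by omega, ?_⟩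
    have e : coeff (Finsupp.single 1 (μ - 3 * l)) (P.coeff l) = A (l, m) * X 0 ^ l := by
      rw [hP]
      simp only [Q, coeff_sum, coeff_monomial]
      rw [Finset.sum_eq_single m]
      · rw [if_pos]
        rw [show μ - 3 * l - m = 0 by omega, show μ - 3 * l = m by omega]
        simp
      · intro m' _ hm'
        rw [if_neg]
        intro e
        have := congrArg (fun z => z 1) e
        simp at this
        omega
      · intro h
        exact absurd (Polynomial.mem_support_iff.2 h1) h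
    rw [e, ← γ.ker _ _ (hhom l m h1)]
    exact fun h => mul_ne_zero hD0 h1 ((he l m h1).symm.trans h)

end Pool.Agent.P.MP_6f117a_ag.Surf
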