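import Pool.Agent.P.MP_6f117a_ag.SIface

/-! Step LOC of the proof for surfaces in projective three-space. -/

namespace Pool.Agent.P.MP_6f117a_ag.Surf

open MvPolynomial Module
open Ideal (span)
open scoped Polynomial WithZero

universe u

namespace LocS

theorem abs0 {R : Type u} [CommRing R] (ψ χ f f' ζ Dφ Dψ DDφ dψ Df r ρ : R) (hu : f * f' = 1)
    (h1 : ψ * Dφ = 0) (h3 : f = ψ + r * Dφ) (hD1 : ψ * DDφ + Dφ * Dψ = χ * Dφ)
    (hd1 : ψ * (Df + ζ * f) + Dφ * dψ = χ * f)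
    (hD2 : ψ * Dψ + ψ * Dψ - (f * Dψ + ψ * Df) = ρ * Dφ) : χ - Dψ - ζ * ψ = 0 := by
  have h2 : ψ * ψ = f * ψ := by linear_combination (-ψ) * h3 - r * h1
  have a : f * (ψ * DDφ) = 0 := by
    linear_combination (-DDφ) * h2 + ψ * hD1 + (χ - Dψ) * h1
  have a' : ψ * DDφ = 0 := by linear_combination f' * a - (ψ * DDφ) * hu
  have b : Dφ * (χ - Dψ - ζ * ψ) = 0 := by linear_combination a' - hD1 - ζ * h1
  have A : f * χ * ψ = f * ψ * (Df + ζ * f) := by
    linear_combination (-ψ) * hd1 + dψ * h1 + (Df + ζ * f) * h2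
  have B : f * ψ * Dψ = f * ψ * Df := by
    linear_combination ψ * hD2 + ρ * h1 - (2 * Dψ - Df) * h2
  have c : f * ψ * (χ - Dψ - ζ * ψ) = 0 := by linear_combination A - B - ζ * f * h2
  have e : f * f * (χ - Dψ - ζ * ψ) = 0 := by
    linear_combination c + f * r * b + f * (χ - Dψ - ζ * ψ) * h3
  linear_combination f' * f' * e - (χ - Dψ - ζ * ψ) * (f * f' + 1) * hu

theorem abs1 {B : Type u} [CommRing B] (D d : B → B) (Dm : ∀ a b, D (a * b) = a * D b + b * D a)
    (Ds : ∀ a b, D (a - b) = D a - D b) (dm : ∀ a b, d (a * b) = a * d b + b * d a)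
    (φ ψ χ ζ r w f' : B) (hu : d φ * f' = 1) (h1 : ψ * D φ = φ * χ)
    (h3 : d φ = ψ + r * D φ + φ * w) (hc : d (D φ) = D (d φ) + ζ * d φ) :
    φ ∣ χ - D ψ - ζ * ψ := by
  have e1 := congrArg D h1
  have e2 := congrArg d h1
  have h2 : ψ * ψ - d φ * ψ = φ * (-(r * χ + w * ψ)) := by
    linear_combination (-ψ) * h3 - r * h1
  have e3 := congrArg D h2
  rw [Dm, Dm] at e1
  rw [dm, dm, hc] at e2
  rw [Ds, Dm, Dm, Dm] at e3
  rw [← Ideal.mem_span_singleton, ← Ideal.Quotient.eq_zero_iff_mem]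
  set π := Ideal.Quotient.mk (span {φ} : Ideal B)
  have h0 : π φ = 0 := Ideal.Quotient.eq_zero_iff_mem.2 (Ideal.mem_span_singleton_self φ)
  replace hu := congrArg π hu
  replace h1 := congrArg π h1
  replace h3 := congrArg π h3
  replace e1 := congrArg π e1
  replace e2 := congrArg π e2
  replace e3 := congrArg π e3
  simp only [map_add, map_mul, map_sub, map_one, h0, zero_mul, zero_add, add_zero] at *
  exact abs0 _ _ _ _ _ _ _ _ _ _ _ _ hu h1 h3 e1 e2 e3

theorem coeff_div {A : Type u} [CommRing A] (G : A[X]) (k m : ℕ) :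
    (G /ₘ Polynomial.X ^ k).coeff m = G.coeff (m + k) := by
  nontriviality A
  have h := congrArg (fun p => p.coeff (m + k)) (Polynomial.modByMonic_add_div G (Polynomial.X ^ k))
  have h1 := Polynomial.degree_modByMonic_lt G (Polynomial.monic_X_pow (R := A) k)
  rw [Polynomial.degree_X_pow] at h1
  simp only [Polynomial.coeff_add, Polynomial.coeff_X_pow_mul] at h
  rw [← h, Polynomial.coeff_eq_zero_of_degree_lt (h1.trans_le (by exact_mod_cast Nat.le_add_left k m)),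
    zero_add]

theorem div_succ {A : Type u} [CommRing A] (G : A[X]) (k : ℕ) : G /ₘ Polynomial.X ^ k =
    Polynomial.C (G.coeff k) + Polynomial.X * (G /ₘ Polynomial.X ^ (k + 1)) := by
  ext m
  cases m with
  | zero => simp [coeff_div]
  | succ m => simp [coeff_div, Polynomial.coeff_X_mul, add_assoc, add_comm 1 k]

theorem quot_id {A : Type u} [CommRing A] {R : Type u} [CommRing R] (ι : A →+* R) (G : A[X])
    (u τ : R) (n : ℕ) :
    (∑ k ∈ Finset.range n, (G /ₘ Polynomial.X ^ (k + 1)).eval₂ ι u * τ ^ k) * (u - τ) =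
      G.eval₂ ι u - (∑ k ∈ Finset.range n, ι (G.coeff k) * τ ^ k +
        (G /ₘ Polynomial.X ^ n).eval₂ ι u * τ ^ n) := by
  induction n with
  | zero => simp
  | succ n ih =>
    rw [Finset.sum_range_succ, Finset.sum_range_succ, add_mul, ih, div_succ G n,
      Polynomial.eval₂_add, Polynomial.eval₂_C, Polynomial.eval₂_mul, Polynomial.eval₂_X]
    ring

theorem quot_id' {A : Type u} [CommRing A] {R : Type u} [CommRing R] (ι : A →+* R) (G : A[X])
    (u τ : R) : (∑ k ∈ Finset.range G.natDegree,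
      (G /ₘ Polynomial.X ^ (k + 1)).eval₂ ι u * τ ^ k) * (u - τ) = G.eval₂ ι u - G.eval₂ ι τ := by
  rw [quot_id, Polynomial.eval₂_eq_sum_range ι τ, Finset.sum_range_succ]
  have : G /ₘ Polynomial.X ^ G.natDegree = Polynomial.C (G.coeff G.natDegree) := by
    ext m
    rw [coeff_div, Polynomial.coeff_C]
    split_ifs with h
    · rw [h, zero_add]
    · exact Polynomial.coeff_eq_zero_of_natDegree_lt (by omega)
  rw [this, Polynomial.eval₂_C]

theorem sum_div {A : Type u} [CommRing A] (G : A[X]) : ∑ k ∈ Finset.range G.natDegree,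
    (G /ₘ Polynomial.X ^ (k + 1)) * Polynomial.X ^ k = G.derivative := by
  ext m
  rw [Polynomial.finsetSum_coeff, Polynomial.coeff_derivative]
  by_cases h : G.natDegree < m + 1
  · rw [Polynomial.coeff_eq_zero_of_natDegree_lt h, zero_mul]
    refine Finset.sum_eq_zero fun k _ => ?_
    rw [Polynomial.coeff_mul_X_pow']
    split_ifs with h1
    · rw [coeff_div, Polynomial.coeff_eq_zero_of_natDegree_lt (by omega)]
    · rfl
  · rw [← Finset.sum_subset (Finset.range_subset_range.2 (not_lt.1 h)) (fun k _ hk => by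
      rw [Polynomial.coeff_mul_X_pow', if_neg (by simpa using hk)]),
      Finset.sum_congr rfl (g := fun _ => G.coeff (m + 1)) (fun k hk => by
        have := Finset.mem_range.1 hk
        rw [Polynomial.coeff_mul_X_pow', if_pos (by omega), coeff_div]
        congr 1; omega)]
    simp [mul_comm]

theorem hom_eval {A : Type u} [CommRing A] {K : Type u} [Field K] (ι : A →+* K) (G : A[X])
    (a b : A) (hb : ι b ≠ 0) :
    ι (∑ i ∈ Finset.range (G.natDegree + 1), G.coeff i * a ^ i * b ^ (G.natDegree - i)) =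
      ι b ^ G.natDegree * G.eval₂ ι (ι a / ι b) := by
  rw [Polynomial.eval₂_eq_sum_range, map_sum, Finset.mul_sum]
  refine Finset.sum_congr rfl fun i hi => ?_
  have := Finset.mem_range.1 hi
  rw [map_mul, map_mul, map_pow, map_pow, div_pow,
    show ι b ^ G.natDegree = ι b ^ (G.natDegree - i) * ι b ^ i by rw [← pow_add]; congr 1; omega]
  field_simp

theorem pd_comm {σ A : Type*} [CommRing A] (i j : σ) (a : MvPolynomial σ A) :
    pderiv i (pderiv j a) = pderiv j (pderiv i a) := by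
  classical
  induction a using MvPolynomial.induction_on with
  | C a => simp
  | add p q hp hq => simp [hp, hq]
  | mul_X p k hp =>
    have h0 : ∀ i j : σ, pderiv i (pderiv j (X k : MvPolynomial σ A)) = 0 := fun i j => by
      rw [pderiv_X, Pi.single_apply]
      split_ifs <;> simp
    simp only [Derivation.leibniz, smul_eq_mul, map_add, hp, h0]
    ring

variable {L : Type u} [Field L] (W : Web L) {f : A2 L}

/-- The local ring along `f = 0`. -/
def lr (hf : Prime f) : Subring W.E where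
  carrier := {x | W.Loc f x}
  mul_mem' := by
    rintro a b ⟨s, p, h1, h2⟩ ⟨t, q, h3, h4⟩
    exact ⟨s * t, p * q, fun h => (hf.dvd_or_dvd h).elim h1 h3, by
      rw [map_mul, map_mul, ← h2, ← h4]; ring⟩
  one_mem' := ⟨1, 1, hf.not_dvd_one, by simp⟩
  add_mem' := by
    rintro a b ⟨s, p, h1, h2⟩ ⟨t, q, h3, h4⟩
    exact ⟨s * t, Polynomial.C t * p + Polynomial.C s * q, fun h => (hf.dvd_or_dvd h).elim h1 h3, by
      simp only [map_mul, map_add, Polynomial.aeval_C, ← h2, ← h4]; ring⟩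
  zero_mem' := ⟨1, 0, hf.not_dvd_one, by simp⟩
  neg_mem' := by
    rintro a ⟨s, p, h1, h2⟩
    exact ⟨s, -p, h1, by rw [map_neg, ← h2]; ring⟩

theorem alg_ne {s : A2 L} (hs : s ≠ 0) : algebraMap (A2 L) W.E s ≠ 0 := fun h => by
  have := (W.ker (Polynomial.C s)).1 (by rwa [Polynomial.aeval_C])
  have h1 := Polynomial.natDegree_le_of_dvd this (Polynomial.C_ne_zero.2 hs)
  rw [Polynomial.natDegree_C] at h1
  exact h1.not_gt W.deg_pos

theorem alg_ne' {s : A2 L} (hs : ¬f ∣ s) : algebraMap (A2 L) W.E s ≠ 0 :=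
  alg_ne W fun h => hs (h ▸ dvd_zero f)

variable (hf : Prime f)

theorem aeval_mem (p : (A2 L)[X]) : Polynomial.aeval W.u p ∈ lr W hf :=
  ⟨1, p, hf.not_dvd_one, by simp⟩

theorem alg_mem (s : A2 L) : algebraMap (A2 L) W.E s ∈ lr W hf := by
  simpa using aeval_mem W hf (Polynomial.C s)

theorem u_mem : W.u ∈ lr W hf := by simpa using aeval_mem W hf Polynomial.X

theorem inv_mem {s : A2 L} (hs : ¬f ∣ s) : (algebraMap (A2 L) W.E s)⁻¹ ∈ lr W hf :=
  ⟨s, 1, hs, by rw [mul_inv_cancel₀ (alg_ne' W hs), map_one]⟩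

theorem gam_ne : Polynomial.aeval W.u W.G.derivative ≠ 0 := fun h => by
  obtain ⟨b, hb⟩ := W.Δ_eq
  rw [map_mul, h, mul_zero] at hb
  exact alg_ne W W.Δ_ne hb.symm

theorem gam_mem (hΔ : ¬f ∣ W.Δ) : (Polynomial.aeval W.u W.G.derivative)⁻¹ ∈ lr W hf := by
  obtain ⟨b, hb⟩ := W.Δ_eq
  exact ⟨W.Δ, b, hΔ, by rw [← hb, map_mul, mul_inv_cancel_right₀ (gam_ne W)]⟩

theorem d_aeval (i : Fin 2) (p : (A2 L)[X]) : W.d i (Polynomial.aeval W.u p) -
    Polynomial.aeval W.u p.derivative * W.d i W.u ∈ lr W hf := by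
  induction p using Polynomial.induction_on' with
  | add p q hp hq =>
    have := add_mem hp hq
    simp only [map_add]
    convert this using 1
    ring
  | monomial n a =>
    have := mul_mem (pow_mem (u_mem W hf) n) (alg_mem W hf (pderiv i a))
    rw [Polynomial.derivative_monomial, Polynomial.aeval_monomial, Polynomial.aeval_monomial,
      Derivation.leibniz, Derivation.leibniz_pow, W.der]
    convert this using 1
    simp only [smul_eq_mul, nsmul_eq_mul, map_mul, map_natCast]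
    ring

theorem d_mem (hΔ : ¬f ∣ W.Δ) (i : Fin 2) {x : W.E} (hx : x ∈ lr W hf) : W.d i x ∈ lr W hf := by
  have hu : W.d i W.u ∈ lr W hf := by
    have := mul_mem (neg_mem (gam_mem W hf hΔ)) (d_aeval W hf i W.G)
    rwa [(W.ker _).2 dvd_rfl, map_zero, zero_sub, neg_mul_neg, inv_mul_cancel_left₀ (gam_ne W)]
      at this
  obtain ⟨s, p, h1, h2⟩ := id hx
  have h3 := add_mem (d_aeval W hf i p) (mul_mem (aeval_mem W hf p.derivative) hu)
  rw [sub_add_cancel, ← h2, Derivation.leibniz, W.der, smul_eq_mul, smul_eq_mul] at h3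
  have := mul_mem (inv_mem W hf h1) (sub_mem h3 (mul_mem hx (alg_mem W hf (pderiv i s))))
  rwa [add_sub_cancel_right, inv_mul_cancel_left₀ (alg_ne' W h1)] at this

theorem z_mem (hg : ¬f ∣ W.g) : W.z ∈ lr W hf := by
  rw [Web.z, div_eq_mul_inv]
  exact mul_mem (u_mem W hf) (inv_mem W hf hg)

theorem D_mem (hg : ¬f ∣ W.g) (hΔ : ¬f ∣ W.Δ) {x : W.E} (hx : x ∈ lr W hf) : W.D x ∈ lr W hf :=
  add_mem (d_mem W hf hΔ 0 hx) (mul_mem (z_mem W hf hg) (d_mem W hf hΔ 1 hx))

theorem D_mul (a b : W.E) : W.D (a * b) = a * W.D b + b * W.D a := by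
  simp only [Web.D, Derivation.leibniz, smul_eq_mul]; ring

theorem D_sub (a b : W.E) : W.D (a - b) = W.D a - W.D b := by
  simp only [Web.D, map_sub]; ring

/-- The three congruences. -/
theorem setup (hg : ¬f ∣ W.g) (hΔ : ¬f ∣ W.Δ) (h1 : ¬f ∣ pderiv 1 f) (hI : W.Inv f)
    {h : ℕ → A2 L} (hR : W.Rep f h) : ∃ ψ ∈ lr W hf, ∃ χ ∈ lr W hf, ∃ r ∈ lr W hf, ∃ w ∈ lr W hf,
      W.kap f h * algebraMap (A2 L) W.E f = ψ ∧
      ψ * W.D (algebraMap (A2 L) W.E f) = algebraMap (A2 L) W.E f * χ ∧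
      algebraMap (A2 L) W.E (pderiv 1 f) =
        ψ + r * W.D (algebraMap (A2 L) W.E f) + algebraMap (A2 L) W.E f * w := by
  set ι := algebraMap (A2 L) W.E with hι
  set Γ := Polynomial.aeval W.u W.G.derivative with hΓ
  have hΓ0 : Γ ≠ 0 := gam_ne W
  have hf0 : ι f ≠ 0 := alg_ne W hf.ne_zero
  have hg0 : ι W.g ≠ 0 := alg_ne' W hg
  have h10 : ι (pderiv 1 f) ≠ 0 := alg_ne' W h1
  set τ := ι (-(W.g * pderiv 0 f)) / ι (pderiv 1 f) with hτ
  have hτm : τ ∈ lr W hf := by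
    rw [hτ, div_eq_mul_inv]
    exact mul_mem (alg_mem W hf _) (inv_mem W hf h1)
  have hD : W.D (ι f) = ι (pderiv 1 f) / ι W.g * (W.u - τ) := by
    have hder : ∀ i a, W.d i (ι a) = ι (pderiv i a) := W.der
    simp only [Web.D, Web.z, hder, hτ, ← hι, map_neg, map_mul]
    field_simp
    ring
  have hDm : W.D (ι f) ∈ lr W hf := D_mem W hf hg hΔ (alg_mem W hf f)
  obtain ⟨w₀, hw₀⟩ := hI
  have hG : W.G.eval₂ ι τ = ι f * (ι w₀ * (ι (pderiv 1 f))⁻¹ ^ W.G.natDegree) := by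
    have := congrArg ι hw₀
    rw [hom_eval ι _ _ _ h10, map_mul] at this
    rw [← mul_assoc, ← this, inv_pow, mul_comm, inv_mul_cancel_left₀ (pow_ne_zero _ h10)]
  choose w₁ hw₁ using fun k => (hR k).2
  have hh : ∀ k, ι (h k) = ι (pderiv 1 f) * τ ^ k + ι f * (ι (w₁ k) * (ι (pderiv 1 f))⁻¹ ^ k) := by
    intro k
    have := congrArg ι (hw₁ k)
    simp only [map_sub, map_mul, map_pow] at this
    rw [← mul_assoc, ← this, hτ, div_pow, inv_pow]
    simp only [map_neg, map_mul]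
    field_simp
    ring
  set q : ℕ → W.E := fun k => Polynomial.aeval W.u (W.G /ₘ Polynomial.X ^ (k + 1)) with hq
  have hqm : ∀ k, q k ∈ lr W hf := fun k => aeval_mem W hf _
  set Q := ∑ k ∈ Finset.range W.G.natDegree, q k * τ ^ k with hQ
  have hQm : Q ∈ lr W hf := sum_mem fun k _ => mul_mem (hqm k) (pow_mem hτm k)
  have hQ1 : Q * (W.u - τ) = -W.G.eval₂ ι τ := by
    have := quot_id' ι W.G W.u τ
    rwa [show W.G.eval₂ ι W.u = 0 from (W.ker _).2 dvd_rfl, zero_sub] at this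
  set r₀ := ∑ k ∈ Finset.range W.G.natDegree,
    q k * ∑ i ∈ Finset.range k, W.u ^ i * τ ^ (k - 1 - i) with hr₀
  have hr₀m : r₀ ∈ lr W hf := sum_mem fun k _ => mul_mem (hqm k)
    (sum_mem fun i _ => mul_mem (pow_mem (u_mem W hf) _) (pow_mem hτm _))
  have hQ2 : Γ = Q + r₀ * (W.u - τ) := by
    rw [hΓ, ← sum_div, map_sum, hQ, hr₀, Finset.sum_mul, ← Finset.sum_add_distrib]
    refine Finset.sum_congr rfl fun k _ => ?_
    rw [mul_assoc, Commute.geom_sum₂_mul (Commute.all _ _), map_mul, map_pow, Polynomial.aeval_X]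
    simp only [hq]
    ring
  set w₂ := ∑ k ∈ Finset.range W.G.natDegree,
    q k * (ι (w₁ k) * (ι (pderiv 1 f))⁻¹ ^ k) with hw₂
  have hw₂m : w₂ ∈ lr W hf := sum_mem fun k _ => mul_mem (hqm k)
    (mul_mem (alg_mem W hf _) (pow_mem (inv_mem W hf h1) _))
  have hN : ∑ k ∈ Finset.range W.G.natDegree, q k * ι (h k) = ι (pderiv 1 f) * Q + ι f * w₂ := by
    rw [hQ, hw₂, Finset.mul_sum, Finset.mul_sum, ← Finset.sum_add_distrib]
    exact Finset.sum_congr rfl fun k _ => by rw [hh]; ring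
  have hΓm : Γ⁻¹ ∈ lr W hf := gam_mem W hf hΔ
  refine ⟨(ι (pderiv 1 f) * Q + ι f * w₂) * Γ⁻¹, mul_mem (add_mem (mul_mem (alg_mem W hf _) hQm)
      (mul_mem (alg_mem W hf _) hw₂m)) hΓm,
    (w₂ * W.D (ι f) - ι (pderiv 1 f) ^ 2 * (ι W.g)⁻¹ *
      (ι w₀ * (ι (pderiv 1 f))⁻¹ ^ W.G.natDegree)) * Γ⁻¹, mul_mem (sub_mem (mul_mem hw₂m hDm)
        (mul_mem (mul_mem (pow_mem (alg_mem W hf _) _) (inv_mem W hf hg))
          (mul_mem (alg_mem W hf _) (pow_mem (inv_mem W hf h1) _)))) hΓm,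
    r₀ * ι W.g * Γ⁻¹, mul_mem (mul_mem hr₀m (alg_mem W hf _)) hΓm,
    -(w₂ * Γ⁻¹), neg_mem (mul_mem hw₂m hΓm), ?_, ?_, ?_⟩
  · rw [Web.kap, ← hN]
    simp only [hq, ← hι, ← hΓ]
    field_simp
  · rw [hG] at hQ1
    rw [hD, div_eq_mul_inv]
    linear_combination (ι (pderiv 1 f) ^ 2 * (ι W.g)⁻¹ * Γ⁻¹) * hQ1
  · rw [hD]
    field_simp
    linear_combination ι (pderiv 1 f) * hQ2

end LocS

open LocS in
theorem pLOC (L : Type u) [Field L] [IsAlgClosed L] [CharZero L] :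
    S_LOC L := by
  intro W f h hf hg hΔ h1 hI hR
  obtain ⟨ψ, hψ, χ, hχ, r, hr, w, hw, e1, e2, e3⟩ := setup W hf hg hΔ h1 hI hR
  set ι := algebraMap (A2 L) W.E with hι
  have hf0 : ι f ≠ 0 := alg_ne W hf.ne_zero
  have hg0 : ι W.g ≠ 0 := alg_ne' W hg
  constructor
  · obtain ⟨y, hy⟩ := abs1 (B := lr W hf) (fun x => ⟨W.D x, D_mem W hf hg hΔ x.2⟩)
      (fun x => ⟨W.d 1 x, d_mem W hf hΔ 1 x.2⟩) (fun a b => Subtype.ext (D_mul W a b))
      (fun a b => Subtype.ext (D_sub W a b))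
      (fun a b => Subtype.ext ((W.d 1).leibniz (a : W.E) b)) ⟨ι f, alg_mem W hf f⟩ ⟨ψ, hψ⟩ ⟨χ, hχ⟩
      ⟨W.d 1 W.z, d_mem W hf hΔ 1 (z_mem W hf hg)⟩ ⟨r, hr⟩ ⟨w, hw⟩ ⟨_, inv_mem W hf h1⟩
      (Subtype.ext (by
        change W.d 1 (ι f) * _ = 1
        rw [hι, W.der, mul_inv_cancel₀ (alg_ne' W h1)])) (Subtype.ext e2)
      (Subtype.ext ((W.der 1 f).trans e3)) (Subtype.ext (by
        change W.d 1 (W.D (ι f)) = W.D (W.d 1 (ι f)) + W.d 1 W.z * W.d 1 (ι f)
        simp only [Web.D, hι, map_add, Derivation.leibniz, W.der, smul_eq_mul, pd_comm 1 0 f]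
        ring))
    have hy' : χ - W.D ψ - W.d 1 W.z * ψ = ι f * y := congrArg Subtype.val hy
    have e4 := congrArg W.D e1
    rw [D_mul] at e4
    have : W.Lop (W.kap f h) = -y := by
      refine mul_left_cancel₀ (mul_ne_zero hf0 hf0) ?_
      rw [Web.Lop]
      linear_combination ι f * e4 - (W.D (ι f) - ι f * W.d 1 W.z) * e1 - e2 - ι f * hy'
    rw [this]
    exact (neg_mem y.2 : -(y : W.E) ∈ lr W hf)
  · intro hk
    obtain ⟨s₁, p₁, hs₁, hp₁⟩ : ι W.g * (W.kap f h + w) ∈ lr W hf :=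
      mul_mem (alg_mem W hf _) (add_mem (hk : W.kap f h ∈ lr W hf) hw)
    obtain ⟨s₂, p₂, hs₂, hp₂⟩ := hr
    have hP : W.G ∣ Polynomial.C (s₁ * s₂ * W.g * pderiv 1 f) - Polynomial.C (s₂ * f) * p₁ -
        Polynomial.C s₁ * p₂ * (Polynomial.C (W.g * pderiv 0 f) +
          Polynomial.X * Polynomial.C (pderiv 1 f)) := by
      refine (W.ker _).1 ?_
      simp only [map_sub, map_mul, map_add, Polynomial.aeval_C, Polynomial.aeval_X, ← hp₁, ← hp₂,
        ← hι]
      have hD : ι W.g * W.D (ι f) = ι W.g * ι (pderiv 0 f) + W.u * ι (pderiv 1 f) := by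
        have hder : ∀ i a, W.d i (ι a) = ι (pderiv i a) := W.der
        simp only [Web.D, Web.z, ← hι, hder]
        field_simp
      linear_combination ι s₁ * ι s₂ * ι W.g * e3 - ι s₁ * ι s₂ * ι W.g * e1 +
        ι s₁ * ι s₂ * r * hD
    have : (span {f} : Ideal (A2 L)).IsPrime := (Ideal.span_singleton_prime hf.ne_zero).2 hf
    let K := FractionRing (A2 L ⧸ span {f})
    let φ : A2 L →+* K := algebraMap (A2 L) K
    have hφ : ∀ G, φ G = 0 ↔ f ∣ G := fun G => by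
      rw [show φ G = algebraMap (A2 L ⧸ span {f}) K (Ideal.Quotient.mk _ G) from rfl,
        IsFractionRing.to_map_eq_zero_iff, Ideal.Quotient.eq_zero_iff_mem,
        Ideal.mem_span_singleton]
    have h10 : φ (pderiv 1 f) ≠ 0 := mt (hφ _).1 h1
    have hG := (hφ _).2 hI
    rw [hom_eval φ _ _ _ h10] at hG
    replace hG := (mul_eq_zero.1 hG).resolve_left (pow_ne_zero _ h10)
    obtain ⟨p, hp⟩ := hP
    have := congrArg (Polynomial.eval₂ φ (φ (-(W.g * pderiv 0 f)) / φ (pderiv 1 f))) hp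
    rw [Polynomial.eval₂_mul (p := W.G), hG, zero_mul] at this
    simp only [Polynomial.eval₂_sub, Polynomial.eval₂_mul, Polynomial.eval₂_add, Polynomial.eval₂_C,
      Polynomial.eval₂_X, div_mul_cancel₀ _ h10, map_neg, add_neg_cancel, mul_zero, sub_zero,
      map_mul φ s₂ f, (hφ f).2 dvd_rfl, zero_mul] at this
    rcases hf.dvd_or_dvd ((hφ _).1 this) with h | h
    · rcases hf.dvd_or_dvd h with h | h
      · exact (hf.dvd_or_dvd h).elim hs₁ hs₂
      · exact hg h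
    · exact h1 h

end Pool.Agent.P.MP_6f117a_ag.Surf
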