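import Pool.Agent.P.MP_6f117a_ag.SIface

/-! Step MORSE of the proof for surfaces in projective three-space. -/

namespace Pool.Agent.P.MP_6f117a_ag.Surf

open MvPolynomial Module
open Ideal (span)
open scoped Polynomial WithZero

universe u

theorem pMORSE (L : Type u) [Field L] [IsAlgClosed L] [CharZero L]
    (hHFA : S_HFA L) (hSLICE : S_SLICE L) :
    S_MORSE L := by
  intro d F hF I hI hFI hreg a b ρ r H hab hH hN
  have h3 := hHFA d F hF
  have hcol : I.colon {xj T2 L 0} = I := by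
    refine le_antisymm (fun G hG => hreg G ?_) Ideal.le_colon
    rw [mul_comm]
    exact Submodule.mem_colon_singleton.1 hG
  have h1 : ∀ n : ℕ, (cod (bih L w2) (span {xj T2 L 0} ⊔ I) (a, b + 1 + n) : ℚ) =
      H (b + 1) - H b + ρ * d * n := by
    intro n
    have e := cod_sup_span hI (xj_mem (L := L) w2 0) (a, b + n)
    have e1 : ((0, 1) + (a, b + n) : ℕ × ℕ) = (a, b + 1 + n) := by
      simp only [Prod.mk_add_mk, Prod.mk.injEq]
      omega
    rw [hcol, e1] at e
    rw [e, ← hN.1 n]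
    push_cast
    rw [hH _ (by omega), hH _ (by omega)]
    push_cast
    rfl
  have h2 : ∀ n : ℕ, d < n → (cod (frm L) (span {F, X 0}) n : ℚ) = d * n + d * (3 - d) / 2 := by
    intro n hn
    have e : ((2 * cod (frm L) (span {F, X 0}) n : ℤ) : ℚ) =
        ((2 * d * n + d * (3 - d) : ℤ) : ℚ) := by rw [h3.cod0 n hn]
    push_cast at e
    linarith
  obtain ⟨q, hq⟩ : ∃ q : ℤ, (q : ℚ) = H (b + 1) - H b - ρ * (d * (3 - d) / 2) := by
    refine ⟨cod (bih L w2) (span {xj T2 L 0} ⊔ I) (a, b + 1 + (d + 1)) -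
      ρ * cod (frm L) (span {F, X 0}) (d + 1), ?_⟩
    push_cast
    rw [h1, h2 _ (by omega)]
    ring
  have h4 := hSLICE d F hF I hI hFI hreg a b ρ (d + 1) q hab fun n hn => by
    apply Int.cast_injective (α := ℚ)
    push_cast
    rw [h1, h2 _ (by omega), hq]
    ring
  have h5 : ∀ k : ℕ, (hf (bih L w2) ⊤ (a, b) : ℤ) ≤
      hf (bih L w2) (sat (xj T2 L) (span {xj T2 L 0 ^ k} ⊔ I)) (a, b) + k * q := by
    intro k
    induction k with
    | zero =>
      have : (⊤ : Ideal (U L)) ≤ sat (xj T2 L) (span {xj T2 L 0 ^ 0} ⊔ I) := by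
        refine le_trans ?_ (le_sat _ _)
        rw [pow_zero, Ideal.span_singleton_one, top_sup_eq]
      have := hf_mono (𝒜 := bih L w2) this (a, b)
      omega
    | succ k ih =>
      have := h4 k
      push_cast
      linarith
  have h6 : (r : ℤ) * q < cod (bih L w2) I (a, b) := by
    have e := hN.2
    rw [← hq, ← hH b le_rfl] at e
    exact_mod_cast e
  have h7 := h5 r
  rw [cod] at h6
  obtain ⟨Q, hQ, hQb, hQI⟩ := exists_of_hf_lt (𝒜 := bih L w2) (I := I)
    (J := sat (xj T2 L) (span {xj T2 L 0 ^ r} ⊔ I)) (i := (a, b)) (by omega)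
  exact ⟨Q, hQb, hQI, by rwa [map_pow]⟩

end Pool.Agent.P.MP_6f117a_ag.Surf
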