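import Pool.Agent.P.MP_6f117a_ag.SIface

/-! Step MULT of the proof for surfaces in projective three-space. -/

namespace Pool.Agent.P.MP_6f117a_ag.Surf

open MvPolynomial Module
open Ideal (span)
open scoped Polynomial WithZero

universe u

theorem nonneg_mult {L : Type u} [Field L] {I : Ideal (S L)} {e : ℤ} (h : HasDeg I e) : 0 ≤ e := by
  obtain ⟨c, n, hn⟩ := h
  have h1 := hn (n + c.natAbs + 1) (by omega)
  have h2 := cod_nonneg (𝒜 := frm L) I (n + c.natAbs + 1)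
  have h3 : c ≤ c.natAbs := Int.le_natAbs
  by_contra hc
  push_cast at h1 h3
  nlinarith [abs_nonneg c, Int.natCast_nonneg n]

theorem pMULT (L : Type u) [Field L] [IsAlgClosed L] [CharZero L]
    (hSIG1 : S_SIG1 L) (hHS : S_HS L) (hDIR2 : S_DIR2 L) (hHART : S_HART L) (hORD : S_ORD L) (hGENC : S_GENC L) (hRADHF : S_RADHF L) (hMULT1 : S_MULT1 L) :
    S_MULT L := by
  classical
  intro d F hF Z e s n₀ N f hZ f1 f2 hz he hN hd
  lift Z to Finset (S L) using hZ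
  set I : Ideal (S L) := ⨅ z ∈ (Z : Set (S L)), (span {F, f}).colon {z} with hI
  have mI : ∀ b, b ∈ I ↔ ∀ z ∈ Z, b * z ∈ span {F, f} := fun b => by
    simp only [hI, Submodule.mem_iInf, Submodule.mem_colon_singleton, smul_eq_mul, Finset.mem_coe]
  have mc : ∀ {J : Ideal (S L)} {a b}, a ∈ J.colon {b} ↔ a * b ∈ J := Submodule.mem_colon_singleton
  have I1 : I.IsHomogeneous (frm L) := Ideal.IsHomogeneous.iInf₂ fun z h => hom_colon
    (by rw [Ideal.span_insert]; exact (hom_span hF.hom).sup (hom_span f1)) (hz z h)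
  have I2 : F ∈ I := (mI _).2 fun z _ => Ideal.mul_mem_right _ _ (Ideal.subset_span (by simp))
  have I3 : f ∈ I := (mI _).2 fun z _ => Ideal.mul_mem_right _ _ (Ideal.subset_span (by simp))
  have I4 : ∀ o, eval o F ≠ 0 → Hart o I := fun o ho a₁ a₂ y h1 h2 h3 h4 h5 =>
    (mI _).2 fun z h => hHART d F o hF.hom hF.prime ho a₁ a₂ f _ h1 h2 h3 f2
      (mul_assoc a₁ y z ▸ (mI _).1 h4 z h) (mul_assoc a₂ y z ▸ (mI _).1 h5 z h)
  have I5 : ∀ {q : Ideal (S L)} {y}, q.IsPrime → I.colon {y} ≤ q →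
      ∃ z ∈ Z, (span {F, f}).colon {y * z} ≤ q := fun {q y} hq h =>
    (hq.inf_le' (s := Z) (f := fun z => (span {F, f}).colon {y * z})).1 fun x hx => h (mc.2
      ((mI _).2 fun z h => mul_assoc x y z ▸ mc.1
        ((Finset.inf_le (f := fun z => (span {F, f}).colon {y * z}) h :) hx)))
  obtain ⟨T, T1, T2⟩ := exists_ass I
  obtain ⟨o, ho, -⟩ := hDIR2.1 4 F ∅ hF.prime.ne_zero (by simp)
  have T0 : ∀ q ∈ T, I ≤ q := fun q hq => by
    obtain ⟨-, y, rfl⟩ := T1 q hq; exact Ideal.le_colon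
  have T3 : ∀ q ∈ T, q.IsPrime ∧ q.IsHomogeneous (frm L) ∧ F ∈ q ∧ (∃ g ∈ q, ¬F ∣ g) ∧
      (∃ i, X i ∉ q) ∧ ∀ o, eval o F ≠ 0 → Hart o q := fun q hq => by
    have h0 := T0 q hq
    obtain ⟨h1, y, rfl⟩ := T1 q hq
    have h2 : ∀ o, eval o F ≠ 0 → Hart o (I.colon {y}) := fun o ho a₁ a₂ x h1 h2 h3 h4 h5 =>
      mc.2 (I4 o ho a₁ a₂ _ h1 h2 h3 (mul_assoc a₁ x y ▸ mc.1 h4) (mul_assoc a₂ x y ▸ mc.1 h5))
    refine ⟨h1, hGENC.1 I y I1 h1, h0 I2, ⟨f, h0 I3, f2⟩, by_contra fun hc => ?_, h2⟩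
    push Not at hc
    have h3 : ∀ a : S L, a.IsHomogeneous 1 → a * 1 ∈ I.colon {y} := fun a ha => by
      refine Ideal.mul_mem_right _ _ ((Ideal.span_le.2 (Set.image_subset_iff.2 fun i _ => hc i) :
        span (X '' Set.univ) ≤ _) (mem_ideal_span_X_image.2 fun m hm => by_contra fun h => ?_))
      push Not at h
      have := ha (mem_support_iff.1 hm)
      rw [show m = 0 from Finsupp.ext fun i => h i trivial] at this
      simp at this
    obtain ⟨a₁, a₂, a1, a2, a3, a4, a5, -⟩ := hDIR2.2.2.1 o 0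
    exact h1.ne_top ((Ideal.eq_top_iff_one _).2 (h2 o ho a₁ a₂ 1 a4 a5 a3 (h3 _ a1) (h3 _ a2)))
  have T4 := fun q (hq : q ∈ T) => (T1 q hq).2.elim fun y hy =>
    (I5 (T1 q hq).1 hy.ge).elim fun z h => hORD d F hF q f (y * z) (T1 q hq).1 f2
      (le_antisymm (fun x hx => mc.2 (mul_assoc x y z ▸ (mI _).1 (mc.1 (hy.le hx)) z h.1)) h.2)
      (T3 q hq).2.2.2.2.1
  choose! v v1 v2 v3 v4 using T4
  let W := T ×ˢ Z.filter fun z => ¬F ∣ z
  let M := W.sup fun w => v w.1 f - v w.1 w.2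
  have hM : ∀ b, ¬F ∣ b → (∀ q ∈ T, b ∈ q) → b ^ M ∈ I := fun b b1 b2 => by
    obtain ⟨u, u1, u2⟩ := exists_avoid ((I.colon {b ^ M}).restrictScalars L) T fun q hq => by
      by_contra hc
      push Not at hc
      obtain ⟨z, z1, z2⟩ := I5 (T1 q hq).1 hc
      have n1 : ∀ k, ¬F ∣ b ^ k := fun k h => b1 (hF.prime.dvd_of_dvd_pow h)
      by_cases z3 : F ∣ z
      · exact (T1 q hq).1.ne_top ((Ideal.eq_top_iff_one _).2 (z2 (mc.2 (Ideal.mul_mem_left _ _
          (Ideal.mul_mem_left _ _ (Ideal.mem_of_dvd _ z3 (Ideal.subset_span (by simp))))))))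
      have h1 : ∀ k, k ≤ v q (b ^ k) := fun k => by
        induction k with
        | zero => exact Nat.zero_le _
        | succ k ih =>
          have := mt (v2 q hq b b1).1 (not_not.2 (b2 q hq))
          rw [pow_succ, v1 q hq _ _ (n1 k) b1]; omega
      have h2 : v q f - v q z ≤ M := Finset.le_sup (f := fun w : Ideal (S L) × S L =>
        v w.1 f - v w.1 w.2) (b := (q, z)) (by simp [W, hq, z1, z3])
      obtain ⟨r, r1, r2⟩ := (v3 q hq f (b ^ M * z) f2 fun h =>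
        (hF.prime.dvd_or_dvd h).elim (n1 M) z3).1 (by
          have := h1 M
          rw [v1 q hq _ _ (n1 M) z3]; omega)
      exact r1 (z2 (mc.2 r2))
    exact T2 u u2 _ (mc.1 u1)
  obtain ⟨b, b1, b2, b3⟩ := hRADHF I e T N I1 he (fun q hq => by
    obtain ⟨h1, h2, h3, h4, h5, h6⟩ := T3 q hq
    obtain ⟨e', he'⟩ := hHS d F hF q h2 h3 h4
    obtain ⟨ξ, hξ⟩ := hGENC.2 q e' h1 h2 he' h5
    exact ⟨T0 q hq, ξ, hξ o (h6 o ho)⟩) hN
  refine ⟨M, b ^ M, ?_, pow_ne_zero _ b1, mul_comm N M ▸ b2.pow M,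
    (mI _).1 (hM b ((hSIG1 d F hF).not_dvd N b hd b1 b2) b3)⟩
  rcases Nat.eq_zero_or_pos M with h | h
  · have := nonneg_mult he
    rw [h]; omega
  obtain ⟨⟨q, z⟩, h1, h2⟩ := Finset.exists_mem_eq_sup W (Finset.nonempty_iff_ne_empty.2 fun e => by
    simp [M, e] at h) fun w => v w.1 f - v w.1 w.2
  simp only [W, Finset.mem_product, Finset.mem_filter] at h1
  exact hMULT1 d F hF I q T e s n₀ M f z (v q) ⟨I1, he, I4, h1.1, T3, hM, f1, hz z h1.2.1, f2,
    h1.2.2, fun b hb => (mI b).1 hb z h1.2.1, v1 q h1.1, v2 q h1.1, v3 q h1.1, v4 q h1.1, by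
      change M = v q f - v q z at h2; omega⟩

end Pool.Agent.P.MP_6f117a_ag.Surf
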