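import Pool.Agent.P.MP_6f117a_ag.SIface

/-! Step MULT0 of the proof for surfaces in projective three-space. -/

namespace Pool.Agent.P.MP_6f117a_ag.Surf

open MvPolynomial Module
open Ideal (span)
open scoped Polynomial WithZero

universe u

theorem pMULT0 (L : Type u) [Field L] [IsAlgClosed L] [CharZero L]
    (_hSIG1 : S_SIG1 L) (hHS : S_HS L) (_hDIR2 : S_DIR2 L) (hCONE0 : S_CONE0 L) (hCONE : S_CONE L) :
    S_MULT0 L := by
  classical
  intro d F hF I p T e s n₀ M f z v h o δ G ho G0 G1 G2 G3 G4 G5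
  obtain ⟨p1, -⟩ := h.primes p h.mem
  have hd : 0 < d := by have := hF.two; omega
  have one : (1 : S L) ∉ p := (Ideal.ne_top_iff_one p).1 p1.ne_top
  have o0 : o ≠ 0 := by
    rintro rfl
    refine ho ?_
    rw [eval_zero, constantCoeff_eq]
    exact hF.hom.coeff_eq_zero (by simpa using hd.ne)
  have nd : ∀ {a}, a ≠ 0 → dd o a = 0 → ¬F ∣ a := fun {a} h2 h3 h4 =>
    h2 ((hCONE0 o).2.1 d F a hF.hom hd ho h3 h4)
  have dr : ∀ {a a'}, a * a' ≠ 0 → dd o (a * a') = 0 → dd o a' = 0 := fun {a a'} h1 h2 =>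
    (hCONE0 o).1 a' a (by rwa [mul_comm]) (by rwa [mul_comm])
  have dm : ∀ {a a'}, dd o a = 0 → dd o a' = 0 → dd o (a * a') = 0 := fun h1 h2 => by
    rw [Derivation.leibniz, h1, h2, smul_zero, smul_zero, add_zero]
  have nm : ∀ {a a'}, ¬F ∣ a → ¬F ∣ a' → ¬F ∣ a * a' := fun h1 h2 h3 =>
    (hF.prime.dvd_or_dvd h3).elim h1 h2
  have vp : ∀ {a}, ¬F ∣ a → ∀ m : ℕ, v (a ^ m) = m * v a := fun {a} ha m => by
    induction m with
    | zero => rw [pow_zero, zero_mul, (h.v_zero 1 hF.prime.not_dvd_one).2 one]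
    | succ m ih =>
      rw [pow_succ, h.v_mul _ _ (fun hc => ha (hF.prime.dvd_of_dvd_pow hc)) ha, ih]
      ring
  obtain ⟨β, b, b0, b1, b2, b3, b4, b5⟩ := hCONE o I e o0 h.hom (h.hart o ho) h.deg
  have bn := nd b0 b3
  have bz := nm bn h.z_nd
  have lo : M ≤ v b := by
    have := (h.v_le f (b * z) h.f_nd bz).2 ⟨1, one, by rw [one_mul]; exact h.mul_z b b4⟩
    rw [h.v_f, h.v_mul _ _ bn h.z_nd] at this
    omega
  have hq : ∀ q ∈ T, ∃ g : S L, g ≠ 0 ∧ dd o g = 0 ∧ g ∈ q ∧ (G ∉ q → g ∉ p) := by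
    intro q hq
    obtain ⟨q1, q2, q3, q4, -, q6⟩ := h.primes q hq
    obtain ⟨eq, heq⟩ := hHS d F hF q q2 q3 q4
    obtain ⟨-, g, g0, -, -, g3, g4, g5⟩ := hCONE o q eq o0 q2 (q6 o ho) heq
    refine ⟨g, g0, g3, g4, fun h1 h2 => ?_⟩
    obtain ⟨a, rfl⟩ := G4 g h2 g3
    obtain ⟨c, hc⟩ := g5 a ((q1.mem_or_mem g4).resolve_left h1) (dr g0 g3)
    have : G * c = 1 := mul_left_cancel₀ (right_ne_zero_of_mul g0) (by linear_combination -hc)
    exact one (this ▸ p.mul_mem_right c G3)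
  choose! g g0 g1 g2 g3 using hq
  have hi : v b ≤ M := by
    let T' := T.filter fun q => G ∉ q
    have t1 : ∀ q ∈ T', q ∈ T := fun q hq => (Finset.mem_filter.1 hq).1
    have c0 : ∏ q ∈ T', g q ≠ 0 := Finset.prod_ne_zero_iff.2 fun q hq => g0 q (t1 q hq)
    have c1 : dd o (∏ q ∈ T', g q) = 0 :=
      Finset.prod_induction g (fun a => dd o a = 0) (fun _ _ => dm) (Derivation.map_one_eq_zero _)
        fun q hq => g1 q (t1 q hq)
    have c2 : ∏ q ∈ T', g q ∉ p := fun hc => by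
      have := p1
      obtain ⟨q, hq, h1⟩ := Ideal.IsPrime.prod_mem_iff.1 hc
      exact g3 q (t1 q hq) (Finset.mem_filter.1 hq).2 h1
    have c3 := nd c0 c1
    have c4 := nm (nd G0 G2) c3
    have c5 : (G * ∏ q ∈ T', g q) ^ M ∈ I := h.pow _ c4 fun q hq => by
      by_cases hG : G ∈ q
      · exact q.mul_mem_right _ hG
      · obtain ⟨c, hc⟩ := Finset.dvd_prod_of_mem g (s := T') (Finset.mem_filter.2 ⟨hq, hG⟩)
        rw [hc]
        exact q.mul_mem_left _ (q.mul_mem_right _ (g2 q hq))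
    obtain ⟨c, hc⟩ := b5 _ c5 (by rw [Derivation.leibniz_pow, dm G2 c1, smul_zero, smul_zero])
    have c6 := vp c4 M
    rw [h.v_mul _ _ (nd G0 G2) c3, G5, (h.v_zero _ c3).2 c2, hc, h.v_mul _ _ bn fun h1 =>
      c4 (hF.prime.dvd_of_dvd_pow (hc ▸ h1.mul_left b))] at c6
    omega
  have fac : ∀ (m β : ℕ) (b : S L), b ≠ 0 → b.IsHomogeneous β → dd o b = 0 → v b = m →
      ∃ (n : ℕ) (G' : S L), β = m * δ + n ∧ G'.IsHomogeneous n ∧ G' ∉ p ∧ b = G ^ m * G' := by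
    intro m
    induction m with
    | zero =>
      exact fun β b b0 b1 b3 hv =>
        ⟨β, b, by simp, b1, (h.v_zero _ (nd b0 b3)).1 hv, by simp⟩
    | succ m ih =>
      intro β b b0 b1 b3 hv
      have h1 : G ∣ b := G4 b (by
        by_contra hc
        have := (h.v_zero _ (nd b0 b3)).2 hc
        omega) b3
      have h2 := totalDegree_le_of_dvd_of_isDomain h1 b0
      rw [G1.totalDegree G0, b1.totalDegree b0] at h2
      obtain ⟨i, rfl⟩ := Nat.exists_eq_add_of_le h2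
      obtain ⟨a, -, a1, a2⟩ := exists_comp (Ideal.IsHomogeneous.top (frm L))
        (Ideal.IsHomogeneous.bot (frm L)) G1 b1 (by
          rw [Ideal.mul_top, sup_bot_eq]; exact Ideal.mem_span_singleton.2 h1)
      obtain rfl : b = G * a := sub_eq_zero.1 ((Submodule.mem_bot _).1 a2)
      have a0 := right_ne_zero_of_mul b0
      have a3 := dr b0 b3
      rw [h.v_mul _ _ (nd G0 G2) (nd a0 a3), G5] at hv
      obtain ⟨n, G', rfl, h4, h5, h6⟩ := ih i a a0 a1 a3 (by omega)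
      exact ⟨n, G', by ring, h4, h5, by rw [h6]; ring⟩
  have vb := le_antisymm hi lo
  obtain ⟨n, G', rfl, h4, h5, h6⟩ := fac M β b b0 b1 b3 vb
  obtain ⟨σ, -, s1, s2⟩ := exists_comp (Ideal.IsHomogeneous.top (frm L)) (hom_span hF.hom) h.f_hom
    (i := M * δ + n + n₀) (x := b * z)
    (by rw [show s + (M * δ + n + n₀) = M * δ + n + (s + n₀) by ring]; exact b1.mul h.z_hom)
    (by rw [Ideal.mul_top, sup_comm, ← Ideal.span_insert]; exact h.mul_z b b4)
  have s3 : F ∣ b * z - f * σ := Ideal.mem_span_singleton.1 s2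
  have s4 : ¬F ∣ σ := fun hc => bz (by simpa using s3.add (hc.mul_left f))
  refine ⟨n, G', σ, by exact_mod_cast b2, h4, h5, s1, (h.v_zero _ s4).1 ?_, ?_⟩
  · have := (h.v_le _ _ (nm h.f_nd s4) bz).2 ⟨1, one, by
      obtain ⟨c, hc⟩ := s3
      exact Ideal.mem_span_pair.2 ⟨c, 1, by linear_combination -hc⟩⟩
    rw [h.v_mul _ _ h.f_nd s4, h.v_mul _ _ bn h.z_nd, h.v_f] at this
    omega
  · rwa [← h6, mul_comm σ]

end Pool.Agent.P.MP_6f117a_ag.Surf
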