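import Pool.Agent.P.MP_6f117a_ag.SIface

/-! Step MULT1 of the proof for surfaces in projective three-space. -/

namespace Pool.Agent.P.MP_6f117a_ag.Surf

open MvPolynomial Module
open Ideal (span)
open scoped Polynomial WithZero

universe u

theorem alg_mult1 {R : Type u} [CommRing R] [IsDomain R] {M : ℕ} {G₁ G₂ H₁ H₂ z f σ₁ σ₂ s a : R}
    (h1 : G₁ ^ M * H₁ * z - σ₁ * f = 0) (h2 : G₂ ^ M * H₂ * z - σ₂ * f = 0)
    (h3 : s * G₁ - G₂ * a = 0) (hf : f ≠ 0) (hG : G₂ ≠ 0) :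
    σ₁ * H₂ * s ^ M - σ₂ * a ^ M * H₁ = 0 := by
  have h4 : s ^ M * G₁ ^ M = G₂ ^ M * a ^ M := by rw [← mul_pow, sub_eq_zero.1 h3, mul_pow]
  refine mul_left_cancel₀ (mul_ne_zero hf (pow_ne_zero M hG)) ?_
  linear_combination (-(G₂ ^ M * H₂ * s ^ M)) * h1 + G₁ ^ M * H₁ * s ^ M * h2 + σ₂ * f * H₁ * h4

theorem gen_mult1 {L : Type u} [Field L] (hD : S_DIR2 L) {p : Ideal (S L)} (hp : p.IsPrime)
    {o : Fin 4 → L} {δ : ℕ} {G : S L} (h0 : G ≠ 0) (h1 : G.IsHomogeneous δ) (h2 : dd o G = 0)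
    (h3 : G ∈ p) (h4 : ∀ b ∈ p, dd o b = 0 → G ∣ b) :
    1 ≤ δ ∧ ∀ o', dd o' G ∈ p → dd o' G = 0 := by
  have hδ : 1 ≤ δ := Nat.pos_of_ne_zero fun e => hp.ne_top (Ideal.eq_top_of_isUnit_mem _ h3 (by
    have := totalDegree_eq_zero_iff_eq_C.1 ((h1.totalDegree h0).trans e)
    rw [this] at h0 ⊢
    exact (IsUnit.mk0 _ fun e => h0 (by rw [e, map_zero])).map C))
  refine ⟨hδ, fun o' h => by_contra fun hc => ?_⟩
  have := totalDegree_le_of_dvd_of_isDomain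
    (h4 _ h (by rw [hD.2.2.2.1, h2, map_zero])) hc
  rw [h1.totalDegree h0, (hD.2.2.2.2.1 o' δ G h1).totalDegree hc] at this
  omega

theorem pMULT1 (L : Type u) [Field L] [IsAlgClosed L] [CharZero L]
    (hSIG1 : S_SIG1 L) (hHS : S_HS L) (hDIR2 : S_DIR2 L) (hCONE0 : S_CONE0 L) (hCONE : S_CONE L) (hGENC : S_GENC L) (hORDSUM : S_ORDSUM L) (hMULT0 : S_MULT0 L) :
    S_MULT1 L := by
  classical
  intro d F hF I p T e s n₀ M f z v h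
  obtain ⟨p1, p2, p3, p4, ⟨i₀, p5⟩, p6⟩ := h.primes p h.mem
  obtain ⟨ep, hep⟩ := hHS d F hF p p2 p3 p4
  obtain ⟨ξ, hξ⟩ := hGENC.2 p ep p1 p2 hep ⟨i₀, p5⟩
  have hh := hDIR2.2.2.2.2.1
  have o0 : ∀ {w o : Fin 4 → L}, w ⬝ᵥ o ≠ 0 → o ≠ 0 := fun h e => h (by simp [e])
  have nd : ∀ {o G}, eval o F ≠ 0 → G ≠ 0 → dd o G = 0 → ¬F ∣ G := fun {o G} h1 h2 h3 h4 =>
    h2 ((hCONE0 o).2.1 d F G hF.hom (by have := hF.two; omega) h1 h3 h4)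
  obtain ⟨k, hk⟩ : ∃ k, dF F k ∉ p := by
    by_contra hc
    push Not at hc
    obtain ⟨N, hN⟩ := hF.null
    exact p5 (p1.mem_of_pow_mem N ((sup_le ((Ideal.span_singleton_le_iff_mem _).2 p3)
      (Ideal.span_le.2 (Set.range_subset_iff.2 hc)) : _ ≤ p) (hN i₀)))
  obtain ⟨w₀, w0, hw0⟩ := hDIR2.2.1 p F _ hk
  obtain ⟨o₁, a1, a2⟩ := hDIR2.1 4 F {w₀} hF.prime.ne_zero (by simpa using w0)
  replace a2 := a2 w₀ (Finset.mem_singleton_self _)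
  obtain ⟨δ₁, G₁, b1, b2, -, b3, b4, b5⟩ := hCONE o₁ p ep (o0 a2) p2 (p6 _ a1) hep
  obtain ⟨d1, hG1⟩ := gen_mult1 hDIR2 p1 b1 b2 b3 b4 b5
  obtain ⟨i, hi⟩ : ∃ i, pderiv i G₁ ∉ p := by
    by_contra hc
    push Not at hc
    have e1 : ∀ i, dd (Pi.single i 1) G₁ = pderiv i G₁ := fun i => by
      rw [hDIR2.2.2.2.2.2, Finset.sum_eq_single i (fun j _ hj => by simp [hj]) (by simp)]
      simp
    have := b2.sum_X_mul_pderiv
    rw [Finset.sum_eq_zero fun i _ => by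
      rw [← e1, hG1 _ ((e1 i).symm ▸ hc i), mul_zero]] at this
    exact smul_ne_zero (by omega) b1 this.symm
  obtain ⟨w₁, w1, hw1⟩ := hDIR2.2.1 p G₁ _ hi
  have F0 : aeval ξ.ξ F = 0 := (ξ.ker _ _ hF.hom).2 p3
  have nz : ∀ {n G}, IsHomogeneous G n → G ∉ p → aeval ξ.ξ G ≠ 0 := fun h1 h2 =>
    mt (ξ.ker _ _ h1).1 h2
  obtain ⟨T', t1, t2⟩ := hORDSUM d F hF ξ.K ξ.ξ o₁ ξ.ne F0 (nz (hh _ _ _ hF.hom) (hw0 _ a2))
  obtain ⟨o₂, c1, c2⟩ := hDIR2.1 4 F (insert w₀ (insert w₁ T')) hF.prime.ne_zero (by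
    simpa [w0, w1] using t1)
  have c3 := c2 w₀ (by simp)
  have g1 := hw1 _ (c2 w₁ (by simp))
  obtain ⟨δ₂, G₂, e1, e2, -, e3, e4, e5⟩ := hCONE o₂ p ep (o0 c3) p2 (p6 _ c1) hep
  obtain ⟨d2, hG2⟩ := gen_mult1 hDIR2 p1 e1 e2 e3 e4 e5
  have g2 : dd o₁ G₂ ∉ p := fun hc => by
    obtain ⟨a, rfl⟩ := b5 _ e4 (hG2 _ hc)
    exact g1 ((hCONE0 o₂).1 _ _ e1 e3 ▸ p.zero_mem)
  let D : Derivation L (S L) (S L) := dd o₁ F • dd o₂ - dd o₂ F • dd o₁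
  have hD : ∀ G, D G = dd o₁ F * dd o₂ G - dd o₂ F * dd o₁ G := fun G => rfl
  have DF : D F = 0 := by rw [hD]; ring
  have D1 : D G₁ = dd o₁ F * dd o₂ G₁ := by rw [hD, b3]; ring
  have D2 : D G₂ = -(dd o₂ F * dd o₁ G₂) := by rw [hD, e3]; ring
  have vv : ∀ {G}, ¬F ∣ G → G ∈ p → D G ∉ p → v G = 1 := fun h1 h2 h3 => by
    have := mt (h.v_zero _ h1).1 (not_not.2 h2)
    have := mt (h.v_der D _ DF h1) h3
    omega
  have n1 := nd a1 b1 b3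
  have n2 := nd c1 e1 e3
  have v1 := vv n1 b4 (D1 ▸ fun hc => (p1.mem_or_mem hc).elim (hw0 _ a2) g1)
  have v2 := vv n2 e4 (D2 ▸ fun hc => (p1.mem_or_mem (neg_mem_iff.1 hc)).elim (hw0 _ c3) g2)
  obtain ⟨m, r, r1, r2, r3⟩ : ∃ m r, r * G₁ ∈ span {G₂} ⊔ span {F} ∧ IsHomogeneous r m ∧ r ∉ p := by
    obtain ⟨r, r1, r2⟩ := (h.v_le _ _ n2 n1).1 (v2.trans v1.symm).le
    rw [Ideal.span_insert, sup_comm] at r2
    by_contra hc
    push Not at hc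
    exact r1 (le_of_hom (hom_colon (𝒜 := frm L) ((hom_span e2).sup (hom_span hF.hom)) b2)
      (fun m x hx => hc m x (Submodule.mem_colon_singleton.1 hx))
      (Submodule.mem_colon_singleton.2 r2))
  have s1 : IsHomogeneous (X i₀ ^ δ₂ * r) (δ₂ + m) := (isHomogeneous_X_pow _ _).mul r2
  have s2 : X i₀ ^ δ₂ * r ∉ p := fun hc =>
    (p1.mem_or_mem hc).elim (fun h => p5 (p1.mem_of_pow_mem _ h)) r3
  have s3 : X i₀ ^ δ₂ * r * G₁ ∈ span {G₂} * ⊤ ⊔ span {F} := by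
    rw [Ideal.mul_top, mul_assoc]; exact Ideal.mul_mem_left _ _ r1
  generalize X i₀ ^ δ₂ * r = t at s1 s2 s3
  obtain ⟨a, -, x1, x2⟩ := exists_comp (Ideal.IsHomogeneous.top (frm L)) (hom_span hF.hom) e2
    (i := m + δ₁) (by rw [← add_assoc]; exact s1.mul b2) s3
  have x3 : aeval ξ.ξ (t * dd o₁ F * dd o₂ G₁ + dd o₂ F * dd o₁ G₂ * a) = 0 := by
    refine (ξ.ker _ _ (((s1.mul (hh _ _ _ hF.hom)).mul (hh _ _ _ b2)).add (by
      convert ((hh o₂ _ _ hF.hom).mul (hh o₁ _ _ e2)).mul x1 using 1; omega))).2 ?_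
    obtain ⟨w, hw⟩ := Ideal.mem_span_singleton.1 x2
    have := congrArg D hw
    simp only [map_sub, Derivation.leibniz, smul_eq_mul, DF, D1, D2] at this
    rw [show t * dd o₁ F * dd o₂ G₁ + dd o₂ F * dd o₁ G₂ * a = F * D w - G₁ * D t + G₂ * D a by
      linear_combination this]
    exact add_mem (sub_mem (p.mul_mem_right _ p3) (p.mul_mem_right _ b4)) (p.mul_mem_right _ e4)
  obtain ⟨m₁, H₁, σ₁, y1, y2, y3, y4, y5, y6⟩ :=
    hMULT0 d F hF I p T e s n₀ M f z v h o₁ δ₁ G₁ a1 b1 b2 b3 b4 b5 v1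
  obtain ⟨m₂, H₂, σ₂, z1, z2, z3, z4, z5, z6⟩ :=
    hMULT0 d F hF I p T e s n₀ M f z v h o₂ δ₂ G₂ c1 e1 e2 e3 e4 e5 v2
  have x4 : aeval ξ.ξ (σ₁ * H₂ * t ^ M - σ₂ * a ^ M * H₁) = 0 := by
    have : (span {F}).IsPrime := (Ideal.span_singleton_prime hF.prime.ne_zero).2 hF.prime
    have q := Ideal.Quotient.eq_zero_iff_dvd F
    obtain ⟨w, hw⟩ := (q (σ₁ * H₂ * t ^ M - σ₂ * a ^ M * H₁)).1 (by
      simpa only [map_sub, map_mul, map_pow] using alg_mult1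
        (by simpa only [map_sub, map_mul, map_pow] using (q _).2 y6)
        (by simpa only [map_sub, map_mul, map_pow] using (q _).2 z6)
        (by simpa only [map_sub, map_mul] using (q _).2 (Ideal.mem_span_singleton.1 x2))
        (mt (q _).1 h.f_nd) (mt (q _).1 n2))
    rw [hw, map_mul, F0, zero_mul]
  have x5 := t2 o₂ (fun w hw => c2 w (by simp [hw])) M _ (σ₁ * H₂ * dd o₁ G₂ ^ M)
    (σ₂ * (-dd o₂ G₁) ^ M * H₁) ((y4.mul z2).mul ((hh _ _ _ e2).pow M)) (by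
      convert (z4.mul ((hh o₂ _ _ b2).neg.pow M)).mul y2 using 1
      obtain ⟨δ₁, rfl⟩ := Nat.exists_eq_add_of_le d1
      obtain ⟨δ₂, rfl⟩ := Nat.exists_eq_add_of_le d2
      simp only [Nat.add_sub_cancel_left]; ring) (by
      simp only [map_mul, map_pow, map_neg]
      exact mul_ne_zero (mul_ne_zero (nz z4 z5) (pow_ne_zero _ (neg_ne_zero.2
        (nz (hh _ _ _ b2) g1)))) (nz y2 y3)) (by
      simp only [map_mul, map_pow, map_neg, map_add, map_sub] at x3 x4 ⊢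
      have x6 : (aeval ξ.ξ (dd o₂ F)) ^ M * aeval ξ.ξ (dd o₁ G₂) ^ M * aeval ξ.ξ a ^ M =
          aeval ξ.ξ t ^ M * aeval ξ.ξ (dd o₁ F) ^ M * (-aeval ξ.ξ (dd o₂ G₁)) ^ M := by
        simp only [← mul_pow]
        exact congrArg (· ^ M) (by linear_combination x3)
      refine mul_left_cancel₀ (pow_ne_zero M (nz s1 s2)) ?_
      linear_combination aeval ξ.ξ (dd o₂ F) ^ M * aeval ξ.ξ (dd o₁ G₂) ^ M * x4 +
        aeval ξ.ξ σ₂ * aeval ξ.ξ H₁ * x6)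
  have x7 := le_of_mul_le_mul_right x5 (hξ _ (p6 _ a1))
  obtain ⟨δ₂, rfl⟩ := Nat.exists_eq_add_of_le d2
  rw [Nat.add_sub_cancel_left] at x7
  push_cast at x7 z1
  nlinarith

end Pool.Agent.P.MP_6f117a_ag.Surf
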