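import Pool.Agent.P.MP_6f117a_ag.SIface

/-! Step NUM1 of the proof for surfaces in projective three-space. -/

namespace Pool.Agent.P.MP_6f117a_ag.Surf

open MvPolynomial Module
open Ideal (span)
open scoped Polynomial WithZero

universe u

theorem sum_num1 (A0 A1 A2 A3 A4 : ℚ) (m : ℕ) :
    ∑ l ∈ Finset.range (m + 1), (A0 + A1 * l + A2 * l ^ 2 + A3 * l ^ 3 + A4 * l ^ 4) =
      A0 * (m + 1) + A1 * (m * (m + 1) / 2) + A2 * (m * (m + 1) * (2 * m + 1) / 6) +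
        A3 * (m ^ 2 * (m + 1) ^ 2 / 4) +
        A4 * (m * (m + 1) * (2 * m + 1) * (3 * m ^ 2 + 3 * m - 1) / 30) := by
  induction m with
  | zero => simp
  | succ m ih => rw [Finset.sum_range_succ, ih]; push_cast; ring

theorem pos_num1 (e0 e1 e2 e3 e4 e5 : ℚ) (h : 0 < e5) : ∃ m : ℕ, 2 ≤ m ∧
    0 < e0 + e1 * m + e2 * m ^ 2 + e3 * m ^ 3 + e4 * m ^ 4 + e5 * m ^ 5 := by
  obtain ⟨m, hm⟩ := exists_nat_gt ((|e0| + |e1| + |e2| + |e3| + |e4|) / e5 + 2)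
  have h0 : 0 ≤ (|e0| + |e1| + |e2| + |e3| + |e4|) / e5 := by positivity
  have h1 : (2 : ℚ) < m := by linarith
  have h2 : |e0| + |e1| + |e2| + |e3| + |e4| < e5 * m := by
    rw [mul_comm, ← div_lt_iff₀ h]; linarith
  refine ⟨m, by exact_mod_cast h1.le, ?_⟩
  have h3 : ∀ (e : ℚ) (k : ℕ), k ≤ 4 → -(|e| * (m : ℚ) ^ 4) ≤ e * m ^ k := by
    intro e k hk
    have a1 : (m : ℚ) ^ k ≤ m ^ 4 := pow_le_pow_right₀ (by linarith) hk
    have a2 : (0 : ℚ) ≤ m ^ k := by positivity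
    nlinarith [neg_abs_le e, abs_nonneg e]
  have a0 := h3 e0 0 (by omega)
  have a1 := h3 e1 1 (by omega)
  have a2 := h3 e2 2 (by omega)
  have a3 := h3 e3 3 (by omega)
  have a4 := h3 e4 4 (by omega)
  have a5 := mul_lt_mul_of_pos_right h2 (show (0 : ℚ) < m ^ 4 by positivity)
  rw [pow_zero, mul_one] at a0
  rw [pow_one] at a1
  nlinarith

/-- The closed form of the Euler characteristic in even weight. -/
def closed_num1 (m x d : ℚ) : ℚ :=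
  (11 / 6) * d + (-1) * d ^ 2 + (1 / 6) * d ^ 3 + (2) * x * d + (-1 / 2) * x * d ^ 2 + (1 / 2) * x
  ^ 2 * d + (481 / 180) * m * d + (7 / 10) * m * d ^ 2 + (-53 / 90) * m * d ^ 3 + (23 / 6) * m * x
  * d + (-1 / 4) * m * x * d ^ 2 + (13 / 12) * m * x ^ 2 * d + (1 / 6) * m ^ 2 * d + (9 / 2) * m ^
  2 * d ^ 2 + (-13 / 8) * m ^ 2 * d ^ 3 + (25 / 12) * m ^ 2 * x * d + (1) * m ^ 2 * x * d ^ 2 + (3
  / 4) * m ^ 2 * x ^ 2 * d + (-19 / 18) * m ^ 3 * d + (15 / 4) * m ^ 3 * d ^ 2 + (-37 / 36) * m ^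
  3 * d ^ 3 + (1 / 6) * m ^ 3 * x * d + (1) * m ^ 3 * x * d ^ 2 + (1 / 6) * m ^ 3 * x ^ 2 * d +
  (-5 / 12) * m ^ 4 * d + (1) * m ^ 4 * d ^ 2 + (-1 / 8) * m ^ 4 * d ^ 3 + (-1 / 12) * m ^ 4 * x *
  d + (1 / 4) * m ^ 4 * x * d ^ 2 + (-1 / 30) * m ^ 5 * d + (1 / 20) * m ^ 5 * d ^ 2 + (1 / 30) *
  m ^ 5 * d ^ 3

theorem Phi_num1 (d m : ℕ) (b : ℤ) :
    Phi (d - 1) (PA d) (2 * m) b = closed_num1 m (b - 2 * m) d := by
  obtain ⟨y, rfl⟩ : ∃ y, b = y + 2 * m := ⟨b - 2 * m, by ring⟩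
  have key : ∀ x : ℚ, x = y → ∀ l : ℕ,
      phi (d - 1) (PA d) (((2 * m : ℕ) : ℚ) - 2 * l) l (y + 2 * m - (2 * m : ℕ) + l) =
      ((11 / 6) * d + (-1) * d ^ 2 + (1 / 6) * d ^ 3 + (2) * x * d + (-1 / 2) * x * d ^ 2 + (1 / 2)
      * x ^ 2 * d + (7 / 6) * m * d + (3 / 2) * m * d ^ 2 + (-2 / 3) * m * d ^ 3 + (3) * m * x * d
      + (1) * m * x ^ 2 * d + (-5) * m ^ 2 * d + (7) * m ^ 2 * d ^ 2 + (-2) * m ^ 2 * d ^ 3 + (-2)
      * m ^ 2 * x * d + (2) * m ^ 2 * x * d ^ 2) +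
      ((17 / 12) * d + (-5 / 4) * d ^ 2 + (1 / 3) * d ^ 3 + (-1 / 2) * x * d + (-1 / 2) * x ^ 2 * d
      + (73 / 6) * m * d + (-10) * m * d ^ 2 + (17 / 6) * m * d ^ 3 + (8) * m * x * d + (-3) * m *
      x * d ^ 2 + (1) * m * x ^ 2 * d + (-6) * m ^ 2 * d + (7) * m ^ 2 * d ^ 2 + (-1) * m ^ 2 * d
      ^ 3 + (-2) * m ^ 2 * x * d + (2) * m ^ 2 * x * d ^ 2) * l +
      ((-77 / 12) * d + (19 / 4) * d ^ 2 + (-4 / 3) * d ^ 3 + (-11 / 2) * x * d + (3 / 2) * x * d ^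
      2 + (-1) * x ^ 2 * d + (13) * m * d + (-21 / 2) * m * d ^ 2 + (3 / 2) * m * d ^ 3 + (5) * m
      * x * d + (-3) * m * x * d ^ 2 + (-1) * m ^ 2 * d + (1) * m ^ 2 * d ^ 3) * l ^ 2 +
      ((-7) * d + (4) * d ^ 2 + (-1 / 2) * d ^ 3 + (-3) * x * d + (1) * x * d ^ 2 + (2) * m * d +
      (1) * m * d ^ 2 + (-2) * m * d ^ 3) * l ^ 3 +
      ((-1) * d + (-1) * d ^ 2 + (1) * d ^ 3) * l ^ 4 := by
    rintro x rfl l
    simp only [phi, PA]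
    push_cast
    ring
  rw [Phi, Nat.mul_div_cancel_left m two_pos, Finset.sum_congr rfl fun l _ => key y rfl l,
    sum_num1, closed_num1]
  push_cast
  ring

theorem rk_num1 (m : ℕ) : (rk (2 * m) : ℚ) = (m + 1) * (m + 2) * (2 * m + 3) / 6 := by
  have key : ∀ l ∈ Finset.range (m + 1), (((2 * m - 2 * l + 1) * (l + 1) : ℕ) : ℚ) =
      (2 * m + 1) + (2 * m - 1) * l + (-2) * l ^ 2 + 0 * l ^ 3 + 0 * l ^ 4 := by
    intro l hl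
    have : 2 * l ≤ 2 * m := by have := Finset.mem_range.1 hl; omega
    push_cast [Nat.cast_sub this]
    ring
  rw [rk, Nat.mul_div_cancel_left m two_pos, Nat.cast_sum, Finset.sum_congr rfl key, sum_num1]
  ring

theorem pNUM1 : S_NUM1 := by
  intro d x hd
  have hd' : (60 : ℚ) ≤ d := by exact_mod_cast hd
  obtain ⟨m, h1, h2⟩ := pos_num1
    ((5 / 6) * d + (-1) * d ^ 2 + (1 / 6) * d ^ 3 + (-1 / 2) * x * d ^ 2 + (-1 / 2) * x ^ 2 * d)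
    ((-1259 / 180) * d + (-2 / 15) * d ^ 2 + (-53 / 90) * d ^ 3 + (-8) * x * d + (-13 / 12) * x * d
    ^ 2 + (-13 / 12) * x ^ 2 * d)
    ((-55 / 4) * d + (-47 / 12) * d ^ 2 + (-13 / 8) * d ^ 3 + (-52 / 3) * x * d + (-3 / 4) * x * d
    ^ 2 + (-3 / 4) * x ^ 2 * d)
    ((-50 / 9) * d + (-137 / 12) * d ^ 2 + (-37 / 36) * d ^ 3 + (-12) * x * d + (-1 / 6) * x * d ^
    2 + (-1 / 6) * x ^ 2 * d)
    ((1) * d + (-103 / 12) * d ^ 2 + (-1 / 8) * d ^ 3 + (-8 / 3) * x * d)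
    ((19 / 30) * d + (-39 / 20) * d ^ 2 + (1 / 30) * d ^ 3)
    (by nlinarith [mul_nonneg (sub_nonneg.2 hd') (sq_nonneg (d : ℚ))])
  refine ⟨2 * m, by omega, fun n => ?_, ?_⟩
  · simp only [Phi_num1, rk_num1, closed_num1]
    push_cast
    ring
  · rw [← sub_pos]
    convert h2 using 1
    simp only [Phi_num1, rk_num1, closed_num1]
    push_cast
    ring

end Pool.Agent.P.MP_6f117a_ag.Surf
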