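import Pool.Agent.P.MP_6f117a_ag.SIface

/-! Step NUM2 of the proof for surfaces in projective three-space. -/

namespace Pool.Agent.P.MP_6f117a_ag.Surf

open MvPolynomial Module
open Ideal (span)
open scoped Polynomial WithZero

universe u

namespace Num2A

/-- Newton's formula for the sum of the first `M` values of a polynomial of degree at most four -/
def nw (f : ℚ → ℚ) (M : ℚ) : ℚ :=
  f 0 * M + (f 1 - f 0) * (M * (M - 1) / 2) + (f 2 - 2 * f 1 + f 0) * (M * (M - 1) * (M - 2) / 6) +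
    (f 3 - 3 * f 2 + 3 * f 1 - f 0) * (M * (M - 1) * (M - 2) * (M - 3) / 24) +
    (f 4 - 4 * f 3 + 6 * f 2 - 4 * f 1 + f 0) * (M * (M - 1) * (M - 2) * (M - 3) * (M - 4) / 120)

theorem sum_eq_nw (f : ℚ → ℚ) (h : ∀ x, nw f (x + 1) = nw f x + f x) (M : ℕ) :
    ∑ l ∈ Finset.range M, f l = nw f M := by
  induction M with
  | zero => simp [nw]
  | succ M ih => rw [Finset.sum_range_succ, ih, Nat.cast_succ, h]

/-- the term `phi` for a quadratic polynomial -/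
def pq (D α β γ i l n : ℚ) : ℚ :=
  (i + 1) * (l + 1) * (α * n ^ 2 + β * n + γ) +
    (i + 1) * (l + 1) * (i + l) / 2 * (D * (α * (2 * n - D) + β)) +
      i * (i + 1) * (l * (l + 1)) / 2 * (α * D ^ 2)

theorem Phi_eq (D : ℤ) (h : ℤ → ℚ) (α β γ : ℚ) (hh : ∀ n : ℤ, h n = α * n ^ 2 + β * n + γ) (a : ℕ)
    (b : ℤ) : Phi D h a b =
      nw (fun l => pq D α β γ (a - 2 * l) l (b - a + l)) (a / 2 + 1 : ℕ) := by
  rw [← sum_eq_nw _ fun x => by simp only [nw, pq]; ring]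
  refine Finset.sum_congr rfl fun l _ => ?_
  simp only [phi, pq, hh]
  push_cast
  ring

theorem rk_eq (a : ℕ) : (rk a : ℚ) = nw (fun l => (a - 2 * l + 1) * (l + 1)) (a / 2 + 1 : ℕ) := by
  rw [← sum_eq_nw _ fun x => by simp only [nw]; ring, rk, Nat.cast_sum]
  refine Finset.sum_congr rfl fun l hl => ?_
  have := Finset.mem_range.1 hl
  push_cast [Nat.cast_sub (show 2 * l ≤ a by omega)]
  ring

theorem rk_mono {a b : ℕ} (h : a ≤ b) : rk a ≤ rk b :=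
  (Finset.sum_le_sum fun l _ => Nat.mul_le_mul_right _ (by omega)).trans
    (Finset.sum_le_sum_of_subset (Finset.range_subset_range.2 (by omega)))

theorem ev_pos {f : ℚ → ℚ} {k : ℚ} (hk : 0 < k)
    (h : ∀ x, f x = k * (x * (x - 1) * (x - 2) * (x - 3)) + f 0 + (f 1 - f 0) * x +
      (f 2 - 2 * f 1 + f 0) * (x * (x - 1) / 2) +
      (f 3 - 3 * f 2 + 3 * f 1 - f 0) * (x * (x - 1) * (x - 2) / 6)) :
    ∃ m : ℕ, 2 ≤ m ∧ 0 < f m := by
  set A := f 0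
  set B := f 1 - A
  set C := f 2 - 2 * f 1 + A
  set E := f 3 - 3 * f 2 + 3 * f 1 - A
  obtain ⟨n, hn⟩ := exists_nat_gt ((|A| + |B| + |C| + |E|) / k)
  rw [div_lt_iff₀ hk] at hn
  refine ⟨n + 3, by omega, ?_⟩
  rw [h]
  push_cast
  have n0 : (0 : ℚ) ≤ n := Nat.cast_nonneg n
  set P : ℚ := (n + 3) * (n + 2) * (n + 1) with hP
  have p1 : 1 ≤ P := by nlinarith [mul_nonneg n0 n0, mul_nonneg n0 (mul_nonneg n0 n0)]
  have p2 : n + 3 ≤ P := by nlinarith [mul_nonneg n0 n0, mul_nonneg n0 (mul_nonneg n0 n0)]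
  have p3 : (n + 3) * (n + 2) / 2 ≤ P := by
    nlinarith [mul_nonneg n0 n0, mul_nonneg n0 (mul_nonneg n0 n0)]
  have key : ∀ c x : ℚ, 0 ≤ x → x ≤ P → -(|c| * P) ≤ c * x := fun c x h0 h1 => by
    nlinarith [neg_abs_le c, mul_le_mul_of_nonneg_left h1 (abs_nonneg c),
      mul_le_mul_of_nonneg_right (neg_abs_le c) h0]
  have a1 := key A 1 zero_le_one p1
  have a2 := key B _ (by positivity) p2
  have a3 := key C _ (by positivity) p3
  have a4 := key E (P / 6) (by positivity) (by linarith)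
  have a5 := mul_lt_mul_of_pos_right hn (show 0 < P by linarith)
  have e : k * ((n + 3) * (n + 3 - 1) * (n + 3 - 2) * (n + 3 - 3)) + A + B * (n + 3) +
      C * ((n + 3) * (n + 3 - 1) / 2) + E * ((n + 3) * (n + 3 - 1) * (n + 3 - 2) / 6) =
      n * k * P + A * 1 + B * (n + 3) + C * ((n + 3) * (n + 2) / 2) + E * (P / 6) := by
    rw [hP]; ring
  rw [e]
  linarith

/-- the closed form of the Hilbert function -/
def HH (d u e δ c₁ m b : ℚ) : ℚ :=
  nw (fun l => pq (d - 1) (d / 2) (2 * d - d ^ 2 / 2) ((d ^ 3 - 6 * d ^ 2 + 11 * d) / 6)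
    (2 * u + e + 2 * m - 2 * l) l (b - (2 * u + e + 2 * m) + l)) (m + u + 1) -
  nw (fun l => pq (d - 1) (d / 2) (2 * d - d ^ 2 / 2 - δ) ((d ^ 3 - 6 * d ^ 2 + 11 * d) / 6 + c₁)
    (2 * m - 2 * l) l (b - 2 * m + l)) (m + 1)

/-- the closed form of the rank -/
def RR (u e m : ℚ) : ℚ :=
  nw (fun l => (2 * u + e + 2 * m - 2 * l + 1) * (l + 1)) (m + u + 1) -
    nw (fun l => (2 * m - 2 * l + 1) * (l + 1)) (m + 1)

/-- the quantity that has to be positive -/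
def EE (d u e δ c₁ c m : ℚ) : ℚ :=
  HH d u e δ c₁ m (2 * u + e + 2 * m + c) - (4 * (2 * u + e + 2 * m) + c + 1) *
    (HH d u e δ c₁ m (2 * u + e + 2 * m + c + 1) - HH d u e δ c₁ m (2 * u + e + 2 * m + c) -
      RR u e m * (d * (3 - d) / 2))

theorem HH_diff (d u e δ c₁ m b n : ℚ) : HH d u e δ c₁ m (b + 1 + n) - HH d u e δ c₁ m (b + n) =
    HH d u e δ c₁ m (b + 1) - HH d u e δ c₁ m b + RR u e m * d * n := by
  simp only [HH, RR, nw, pq]
  ring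

theorem EE_eq (d u e δ c₁ c x : ℚ) : EE d u e δ c₁ c x =
    ((2 * u + e) * d ^ 2 * (2 * d - 3) + 2 * δ * (3 * d - 1) -
      (96 * (2 * u + e) * d * (d - 1) + 64 * δ)) / 24 * (x * (x - 1) * (x - 2) * (x - 3)) +
      EE d u e δ c₁ c 0 + (EE d u e δ c₁ c 1 - EE d u e δ c₁ c 0) * x +
      (EE d u e δ c₁ c 2 - 2 * EE d u e δ c₁ c 1 + EE d u e δ c₁ c 0) * (x * (x - 1) / 2) +
      (EE d u e δ c₁ c 3 - 3 * EE d u e δ c₁ c 2 + 3 * EE d u e δ c₁ c 1 - EE d u e δ c₁ c 0) *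
        (x * (x - 1) * (x - 2) / 6) := by
  simp only [EE, HH, RR, nw, pq]
  ring

end Num2A

open Num2A in
theorem pNUM2 : S_NUM2 := by
  intro d μ c δ c₁ h
  obtain ⟨u, e, he, rfl⟩ : ∃ u e, e < 2 ∧ μ = 2 * u + e := ⟨μ / 2, μ % 2, by omega, by omega⟩
  push_cast at h
  obtain ⟨m, hm, hpos⟩ := ev_pos (div_pos (sub_pos.2 h) (by norm_num)) (EE_eq d u e δ c₁ c)
  refine ⟨2 * u + e + 2 * m, by omega, ?_⟩
  have e1 : (2 * u + e + 2 * m) / 2 + 1 = m + u + 1 := by omega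
  have e2 : 2 * u + e + 2 * m - (2 * u + e) = 2 * m := by omega
  have e3 : 2 * m / 2 + 1 = m + 1 := by omega
  have hH : ∀ b : ℤ, Phi (d - 1) (PA d) (2 * u + e + 2 * m) b -
      Phi (d - 1) (fun n => PA d n - δ * n + c₁) (2 * m) b = HH d u e δ c₁ m b := fun b => by
    rw [Phi_eq _ _ (d / 2) (2 * d - d ^ 2 / 2) ((d ^ 3 - 6 * d ^ 2 + 11 * d) / 6)
      (fun n => by unfold PA; ring), Phi_eq _ _ (d / 2) (2 * d - d ^ 2 / 2 - δ)
      ((d ^ 3 - 6 * d ^ 2 + 11 * d) / 6 + c₁) (fun n => by unfold PA; ring), e1, e3, HH]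
    push_cast
    rfl
  have hR : ((rk (2 * u + e + 2 * m) - rk (2 * m) : ℕ) : ℚ) = RR u e m := by
    rw [Nat.cast_sub (rk_mono (by omega)), rk_eq, rk_eq, e1, e3, RR]
    push_cast
    rfl
  simp only [NumOK, e2, hH, hR]
  push_cast
  exact ⟨fun n => HH_diff .., sub_pos.1 hpos⟩

end Pool.Agent.P.MP_6f117a_ag.Surf
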