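import Pool.Agent.P.MP_6f117a_ag.SSupa

/-! Step ORD of the proof for surfaces in projective three-space. -/

namespace Pool.Agent.P.MP_6f117a_ag.Surf

open MvPolynomial Module
open Ideal (span)
open scoped Polynomial WithZero

universe u

namespace OrdS

/-- The valuation at a locally principal prime of a Noetherian domain. -/
theorem val_dom {A : Type u} [CommRing A] [IsDomain A] [IsNoetherianRing A] (q : Ideal A)
    [q.IsPrime] {π u : A} (hπ : π ∈ q) (hπ0 : π ≠ 0) (hu : u ∉ q) (h : ∀ c ∈ q, π ∣ u * c) :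
    ∃ v : A → ℕ, (∀ a b, a ≠ 0 → b ≠ 0 → v (a * b) = v a + v b) ∧
      (∀ a, a ≠ 0 → (v a = 0 ↔ a ∉ q)) ∧
      (∀ a b, a ≠ 0 → b ≠ 0 → (v a ≤ v b ↔ ∃ s, s ∉ q ∧ a ∣ s * b)) ∧ v π = 1 := by
  let O := Localization.AtPrime q
  have hinj : Function.Injective (algebraMap A O) :=
    IsLocalization.injective O q.primeCompl_le_nonZeroDivisors
  have h0 : ∀ a, a ≠ 0 → algebraMap A O a ≠ 0 := fun a ha e =>
    ha (hinj (by rw [e, map_zero]))
  have hm : IsLocalRing.maximalIdeal O = span {algebraMap A O π} := by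
    rw [← Localization.AtPrime.map_eq_maximalIdeal]
    refine le_antisymm (Ideal.map_le_iff_le_comap.2 fun c hc => ?_)
      ((Ideal.span_singleton_le_iff_mem _).2 (Ideal.mem_map_of_mem _ hπ))
    have := map_dvd (algebraMap A O) (h c hc)
    rw [map_mul] at this
    exact Ideal.mem_span_singleton.2
      (((IsLocalization.AtPrime.isUnit_to_map_iff O q u).2 hu).dvd_mul_left.1 this)
  have hf : ¬IsField O := by
    rw [IsLocalRing.isField_iff_maximalIdeal_eq, hm, Ideal.span_singleton_eq_bot]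
    exact h0 π hπ0
  have : IsDiscreteValuationRing O :=
    ((IsDiscreteValuationRing.TFAE O hf).out 0 4).2 (⟨⟨_, hm⟩⟩ : Submodule.IsPrincipal _)
  have hv : ∀ a, a ≠ 0 → ((IsDiscreteValuationRing.addVal O (algebraMap A O a)).toNat : ℕ∞) =
      IsDiscreteValuationRing.addVal O (algebraMap A O a) := fun a ha =>
    ENat.natCast_toNat fun e => h0 a ha (IsDiscreteValuationRing.addVal_eq_top_iff.1 e)
  refine ⟨fun a => (IsDiscreteValuationRing.addVal O (algebraMap A O a)).toNat, fun a b ha hb => ?_,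
    fun a ha => ?_, fun a b ha hb => ?_, ?_⟩
  · apply Nat.cast_injective (R := ℕ∞)
    rw [Nat.cast_add, hv _ (mul_ne_zero ha hb), hv _ ha, hv _ hb, map_mul,
      IsDiscreteValuationRing.addVal_mul]
  · rw [← Nat.cast_inj (R := ℕ∞), hv _ ha, Nat.cast_zero, IsDiscreteValuationRing.addVal_eq_zero_iff,
      IsLocalization.AtPrime.isUnit_to_map_iff O q]
    rfl
  · rw [← Nat.cast_le (α := ℕ∞), hv _ ha, hv _ hb, IsDiscreteValuationRing.addVal_le_iff_dvd]
    constructor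
    · rintro ⟨x, hx⟩
      obtain ⟨⟨y, s⟩, rfl⟩ := IsLocalization.mk'_surjective q.primeCompl x
      refine ⟨s, s.2, y, hinj ?_⟩
      rw [map_mul, map_mul, hx, mul_left_comm, IsLocalization.mk'_spec']
    · rintro ⟨s, hs, e⟩
      have := map_dvd (algebraMap A O) e
      rw [map_mul] at this
      exact ((IsLocalization.AtPrime.isUnit_to_map_iff O q s).2 hs).dvd_mul_left.1 this
  · show (IsDiscreteValuationRing.addVal O (algebraMap A O π)).toNat = 1
    rw [IsDiscreteValuationRing.addVal_uniformizer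
      ((IsDiscreteValuationRing.irreducible_iff_uniformizer _).2 hm)]
    rfl

/-- The same modulo a prime element. -/
theorem val_mod {R : Type u} [CommRing R] [IsNoetherianRing R] {F : R} (hF : Prime F)
    {p : Ideal R} (hp : p.IsPrime) (hFp : F ∈ p) {π u : R} (hπ : π ∈ p) (hπ0 : ¬F ∣ π)
    (hu : u ∉ p) (h : ∀ c ∈ p, u * c ∈ span {F, π}) :
    ∃ v : R → ℕ, (∀ a b, ¬F ∣ a → ¬F ∣ b → v (a * b) = v a + v b) ∧
      (∀ a, ¬F ∣ a → (v a = 0 ↔ a ∉ p)) ∧
      (∀ a b, ¬F ∣ a → ¬F ∣ b → (v a ≤ v b ↔ ∃ s, s ∉ p ∧ s * b ∈ span {F, a})) ∧ v π = 1 := by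
  have : (span {F} : Ideal R).IsPrime := (Ideal.span_singleton_prime hF.ne_zero).2 hF
  let φ := Ideal.Quotient.mk (span {F} : Ideal R)
  have hφ : ∀ a, φ a = 0 ↔ F ∣ a := fun a => by
    rw [Ideal.Quotient.eq_zero_iff_mem, Ideal.mem_span_singleton]
  have hle : span {F} ≤ p := (Ideal.span_singleton_le_iff_mem _).2 hFp
  have : (p.map φ).IsPrime :=
    Ideal.map_isPrime_of_surjective Ideal.Quotient.mk_surjective (by rwa [Ideal.mk_ker])
  have hmem : ∀ a, φ a ∈ p.map φ ↔ a ∈ p := fun a => by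
    rw [← Ideal.mem_comap, Ideal.comap_map_of_surjective _ Ideal.Quotient.mk_surjective,
      ← RingHom.ker_eq_comap_bot, Ideal.mk_ker, sup_eq_left.2 hle]
  have hdvd : ∀ a b, φ a ∣ φ b ↔ b ∈ span {F, a} := fun a b => by
    rw [Supa.span_pair_eq, Supa.mem_sup_span]
    constructor
    · rintro ⟨x, hx⟩
      obtain ⟨x, rfl⟩ := Ideal.Quotient.mk_surjective x
      exact ⟨x, (hφ _).1 (by rw [map_sub, map_mul, hx, sub_self])⟩
    · rintro ⟨x, hx⟩
      have := (hφ _).2 hx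
      rw [map_sub, map_mul, sub_eq_zero] at this
      exact ⟨_, this⟩
  obtain ⟨v, h1, h2, h3, h4⟩ := val_dom (p.map φ) (π := φ π) (u := φ u) ((hmem _).2 hπ)
    (mt (hφ _).1 hπ0) (mt (hmem _).1 hu) (fun c hc => by
      obtain ⟨c, rfl⟩ := Ideal.Quotient.mk_surjective c
      rw [← map_mul, hdvd]
      exact h c ((hmem _).1 hc))
  refine ⟨fun a => v (φ a), fun a b ha hb => ?_, fun a ha => ?_, fun a b ha hb => ?_, h4⟩
  · show v (φ (a * b)) = _
    rw [map_mul, h1 _ _ (mt (hφ _).1 ha) (mt (hφ _).1 hb)]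
  · rw [h2 _ (mt (hφ _).1 ha), hmem]
  · rw [h3 _ _ (mt (hφ _).1 ha) (mt (hφ _).1 hb)]
    constructor
    · rintro ⟨s, hs, e⟩
      obtain ⟨s, rfl⟩ := Ideal.Quotient.mk_surjective s
      exact ⟨s, mt (hmem _).2 hs, (hdvd _ _).1 (by rwa [map_mul])⟩
    · rintro ⟨s, hs, e⟩
      exact ⟨φ s, mt (hmem _).1 hs, by rw [← map_mul]; exact (hdvd _ _).2 e⟩

end OrdS

open Supa OrdS in
theorem pORD (L : Type u) [Field L] [IsAlgClosed L] [CharZero L]
    (hSIG1 : S_SIG1 L) (hCOND : S_COND L) :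
    S_ORD L := by
  intro d F hF p f z hp hf hz ⟨i₀, hi⟩
  have hmem : ∀ c, c ∈ p ↔ ∃ u, F ∣ z * c - f * u := fun c => by
    rw [hz, Submodule.mem_colon_singleton, span_pair_eq, mem_sup_span, smul_eq_mul, mul_comm c]
  have hFp : F ∈ p := (hmem _).2 ⟨0, by simp⟩
  have hfp : f ∈ p := (hmem _).2 ⟨z, by simp [mul_comm]⟩
  have hex : ¬∀ c ∈ p, ∃ c' ∈ p, F ∣ z * c - f * c' := fun h => by
    have hdP : ∀ k, pderiv k F ∈ p := fun k => by
      rw [hz]
      exact Submodule.mem_colon_singleton.2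
        (cond_of_stable hCOND hF.hom hF.prime hf p hfp hf h k)
    obtain ⟨N, hN⟩ := hF.null
    have hle : span {F} ⊔ span (Set.range (dF F)) ≤ p :=
      sup_le ((Ideal.span_singleton_le_iff_mem _).2 hFp) (Ideal.span_le.2 (by
        rintro _ ⟨k, rfl⟩
        exact hdP _))
    exact hi (hp.mem_of_pow_mem N (hle (hN i₀)))
  push Not at hex
  obtain ⟨π, hπ, hex⟩ := hex
  obtain ⟨u, hu⟩ := (hmem π).1 hπ
  have hup : u ∉ p := fun h => hex u h hu
  have hπ0 : ¬F ∣ π := fun h => by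
    have : F ∣ f * u := by simpa using (h.mul_left z).sub hu
    obtain ⟨r, hr⟩ := (hF.prime.dvd_or_dvd this).resolve_left hf
    exact hup (hr ▸ p.mul_mem_right _ hFp)
  obtain ⟨v, h1, h2, h3, h4⟩ := val_mod hF.prime hp hFp hπ hπ0 hup fun c hc => by
    obtain ⟨c', hc'⟩ := (hmem c).1 hc
    rw [span_pair_eq, mem_sup_span]
    refine ⟨c', (hF.prime.dvd_or_dvd ?_).resolve_left hf⟩
    have := (hc'.mul_left π).sub (hu.mul_left c)
    rwa [show π * (z * c - f * c') - c * (z * π - f * u) = f * (u * c - π * c') by ring] at this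
  refine ⟨v, h1, h2, h3, fun D a hD ha hv => ?_⟩
  have hap : a ∈ p := by
    by_contra hc
    rw [(h2 a ha).2 hc] at hv
    omega
  obtain ⟨s, hs, e⟩ := (h3 (π * π) a (fun h => hπ0 ((hF.prime.dvd_or_dvd h).elim id id)) ha).1
    (by rw [h1 _ _ hπ0 hπ0, h4]; exact hv)
  obtain ⟨x, y, e⟩ := Ideal.mem_span_pair.1 e
  have e1 := congrArg D e
  simp only [map_add, Derivation.leibniz, hD, smul_eq_mul, mul_zero, zero_add] at e1
  refine (hp.mem_or_mem (x := s) ?_).resolve_left hs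
  have : s * D a = F * D x + π * (2 * y * D π + π * D y) - a * D s := by
    linear_combination -e1
  rw [this]
  exact sub_mem (add_mem (p.mul_mem_right _ hFp) (p.mul_mem_right _ hπ)) (p.mul_mem_right _ hap)

end Pool.Agent.P.MP_6f117a_ag.Surf
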