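import Pool.Agent.P.MP_6f117a_ag.SIface

/-! Step ORDSUM of the proof for surfaces in projective three-space. -/

namespace Pool.Agent.P.MP_6f117a_ag.Surf

open MvPolynomial Module
open Ideal (span)
open scoped Polynomial WithZero

universe u

theorem log_ordsum {L K : Type u} [Field L] [Field K] [Algebra L K] (P : Place L K) {a g : K}
    (ha : a ≠ 0) (hg : g ≠ 0) (M : ℕ) :
    WithZero.log (P.v (a * g ^ M)) = WithZero.log (P.v a) + M * WithZero.log (P.v g) := by
  rw [map_mul, map_pow, WithZero.log_mul (by simpa using ha) (by simp [hg]), WithZero.log_pow,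
    nsmul_eq_mul]

theorem pORDSUM (L : Type u) [Field L] [IsAlgClosed L] [CharZero L]
    (hSIG1 : S_SIG1 L) (hDEG : S_DEG L) (hDIR2 : S_DIR2 L) :
    S_ORDSUM L := by
  classical
  intro d F hF K _ _ _ ξ o hξ h0 hG
  have api := hDEG K ξ hξ
  choose p hp0 hp using api.red
  obtain ⟨-, -, -, -, hhom, hdd⟩ := hDIR2
  let Z := (api.ord_fin (d - 1) (dd o F) hG).toFinset
  refine ⟨Z.image fun P i => eval (p P) (pderiv i F), fun w hw => ?_,
    fun o' ho' M n A B hA hB hB0 he => ?_⟩
  · obtain ⟨P, -, rfl⟩ := Finset.mem_image.1 hw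
    intro hc
    obtain ⟨N, hN⟩ := hF.null
    have h1 : span {F} ⊔ span (Set.range (dF F)) ≤ RingHom.ker (eval (p P)) := by
      refine sup_le ((Ideal.span_singleton_le_iff_mem _).2 ?_) (Ideal.span_le.2 ?_)
      · by_contra h
        exact ((hp P d F hF.hom).1 h).1 h0
      · rintro _ ⟨i, rfl⟩
        exact congrFun hc i.succ
    refine hp0 P (funext fun i => ?_)
    have := h1 (hN i)
    rw [RingHom.mem_ker, map_pow, eval_X] at this
    exact (pow_eq_zero_iff (by rintro rfl; simp at this)).1 this
  · rcases Nat.eq_zero_or_pos M with rfl | hM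
    · simpa using mul_nonneg (Int.natCast_nonneg n) api.nonneg
    rw [map_mul, map_mul, map_pow, map_pow] at he
    have hne : aeval ξ A * aeval ξ (dd o' F) ^ M ≠ 0 := he ▸ mul_ne_zero hB0 (pow_ne_zero _ hG)
    have hA0 : aeval ξ A ≠ 0 := left_ne_zero_of_mul hne
    have hG' : aeval ξ (dd o' F) ≠ 0 := fun h => right_ne_zero_of_mul hne (by rw [h, zero_pow hM.ne'])
    have key : ∀ P : Place L K, M * ord P ξ (d - 1) (dd o' F) ≤ ord P ξ n B := fun P => by
      by_cases hP : P ∈ Z
      · have h1 := ho' _ (Finset.mem_image_of_mem _ hP)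
        have h2 : eval (p P) (dd o' F) ≠ 0 := by
          rw [hdd, map_sum]
          simpa [dotProduct, mul_comm] using h1
        rw [((hp P _ _ (hhom o' d F hF.hom)).1 h2).2, mul_zero]
        exact api.ord_nonneg P n B hB hB0
      · have h1 : ord P ξ (d - 1) (dd o F) = 0 := by
          by_contra h
          exact hP ((Set.Finite.mem_toFinset _).2 h)
        have h2 := api.ord_nonneg P n A hA hA0
        have h3 := log_ordsum P hA0 hG' M
        rw [he, log_ordsum P hB0 hG] at h3
        simp only [ord] at h1 h2 ⊢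
        have h4 := congrArg (fun z => (M : ℤ) * z) h1
        simp only [mul_sub, mul_zero] at h4 ⊢
        linarith
    let Y := (api.ord_fin (d - 1) (dd o' F) hG').toFinset ∪ (api.ord_fin n B hB0).toFinset
    have s1 := api.sum_ord (d - 1) (dd o' F) Y hG' fun P h =>
      Finset.mem_union_left _ ((Set.Finite.mem_toFinset _).2 h)
    have s2 := api.sum_ord n B Y hB0 fun P h =>
      Finset.mem_union_right _ ((Set.Finite.mem_toFinset _).2 h)
    have s3 := Finset.sum_le_sum fun P (_ : P ∈ Y) => key P
    rw [← Finset.mul_sum, s1, s2, Nat.cast_sub (by have := hF.two; omega)] at s3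
    push_cast at s3
    linarith

end Pool.Agent.P.MP_6f117a_ag.Surf
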