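import Pool.Agent.P.MP_6f117a_ag.SIface

/-! Step P3 of the proof for surfaces in projective three-space. -/

namespace Pool.Agent.P.MP_6f117a_ag.Surf

open MvPolynomial Module
open Ideal (span)
open scoped Polynomial WithZero

universe u

theorem quad_p3 {δ β γ : ℚ} (h : ∀ a : ℕ, 1 ≤ a → δ * a ^ 2 + β * a + γ ≤ 0) : δ ≤ 0 := by
  by_contra hc
  push Not at hc
  obtain ⟨n, hn⟩ := exists_nat_gt ((|β| + |γ|) / δ)
  rw [div_lt_iff₀ hc] at hn
  have h1 := h (n + 1) (by omega)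
  push_cast at h1
  have h2 := neg_abs_le β
  have h3 := neg_abs_le γ
  have h4 := abs_nonneg γ
  have h5 : (0 : ℚ) ≤ n := by positivity
  nlinarith [mul_nonneg h5 h4, mul_nonneg h5 (sub_nonneg.2 h2), mul_nonneg h5 (sub_nonneg.2 hn.le)]

theorem sat_of_p3 {L : Type u} [Field L] {τ : Type} {d : ℕ} {F : S L} (hF : Good d F)
    {J : Ideal (Jet τ L)} (hJ : C F ∈ J)
    {G : Jet τ L} (h : ∀ k, ∃ t : ℕ, C (dF F k) ^ t * G ∈ J) : G ∈ sat (xj τ L) J := by
  obtain ⟨N, hN⟩ := hF.null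
  refine mem_sat_of_pow (fun k => (C (dF F k) : Jet τ L)) (N := N) (fun i => ?_) h
  have h1 : span {F} ⊔ span (Set.range (dF F)) ≤
      (J ⊔ span (Set.range fun k => (C (dF F k) : Jet τ L))).comap (C : S L →+* Jet τ L) := by
    refine sup_le ?_ (Ideal.span_le.2 ?_)
    · rw [Ideal.span_singleton_le_iff_mem]
      exact Ideal.mem_sup_left hJ
    · rintro _ ⟨k, rfl⟩
      exact Ideal.mem_sup_right (Ideal.subset_span ⟨k, rfl⟩)
  have h2 := Ideal.mem_comap.1 (h1 (hN i))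
  rwa [map_pow] at h2

theorem pP3 (L : Type u) [Field L] [IsAlgClosed L] [CharZero L]
    (hSIG1 : S_SIG1 L) (hHFA : S_HFA L) (hHFJ1 : S_HFJ1 L) :
    S_P3 L := by
  intro d F hF I e s p j f R hI hFI hdeg hf' hFf hR hRK hmain
  have h1 := hSIG1 d F hF
  have h3 := hHFA d F hF
  have hCF : C F ∈ K1 F := h1.le_K1 (Ideal.mem_sup_right (Ideal.mem_span_singleton_self _))
  have hM : (I.map C ⊔ K1 F).IsHomogeneous (bih L w1) := (h3.map1 I hI).sup h1.K1_hom
  have hle : span {R} * (I.map C ⊔ K1 F) ⊔ K1 F ≤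
      sat (xj (Fin 3) L) (span {C f} ⊔ K1 F) := by
    have hK : K1 F ≤ sat (xj (Fin 3) L) (span {C f} ⊔ K1 F) := le_sup_right.trans (le_sat _ _)
    refine sup_le ?_ hK
    rw [Ideal.mul_sup]
    refine sup_le ?_ (Ideal.mul_le_right.trans hK)
    have h4 : I.map C ≤ (sat (xj (Fin 3) L) (span {C f} ⊔ K1 F)).colon {R} := by
      rw [Ideal.map_le_iff_le_comap]
      intro g hg
      exact Submodule.mem_colon_singleton.2
        (sat_of_p3 hF (Ideal.mem_sup_right hCF) (hmain g hg))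
    intro x hx
    obtain ⟨y, hy, rfl⟩ := Ideal.mem_span_singleton_mul.1 hx
    rw [mul_comm]
    exact Submodule.mem_colon_singleton.1 (h4 hy)
  obtain ⟨c0, hc0⟩ := tors one_le_w1 (((hom_span hR).mul hM).sup h1.K1_hom) hle
  obtain ⟨c1, -, hc1⟩ := hHFJ1 d F hF I hI hFI
  obtain ⟨c2, -, hc2⟩ := hHFJ1 d F hF ⊤ (Ideal.IsHomogeneous.top _) trivial
  obtain ⟨c, n0, hn0⟩ := hdeg
  have hfK : (C f : U1 L) ∉ K1 F := by
    rw [h1.free_mem_K1 0 (C f) ((kill1 (S L) 0).commutes f)]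
    intro h
    exact hFf ((C_dvd_iff_dvd_coeff _ _).1 h 0 |>.trans (by rw [coeff_zero_C]))
  obtain ⟨D, rfl⟩ : ∃ D, d = D + 2 := ⟨d - 2, by have := hF.two; omega⟩
  obtain ⟨N, hN⟩ : ∃ N, N = c0 + c1 + c2 + n0 + (D + 2) := ⟨_, rfl⟩
  have hcod : ∀ n : ℕ, D + 2 ≤ n → ((hf (frm L) ⊤ n : ℚ) - hf (frm L) (span {F}) n) =
      PA (D + 2) n := fun n hn => by
    rw [← h3.codF n hn, cod]
    push_cast
    rfl
  have hcodI : ∀ n : ℕ, N ≤ n → ((hf (frm L) I n : ℚ) - hf (frm L) (span {F}) n) =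
      PA (D + 2) n - (e * n + c) := fun n hn => by
    have h4 := hn0 n (by omega)
    have h5 : ((cod (frm L) I n : ℤ) : ℚ) = ((e * n + c : ℤ) : ℚ) := by rw [h4]
    rw [cod] at h5
    push_cast at h5
    rw [← hcod n (by omega), ← h5]
    ring
  have key : ∀ a : ℕ, 1 ≤ a →
      ((a : ℚ) + 2) * (a + 1) / 2 * (PA (D + 2) (N + s + p + (D + 1) : ℕ) -
          (e * (N + s + p + (D + 1) : ℕ) + c)) -
        (a + 1) * a / 2 * (PA (D + 2) (N + s + p : ℕ) - (e * (N + s + p : ℕ) + c)) ≤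
      (a + p + 2) * (a + p + 1) / 2 * PA (D + 2) (N + j + (D + 1) : ℕ) -
        (a + p + 1) * (a + p) / 2 * PA (D + 2) (N + j : ℕ) := by
    intro a ha
    have e1 := hf_mul_prime hM h1.K1_hom h1.K1_prime le_sup_right hR hRK
      (a, a + (N + s + p + (D + 1)))
    have e2 := hf_mul_prime (Ideal.IsHomogeneous.top (bih L w1)) h1.K1_hom h1.K1_prime le_top
      (C_mem_bih w1 hf') hfK (a + p, a + p + (N + j + (D + 1)))
    have e3 : ((0, s) + (a + p, a + p + (N + j + (D + 1))) : ℕ × ℕ) =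
        (p + a, j + (a + (N + s + p + (D + 1)))) := by
      simp only [Prod.mk_add_mk, Prod.mk.injEq]
      omega
    rw [e3, Ideal.mul_top] at e2
    rw [Prod.mk_add_mk] at e1
    have e4 := hf_le (𝒜 := bih L w1) (hc0 (p + a) (j + (a + (N + s + p + (D + 1)))) (by omega))
    have e5 := hc1 a (a + (N + s + p + (D + 1))) ha (by omega)
    have e6 := hc2 (a + p) (a + p + (N + j + (D + 1))) (by omega) (by omega)
    rw [Ideal.map_top, top_sup_eq] at e6
    rw [Nat.add_sub_cancel_left, show D + 2 - 1 = D + 1 from rfl, Nat.add_sub_cancel] at e5 e6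
    have e7 := e5.symm.le.trans ((show _ ≤ _ by omega).trans e6.le)
    have e8 := (Int.cast_le (R := ℚ)).2 e7
    push_cast at e8
    rw [hcodI _ (by omega), hcodI _ (by omega), hcod _ (by omega), hcod _ (by omega)] at e8
    simp only [Nat.cast_choose_two] at e8
    push_cast at e8 ⊢
    linarith
  set x1 := PA (D + 2) (N + s + p + (D + 1) : ℕ) - (e * (N + s + p + (D + 1) : ℕ) + c) with hx1
  set x2 := PA (D + 2) (N + s + p : ℕ) - (e * (N + s + p : ℕ) + c) with hx2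
  set y1 := PA (D + 2) (N + j + (D + 1) : ℕ) with hy1
  set y2 := PA (D + 2) (N + j : ℕ) with hy2
  have h6 : (x1 - x2 - (y1 - y2)) / 2 ≤ 0 := by
    refine quad_p3 (β := (3 * x1 - x2 - (2 * p + 3) * y1 + (2 * p + 1) * y2) / 2)
      (γ := x1 - (p + 2) * (p + 1) / 2 * y1 + (p + 1) * p / 2 * y2) fun a ha => ?_
    have := key a ha
    linarith
  have h7 : x1 - x2 - (y1 - y2) = (D + 1) * ((s + p - j) * (D + 2) - e) := by
    rw [hx1, hx2, hy1, hy2]
    simp only [PA]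
    push_cast
    ring
  rw [h7] at h6
  have h8 : ((s : ℚ) + p - j) * (D + 2) - e ≤ 0 := by
    by_contra hc
    push Not at hc
    have : (0 : ℚ) < (D + 1) * ((s + p - j) * (D + 2) - e) := by positivity
    linarith
  have h9 : ((s : ℚ) + p - j) * (D + 2) ≤ e := by linarith
  exact_mod_cast h9

end Pool.Agent.P.MP_6f117a_ag.Surf
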