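import Pool.Agent.P.MP_6f117a_ag.SIface

/-! Step PI of the proof for surfaces in projective three-space. -/

namespace Pool.Agent.P.MP_6f117a_ag.Surf

open MvPolynomial Module
open Ideal (span)
open scoped Polynomial WithZero

universe u

namespace PiAux

variable {A : Type u} [CommRing A]

theorem piOf_eq (P : (MvPolynomial (Fin 3) A)[X]) :
    piOf P = ∑ l ∈ P.support, inc A (P.coeff l) * eta A 2 ^ l := by
  rw [piOf, Polynomial.eval₂_eq_sum, Polynomial.sum_def]
  rfl

theorem eta_two : eta A 2 = X (.inl 0) * X (.inr 1) - X (.inl 1) * X (.inr 0) := rfl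

theorem kill_inc (G : MvPolynomial (Fin 3) A) : kill A 2 (inc A G) = inc A (kill1 A 2 G) := by
  have h : (kill A 2).comp (inc A) = (inc A).comp (kill1 A 2) := by
    refine MvPolynomial.algHom_ext fun i => ?_
    by_cases hi : i = 2 <;> simp [kill, kill1, inc, hi]
  exact DFunLike.congr_fun h G

theorem kill_eta : kill A 2 (eta A 2) = eta A 2 := by
  simp [eta_two, kill]

theorem sp2_inc (G : MvPolynomial (Fin 3) A) : sp2 A (inc A G) = Polynomial.C (sp1 A G) := by
  induction G using MvPolynomial.induction_on with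
  | C a => simp [sp2, sp1, inc]
  | add p q hp hq => simp only [map_add, hp, hq]
  | mul_X p i hp =>
    simp only [map_mul, hp]
    congr 1
    fin_cases i <;> simp [sp2, sp1, inc]

theorem sp2_eta : sp2 A (eta A 2) = Polynomial.X := by
  simp [eta_two, sp2]

theorem sp2_piOf (P : (MvPolynomial (Fin 3) A)[X]) :
    sp2 A (piOf P) = P.map (sp1 A).toRingHom := by
  rw [Polynomial.map, Polynomial.eval₂_eq_sum, Polynomial.sum_def, piOf_eq, map_sum]
  refine Finset.sum_congr rfl fun l _ => ?_
  rw [map_mul, map_pow, sp2_inc, sp2_eta]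
  rfl

variable {K : Type u} [CommRing K] (e : A →+* K)

/-- Evaluation at the second unit vector. -/
noncomputable def psi : MvPolynomial (Fin 3) A →+* K := eval₂Hom e ![0, 1, 0]

/-- A specialisation that kills the first variable. -/
noncomputable def rho (K : Type u) [CommRing K] : MvPolynomial T2 K →ₐ[K] K[X] :=
  aeval (Sum.elim ![0, 1, 0] ![-Polynomial.X, 0, 0])

theorem rho_inc (G : MvPolynomial (Fin 3) A) :
    rho K (MvPolynomial.map e (inc A G)) = Polynomial.C (psi e G) := by
  induction G using MvPolynomial.induction_on with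
  | C a => simp [rho, psi, inc]
  | add p q hp hq => simp only [map_add, hp, hq]
  | mul_X p i hp =>
    simp only [map_mul, hp]
    congr 1
    fin_cases i <;> simp [rho, psi, inc]

theorem rho_eta : rho K (MvPolynomial.map e (eta A 2)) = Polynomial.X := by
  simp [eta_two, rho]

theorem rho_piOf (P : (MvPolynomial (Fin 3) A)[X]) :
    rho K (MvPolynomial.map e (piOf P)) = P.map (psi e) := by
  rw [Polynomial.map, Polynomial.eval₂_eq_sum, Polynomial.sum_def, piOf_eq, map_sum, map_sum]
  refine Finset.sum_congr rfl fun l _ => ?_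
  rw [map_mul, map_mul, map_pow, map_pow, rho_inc, rho_eta]
  rfl

theorem psi_eq (G : MvPolynomial (Fin 3) A) (a : ℕ)
    (h : ∀ m, coeff m G ≠ 0 → Finsupp.weight w1 m = a) :
    psi e G = e (coeff (Finsupp.single 1 a) G) := by
  classical
  rw [psi, coe_eval₂Hom, eval₂_eq', Finset.sum_eq_single (Finsupp.single 1 a)]
  · simp [Fin.prod_univ_three]
  · intro m hm hne
    have h1 := h m (mem_support_iff.1 hm)
    rw [show w1 = 1 from rfl, weight_one, Finsupp.degree_eq_sum, Fin.sum_univ_three] at h1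
    have h2 : m 0 ≠ 0 ∨ m 2 ≠ 0 := by
      by_contra hc
      push Not at hc
      apply hne
      ext i
      fin_cases i <;> simp <;> omega
    rcases h2 with h2 | h2 <;> simp [Fin.prod_univ_three, h2]
  · intro hm
    rw [notMem_support_iff.1 hm, map_zero, zero_mul]

end PiAux

open PiAux in
theorem pPI (L : Type u) [Field L] [IsAlgClosed L] [CharZero L]
    (hSIG1 : S_SIG1 L) (hSIG2 : S_SIG2 L) (hSIG3 : S_SIG3 L) :
    S_PI L := by
  intro d F hF γ π μ j P hP
  have _ := hSIG1
  have s2 := hSIG2 d F hF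
  have s3 := hSIG3 d F hF
  have hkill : kill (S L) 2 (piOf P) = piOf P := by
    rw [piOf_eq, map_sum]
    refine Finset.sum_congr rfl fun l _ => ?_
    rw [map_mul, map_pow, kill_inc, hP.free, kill_eta]
  have hlast : ¬X (.inl 0) ∣ MvPolynomial.map γ.e0 (piOf P) := by
    rintro ⟨Q, hQ⟩
    have h1 := rho_piOf γ.e0 P
    have h2 : rho γ.K (X (.inl 0)) = 0 := by simp [rho]
    rw [hQ, map_mul, h2, zero_mul] at h1
    obtain ⟨l, -, hl⟩ := hP.top
    have hne : P.coeff l ≠ 0 := fun h => hl (by rw [h, coeff_zero]; exact dvd_zero F)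
    obtain ⟨-, -, hb⟩ := hP.deg l hne
    have h3 := congrArg (fun Q => Polynomial.coeff Q l) h1
    simp only [Polynomial.coeff_zero, Polynomial.coeff_map] at h3
    rw [psi_eq γ.e0 _ (μ - 3 * l) fun m hm => (mem_bih'.1 hb m hm).1] at h3
    exact hl ((γ.ker _ _ (coeff_hom hb _)).1 h3.symm)
  refine ⟨?_, ?_, hkill, sp2_piOf P, fun h => hlast ?_, hlast⟩
  · rw [piOf_eq]
    refine Submodule.sum_mem _ fun l hl => ?_
    obtain ⟨h1, h2, hb⟩ := hP.deg l (Polynomial.mem_support_iff.1 hl)
    have h3 := SetLike.mul_mem_graded (s2.inc_mem _ _ hb) (SetLike.pow_mem_graded l (s2.eta_mem 2))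
    have h4 : (μ - 3 * l, j - 2 * l) + l • ((3, 2) : ℕ × ℕ) = (μ, j) := by
      ext <;> simp <;> omega
    rwa [h4] at h3
  · rw [piOf_eq, map_sum]
    refine Finset.sum_eq_zero fun l _ => ?_
    rw [Derivation.leibniz, Derivation.leibniz_pow, s3.dl_inc, s3.dl_eta]
    simp
  · obtain ⟨Q, hQ⟩ := (s2.free_mem_KK 2 _ hkill).1 h
    have h1 : γ.e0 F = 0 := (γ.ker d F hF.hom).2 dvd_rfl
    rw [hQ, map_mul, map_C, h1, map_zero, zero_mul]
    exact dvd_zero _

end Pool.Agent.P.MP_6f117a_ag.Surf
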