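import Pool.Agent.P.MP_6f117a_ag.SIface

/-! Step PRIME of the proof for surfaces in projective three-space. -/

namespace Pool.Agent.P.MP_6f117a_ag.Surf

open MvPolynomial Module
open Ideal (span)
open scoped Polynomial WithZero

universe u

namespace PrimeAux

variable {L : Type u} [Field L] {N : ℕ}

/-- Scaling of all variables by a new variable. -/
noncomputable def sc : MvPolynomial (Fin N) L →ₐ[L] (MvPolynomial (Fin N) L)[X] :=
  aeval fun i => Polynomial.C (X i) * Polynomial.X

theorem sc_hom {F : MvPolynomial (Fin N) L} {d : ℕ} (hF : F.IsHomogeneous d) :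
    sc F = Polynomial.monomial d F := by
  conv_lhs => rw [F.as_sum]
  conv_rhs => rw [F.as_sum]
  rw [map_sum, map_sum]
  refine Finset.sum_congr rfl fun m hm => ?_
  have hdeg : m.degree = d := by
    by_contra hc
    exact mem_support_iff.1 hm (hF.coeff_eq_zero hc)
  rw [sc, aeval_monomial, monomial_eq, Finsupp.prod_fintype _ _ (by simp),
    Finsupp.prod_fintype _ _ (by simp), ← Polynomial.C_mul_X_pow_eq_monomial]
  simp only [mul_pow, Finset.prod_mul_distrib, Finset.prod_pow_eq_pow_sum,
    ← Finsupp.degree_eq_sum, hdeg, map_mul, map_prod, map_pow, mul_assoc]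
  rfl

theorem eval_sc (t b : MvPolynomial (Fin N) L) :
    (sc b).eval t = aeval (fun i => X i * t) b := by
  have : (Polynomial.evalRingHom t).comp (sc (L := L) (N := N)).toRingHom =
      (aeval (R := L) fun i => X i * t).toRingHom := by
    refine ringHom_ext (fun c => ?_) fun i => ?_
    · simp [sc]
    · simp [sc]
  exact DFunLike.congr_fun this b

theorem unit_of_const {a b : MvPolynomial (Fin N) L} {d : ℕ} (hF : (a * b).IsHomogeneous d)
    (h0 : a * b ≠ 0) (hb : constantCoeff b ≠ 0) : IsUnit b := by
  have e := sc_hom hF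
  rw [map_mul] at e
  have n0 : sc a * sc b ≠ 0 := by rw [e]; simpa using h0
  have na := left_ne_zero_of_mul n0
  have nb := right_ne_zero_of_mul n0
  have c0 : (sc b).coeff 0 = C (constantCoeff b) := by
    rw [Polynomial.coeff_zero_eq_eval_zero, eval_sc]
    simp only [mul_zero]
    exact aeval_zero' b
  have h1 := Polynomial.natTrailingDegree_mul na nb
  have h2 := Polynomial.natDegree_mul na nb
  rw [e, Polynomial.natTrailingDegree_monomial h0, Polynomial.natTrailingDegree_eq_zero.2
    (.inr (show (sc b).coeff 0 ≠ 0 by rw [c0]; simpa using hb))] at h1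
  rw [e, Polynomial.natDegree_monomial_eq _ h0] at h2
  have h3 := (sc a).natTrailingDegree_le_natDegree
  have h4 := Polynomial.eq_C_of_natDegree_eq_zero (show (sc b).natDegree = 0 by omega)
  have h5 := eval_sc 1 b
  rw [h4, Polynomial.eval_C, c0] at h5
  simp only [mul_one, aeval_X_left_apply] at h5
  rw [← h5]
  exact (IsUnit.mk0 _ hb).map C

/-- Set the first `k` variables to zero. -/
noncomputable def kl (k : ℕ) : MvPolynomial (Fin N) L →ₐ[L] MvPolynomial (Fin N) L :=
  aeval fun i => if i.1 < k then 0 else X i

theorem kl_lt {k : ℕ} (hk : k < N) :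
    RingHom.ker (kl (L := L) (N := N) k) < RingHom.ker (kl (L := L) (N := N) (k + 1)) := by
  have : (kl (L := L) (N := N) (k + 1)).comp (kl k) = kl (k + 1) := by
    refine algHom_ext fun i => ?_
    by_cases h : i.1 < k
    · simp only [kl, AlgHom.comp_apply, aeval_X, if_pos h, if_pos (Nat.lt_succ_of_lt h), map_zero]
    · simp [kl, h]
  refine lt_of_le_of_ne (fun a ha => ?_) fun e => ?_
  · rw [RingHom.mem_ker] at ha ⊢
    rw [← this, AlgHom.comp_apply, ha, map_zero]
  · have h1 : X ⟨k, hk⟩ ∈ RingHom.ker (kl (L := L) (N := N) (k + 1)) := by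
      simp [RingHom.mem_ker, kl]
    rw [← e] at h1
    simp [RingHom.mem_ker, kl] at h1

theorem le_height {k : ℕ} (hk : k ≤ N) :
    (k : ℕ∞) ≤ (RingHom.ker (kl (L := L) (N := N) k)).height := by
  induction k with
  | zero => simp
  | succ k ih =>
    have := RingHom.ker_isPrime (kl (L := L) (N := N) k)
    have := RingHom.ker_isPrime (kl (L := L) (N := N) (k + 1))
    push_cast
    exact (add_le_add_left (ih (by omega)) 1).trans
      (Ideal.height_add_one_le_of_lt_of_isPrime (kl_lt (by omega)))

theorem common_zero [IsAlgClosed L] (hN : 3 ≤ N) {a b : MvPolynomial (Fin N) L}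
    (ha : constantCoeff a = 0) (hb : constantCoeff b = 0) :
    ∃ p : Fin N → L, p ≠ 0 ∧ eval p a = 0 ∧ eval p b = 0 := by
  classical
  by_contra hc
  push Not at hc
  let m : Ideal (MvPolynomial (Fin N) L) := RingHom.ker constantCoeff
  have hm : m.IsPrime := RingHom.ker_isPrime _
  have h1 : m ∈ (span (({a, b} : Finset (MvPolynomial (Fin N) L)) : Set _)).minimalPrimes := by
    refine ⟨⟨hm, Ideal.span_le.2 ?_⟩, fun q hq _ => ?_⟩
    · intro x hx
      simp only [Finset.coe_insert, Finset.coe_singleton, Set.mem_insert_iff,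
        Set.mem_singleton_iff] at hx
      rcases hx with rfl | rfl
      · exact ha
      · exact hb
    · refine le_trans ?_ (hq.1.radical_le_iff.2 hq.2)
      rw [← vanishingIdeal_zeroLocus_eq_radical (K := L)]
      intro f hf p hp
      have : p = 0 := by
        by_contra hp0
        exact hc p hp0 (hp a (Ideal.subset_span (by simp))) (hp b (Ideal.subset_span (by simp)))
      rw [this, aeval_zero, RingHom.mem_ker.1 hf, map_zero]
  have h2 := Ideal.height_le_card_of_mem_minimalPrimes_span_finset h1
  have h3 : RingHom.ker (kl (L := L) (N := N) 3) ≤ m := by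
    have : (aeval (R := L) (0 : Fin N → L)).comp (kl 3) = aeval 0 := by
      refine algHom_ext fun i => ?_
      by_cases h : i.1 < 3 <;> simp [kl, h]
    intro f hf
    have e := DFunLike.congr_fun this f
    rw [AlgHom.comp_apply, RingHom.mem_ker.1 hf, map_zero, aeval_zero] at e
    exact e.symm
  have h4 := (le_height hN).trans ((Ideal.height_mono h3).trans h2)
  have h5 : ({a, b} : Finset (MvPolynomial (Fin N) L)).card ≤ 2 := Finset.card_le_two
  have h6 := Nat.cast_le.1 h4
  omega

end PrimeAux

open PrimeAux in
theorem pPRIME (L : Type u) [Field L] [IsAlgClosed L] [CharZero L] :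
    S_PRIME L := by
  intro n d F hF hd hs
  have h0 : F ≠ 0 := by
    rintro rfl
    have := congrFun (hs 1 (by simp)) 0
    simp at this
  refine UniqueFactorizationMonoid.irreducible_iff_prime.1 ⟨fun hu => ?_, fun a b e => ?_⟩
  · have h1 : constantCoeff F = 0 := hF.coeff_eq_zero (by simpa using hd.ne)
    exact (hu.map constantCoeff).ne_zero h1
  · subst e
    by_contra hc
    push Not at hc
    have ha : constantCoeff a = 0 := by
      by_contra h
      exact hc.1 (unit_of_const (a := b) (by rwa [mul_comm]) (by rwa [mul_comm]) h)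
    have hb : constantCoeff b = 0 := by
      by_contra h
      exact hc.2 (unit_of_const hF h0 h)
    obtain ⟨p, hp, h1, h2⟩ := common_zero (by omega) ha hb
    exact hp (hs p fun i => by simp [h1, h2])

end Pool.Agent.P.MP_6f117a_ag.Surf
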