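import Pool.Agent.P.MP_6f117a_ag.SIface

/-! Step QUE of the proof for surfaces in projective three-space. -/

namespace Pool.Agent.P.MP_6f117a_ag.Surf

open MvPolynomial Module
open Ideal (span)
open scoped Polynomial WithZero

universe u

theorem coeff_que {L : Type u} [Field L] (hCOND : S_COND L) (hKRON : S_KRON.{u}) {d : ℕ}
    {F f : S L} (hF : F.IsHomogeneous d) (hp : Prime F) (hf : ¬F ∣ f) {P G A B : U L}
    (h : P * G = C f * A + C F * B) (i : Fin 4) (m n : T2 →₀ ℕ) :
    pderiv i F * (coeff m P * coeff n G) ∈ span {F, f} := by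
  have : (span {F} : Ideal (S L)).IsPrime := (Ideal.span_singleton_prime hp.ne_zero).2 hp
  set φ : S L →+* FractionRing (S L ⧸ (span {F} : Ideal (S L))) :=
    (algebraMap (S L ⧸ (span {F} : Ideal (S L))) _).comp (Ideal.Quotient.mk _) with hφ
  have h1 : ∀ x, φ x = 0 ↔ F ∣ x := fun x => by
    rw [hφ, RingHom.comp_apply, FaithfulSMul.algebraMap_eq_zero_iff,
      Ideal.Quotient.eq_zero_iff_mem, Ideal.mem_span_singleton]
  have h2 : φ f ≠ 0 := fun e => hf ((h1 f).1 e)
  have h3 : map φ P * (C (φ f)⁻¹ * map φ G) = map φ A := by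
    have e1 := congrArg (map φ) h
    rw [map_mul, map_add, map_mul, map_mul, map_C, map_C, (h1 F).2 dvd_rfl, C_0, zero_mul,
      add_zero] at e1
    rw [mul_left_comm, e1, ← mul_assoc, ← C_mul, inv_mul_cancel₀ h2, C_1, one_mul]
  have h4 := hKRON _ φ.range T2 (map φ P) (C (φ f)⁻¹ * map φ G)
    (fun m => by rw [h3, coeff_map]; exact ⟨_, rfl⟩) m n
  refine hCOND 4 d F hF hp.ne_zero _ φ h1 _ f h2 ?_ i
  rw [coeff_C_mul, coeff_map, coeff_map] at h4
  rwa [map_mul, div_eq_mul_inv, mul_assoc, mul_comm (φ (coeff n G))]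

theorem pQUE (L : Type u) [Field L] [IsAlgClosed L] [CharZero L]
    (hSIG1 : S_SIG1 L) (hSIG2 : S_SIG2 L) (hCOND : S_COND L) (hKRON : S_KRON.{u}) :
    S_QUE L := by
  intro d F hF μ j a b Q G f hQ hG hf h k
  have s2 := hSIG2 d F hF
  have hK : span {ell F} ⊔ span {cee F} ≤ KK F := le_sup_left.trans s2.le_KK
  have hCF : C F ∈ KK F := (s2.C_mem_KK F).2 dvd_rfl
  obtain ⟨A', hA, B, hB, e⟩ := Submodule.mem_sup.1 h
  obtain ⟨A, rfl⟩ := Ideal.mem_span_singleton.1 hA
  obtain ⟨B', hB'⟩ := (s2.mem_KK k B).1 hB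
  have e1 : sig F k Q * sig F k G = C f * sig F k A + C F * B' := by
    rw [← map_mul, ← e, map_add, map_mul, hB']
    congr 2
    exact (sig F k).commutes f
  have h1 : ∀ n, dF F k ^ (2 * μ + 1) * coeff n (sig F k G) ∈ bI F Q f := by
    intro n
    have h2 : C (dF F k * coeff n (sig F k G)) * sig F k Q ∈
        (span {F, f} : Ideal (S L)).map (C : S L →+* U L) := by
      rw [mem_map_C_iff]
      intro m
      rw [coeff_C_mul, mul_assoc, mul_comm (coeff n _)]
      exact coeff_que hCOND hKRON hF.hom hF.prime hf e1 k.succ m n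
    have h3 : (span {F, f} : Ideal (S L)).map (C : S L →+* U L) ≤ span {C f} ⊔ KK F := by
      rw [Ideal.map_le_iff_le_comap, Ideal.span_le]
      rintro x (rfl | rfl)
      · exact Ideal.mem_sup_right hCF
      · exact Ideal.mem_sup_left (Ideal.mem_span_singleton_self _)
    have h4 := sub_mem (h3 h2) (Ideal.mul_mem_left _ (C (dF F k * coeff n (sig F k G)))
      (Ideal.mem_sup_right (hK (s2.sig_sub k μ j Q hQ))))
    refine Ideal.mem_comap.2 (Submodule.mem_colon_singleton.2 ?_)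
    convert h4 using 1
    simp only [smul_eq_mul, map_mul, map_pow]
    ring
  have h2 : C (dF F k ^ (2 * μ + 1)) * sig F k G ∈ (bI F Q f).map (C : S L →+* U L) := by
    rw [mem_map_C_iff]
    intro n
    rw [coeff_C_mul]
    exact h1 n
  refine ⟨2 * μ + 1 + 2 * a, ?_⟩
  have h3 := sub_mem (Ideal.mem_sup_left (T := KK F) h2)
    (Ideal.mul_mem_left _ (C (dF F k ^ (2 * μ + 1)))
      (Ideal.mem_sup_right (hK (s2.sig_sub k a b G hG))))
  convert h3 using 1
  simp only [map_pow]
  ring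

end Pool.Agent.P.MP_6f117a_ag.Surf
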