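import Pool.Agent.P.MP_6f117a_ag.SIface

/-! Step REGSEQ of the proof for surfaces in projective three-space. -/

namespace Pool.Agent.P.MP_6f117a_ag.Surf

open MvPolynomial Module
open Ideal (span)
open scoped Polynomial WithZero

universe u

namespace Regseq

variable {L : Type u} [Field L] {I J : Ideal (S L)} {a b x f : S L}

/-- `a` is regular modulo `J`. -/
def Rg (a : S L) (J : Ideal (S L)) : Prop := ∀ G, a * G ∈ J → G ∈ J

/-- A form of positive degree. -/
def Hm (a : S L) : Prop := ∃ n, 0 < n ∧ a ∈ frm L n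

/-- The quotient by `J` has no socle. -/
def NS (J : Ideal (S L)) : Prop := ∀ z, (∀ i, X i * z ∈ J) → z ∈ J

/-- The quotient by `J` has depth at least `k`. -/
def Dp : ℕ → Ideal (S L) → Prop
  | 0, _ => True
  | k + 1, J => ∃ x, Hm x ∧ Rg x J ∧ Dp k (span {x} ⊔ J)

/-- The ideal generated by `J` and a list. -/
noncomputable def Id (J : Ideal (S L)) : List (S L) → Ideal (S L)
  | [] => J
  | a :: l => span {a} ⊔ Id J l

/-- The reversed list is a regular sequence modulo `J`. -/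
def Sq (J : Ideal (S L)) : List (S L) → Prop
  | [] => True
  | a :: l => Sq J l ∧ Rg a (Id J l)

theorem mem_add {G : S L} : G ∈ span {a} ⊔ J ↔ ∃ u, G - a * u ∈ J := by
  rw [Ideal.mem_span_singleton_sup]
  exact ⟨fun ⟨u, v, h, e⟩ => ⟨u, by rwa [← e, mul_comm u, add_sub_cancel_left]⟩,
    fun ⟨u, h⟩ => ⟨u, _, h, by ring⟩⟩

theorem Hm.mem (h : Hm a) (hJ : ∀ i, X i ∈ J) : a ∈ J := by
  obtain ⟨n, hn, h⟩ := h
  have : a ∈ span (X '' (Set.univ : Set (Fin 4))) := by
    refine mem_ideal_span_X_image.2 fun m hm => ?_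
    by_contra hc
    push Not at hc
    obtain rfl : m = 0 := Finsupp.ext fun i => hc i trivial
    have := h (mem_support_iff.1 hm)
    simp only [map_zero] at this
    omega
  exact Ideal.span_le.2 (by rintro _ ⟨i, -, rfl⟩; exact hJ i) this

theorem Hm.hom (h : Hm a) (hJ : J.IsHomogeneous (frm L)) :
    (span {a} ⊔ J).IsHomogeneous (frm L) := by
  obtain ⟨n, -, h⟩ := h
  exact (hom_span h).sup hJ

theorem Hm.mul_mem (h : Hm a) {z : S L} (hz : ∀ i, X i * z ∈ J) : a * z ∈ J :=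
  Submodule.mem_colon_singleton.1 (h.mem (J := J.colon {z}) fun i =>
    Submodule.mem_colon_singleton.2 (hz i))

theorem swap (hI : I.IsHomogeneous (frm L)) (ha : Hm a) (hb : Hm b) (h1 : Rg a I)
    (h2 : Rg b (span {a} ⊔ I)) : Rg b I ∧ Rg a (span {b} ⊔ I) := by
  obtain ⟨p, hp, ha⟩ := ha
  obtain ⟨q, -, hb⟩ := hb
  constructor
  · have key : ∀ n, ∀ G ∈ frm L n, b * G ∈ I → G ∈ I := by
      intro n
      induction n using Nat.strong_induction_on with
      | _ n ih =>
      intro G hG h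
      have h3 := h2 G (Ideal.mem_sup_right h)
      rcases Nat.lt_or_ge n p with hn | hn
      · exact mem_of_comp hI ha hG (fun i => by omega) h3
      · obtain ⟨m, rfl⟩ := Nat.exists_eq_add_of_le hn
        obtain ⟨y, -, y1, y2⟩ := exists_comp (Ideal.IsHomogeneous.top _) hI ha hG
          (by rwa [Ideal.mul_top])
        have h4 := ih m (by omega) y y1 (h1 _ (by
          rw [show a * (b * y) = b * G - b * (G - a * y) by ring]
          exact I.sub_mem h (I.mul_mem_left _ y2)))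
        simpa using I.add_mem y2 (I.mul_mem_left a h4)
    intro G hG
    exact le_of_hom (hom_colon hI hb) (fun n G h1 h2 => key n G h2 (by
      simpa [mul_comm] using Submodule.mem_colon_singleton.1 h1))
      (Submodule.mem_colon_singleton.2 (by simpa [mul_comm] using hG))
  · intro G hG
    obtain ⟨u, hu⟩ := mem_add.1 hG
    obtain ⟨v, hv⟩ := mem_add.1 (h2 u (mem_add.2 ⟨G, by simpa using I.neg_mem hu⟩))
    refine mem_add.2 ⟨v, h1 _ ?_⟩
    rw [show a * (G - b * v) = a * G - b * u + b * (u - a * v) by ring]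
    exact I.add_mem hu (I.mul_mem_left _ hv)

theorem Rg.ns (h : Rg x J) (hx : Hm x) : NS J := fun z hz => h z (hx.mul_mem hz)

theorem socle (hx : Hm x) (h1 : Rg x J) (h2 : Rg f J) (h : NS (span {x} ⊔ J)) :
    NS (span {f} ⊔ J) := by
  intro z hz
  obtain ⟨u, hu⟩ := mem_add.1 (hx.mul_mem hz)
  obtain ⟨w, hw⟩ := mem_add.1 (h u fun i => by
    obtain ⟨v, hv⟩ := mem_add.1 (hz i)
    refine mem_add.2 ⟨v, h2 _ ?_⟩
    rw [show f * (X i * u - x * v) = x * (X i * z - f * v) - X i * (x * z - f * u) by ring]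
    exact J.sub_mem (J.mul_mem_left _ hv) (J.mul_mem_left _ hu))
  refine mem_add.2 ⟨w, h1 _ ?_⟩
  rw [show x * (z - f * w) = x * z - f * u + f * (u - x * w) by ring]
  exact J.add_mem hu (J.mul_mem_left _ hw)

theorem NS.ass (h : NS J) : ∃ T : Finset (Ideal (S L)),
    (∀ P ∈ T, P.IsPrime ∧ ∃ i, X i ∉ P) ∧ ∀ u, (∀ P ∈ T, u ∉ P) → Rg u J := by
  obtain ⟨T, h1, h2⟩ := exists_ass J
  refine ⟨T, fun P hP => ?_, h2⟩
  obtain ⟨hp, z, rfl⟩ := h1 P hP
  refine ⟨hp, ?_⟩
  by_contra hc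
  push Not at hc
  refine hp.ne_top ((Ideal.eq_top_iff_one _).2 (Submodule.mem_colon_singleton.2 ?_))
  rw [one_smul]
  exact h z fun i => Submodule.mem_colon_singleton.1 (hc i)

theorem X_mem (i : Fin 4) : (X i : S L) ∈ frm L 1 := isHomogeneous_X L i

theorem exchange [Infinite L] (k : ℕ) : ∀ {J : Ideal (S L)} {f : S L}, J.IsHomogeneous (frm L) →
    Hm f → Rg f J → Dp (k + 1) J → Dp k (span {f} ⊔ J) := by
  classical
  induction k with
  | zero => intros; trivial
  | succ k ih =>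
    rintro J f hJ hf h1 ⟨x, x1, x2, hd⟩
    have n1 : NS (span {x} ⊔ J) := by
      obtain ⟨x', a1, a2, -⟩ := hd
      exact a2.ns a1
    obtain ⟨T, t1, t2⟩ := n1.ass
    obtain ⟨T', t3, t4⟩ := (socle x1 x2 h1 n1).ass
    obtain ⟨y, y1, y2⟩ := exists_avoid (frm L 1) (T ∪ T') fun P hP => by
      obtain ⟨i, hi⟩ := (Finset.mem_union.1 hP).elim (fun h => (t1 P h).2) fun h => (t3 P h).2
      exact ⟨X i, X_mem i, hi⟩
    have hy : Hm y := ⟨1, one_pos, y1⟩
    have r1 := t2 y fun P hP => y2 P (Finset.mem_union_left _ hP)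
    have r2 := t4 y fun P hP => y2 P (Finset.mem_union_right _ hP)
    have d1 := ih (x1.hom hJ) hy r1 hd
    rw [sup_left_comm] at d1
    have d2 := ih (hy.hom hJ) hf (swap hJ hf hy h1 r2).2 ⟨x, x1, (swap hJ x1 hy x2 r1).2, d1⟩
    rw [sup_left_comm] at d2
    exact ⟨y, hy, r2, d2⟩

theorem id_sup (x : S L) (J : Ideal (S L)) (l : List (S L)) :
    Id (span {x} ⊔ J) l = span {x} ⊔ Id J l := by
  induction l with
  | nil => rfl
  | cons a l ih => rw [Id, Id, ih, sup_left_comm]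

theorem id_hom (hJ : J.IsHomogeneous (frm L)) (l : List (S L)) (hl : ∀ a ∈ l, Hm a) :
    (Id J l).IsHomogeneous (frm L) := by
  induction l with
  | nil => exact hJ
  | cons a l ih => exact (hl a (by simp)).hom (ih fun b hb => hl b (by simp [hb]))

theorem move (hJ : J.IsHomogeneous (frm L)) (hx : Hm x) (h1 : Rg x J) (l : List (S L))
    (hl : ∀ a ∈ l, Hm a) (h2 : Sq (span {x} ⊔ J) l) : Sq J l ∧ Rg x (Id J l) := by
  induction l with
  | nil => exact ⟨trivial, h1⟩
  | cons a l ih =>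
    have hl' : ∀ b ∈ l, Hm b := fun b hb => hl b (by simp [hb])
    obtain ⟨h3, h4⟩ := ih hl' h2.1
    have h5 := swap (id_hom hJ l hl') hx (hl a (by simp)) h4 (id_sup x J l ▸ h2.2)
    exact ⟨⟨h3, h5.1⟩, h5.2⟩

theorem exists_elt [Infinite L] {K : Ideal (S L)} (hK : K.IsHomogeneous (frm L)) (hJ : NS J)
    (hf : Hm f) (h : ∀ i, X i ∈ (span {f} ⊔ K).radical) :
    ∃ x, Hm x ∧ Rg x J ∧ (∀ i, X i ∈ (span {x} ⊔ K).radical) ∧ (Rg x K → Rg f K) := by
  classical
  obtain ⟨n, hn, hf⟩ := hf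
  obtain ⟨T, t1, t2⟩ := hJ.ass
  let W : ℕ → Submodule L (S L) := fun a => L ∙ f ^ a ⊔ (K.restrictScalars L ⊓ frm L (a * n))
  have h1 : ∀ P ∈ T, ∃ δ, ∀ a, δ ≤ a → ∃ w ∈ W a, w ∉ P := fun P hP => by
    obtain ⟨hp, i, hi⟩ := t1 P hP
    by_cases hfP : f ∈ P
    · have : ¬ K ≤ P := fun hc => hi ((hp.radical_le_iff.2
        (sup_le ((Ideal.span_singleton_le_iff_mem _).2 hfP) hc)) (h i))
      have := mt (le_of_hom hK) this
      push Not at this
      obtain ⟨δ, g, g1, g2, g3⟩ := this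
      refine ⟨δ, fun a ha => ⟨X i ^ (a * n - δ) * g, Submodule.mem_sup_right
        ⟨K.mul_mem_left _ g1, ?_⟩, fun hc => (hp.mem_or_mem hc).elim
          (fun e => hi (hp.mem_of_pow_mem _ e)) g3⟩⟩
      have h2 := SetLike.mul_mem_graded (SetLike.pow_mem_graded (a * n - δ) (X_mem i)) g2
      have h3 := Nat.le_mul_of_pos_right a hn
      rwa [smul_eq_mul, mul_one, Nat.sub_add_cancel (by omega)] at h2
    · exact ⟨0, fun a _ => ⟨f ^ a, Submodule.mem_sup_left (Submodule.mem_span_singleton_self _),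
        fun e => hfP (hp.mem_of_pow_mem _ e)⟩⟩
  choose! δ hδ using h1
  obtain ⟨a, ha⟩ : ∃ a, a = T.sup δ + 1 := ⟨_, rfl⟩
  obtain ⟨x, x1, x2⟩ := exists_avoid (W a) (T ∪ ({K} : Finset _).filter fun K => f ^ a ∉ K)
    fun P hP => by
      rcases Finset.mem_union.1 hP with hP | hP
      · exact hδ P hP a (by have := Finset.le_sup (f := δ) hP; omega)
      · exact ⟨f ^ a, Submodule.mem_sup_left (Submodule.mem_span_singleton_self _),
          (Finset.mem_filter.1 hP).2⟩
  obtain ⟨_, hc, v, ⟨v1, v2⟩, rfl⟩ := Submodule.mem_sup.1 x1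
  obtain ⟨c, rfl⟩ := Submodule.mem_span_singleton.1 hc
  refine ⟨_, ⟨a * n, Nat.mul_pos (by omega) hn,
    add_mem (Submodule.smul_mem _ _ (SetLike.pow_mem_graded a hf)) v2⟩,
    t2 _ fun P hP => x2 P (Finset.mem_union_left _ hP), fun i => ?_, fun hr G hG => hr G ?_⟩
  · refine Ideal.radical_le_radical_iff.2 (sup_le ((Ideal.span_singleton_le_iff_mem _).2
      (Ideal.mem_radical_iff.2 ⟨a, ?_⟩)) (le_sup_right.trans Ideal.le_radical)) (h i)
    by_cases hfa : f ^ a ∈ K
    · exact Ideal.mem_sup_right hfa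
    · have hc0 : c ≠ 0 := by
        rintro rfl
        exact x2 K (Finset.mem_union_right _ (by simpa)) (by simpa using v1)
      refine mem_add.2 ⟨C c⁻¹, ?_⟩
      rw [smul_eq_C_mul, add_mul, mul_right_comm, ← C_mul, mul_inv_cancel₀ hc0, C_1, one_mul,
        sub_add_cancel_left]
      exact K.neg_mem (K.mul_mem_right _ v1)
  · rw [ha, smul_eq_C_mul, add_mul, pow_succ, mul_assoc, mul_assoc]
    exact K.add_mem (K.mul_mem_left _ (K.mul_mem_left _ hG)) (K.mul_mem_right _ v1)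

theorem main [Infinite L] (l : List (S L)) : ∀ {J : Ideal (S L)}, J.IsHomogeneous (frm L) →
    (∀ a ∈ l, Hm a) → Dp l.length J → (∀ i, X i ∈ (Id J l).radical) → Sq J l := by
  induction l with
  | nil => intros; trivial
  | cons f l ih =>
    intro J hJ hl hd h
    have hl' : ∀ b ∈ l, Hm b := fun b hb => hl b (by simp [hb])
    have n1 : NS J := by
      obtain ⟨x, a1, a2, -⟩ := hd
      exact a2.ns a1
    obtain ⟨x, x1, x2, x3, x4⟩ := exists_elt (id_hom hJ l hl') n1 (hl f (by simp)) h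
    have := move hJ x1 x2 l hl' (ih (x1.hom hJ) hl' (exchange _ hJ x1 x2 hd) (by rwa [id_sup]))
    exact ⟨this.1, x4 this.2⟩

theorem dp_vars (k : ℕ) : ∀ s : Finset (Fin 4), s.card + k ≤ 4 →
    Dp k (span (X '' (s : Set (Fin 4))) : Ideal (S L)) := by
  induction k with
  | zero => intros; trivial
  | succ k ih =>
    intro s hs
    obtain ⟨j, -, hj⟩ := Finset.exists_mem_notMem_of_card_lt_card (s := s) (t := Finset.univ)
      (by simp; omega)
    refine ⟨X j, ⟨1, one_pos, X_mem j⟩, fun G hG => mem_ideal_span_X_image.2 fun m hm => ?_, ?_⟩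
    · obtain ⟨i, i1, i2⟩ := mem_ideal_span_X_image.1 hG (Finsupp.single j 1 + m)
        (by rwa [MvPolynomial.mem_support_iff, coeff_X_mul, ← MvPolynomial.mem_support_iff])
      have : j ≠ i := by rintro rfl; exact hj i1
      exact ⟨i, i1, by simpa [this] using i2⟩
    · rw [← Ideal.span_insert, ← Set.image_insert_eq, ← Finset.coe_insert]
      exact ih _ (by rw [Finset.card_insert_of_notMem hj]; omega)

end Regseq

theorem pREGSEQ (L : Type u) [Field L] [IsAlgClosed L] [CharZero L]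
    (hDIR2 : S_DIR2 L) :
    S_REGSEQ L := by
  rintro n f hn hf ⟨N, hN⟩
  have h0 := Regseq.dp_vars (L := L) 4 ∅ (by simp)
  rw [Finset.coe_empty, Set.image_empty, Ideal.span_empty] at h0
  obtain ⟨⟨⟨-, h1⟩, h2⟩, h3⟩ := Regseq.main [f 3, f 2, f 1, f 0] (Ideal.IsHomogeneous.bot _)
    (by
      simp only [List.mem_cons, List.not_mem_nil, or_false]
      rintro a (rfl | rfl | rfl | rfl) <;> exact ⟨_, hn _, hf _⟩) h0 fun i => ⟨N, by
      refine Ideal.span_le.2 ?_ (hN i)
      rintro _ ⟨j, rfl⟩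
      simp only [Regseq.Id, ← Ideal.span_insert, sup_bot_eq]
      exact Ideal.subset_span (by fin_cases j <;> simp)⟩
  simp only [Regseq.Id, ← Ideal.span_insert, sup_bot_eq] at h1 h2 h3
  rw [Set.pair_comm] at h2
  rw [Set.insert_comm, Set.pair_comm (f 2), Set.insert_comm] at h3
  exact ⟨h1, h2, h3⟩

end Pool.Agent.P.MP_6f117a_ag.Surf
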