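import Pool.Agent.P.MP_6f117a_ag.SIface

/-! Step REP of the proof for surfaces in projective three-space. -/

namespace Pool.Agent.P.MP_6f117a_ag.Surf

open MvPolynomial Module
open Ideal (span)
open scoped Polynomial WithZero

universe u

namespace RepAux

variable {L : Type u} [Field L]

/-- The homogeneous coordinate ring of the plane. -/
abbrev R3 (L : Type u) [Field L] := MvPolynomial (Fin 3) L

/-- Homogenisation in degree `N`. -/
noncomputable def hm (N : ℕ) (p : A2 L) : R3 L :=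
  ∑ i ∈ Finset.range (N + 1), X 0 ^ (N - i) * rename Fin.succ (homogeneousComponent i p)

/-- Dehomogenisation. -/
noncomputable def dh : R3 L →ₐ[L] A2 L := aeval ![1, X 0, X 1]

theorem scale {K : Type u} [CommRing K] [Algebra L K] {G : R3 L} {n : ℕ}
    (hG : G.IsHomogeneous n) (t : K) (x : Fin 3 → K) :
    aeval (fun i => t * x i) G = t ^ n * aeval x G := by
  rw [G.as_sum, map_sum, map_sum, Finset.mul_sum]
  refine Finset.sum_congr rfl fun m hm => ?_
  have h1 : ∑ i, m i = n := by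
    have := hG (mem_support_iff.mp hm)
    rw [← this, Finsupp.weight_apply, Finsupp.sum_fintype _ _ (by simp)]
    simp
  rw [aeval_monomial, aeval_monomial, Finsupp.prod_fintype _ _ (by simp),
    Finsupp.prod_fintype _ _ (by simp), ← h1, ← Finset.prod_pow_eq_pow_sum]
  simp only [mul_pow, Finset.prod_mul_distrib]
  ring

theorem aeval_dh {K : Type u} [CommRing K] [Algebra L K] (e : A2 L →ₐ[L] K) (G : R3 L) :
    aeval ![1, e (X 0), e (X 1)] G = e (dh G) := by
  have : (aeval ![1, e (X 0), e (X 1)] : R3 L →ₐ[L] K) = e.comp dh :=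
    MvPolynomial.algHom_ext fun i => by fin_cases i <;> simp [dh]
  rw [this]
  rfl

theorem hm_hom (N : ℕ) (p : A2 L) : (hm N p).IsHomogeneous N := by
  refine IsHomogeneous.sum _ _ _ fun i hi => ?_
  have := (isHomogeneous_X_pow (R := L) (0 : Fin 3) (N - i)).mul
    ((homogeneousComponent_isHomogeneous i p).rename_isHomogeneous (f := Fin.succ))
  rwa [Nat.sub_add_cancel (Nat.lt_succ_iff.1 (Finset.mem_range.1 hi))] at this

theorem dh_rename (q : A2 L) : dh (rename Fin.succ q) = q := by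
  have : (dh : R3 L →ₐ[L] A2 L).comp (rename Fin.succ) = AlgHom.id L _ :=
    MvPolynomial.algHom_ext fun i => by fin_cases i <;> simp [dh]
  exact DFunLike.congr_fun this q

theorem dh_hm {N : ℕ} {p : A2 L} (h : p.totalDegree ≤ N) : dh (hm N p) = p := by
  have h0 : dh (X 0 : R3 L) = 1 := by simp [dh]
  simp only [hm, map_sum, map_mul, map_pow, h0, one_pow, one_mul, dh_rename]
  conv_rhs => rw [← sum_homogeneousComponent p]
  refine (Finset.sum_subset (Finset.range_subset_range.2 (by omega)) fun i _ hi => ?_).symm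
  exact homogeneousComponent_eq_zero _ _ (by simpa using hi)

theorem dh_inj [Infinite L] {G : R3 L} {n : ℕ} (hG : G.IsHomogeneous n) (h : dh G = 0) :
    G = 0 := by
  have : X 0 * G = 0 := by
    refine MvPolynomial.funext fun x => ?_
    rw [map_mul, eval_X, map_zero]
    rcases eq_or_ne (x 0) 0 with h0 | h0
    · rw [h0, zero_mul]
    · have e := aeval_dh (aeval ![x 1 / x 0, x 2 / x 0] : A2 L →ₐ[L] L) G
      have e2 := scale hG (x 0) ![1, x 1 / x 0, x 2 / x 0]
      have e3 : (fun i => x 0 * ![1, x 1 / x 0, x 2 / x 0] i) = x := by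
        funext i
        fin_cases i <;> simp <;> field_simp
      rw [h, map_zero, aeval_X, aeval_X] at e
      simp only [Matrix.cons_val_zero, Matrix.cons_val_one] at e
      rw [e3, e, mul_zero] at e2
      rw [← coe_aeval_eq_eval]
      exact mul_eq_zero_of_right _ e2
  exact (mul_eq_zero.1 this).resolve_left (X_ne_zero 0)

theorem deg_dh {G : R3 L} {n : ℕ} (hG : G.IsHomogeneous n) : (dh G).totalDegree ≤ n := by
  rw [G.as_sum, map_sum]
  refine totalDegree_finsetSum_le fun m hm => ?_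
  have h1 : ∑ i, m i = n := by
    have := hG (mem_support_iff.mp hm)
    rw [← this, Finsupp.weight_apply, Finsupp.sum_fintype _ _ (by simp)]
    simp
  rw [Fin.sum_univ_three] at h1
  rw [dh, aeval_monomial, Finsupp.prod_fintype _ _ (by simp), Fin.prod_univ_three]
  have h2 : (C (coeff m G) * (X 0 ^ m 1 * X 1 ^ m 2) : A2 L).IsHomogeneous (m 1 + m 2) :=
    ((isHomogeneous_X_pow 0 _).mul (isHomogeneous_X_pow 1 _)).C_mul _
  refine le_trans (le_of_eq ?_) (h2.totalDegree_le.trans (by omega))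
  simp

theorem dh_pderiv (i : Fin 2) (G : R3 L) : dh (pderiv i.succ G) = pderiv i (dh G) := by
  induction G using MvPolynomial.induction_on with
  | C s => simp [dh]
  | add p q hp hq => simp only [map_add, hp, hq]
  | mul_X p j hp =>
    have : dh (pderiv i.succ (X j : R3 L)) = pderiv i (dh (X j : R3 L)) := by
      fin_cases i <;> fin_cases j <;> simp [dh, pderiv_X]
    simp only [Derivation.leibniz, smul_eq_mul, map_add, map_mul, hp, this]

theorem dvd_of_dh [Infinite L] {f : A2 L} (hf : f ≠ 0) {G : R3 L} {n : ℕ}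
    (hG : G.IsHomogeneous n) (h : f ∣ dh G) : hm f.totalDegree f ∣ G := by
  obtain ⟨q, hq⟩ := h
  rcases eq_or_ne q 0 with rfl | h0
  · rw [dh_inj hG (by rw [hq, mul_zero])]
    exact dvd_zero _
  have h1 := deg_dh hG
  rw [hq, totalDegree_mul_of_isDomain hf h0] at h1
  have h2 := (hm_hom f.totalDegree f).mul (hm_hom (n - f.totalDegree) q)
  rw [show f.totalDegree + (n - f.totalDegree) = n by omega] at h2
  refine ⟨hm (n - f.totalDegree) q, sub_eq_zero.1 (dh_inj (hG.sub h2) ?_)⟩
  rw [map_sub, map_mul, dh_hm le_rfl, dh_hm (by omega), hq, sub_self]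

theorem exists_phi0 [Infinite L] {f : A2 L} (hf : Prime f) (Q : Type u) [CommRing Q] [IsDomain Q]
    [Algebra L Q] (π : A2 L →ₐ[L] Q) (hπ : ∀ a, π a = 0 ↔ f ∣ a) :
    ∃ (K : Type u) (_ : Field K) (φ : R3 L →+* K) (e : A2 L →+* K) (T : K), T ≠ 0 ∧
      (∀ a, e a = 0 ↔ f ∣ a) ∧ (∀ G, φ G = 0 ↔ hm f.totalDegree f ∣ G) ∧
      ∀ (n : ℕ) (G : R3 L), G.IsHomogeneous n → φ G = T ^ n * e (dh G) := by
  let K := FractionRing Q[X]
  let e0 : A2 L →ₐ[L] Q[X] := (IsScalarTower.toAlgHom L Q Q[X]).comp π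
  have he0 : ∀ a, e0 a = Polynomial.C (π a) := fun _ => rfl
  let ψ : R3 L →ₐ[L] Q[X] := aeval fun i => Polynomial.X * ![1, e0 (X 0), e0 (X 1)] i
  have hψ : ∀ (n : ℕ) (G : R3 L), G.IsHomogeneous n →
      ψ G = Polynomial.X ^ n * Polynomial.C (π (dh G)) := fun n G hG => by
    have h1 := scale hG Polynomial.X ![1, e0 (X 0), e0 (X 1)]
    rw [aeval_dh, he0] at h1
    exact h1
  have hι := IsFractionRing.injective Q[X] K
  refine ⟨K, inferInstance, (algebraMap Q[X] K).comp (ψ : R3 L →+* Q[X]),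
    (algebraMap Q[X] K).comp (e0 : A2 L →+* Q[X]), algebraMap Q[X] K Polynomial.X, ?_, fun a => ?_,
    fun G => ?_, fun n G hG => ?_⟩
  · rw [Ne, map_eq_zero_iff _ hι]
    exact Polynomial.X_ne_zero
  · change algebraMap Q[X] K (Polynomial.C (π a)) = 0 ↔ _
    rw [map_eq_zero_iff _ hι, Polynomial.C_eq_zero, hπ]
  · change algebraMap Q[X] K (ψ G) = 0 ↔ _
    rw [map_eq_zero_iff _ hι]
    constructor
    · intro h
      rw [← sum_homogeneousComponent G]
      refine Finset.dvd_sum fun n hn => dvd_of_dh hf.ne_zero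
        (homogeneousComponent_isHomogeneous n G) ((hπ _).1 ?_)
      rw [← sum_homogeneousComponent G, map_sum, Finset.sum_congr rfl fun i _ =>
        hψ i _ (homogeneousComponent_isHomogeneous i G)] at h
      have := congrArg (fun p => Polynomial.coeff p n) h
      simpa [Polynomial.finsetSum_coeff, Polynomial.coeff_mul_C, Polynomial.coeff_X_pow,
        Nat.lt_succ_iff.1 (Finset.mem_range.1 hn)] using this
    · rintro ⟨H, rfl⟩
      rw [map_mul, hψ _ _ (hm_hom _ f), dh_hm le_rfl, (hπ f).2 dvd_rfl, map_zero, mul_zero,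
        zero_mul]
  · change algebraMap Q[X] K (ψ G) = _ * algebraMap Q[X] K (Polynomial.C (π (dh G)))
    rw [hψ n G hG, map_mul, map_pow]

theorem exists_phi [Infinite L] {f : A2 L} (hf : Prime f) :
    ∃ (K : Type u) (_ : Field K) (φ : R3 L →+* K) (e : A2 L →+* K) (T : K), T ≠ 0 ∧
      (∀ a, e a = 0 ↔ f ∣ a) ∧ (∀ G, φ G = 0 ↔ hm f.totalDegree f ∣ G) ∧
      ∀ (n : ℕ) (G : R3 L), G.IsHomogeneous n → φ G = T ^ n * e (dh G) := by
  have hp : (span {f} : Ideal (A2 L)).IsPrime := (Ideal.span_singleton_prime hf.ne_zero).mpr hf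
  exact exists_phi0 hf (A2 L ⧸ (span {f} : Ideal (A2 L))) (Ideal.Quotient.mkₐ L _) fun a =>
    Ideal.Quotient.eq_zero_iff_mem.trans Ideal.mem_span_singleton

end RepAux

attribute [local instance] MvPolynomial.gradedAlgebra in
open RepAux in
theorem pREP (L : Type u) [Field L] [IsAlgClosed L] [CharZero L]
    (hCOND : S_COND L) :
    S_REP L := by
  intro W f hf hf1 hI
  obtain ⟨K, _, φ, e, T, hT, he, hφ, hs⟩ := exists_phi hf
  set m := f.totalDegree with hmdef
  set fh := hm m f with hfh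
  have hfh1 : fh.IsHomogeneous m := hm_hom m f
  have hdf : dh fh = f := dh_hm le_rfl
  have hfh0 : fh ≠ 0 := fun h => hf.ne_zero (by rw [← hdf, h, map_zero])
  let a₁ : R3 L := -(hm W.c W.g * pderiv 1 fh)
  let b₁ : R3 L := pderiv 2 fh
  have ha : a₁.IsHomogeneous (W.c + (m - 1)) := ((hm_hom _ _).mul hfh1.pderiv).neg
  have hb : b₁.IsHomogeneous (m - 1) := hfh1.pderiv
  have da : dh a₁ = -(W.g * pderiv 0 f) := by
    rw [map_neg, map_mul, dh_hm W.g_deg, ← hdf]
    exact congrArg (fun z => -(W.g * z)) (dh_pderiv 0 fh)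
  have db : dh b₁ = pderiv 1 f := by
    rw [← hdf]
    exact dh_pderiv 1 fh
  have hF1 : e (pderiv 1 f) ≠ 0 := fun h => hf1 ((he _).1 h)
  set τ := e (-(W.g * pderiv 0 f)) / e (pderiv 1 f) with hτ
  have hθ : φ a₁ / φ b₁ = T ^ W.c * τ := by
    rw [hs _ _ ha, hs _ _ hb, da, db, hτ, pow_add]
    field_simp
  have hb0 : φ b₁ ≠ 0 := by
    rw [hs _ _ hb, db]
    exact mul_ne_zero (pow_ne_zero _ hT) hF1
  set n := W.G.natDegree with hn
  have hroot : ∑ i ∈ Finset.range (n + 1), e (W.G.coeff i) * τ ^ i = 0 := by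
    have h1 := (he _).2 hI
    rw [map_sum] at h1
    apply mul_left_cancel₀ (pow_ne_zero n hF1)
    rw [mul_zero, ← h1, Finset.mul_sum]
    refine Finset.sum_congr rfl fun i hi => ?_
    have h2 : n = i + (n - i) := by have := Finset.mem_range.1 hi; omega
    rw [map_mul, map_mul, map_pow, map_pow, hτ, div_pow, ← hn]
    conv_lhs => rw [h2, pow_add]
    field_simp
  have hint : IsIntegral φ.range (T ^ W.c * τ) := by
    let p : (R3 L)[X] := Polynomial.X ^ n + ∑ i : Fin n,
      Polynomial.C (hm (W.c * (n - i)) (W.G.coeff i)) * Polynomial.X ^ (i : ℕ)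
    have hp : p.Monic := Polynomial.monic_X_pow_add (Polynomial.degree_sum_fin_lt _)
    refine ⟨p.map φ.rangeRestrict, hp.map _, ?_⟩
    rw [Polynomial.eval₂_map, show (algebraMap φ.range K).comp φ.rangeRestrict = φ from rfl]
    simp only [p, Polynomial.eval₂_add, Polynomial.eval₂_finsetSum, Polynomial.eval₂_mul,
      Polynomial.eval₂_C, Polynomial.eval₂_X_pow]
    rw [Finset.sum_range_succ, hn, W.monic.coeff_natDegree, map_one, one_mul, ← hn,
      Finset.sum_range] at hroot
    have h3 : ∀ i : Fin n, φ (hm (W.c * (n - i)) (W.G.coeff i)) * (T ^ W.c * τ) ^ (i : ℕ) =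
        T ^ (W.c * n) * (e (W.G.coeff i) * τ ^ (i : ℕ)) := fun i => by
      have h4 := W.fil i i.2.le
      have h5 : W.c * n = W.c * (n - i) + W.c * i := by
        rw [← mul_add, Nat.sub_add_cancel i.2.le]
      rw [hs _ _ (hm_hom _ _), dh_hm (by rw [← hn] at h4; omega), h5, pow_add, mul_pow, ← pow_mul]
      ring
    rw [Finset.sum_congr rfl fun i _ => h3 i, ← Finset.mul_sum, mul_pow, ← pow_mul, ← mul_add,
      add_comm, hroot, mul_zero]
  have key : ∀ k : ℕ, ∃ h : A2 L, h.totalDegree ≤ m + W.c * k ∧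
      f ∣ pderiv 1 f ^ k * h - pderiv 1 f * (-(W.g * pderiv 0 f)) ^ k := fun k => by
    have h1 := hCOND 3 m fh hfh1 hfh0 K φ hφ (a₁ ^ k) (b₁ ^ k)
      (by rw [map_pow]; exact pow_ne_zero _ hb0)
      (by rw [map_pow, map_pow, ← div_pow, hθ]; exact hint.pow k) 2
    have h2 : (b₁ * a₁ ^ k).IsHomogeneous ((m - 1) * k + (m - 1 + W.c * k)) := by
      have := hb.mul (ha.pow k)
      rwa [show m - 1 + (W.c + (m - 1)) * k = (m - 1) * k + (m - 1 + W.c * k) by ring] at this
    obtain ⟨y, -, hy, h3⟩ := exists_comp (𝒜 := homogeneousSubmodule (Fin 3) L) (I := ⊤)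
      (J := span {fh}) (Ideal.IsHomogeneous.top _) (hom_span hfh1) (g := b₁ ^ k)
      (x := b₁ * a₁ ^ k) (hb.pow k) h2 (by
        rw [Ideal.mul_top, sup_comm, ← Ideal.span_insert]
        exact h1)
    refine ⟨dh y, (deg_dh hy).trans (by omega), ?_⟩
    have h4 := map_dvd dh (Ideal.mem_span_singleton.1 h3)
    rw [hdf, map_sub, map_mul, map_mul, map_pow, map_pow, da, db] at h4
    rw [← dvd_neg, neg_sub]
    exact h4
  choose h hh using key
  exact ⟨h, hh⟩

end Pool.Agent.P.MP_6f117a_ag.Surf
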