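import Pool.Agent.P.MP_6f117a_ag.SIface

/-! Step RES1 of the proof for surfaces in projective three-space. -/

namespace Pool.Agent.P.MP_6f117a_ag.Surf

open MvPolynomial Module
open Ideal (span)
open scoped Polynomial WithZero

universe u

namespace Res1Aux

variable {L : Type u} [Field L]

/-- Integer bidegrees. -/
def Zd (G : U1 L) (u v : ℤ) : Prop :=
  G = 0 ∨ ∃ a b : ℕ, (a : ℤ) = u ∧ (b : ℤ) = v ∧ G ∈ bih L w1 (a, b)

theorem Zd.mul {G H : U1 L} {u v u' v' : ℤ} (h : Zd G u v) (h' : Zd H u' v') :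
    Zd (G * H) (u + u') (v + v') := by
  rcases h with h | ⟨a, b, h1, h2, h3⟩
  · left; rw [h, zero_mul]
  rcases h' with h' | ⟨a', b', h4, h5, h6⟩
  · left; rw [h', mul_zero]
  right
  exact ⟨a + a', b + b', by push_cast; rw [h1, h4], by push_cast; rw [h2, h5],
    SetLike.mul_mem_graded h3 h6⟩

theorem Zd.prod {ι : Type} (s : Finset ι) (G : ι → U1 L) (u v : ι → ℤ)
    (h : ∀ i, Zd (G i) (u i) (v i)) : Zd (∏ i ∈ s, G i) (∑ i ∈ s, u i) (∑ i ∈ s, v i) := by
  classical
  induction s using Finset.induction_on with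
  | empty =>
    right
    exact ⟨0, 0, by simp, by simp, by
      rw [Finset.prod_empty]; exact SetLike.one_mem_graded (bih L w1)⟩
  | insert i s hi ih =>
    rw [Finset.prod_insert hi, Finset.sum_insert hi, Finset.sum_insert hi]
    exact (h i).mul ih

theorem Zd.mem {G : U1 L} {a b : ℕ} (h : Zd G a b) : G ∈ bih L w1 (a, b) := by
  rcases h with h | ⟨a', b', h1, h2, h3⟩
  · rw [h]; exact zero_mem _
  · have e1 : a' = a := by exact_mod_cast h1
    have e2 : b' = b := by exact_mod_cast h2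
    rw [← e1, ← e2]; exact h3

theorem sum_fin (n : ℕ) : 2 * ∑ i : Fin n, ((i : ℕ) : ℤ) = n * (n - 1) := by
  induction n with
  | zero => simp
  | succ n ih =>
    rw [Fin.sum_univ_castSucc]
    simp only [Fin.val_castSucc, Fin.val_last]
    push_cast
    linear_combination ih

/-- Column degrees. -/
def col (q : ℕ) (a μ : ℤ) (j : Fin (q + 1 + q)) : ℤ :=
  j.addCases (fun j₁ => μ - a + a * (j₁ : ℕ)) fun j₁ => μ + a * (j₁ : ℕ)

theorem sum_col (q : ℕ) (a μ : ℤ) (σ : Equiv.Perm (Fin (q + 1 + q))) :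
    ∑ i, (col q a μ i - a * (σ i : ℕ)) = (2 * q + 1) * μ - a * (q + 1) ^ 2 := by
  rw [Finset.sum_sub_distrib, ← Finset.mul_sum,
    Equiv.sum_comp σ (fun i => ((i : ℕ) : ℤ)), Fin.sum_univ_add]
  simp only [col, Fin.addCases_left, Fin.addCases_right, Finset.sum_add_distrib,
    ← Finset.mul_sum, Finset.sum_const, Finset.card_univ, Fintype.card_fin, nsmul_eq_mul]
  have h1 := sum_fin (q + 1)
  have h2 := sum_fin q
  have h3 := sum_fin (q + 1 + q)
  have h4 : ∑ i : Fin (q + 1 + q), ((i : ℕ) : ℤ) =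
      ∑ i : Fin (q + 1), ((i : ℕ) : ℤ) + ∑ i : Fin q, ((i : ℕ) : ℤ) + q * (q + 1) := by
    push_cast at h1 h2 h3
    nlinarith
  rw [h4]
  push_cast
  ring

end Res1Aux

open Res1Aux in
theorem pRES1 (L : Type u) [Field L] [IsAlgClosed L] [CharZero L]
    (hSIG1 : S_SIG1 L) :
    S_RES1 L := by
  intro d F hF μ j p P hp hdeg hP
  have hs := hSIG1 d F hF
  obtain ⟨q, rfl⟩ : ∃ q, p = q + 1 := ⟨p - 1, by omega⟩
  have hP0 : P ≠ 0 := by
    intro h
    rw [h, Polynomial.natDegree_zero] at hdeg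
    omega
  have htop := hP (q + 1) (by rw [← hdeg]; exact Polynomial.leadingCoeff_ne_zero.mpr hP0)
  have hc : ∀ l : ℕ, Zd (P.coeff l) (μ - 3 * l) (j - 2 * l) := by
    intro l
    by_cases h : P.coeff l = 0
    · exact Or.inl h
    · obtain ⟨h1, h2, h3⟩ := hP l h
      exact Or.inr ⟨_, _, by push_cast [h1]; rfl, by push_cast [h2]; rfl, h3⟩
  have hc' : ∀ l : ℕ, Zd (P.derivative.coeff l) (μ - 3 - 3 * l) (j - 2 - 2 * l) := by
    intro l
    rw [Polynomial.coeff_derivative]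
    have h0 : Zd ((l : U1 L) + 1) 0 0 := by
      refine Or.inr ⟨0, 0, rfl, rfl, ?_⟩
      have := C_mem_bih (τ := Fin 3) w1 (isHomogeneous_C (Fin 4) ((l : L) + 1))
      simpa using this
    have := (hc (l + 1)).mul h0
    push_cast at this
    rw [show (μ : ℤ) - 3 - 3 * l = μ - 3 * (l + 1) + 0 by ring,
      show (j : ℤ) - 2 - 2 * l = j - 2 * (l + 1) + 0 by ring]
    simpa using this
  have hent : ∀ i k : Fin (q + 1 + q), Zd (Polynomial.sylvester P P.derivative (q + 1) q i k)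
      (col q 3 μ k - 3 * (i : ℕ)) (col q 2 j k - 2 * (i : ℕ)) := by
    intro i k
    refine Fin.addCases (fun k => ?_) (fun k => ?_) k
    · simp only [Polynomial.sylvester, Matrix.of_apply, col, Fin.addCases_left]
      split_ifs with h
      · have h1 : (k : ℕ) ≤ i := h.1
        have := hc' (i - k)
        push_cast [h1] at this
        rw [show (μ : ℤ) - 3 + 3 * (k : ℕ) - 3 * (i : ℕ) = μ - 3 - 3 * ((i : ℕ) - (k : ℕ)) by ring,
          show (j : ℤ) - 2 + 2 * (k : ℕ) - 2 * (i : ℕ) = j - 2 - 2 * ((i : ℕ) - (k : ℕ)) by ring]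
        exact this
      · exact Or.inl rfl
    · simp only [Polynomial.sylvester, Matrix.of_apply, col, Fin.addCases_right]
      split_ifs with h
      · have h1 : (k : ℕ) ≤ i := h.1
        have := hc (i - k)
        push_cast [h1] at this
        rw [show (μ : ℤ) + 3 * (k : ℕ) - 3 * (i : ℕ) = μ - 3 * ((i : ℕ) - (k : ℕ)) by ring,
          show (j : ℤ) + 2 * (k : ℕ) - 2 * (i : ℕ) = j - 2 * ((i : ℕ) - (k : ℕ)) by ring]
        exact this
      · exact Or.inl rfl
  have e1 : 3 * (q + 1) ^ 2 ≤ (2 * (q + 1) - 1) * μ := by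
    rw [show 2 * (q + 1) - 1 = 2 * q + 1 by omega]
    nlinarith [htop.1]
  have e2 : 2 * (q + 1) ^ 2 ≤ (2 * (q + 1) - 1) * j := by
    rw [show 2 * (q + 1) - 1 = 2 * q + 1 by omega]
    nlinarith [htop.2.1]
  have hres : Polynomial.resultant P P.derivative (q + 1) (q + 1 - 1) ∈
      bih L w1 ((2 * (q + 1) - 1) * μ - 3 * (q + 1) ^ 2,
        (2 * (q + 1) - 1) * j - 2 * (q + 1) ^ 2) := by
    rw [Nat.add_sub_cancel, Polynomial.resultant, Matrix.det_apply']
    refine Submodule.sum_mem _ fun σ _ => ?_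
    rw [← zsmul_eq_mul]
    refine zsmul_mem ?_ _
    apply Zd.mem
    have := Zd.prod Finset.univ _ _ _ fun k => hent (σ k) k
    rw [sum_col, sum_col] at this
    rw [Nat.cast_sub e1, Nat.cast_sub e2, show 2 * (q + 1) - 1 = 2 * q + 1 by omega]
    push_cast
    exact this
  have hC : (C (dF F 2) : U1 L) ^ (q + 1) ^ 2 ∈ bih L w1 (0, (d - 1) * (q + 1) ^ 2) := by
    rw [← map_pow]
    exact C_mem_bih w1 ((hs.dF_hom 2).pow _)
  have := SetLike.mul_mem_graded hC hres
  rw [Prod.mk_add_mk, zero_add, add_comm ((d - 1) * (q + 1) ^ 2)] at this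
  exact this

end Pool.Agent.P.MP_6f117a_ag.Surf
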