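import Pool.Agent.P.MP_6f117a_ag.SIface

/-! Step RES2 of the proof for surfaces in projective three-space. -/

namespace Pool.Agent.P.MP_6f117a_ag.Surf

open MvPolynomial Module
open Ideal (span)
open scoped Polynomial WithZero

universe u

theorem res_ne_res2 {K : Type u} [Field K] [CharZero K] {π : K[X][X]} (hπ : Irreducible π)
    (h : 1 ≤ π.natDegree) :
    Polynomial.resultant π π.derivative π.natDegree (π.natDegree - 1) ≠ 0 := by
  let φ := algebraMap K[X] (FractionRing K[X])
  have hφ : Function.Injective φ := IsFractionRing.injective _ _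
  have h1 : Irreducible (π.map φ) :=
    (hπ.isPrimitive (by omega)).irreducible_iff_irreducible_map_fraction_map.1 hπ
  have h2 := Polynomial.resultant_ne_zero _ _ h1.separable
  rw [Polynomial.natDegree_derivative, Polynomial.natDegree_map_eq_of_injective hφ,
    Polynomial.derivative_map, Polynomial.resultant_map_map] at h2
  intro h0
  exact h2 (by rw [h0, map_zero])

theorem pRES2 (L : Type u) [Field L] [IsAlgClosed L] [CharZero L]
    (hSIG1 : S_SIG1 L) :
    S_RES2 L := by
  intro d F hF γ π μ j P hP hπ hdeg hmem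
  have h1 := hSIG1 d F hF
  have : CharZero γ.K := charZero_of_injective_algebraMap (algebraMap L γ.K).injective
  have hC : (C (dF F 2) : U1 L) ∉ K1 F := by
    rw [h1.free_mem_K1 0 (C (dF F 2)) ((kill1 (S L) 0).commutes _)]
    intro h
    exact h1.not_dvd_dF 2 ((C_dvd_iff_dvd_coeff _ _).1 h 0 |>.trans (by rw [coeff_zero_C]))
  have hR := (h1.K1_prime.mem_or_mem hmem).resolve_left
    fun h => hC (h1.K1_prime.mem_of_pow_mem _ h)
  have hmap : P.map (kill1 (S L) 2 : U1 L →+* U1 L) = P := by
    ext1 l
    rw [Polynomial.coeff_map]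
    exact hP.free l
  have hfree := Polynomial.resultant_map_map P P.derivative π.natDegree (π.natDegree - 1)
    (kill1 (S L) 2 : U1 L →+* U1 L)
  rw [← Polynomial.derivative_map, hmap] at hfree
  obtain ⟨y, hy⟩ := (h1.free_mem_K1 2 _ hfree.symm).1 hR
  obtain ⟨D, hD, hspec⟩ := hP.spec
  let ψ : U1 L →+* γ.K[X] := (Polynomial.mapRingHom γ.e0).comp (sp1 (S L)).toRingHom
  have hψ : P.map ψ = Polynomial.C (Polynomial.C D) * π := by
    rw [← hspec, ← Polynomial.map_map]
    rfl
  have hψF : ψ (C F) = 0 := by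
    have e : γ.e0 F = 0 := (γ.ker d F hF.hom).2 dvd_rfl
    simp [ψ, e]
  have h2 := Polynomial.resultant_map_map P P.derivative π.natDegree (π.natDegree - 1) ψ
  rw [← Polynomial.derivative_map, hψ, hy, map_mul ψ, hψF, zero_mul, Polynomial.derivative_C_mul,
    Polynomial.resultant_C_mul_left, Polynomial.resultant_C_mul_right] at h2
  have hD' : (Polynomial.C D : γ.K[X]) ≠ 0 := Polynomial.C_ne_zero.2 hD
  exact mul_ne_zero (pow_ne_zero _ hD') (mul_ne_zero (pow_ne_zero _ hD') (res_ne_res2 hπ hdeg)) h2

end Pool.Agent.P.MP_6f117a_ag.Surf
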