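import Pool.Agent.P.MP_6f117a_ag.SIface

/-! Step RES3 of the proof for surfaces in projective three-space. -/

namespace Pool.Agent.P.MP_6f117a_ag.Surf

open MvPolynomial Module
open Ideal (span)
open scoped Polynomial WithZero

universe u

namespace Res3

theorem det_mem_pow {R : Type u} [CommRing R] (N : Ideal R) {n : ℕ} (M : Matrix (Fin n) (Fin n) R)
    (h : ∀ i j, M i j ∈ N) : M.det ∈ N ^ n := by
  rw [Matrix.det_apply]
  refine Ideal.sum_mem _ fun σ _ => ?_
  have := Ideal.prod_mem_prod (s := Finset.univ) (I := fun _ : Fin n => N)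
    (x := fun i => M (σ i) i) fun i _ => h _ _
  rw [Finset.prod_const, Finset.card_univ, Fintype.card_fin] at this
  rw [Units.smul_def, zsmul_eq_mul]
  exact Ideal.mul_mem_left _ _ this

theorem res_mem_pow {R : Type u} [CommRing R] (N : Ideal R) (f g : R[X]) (m n : ℕ)
    (hf : ∀ l, f.coeff l ∈ N) (hg : ∀ l, g.coeff l ∈ N) :
    Polynomial.resultant f g m n ∈ N ^ (m + n) := by
  refine det_mem_pow N _ fun i j => ?_
  induction j using Fin.addCases with
  | left j =>
    simp only [Polynomial.sylvester, Matrix.of_apply, Fin.addCases_left]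
    split_ifs
    exacts [hg _, N.zero_mem]
  | right j =>
    simp only [Polynomial.sylvester, Matrix.of_apply, Fin.addCases_right]
    split_ifs
    exacts [hf _, N.zero_mem]

theorem sup_pow_le {R : Type u} [CommRing R] (A K : Ideal R) (n : ℕ) :
    (A ⊔ K) ^ n ≤ A ^ n ⊔ K := by
  induction n with
  | zero => simp
  | succ n ih =>
    rw [pow_succ, pow_succ]
    refine (Ideal.mul_mono ih le_rfl).trans ?_
    rw [Ideal.sup_mul, Ideal.mul_sup]
    exact sup_le (sup_le le_sup_left ((Ideal.mul_le_inf.trans inf_le_right).trans le_sup_right))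
      ((Ideal.mul_le_inf.trans inf_le_left).trans le_sup_right)

theorem mul_res_mem {R : Type u} [CommRing R] (B A K : Ideal R) (Q : R[X]) (m n : ℕ)
    (h : ∀ b ∈ B, ∀ l, b * Q.coeff l ∈ A ⊔ K) {g : R} (hg : g ∈ B ^ (m + n)) :
    g * Polynomial.resultant Q Q.derivative m n ∈ A ^ (m + n) ⊔ K := by
  have h1 : ∀ l, Q.coeff l ∈ span (Set.range Q.coeff) := fun l => Ideal.subset_span ⟨l, rfl⟩
  have h2 := res_mem_pow _ Q Q.derivative m n h1 fun l => by
    rw [Polynomial.coeff_derivative]
    exact Ideal.mul_mem_right _ _ (h1 _)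
  have h3 : B * span (Set.range Q.coeff) ≤ A ⊔ K := by
    rw [Ideal.mul_le]
    intro b hb c hc
    induction hc using Submodule.span_induction with
    | mem c hc =>
      obtain ⟨l, rfl⟩ := hc
      exact h b hb l
    | zero => simp
    | add x y _ _ hx hy => rw [mul_add]; exact add_mem hx hy
    | smul r x _ hx => rw [smul_eq_mul, mul_left_comm]; exact Ideal.mul_mem_left _ _ hx
  have h4 := Ideal.mul_mem_mul hg h2
  rw [← mul_pow] at h4
  exact sup_pow_le A K _ (Ideal.pow_right_mono h3 _ h4)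

theorem cancel_X {R σ : Type*} [CommRing R] (I : Ideal R) (j : σ) (n : ℕ) (G : MvPolynomial σ R)
    (h : X j ^ n * G ∈ I.map (C : R →+* MvPolynomial σ R)) :
    G ∈ I.map (C : R →+* MvPolynomial σ R) := by
  induction n with
  | zero => simpa using h
  | succ n ih =>
    apply ih
    rw [pow_succ', mul_assoc, MvPolynomial.mem_map_C_iff] at h
    rw [MvPolynomial.mem_map_C_iff]
    intro m
    have := h (Finsupp.single j 1 + m)
    rwa [coeff_X_mul] at this

theorem hom_comp {R T : Type u} [CommRing R] [CommRing T] (ι : R →+* T) (s : T →+* T)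
    (x : T →+* R[X]) (σ : R →+* R) (P : R[X]) (η : T) (q : R[X])
    (h1 : ∀ G, x (s (ι G)) = Polynomial.C (σ G)) (h2 : x (s η) = q) :
    x (s (P.eval₂ ι η)) = (P.map σ).comp q := by
  rw [Polynomial.hom_eval₂, Polynomial.hom_eval₂, Polynomial.comp, Polynomial.eval₂_map, h2]
  congr 1
  exact RingHom.ext h1

variable {A : Type u} [CommRing A]

/-- Keep one second order variable. -/
noncomputable def xi (A : Type u) [CommRing A] (k : Fin 3) :
    MvPolynomial T2 A →+* (MvPolynomial (Fin 3) A)[X] :=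
  eval₂Hom (Polynomial.C.comp C) (Sum.elim (fun j => Polynomial.C (X j))
    fun j => if j = k + 2 then Polynomial.X else 0)

theorem xi_C (k : Fin 3) (a : A) : xi A k (C a) = Polynomial.C (C a) := by
  simp [xi]

theorem xi_inc (k : Fin 3) (G : MvPolynomial (Fin 3) A) : xi A k (inc A G) = Polynomial.C G := by
  induction G using MvPolynomial.induction_on with
  | C a => simp [xi, inc]
  | add p q hp hq => rw [map_add, map_add, hp, hq, map_add]
  | mul_X p j hp =>
    rw [map_mul, map_mul, hp, map_mul]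
    simp [xi, inc]

theorem xi_eta (k : Fin 3) : xi A k (eta A k) = Polynomial.C (X (k + 1)) * Polynomial.X := by
  have : k + 1 ≠ k + 2 := by revert k; decide
  simp [xi, eta, this]

end Res3

open Res3 in
theorem pRES3 (L : Type u) [Field L] [IsAlgClosed L] [CharZero L]
    (hSIG1 : S_SIG1 L) (hSIG2 : S_SIG2 L) (hSIG3 : S_SIG3 L) (hRESC : S_RESC.{u}) (hRES1 : S_RES1 L) :
    S_RES3 L := by
  intro d F hF μ j p P f hp hP _ hc g hg k
  have s1 := hSIG1 d F hF
  have s2 := hSIG2 d F hF
  obtain ⟨t, -, -, ht⟩ := (hSIG3 d F hF).sig_eta k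
  have hdF : ∀ i, dF F i ≠ 0 := fun i h => s1.not_dvd_dF i (h ▸ dvd_zero _)
  set β : U1 L := C (dF F k ^ 5 * dF F 2) * X (k + 1) with hβ
  have hβ0 : β ≠ 0 :=
    mul_ne_zero (C_ne_zero.mpr (mul_ne_zero (pow_ne_zero _ (hdF k)) (hdF 2))) (X_ne_zero _)
  set σ : U1 L →+* U1 L := (sig1 F k).toRingHom with hσ
  set Q : (U1 L)[X] := (P.map σ).comp (Polynomial.C β * Polynomial.X + Polynomial.C t) with hQ
  have hxi : xi (S L) k (sig F k (piOf P)) = Q := by
    refine hom_comp (inc (S L)).toRingHom (sig F k).toRingHom (xi (S L) k) σ P _ _ (fun G => ?_) ?_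
    · exact (congrArg (xi (S L) k) (s2.sig_inc k G)).trans (xi_inc k _)
    · refine (congrArg (xi (S L) k) ht).trans ?_
      rw [map_add, map_mul, xi_C, xi_eta, xi_inc, hβ, Polynomial.C_mul, mul_assoc]
  have hB : ∀ b ∈ (bI F (piOf P) f).map (C : S L →+* U1 L), ∀ l,
      b * Q.coeff l ∈ span {(C f : U1 L)} ⊔ span {C F} := by
    intro b hb l
    induction hb using Submodule.span_induction with
    | mem b hb =>
      obtain ⟨g, hg, rfl⟩ := hb
      have h1 : C g * piOf P ∈ span {C f} ⊔ KK F := by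
        simpa [bI, Submodule.mem_colon_singleton] using hg
      obtain ⟨a, ha, κ, hκ, e⟩ := Submodule.mem_sup.mp h1
      obtain ⟨a, rfl⟩ := Ideal.mem_span_singleton'.mp ha
      obtain ⟨c, hc⟩ := (s2.mem_KK k κ).mp hκ
      have e1 : ∀ s : S L, sig F k (C s) = C s := fun s => (sig F k).commutes s
      have e2 := congrArg (fun G => (xi (S L) k (sig F k G)).coeff l) e
      simp only [map_add, map_mul, e1, hc, xi_C, hxi, Polynomial.coeff_add, Polynomial.coeff_C_mul,
        Polynomial.coeff_mul_C] at e2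
      rw [← e2]
      exact add_mem (Ideal.mem_sup_left (Ideal.mul_mem_left _ _ (Ideal.mem_span_singleton_self _)))
        (Ideal.mem_sup_right (Ideal.mul_mem_right _ _ (Ideal.mem_span_singleton_self _)))
    | zero => simp
    | add x y _ _ hx hy => rw [add_mul]; exact add_mem hx hy
    | smul r x _ hx => rw [smul_eq_mul, mul_assoc]; exact Ideal.mul_mem_left _ _ hx
  have hn : 2 * p - 1 = p + (p - 1) := by omega
  have h1 := mul_res_mem _ _ _ Q p (p - 1) hB (g := C g) (by
    rw [← hn, ← Ideal.map_pow]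
    exact Ideal.mem_map_of_mem _ hg)
  have h2 : Polynomial.resultant Q Q.derivative p (p - 1) =
      β ^ p ^ 2 * σ (Polynomial.resultant P P.derivative p (p - 1)) := by
    have e : Q.derivative = Polynomial.C β * (P.derivative.map σ).comp
        (Polynomial.C β * Polynomial.X + Polynomial.C t) := by
      rw [hQ, Polynomial.derivative_comp, Polynomial.derivative_map]
      simp
    rw [e, Polynomial.resultant_C_mul_right, hQ, hRESC _ _ _ p (p - 1) β t hβ0
      (Polynomial.natDegree_map_le.trans hP.le)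
      (Polynomial.natDegree_map_le.trans (hP ▸ Polynomial.natDegree_derivative_le P)),
      Polynomial.resultant_map_map, ← mul_assoc, ← pow_add]
    congr 2
    obtain ⟨q, rfl⟩ : ∃ q, p = q + 1 := ⟨p - 1, by omega⟩
    simp only [Nat.add_sub_cancel]
    ring
  have h3 : sig1 F k (disc F P p) =
      C (dF F 2) ^ p ^ 2 * σ (Polynomial.resultant P P.derivative p (p - 1)) := by
    have e1 : ∀ s : S L, sig1 F k (C s) = C s := fun s => (sig1 F k).commutes s
    rw [disc, map_mul, map_pow, e1]
    rfl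
  have e3 : (span {(C f : U1 L)} ^ (p + (p - 1)) ⊔ span {C F}) =
      (span {f ^ (2 * p - 1)} ⊔ span {F}).map (C : S L →+* U1 L) := by
    rw [Ideal.map_sup, Ideal.map_span, Ideal.map_span, Set.image_singleton, Set.image_singleton,
      Ideal.span_singleton_pow, map_pow, hn]
  have h4 : C (dF F k) ^ (5 * p ^ 2) * (C g * sig1 F k (disc F P p)) ∈
      (span {f ^ (2 * p - 1)} ⊔ span {F}).map (C : S L →+* U1 L) := by
    refine cancel_X _ (k + 1) (p ^ 2) _ ?_
    rw [h2, e3] at h1
    convert h1 using 1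
    rw [h3, hβ, map_mul, map_pow]
    ring
  have h5 := s1.sig1_sub k _ _ _ (hRES1 d F hF μ j p P hp hP hc)
  set a := (2 * p - 1) * μ - 3 * p ^ 2
  refine ⟨5 * p ^ 2 + 2 * a, ?_⟩
  have h6 : (span {f ^ (2 * p - 1)} ⊔ span {F}).map (C : S L →+* U1 L) ≤
      span {C (f ^ (2 * p - 1))} ⊔ K1 F := by
    rw [Ideal.map_sup, Ideal.map_span, Ideal.map_span, Set.image_singleton, Set.image_singleton]
    exact sup_le_sup_left (le_sup_right.trans s1.le_K1) _
  have h7 : sig1 F k (disc F P p) - C (dF F k) ^ (2 * a) * disc F P p ∈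
      span {C (f ^ (2 * p - 1))} ⊔ K1 F := Ideal.mem_sup_right (s1.le_K1 (Ideal.mem_sup_left h5))
  have h8 := sub_mem (h6 h4) (Ideal.mul_mem_left _ (C (dF F k) ^ (5 * p ^ 2) * C g) h7)
  convert h8 using 1
  ring

end Pool.Agent.P.MP_6f117a_ag.Surf
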