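import Pool.Agent.P.MP_6f117a_ag.SIface

/-! Step SIG2 of the proof for surfaces in projective three-space. -/

namespace Pool.Agent.P.MP_6f117a_ag.Surf

open MvPolynomial Module
open Ideal (span)
open scoped Polynomial WithZero

universe u

namespace Sig2A

variable {L : Type u} [Field L] {τ τ' : Type}

theorem monomial_eq {A : Type u} [CommRing A] (m : τ →₀ ℕ) (s : A) :
    monomial m s = C s * monomial m 1 := by rw [C_mul_monomial, mul_one]

/-- an algebra map that respects the bigrading up to a shift on the generators -/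
theorem map_bih {wt : τ → ℕ} {wt' : τ' → ℕ} {k : ℕ} (φ : Jet τ L →ₐ[S L] Jet τ' L)
    (h : ∀ j, φ (X j) ∈ bih L wt' (wt j, 1 + k * wt j)) {a b : ℕ} {G : Jet τ L}
    (hG : G ∈ bih L wt (a, b)) : φ G ∈ bih L wt' (a, b + k * a) := by
  have key : ∀ m : τ →₀ ℕ, φ (monomial m 1) ∈
      bih L wt' (Finsupp.weight wt m, m.degree + k * Finsupp.weight wt m) := fun m => by
    induction m using Finsupp.induction_linear with
    | zero =>
      have : (1 : Jet τ' L) ∈ bih L wt' (0, 0) := SetLike.one_mem_graded (bih L wt')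
      simpa using this
    | add x y hx hy =>
      have := SetLike.mul_mem_graded hx hy
      rw [← map_mul, monomial_mul, one_mul, Prod.mk_add_mk] at this
      rw [map_add, map_add, show x.degree + y.degree + k * (Finsupp.weight wt x + Finsupp.weight wt y) =
        x.degree + k * Finsupp.weight wt x + (y.degree + k * Finsupp.weight wt y) by ring]
      exact this
    | single j c =>
      have := SetLike.pow_mem_graded c (h j)
      rw [← map_pow, X_pow_eq_monomial, Prod.smul_mk, smul_eq_mul, smul_eq_mul] at this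
      rw [Finsupp.weight_single, Finsupp.degree_single, smul_eq_mul,
        show c + k * (c * wt j) = c * (1 + k * wt j) by ring]
      exact this
  rw [G.as_sum, map_sum]
  refine Submodule.sum_mem _ fun m hm => ?_
  obtain ⟨h1, h2, h3⟩ := mem_bih'.1 hG m (mem_support_iff.1 hm)
  have := SetLike.mul_mem_graded (C_mem_bih wt' h3) (key m)
  rw [Prod.mk_add_mk, zero_add, h1, ← add_assoc, Nat.sub_add_cancel h2] at this
  rw [monomial_eq, map_mul, algHom_C]
  exact this

theorem scale_monomial {A R : Type u} [CommRing A] [CommRing R] [Algebra A R] {wt : τ → ℕ}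
    (φ ψ : MvPolynomial τ A →ₐ[A] R) {c : R} (h : ∀ j, φ (X j) = c ^ wt j * ψ (X j)) (m : τ →₀ ℕ)
    (s : A) : φ (monomial m s) = c ^ Finsupp.weight wt m * ψ (monomial m s) := by
  have key : ∀ m : τ →₀ ℕ, φ (monomial m 1) = c ^ Finsupp.weight wt m * ψ (monomial m 1) :=
    fun m => by
    induction m using Finsupp.induction_linear with
    | zero => simp
    | add x y hx hy =>
      rw [← one_mul (1 : A), ← monomial_mul, map_mul, map_mul, hx, hy, map_add]; ring
    | single j n =>
      rw [← X_pow_eq_monomial, map_pow, map_pow, h, Finsupp.weight_single, smul_eq_mul]; ring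
  rw [monomial_eq, map_mul, map_mul, algHom_C, algHom_C, key]; ring

/-- two algebra maps that differ by a scaling of the generators -/
theorem scale_bih {R : Type u} [CommRing R] [Algebra (S L) R] {wt : τ → ℕ}
    (φ ψ : Jet τ L →ₐ[S L] R) {c : R} (h : ∀ j, φ (X j) = c ^ wt j * ψ (X j)) {a b : ℕ}
    {G : Jet τ L} (hG : G ∈ bih L wt (a, b)) : φ G = c ^ a * ψ G := by
  rw [G.as_sum, map_sum, map_sum, Finset.mul_sum]
  refine Finset.sum_congr rfl fun m hm => ?_
  rw [scale_monomial φ ψ h, (mem_bih'.1 hG m (mem_support_iff.1 hm)).1]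

/-- the preimage of a homogeneous ideal under a map that shifts degrees injectively -/
theorem hom_comap {R R' : Type u} [CommRing R] [CommRing R'] [Algebra L R] [Algebra L R']
    {ι : Type} [DecidableEq ι] [AddCommMonoid ι] {𝒜 : ι → Submodule L R} {ℬ : ι → Submodule L R'}
    [GradedAlgebra 𝒜] [GradedAlgebra ℬ] {Φ : Type u} [FunLike Φ R R'] [RingHomClass Φ R R'] (φ : Φ)
    {σ : ι → ι} (hσ : Function.Injective σ) (h : ∀ i, ∀ x ∈ 𝒜 i, φ x ∈ ℬ (σ i)) {J : Ideal R'}
    (hJ : J.IsHomogeneous ℬ) : (J.comap φ).IsHomogeneous 𝒜 := by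
  intro i r hr
  have key : ∀ r : R, φ (DirectSum.decompose 𝒜 r i : R) =
      (DirectSum.decompose ℬ (φ r) (σ i) : R') := fun r => by
    induction r using DirectSum.Decomposition.inductionOn 𝒜 with
    | zero => simp
    | @homogeneous j x =>
      by_cases e : j = i
      · subst e
        rw [DirectSum.decompose_of_mem_same 𝒜 x.2, DirectSum.decompose_of_mem_same ℬ (h _ _ x.2)]
      · rw [DirectSum.decompose_of_mem_ne 𝒜 x.2 e,
          DirectSum.decompose_of_mem_ne ℬ (h _ _ x.2) (hσ.ne e), map_zero]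
    | add x y hx hy =>
      simp only [map_add, DirectSum.decompose_add, DirectSum.add_apply, Submodule.coe_add, hx, hy]
  rw [Ideal.mem_comap, key]
  exact hJ _ hr

theorem proj_monomial {A : Type u} [CommRing A] (κ : MvPolynomial τ A →ₐ[A] MvPolynomial τ A)
    (h : ∀ j, κ (X j) = 0 ∨ κ (X j) = X j) (m : τ →₀ ℕ) (s : A) :
    κ (monomial m s) = 0 ∨ κ (monomial m s) = monomial m s := by
  have key : ∀ m : τ →₀ ℕ, κ (monomial m 1) = 0 ∨ κ (monomial m 1) = monomial m 1 := fun m => by
    induction m using Finsupp.induction_linear with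
    | zero => right; simp
    | add x y hx hy =>
      rw [← one_mul (1 : A), ← monomial_mul, map_mul]
      rcases hx with hx | hx
      · left; rw [hx, zero_mul]
      rcases hy with hy | hy
      · left; rw [hy, mul_zero]
      · right; rw [hx, hy]
    | single j n =>
      rw [← X_pow_eq_monomial, map_pow]
      rcases Nat.eq_zero_or_pos n with rfl | hn
      · right; simp
      rcases h j with e | e
      · left; rw [e, zero_pow hn.ne']
      · right; rw [e]
  rw [monomial_eq, map_mul, algHom_C, algebraMap_eq]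
  rcases key m with e | e
  · left; rw [e, mul_zero]
  · right; rw [e]

theorem coeff_proj {A : Type u} [CommRing A] {wt : τ → ℕ}
    (κ ψ : MvPolynomial τ A →ₐ[A] MvPolynomial τ A) (h : ∀ j, κ (X j) = 0 ∨ κ (X j) = X j) {c : A}
    (h' : ∀ j, (ψ.comp κ) (X j) = C c ^ wt j * κ (X j)) (G : MvPolynomial τ A) (m : τ →₀ ℕ) :
    coeff m (ψ (κ G)) = c ^ Finsupp.weight wt m * coeff m (κ G) := by
  classical
  induction G using MvPolynomial.induction_on' with
  | monomial n s =>
    rw [← AlgHom.comp_apply, scale_monomial _ _ h', ← map_pow, coeff_C_mul]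
    rcases proj_monomial κ h n s with e | e
    · rw [e]; simp
    · rw [e, coeff_monomial]
      split_ifs with e
      · rw [e]
      · simp
  | add p q hp hq => simp only [map_add, coeff_add, hp, hq, mul_add]

theorem inc_X (j : Fin 3) : inc (S L) (X j) = X (.inl j) := rename_X _ _

theorem inc_C (s : S L) : inc (S L) (C s) = C s := algHom_C _ _

theorem dvd_inc {F : S L} {H : U1 L} : C F ∣ inc (S L) H ↔ C F ∣ H := by
  refine ⟨fun h => ?_, fun h => inc_C F ▸ map_dvd (inc (S L)) h⟩
  have e : (aeval (Sum.elim X fun _ => 0) : U L →ₐ[S L] U1 L).comp (inc (S L)) =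
      AlgHom.id _ _ := algHom_ext fun j => by simp [inc_X]
  have := map_dvd (aeval (Sum.elim X fun _ => 0) : U L →ₐ[S L] U1 L) h
  rwa [algHom_C, ← AlgHom.comp_apply, e] at this

theorem inc_mem (p : ℕ × ℕ) (G : U1 L) (hG : G ∈ bih L w1 p) : inc (S L) G ∈ bih L w2 p := by
  have := map_bih (wt := w1) (wt' := w2) (k := 0) (inc (S L)) (fun j => by
    rw [inc_X, zero_mul]; exact X_mem_bih w2 (.inl j)) (a := p.1) (b := p.2) hG
  simpa using this

theorem inc_span {F : S L} {H : U1 L} (h : H ∈ span {ell1 F}) : inc (S L) H ∈ span {ell F} :=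
  Ideal.mem_span_singleton.2 (map_dvd (inc (S L)) (Ideal.mem_span_singleton.1 h))

theorem sig1_X (F : S L) (k j : Fin 3) : sig1 F k (X j) = C (dF F k) * om F k j := aeval_X _ _

theorem kill1_X (k j : Fin 3) : kill1 (S L) k (X j) = if j = k then 0 else X j := aeval_X _ _

theorem kill_inl (k j : Fin 3) : kill (S L) k (X (.inl j)) = if j = k then 0 else X (.inl j) :=
  aeval_X _ _

theorem kill_inr (k j : Fin 3) : kill (S L) k (X (.inr j)) = if j = k then 0 else X (.inr j) :=
  aeval_X _ _

theorem sig_inl (F : S L) (k j : Fin 3) :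
    sig F k (X (.inl j)) = inc (S L) (sig1 F k (X j)) := by
  rw [sig1_X]; exact aeval_X _ _

theorem sig_inr (F : S L) (k j : Fin 3) : sig F k (X (.inr j)) = if j = k then
    -(C (dF F k) ^ 3 * ∑ i ∈ Finset.univ.erase k, C (dF F i) * X (.inr i)) -
      C (dF F k) * inc (S L) (aeval (om F k) (hess F)) else C (dF F k) ^ 4 * X (.inr j) :=
  aeval_X _ _

theorem sig_inc (F : S L) (k : Fin 3) (G : U1 L) :
    sig F k (inc (S L) G) = inc (S L) (sig1 F k G) := by
  have : (sig F k).comp (inc (S L)) = (inc (S L)).comp (sig1 F k) := algHom_ext fun j => by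
    rw [AlgHom.comp_apply, AlgHom.comp_apply, inc_X, sig_inl]
  exact AlgHom.congr_fun this G

theorem kill_inc (k : Fin 3) (G : U1 L) :
    kill (S L) k (inc (S L) G) = inc (S L) (kill1 (S L) k G) := by
  have : (kill (S L) k).comp (inc (S L)) = (inc (S L)).comp (kill1 (S L) k) :=
    algHom_ext fun j => by
      rw [AlgHom.comp_apply, AlgHom.comp_apply, inc_X, kill_inl, kill1_X]
      split_ifs
      · rw [map_zero]
      · rw [inc_X]
  exact AlgHom.congr_fun this G

theorem kill1_om (F : S L) (k : Fin 3) (G : U1 L) :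
    kill1 (S L) k (aeval (om F k) G) = aeval (om F k) G := by
  have : (kill1 (S L) k).comp (aeval (om F k)) = aeval (om F k) := algHom_ext fun j => by
    rw [AlgHom.comp_apply, aeval_X, om]
    split_ifs with e
    · rw [map_neg, map_sum, Finset.sum_congr rfl fun i hi => by
        rw [map_mul, algHom_C, kill1_X, if_neg (Finset.ne_of_mem_erase hi), algebraMap_eq]]
    · rw [map_mul, algHom_C, kill1_X, if_neg e, algebraMap_eq]
  exact AlgHom.congr_fun this G

theorem ell1_eq (F : S L) (k : Fin 3) :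
    ell1 F = C (dF F k) * X k + ∑ i ∈ Finset.univ.erase k, C (dF F i) * X i :=
  (Finset.add_sum_erase _ (fun i => C (dF F i) * X i) (Finset.mem_univ k)).symm

theorem cee_eq (F : S L) (k : Fin 3) :
    cee F = C (dF F k) * X (.inr k) + ∑ i ∈ Finset.univ.erase k, C (dF F i) * X (.inr i) +
      inc (S L) (hess F) :=
  congrArg (· + inc (S L) (hess F)) (Finset.add_sum_erase _
    (fun i : Fin 3 => (C (dF F i) * X (Sum.inr i : T2) : U L)) (Finset.mem_univ k)).symm

theorem om_sub (F : S L) (k : Fin 3) {a b : ℕ} {G : U1 L} (hG : G ∈ bih L w1 (a, b)) :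
    aeval (om F k) G - C (dF F k) ^ a * G ∈ span {ell1 F} := by
  have := scale_bih ((Ideal.Quotient.mkₐ (S L) (span {ell1 F})).comp (aeval (om F k)))
    (Ideal.Quotient.mkₐ (S L) (span {ell1 F}))
    (c := Ideal.Quotient.mkₐ (S L) (span {ell1 F}) (C (dF F k))) (fun j => by
      rw [w1, pow_one, ← map_mul, AlgHom.comp_apply, aeval_X, Ideal.Quotient.mkₐ_eq_mk,
        Ideal.Quotient.eq, om]
      split_ifs with e
      · rw [Ideal.mem_span_singleton, e]
        exact ⟨-1, by rw [ell1_eq F k]; ring⟩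
      · rw [sub_self]
        exact Ideal.zero_mem _) hG
  rwa [← map_pow, ← map_mul, AlgHom.comp_apply, Ideal.Quotient.mkₐ_eq_mk,
    Ideal.Quotient.eq] at this

theorem sig_cee {d : ℕ} {F : S L} (s1 : Sig1 d F) (k : Fin 3) : sig F k (cee F) = 0 := by
  have h1 : ∀ i ∈ Finset.univ.erase k, sig F k (C (dF F i) * X (.inr i)) =
      C (dF F k) ^ 4 * (C (dF F i) * X (.inr i)) := fun i hi => by
    rw [map_mul, algHom_C, sig_inr, if_neg (Finset.ne_of_mem_erase hi), algebraMap_eq]; ring
  have h2 : sig1 F k (hess F) = C (dF F k) ^ 2 * aeval (om F k) (hess F) :=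
    scale_bih (sig1 F k) (aeval (om F k)) (fun j => by rw [w1, pow_one, sig1_X, aeval_X])
      s1.hess_mem
  rw [cee_eq F k, map_add, map_add, map_sum, Finset.sum_congr rfl h1, ← Finset.mul_sum, map_mul,
    algHom_C, sig_inr, if_pos rfl, algebraMap_eq, sig_inc, h2, map_mul, map_pow, inc_C]
  ring

theorem sig_sub {d : ℕ} {F : S L} (s1 : Sig1 d F) (k : Fin 3) {a b : ℕ} {G : U L}
    (hG : G ∈ bih L w2 (a, b)) :
    sig F k G - C (dF F k) ^ (2 * a) * G ∈ span {ell F} ⊔ span {cee F} := by
  have := scale_bih ((Ideal.Quotient.mkₐ (S L) (span {ell F} ⊔ span {cee F})).comp (sig F k))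
    (Ideal.Quotient.mkₐ (S L) (span {ell F} ⊔ span {cee F}))
    (c := Ideal.Quotient.mkₐ (S L) (span {ell F} ⊔ span {cee F}) (C (dF F k) ^ 2)) (fun j => by
      rw [← map_pow, ← map_mul, AlgHom.comp_apply, Ideal.Quotient.mkₐ_eq_mk, Ideal.Quotient.eq]
      rcases j with j | j
      · have h := inc_span (s1.sig1_sub k 1 1 (X j) (X_mem_bih w1 j))
        rw [map_sub, map_mul, map_pow, inc_C, inc_X] at h
        rw [sig_inl, ← pow_mul]
        exact Ideal.mem_sup_left h
      · rw [sig_inr, show w2 (.inr j) = 2 from rfl]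
        split_ifs with e
        · have h := inc_span (om_sub F k s1.hess_mem)
          rw [map_sub, map_mul, map_pow, inc_C] at h
          have h3 := sub_mem (Ideal.mem_sup_right (S := span {ell F}) (Ideal.mul_mem_left _
            (-C (dF F k) ^ 3) (Ideal.mem_span_singleton_self (cee F))))
            (Ideal.mem_sup_left (Ideal.mul_mem_left _ (C (dF F k)) h))
          rw [e]
          refine (congrArg (· ∈ span {ell F} ⊔ span {cee F}) ?_).mp h3
          rw [cee_eq F k]
          ring
        · rw [show C (dF F k) ^ 4 * X (.inr j) - (C (dF F k) ^ 2) ^ 2 * X (.inr j) = (0 : U L) by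
            ring]
          exact Ideal.zero_mem _) hG
  rwa [← map_pow, ← map_mul, AlgHom.comp_apply, Ideal.Quotient.mkₐ_eq_mk, Ideal.Quotient.eq,
    ← pow_mul] at this

theorem kill_sig {d : ℕ} {F : S L} (s1 : Sig1 d F) (k : Fin 3) (G : U L) :
    kill (S L) k (sig F k G) = sig F k G := by
  have : (kill (S L) k).comp (sig F k) = sig F k := algHom_ext fun j => by
    rw [AlgHom.comp_apply]
    rcases j with j | j
    · rw [sig_inl, kill_inc, s1.kill_sig1]
    · rw [sig_inr]
      split_ifs with e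
      · rw [map_sub, map_neg, map_mul, map_mul, map_pow, algHom_C, algebraMap_eq, kill_inc,
          kill1_om, map_sum, Finset.sum_congr rfl fun i hi => by
            rw [map_mul, algHom_C, kill_inr, if_neg (Finset.ne_of_mem_erase hi), algebraMap_eq]]
      · rw [map_mul, map_pow, algHom_C, kill_inr, if_neg e, algebraMap_eq]
  exact AlgHom.congr_fun this G

theorem sig_kill_X (F : S L) (k : Fin 3) (j : T2) : ((sig F k).comp (kill (S L) k)) (X j) =
    C (dF F k ^ 2) ^ w2 j * kill (S L) k (X j) := by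
  rw [AlgHom.comp_apply, map_pow]
  rcases j with j | j
  · rw [kill_inl, show w2 (.inl j) = 1 from rfl]
    split_ifs with e
    · simp
    · rw [sig_inl, sig1_X, om, if_neg e, map_mul, map_mul, inc_C, inc_X]; ring
  · rw [kill_inr, show w2 (.inr j) = 2 from rfl]
    split_ifs with e
    · simp
    · rw [sig_inr, if_neg e]; ring

theorem kill_or (k : Fin 3) (j : T2) :
    kill (S L) k (X j) = 0 ∨ kill (S L) k (X j) = X j := by
  rcases j with j | j
  · rw [kill_inl]; split_ifs <;> simp
  · rw [kill_inr]; split_ifs <;> simp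

theorem sig_mem {d : ℕ} {F : S L} (h2 : 2 ≤ d) (s1 : Sig1 d F) (k : Fin 3) (a b : ℕ) (G : U L)
    (hG : G ∈ bih L w2 (a, b)) : sig F k G ∈ bih L w2 (a, b + 2 * a * (d - 1)) := by
  have hd := s1.dF_hom
  rw [show 2 * a * (d - 1) = 2 * (d - 1) * a by ring]
  refine map_bih (sig F k) (fun j => ?_) hG
  rcases j with j | j
  · have := inc_mem _ _ (s1.sig1_mem k 1 1 (X j) (X_mem_bih w1 j))
    rw [sig_inl, show w2 (.inl j) = 1 from rfl, show 2 * (d - 1) * 1 = 2 * 1 * (d - 1) by ring]
    exact this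
  have cx : ∀ i j, C (dF F i) * X j ∈ bih L w1 (1, d) := fun i j => by
    have := SetLike.mul_mem_graded (C_mem_bih w1 (hd i)) (X_mem_bih w1 j)
    rwa [Prod.mk_add_mk, Nat.sub_add_cancel (by omega)] at this
  have cp : ∀ n, (C (dF F k) ^ n : U L) ∈ bih L w2 (0, n * (d - 1)) := fun n => by
    have := SetLike.pow_mem_graded n (C_mem_bih w2 (hd k))
    simpa using this
  rw [sig_inr, show w2 (.inr j) = 2 from rfl]
  split_ifs
  · refine sub_mem (neg_mem ?_) ?_
    · have h1 : ∑ i ∈ Finset.univ.erase k, (C (dF F i) * X (.inr i) : U L) ∈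
          bih L w2 (2, d - 1 + 1) := Submodule.sum_mem _ fun i _ =>
        SetLike.mul_mem_graded (C_mem_bih w2 (hd i)) (X_mem_bih w2 (.inr i))
      have := SetLike.mul_mem_graded (cp 3) h1
      rwa [Prod.mk_add_mk, zero_add,
        show 3 * (d - 1) + (d - 1 + 1) = 1 + 2 * (d - 1) * 2 by omega] at this
    · have h1 := map_bih (wt := w1) (wt' := w1) (k := d - 1) (aeval (om F k)) (fun j => by
        rw [aeval_X, w1, show 1 + (d - 1) * 1 = d by omega, om]
        split_ifs
        · exact neg_mem (Submodule.sum_mem _ fun i _ => cx i i)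
        · exact cx k j) s1.hess_mem
      have := SetLike.mul_mem_graded (C_mem_bih w2 (hd k)) (inc_mem _ _ h1)
      rwa [Prod.mk_add_mk, zero_add,
        show d - 1 + (d + (d - 1) * 2) = 1 + 2 * (d - 1) * 2 by omega] at this
  · have := SetLike.mul_mem_graded (cp 4) (X_mem_bih w2 (.inr j))
    rwa [Prod.mk_add_mk, zero_add, show 4 * (d - 1) + 1 = 1 + 2 * (d - 1) * 2 by omega] at this

end Sig2A

open Sig2A in
theorem pSIG2 (L : Type u) [Field L] [IsAlgClosed L] [CharZero L]
    (hSIG1 : S_SIG1 L) :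
    S_SIG2 L := by
  intro d F g
  have s1 := hSIG1 d F g
  have h2 := g.two
  have hd := s1.dF_hom
  have nd := s1.not_dvd_dF
  have smem := sig_mem h2 s1
  have sell : ∀ k, sig F k (ell F) = 0 := fun k => by rw [ell, sig_inc, s1.sig1_ell1, map_zero]
  have pr : Prime (C F : U L) := (prime_C_iff _).2 g.prime
  have hom : ∀ k, ((span {C F} : Ideal (U L)).comap (sig F k)).IsHomogeneous (bih L w2) :=
    fun k => hom_comap (𝒜 := bih L w2) (ℬ := bih L w2) (sig F k)
      (σ := fun p : ℕ × ℕ => (p.1, p.2 + 2 * p.1 * (d - 1)))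
      (fun p q e => by
        obtain ⟨e1, e2⟩ := Prod.ext_iff.1 e
        dsimp only at e1 e2
        rw [e1] at e2
        exact Prod.ext e1 (by omega))
      (fun p x hx => smem k p.1 p.2 x hx) (hom_span (C_mem_bih w2 g.hom))
  have pw : ∀ k a b, ∀ G ∈ bih L w2 (a, b), C F ∣ sig F k G →
      C (dF F k) ^ (2 * a) * G ∈ span {ell F} ⊔ span {cee F} ⊔ span {C F} := fun k a b G hG h => by
    have := sub_mem (Ideal.mem_sup_right (S := span {ell F} ⊔ span {cee F})
      (Ideal.mem_span_singleton.2 h)) (Ideal.mem_sup_left (sig_sub s1 k hG))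
    rwa [sub_sub_cancel] at this
  have le : ∀ k, span {ell F} ⊔ span {cee F} ⊔ span {C F} ≤
      (span {C F} : Ideal (U L)).comap (sig F k) := fun k => sup_le (sup_le
      ((Ideal.span_singleton_le_iff_mem _).2 (by rw [Ideal.mem_comap, sell]; exact zero_mem _))
      ((Ideal.span_singleton_le_iff_mem _).2 (by
        rw [Ideal.mem_comap, sig_cee s1]; exact zero_mem _)))
      ((Ideal.span_singleton_le_iff_mem _).2 (by
        rw [Ideal.mem_comap, algHom_C]; exact Ideal.mem_span_singleton_self _))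
  have cdvd : ∀ s : S L, (C F : U L) ∣ C s ↔ F ∣ s := fun s =>
    ⟨fun e => by simpa using (C_dvd_iff_dvd_coeff _ _).1 e 0, fun e => map_dvd C e⟩
  have chart : ∀ k l, (span {C F} : Ideal (U L)).comap (sig F k) ≤
      (span {C F} : Ideal (U L)).comap (sig F l) := fun k l =>
    le_of_hom (hom k) fun p G h hG => by
      have := le l (pw k p.1 p.2 G hG (Ideal.mem_span_singleton.1 h))
      rw [Ideal.mem_comap, Ideal.mem_span_singleton, map_mul, map_pow, algHom_C,
        algebraMap_eq] at this
      exact Ideal.mem_span_singleton.2 ((pr.dvd_or_dvd this).resolve_left fun e =>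
        nd k ((cdvd _).1 (pr.dvd_of_dvd_pow e)))
  have memK : ∀ k G, G ∈ KK F ↔ C F ∣ sig F k G := fun k G =>
    ⟨fun h => Ideal.mem_span_singleton.1 (chart 2 k h),
      fun h => chart k 2 (Ideal.mem_span_singleton.2 h)⟩
  refine ⟨inc_mem, inc_mem _ _ s1.ell1_mem, ?_, fun k => ?_,
    fun h => s1.not_dvd_ell1 (dvd_inc.1 h), fun h => nd 0 ?_, sell, sig_cee s1, sig_inc F, smem,
    fun k a b G hG => sig_sub s1 k hG, kill_sig s1, fun k a b G hG h => ?_, memK, hom 2, ?_,
    fun k G h => ?_, fun s => ?_, fun G => ?_, le 2, fun k G hG => ?_⟩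
  · refine add_mem (Submodule.sum_mem _ fun i _ => ?_) (inc_mem _ _ s1.hess_mem)
    have := SetLike.mul_mem_graded (C_mem_bih w2 (hd i)) (X_mem_bih w2 (.inr i))
    rwa [Prod.mk_add_mk, Nat.sub_add_cancel (by omega)] at this
  · exact sub_mem (SetLike.mul_mem_graded (X_mem_bih w2 (.inl _)) (X_mem_bih w2 (.inr _)))
      (SetLike.mul_mem_graded (X_mem_bih w2 (.inl _)) (X_mem_bih w2 (.inr _)))
  · have := map_dvd (aeval (R := S L) (Sum.elim (fun _ => 0) ![1, 0, 0] : T2 → S L)) h
    simpa [cee, hess, inc_X, Fin.sum_univ_three] using this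
  · have := scale_bih _ _ (sig_kill_X F k) hG
    rwa [AlgHom.comp_apply, h, map_pow, ← pow_mul] at this
  · have : (span {C F} : Ideal (U L)).IsPrime := (Ideal.span_singleton_prime pr.ne_zero).2 pr
    exact Ideal.IsPrime.comap _
  · rw [memK k]
    refine ⟨fun e => (C_dvd_iff_dvd_coeff _ _).2 fun m => ?_, fun e => ?_⟩
    · have h1 := (C_dvd_iff_dvd_coeff _ _).1 e m
      have h3 := coeff_proj _ _ (kill_or k) (sig_kill_X F k) G m
      rw [h] at h3
      rw [h3, ← pow_mul] at h1
      exact (g.prime.dvd_or_dvd h1).resolve_left fun e => nd k (g.prime.dvd_of_dvd_pow e)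
    · have := map_dvd (sig F k) e
      rwa [algHom_C] at this
  · rw [memK 2, algHom_C, algebraMap_eq, cdvd]
  · rw [memK 2, sig_inc, dvd_inc, s1.mem_K1 2]
  · have : KK F ≤ sat (fun _ => C (dF F k)) (span {ell F} ⊔ span {cee F} ⊔ span {C F}) :=
      le_of_hom (hom 2) fun p G h hG _ => ⟨_, pw k p.1 p.2 G hG ((memK k G).1 h)⟩
    exact this hG 0

end Pool.Agent.P.MP_6f117a_ag.Surf
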