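import Pool.Agent.P.MP_6f117a_ag.SIface

/-! Step SIG3 of the proof for surfaces in projective three-space. -/

namespace Pool.Agent.P.MP_6f117a_ag.Surf

open MvPolynomial Module
open Ideal (span)
open scoped Polynomial WithZero

universe u

namespace Sig3Aux

section

variable {A : Type u} [CommRing A]

theorem dl_inl (i : Fin 3) : dl A (X (.inl i)) = 0 := by simp [dl, mkDerivation_X]

theorem dl_inr (i : Fin 3) : dl A (X (.inr i)) = X (.inl i) := by simp [dl, mkDerivation_X]

theorem dl_C (s : A) : dl A (C s) = 0 := (dl A).map_algebraMap s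

theorem dl_mul (G H : MvPolynomial T2 A) : dl A (G * H) = G * dl A H + H * dl A G := by
  rw [Derivation.leibniz, smul_eq_mul, smul_eq_mul]

theorem dl_C_mul (s : A) (H : MvPolynomial T2 A) : dl A (C s * H) = C s * dl A H := by
  rw [dl_mul, dl_C, mul_zero, add_zero]

theorem dl_C_pow_mul (s : A) (n : ℕ) (H : MvPolynomial T2 A) :
    dl A (C s ^ n * H) = C s ^ n * dl A H := by
  rw [← map_pow, dl_C_mul]

theorem dl_eq (G : MvPolynomial T2 A) : dl A G = ∑ i, X (.inl i) * pderiv (.inr i) G := by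
  induction G using MvPolynomial.induction_on with
  | C s => simp
  | add p q hp hq => simp only [map_add, hp, hq, mul_add, Finset.sum_add_distrib]
  | mul_X p j hp =>
    rw [dl_mul, hp]
    rcases j with j | j
    · rw [dl_inl]
      simp [Fin.sum_univ_three, pderiv_X]
      ring
    · rw [dl_inr]
      fin_cases j <;> simp [Fin.sum_univ_three, pderiv_X, Pi.single_apply] <;> ring

theorem inc_X (i : Fin 3) : inc A (X i) = X (.inl i) := by simp [inc]

theorem inc_C (s : A) : inc A (C s) = C s := by simp [inc]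

theorem dl_inc (G : MvPolynomial (Fin 3) A) : dl A (inc A G) = 0 := by
  induction G using MvPolynomial.induction_on with
  | C s => rw [inc_C, dl_C]
  | add p q hp hq => rw [map_add, map_add, hp, hq, add_zero]
  | mul_X p j hp => rw [map_mul, dl_mul, hp, inc_X, dl_inl, mul_zero, mul_zero, add_zero]

theorem dl_eta (k : Fin 3) : dl A (eta A k) = 0 := by
  rw [eta, map_sub, dl_mul, dl_mul, dl_inl, dl_inl, dl_inr, dl_inr]
  ring

theorem kill_eta (k : Fin 3) : kill A k (eta A k) = eta A k := by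
  fin_cases k <;> simp [kill, eta]

end

variable {L : Type u} [Field L]

theorem dl_mem (a b : ℕ) (G : U L) (hG : G ∈ bih L w2 (a + 1, b)) :
    dl (S L) G ∈ bih L w2 (a, b) := by
  rw [G.as_sum, map_sum]
  refine Submodule.sum_mem _ fun m hm => ?_
  obtain ⟨h1, h2, h3⟩ := mem_bih'.1 hG m (mem_support_iff.1 hm)
  rw [dl_eq]
  refine Submodule.sum_mem _ fun i _ => ?_
  rw [pderiv_monomial]
  by_cases h0 : m (.inr i) = 0
  · simp [h0]
  have hm' : m = (m - Finsupp.single (.inr i) 1) + Finsupp.single (.inr i) 1 :=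
    (tsub_add_cancel_of_le (Finsupp.single_le_iff.2 (Nat.pos_of_ne_zero h0))).symm
  set m' := m - Finsupp.single (.inr i) 1
  have e1 : Finsupp.weight w2 m = Finsupp.weight w2 m' + 2 := by
    conv_lhs => rw [hm']
    simp [Finsupp.weight_single, w2]
  have e2 : m.degree = m'.degree + 1 := by
    conv_lhs => rw [hm']
    simp
  have h4 : (coeff m G * (m (.inr i) : S L)).IsHomogeneous (b - m.degree) := by
    have := h3.mul (isHomogeneous_C (Fin 4) (m (.inr i) : L))
    simpa using this
  have h5 := SetLike.mul_mem_graded (X_mem_bih (L := L) w2 (.inl i)) (monomial_mem_bih w2 m' h4)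
  have e3 : ((w2 (.inl i), 1) : ℕ × ℕ) + (Finsupp.weight w2 m', m'.degree + (b - m.degree)) =
      (a, b) := by
    have : w2 (.inl i) = 1 := rfl
    rw [Prod.mk_add_mk, this, Prod.mk.injEq]
    omega
  rwa [e3] at h5

theorem dl_zero (b : ℕ) (G : U L) (hG : G ∈ bih L w2 (0, b)) : dl (S L) G = 0 := by
  rw [G.as_sum, map_sum]
  refine Finset.sum_eq_zero fun m hm => ?_
  obtain ⟨h1, -, -⟩ := mem_bih'.1 hG m (mem_support_iff.1 hm)
  have h2 : m = 0 := by
    ext j
    have := Finsupp.le_weight w2 (s := j) (by have := one_le_w2 j; omega) m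
    rw [h1] at this
    simpa using this
  rw [h2]
  exact dl_C _

theorem sig_C (F : S L) (k : Fin 3) (s : S L) : sig F k (C s) = C s := (sig F k).commutes s

theorem dl_sig_X (F : S L) (k : Fin 3) (j : T2) :
    dl (S L) (sig F k (X j)) = C (dF F k) ^ 2 * sig F k (dl (S L) (X j)) := by
  rcases j with j | j
  · rw [dl_inl, map_zero, mul_zero, sig, aeval_X, Sum.elim_inl, dl_inc]
  · rw [dl_inr, sig, aeval_X, aeval_X, Sum.elim_inl, Sum.elim_inr, om]
    split_ifs with h
    · rw [map_sub, map_neg, dl_C_pow_mul, dl_C_mul, dl_inc, map_sum]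
      simp only [dl_C_mul, dl_inr, map_mul, map_neg, map_sum, inc_C, inc_X]
      ring
    · rw [dl_C_pow_mul, dl_inr]
      simp only [map_mul, inc_C, inc_X]
      ring

theorem dl_sig (F : S L) (k : Fin 3) (G : U L) :
    dl (S L) (sig F k G) = C (dF F k) ^ 2 * sig F k (dl (S L) G) := by
  induction G using MvPolynomial.induction_on with
  | C s => rw [sig_C, dl_C, map_zero, mul_zero]
  | add p q hp hq => simp only [map_add, hp, hq, mul_add]
  | mul_X p j hp =>
    rw [map_mul, dl_mul, hp, dl_sig_X, dl_mul, map_add, map_mul, map_mul]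
    ring

theorem eta_rel (F : S L) (k : Fin 3) :
    C (dF F (k + 1)) * eta (S L) (k + 2) - C (dF F (k + 2)) * eta (S L) (k + 1) +
      inc (S L) (hess F * X k) = X (.inl k) * cee F - X (.inr k) * ell F := by
  rw [map_mul, inc_X, cee, ell, ell1, map_sum]
  simp only [map_mul, inc_C, inc_X, Fin.sum_univ_three, eta]
  generalize inc (S L) (hess F) = H
  fin_cases k <;> simp <;> ring

theorem sig1_hess (F : S L) (k j : Fin 3) :
    sig1 F k (hess F * X j) = C (dF F k) * (C (dF F k) ^ 2 * aeval (om F k) (hess F * X j)) := by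
  simp only [sig1, hess, map_mul, aeval_X, aeval_C, algebraMap_eq, Fin.sum_univ_three,
    map_add]
  ring

theorem om_mem {d : ℕ} {F : S L} (h2 : 2 ≤ d) (h : ∀ i, (dF F i).IsHomogeneous (d - 1))
    (k j : Fin 3) : om F k j ∈ bih L w1 (1, d) := by
  have key : ∀ i i', (C (dF F i) * X i' : U1 L) ∈ bih L w1 (1, d) := fun i i' => by
    have := SetLike.mul_mem_graded (C_mem_bih w1 (h i)) (X_mem_bih (L := L) w1 i')
    have e : ((0, d - 1) : ℕ × ℕ) + (w1 i', 1) = (1, d) := by
      have : w1 i' = 1 := rfl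
      rw [Prod.mk_add_mk, this, Prod.mk.injEq]
      omega
    rwa [e] at this
  rw [om]
  split_ifs
  · exact Submodule.neg_mem _ (Submodule.sum_mem _ fun i _ => key i i)
  · exact key k j

theorem t_mem {d : ℕ} {F : S L} (h2 : 2 ≤ d) (h : ∀ i, (dF F i).IsHomogeneous (d - 1))
    (k j : Fin 3) : C (dF F k) ^ 2 * aeval (om F k) (hess F * X j) ∈
      bih L w1 (3, 2 + 6 * (d - 1)) := by
  have e : C (dF F k) ^ 2 * aeval (om F k) (hess F * X j) = ∑ i, ∑ i',
      C (dF F k ^ 2 * pderiv i'.succ (dF F i)) * om F k i * om F k i' * om F k j := by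
    simp only [hess, map_mul, map_sum, map_pow, aeval_X, aeval_C, algebraMap_eq, Finset.mul_sum,
      Finset.sum_mul]
    refine Finset.sum_congr rfl fun i _ => Finset.sum_congr rfl fun i' _ => ?_
    ring
  rw [e]
  refine Submodule.sum_mem _ fun i _ => Submodule.sum_mem _ fun i' _ => ?_
  have h3 : (dF F k ^ 2 * pderiv i'.succ (dF F i)).IsHomogeneous ((d - 1) * 2 + (d - 1 - 1)) :=
    ((h k).pow 2).mul (h i).pderiv
  have := SetLike.mul_mem_graded (SetLike.mul_mem_graded (SetLike.mul_mem_graded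
    (C_mem_bih w1 h3) (om_mem h2 h k i)) (om_mem h2 h k i')) (om_mem h2 h k j)
  have e2 : ((0, (d - 1) * 2 + (d - 1 - 1)) : ℕ × ℕ) + (1, d) + (1, d) + (1, d) =
      (3, 2 + 6 * (d - 1)) := by
    rw [Prod.mk_add_mk, Prod.mk_add_mk, Prod.mk_add_mk, Prod.mk.injEq]
    omega
  rwa [e2] at this

end Sig3Aux

open Sig3Aux in
theorem pSIG3 (L : Type u) [Field L] [IsAlgClosed L] [CharZero L]
    (hSIG1 : S_SIG1 L) (hSIG2 : S_SIG2 L) :
    S_SIG3 L := by
  intro d F hF
  have h1 := hSIG1 d F hF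
  have h2 := hSIG2 d F hF
  have hne : ∀ k, dF F k ≠ 0 := fun k e => h1.not_dvd_dF k (e ▸ dvd_zero _)
  have hC1 : ∀ k, (C (dF F k) : U1 L) ≠ 0 := fun k => by simpa using hne k
  have hC2 : ∀ k, (C (dF F k) : U L) ≠ 0 := fun k => by simpa using hne k
  have hkill : ∀ k j, kill1 (S L) k (C (dF F k) ^ 2 * aeval (om F k) (hess F * X j)) =
      C (dF F k) ^ 2 * aeval (om F k) (hess F * X j) := fun k j => by
    have := h1.kill_sig1 k (hess F * X j)
    rw [sig1_hess, map_mul, show kill1 (S L) k (C (dF F k)) = C (dF F k) from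
      (kill1 (S L) k).commutes _] at this
    exact mul_left_cancel₀ (hC1 k) this
  have hfree : ∀ k, sig F k (eta (S L) k) = C (dF F k) ^ (2 * 3) * eta (S L) k := fun k =>
    h2.sig_free k 3 2 _ (h2.eta_mem k) (kill_eta k)
  have hrel : ∀ k j, C (dF F (j + 1)) * sig F k (eta (S L) (j + 2)) -
      C (dF F (j + 2)) * sig F k (eta (S L) (j + 1)) + C (dF F k) *
        inc (S L) (C (dF F k) ^ 2 * aeval (om F k) (hess F * X j)) = 0 := fun k j => by
    have := congrArg (sig F k) (eta_rel F j)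
    rw [map_add, map_sub, map_sub, map_mul, map_mul, map_mul (sig F k), map_mul (sig F k),
      h2.sig_cee, h2.sig_ell, sig_C, sig_C, h2.sig_inc, sig1_hess, map_mul, inc_C] at this
    rw [this]
    ring
  refine ⟨dl_mem, dl_zero, dl_inc, dl_eta, dl_sig F, fun G hG => ?_, fun I s hI G hG i => ?_,
    eta_rel F, fun k => ?_⟩
  · obtain ⟨H, hH⟩ := (h2.mem_KK 2 G).1 hG
    have e := dl_sig F 2 G
    rw [hH, dl_C_mul] at e
    have hp : Prime (C F : U L) := (MvPolynomial.prime_C_iff _).2 hF.prime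
    have hd : (C F : U L) ∣ C (dF F 2) ^ 2 * sig F 2 (dl (S L) G) := ⟨_, e.symm⟩
    rcases hp.dvd_or_dvd hd with h | h
    · exact absurd ((C_dvd_iff_dvd_coeff _ _).1 (hp.dvd_of_dvd_pow h) 0)
        (by simpa using h1.not_dvd_dF 2)
    · exact (h2.mem_KK 2 _).2 h
  · obtain ⟨t, ht⟩ := hG i
    refine ⟨t, ?_⟩
    obtain ⟨y, hy, z, hz, e⟩ := Submodule.mem_sup.1 ht
    obtain ⟨c, rfl⟩ := Ideal.mem_span_singleton.1 hy
    have e2 := congrArg (dl (S L)) e
    rw [map_add, dl_C_mul, dl_C_pow_mul] at e2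
    rw [← e2]
    exact add_mem (Ideal.mem_sup_left (Ideal.mem_span_singleton.2 ⟨_, rfl⟩))
      (Ideal.mem_sup_right (hI z hz))
  · fin_cases k
    · refine ⟨_, t_mem hF.two h1.dF_hom 0 1, hkill 0 1, ?_⟩
      have e := hrel 0 1
      rw [show (1 : Fin 3) + 1 = 2 from rfl, show (1 : Fin 3) + 2 = 0 from rfl, hfree] at e
      apply mul_left_cancel₀ (hC2 0)
      simp only [Fin.zero_eta, map_mul (C : S L →+* U L), map_pow (C : S L →+* U L)]
      linear_combination -e
    · refine ⟨_, Submodule.neg_mem _ (t_mem hF.two h1.dF_hom 1 0),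
        by rw [map_neg]; exact congrArg Neg.neg (hkill 1 0), ?_⟩
      have e := hrel 1 0
      rw [show (0 : Fin 3) + 1 = 1 from rfl, show (0 : Fin 3) + 2 = 2 from rfl, hfree] at e
      apply mul_left_cancel₀ (hC2 1)
      simp only [Fin.mk_one, map_mul (C : S L →+* U L), map_pow (C : S L →+* U L), map_neg]
      linear_combination e
    · refine ⟨0, Submodule.zero_mem _, map_zero _, ?_⟩
      have e := hfree 2
      simp only [Fin.reduceFinMk, map_mul (C : S L →+* U L), map_pow (C : S L →+* U L), map_zero]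
      linear_combination e

end Pool.Agent.P.MP_6f117a_ag.Surf
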