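import Pool.Agent.P.MP_6f117a_ag.SIface

/-! Step SL1 of the proof for surfaces in projective three-space. -/

namespace Pool.Agent.P.MP_6f117a_ag.Surf

open MvPolynomial Module
open Ideal (span)
open scoped Polynomial WithZero

universe u

section

variable {L : Type u} [Field L]

theorem fr_sup_sl1 {E : Type u} [AddCommGroup E] [Module L E] {ι : Type u} (s : Finset ι)
    (W : ι → Submodule L E) [∀ i, FiniteDimensional L (W i)] :
    finrank L (s.sup W : Submodule L E) ≤ ∑ i ∈ s, finrank L (W i) := by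
  classical
  induction s using Finset.induction_on with
  | empty => simp
  | insert i s hi ih =>
    rw [Finset.sup_insert, Finset.sum_insert hi]
    exact (Submodule.finrank_add_le_finrank_add_finrank _ _).trans (by omega)

theorem compl_sl1 (I : Ideal (S L)) (n : ℕ) : ∃ W : Submodule L (S L), W ≤ frm L n ∧
    (finrank L W : ℤ) = cod (frm L) I n ∧ ∀ s ∈ frm L n, ∃ w ∈ W, s - w ∈ I := by
  obtain ⟨W, h1, h2⟩ := IsModularLattice.exists_disjoint_and_sup_eq
    (inf_le_right : (I.restrictScalars L ⊓ frm L n : Submodule L (S L)) ≤ frm L n)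
  have hW : W ≤ frm L n := h2 ▸ le_sup_right
  have : FiniteDimensional L W := Submodule.finiteDimensional_of_le hW
  refine ⟨W, hW, ?_, fun s hs => ?_⟩
  · have := Submodule.finrank_sup_add_finrank_inf_eq (I.restrictScalars L ⊓ frm L n) W
    rw [h2, h1.eq_bot, finrank_bot] at this
    have e : hf (frm L) ⊤ n = finrank L (frm L n) := by
      rw [hf, Submodule.restrictScalars_top, top_inf_eq]
    rw [cod, e, hf]
    omega
  · rw [← h2] at hs
    obtain ⟨y, hy, w, hw, rfl⟩ := Submodule.mem_sup.1 hs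
    exact ⟨w, hw, by simpa using hy.1⟩

theorem count_sl1 (M : Ideal (U L)) (p : ℕ × ℕ) (R : Submodule L (U L)) (hR : R ≤ bih L w2 p)
    (h : bih L w2 p ≤ R ⊔ M.restrictScalars L) : cod (bih L w2) M p ≤ finrank L R := by
  have : FiniteDimensional L R := Submodule.finiteDimensional_of_le hR
  have e : hf (bih L w2) ⊤ p = finrank L (bih L w2 p) := by
    rw [hf, Submodule.restrictScalars_top, top_inf_eq]
  have h1 := Submodule.finrank_add_le_finrank_add_finrank R (M.restrictScalars L ⊓ bih L w2 p)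
  rw [← sup_inf_assoc_of_le _ hR, inf_eq_right.2 h] at h1
  have h2 : finrank L (bih L w2 p) ≤ finrank L R + hf (bih L w2) M p := h1
  rw [cod, e]
  omega

theorem span_sl1 {a b n : ℕ} (hab : a ≤ b) (T : Submodule L (U L))
    (h : ∀ s ∈ frm L n, ∀ ε ∈ bih L w2 (a, b), C s * ε ∈ T) : bih L w2 (a, b + n) ≤ T := by
  intro G hG
  rw [G.as_sum]
  refine T.sum_mem fun m hm => ?_
  obtain ⟨h1, -, h3⟩ := mem_bih'.1 hG m (mem_support_iff.1 hm)
  have h4 : m.degree ≤ Finsupp.weight w2 m := by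
    rw [← weight_one, Finsupp.weight_apply, Finsupp.weight_apply]
    exact Finset.sum_le_sum fun j _ => Nat.mul_le_mul_left _ (one_le_w2 j)
  have h5 : coeff m G ∈ frm L n * frm L (b - m.degree) := by
    rw [frm, ← homogeneousSubmodule_one_pow _ n, ← homogeneousSubmodule_one_pow _ (b - _),
      ← pow_add, homogeneousSubmodule_one_pow, show n + (b - m.degree) = b + n - m.degree by omega]
    exact h3
  refine Submodule.mul_induction_on h5 (fun s hs v hv => ?_) fun x y hx hy => ?_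
  · rw [← C_mul_monomial]
    have := monomial_mem_bih w2 m hv
    rw [h1, show m.degree + (b - m.degree) = b by omega] at this
    exact h s hs _ this
  · rw [map_add]
    exact T.add_mem hx hy

/-- Multiplication of a fixed element by coefficients. -/
noncomputable def mu_sl1 (g : U L) : S L →ₗ[L] U L where
  toFun s := C s * g
  map_add' s t := by rw [map_add, add_mul]
  map_smul' c s := by
    rw [RingHom.id_apply, ← smul_mul_assoc, Algebra.smul_def, Algebra.smul_def, map_mul]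
    rfl

theorem bound_sl1 {P : Ideal (S L)} (hP : P.IsHomogeneous (frm L)) {M : Ideal (U L)}
    (hM : ∀ s ∈ P, (C s : U L) ∈ M) {a b : ℕ} (hab : a ≤ b) {k : ℕ} {e : Fin k → U L}
    (he : ∀ ν, e ν ∈ bih L w2 (a, b)) (B : Finset (U L))
    (hB : Submodule.span L (B : Set (U L)) = bih L w2 (a, b)) (t : U L → ℕ) (f : U L → S L)
    (h : ∀ ε ∈ B, (f ε).IsHomogeneous (t ε) ∧ ∃ s : Fin k → S L,
      (∀ ν, (s ν).IsHomogeneous (t ε)) ∧ C (f ε) * ε + ∑ ν, C (s ν) * e ν ∈ M)
    (n : ℕ) (hn : ∀ ε ∈ B, t ε ≤ n) : cod (bih L w2) M (a, b + n) ≤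
      k * cod (frm L) P n + ∑ ε ∈ B, cod (frm L) (span {f ε} ⊔ P) n := by
  obtain ⟨W, hW1, hW2, hW3⟩ := compl_sl1 P n
  choose Z hZ1 hZ2 hZ3 using fun ε => compl_sl1 (span {f ε} ⊔ P) n
  have : FiniteDimensional L W := Submodule.finiteDimensional_of_le hW1
  have : ∀ ε, FiniteDimensional L (Z ε) := fun ε => Submodule.finiteDimensional_of_le (hZ1 ε)
  let R1 : Submodule L (U L) :=
    (Finset.univ : Finset (ULift.{u} (Fin k))).sup fun ν => W.map (mu_sl1 (e ν.down))
  let R2 : Submodule L (U L) := B.sup fun ε => (Z ε).map (mu_sl1 ε)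
  have hmem : ∀ s ∈ frm L n, ∀ ε ∈ bih L w2 (a, b), C s * ε ∈ bih L w2 (a, b + n) :=
    fun s hs ε hε => by
      simpa [add_comm] using SetLike.mul_mem_graded (C_mem_bih w2 hs) hε
  have hBm : ∀ ε ∈ B, ε ∈ bih L w2 (a, b) := fun ε hε => hB ▸ Submodule.subset_span hε
  have c1 : finrank L R1 ≤ k * finrank L W := (fr_sup_sl1 _ _).trans <| by
    refine (Finset.sum_le_card_nsmul _ _ _ fun ν _ => Submodule.finrank_map_le _ _).trans ?_
    simp
  have c2 : finrank L R2 ≤ ∑ ε ∈ B, finrank L (Z ε) := (fr_sup_sl1 _ _).trans <|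
    Finset.sum_le_sum fun ε _ => Submodule.finrank_map_le _ _
  have c3 := Submodule.finrank_add_le_finrank_add_finrank R1 R2
  have hR : R1 ⊔ R2 ≤ bih L w2 (a, b + n) := by
    refine sup_le (Finset.sup_le fun ν _ => ?_) (Finset.sup_le fun ε hε => ?_)
    · rintro _ ⟨w, hw, rfl⟩
      exact hmem w (hW1 hw) _ (he _)
    · rintro _ ⟨w, hw, rfl⟩
      exact hmem w (hZ1 ε hw) _ (hBm ε hε)
  have hM' : ∀ x ∈ M, x ∈ R1 ⊔ R2 ⊔ M.restrictScalars L := fun x hx => Submodule.mem_sup_right hx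
  have he' : ∀ ν, ∀ s ∈ frm L n, C s * e ν ∈ R1 ⊔ R2 ⊔ M.restrictScalars L := fun ν s hs => by
    obtain ⟨w, hw, h1⟩ := hW3 s hs
    rw [show C s * e ν = C w * e ν + C (s - w) * e ν by rw [map_sub]; ring]
    refine add_mem (Submodule.mem_sup_left (Submodule.mem_sup_left ?_))
      (hM' _ (M.mul_mem_right _ (hM _ h1)))
    exact Finset.le_sup (f := fun ν : ULift.{u} (Fin k) => W.map (mu_sl1 (e ν.down)))
      (Finset.mem_univ ⟨ν⟩) ⟨w, hw, rfl⟩
  have c4 := count_sl1 M (a, b + n) _ hR (span_sl1 hab _ fun s hs ε hε => by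
    rw [← hB] at hε
    induction hε using Submodule.span_induction with
    | mem ε hε =>
      obtain ⟨h1, σ, h2, h3⟩ := h ε hε
      obtain ⟨w, hw, h4⟩ := hZ3 ε s hs
      obtain ⟨y, -, h5, h6⟩ := exists_comp (Ideal.IsHomogeneous.top (frm L)) hP (i := n - t ε)
        (x := s - w) h1 (by rw [Nat.add_sub_cancel' (hn ε hε)]; exact sub_mem hs (hZ1 ε hw))
        (by rwa [Ideal.mul_top])
      rw [show C s * ε = C w * ε + C (s - w - f ε * y) * ε +
        C y * (C (f ε) * ε + ∑ ν, C (σ ν) * e ν) - ∑ ν, C (σ ν * y) * e ν by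
          simp only [map_sub, map_mul, mul_add, Finset.mul_sum]
          rw [Finset.sum_congr rfl fun ν _ =>
            show C (σ ν) * C y * e ν = C y * (C (σ ν) * e ν) by ring]
          ring]
      refine sub_mem (add_mem (add_mem (Submodule.mem_sup_left (Submodule.mem_sup_right ?_))
        (hM' _ (M.mul_mem_right _ (hM _ h6)))) (hM' _ (M.mul_mem_left _ h3)))
        (Submodule.sum_mem _ fun ν _ => he' ν _ ?_)
      · exact Finset.le_sup (f := fun ε => (Z ε).map (mu_sl1 ε)) hε ⟨w, hw, rfl⟩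
      · have := (h2 ν).mul h5
        rwa [Nat.add_sub_cancel' (hn ε hε)] at this
    | zero => simp
    | add x y _ _ hx hy => rw [mul_add]; exact add_mem hx hy
    | smul c x _ hx => rw [mul_smul_comm]; exact Submodule.smul_mem _ _ hx)
  rw [← hW2, ← Finset.sum_congr rfl fun ε _ => hZ2 ε]
  have c5 : finrank L (R1 ⊔ R2 : Submodule L (U L)) ≤
      k * finrank L W + ∑ ε ∈ B, finrank L (Z ε) := by omega
  exact c4.trans (by exact_mod_cast c5)

end

theorem pSL1 (L : Type u) [Field L] [IsAlgClosed L] [CharZero L]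
    (hSIG1 : S_SIG1 L) (hHFA : S_HFA L) :
    S_SL1 L := by
  intro d F hF M _ h1 h2 a b ρ n₀ q hab hq
  have hP : (span {F, X 0} : Ideal (S L)).IsHomogeneous (frm L) :=
    Ideal.homogeneous_span _ _ (by
      rintro _ (rfl | rfl)
      · exact ⟨d, hF.hom⟩
      · exact ⟨1, isHomogeneous_X L 0⟩)
  have hM : ∀ s ∈ (span {F, X 0} : Ideal (S L)), (C s : U L) ∈ M := fun s hs => by
    obtain ⟨u, v, rfl⟩ := Ideal.mem_span_pair.1 hs
    rw [map_add, map_mul, map_mul]
    exact add_mem (M.mul_mem_left _ h1) (M.mul_mem_left _ h2)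
  suffices H : ∀ k ≤ ρ, ∃ e : Fin k → U L, (∀ ν, e ν ∈ bih L w2 (a, b)) ∧
      ∀ (n : ℕ) (s : Fin k → S L), (∀ ν, (s ν).IsHomogeneous n) → ∑ ν, C (s ν) * e ν ∈ M →
        ∀ ν, s ν ∈ span {F, X 0} from H ρ le_rfl
  intro k
  induction k with
  | zero => exact fun _ => ⟨Fin.elim0, fun ν => ν.elim0, fun _ _ _ _ ν => ν.elim0⟩
  | succ k ih =>
    intro hk
    obtain ⟨e, he, hi⟩ := ih (by omega)
    by_contra hc
    have key : ∀ ε ∈ bih L w2 (a, b), ∃ (t : ℕ) (f : S L), f ∉ span {F, X 0} ∧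
        f.IsHomogeneous t ∧ ∃ s : Fin k → S L, (∀ ν, (s ν).IsHomogeneous t) ∧
          C f * ε + ∑ ν, C (s ν) * e ν ∈ M := fun ε hε => by
      by_contra hd
      refine hc ⟨Fin.cons ε e, Fin.cases hε he, fun n s hs hsum => ?_⟩
      rw [Fin.sum_univ_succ] at hsum
      simp only [Fin.cons_zero, Fin.cons_succ] at hsum
      have h0 : s 0 ∈ span {F, X 0} := by
        by_contra h0
        exact hd ⟨n, s 0, h0, hs 0, fun ν => s ν.succ, fun ν => hs _, hsum⟩
      exact Fin.cases h0 (hi n (fun ν => s ν.succ) (fun ν => hs _)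
        ((M.add_mem_iff_right (M.mul_mem_right _ (hM _ h0))).1 hsum))
    choose! t f hf0 hf1 using key
    obtain ⟨B, hB⟩ := Module.Finite.iff_fg.1 (inferInstance : Module.Finite L (bih L w2 (a, b)))
    have hBm : ∀ ε ∈ B, ε ∈ bih L w2 (a, b) := fun ε hε => hB ▸ Submodule.subset_span hε
    have hA := hHFA d F hF
    have hd2 := hF.two
    obtain ⟨T, hT⟩ : ∃ T, T = ∑ ε ∈ B, t ε := ⟨_, rfl⟩
    obtain ⟨n, hn⟩ : ∃ n, n = n₀ + d + 1 + T + q.natAbs := ⟨_, rfl⟩
    have hle : ∀ ε ∈ B, t ε ≤ T := fun ε hε =>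
      hT ▸ Finset.single_le_sum (f := t) (fun _ _ => Nat.zero_le _) hε
    have c1 := bound_sl1 hP hM hab he B hB t f (fun ε hε => hf1 ε (hBm ε hε)) n
      fun ε hε => by have := hle ε hε; omega
    have c2 : ∀ ε ∈ B, cod (frm L) (span {f ε} ⊔ span {F, X 0}) n = d * t ε := fun ε hε => by
      have h3 := hle ε hε
      have h4 := cod_sup_span hP (hf1 ε (hBm ε hε)).1 (n - t ε)
      have h5 : (span {F, X 0} : Ideal (S L)).colon {f ε} = span {F, X 0} :=
        le_antisymm (fun x hx => (hF.prime0.mem_or_mem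
          (Submodule.mem_colon_singleton.1 hx)).resolve_right (hf0 ε (hBm ε hε))) Ideal.le_colon
      rw [h5, Nat.add_sub_cancel' (by omega)] at h4
      have h6 := hA.cod0 n (by omega)
      have h7 := hA.cod0 (n - t ε) (by omega)
      rw [Nat.cast_sub (by omega)] at h7
      linarith
    rw [Finset.sum_congr rfl c2, ← Finset.mul_sum, ← Nat.cast_sum, ← hT, hq n (by omega)] at c1
    have c3 := hA.cod0 n (by omega)
    have c4 := cod_nonneg (𝒜 := frm L) (span {F, X 0}) n
    have c5 : ((k : ℤ) + 1) * cod (frm L) (span {F, X 0}) n ≤ ρ * cod (frm L) (span {F, X 0}) n :=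
      mul_le_mul_of_nonneg_right (by exact_mod_cast hk) c4
    have c6 : (n : ℤ) = n₀ + d + 1 + T + |q| := by rw [hn]; push_cast; rfl
    have c7 : -q ≤ |q| := neg_le_abs q
    have c8 : (2 : ℤ) ≤ d := by exact_mod_cast hd2
    have c9 : (0 : ℤ) ≤ n₀ := Nat.cast_nonneg _
    have c10 := abs_nonneg q
    rw [c6] at c3
    nlinarith

end Pool.Agent.P.MP_6f117a_ag.Surf
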