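import Pool.Agent.P.MP_6f117a_ag.SIface

/-! Step SPREAD of the proof for surfaces in projective three-space. -/

namespace Pool.Agent.P.MP_6f117a_ag.Surf

open MvPolynomial Module
open Ideal (span)
open scoped Polynomial WithZero

universe u

section

variable {L : Type u} [Field L]

theorem homog_spread (s : S L) : ∃ (n : ℕ) (s' : S L), s'.IsHomogeneous n ∧
    ∀ (K : Type u) [Field K] [Algebra L K] (y : Fin 4 → K), y 0 = 1 → aeval y s' = aeval y s := by
  refine ⟨s.totalDegree, ∑ i ∈ Finset.range (s.totalDegree + 1),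
    X 0 ^ (s.totalDegree - i) * homogeneousComponent i s, ?_, fun K _ _ y hy => ?_⟩
  · refine IsHomogeneous.sum _ _ _ fun i hi => ?_
    have h1 := ((isHomogeneous_X L (0 : Fin 4)).pow (s.totalDegree - i)).mul
      (homogeneousComponent_isHomogeneous i s)
    have h2 := Finset.mem_range.1 hi
    rwa [show 1 * (s.totalDegree - i) + i = s.totalDegree by omega] at h1
  · conv_rhs => rw [← sum_homogeneousComponent s]
    simp [hy]

theorem eval_zero_spread {A B K : Type u} [CommRing A] [CommRing B] [CommRing K] (f : A →+* B)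
    (g : A →+* K) (h : ∀ a, f a = 0 → g a = 0) (x : K) (p : A[X])
    (hp : Polynomial.mapRingHom f p = 0) : Polynomial.eval₂RingHom g x p = 0 := by
  rw [Polynomial.coe_eval₂RingHom, Polynomial.eval₂_eq_sum_range]
  refine Finset.sum_eq_zero fun i _ => ?_
  rw [h _ (by rw [← Polynomial.coeff_map, ← Polynomial.coe_mapRingHom, hp,
    Polynomial.coeff_zero]), zero_mul]

theorem denom_spread {A B R : Type u} [CommRing A] [CommRing B] [CommRing R] (φ : R →+* A)
    (f : A →+* B) (P : R → Prop) (hm : ∀ x y, P x → P y → P (x * y))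
    (h : ∀ b, ∃ a D, P D ∧ f a = f (φ D) * b) (π : B[X]) :
    ∃ (β : A[X]) (D : R), P D ∧ β.map f = Polynomial.C (f (φ D)) * π := by
  induction π using Polynomial.induction_on' with
  | add p q hp hq =>
    obtain ⟨β, D, h1, h2⟩ := hp
    obtain ⟨β', D', h3, h4⟩ := hq
    refine ⟨Polynomial.C (φ D') * β + Polynomial.C (φ D) * β', D * D', hm _ _ h1 h3, ?_⟩
    simp only [Polynomial.map_add, Polynomial.map_mul, Polynomial.map_C, h2, h4, map_mul]
    ring
  | monomial n b =>
    obtain ⟨a, D, h1, h2⟩ := h b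
    exact ⟨Polynomial.monomial n a, D, h1, by
      rw [Polynomial.map_monomial, h2, Polynomial.C_mul_monomial]⟩

theorem chain_spread {K : Type u} [Field K] [Algebra L K] (δ : Derivation L K K) (y : Fin 4 → K)
    (G : S L) : δ (aeval y G) = ∑ i, aeval y (pderiv i G) * δ (y i) := by
  classical
  induction G using MvPolynomial.induction_on with
  | C a => simp
  | add p q hp hq => simp only [map_add, hp, hq, add_mul, Finset.sum_add_distrib]
  | mul_X p n hp =>
    simp only [map_mul, aeval_X, Derivation.leibniz, hp, smul_eq_mul, map_add, add_mul,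
      Finset.sum_add_distrib, Finset.mul_sum, pderiv_X, mul_assoc]
    congr 1
    rw [Finset.sum_eq_single n]
    · simp
    · intro i _ hi
      simp [Pi.single_eq_of_ne' hi]
    · simp

variable {F : S L} (c : Cv F)

theorem chain3_spread (G : S L) : c.δ (c.e0 G) = ∑ i, c.e0 (dF G i) * c.δ (c.y i.succ) := by
  have h := chain_spread c.δ c.y G
  rw [Fin.sum_univ_succ, c.y0, c.δ.map_one_eq_zero, mul_zero, zero_add] at h
  exact h

theorem ev_C_spread (s : S L) : c.ev (C s) = c.e0 s := by simp [Cv.ev]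

theorem ell_spread : ∑ i, c.e0 (dF F i) * c.δ (c.y i.succ) = 0 := by
  rw [← chain3_spread, show c.e0 F = 0 from c.onX, map_zero]

theorem ev_ell_spread : c.ev (ell F) = 0 := by
  rw [← ell_spread c]
  simp [Cv.ev, ell, ell1, inc]

theorem ev_cee_spread : c.ev (cee F) = 0 := by
  have h := congrArg c.δ (ell_spread c)
  rw [map_zero, map_sum] at h
  simp only [Derivation.leibniz, smul_eq_mul, chain3_spread, Finset.sum_add_distrib,
    Finset.mul_sum] at h
  rw [← h]
  simp only [Cv.ev, cee, hess, inc, map_add, map_sum, map_mul, rename_C, rename_X,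
    eval₂Hom_C, eval₂Hom_X', Sum.elim_inl, Sum.elim_inr]
  congr 1
  refine Finset.sum_congr rfl fun i _ => Finset.sum_congr rfl fun j _ => ?_
  rw [dF, dF]
  ring

theorem ev_kill_spread (G : U L) : c.ev (kill (S L) 2 G) = c.e2 (sp2 (S L) G) := by
  have : c.ev.comp (kill (S L) 2 : U L →+* U L) =
      c.e2.comp (sp2 (S L) : U L →+* (S L)[X][X]) := by
    refine ringHom_ext (fun s => ?_) fun j => ?_
    · simp [Cv.ev, Cv.e2, Cv.e1]
    · rcases j with j | j <;> fin_cases j <;> simp [Cv.ev, Cv.e2, Cv.e1, kill, sp2, c.dt]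
  exact DFunLike.congr_fun this G

theorem exists_dF_spread {d : ℕ} (hF : Good d F) : ∃ k, c.e0 (dF F k) ≠ 0 := by
  by_contra hc
  push Not at hc
  obtain ⟨N, hN⟩ := hF.null
  have h1 : span {F} ⊔ span (Set.range (dF F)) ≤ RingHom.ker c.e0 := by
    refine sup_le ?_ (Ideal.span_le.2 ?_)
    · rw [Ideal.span_singleton_le_iff_mem]
      exact c.onX
    · rintro _ ⟨k, rfl⟩
      exact hc k
  have h2 := RingHom.mem_ker.1 (h1 (hN 0))
  simp [Cv.e0, c.y0] at h2

end

theorem pSPREAD (L : Type u) [Field L] [IsAlgClosed L] [CharZero L]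
    (hSIG1 : S_SIG1 L) (hSIG2 : S_SIG2 L) :
    S_SPREAD L := by
  intro d F hF γ
  have _ := hSIG1
  have h2 := hSIG2 d F hF
  let P : S L → Prop := fun D => ∃ n, D.IsHomogeneous n ∧ ¬F ∣ D
  have hP : ∀ x y, P x → P y → P (x * y) := by
    rintro x y ⟨n, a1, a2⟩ ⟨m, a3, a4⟩
    exact ⟨n + m, a1.mul a3, fun h => (hF.prime.dvd_or_dvd h).elim a2 a4⟩
  have h3 := denom_spread (RingHom.id (S L)) γ.e0 P hP fun b => by
    obtain ⟨n, A, B, -, hB, hB0, e⟩ := γ.frac b
    exact ⟨A, B, ⟨n, hB, fun h => hB0 ((γ.ker n B hB).2 h)⟩, by rw [mul_comm]; exact e.symm⟩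
  have hk : ∀ c : Cv F, span {ell F} ⊔ span {cee F} ≤ RingHom.ker c.ev := fun c =>
    sup_le ((Ideal.span_singleton_le_iff_mem _).2 (ev_ell_spread c))
      ((Ideal.span_singleton_le_iff_mem _).2 (ev_cee_spread c))
  refine ⟨fun c β hβ => ?_, fun π => ?_, fun g => ?_, fun c G hG => ?_, fun c G hG => ?_,
    fun c a b G hG => ?_⟩
  · refine eval_zero_spread _ c.e1 (eval_zero_spread γ.e0 c.e0 (fun s hs => ?_) _) _ β hβ
    obtain ⟨n, s', h4, h5⟩ := homog_spread s
    obtain ⟨t, ht⟩ := (γ.ker n s' h4).1 ((h5 γ.K γ.y γ.y0).trans hs)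
    refine (h5 c.K c.y c.y0).symm.trans ?_
    rw [ht, map_mul, c.onX, zero_mul]
  · obtain ⟨β, D, ⟨n, a1, a2⟩, e⟩ := denom_spread (Polynomial.C : S L →+* (S L)[X])
      (Polynomial.mapRingHom γ.e0) P hP (fun b => by
        obtain ⟨β, D, a1, a2⟩ := h3 b
        exact ⟨β, D, a1, by simpa using a2⟩) π
    exact ⟨β, n, D, a1, a2, by simpa [GenPt.e2] using e⟩
  · obtain ⟨β, D, ⟨n, a1, a2⟩, e⟩ := h3 g
    exact ⟨β, n, D, a1, a2, e⟩
  · rw [← ev_kill_spread, hG]
  · obtain ⟨k, hk0⟩ := exists_dF_spread c hF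
    obtain ⟨t, ht⟩ := h2.KK_pow k G hG
    have h4 : span {ell F} ⊔ span {cee F} ⊔ span {C F} ≤ RingHom.ker c.ev :=
      sup_le (hk c) ((Ideal.span_singleton_le_iff_mem _).2
        ((ev_C_spread c F).trans c.onX))
    have h5 := RingHom.mem_ker.1 (h4 ht)
    rw [map_mul, map_pow, ev_C_spread] at h5
    exact (mul_eq_zero.1 h5).resolve_left (pow_ne_zero t hk0)
  · have h4 := RingHom.mem_ker.1 (hk c (h2.sig_sub 2 a b G hG))
    rw [map_sub, map_mul, map_pow, ev_C_spread, sub_eq_zero] at h4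
    rw [← ev_kill_spread, h2.kill_sig, h4]

end Pool.Agent.P.MP_6f117a_ag.Surf
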