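import Pool.Agent.P.MP_6f117a_ag.SIface

/-! Step SUP of the proof for surfaces in projective three-space. -/

namespace Pool.Agent.P.MP_6f117a_ag.Surf

open MvPolynomial Module
open Ideal (span)
open scoped Polynomial WithZero

universe u

section

variable {L : Type u} [Field L]

theorem slope_sup {a b c : ℤ} {k₀ : ℕ} (h : ∀ k : ℕ, k₀ ≤ k → a * k ≤ b * k + c) : a ≤ b := by
  by_contra hc
  have h1 := h (k₀ + c.natAbs + 1) (by omega)
  have h2 : c < ((k₀ + c.natAbs + 1 : ℕ) : ℤ) := by omega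
  have h3 : (0 : ℤ) ≤ ((k₀ + c.natAbs + 1 : ℕ) : ℤ) := Int.natCast_nonneg _
  nlinarith

theorem cod_anti_sup {I J : Ideal (S L)} (h : I ≤ J) (n : ℕ) :
    cod (frm L) J n ≤ cod (frm L) I n := by
  have := hf_mono (𝒜 := frm L) h n
  simp only [cod]; omega

theorem gens_sup {W N : Ideal (S L)} (hN : N.IsHomogeneous (frm L)) {c : ℤ} {i₀ : ℕ}
    (hW : ∀ i, i₀ ≤ i → cod (frm L) W i ≤ c) (t : Finset (S L))
    (ht : ∀ x ∈ t, (∃ j, x ∈ frm L j) ∧ W ≤ N.colon {x}) :
    ∃ (C : ℤ) (k₀ : ℕ), ∀ k, k₀ ≤ k →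
      cod (frm L) N k ≤ cod (frm L) (span (t : Set (S L)) ⊔ N) k + C := by
  classical
  induction t using Finset.induction_on with
  | empty => exact ⟨0, 0, fun k _ => by simp⟩
  | insert x t _ ih =>
    obtain ⟨C, k₀, h⟩ := ih fun y hy => ht y (Finset.mem_insert_of_mem hy)
    obtain ⟨⟨j, hj⟩, hx⟩ := ht x (Finset.mem_insert_self _ _)
    have hN' : (span (t : Set (S L)) ⊔ N).IsHomogeneous (frm L) :=
      (Ideal.homogeneous_span _ _ fun y hy => (ht y (Finset.mem_insert_of_mem hy)).1).sup hN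
    refine ⟨C + c, k₀ + j + i₀, fun k hk => ?_⟩
    obtain ⟨i, rfl⟩ : ∃ i, k = j + i := ⟨k - j, by omega⟩
    have h1 := cod_sup_span hN' hj i
    have h2 : W ≤ (span (t : Set (S L)) ⊔ N).colon {x} := fun y hy => by
      have := hx hy
      rw [Submodule.mem_colon_singleton] at this ⊢
      exact Ideal.mem_sup_right this
    have h3 := cod_anti_sup h2 i
    have h4 := hW i (by omega)
    have h5 := h (j + i) (by omega)
    rw [Finset.coe_insert, Ideal.span_insert, sup_assoc, h1]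
    omega

theorem bin_sup {d : ℕ} {F : S L} (hF : Good d F) (hA : Hfa d F) (hSUPA : S_SUPA L)
    {I J : Ideal (S L)} (hI : I.IsHomogeneous (frm L)) (hJ : J.IsHomogeneous (frm L))
    (hFI : F ∈ I) (hgI : ∃ g ∈ I, ¬F ∣ g) (hfJ : ∃ f ∈ J, ¬F ∣ f) {e e' e'' : ℤ}
    (he : HasDeg I e) (he' : HasDeg J e') (he'' : HasDeg (I * J ⊔ span {F}) e'') :
    e'' ≤ e + e' := by
  obtain ⟨s, f, hfJ, hf, hFf⟩ : ∃ s f, f ∈ J ∧ f ∈ frm L s ∧ ¬F ∣ f := by
    by_contra hc
    push Not at hc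
    obtain ⟨f, h1, h2⟩ := hfJ
    exact h2 (Ideal.mem_span_singleton.1
      (le_of_hom hJ (J := span {F}) (fun i x a b => Ideal.mem_span_singleton.2 (hc i x a b)) h1))
  obtain ⟨n, m, g, v, hgI, hg, hv, h1, h2⟩ := hSUPA d F hF I hI hFI hgI f hFf
  have hFh : (span {F} : Ideal (S L)).IsHomogeneous (frm L) := hom_span (j := d) hF.hom
  have hM : (I * J ⊔ span {F}).IsHomogeneous (frm L) := (hI.mul hJ).sup hFh
  have hP : (span {f} ⊔ span {F} : Ideal (S L)).IsHomogeneous (frm L) := (hom_span hf).sup hFh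
  obtain ⟨cP, nP, hPd⟩ := hA.form s f hf hFf
  obtain ⟨n₁, hn₁⟩ := tors0 (I := span {f} ⊔ span {F}) (hom_colon hP (j := m) hv) fun G hG =>
    h2 G (le_sat _ _ (by rw [mul_comm]; exact Submodule.mem_colon_singleton.1 hG))
  have hW : ∀ i, m + nP + n₁ ≤ i →
      cod (frm L) (span {v} ⊔ (span {f} ⊔ span {F})) i ≤ s * d * m := fun k hk => by
    obtain ⟨i, rfl⟩ : ∃ i, k = m + i := ⟨k - m, by omega⟩
    have h3 := hf_le (𝒜 := frm L) (hn₁ i (by omega))
    have h4 : cod (frm L) (span {f} ⊔ span {F}) i ≤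
        cod (frm L) ((span {f} ⊔ span {F} : Ideal (S L)).colon {v}) i := by
      simp only [cod]; omega
    rw [cod_sup_span hP (j := m) hv i, hPd (m + i) (by omega)]
    rw [hPd i (by omega)] at h4
    push_cast
    linarith
  obtain ⟨t, ht, htI⟩ := exists_hom_gens hI
  have hN : (span {g} ⊔ (I * J ⊔ span {F})).IsHomogeneous (frm L) :=
    (hom_span (j := n) hg).sup hM
  obtain ⟨C, k₀, hC⟩ := gens_sup hN hW t fun x hx => ⟨ht x hx, by
    have hxI : x ∈ I := htI ▸ Ideal.subset_span hx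
    refine sup_le ?_ (sup_le ?_ ?_) <;>
      rw [Ideal.span_singleton_le_iff_mem, Submodule.mem_colon_singleton, smul_eq_mul]
    · exact (sup_le_sup_left le_sup_right _ : span {g} ⊔ span {F} ≤ _) (h1 x hxI)
    · exact Ideal.mem_sup_right (Ideal.mem_sup_left (mul_comm x f ▸ Ideal.mul_mem_mul hxI hfJ))
    · exact Ideal.mem_sup_right (Ideal.mem_sup_right
        (Ideal.mul_mem_right _ _ (Ideal.mem_span_singleton_self F)))⟩
  obtain ⟨c, n₀, hc⟩ := he
  obtain ⟨c', n₀', hc'⟩ := he'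
  obtain ⟨c'', n₀'', hc''⟩ := he''
  refine slope_sup (k₀ := n + k₀ + n₀ + n₀' + n₀'') (c := c + c' + C - e' * n - c'') fun k hk => ?_
  obtain ⟨i, rfl⟩ : ∃ i, k = n + i := ⟨k - n, by omega⟩
  have h3 := cod_sup_span hM (j := n) hg i
  have h4 : cod (frm L) ((I * J ⊔ span {F}).colon {g}) i ≤ cod (frm L) J i :=
    cod_anti_sup (fun y hy => Submodule.mem_colon_singleton.2
      (Ideal.mem_sup_left (by rw [smul_eq_mul, mul_comm y g]; exact Ideal.mul_mem_mul hgI hy))) i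
  have h5 := hC (n + i) (by omega)
  have h6 : cod (frm L) (span (t : Set (S L)) ⊔ (span {g} ⊔ (I * J ⊔ span {F}))) (n + i) ≤
      cod (frm L) I (n + i) := cod_anti_sup (htI ▸ le_sup_left) _
  rw [hc (n + i) (by omega)] at h6
  rw [hc' i (by omega)] at h4
  rw [hc'' (n + i) (by omega)] at h3
  push_cast at *
  linarith

theorem hom_pow_sup {I : Ideal (S L)} (hI : I.IsHomogeneous (frm L)) (k : ℕ) :
    (I ^ k).IsHomogeneous (frm L) := by
  induction k with
  | zero => rw [pow_zero, Ideal.one_eq_top]; exact Ideal.IsHomogeneous.top _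
  | succ k ih => rw [pow_succ]; exact ih.mul hI

end

theorem pSUP (L : Type u) [Field L] [IsAlgClosed L] [CharZero L]
    (hSIG1 : S_SIG1 L) (hHFA : S_HFA L) (hHS : S_HS L) (hSUPA : S_SUPA L) :
    S_SUP L := by
  intro d F hF I hI hFI hgI k e
  induction k with
  | zero =>
    rintro e' - ⟨c, n₀, hc⟩
    refine slope_sup (k₀ := n₀) (c := -c) fun k hk => ?_
    have := hc k hk
    rw [pow_zero, Ideal.one_eq_top, top_sup_eq, cod] at this
    push_cast
    linarith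
  | succ k ih =>
    intro e' he he'
    have hJ : (I ^ k ⊔ span {F}).IsHomogeneous (frm L) :=
      (hom_pow_sup hI k).sup (hom_span (j := d) hF.hom)
    have hfJ : ∃ f ∈ I ^ k ⊔ span {F}, ¬F ∣ f := by
      obtain ⟨g, h1, h2⟩ := hgI
      exact ⟨g ^ k, Ideal.mem_sup_left (Ideal.pow_mem_pow h1 k),
        fun h => h2 (hF.prime.dvd_of_dvd_pow h)⟩
    obtain ⟨e₁, he₁⟩ := hHS d F hF _ hJ (Ideal.mem_sup_right (Ideal.mem_span_singleton_self F)) hfJ
    have h1 := ih e₁ he he₁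
    have h2 : I * (I ^ k ⊔ span {F}) ⊔ span {F} = I ^ (k + 1) ⊔ span {F} := by
      rw [Ideal.mul_sup, sup_assoc, sup_eq_right.2 (Ideal.mul_le_right (I := I)), ← pow_succ']
    have h3 := bin_sup hF (hHFA d F hF) hSUPA hI hJ hFI hgI hfJ he he₁ (h2 ▸ he')
    push_cast
    linarith

end Pool.Agent.P.MP_6f117a_ag.Surf
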