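import Pool.Agent.P.MP_6f117a_ag.SIface

/-! Step SUPA of the proof for surfaces in projective three-space. -/

namespace Pool.Agent.P.MP_6f117a_ag.Surf

open MvPolynomial Module
open Ideal (span)
open scoped Polynomial WithZero

universe u

namespace Supa

theorem mem_mul_sup {R : Type u} [CommRing R] {f F y : R} {P : Ideal R} :
    y ∈ span {f} * P ⊔ span {F} ↔ ∃ u ∈ P, F ∣ y - f * u := by
  constructor
  · intro h
    obtain ⟨a, ha, b, hb, rfl⟩ := Submodule.mem_sup.1 h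
    obtain ⟨u, hu, rfl⟩ := Ideal.mem_span_singleton_mul.1 ha
    exact ⟨u, hu, by simpa using Ideal.mem_span_singleton.1 hb⟩
  · rintro ⟨u, hu, h⟩
    exact Submodule.mem_sup.2 ⟨f * u, Ideal.mem_span_singleton_mul.2 ⟨u, hu, rfl⟩, y - f * u,
      Ideal.mem_span_singleton.2 h, by ring⟩

theorem mem_sup_span {R : Type u} [CommRing R] {f F y : R} :
    y ∈ span {f} ⊔ span {F} ↔ ∃ u, F ∣ y - f * u := by
  have := mem_mul_sup (f := f) (F := F) (y := y) (P := ⊤)
  rw [Ideal.mul_top] at this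
  simpa using this

theorem span_pair_eq {R : Type u} [CommRing R] (f F : R) :
    (span {F, f} : Ideal R) = span {f} ⊔ span {F} := by
  rw [Ideal.span_insert, sup_comm]

/-- Cancelling an element outside `P`. -/
theorem cancel_mul {R : Type u} [CommRing R] {f F y s : R} {P : Ideal R} (hF : Prime F)
    (hf : ¬F ∣ f) (hP : P.IsPrime) (hFP : F ∈ P) (hs : s ∉ P) (hy : y ∈ span {f} ⊔ span {F})
    (h : s * y ∈ span {f} * P ⊔ span {F}) : y ∈ span {f} * P ⊔ span {F} := by
  obtain ⟨u, hu⟩ := mem_sup_span.1 hy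
  obtain ⟨w, hw, h⟩ := mem_mul_sup.1 h
  refine mem_mul_sup.2 ⟨u, ?_, hu⟩
  have h1 : F ∣ f * (s * u - w) := by
    have := (h.sub (hu.mul_left s))
    rwa [show s * y - f * w - s * (y - f * u) = f * (s * u - w) by ring] at this
  obtain ⟨r, hr⟩ := (hF.dvd_or_dvd h1).resolve_left hf
  have h2 : s * u ∈ P := by
    rw [show s * u = F * r + w by rw [← hr]; ring]
    exact add_mem (P.mul_mem_right _ hFP) hw
  exact (hP.mem_or_mem h2).resolve_left hs

variable {L : Type u} [Field L]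

/-- A uniform exponent for a colon ideal of a saturation. -/
theorem exists_unif (H : Ideal (S L)) (z : S L) :
    ∃ t : ℕ, ∀ i, ∀ u ∈ (sat X H).colon {z}, X i ^ t * z * u ∈ H := by
  classical
  obtain ⟨s, hs⟩ := IsNoetherian.noetherian ((sat X H).colon {z})
  obtain ⟨t, ht⟩ := exists_pow_of_le_sat (x := X) (I := H) (s.image fun u => u * z) (by
    intro G hG
    obtain ⟨u, hu, rfl⟩ := Finset.mem_image.1 hG
    have : u ∈ (sat X H).colon {z} := hs ▸ Submodule.subset_span hu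
    exact Submodule.mem_colon_singleton.1 this)
  refine ⟨t, fun i u hu => ?_⟩
  have : (sat X H).colon {z} ≤ H.colon {X i ^ t * z} := by
    rw [← hs]
    refine Submodule.span_le.2 fun u hu => Submodule.mem_colon_singleton.2 ?_
    have := ht i _ (Finset.mem_image_of_mem _ hu) t le_rfl
    rwa [smul_eq_mul, mul_left_comm]
  have := Submodule.mem_colon_singleton.1 (this hu)
  rwa [smul_eq_mul, mul_comm] at this

/-- An element preserving a nonzero ideal modulo `F` is multiplied into `(F, f)` by the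
derivatives. -/
theorem cond_of_stable (hCOND : S_COND L) {d : ℕ} {F : S L} (hh : F.IsHomogeneous d)
    (hF : Prime F) {a f : S L} (hf : ¬F ∣ f) (J : Ideal (S L)) {c₀ : S L} (hc₀ : c₀ ∈ J)
    (hc₀' : ¬F ∣ c₀) (h : ∀ c ∈ J, ∃ c' ∈ J, F ∣ a * c - f * c') (k : Fin 4) :
    pderiv k F * a ∈ span {F, f} := by
  have : (span {F} : Ideal (S L)).IsPrime := (Ideal.span_singleton_prime hF.ne_zero).2 hF
  let K := FractionRing (S L ⧸ span {F})
  let φ : S L →+* K := algebraMap (S L) K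
  have hφ : ∀ G, φ G = 0 ↔ F ∣ G := fun G => by
    rw [show φ G = algebraMap (S L ⧸ span {F}) K (Ideal.Quotient.mk _ G) from rfl,
      IsFractionRing.to_map_eq_zero_iff, Ideal.Quotient.eq_zero_iff_mem, Ideal.mem_span_singleton]
  have hf0 : φ f ≠ 0 := fun e => hf ((hφ f).1 e)
  refine hCOND 4 d F hh hF.ne_zero K φ hφ a f hf0 ?_ k
  have hint : IsIntegral (S L) (φ a / φ f) := by
    refine isIntegral_of_smul_mem_submodule (Submodule.map (Algebra.linearMap (S L) K) J)
      ?_ ((IsNoetherian.noetherian J).map _) _ ?_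
    · intro e
      have : φ c₀ ∈ (Submodule.map (Algebra.linearMap (S L) K) J) := ⟨c₀, hc₀, rfl⟩
      rw [e, Submodule.mem_bot] at this
      exact hc₀' ((hφ _).1 this)
    · rintro _ ⟨c, hc, rfl⟩
      obtain ⟨c', hc', e⟩ := h c hc
      refine ⟨c', hc', ?_⟩
      have := (hφ _).2 e
      rw [map_sub, map_mul, map_mul, sub_eq_zero] at this
      change φ c' = φ a / φ f * φ c
      rw [div_mul_eq_mul_div, this, mul_div_cancel_left₀ _ hf0]
  obtain ⟨p, hp, e⟩ := hint
  exact ⟨p.map φ.rangeRestrict, hp.map _, by rw [Polynomial.eval₂_map]; exact e⟩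

/-- The key step: the product of `I` and its dual is not inside `f₀ P`. -/
theorem key (hCOND : S_COND L) {d : ℕ} {F : S L} (hF : Good d F) {f f₀ z : S L} (hf : ¬F ∣ f)
    (hf₀ : ¬F ∣ f₀) {I P : Ideal (S L)} (hI : f₀ ∈ I) (hP : P.IsPrime) (hFP : F ∈ P)
    (hPz : P = (sat X (span {f} ⊔ span {F})).colon {z}) {i₀ : Fin 4} (hi : X i₀ ∉ P) :
    ¬∀ g ∈ I, ∀ c ∈ (span {f₀} ⊔ span {F}).colon (I : Set (S L)),
      g * c ∈ span {f₀} * P ⊔ span {F} := by
  intro h
  obtain ⟨t, ht⟩ := exists_unif (span {f} ⊔ span {F}) z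
  rw [← hPz] at ht
  have hd : ∀ i k, pderiv k F * (X i ^ t * z) ∈ span {F, f} := by
    intro i k
    refine cond_of_stable hCOND hF.hom hF.prime hf ((span {f₀} ⊔ span {F}).colon (I : Set (S L)))
      (c₀ := f₀) (Submodule.mem_colon.2 fun g _ => Ideal.mem_sup_left
        (Ideal.mul_mem_right _ _ (Ideal.mem_span_singleton_self _))) hf₀ (fun c hc => ?_) k
    obtain ⟨u, hu, e⟩ := mem_mul_sup.1 (h f₀ hI c hc)
    rw [← mul_sub] at e
    obtain ⟨r, hr⟩ := (hF.prime.dvd_or_dvd e).resolve_left hf₀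
    have hcP : c ∈ P := by
      rw [show c = F * r + u by rw [← hr]; ring]
      exact add_mem (P.mul_mem_right _ hFP) hu
    obtain ⟨c', hc'⟩ := mem_sup_span.1 (ht i c hcP)
    refine ⟨c', Submodule.mem_colon.2 fun g hg => ?_, hc'⟩
    obtain ⟨w, hw, e1⟩ := mem_mul_sup.1 (h g hg c hc)
    obtain ⟨w', e2⟩ := mem_sup_span.1 (ht i w hw)
    refine mem_sup_span.2 ⟨w', (hF.prime.dvd_or_dvd ?_).resolve_left hf⟩
    have := ((e1.mul_left (X i ^ t * z)).add (e2.mul_left f₀)).sub (hc'.mul_left g)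
    rwa [show X i ^ t * z * (g * c - f₀ * w) + f₀ * (X i ^ t * z * w - f * w') -
      g * (X i ^ t * z * c - f * c') = f * (c' • g - f₀ * w') by rw [smul_eq_mul]; ring] at this
  have hdP : ∀ k, pderiv k F ∈ P := fun k => by
    rw [hPz]
    refine Submodule.mem_colon_singleton.2 fun i => ⟨t, ?_⟩
    have := hd i k
    rwa [span_pair_eq, mul_left_comm] at this
  obtain ⟨N, hN⟩ := hF.null
  have hle : span {F} ⊔ span (Set.range (dF F)) ≤ P :=
    sup_le ((Ideal.span_singleton_le_iff_mem _).2 hFP) (Ideal.span_le.2 (by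
      rintro _ ⟨k, rfl⟩
      exact hdP _))
  exact hi (hP.mem_of_pow_mem N (hle (hN i₀)))

theorem hom_colon_ideal {H I : Ideal (S L)} (hH : H.IsHomogeneous (frm L))
    (hI : I.IsHomogeneous (frm L)) : Ideal.IsHomogeneous (frm L) (H.colon (I : Set (S L))) := by
  intro i c hc
  refine Submodule.mem_colon.2 fun g hg => ?_
  have : I ≤ H.colon {(DirectSum.decompose (frm L) c i : S L)} := by
    refine le_of_hom hI fun j x hx hj => Submodule.mem_colon_singleton.2 ?_
    have h1 : c ∈ H.colon {x} := Submodule.mem_colon_singleton.2 (Submodule.mem_colon.1 hc x hx)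
    have := Submodule.mem_colon_singleton.1 (hom_colon hH hj i h1)
    rwa [smul_eq_mul, mul_comm] at this
  have := Submodule.mem_colon_singleton.1 (this hg)
  rwa [smul_eq_mul, mul_comm] at this

theorem bilin {I J Q : Ideal (S L)} (hI : I.IsHomogeneous (frm L)) (hJ : J.IsHomogeneous (frm L))
    (h : ∀ n m, ∀ g ∈ I, g ∈ frm L n → ∀ c ∈ J, c ∈ frm L m → g * c ∈ Q) :
    ∀ g ∈ I, ∀ c ∈ J, g * c ∈ Q := by
  intro g hg c hc
  have : I ≤ Q.colon {c} := by
    refine le_of_hom hI fun n x hx hn => Submodule.mem_colon_singleton.2 ?_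
    have : J ≤ Q.colon {x} := le_of_hom hJ fun m y hy hm => Submodule.mem_colon_singleton.2 (by
      rw [smul_eq_mul, mul_comm]; exact h n m x hx hn y hy hm)
    have := Submodule.mem_colon_singleton.1 (this hc)
    rwa [smul_eq_mul, mul_comm] at this
  exact Submodule.mem_colon_singleton.1 (this hg)

end Supa

open Supa in
theorem pSUPA (L : Type u) [Field L] [IsAlgClosed L] [CharZero L]
    (hSIG1 : S_SIG1 L) (hCOND : S_COND L) :
    S_SUPA L := by
  classical
  intro d F hF I hI hFI hex f hf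
  obtain ⟨e, f₀, hf₀I, hf₀e, hf₀⟩ : ∃ e, ∃ f₀ ∈ I, f₀ ∈ frm L e ∧ ¬F ∣ f₀ := by
    by_contra hc
    push Not at hc
    obtain ⟨g, hg, h⟩ := hex
    exact h (Ideal.mem_span_singleton.1 (le_of_hom hI
      (fun i x hx hi => Ideal.mem_span_singleton.2 (hc i x hx hi)) hg))
  have hFh : (span {F} : Ideal (S L)).IsHomogeneous (frm L) := hom_span (j := d) hF.hom
  have hH : (span {f₀} ⊔ span {F} : Ideal (S L)).IsHomogeneous (frm L) := (hom_span hf₀e).sup hFh
  set J := (span {f₀} ⊔ span {F}).colon (I : Set (S L)) with hJdef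
  have hJ : Ideal.IsHomogeneous (frm L) J := hom_colon_ideal hH hI
  have hIJ : ∀ g ∈ I, ∀ c ∈ J, g * c ∈ span {f₀} ⊔ span {F} := fun g hg c hc => by
    have := Submodule.mem_colon.1 hc g hg
    rwa [smul_eq_mul, mul_comm] at this
  obtain ⟨T, hT, hT'⟩ := exists_ass_sat X (span {f} ⊔ span {F} : Ideal (S L))
  have h1 : ∀ P ∈ T, ∃ n m : ℕ, ∀ n' m', n ≤ n' → m ≤ m' → ∃ g ∈ I, g ∈ frm L n' ∧ ∃ c ∈ J,
      c ∈ frm L m' ∧ g * c ∉ span {f₀} * P ⊔ span {F} := by
    intro P hP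
    obtain ⟨hp, hle, ⟨i₀, hi⟩, z, hz⟩ := hT P hP
    have hFP : F ∈ P := hle (Ideal.mem_sup_right (Ideal.mem_span_singleton_self _))
    have hk := key hCOND hF hf hf₀ hf₀I hp hFP hz hi
    have hk' := mt (bilin hI hJ) hk
    push Not at hk'
    obtain ⟨n, m, g, hg, hn, c, hc, hm, h⟩ := hk'
    refine ⟨n, m, fun n' m' h1 h2 => ⟨X i₀ ^ (n' - n) * g, I.mul_mem_left _ hg, ?_,
      X i₀ ^ (m' - m) * c, J.mul_mem_left _ hc, ?_, fun hc' => h ?_⟩⟩
    · have := ((isHomogeneous_X L i₀).pow (n' - n)).mul hn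
      rwa [one_mul, Nat.sub_add_cancel h1] at this
    · have := ((isHomogeneous_X L i₀).pow (m' - m)).mul hm
      rwa [one_mul, Nat.sub_add_cancel h2] at this
    · refine cancel_mul (s := X i₀ ^ (n' - n + (m' - m))) hF.prime hf₀ hp hFP
        (fun h => hi (hp.mem_of_pow_mem _ h)) (hIJ g hg c hc) ?_
      rwa [pow_add, mul_mul_mul_comm]
  choose! n m hnm using h1
  choose! g hgI hgn c hcJ hcm hgc using fun P (hP : P ∈ T) =>
    hnm P hP (e + T.sup n) (T.sup m) ((Finset.le_sup hP).trans (Nat.le_add_left _ _))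
      (Finset.le_sup hP)
  obtain ⟨c₁, hc₁, h2⟩ := exists_avoid (J.restrictScalars L ⊓ frm L (T.sup m))
    (T.image fun P => (span {f₀} * P ⊔ span {F}).colon {g P}) (by
      intro Q hQ
      obtain ⟨P, hP, rfl⟩ := Finset.mem_image.1 hQ
      refine ⟨c P, ⟨hcJ P hP, hcm P hP⟩, fun h => hgc P hP ?_⟩
      have := Submodule.mem_colon_singleton.1 h
      rwa [smul_eq_mul, mul_comm (c P)] at this)
  obtain ⟨g₁, hg₁, h3⟩ := exists_avoid (I.restrictScalars L ⊓ frm L (e + T.sup n))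
    (T.image fun P => (span {f₀} * P ⊔ span {F}).colon {c₁}) (by
      intro Q hQ
      obtain ⟨P, hP, rfl⟩ := Finset.mem_image.1 hQ
      refine ⟨g P, ⟨hgI P hP, hgn P hP⟩, fun h => h2 _ (Finset.mem_image_of_mem _ hP) ?_⟩
      have := Submodule.mem_colon_singleton.1 h
      refine Submodule.mem_colon_singleton.2 ?_
      rwa [smul_eq_mul, mul_comm (g P)] at this)
  obtain ⟨v, -, hv, h4⟩ := exists_comp (Ideal.IsHomogeneous.top (frm L)) hFh hf₀e
    (x := g₁ * c₁) (i := T.sup n + T.sup m)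
    (by rw [← add_assoc]; exact SetLike.mul_mem_graded hg₁.2 hc₁.2)
    (by rw [Ideal.mul_top]; exact hIJ _ hg₁.1 _ hc₁.1)
  rw [Ideal.mem_span_singleton] at h4
  refine ⟨_, _, g₁, v, hg₁.1, hg₁.2, hv, fun b hb => ?_, hT' v fun P hP hvP => ?_⟩
  · obtain ⟨y, hy⟩ := mem_sup_span.1 (hIJ b hb c₁ hc₁.1)
    refine mem_sup_span.2 ⟨y, (hF.prime.dvd_or_dvd ?_).resolve_left hf₀⟩
    have := (hy.mul_left g₁).sub (h4.mul_left b)
    rwa [show g₁ * (b * c₁ - f₀ * y) - b * (g₁ * c₁ - f₀ * v) = f₀ * (v * b - g₁ * y) by ring]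
      at this
  · exact h3 _ (Finset.mem_image_of_mem _ hP)
      (Submodule.mem_colon_singleton.2 (mem_mul_sup.2 ⟨v, hvP, h4⟩))

end Pool.Agent.P.MP_6f117a_ag.Surf
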