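import Pool.Agent.P.MP_6f117a_ag.SIter

/-! Step T0 of the proof for surfaces in projective three-space. -/

namespace Pool.Agent.P.MP_6f117a_ag.Surf

open MvPolynomial Module
open Ideal (span)
open scoped Polynomial WithZero

universe u

theorem pT0 (L : Type u) [Field L] [IsAlgClosed L] [CharZero L]
    (hSIG1 : S_SIG1 L) (hSIG2 : S_SIG2 L) (hSIG3 : S_SIG3 L) (hHFA : S_HFA L) (hHFJ : S_HFJ L) (hNUM1 : S_NUM1) (hMORSE : S_MORSE L) (hCURVE : S_CURVE L) (hSPREAD : S_SPREAD L) (hTAY : S_TAY L) :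
    S_T0 L := by
  intro d F hF hd γ
  have h1 := hSIG1 d F hF
  have h2 := hSIG2 d F hF
  have h3 := hSIG3 d F hF
  obtain ⟨c, hc⟩ := hHFJ d F hF ⊤ (Ideal.IsHomogeneous.top _) trivial (PA d) d fun n hn => by
    rw [← (hHFA d F hF).codF n hn, cod]; push_cast; rfl
  obtain ⟨a, ha, hN⟩ := hNUM1 d c hd
  obtain ⟨Q, hQ, hQ1, hQ2⟩ := hMORSE d F hF (KK F) h2.KK_hom ((h2.C_mem_KK F).2 dvd_rfl)
    (fun G hG => (h2.KK_prime.mem_or_mem hG).resolve_left fun h => h1.not_dvd 1 _ hF.two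
      (X_ne_zero 0) (isHomogeneous_X L 0) ((h2.C_mem_KK _).1 h)) a (a + c) _ _ _ (by omega)
    (fun b' hb => by
      rw [← hc a b' ha hb, Ideal.map_top, top_sup_eq, cod]; push_cast; rfl) hN
  obtain ⟨k, hk⟩ := not_forall.1 (mt (hTAY d F hF γ a _ Q hQ).1 hQ1)
  obtain ⟨-, -, -, -, s5, s6⟩ := hSPREAD d F hF γ
  refine ⟨_, 4 * a, hk, fun cv => ?_⟩
  by_cases e : cv.ev ((dl (S L))^[k] Q) = 0
  · obtain ⟨a', -, h4⟩ := iter_mem h3 hQ k
    exact .inr (by rw [s6 cv a' _ _ h4, e, mul_zero])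
  · exact .inl (iter_bound h3 hCURVE h2.KK_hom h3.dl_KK hQ hQ2 k cv (s5 cv) e)

end Pool.Agent.P.MP_6f117a_ag.Surf
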