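import Pool.Agent.P.MP_6f117a_ag.SIter

/-! Step T1 of the proof for surfaces in projective three-space. -/

namespace Pool.Agent.P.MP_6f117a_ag.Surf

open MvPolynomial Module
open Ideal (span)
open scoped Polynomial WithZero

universe u

theorem bezout_t1 {R : Type u} [CommRing R] [IsDomain R] [IsGCDMonoid R]
    {π π' : R[X]} (h : Irreducible π) (h1 : 1 ≤ π.natDegree) (h2 : ¬π ∣ π') :
    ∃ (A B : R[X]) (g : R), g ≠ 0 ∧ A * π + B * π' = Polynomial.C g := by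
  classical
  let K := FractionRing R
  have hp : π.IsPrimitive := h.isPrimitive (by omega)
  have hi := (hp.irreducible_iff_irreducible_map_fraction_map (K := K)).1 h
  have hc : IsCoprime (π.map (algebraMap R K)) (π'.map (algebraMap R K)) :=
    hi.coprime_iff_not_dvd.2 fun hd => h2 (hp.dvd_of_fraction_map_dvd_fraction_map hd)
  obtain ⟨p, q, -, -, e⟩ := Polynomial.exists_mul_add_mul_eq_C_resultant π π' le_rfl le_rfl
    (.inl (by omega))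
  refine ⟨p, q, _, fun h0 => Polynomial.resultant_ne_zero _ _ hc ?_, by rw [← e]; ring⟩
  rw [Polynomial.natDegree_map_eq_of_injective (IsFractionRing.injective R K),
    Polynomial.natDegree_map_eq_of_injective (IsFractionRing.injective R K),
    Polynomial.resultant_map_map, h0, map_zero]

theorem num_t1 {d μ : ℕ} {δ : ℤ} (hd : 300 ≤ d)
    (h : (μ = 3 ∧ (43 * d - d ^ 2 : ℤ) ≤ δ) ∨ (4 ≤ μ ∧ -(μ * d ^ 2 : ℤ) ≤ 4 * δ)) :
    96 * (μ : ℚ) * d * (d - 1) + 64 * (δ : ℚ) <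
      μ * d ^ 2 * (2 * d - 3) + 2 * (δ : ℚ) * (3 * d - 1) := by
  have h1 : (300 : ℚ) ≤ d := by exact_mod_cast hd
  rcases h with ⟨rfl, h⟩ | ⟨h2, h⟩
  · have h3 : (43 * d - d ^ 2 : ℚ) ≤ δ := by exact_mod_cast h
    push_cast
    nlinarith [mul_le_mul_of_nonneg_right h3 (show (0 : ℚ) ≤ 6 * d - 66 by linarith)]
  · have h3 : -(μ * d ^ 2 : ℚ) ≤ 4 * δ := by exact_mod_cast h
    have h4 : (4 : ℚ) ≤ μ := by exact_mod_cast h2
    have h5 : (0 : ℚ) < μ * d ^ 2 := by positivity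
    nlinarith [mul_le_mul_of_nonneg_right h3 (show (0 : ℚ) ≤ 6 * d - 66 by linarith),
      mul_pos h5 (show (0 : ℚ) < d - 165 by linarith), mul_pos (show (0 : ℚ) < μ by linarith)
        (show (0 : ℚ) < d by linarith)]

theorem pT1 (L : Type u) [Field L] [IsAlgClosed L] [CharZero L]
    (hSIG1 : S_SIG1 L) (hSIG2 : S_SIG2 L) (hSIG3 : S_SIG3 L) (hHS : S_HS L) (hIZ : S_IZ L) (hPI : S_PI L) (hHFZ : S_HFZ L) (hDELTA : S_DELTA L) (hEXC : S_EXC L) (hNUM2 : S_NUM2) (hMORSE : S_MORSE L) (hCURVE : S_CURVE L) (hSPREAD : S_SPREAD L) (hTAY : S_TAY L) (hWEB : S_WEB L) :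
    S_T1 L := by
  intro d F hF hd hH γ π μ j P hP hπ hp
  have h2 := hSIG2 d F hF
  have h3 := hSIG3 d F hF
  obtain ⟨p1, p2, p3, p4, p5, -⟩ := hPI d F hF γ π μ j P hP
  obtain ⟨z1, z2, z3, z4, ⟨s, f, f1, f2, f3⟩, z5⟩ := hIZ d F hF μ j _ p1
  obtain ⟨b1, b2, b3⟩ := z5 s f f1
  obtain ⟨e, he⟩ := hHS d F hF _ b1 b2 ⟨f, b3, f2⟩
  obtain ⟨c₁, c, hc⟩ := hHFZ d F hF μ j s _ f e p1 p5 f1 f2 f3 he
  obtain ⟨a, ha, hN⟩ := hNUM2 d μ c ((((j : ℤ) - s) * d + e : ℤ) : ℚ) c₁ (num_t1 hd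
    ((hDELTA d F hF γ π μ j s P f e hP hπ hp f1 f2 he).elim (fun h => .inl
      ⟨h.1, hEXC d F hF hd hH γ π j s P f e (h.1 ▸ hP) h.2 f1 f2 he⟩) .inr))
  obtain ⟨Q, hQ, hQ1, hQ2⟩ := hMORSE d F hF _ z1
    (z2 (Ideal.mem_sup_right ((h2.C_mem_KK F).2 dvd_rfl))) z3 a (a + c) _ _ _ (by omega)
    (fun b' hb => hc a b' ha hb) hN
  obtain ⟨k, hk⟩ := not_forall.1 (mt ((hTAY d F hF γ a _ Q hQ).2 π μ j P hP) hQ1)
  obtain ⟨A, B, g, g0, hg⟩ := bezout_t1 hπ hp hk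
  obtain ⟨s1, s2, s3, s4, s5, s6⟩ := hSPREAD d F hF γ
  obtain ⟨βA, nA, DA, a1, a2, a3⟩ := s2 A
  obtain ⟨βB, nB, DB, c1, c2, c3⟩ := s2 B
  obtain ⟨βg, ng, Dg, g1, g2, g3⟩ := s3 g
  obtain ⟨D, D0, hD⟩ := hP.spec
  obtain ⟨n, E, E', e1, e2, e3, e4⟩ := γ.frac D
  have nz : ∀ {n : ℕ} {G : S L}, G.IsHomogeneous n → ¬F ∣ G → γ.e0 G ≠ 0 :=
    fun h h' h0 => h' ((γ.ker _ _ h).1 h0)
  have e5 : ¬F ∣ E := fun h => mul_ne_zero D0 e3 (e4.trans ((γ.ker _ _ e1).2 h))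
  obtain ⟨N, hN⟩ := hWEB d F hF γ βg (by
    rw [g3]; exact mul_ne_zero (by simpa using nz g1 g2) g0)
  have key : γ.e2 (Polynomial.C (Polynomial.C (Dg * DB * E')) * βA * sp2 (S L) (piOf P) +
      Polynomial.C (Polynomial.C (Dg * DA * E)) * βB *
        sp2 (S L) (sig F 2 ((dl (S L))^[k] Q)) +
      Polynomial.C (Polynomial.C (-(DA * DB * E)) * βg)) = 0 := by
    have cc : ∀ β : (S L)[X], γ.e2 (Polynomial.C β) = Polynomial.C (β.map γ.e0) :=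
      fun β => Polynomial.map_C _
    have e6 : γ.e0 E = D * γ.e0 E' := e4.symm
    simp only [γ.e2.map_add, γ.e2.map_mul]
    rw [a3, c3, p4, hD, cc, cc, cc,
      Polynomial.map_mul, g3, Polynomial.map_C, Polynomial.map_C, Polynomial.map_C]
    simp only [map_neg, map_mul, map_add, e6, ← hg]
    ring
  refine ⟨4 * a, max N (max s (nA + nB + n)), fun cv h0 => ?_⟩
  by_cases x1 : cv.e0 f = 0
  · exact .inr ⟨s, by omega, f, f1, f2, x1⟩
  by_cases x2 : cv.e0 (DA * DB * E) = 0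
  · exact .inr ⟨_, by omega, _, (a1.mul c1).mul e1, fun h => (hF.prime.dvd_or_dvd h).elim
      (fun h => (hF.prime.dvd_or_dvd h).elim a2 c2) e5, x2⟩
  have x3 : ∀ G ∈ IZ hF.prime (piOf P), cv.ev G = 0 := fun G hG => by
    have : span {piOf P} ⊔ KK F ≤ RingHom.ker cv.ev :=
      sup_le ((Ideal.span_singleton_le_iff_mem _).2 h0) (s5 cv)
    have := this (f3 G hG)
    rw [RingHom.mem_ker, map_mul, show cv.ev (C f) = cv.e0 f from eval₂Hom_C _ _ _] at this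
    exact (mul_eq_zero.1 this).resolve_left x1
  by_cases x4 : cv.ev ((dl (S L))^[k] Q) = 0
  · obtain ⟨a', -, h4⟩ := iter_mem h3 hQ k
    have := s1 cv _ key
    have cc : ∀ β : (S L)[X], cv.e2 (Polynomial.C β) = cv.e1 β := fun β => Polynomial.eval₂_C _ _
    have cc' : ∀ β : S L, cv.e1 (Polynomial.C β) = cv.e0 β := fun β => Polynomial.eval₂_C _ _
    simp only [cv.e2.map_add, cv.e2.map_mul] at this
    rw [s6 cv a' _ _ h4, x4, ← s4 cv _ p3, h0, cc (_ * _), cv.e1.map_mul, cc', mul_zero, mul_zero,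
      mul_zero, add_zero, zero_add, map_neg, neg_mul, neg_eq_zero] at this
    exact .inr ((hN cv ((mul_eq_zero.1 this).resolve_left x2)).mono (le_max_left _ _))
  · exact .inl (iter_bound h3 hCURVE z1 (z4 p2) hQ hQ2 k cv x3 x4)

end Pool.Agent.P.MP_6f117a_ag.Surf
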