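import Pool.Agent.P.MP_6f117a_ag.SIface

/-! Step T2 of the proof for surfaces in projective three-space. -/

namespace Pool.Agent.P.MP_6f117a_ag.Surf

open MvPolynomial Module
open Ideal (span)
open scoped Polynomial WithZero

universe u

namespace T2a

variable {L : Type u} [Field L] {F : S L}

theorem on_mono {N N' : ℕ} (h : N ≤ N') {c : Cv F} (hc : On F N c.y) : On F N' c.y := by
  obtain ⟨n, hn, G⟩ := hc
  exact ⟨n, hn.trans h, G⟩

theorem deg_mono {α α' : ℕ} (h : α ≤ α') {c : Cv F} (hc : degree L c.y ≤ α * genus L c.K) :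
    degree L c.y ≤ α' * genus L c.K :=
  hc.trans (mul_le_mul_of_nonneg_right (Int.ofNat_le.2 h) (Int.natCast_nonneg _))

theorem tame_or {P Q R : Cv F → Prop} (hP : Tame F P) (hQ : Tame F Q) (h : ∀ c, R c → P c ∨ Q c) :
    Tame F R := by
  obtain ⟨α, N, h1⟩ := hP
  obtain ⟨α', N', h2⟩ := hQ
  refine ⟨max α α', max N N', fun c hc => (h c hc).elim (fun e => ?_) fun e => ?_⟩
  · exact (h1 c e).imp (deg_mono (le_max_left _ _)) (on_mono (le_max_left _ _))
  · exact (h2 c e).imp (deg_mono (le_max_right _ _)) (on_mono (le_max_right _ _))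

theorem tame_mono {P R : Cv F → Prop} (hP : Tame F P) (h : ∀ c, R c → P c) : Tame F R :=
  tame_or hP hP fun c hc => .inl (h c hc)

theorem ge2_C (γ : GenPt F) (β : (S L)[X]) : γ.e2 (Polynomial.C β) = Polynomial.C (β.map γ.e0) := by
  simp [GenPt.e2]

theorem ge2_CC (γ : GenPt F) (s : S L) :
    γ.e2 (Polynomial.C (Polynomial.C s)) = Polynomial.C (Polynomial.C (γ.e0 s)) := by
  rw [ge2_C, Polynomial.map_C]

theorem ce2_C (c : Cv F) (β : (S L)[X]) : c.e2 (Polynomial.C β) = c.e1 β := by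
  simp [Cv.e2]

theorem ce2_CC (c : Cv F) (s : S L) : c.e2 (Polynomial.C (Polynomial.C s)) = c.e0 s := by
  rw [ce2_C]; simp [Cv.e1]

theorem ker_le {R A B : Type u} [CommRing R] [CommRing A] [CommRing B] (f : R →+* A) (g : R →+* B)
    (h : ∀ x, f x = 0 → g x = 0) {x y : R} (e : f x = f y) : g x = g y := by
  have := h (x - y) (by rw [map_sub, e, sub_self])
  rwa [map_sub, sub_eq_zero] at this

/-- Every spreading of `π` is tame. -/
def Tm (γ : GenPt F) (π : γ.K[X][X]) : Prop := ∀ (β : (S L)[X][X]) (k : γ.K),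
  π = Polynomial.C (Polynomial.C k) * γ.e2 β → Tame F fun c => c.e2 β = 0

theorem tm_intro {γ : GenPt F} (h1 : ∀ (c : Cv F) (β : (S L)[X][X]), γ.e2 β = 0 → c.e2 β = 0)
    {π : γ.K[X][X]} (β' : (S L)[X][X]) (D : γ.K)
    (e : γ.e2 β' = Polynomial.C (Polynomial.C D) * π) (ht : Tame F fun c => c.e2 β' = 0) :
    Tm γ π := by
  intro β k hk
  obtain ⟨n, A, B, -, hB, hB0, hAB⟩ := γ.frac (D * k)
  have hFB : ¬F ∣ B := fun h => hB0 ((γ.ker n B hB).2 h)
  have t1 : Tame F fun c => c.e0 B = 0 := ⟨0, n, fun c hc => .inr ⟨n, le_rfl, B, hB, hFB, hc⟩⟩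
  refine tame_or t1 ht fun c hc => ?_
  have h2 : γ.e2 (Polynomial.C (Polynomial.C B) * β') = γ.e2 (Polynomial.C (Polynomial.C A) * β) := by
    have h3 : γ.e0 A = D * k * γ.e0 B := hAB.symm
    rw [map_mul, map_mul, ge2_CC, ge2_CC, e, hk, h3]
    simp only [map_mul]
    ring
  have h4 : c.e2 _ = c.e2 _ := ker_le (R := (S L)[X][X]) γ.e2 c.e2 (h1 c) h2
  rw [map_mul, map_mul, ce2_CC, ce2_CC, hc, mul_zero] at h4
  exact mul_eq_zero.1 h4

theorem tm_elim {γ : GenPt F} {π : γ.K[X][X]} (h : Tm γ π) {β : (S L)[X][X]} {D : γ.K}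
    (hD : D ≠ 0) (e : γ.e2 β = Polynomial.C (Polynomial.C D) * π) :
    Tame F fun c => c.e2 β = 0 := by
  refine h β D⁻¹ ?_
  rw [e, ← mul_assoc, ← map_mul, ← map_mul, inv_mul_cancel₀ hD, map_one, map_one, one_mul]

end T2a

open T2a in
theorem pT2 (L : Type u) [Field L] [IsAlgClosed L] [CharZero L]
    (hSIG1 : S_SIG1 L) (hGEN : S_GEN L) (hSPREAD : S_SPREAD L) (hLIFT : S_LIFT L) (hPI : S_PI L) (hWEB : S_WEB L) (hT0 : S_T0 L) (hT1 : S_T1 L) :
    S_T2 L := by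
  intro d F hF hd hN
  obtain ⟨γ⟩ := hGEN d F hF
  obtain ⟨s1, s2, s3, s4, -⟩ := hSPREAD d F hF γ
  have ne : ∀ (n : ℕ) (D : S L), D.IsHomogeneous n → ¬F ∣ D → γ.e0 D ≠ 0 :=
    fun n D h1 h2 h => h2 ((γ.ker n D h1).1 h)
  have irr : ∀ π : γ.K[X][X], Irreducible π → Tm γ π := by
    intro π hπ
    rcases Nat.eq_zero_or_pos π.natDegree with h0 | h0
    · have e := Polynomial.eq_C_of_natDegree_eq_zero h0
      have hg : π.coeff 0 ≠ 0 := fun h => hπ.ne_zero (by rw [e, h, map_zero])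
      obtain ⟨β, n, D, h1, h2, h3⟩ := s3 (π.coeff 0)
      obtain ⟨N, h4⟩ := hWEB d F hF γ β (by
        rw [h3]; exact mul_ne_zero (Polynomial.C_ne_zero.2 (ne n D h1 h2)) hg)
      refine tm_intro s1 (Polynomial.C β) (γ.e0 D) (by rw [ge2_C, h3, map_mul, ← e])
        ⟨0, N, fun c hc => .inr (h4 c ((ce2_C c β).symm.trans hc))⟩
    · obtain ⟨μ, j, P, hP⟩ := hLIFT d F hF γ π hπ.ne_zero
      obtain ⟨-, -, p3, p4, -⟩ := hPI d F hF γ π μ j P hP
      obtain ⟨D, -, hD⟩ := hP.spec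
      refine tm_intro s1 _ D hD (tame_mono (hT1 d F hF hd hN γ π μ j P hP hπ h0) fun c hc => ?_)
      rw [s4 c _ p3, p4]
      exact hc
  have all : ∀ π : γ.K[X][X], π ≠ 0 → Tm γ π := by
    intro π
    induction π using WfDvdMonoid.induction_on_irreducible with
    | zero => exact fun h => (h rfl).elim
    | unit π hπ =>
      intro _
      obtain ⟨r, hr, rfl⟩ := Polynomial.isUnit_iff.1 hπ
      obtain ⟨v, hv, rfl⟩ := Polynomial.isUnit_iff.1 hr
      refine tm_intro s1 1 v⁻¹ ?_ ⟨0, 0, fun c hc => ?_⟩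
      · rw [← map_mul, ← map_mul, inv_mul_cancel₀ hv.ne_zero, map_one, map_one, map_one]
      · exact absurd (c.e2.map_one.symm.trans hc) one_ne_zero
    | mul a i ha hi ih =>
      intro _
      obtain ⟨β, n, D, h1, h2, h3⟩ := s2 i
      obtain ⟨β', n', D', h4, h5, h6⟩ := s2 a
      refine tm_intro s1 (β * β') (γ.e0 D * γ.e0 D') ?_
        (tame_or (tm_elim (irr i hi) (ne n D h1 h2) h3) (tm_elim (ih ha) (ne n' D' h4 h5) h6)
          fun c hc => ?_)
      · rw [map_mul, h3, h6]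
        simp only [map_mul]
        ring
      · exact mul_eq_zero.1 ((c.e2.map_mul β β').symm.trans hc)
  obtain ⟨β, α, h1, h2⟩ := hT0 d F hF (by omega) γ
  exact tame_or (P := fun c => degree L c.y ≤ α * genus L c.K) ⟨α, 0, fun c hc => .inl hc⟩
    (all _ h1 β 1 (by simp)) fun c _ => h2 c

end Pool.Agent.P.MP_6f117a_ag.Surf
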