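import Pool.Agent.P.MP_6f117a_ag.SIface

/-! Step TAY of the proof for surfaces in projective three-space. -/

namespace Pool.Agent.P.MP_6f117a_ag.Surf

open MvPolynomial Module
open Ideal (span)
open scoped Polynomial WithZero

universe u

section

variable {A B : Type u} [CommRing A] [CommRing B] (φ : A →+* B)

theorem map_dl_tay (H : MvPolynomial T2 A) : map φ (dl A H) = dl B (map φ H) := by
  induction H using MvPolynomial.induction_on with
  | C a => simp [derivation_C]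
  | add p q hp hq => simp only [map_add, hp, hq]
  | mul_X p j hp =>
    simp only [Derivation.leibniz, smul_eq_mul, map_add, map_mul, hp, map_X]
    rcases j with j | j <;> simp [dl, mkDerivation_X]

theorem map_iter_tay (k : ℕ) (H : MvPolynomial T2 A) :
    map φ ((dl A)^[k] H) = (dl B)^[k] (map φ H) := by
  induction k with
  | zero => rfl
  | succ k ih => rw [Function.iterate_succ_apply', Function.iterate_succ_apply', map_dl_tay, ih]

theorem map_kill_tay (H : MvPolynomial T2 A) : map φ (kill A 2 H) = kill B 2 (map φ H) := by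
  induction H using MvPolynomial.induction_on with
  | C a => simp [kill]
  | add p q hp hq => simp only [map_add, hp, hq]
  | mul_X p j hp =>
    simp only [map_mul, hp, map_X]
    rcases j with j | j <;> simp [kill, apply_ite (map φ)]

theorem map_sp2_tay (H : MvPolynomial T2 A) :
    sp2 B (map φ H) = Polynomial.mapRingHom (Polynomial.mapRingHom φ) (sp2 A H) := by
  induction H using MvPolynomial.induction_on with
  | C a => simp [sp2]
  | add p q hp hq => simp only [map_add, hp, hq]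
  | mul_X p j hp =>
    simp only [map_mul, hp, map_X]
    rcases j with j | j <;> fin_cases j <;> simp [sp2]

end

section

variable {L : Type u} [Field L] {F : S L}

theorem iter_sig_tay {d : ℕ} (h : Sig3 d F) (k : ℕ) (G : U L) :
    (dl (S L))^[k] (sig F 2 G) = C (dF F 2 ^ (2 * k)) * sig F 2 ((dl (S L))^[k] G) := by
  induction k with
  | zero => simp
  | succ k ih =>
    rw [Function.iterate_succ_apply', Function.iterate_succ_apply', ih, Derivation.leibniz,
      derivation_C, h.dl_sig, smul_zero, add_zero, smul_eq_mul, map_pow, map_pow]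
    ring

theorem wh_tay {K : Type u} [Field K] (φ : S L →+* K) {a b : ℕ} {H : U L}
    (h : H ∈ bih L w2 (a, b)) : IsWeightedHomogeneous w2 (map φ H) a := fun k hk =>
  (mem_bih'.1 h k fun e => hk (by rw [coeff_map, e, map_zero])).1

theorem dvd_tay (γ : GenPt F) {a b : ℕ} {H : U L} (h : H ∈ bih L w2 (a, b))
    (h0 : map γ.e0 H = 0) : C F ∣ H := (C_dvd_iff_dvd_coeff _ _).2 fun k =>
  (γ.ker _ _ (coeff_hom h k)).1 (by simpa [coeff_map, GenPt.e0] using congrArg (coeff k) h0)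

theorem clear_tay (hF : Prime F) (γ : GenPt F) {w : ℕ} {H : MvPolynomial T2 γ.K}
    (h : IsWeightedHomogeneous w2 H w) : ∃ (n : ℕ) (D : S L) (N₀ : ℕ), D.IsHomogeneous n ∧
      ¬F ∣ D ∧ ∀ N, N₀ ≤ N → ∃ H₀ ∈ bih L w2 (w, N), map γ.e0 H₀ = C (γ.e0 D) * H := by
  induction h using IsWeightedHomogeneous.induction_on with
  | zero => exact ⟨0, 1, 0, isHomogeneous_one _ _, hF.not_dvd_one, fun N _ =>
      ⟨0, zero_mem _, by simp⟩⟩
  | add p q _ _ hp hq =>
    obtain ⟨n, D, N₁, h1, h2, h3⟩ := hp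
    obtain ⟨n', D', N₂, h4, h5, h6⟩ := hq
    refine ⟨n + n', D * D', N₁ + N₂ + n + n', h1.mul h4, fun e => (hF.dvd_or_dvd e).elim h2 h5,
      fun N hN => ?_⟩
    obtain ⟨H₁, a1, a2⟩ := h3 (N - n') (by omega)
    obtain ⟨H₂, a3, a4⟩ := h6 (N - n) (by omega)
    refine ⟨C D' * H₁ + C D * H₂, add_mem ?_ ?_, ?_⟩
    · have := SetLike.mul_mem_graded (C_mem_bih w2 h4) a1
      rwa [Prod.mk_add_mk, zero_add, Nat.add_sub_cancel' (by omega)] at this
    · have := SetLike.mul_mem_graded (C_mem_bih w2 h1) a3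
      rwa [Prod.mk_add_mk, zero_add, Nat.add_sub_cancel' (by omega)] at this
    · simp only [map_add, map_mul, map_C, a2, a4]
      ring
  | monomial k c hk =>
    obtain ⟨n, A, B, h1, h2, h3, h4⟩ := γ.frac c
    refine ⟨n, B, k.degree + n, h2, fun e => h3 ((γ.ker n B h2).2 e), fun N hN =>
      ⟨monomial k (A * X 0 ^ (N - (k.degree + n))), ?_, ?_⟩⟩
    · have := monomial_mem_bih w2 k (h1.mul (isHomogeneous_X_pow (0 : Fin 4) (N - (k.degree + n))))
      rwa [hk, ← add_assoc, Nat.add_sub_cancel' hN] at this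
    · rw [map_monomial, C_mul_monomial]
      congr 1
      simp [GenPt.e0, γ.y0, ← h4, mul_comm]

end

theorem pTAY (L : Type u) [Field L] [IsAlgClosed L] [CharZero L]
    (hSIG1 : S_SIG1 L) (hSIG2 : S_SIG2 L) (hSIG3 : S_SIG3 L) (hPI : S_PI L) (hTAYC : S_TAYC.{u}) :
    S_TAY L := by
  classical
  intro d F hF γ a b G hG
  have h1 := hSIG1 d F hF
  have h2 := hSIG2 d F hF
  have h3 := hSIG3 d F hF
  have : CharZero γ.K := charZero_of_injective_algebraMap (algebraMap L γ.K).injective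
  have hs := h2.sig_mem 2 a b G hG
  have hk : kill γ.K 2 (map γ.e0 (sig F 2 G)) = map γ.e0 (sig F 2 G) := by
    rw [← map_kill_tay, h2.kill_sig]
  have hd : ∀ k : ℕ, γ.e2 (sp2 (S L) (sig F 2 ((dl (S L))^[k] G))) ∣
      sp2 γ.K ((dl γ.K)^[k] (map γ.e0 (sig F 2 G))) := fun k => by
    rw [← map_iter_tay, map_sp2_tay, iter_sig_tay h3, map_mul, map_mul]
    exact Dvd.intro_left _ rfl
  have hz : map γ.e0 (sig F 2 G) = 0 → G ∈ KK F := fun h => (h2.mem_KK 2 G).2 (dvd_tay γ hs h)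
  refine ⟨fun h => ?_, fun π μ j P hP h => ?_⟩
  · obtain ⟨N, hN⟩ := hTAYC γ.K a 0 _ 0 (wh_tay γ.e0 hs) (isWeightedHomogeneous_zero _ _ _) hk
      (map_zero _) (map_zero _) fun k => by rw [map_zero, ← h k]; exact hd k
    exact hz ((mul_eq_zero.1 (zero_dvd_iff.1 hN)).resolve_left (pow_ne_zero _ (X_ne_zero _)))
  obtain ⟨p1, p2, p3, p4, -, p6⟩ := hPI d F hF γ π μ j P hP
  obtain ⟨D, hD, hD'⟩ := hP.spec
  have hQ := wh_tay γ.e0 p1
  obtain ⟨N, H', hN⟩ := hTAYC γ.K a μ _ (map γ.e0 (piOf P)) (wh_tay γ.e0 hs) hQ hk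
    (by rw [← map_kill_tay, p3]) (by rw [← map_dl_tay, p2, map_zero]) fun k => by
      rw [map_sp2_tay, p4]
      refine Dvd.dvd.trans ?_ (hd k)
      exact hD' ▸ (Polynomial.isUnit_C.2 (Polynomial.isUnit_C.2 hD.isUnit)).mul_left_dvd.2 (h k)
  obtain ⟨H'', rfl⟩ := (X_prime (R := γ.K) (i := (.inl 0 : T2))).pow_dvd_of_dvd_mul_left N p6
    ⟨_, hN.symm⟩
  rw [mul_left_comm, mul_right_inj' (pow_ne_zero _ (X_ne_zero _))] at hN
  let _ := weightedGradedAlgebra γ.K w2
  have hb := Ideal.IsHomogeneous.bot (weightedHomogeneousSubmodule γ.K w2)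
  have hm : map γ.e0 (sig F 2 G) ∈ span {map γ.e0 (piOf P)} ⊔ ⊥ :=
    Ideal.mem_sup_left (Ideal.mem_span_singleton.2 ⟨_, hN⟩)
  rcases lt_or_ge a μ with hlt | hle
  · exact ⟨0, 1, isHomogeneous_one _ _, hF.prime.not_dvd_one, Ideal.mem_sup_right
      (Ideal.mul_mem_left _ _ (hz (mem_of_comp hb hQ (wh_tay γ.e0 hs) (fun i => by omega) hm)))⟩
  obtain ⟨w, rfl⟩ := Nat.exists_eq_add_of_le hle
  obtain ⟨H, -, hH, e⟩ := exists_comp (Ideal.IsHomogeneous.top _) hb hQ (wh_tay γ.e0 hs)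
    (by rwa [Ideal.mul_top])
  rw [Ideal.mem_bot, sub_eq_zero] at e
  obtain ⟨n, D₀, N₀, a1, a2, a3⟩ := clear_tay hF.prime γ hH
  obtain ⟨H₀, a4, a5⟩ := a3 (N₀ + n + (b + 2 * (μ + w) * (d - 1))) (by omega)
  have a6 := a1.mul (isHomogeneous_X_pow (0 : Fin 4) (j + N₀))
  have a7 : C (D₀ * X 0 ^ (j + N₀)) * sig F 2 G - piOf P * H₀ ∈
      bih L w2 (μ + w, j + (N₀ + n + (b + 2 * (μ + w) * (d - 1)))) := by
    refine sub_mem ?_ (SetLike.mul_mem_graded p1 a4)
    have := SetLike.mul_mem_graded (C_mem_bih w2 a6) hs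
    rwa [Prod.mk_add_mk, zero_add, show n + (j + N₀) + (b + 2 * (μ + w) * (d - 1)) =
      j + (N₀ + n + (b + 2 * (μ + w) * (d - 1))) by ring] at this
  have a8 := dvd_tay γ a7 (by
    rw [map_sub, map_mul, map_mul _ (piOf P), a5, e, map_C, map_mul]
    simp [GenPt.e0, γ.y0, mul_left_comm])
  refine ⟨_, D₀ * X 0 ^ (j + N₀) * dF F 2 ^ (2 * (μ + w)), a6.mul ((h1.dF_hom 2).pow _),
    fun hc => ?_, ?_⟩
  · rcases hF.prime.dvd_or_dvd hc with hc | hc
    · rcases hF.prime.dvd_or_dvd hc with hc | hc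
      · exact a2 hc
      · exact h1.not_dvd 1 _ hF.two (X_ne_zero _) (isHomogeneous_X _ _)
          (hF.prime.dvd_of_dvd_pow hc)
    · exact h1.not_dvd_dF 2 (hF.prime.dvd_of_dvd_pow hc)
  · rw [show C (D₀ * X 0 ^ (j + N₀) * dF F 2 ^ (2 * (μ + w))) * G = piOf P * H₀ +
      ((C (D₀ * X 0 ^ (j + N₀)) * sig F 2 G - piOf P * H₀) - C (D₀ * X 0 ^ (j + N₀)) *
        (sig F 2 G - C (dF F 2) ^ (2 * (μ + w)) * G)) by rw [map_mul _ (_ * _), map_pow]; ring]
    refine add_mem (Ideal.mem_sup_left (Ideal.mem_span_singleton.2 ⟨_, rfl⟩))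
      (Ideal.mem_sup_right (h2.le_KK (sub_mem
        (Ideal.mem_sup_right (Ideal.mem_span_singleton.2 a8))
        (Ideal.mem_sup_left (Ideal.mul_mem_left _ _ (h2.sig_sub 2 _ b G hG))))))

end Pool.Agent.P.MP_6f117a_ag.Surf
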