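import Pool.Agent.P.MP_6f117a_ag.SIface

/-! Step TAYC of the proof for surfaces in projective three-space. -/

namespace Pool.Agent.P.MP_6f117a_ag.Surf

open MvPolynomial Module
open Ideal (span)
open scoped Polynomial WithZero

universe u

theorem scale_tayc {K O : Type u} [Field K] [CommRing O] [Algebra K O] (w : O) (x : T2 → O)
    {a : ℕ} {G : MvPolynomial T2 K} (hG : IsWeightedHomogeneous w2 G a) :
    aeval (fun j => w ^ w2 j * x j) G = w ^ a * aeval x G := by
  rw [G.as_sum, map_sum, map_sum, Finset.mul_sum]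
  refine Finset.sum_congr rfl fun m hm => ?_
  rw [aeval_monomial, aeval_monomial, ← hG (mem_support_iff.1 hm), mul_left_comm,
    Finsupp.weight_apply]
  congr 1
  simp only [Finsupp.prod, Finsupp.sum, mul_pow, Finset.prod_mul_distrib, ← pow_mul,
    Finset.prod_pow_eq_pow_sum, smul_eq_mul, mul_comm]

/-- The jets along the orbit of the change of parameter. -/
noncomputable def theta_tayc (K : Type u) {O : Type u} [Field K] [CommRing O] [Algebra K O]
    (z v : O) : MvPolynomial T2 K →ₐ[K] O[X] :=
  aeval (Sum.elim ![1, Polynomial.C z, 0]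
    ![Polynomial.X, Polynomial.C v + Polynomial.C z * Polynomial.X, 0])

theorem der_tayc {K O : Type u} [Field K] [CommRing O] [Algebra K O] (z v : O)
    (G : MvPolynomial T2 K) :
    Polynomial.derivative (theta_tayc K z v G) = theta_tayc K z v (dl K G) := by
  have hX : ∀ j, Polynomial.derivative (theta_tayc K z v (X j)) = theta_tayc K z v (dl K (X j)) := by
    rintro (j | j) <;> fin_cases j <;> simp [theta_tayc, dl, mkDerivation_X]
  induction G using MvPolynomial.induction_on with
  | C c =>
    rw [derivation_C, map_zero, algHom_C, Polynomial.algebraMap_apply, Polynomial.derivative_C]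
  | add p q hp hq => rw [map_add, map_add, map_add, map_add, hp, hq]
  | mul_X p j hp =>
    rw [map_mul, Polynomial.derivative_mul, hp, hX, Derivation.leibniz, smul_eq_mul, smul_eq_mul,
      map_add, map_mul, map_mul]
    ring

theorem zero_tayc {K O : Type u} [Field K] [CommRing O] [Algebra K O] (z v : O)
    (G : MvPolynomial T2 K) : (theta_tayc K z v G).eval 0 =
      Polynomial.aevalTower (Polynomial.aeval z : K[X] →ₐ[K] O) v (sp2 K G) := by
  have : ((Polynomial.aeval (0 : O) : O[X] →ₐ[O] O).restrictScalars K).comp (theta_tayc K z v) =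
      (Polynomial.aevalTower (Polynomial.aeval z : K[X] →ₐ[K] O) v).comp (sp2 K) := by
    refine algHom_ext ?_
    rintro (j | j) <;> fin_cases j <;> simp [theta_tayc, sp2]
  simpa using DFunLike.congr_fun this G

theorem eval_tayc {K O : Type u} [Field K] [CommRing O] [Algebra K O] (w : O) (x : T2 → O)
    (hw : x (.inl 0) * w = 1) {a : ℕ} {G : MvPolynomial T2 K}
    (hG : IsWeightedHomogeneous w2 G a) (hk : kill K 2 G = G) :
    (theta_tayc K (x (.inl 1) * w) ((x (.inr 1) - x (.inl 1) * x (.inr 0) * w) * w ^ 2) G).eval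
      (x (.inr 0) * w ^ 2) = w ^ a * aeval x G := by
  have : ((Polynomial.aeval (x (.inr 0) * w ^ 2) : O[X] →ₐ[O] O).restrictScalars K).comp
      (theta_tayc K (x (.inl 1) * w) ((x (.inr 1) - x (.inl 1) * x (.inr 0) * w) * w ^ 2)) =
      (aeval fun j => w ^ w2 j * x j).comp (kill K 2) := by
    refine algHom_ext ?_
    rintro (j | j) <;> fin_cases j <;> simp [theta_tayc, kill, w2]
    · rw [mul_comm, hw]
    · ring
    · ring
    · ring
  have h1 := DFunLike.congr_fun this G
  rw [AlgHom.comp_apply, AlgHom.comp_apply, hk, scale_tayc w x hG] at h1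
  simpa using h1

theorem pTAYC : S_TAYC.{u} := by
  intro K _ _ a μ G Q hG hQ kG kQ dQ hdiv
  set O := Localization.Away (X (.inl 0) : MvPolynomial T2 K) with hO
  set w : O := IsLocalization.Away.invSelf (X (.inl 0) : MvPolynomial T2 K) with hw
  set x : T2 → O := fun j => algebraMap (MvPolynomial T2 K) O (X j) with hx
  have hxw : x (.inl 0) * w = 1 := IsLocalization.Away.mul_invSelf _
  have hal : ∀ P : MvPolynomial T2 K, aeval x P = algebraMap (MvPolynomial T2 K) O P := by
    have : aeval x = IsScalarTower.toAlgHom K (MvPolynomial T2 K) O := algHom_ext fun j => by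
      simp [hx]
    intro P
    rw [this]
    rfl
  have hunit : ∀ n : ℕ, n ≠ 0 → IsUnit (n : O) := fun n hn => by
    simpa using (isUnit_iff_ne_zero.2 (Nat.cast_ne_zero (R := K).2 hn)).map (algebraMap K O)
  set z := x (.inl 1) * w with hz
  set v := (x (.inr 1) - x (.inl 1) * x (.inr 0) * w) * w ^ 2 with hv
  set lam := Polynomial.aevalTower (Polynomial.aeval z : K[X] →ₐ[K] O) v with hlam
  have h1 : theta_tayc K z v Q = Polynomial.C ((theta_tayc K z v Q).coeff 0) := by
    ext k
    rcases k with _ | k
    · simp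
    · have e1 := congrArg (fun p => Polynomial.coeff p k) (der_tayc z v Q)
      simp only [dQ, map_zero, Polynomial.coeff_zero, Polynomial.coeff_derivative] at e1
      rw [Polynomial.coeff_C_succ]
      exact ((hunit (k + 1) k.succ_ne_zero).mul_left_eq_zero).1 (by push_cast; exact e1)
  have h2 : lam (sp2 K Q) = w ^ μ * algebraMap _ O Q := by
    rw [← zero_tayc, ← hal, ← eval_tayc w x hxw hQ kQ, h1, Polynomial.eval_C, Polynomial.eval_C]
  have h3 : ∀ k, Polynomial.derivative^[k] (theta_tayc K z v G) =
      theta_tayc K z v ((dl K)^[k] G) := by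
    intro k
    induction k with
    | zero => rfl
    | succ k ih => rw [Function.iterate_succ_apply', Function.iterate_succ_apply', ih, der_tayc]
  have h4 : ∀ k, algebraMap _ O Q ∣ (theta_tayc K z v G).coeff k := by
    intro k
    have e1 := Polynomial.coeff_iterate_derivative (k := k) (theta_tayc K z v G) 0
    rw [h3, Polynomial.coeff_zero_eq_eval_zero, zero_tayc, zero_add, Nat.descFactorial_self,
      nsmul_eq_mul] at e1
    rw [← (hunit _ k.factorial_ne_zero).dvd_mul_left, ← e1]
    exact (Dvd.intro_left _ h2.symm).trans (map_dvd lam (hdiv k))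
  have h5 : algebraMap _ O Q ∣ w ^ a * algebraMap _ O G := by
    rw [← hal G, ← eval_tayc w x hxw hG kG, Polynomial.eval_eq_sum_range]
    exact Finset.dvd_sum fun k _ => (h4 k).mul_right _
  rw [((IsUnit.of_mul_eq_one_right _ hxw).pow a).dvd_mul_left] at h5
  obtain ⟨y, hy⟩ := h5
  obtain ⟨N, H, h6⟩ := IsLocalization.Away.surj (X (.inl 0) : MvPolynomial T2 K) y
  refine ⟨N, H, ?_⟩
  apply IsLocalization.injective O
    (powers_le_nonZeroDivisors_of_noZeroDivisors (X_ne_zero (R := K) (Sum.inl 0 : T2)))
  rw [map_mul, map_mul, map_pow, hy, ← h6]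
  ring

end Pool.Agent.P.MP_6f117a_ag.Surf
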