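import Pool.Agent.P.MP_6f117a_ag.SIface

/-! Step WEB of the proof for surfaces in projective three-space. -/

namespace Pool.Agent.P.MP_6f117a_ag.Surf

open MvPolynomial Module
open Ideal (span)
open scoped Polynomial WithZero

universe u

namespace WebS

variable {L : Type u} [Field L]

/-- The affine plane coordinates as the coordinates number one and two. -/
noncomputable def io (L : Type u) [Field L] : A2 L →ₐ[L] S L := aeval ![X 1, X 2]

/-- Forms as polynomials in the last coordinate over the affine plane. -/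
noncomputable def th (L : Type u) [Field L] : S L →ₐ[L] (A2 L)[X] :=
  aeval ![1, Polynomial.C (X 0), Polynomial.C (X 1), Polynomial.X]

theorem th_io (φ : A2 L) : th L (io L φ) = Polynomial.C φ := by
  have : (th L).comp (io L) = Polynomial.CAlgHom := by
    ext1 i; fin_cases i <;> simp [th, io]
  exact DFunLike.congr_fun this φ

theorem th_coeff {d : ℕ} {F : S L} (hF : Good d F) : (th L F).coeff d ≠ 0 := by
  have : (th L F).coeff d = C (coeff (Finsupp.single 3 d) F) := by
    have h : ∀ m c, th L (monomial m c) =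
        Polynomial.C (C c * X 0 ^ m 1 * X 1 ^ m 2) * Polynomial.X ^ m 3 := fun m c => by
      simp [th, aeval_monomial, Finsupp.prod_fintype, Fin.prod_univ_four, mul_assoc]
    conv_lhs => rw [F.as_sum, map_sum, Polynomial.finsetSum_coeff]
    rw [Finset.sum_eq_single (Finsupp.single 3 d) (fun m hm hne => ?_) fun hm => by
      simp [notMem_support_iff.1 hm]]
    · simp [h]
    · have := hF.hom (mem_support_iff.1 hm)
      rw [weight_one, Finsupp.degree_eq_sum, Fin.sum_univ_four] at this
      rw [h, Polynomial.coeff_C_mul_X_pow, if_neg fun e => hne ?_]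
      ext i
      fin_cases i <;> simp <;> omega
  rw [this]
  exact C_ne_zero.2 (hF.mon 2)

theorem on_of {d : ℕ} {F : S L} (hF : Good d F) {K : Type u} [Field K] [Algebra L K]
    {y : Fin 4 → K} (h0 : y 0 = 1) {N : ℕ} {φ : A2 L} (h1 : φ ≠ 0) (h2 : φ.totalDegree ≤ N)
    (h3 : aeval y (io L φ) = 0) : On F N y := by
  have key : ∀ {R : Type u} [CommRing R] [Algebra L R] (θ : S L →ₐ[L] R), θ (X 0) = 1 →
      θ (∑ i ∈ Finset.range (φ.totalDegree + 1), X 0 ^ (φ.totalDegree - i) *
        io L (homogeneousComponent i φ)) = θ (io L φ) := fun θ h => by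
    simp only [map_sum, map_mul, map_pow, h, one_pow, one_mul]
    rw [← map_sum, ← map_sum, sum_homogeneousComponent]
  refine ⟨_, h2, ∑ i ∈ Finset.range (φ.totalDegree + 1), X 0 ^ (φ.totalDegree - i) *
    io L (homogeneousComponent i φ), IsHomogeneous.sum _ _ _ fun i hi => ?_, fun h => ?_,
    (key _ (by simpa using h0)).trans h3⟩
  · convert (isHomogeneous_X_pow (0 : Fin 4) (φ.totalDegree - i)).mul
      ((homogeneousComponent_isHomogeneous i φ).aeval ![X 1, X 2] (n := 1) fun j => by
        fin_cases j <;> exact isHomogeneous_X L _) using 1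
    · rfl
    · have := Finset.mem_range.1 hi
      omega
  · have := map_dvd (th L) h
    rw [key _ (by simp [th]), th_io] at this
    have h4 := (Polynomial.le_natDegree_of_ne_zero (th_coeff hF)).trans
      (Polynomial.natDegree_le_of_dvd this (Polynomial.C_ne_zero.2 h1))
    have := hF.two
    simp at h4
    omega

theorem alg_rel {d : ℕ} {F : S L} (hF : Good d F) (γ : GenPt F) {β : (S L)[X]}
    (h : β.map γ.e0 ≠ 0) : ∃ p : (A2 L)[X][X], p.coeff 0 ≠ 0 ∧
      (p.eval₂ (Polynomial.mapRingHom (io L : A2 L →+* S L)) β).map γ.e0 = 0 := by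
  let _ := (Polynomial.mapRingHom (γ.e0.comp (io L : A2 L →+* S L))).toAlgebra
  have a0 : ∀ φ, algebraMap (A2 L)[X] γ.K[X] (Polynomial.C φ) = Polynomial.C (γ.e0 (io L φ)) :=
    fun φ => Polynomial.map_C _
  have a1 : ∀ φ, IsAlgebraic (A2 L)[X] (Polynomial.C (γ.e0 (io L φ))) := fun φ =>
    a0 φ ▸ isAlgebraic_algebraMap _
  have a2 : ∀ i, IsAlgebraic (A2 L)[X] (Polynomial.C (γ.e0 (X i))) := fun i => by
    fin_cases i
    · simpa [GenPt.e0, γ.y0] using isAlgebraic_one
    · simpa [io] using a1 (X 0)
    · simpa [io] using a1 (X 1)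
    refine ⟨(th L F).map Polynomial.C, (Polynomial.map_ne_zero_iff Polynomial.C_injective).2
      fun e => th_coeff hF (by rw [e]; rfl), ?_⟩
    have : ∀ G, Polynomial.aeval (Polynomial.C (γ.e0 (X 3))) ((th L G).map
        (Polynomial.C : A2 L →+* (A2 L)[X])) = Polynomial.C (γ.e0 G) := fun G => by
      induction G using MvPolynomial.induction_on with
      | C c => simpa [th, io] using a0 (C c)
      | add p q hp hq => simp only [map_add, Polynomial.map_add, hp, hq]
      | mul_X p i hp =>
        simp only [map_mul, Polynomial.map_mul, hp]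
        congr 1
        fin_cases i <;> simp [th, io, a0, GenPt.e0, γ.y0]
    exact (this F).trans (by rw [show γ.e0 F = 0 from (γ.ker _ _ hF.hom).2 dvd_rfl, map_zero])
  have a3 : ∀ G, IsAlgebraic (A2 L)[X] (Polynomial.C (γ.e0 G)) := fun G => by
    induction G using MvPolynomial.induction_on with
    | C c => simpa [io] using a1 (C c)
    | add p q hp hq => rw [map_add, map_add]; exact hp.add hq
    | mul_X p i hp => rw [map_mul, map_mul]; exact hp.mul (a2 i)
  have a4 : ∀ β : (S L)[X], IsAlgebraic (A2 L)[X] (β.map γ.e0) := fun β => by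
    induction β using Polynomial.induction_on' with
    | add p q hp hq => rw [Polynomial.map_add]; exact hp.add hq
    | monomial n a =>
      rw [Polynomial.map_monomial, ← Polynomial.C_mul_X_pow_eq_monomial]
      refine (a3 a).mul (IsAlgebraic.pow ?_ n)
      rw [show (Polynomial.X : γ.K[X]) = algebraMap (A2 L)[X] γ.K[X] Polynomial.X from
        (Polynomial.map_X _).symm]
      exact isAlgebraic_algebraMap _
  obtain ⟨p, p1, p2⟩ := (a4 β).exists_nonzero_coeff_and_aeval_eq_zero
    (mem_nonZeroDivisors_of_ne_zero h)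
  refine ⟨p, p1, Eq.trans ?_ p2⟩
  rw [← Polynomial.coe_mapRingHom, Polynomial.hom_eval₂, Polynomial.mapRingHom_comp]
  rfl

/-- The plane curve under a curve on the surface. -/
noncomputable def toP [IsAlgClosed L] [CharZero L] {F : S L} (c : Cv F) : PCv L where
  K := c.K
  y := ![c.y 1, c.y 2]
  δ := c.δ
  dt := c.dt
  const x hx := (const_or_trans x).resolve_right fun h => by
    obtain ⟨D, -, -, hD⟩ := exists_dt h
    simpa [hx, c.dt] using hD c.δ (c.y 1)
  dep := by
    have h1 := (const_or_trans (L := L) (c.y 1)).resolve_left fun ⟨a, ha⟩ => by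
      simpa [← ha] using c.dt
    by_contra hc
    have h2 : AlgebraicIndependent L ![c.y 1, c.y 2] :=
      algebraicIndependent_iff.2 fun φ h => by_contra fun h0 => hc ⟨φ, h0, h⟩
    have := h2.lift_cardinalMk_le_trdeg.trans_eq (FF.isTB h1).lift_cardinalMk_eq_trdeg.symm
    simp at this

end WebS

open WebS in
theorem pWEB (L : Type u) [Field L] [IsAlgClosed L] [CharZero L]
    (hSIG1 : S_SIG1 L) (hSPREAD : S_SPREAD L) (hJOU : S_JOU L) :
    S_WEB L := by
  intro d F hF γ β hβ
  obtain ⟨p, p1, p2⟩ := alg_rel hF γ hβ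
  obtain ⟨N, hN⟩ := hJOU _ p1
  refine ⟨N, fun c hc => ?_⟩
  have e : c.e0.comp (io L : A2 L →+* S L) = (aeval ![c.y 1, c.y 2] : A2 L →ₐ[L] c.K) := by
    ext i
    · simp [Cv.e0]
    · fin_cases i <;> simp [Cv.e0, io]
  have := (hSPREAD d F hF γ).1 c (Polynomial.C _) ((Polynomial.map_C _).trans
    ((congrArg Polynomial.C p2).trans (map_zero _)))
  rw [show ∀ b, c.e2 (Polynomial.C b) = c.e1 b from fun b => Polynomial.eval₂_C _ _,
    Polynomial.hom_eval₂, hc, Polynomial.eval₂_at_zero] at this
  obtain ⟨φ, h1, h2, h3⟩ := hN (toP c) (((congrArg (Polynomial.eval₂ · (c.δ (c.y 2)) (p.coeff 0))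
    e).symm.trans (Polynomial.eval₂_map _ _ _).symm).trans this)
  exact on_of hF c.y0 h1 h2 ((RingHom.congr_fun e φ).trans h3)

end Pool.Agent.P.MP_6f117a_ag.Surf
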