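import Pool.Agent.P.MP_6f117a_ag.SIface

/-! Step WEBEX of the proof for surfaces in projective three-space. -/

namespace Pool.Agent.P.MP_6f117a_ag.Surf

open MvPolynomial Module
open Ideal (span)
open scoped Polynomial WithZero

universe u

theorem der_webex {L : Type u} [Field L] [CharZero L] (E : Type u) [Field E] [Algebra L E]
    [Algebra (A2 L) E] [IsScalarTower L (A2 L) E] [Algebra.IsAlgebraic (A2 L) E]
    [FaithfulSMul (A2 L) E] : ∃ d : Fin 2 → Derivation L E E,
      ∀ i a, d i (algebraMap (A2 L) E a) = algebraMap (A2 L) E (pderiv i a) := by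
  obtain ⟨D, hD, -⟩ := exists_basis_der _
    ((IsTranscendenceBasis.mvPolynomial (Fin 2) L).algebraMap_comp (A := E))
  refine ⟨D, fun i a => ?_⟩
  induction a using MvPolynomial.induction_on with
  | C a =>
    rw [pderiv_C, map_zero, ← MvPolynomial.algebraMap_eq, ← IsScalarTower.algebraMap_apply,
      Derivation.map_algebraMap]
  | add p q hp hq => simp only [map_add, hp, hq]
  | mul_X p n hp =>
    have h := hD i n
    rw [Function.comp_apply] at h
    rw [map_mul, Derivation.leibniz, Derivation.leibniz, hp, h, pderiv_X, Pi.single_apply]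
    split_ifs <;> simp

theorem field_webex {A : Type u} [CommRing A] [IsDomain A] [IsIntegrallyClosed A] [CharZero A]
    (G : A[X]) (hG : G.Monic) (hirr : Irreducible G) :
    ∃ _ : Fact (Irreducible (G.map (algebraMap A (FractionRing A)))),
      (∀ p : A[X], Polynomial.aeval (AdjoinRoot.root (G.map (algebraMap A (FractionRing A)))) p = 0
        ↔ G ∣ p) ∧
      (∀ x : AdjoinRoot (G.map (algebraMap A (FractionRing A))), ∃ (s : A) (p : A[X]), s ≠ 0 ∧
        algebraMap A _ s * x =
          Polynomial.aeval (AdjoinRoot.root (G.map (algebraMap A (FractionRing A)))) p) ∧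
      ∃ (Δ : A) (b : A[X]), Δ ≠ 0 ∧
        Polynomial.aeval (AdjoinRoot.root (G.map (algebraMap A (FractionRing A))))
          (b * G.derivative) = algebraMap A _ Δ := by
  have hφ : Function.Injective (algebraMap A (FractionRing A)) := IsFractionRing.injective _ _
  have h1 : Irreducible (G.map (algebraMap A (FractionRing A))) :=
    hG.irreducible_iff_irreducible_map_fraction_map.1 hirr
  have : Fact (Irreducible (G.map (algebraMap A (FractionRing A)))) := ⟨h1⟩
  have hker : ∀ p : A[X],
      Polynomial.aeval (AdjoinRoot.root (G.map (algebraMap A (FractionRing A)))) p = 0 ↔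
        G ∣ p := fun p => by
    rw [AdjoinRoot.aeval_eq_of_algebra, AdjoinRoot.mk_eq_zero, Polynomial.map_dvd_map _ hφ hG]
  have hfrac : ∀ x : AdjoinRoot (G.map (algebraMap A (FractionRing A))), ∃ (s : A) (p : A[X]),
      s ≠ 0 ∧ algebraMap A _ s * x =
        Polynomial.aeval (AdjoinRoot.root (G.map (algebraMap A (FractionRing A)))) p := fun x => by
    obtain ⟨q, rfl⟩ := AdjoinRoot.mk_surjective x
    obtain ⟨b, hb, e⟩ := IsLocalization.integerNormalization_spec (nonZeroDivisors A) q
    refine ⟨b, IsLocalization.integerNormalization (nonZeroDivisors A) q,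
      nonZeroDivisors.ne_zero hb, ?_⟩
    rw [AdjoinRoot.aeval_eq_of_algebra, e, ← Algebra.smul_def, AdjoinRoot.smul_mk]
  refine ⟨this, hker, hfrac, ?_⟩
  have h2 : Polynomial.aeval (AdjoinRoot.root (G.map (algebraMap A (FractionRing A))))
      G.derivative ≠ 0 := by
    rw [Ne, hker]
    have h3 : 0 < G.natDegree := hG.natDegree_pos.2 hirr.ne_one
    refine hG.not_dvd_of_natDegree_lt ?_ (Polynomial.natDegree_derivative_lt h3.ne')
    intro h0
    have h4 := Polynomial.derivative_eq_zero.1 h0
    omega
  obtain ⟨s, p, hs, e⟩ := hfrac (Polynomial.aeval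
    (AdjoinRoot.root (G.map (algebraMap A (FractionRing A)))) G.derivative)⁻¹
  refine ⟨s, p, hs, ?_⟩
  rw [map_mul, ← e, mul_assoc, inv_mul_cancel₀ h2, mul_one]

theorem pWEBEX (L : Type u) [Field L] [IsAlgClosed L] [CharZero L] :
    S_WEBEX L := by
  intro g G hg hG hirr
  obtain ⟨_, hker, hfrac, Δ, b, hΔ, hb⟩ := field_webex G hG hirr
  have hpos : 0 < G.natDegree := hG.natDegree_pos.2 hirr.ne_one
  have : Module.Finite (FractionRing (A2 L))
      (AdjoinRoot (G.map (algebraMap (A2 L) (FractionRing (A2 L))))) :=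
    (hG.map _).finite_adjoinRoot
  have : Algebra.IsAlgebraic (A2 L) (FractionRing (A2 L)) :=
    IsLocalization.isAlgebraic _ (nonZeroDivisors (A2 L))
  have : Algebra.IsAlgebraic (A2 L)
      (AdjoinRoot (G.map (algebraMap (A2 L) (FractionRing (A2 L))))) :=
    Algebra.IsAlgebraic.trans _ (FractionRing (A2 L)) _
  have : FaithfulSMul (A2 L)
      (AdjoinRoot (G.map (algebraMap (A2 L) (FractionRing (A2 L))))) := by
    rw [faithfulSMul_iff_algebraMap_injective]
    intro x y h
    rw [IsScalarTower.algebraMap_apply (A2 L) (FractionRing (A2 L)) (AdjoinRoot _),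
      IsScalarTower.algebraMap_apply (A2 L) (FractionRing (A2 L)) (AdjoinRoot _) y] at h
    exact IsFractionRing.injective _ _ ((algebraMap (FractionRing (A2 L)) _).injective h)
  obtain ⟨d, hd⟩ := der_webex (L := L)
    (AdjoinRoot (G.map (algebraMap (A2 L) (FractionRing (A2 L)))))
  obtain ⟨c, hc1, hc2, hc3⟩ : ∃ c : ℕ, 0 < c ∧ g.totalDegree ≤ c ∧
      ∀ i < G.natDegree, (G.coeff i).totalDegree ≤ c := by
    refine ⟨1 + g.totalDegree + (Finset.range G.natDegree).sup fun i => (G.coeff i).totalDegree,
      by omega, by omega, fun i hi => ?_⟩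
    have := Finset.le_sup (f := fun i => (G.coeff i).totalDegree) (Finset.mem_range.2 hi)
    omega
  refine ⟨{ g := g, G := G, c := c, Δ := Δ
            E := AdjoinRoot (G.map (algebraMap (A2 L) (FractionRing (A2 L))))
            u := AdjoinRoot.root _, d := d, g_ne := hg, monic := hG, deg_pos := hpos
            c_pos := hc1, g_deg := hc2, fil := fun i hi => ?_, ker := hker, frac := hfrac
            der := hd, Δ_ne := hΔ, Δ_eq := ⟨b, hb⟩ }, rfl, rfl⟩
  rcases hi.eq_or_lt with rfl | hi
  · rw [hG.coeff_natDegree, totalDegree_one, zero_add]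
  · have h1 := hc3 i hi
    have h2 : c * (i + 1) ≤ c * G.natDegree := Nat.mul_le_mul_left c hi
    rw [mul_add] at h2
    omega

end Pool.Agent.P.MP_6f117a_ag.Surf
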