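import Pool.Agent.P.MP_6f117a_ag.SSig1
import Pool.Agent.P.MP_6f117a_ag.SSig2
import Pool.Agent.P.MP_6f117a_ag.SSig3
import Pool.Agent.P.MP_6f117a_ag.SHfa
import Pool.Agent.P.MP_6f117a_ag.SHfb
import Pool.Agent.P.MP_6f117a_ag.SHs
import Pool.Agent.P.MP_6f117a_ag.SKz
import Pool.Agent.P.MP_6f117a_ag.SHfj1
import Pool.Agent.P.MP_6f117a_ag.SHfj
import Pool.Agent.P.MP_6f117a_ag.SDire
import Pool.Agent.P.MP_6f117a_ag.SDir2
import Pool.Agent.P.MP_6f117a_ag.SCond0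
import Pool.Agent.P.MP_6f117a_ag.SCond
import Pool.Agent.P.MP_6f117a_ag.SKron
import Pool.Agent.P.MP_6f117a_ag.SQue
import Pool.Agent.P.MP_6f117a_ag.SSupa
import Pool.Agent.P.MP_6f117a_ag.SSup
import Pool.Agent.P.MP_6f117a_ag.SP3
import Pool.Agent.P.MP_6f117a_ag.SIz
import Pool.Agent.P.MP_6f117a_ag.SHfz
import Pool.Agent.P.MP_6f117a_ag.SRegseq
import Pool.Agent.P.MP_6f117a_ag.SFree
import Pool.Agent.P.MP_6f117a_ag.SSl1
import Pool.Agent.P.MP_6f117a_ag.SSlice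
import Pool.Agent.P.MP_6f117a_ag.SMorse
import Pool.Agent.P.MP_6f117a_ag.SNum1
import Pool.Agent.P.MP_6f117a_ag.SNum2
import Pool.Agent.P.MP_6f117a_ag.SDeg
import Pool.Agent.P.MP_6f117a_ag.SCurve
import Pool.Agent.P.MP_6f117a_ag.SGen
import Pool.Agent.P.MP_6f117a_ag.SSpread
import Pool.Agent.P.MP_6f117a_ag.SLift
import Pool.Agent.P.MP_6f117a_ag.SPi
import Pool.Agent.P.MP_6f117a_ag.STayc
import Pool.Agent.P.MP_6f117a_ag.STay
import Pool.Agent.P.MP_6f117a_ag.SResc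
import Pool.Agent.P.MP_6f117a_ag.SRes1
import Pool.Agent.P.MP_6f117a_ag.SRes2
import Pool.Agent.P.MP_6f117a_ag.SRes3
import Pool.Agent.P.MP_6f117a_ag.SDelta
import Pool.Agent.P.MP_6f117a_ag.SKos
import Pool.Agent.P.MP_6f117a_ag.SCone0
import Pool.Agent.P.MP_6f117a_ag.SHart
import Pool.Agent.P.MP_6f117a_ag.SCone
import Pool.Agent.P.MP_6f117a_ag.SOrd
import Pool.Agent.P.MP_6f117a_ag.SGenc
import Pool.Agent.P.MP_6f117a_ag.SOrdsum
import Pool.Agent.P.MP_6f117a_ag.SRadhf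
import Pool.Agent.P.MP_6f117a_ag.SMult0
import Pool.Agent.P.MP_6f117a_ag.SMult1
import Pool.Agent.P.MP_6f117a_ag.SMult
import Pool.Agent.P.MP_6f117a_ag.SExc
import Pool.Agent.P.MP_6f117a_ag.SWebex
import Pool.Agent.P.MP_6f117a_ag.SKerf
import Pool.Agent.P.MP_6f117a_ag.SRep
import Pool.Agent.P.MP_6f117a_ag.SLoc
import Pool.Agent.P.MP_6f117a_ag.SFilt
import Pool.Agent.P.MP_6f117a_ag.SFint
import Pool.Agent.P.MP_6f117a_ag.SJoum
import Pool.Agent.P.MP_6f117a_ag.SJou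
import Pool.Agent.P.MP_6f117a_ag.SWeb
import Pool.Agent.P.MP_6f117a_ag.ST0
import Pool.Agent.P.MP_6f117a_ag.ST1
import Pool.Agent.P.MP_6f117a_ag.ST2
import Pool.Agent.P.MP_6f117a_ag.SBnd1
import Pool.Agent.P.MP_6f117a_ag.SBnd2
import Pool.Agent.P.MP_6f117a_ag.SFin
import Pool.Agent.P.MP_6f117a_ag.SPrime
import Pool.Agent.P.MP_6f117a_ag.SCoord
import Pool.Agent.P.MP_6f117a_ag.SGood
import Pool.Agent.P.MP_6f117a_ag.STrans
import Pool.Agent.P.MP_6f117a_ag.SExample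

/-! Assembly of the proof for surfaces in projective three-space. -/

namespace Pool.Agent.P.MP_6f117a_ag.Surf

open MvPolynomial

universe u

theorem main (L : Type u) [Field L] [IsAlgClosed L] [CharZero L] (d : ℕ) (F : S L)
    (hd : 300 ≤ d) (hF : F.IsHomogeneous d)
    (hs : ∀ p : Fin 4 → L, (∀ i, eval p (pderiv i F) = 0) → p = 0) (H : NoSmall d F) :
    GenusBound F ∧ (NoLowGenus F → AlgHyperbolic fun _ : Unit => F) := by
  have hSIG1 := pSIG1 L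
  have hSIG2 := pSIG2 L hSIG1
  have hSIG3 := pSIG3 L hSIG1 hSIG2
  have hHFA := pHFA L hSIG1
  have hHFB := pHFB L
  have hHS := pHS L hSIG1 hHFA
  have hKZ := pKZ L hSIG1 hSIG2 hHFA
  have hHFJ1 := pHFJ1 L hSIG1 hHFA hHFB hKZ
  have hHFJ := pHFJ L hSIG1 hSIG2 hHFA hHFB hKZ
  have hDIRE := pDIRE L
  have hDIR2 := pDIR2 L
  have hCOND0 : S_COND0.{u} := pCOND0
  have hCOND := pCOND L hCOND0 hDIRE hDIR2
  have hKRON : S_KRON.{u} := pKRON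
  have hQUE := pQUE L hSIG1 hSIG2 hCOND hKRON
  have hSUPA := pSUPA L hSIG1 hCOND
  have hSUP := pSUP L hSIG1 hHFA hHS hSUPA
  have hP3 := pP3 L hSIG1 hHFA hHFJ1
  have hIZ := pIZ L hSIG1 hSIG2 hSIG3
  have hHFZ := pHFZ L hSIG1 hSIG2 hHFA hHFJ hQUE hIZ
  have hREGSEQ := pREGSEQ L hDIR2
  have hFREE := pFREE L hREGSEQ
  have hSL1 := pSL1 L hSIG1 hHFA
  have hSLICE := pSLICE L hSIG1 hHFA hSL1 hFREE
  have hMORSE := pMORSE L hHFA hSLICE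
  have hNUM1 : S_NUM1 := pNUM1
  have hNUM2 : S_NUM2 := pNUM2
  have hDEG := pDEG L
  have hCURVE := pCURVE L hDEG
  have hGEN := pGEN L hSIG1
  have hSPREAD := pSPREAD L hSIG1 hSIG2
  have hLIFT := pLIFT L hSIG1
  have hPI := pPI L hSIG1 hSIG2 hSIG3
  have hTAYC : S_TAYC.{u} := pTAYC
  have hTAY := pTAY L hSIG1 hSIG2 hSIG3 hPI hTAYC
  have hRESC : S_RESC.{u} := pRESC
  have hRES1 := pRES1 L hSIG1
  have hRES2 := pRES2 L hSIG1
  have hRES3 := pRES3 L hSIG1 hSIG2 hSIG3 hRESC hRES1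
  have hDELTA := pDELTA L hSIG1 hHS hSUP hP3 hIZ hPI hRES1 hRES2 hRES3
  have hKOS := pKOS L hSIG1 hREGSEQ
  have hCONE0 := pCONE0 L hDIRE hDIR2
  have hHART := pHART L hDIRE hDIR2
  have hCONE := pCONE L hDIR2 hCONE0
  have hORD := pORD L hSIG1 hCOND
  have hGENC := pGENC L hDEG hDIR2
  have hORDSUM := pORDSUM L hSIG1 hDEG hDIR2
  have hRADHF := pRADHF L hDEG
  have hMULT0 := pMULT0 L hSIG1 hHS hDIR2 hCONE0 hCONE
  have hMULT1 := pMULT1 L hSIG1 hHS hDIR2 hCONE0 hCONE hGENC hORDSUM hMULT0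
  have hMULT := pMULT L hSIG1 hHS hDIR2 hHART hORD hGENC hRADHF hMULT1
  have hEXC := pEXC L hSIG1 hSIG2 hSIG3 hHFA hHS hIZ hPI hKOS hMULT
  have hWEBEX := pWEBEX L
  have hKERF := pKERF L
  have hREP := pREP L hCOND
  have hLOC := pLOC L
  have hFILT := pFILT L
  have hFINT := pFINT L
  have hJOUM := pJOUM L hKERF hREP hLOC hFILT hFINT
  have hJOU := pJOU L hWEBEX hJOUM
  have hWEB := pWEB L hSIG1 hSPREAD hJOU
  have hT0 := pT0 L hSIG1 hSIG2 hSIG3 hHFA hHFJ hNUM1 hMORSE hCURVE hSPREAD hTAY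
  have hT1 := pT1 L hSIG1 hSIG2 hSIG3 hHS hIZ hPI hHFZ hDELTA hEXC hNUM2 hMORSE hCURVE hSPREAD hTAY hWEB
  have hT2 := pT2 L hSIG1 hGEN hSPREAD hLIFT hPI hWEB hT0 hT1
  have hBND1 := pBND1 L hSIG1 hHFA hDEG
  have hBND2 := pBND2 L
  have hFIN := pFIN L hSIG1 hDEG hBND1 hBND2
  have hPRIME := pPRIME L
  have hCOORD := pCOORD L hDIR2
  have hGOOD := pGOOD L hPRIME
  have hTRANS := pTRANS L
  obtain ⟨g, hg, h1, h2, h3⟩ := hCOORD d F hF (by omega) hs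
  have hG := hGOOD d _ h1 (by omega) h2 h3
  obtain ⟨t1, t2, t3, t4⟩ := hTRANS d F g hg
  obtain ⟨f1, f2⟩ := hFIN d _ hG (hT2 d _ hG hd (t1 H))
  exact ⟨t2 f1, fun h => t4 (f2 (t3 h))⟩

end Pool.Agent.P.MP_6f117a_ag.Surf
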