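import Pool.Agent.P.MP_6f117a_ag.SIface

/-! Step COND0 of the proof for surfaces in projective three-space. -/

namespace Pool.Agent.P.MP_6f117a_ag.Surf

open MvPolynomial Module
open Ideal (span)
open scoped Polynomial WithZero

universe u

open scoped Pointwise in
lemma core_cond0 (A K L : Type u) [CommRing A] [IsDomain A] [IsIntegrallyClosed A] [Field K]
    [Field L] [Algebra A K] [IsFractionRing A K] [Algebra K L] [Algebra A L]
    [IsScalarTower A K L] [FiniteDimensional K L] [Algebra.IsSeparable K L]
    (x : L) (hx : Algebra.adjoin K {x} = ⊤) (hAx : IsIntegral A x) (t : L) (ht : IsIntegral A t) :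
    Polynomial.aeval x (Polynomial.derivative (minpoly K x)) * t ∈ Algebra.adjoin A {x} := by
  have hKx : IsIntegral K x := Algebra.IsIntegral.isIntegral x
  have hne : Polynomial.aeval x (Polynomial.derivative (minpoly K x)) ≠ 0 :=
    (Algebra.IsSeparable.isSeparable K x).aeval_derivative_ne_zero (minpoly.aeval K x)
  have h1 : t ∈ (Algebra.traceForm K L).dualSubmodule
      (Subalgebra.toSubmodule (Algebra.adjoin A {x})) := by
    rw [LinearMap.BilinForm.mem_dualSubmodule]
    intro y hy
    have hy' : IsIntegral A y := by
      have : Algebra.adjoin A {x} ≤ integralClosure A L := by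
        rw [Algebra.adjoin_le_iff]
        intro z hz
        rw [Set.mem_singleton_iff] at hz
        rw [hz]; exact hAx
      exact this hy
    have h2 : IsIntegral A (Algebra.trace K L (t * y)) := Algebra.isIntegral_trace (ht.mul hy')
    obtain ⟨r, hr⟩ := IsIntegrallyClosed.isIntegral_iff.mp h2
    rw [Algebra.traceForm_apply, Submodule.mem_one]
    exact ⟨r, hr⟩
  rw [traceForm_dualSubmodule_adjoin A K hx hAx] at h1
  obtain ⟨z, hz, hzt⟩ := (Submodule.mem_smul_pointwise_iff_exists _ _ _).mp h1
  rw [← hzt, smul_eq_mul, ← mul_assoc, mul_inv_cancel₀ hne, one_mul]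
  exact hz

theorem pCOND0 : S_COND0.{u} := by
  intro R _ _ _ _ f hf K _ φ hφ a b hb hint
  let : Algebra R K := (φ.comp Polynomial.C).toAlgebra
  have halg : ∀ r, algebraMap R K r = φ (Polynomial.C r) := fun _ => rfl
  have hev : ∀ G : R[X], Polynomial.aeval (φ Polynomial.X) G = φ G := by
    intro G
    induction G using Polynomial.induction_on' with
    | add p q hp hq => rw [map_add, map_add, hp, hq]
    | monomial n r =>
      rw [Polynomial.aeval_monomial, halg, ← Polynomial.C_mul_X_pow_eq_monomial, map_mul, map_pow]
  have hf1 : f ≠ 1 := by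
    intro h
    have := (hφ 1).mpr (by rw [h])
    rw [map_one] at this
    exact one_ne_zero this
  have hdeg : 0 < f.natDegree := by
    rcases Nat.eq_zero_or_pos f.natDegree with h | h
    · exact absurd (hf.natDegree_eq_zero.mp h) hf1
    · exact h
  have hinj : Function.Injective (algebraMap R K) := by
    rw [injective_iff_map_eq_zero]
    intro r hr
    rw [halg, hφ] at hr
    by_contra h
    have h2 := Polynomial.natDegree_le_of_dvd hr (Polynomial.C_ne_zero.mpr h)
    rw [Polynomial.natDegree_C] at h2
    omega
  have : FaithfulSMul R K := (faithfulSMul_iff_algebraMap_injective R K).mpr hinj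
  let : Algebra (FractionRing R) K := FractionRing.liftAlgebra R K
  have : IsScalarTower R (FractionRing R) K := FractionRing.isScalarTower_liftAlgebra R K
  have hx0 : Polynomial.aeval (φ Polynomial.X) f = 0 := by
    rw [hev, hφ]
  have hxint : IsIntegral R (φ Polynomial.X) := ⟨f, hf, hx0⟩
  have hxK : IsIntegral (FractionRing R) (φ Polynomial.X) := hxint.tower_top
  have hmin : minpoly R (φ Polynomial.X) = f := by
    apply Polynomial.eq_of_monic_of_associated (minpoly.monic hxint) hf
    apply associated_of_dvd_dvd
    · exact minpoly.isIntegrallyClosed_dvd hxint hx0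
    · rw [← hφ, ← hev]
      exact minpoly.aeval R _
  have hchar : CharZero (FractionRing R) :=
    charZero_of_injective_algebraMap (IsFractionRing.injective R (FractionRing R))
  set E := IntermediateField.adjoin (FractionRing R) {φ Polynomial.X} with hE
  have hfin : FiniteDimensional (FractionRing R) E :=
    IntermediateField.adjoin.finiteDimensional hxK
  have hxE : φ Polynomial.X ∈ E := IntermediateField.subset_adjoin _ _ rfl
  have hall : ∀ G : R[X], φ G ∈ E := by
    intro G
    induction G using Polynomial.induction_on' with
    | add p q hp hq => rw [map_add]; exact add_mem hp hq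
    | monomial n r =>
      rw [← Polynomial.C_mul_X_pow_eq_monomial, map_mul, map_pow, ← halg,
        IsScalarTower.algebraMap_apply R (FractionRing R) K]
      exact mul_mem (IntermediateField.algebraMap_mem E _) (pow_mem hxE n)
  have htE : φ a / φ b ∈ E := div_mem (hall a) (hall b)
  have hrange : ∀ y : φ.range, IsIntegral R (y : K) := by
    rintro ⟨y, G, rfl⟩
    change IsIntegral R (φ G)
    rw [← hev]
    have : Algebra.adjoin R {φ Polynomial.X} ≤ integralClosure R K := by
      rw [Algebra.adjoin_le_iff]
      intro z hz
      rw [Set.mem_singleton_iff] at hz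
      rw [hz]; exact hxint
    exact this (Polynomial.aeval_mem_adjoin_singleton R _)
  have htint : IsIntegral R (φ a / φ b) := by
    have h1 : IsIntegral (integralClosure R K) (φ a / φ b) := by
      let ψ : φ.range →+* integralClosure R K :=
        (φ.range.subtype).codRestrict (integralClosure R K) (fun y => hrange y)
      obtain ⟨p, hp, hp0⟩ := hint
      refine ⟨p.map ψ, hp.map ψ, ?_⟩
      rw [Polynomial.eval₂_map]
      exact hp0
    exact isIntegral_trans _ h1
  let x' : E := ⟨φ Polynomial.X, hxE⟩
  let t' : E := ⟨φ a / φ b, htE⟩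
  have htow : IsScalarTower R E K := IsScalarTower.of_algebraMap_eq fun _ => rfl
  have hinjE : Function.Injective (IsScalarTower.toAlgHom R E K) := Subtype.val_injective
  have hx' : IsIntegral R x' := (isIntegral_algHom_iff _ hinjE).mp hxint
  have ht' : IsIntegral R t' := (isIntegral_algHom_iff _ hinjE).mp htint
  have htop : Algebra.adjoin (FractionRing R) {x'} = ⊤ :=
    (IntermediateField.adjoin.powerBasis hxK).adjoin_gen_eq_top
  have key := core_cond0 R (FractionRing R) E x' htop hx' t' ht'
  rw [minpoly.isIntegrallyClosed_eq_field_fractions' (FractionRing R) hx',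
    Polynomial.derivative_map, Polynomial.aeval_map_algebraMap] at key
  have hmin' : minpoly R x' = f := by
    rw [← hmin]
    exact (minpoly.algHom_eq (IsScalarTower.toAlgHom R E K) hinjE x').symm
  rw [hmin', Algebra.adjoin_singleton_eq_range_aeval] at key
  obtain ⟨h, hh⟩ := key
  have hh2 := congrArg (IsScalarTower.toAlgHom R E K) hh
  rw [map_mul, ← Polynomial.aeval_algHom_apply] at hh2
  erw [← Polynomial.aeval_algHom_apply] at hh2
  have e1 : IsScalarTower.toAlgHom R E K x' = φ Polynomial.X := rfl
  have e2 : IsScalarTower.toAlgHom R E K t' = φ a / φ b := rfl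
  rw [e1, e2, hev, hev] at hh2
  have h3 : φ (f.derivative * a - h * b) = 0 := by
    rw [map_sub, map_mul, map_mul, hh2]
    field_simp
    ring
  obtain ⟨c, hc⟩ := (hφ _).mp h3
  rw [Ideal.mem_span_pair]
  exact ⟨c, h, by linear_combination -hc⟩

end Pool.Agent.P.MP_6f117a_ag.Surf
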