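import Pool.Agent.P.MP_6f117a_ag.SJet
import Pool.Agent.P.MP_6f117a_ag.Height

/-! Definitions for two-jets of surfaces in projective three-space. -/

namespace Pool.Agent.P.MP_6f117a_ag.Surf

open MvPolynomial Module
open scoped Polynomial

universe u

/-! ### Jet variables over an arbitrary coefficient ring -/

/-- Index set of the jet variables: `inl i` is the first, `inr i` the second derivative of the
affine coordinate number `i + 1`. -/
abbrev T2 := Fin 3 ⊕ Fin 3

/-- Weights of first order jet variables. -/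
def w1 : Fin 3 → ℕ := fun _ => 1

/-- Weights of second order jet variables. -/
def w2 : T2 → ℕ := Sum.elim (fun _ => 1) fun _ => 2

theorem one_le_w1 (j : Fin 3) : 1 ≤ w1 j := le_rfl

theorem one_le_w2 (j : T2) : 1 ≤ w2 j := by cases j <;> simp [w2]

section

variable (A : Type u) [CommRing A]

/-- First order jets inside second order jets. -/
noncomputable def inc : MvPolynomial (Fin 3) A →ₐ[A] MvPolynomial T2 A := rename Sum.inl

/-- Set the variable number `k` to zero. -/
noncomputable def kill1 (k : Fin 3) : MvPolynomial (Fin 3) A →ₐ[A] MvPolynomial (Fin 3) A :=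
  aeval fun j => if j = k then 0 else X j

/-- Set both variables number `k` to zero. -/
noncomputable def kill (k : Fin 3) : MvPolynomial T2 A →ₐ[A] MvPolynomial T2 A :=
  aeval (Sum.elim (fun j => if j = k then 0 else X (.inl j)) fun j => if j = k then 0 else X (.inr j))

/-- The components of the cross product of first and second derivatives. -/
noncomputable def eta (k : Fin 3) : MvPolynomial T2 A :=
  X (.inl (k + 1)) * X (.inr (k + 2)) - X (.inl (k + 2)) * X (.inr (k + 1))

/-- The infinitesimal change of parameter. -/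
noncomputable def dl : Derivation A (MvPolynomial T2 A) (MvPolynomial T2 A) :=
  mkDerivation A (Sum.elim (fun _ => 0) fun i => X (.inl i))

/-- Specialisation to the parameter given by the first affine coordinate, first order. -/
noncomputable def sp1 : MvPolynomial (Fin 3) A →ₐ[A] A[X] := aeval ![1, Polynomial.X, 0]

/-- Specialisation to the parameter given by the first affine coordinate, second order. -/
noncomputable def sp2 : MvPolynomial T2 A →ₐ[A] A[X][X] :=
  aeval (Sum.elim ![1, Polynomial.C Polynomial.X, 0] ![0, Polynomial.X, 0])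

variable {A}

/-- The invariant jet differential with coefficients `P` in powers of `eta 2`. -/
noncomputable def piOf (P : (MvPolynomial (Fin 3) A)[X]) : MvPolynomial T2 A :=
  P.eval₂ (inc A).toRingHom (eta A 2)

end

variable {L : Type u} [Field L]

/-- First order jet ring. -/
abbrev U1 (L : Type u) [Field L] := Jet (Fin 3) L

/-- Second order jet ring. -/
abbrev U (L : Type u) [Field L] := Jet T2 L

/-! ### The surface and its jet equations -/

/-- Derivatives in the three affine directions. -/
noncomputable def dF (F : S L) (i : Fin 3) : S L := pderiv i.succ F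

/-- A smooth surface in good coordinates. -/
structure Good (d : ℕ) (F : S L) : Prop where
  hom : F.IsHomogeneous d
  two : 2 ≤ d
  prime : Prime F
  prime0 : (Ideal.span {F, X 0}).IsPrime
  null : ∃ N : ℕ, ∀ i, X i ^ N ∈ Ideal.span {F} ⊔ Ideal.span (Set.range (dF F))
  mon : ∀ i : Fin 3, coeff (Finsupp.single i.succ d) F ≠ 0

/-- No form of small degree multiplies all second derivatives into the Jacobian ideal. -/
def NoSmall (d : ℕ) (F : S L) : Prop :=
  ∀ (n : ℕ) (b : S L), n ^ 2 ≤ 2000000 * d → b ≠ 0 → b.IsHomogeneous n →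
    ∃ i j, b * pderiv i (pderiv j F) ∉ Ideal.span (Set.range fun k => pderiv k F)

section

variable (F : S L)

/-- The first order equation. -/
noncomputable def ell1 : U1 L := ∑ i, C (dF F i) * X i

/-- The Hessian quadratic form. -/
noncomputable def hess : U1 L := ∑ i, ∑ j, C (pderiv j.succ (dF F i)) * X i * X j

/-- The first order equation in the second order ring. -/
noncomputable def ell : U L := inc (S L) (ell1 F)

/-- The second order equation. -/
noncomputable def cee : U L := ∑ i, C (dF F i) * X (.inr i) + inc (S L) (hess F)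

/-- The solution of the first order equation in chart `k`. -/
noncomputable def om (k j : Fin 3) : U1 L :=
  if j = k then -∑ i ∈ Finset.univ.erase k, C (dF F i) * X i else C (dF F k) * X j

/-- Elimination of the variable number `k`, first order. -/
noncomputable def sig1 (k : Fin 3) : U1 L →ₐ[S L] U1 L := aeval fun j => C (dF F k) * om F k j

/-- Elimination of the variables number `k`, second order. -/
noncomputable def sig (k : Fin 3) : U L →ₐ[S L] U L :=
  aeval (Sum.elim (fun j => inc (S L) (C (dF F k) * om F k j)) fun j => if j = k then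
    -(C (dF F k) ^ 3 * ∑ i ∈ Finset.univ.erase k, C (dF F i) * X (.inr i)) -
      C (dF F k) * inc (S L) (aeval (om F k) (hess F)) else C (dF F k) ^ 4 * X (.inr j))

/-- The prime ideal of first order jets. -/
noncomputable def K1 : Ideal (U1 L) := (Ideal.span {C F}).comap (sig1 F 2)

/-- The prime ideal of second order jets. -/
noncomputable def KK : Ideal (U L) := (Ideal.span {C F}).comap (sig F 2)

/-- The forms `g` such that `g * Q / f` is regular. -/
noncomputable def bI (Q : U L) (f : S L) : Ideal (S L) :=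
  Ideal.comap (C : S L →+* U L) ((Ideal.span {C f} ⊔ KK F).colon {Q})

/-- The discriminant of a polynomial of degree `p` in `eta 2 / dF 2`. -/
noncomputable def disc (P : (U1 L)[X]) (p : ℕ) : U1 L :=
  C (dF F 2) ^ p ^ 2 * Polynomial.resultant P P.derivative p (p - 1)

end

/-- The ideal of the horizontal part of the zero set of `Q`. -/
def IZ {F : S L} (hF : Prime F) (Q : U L) : Ideal (U L) where
  carrier := {G | ∃ (n : ℕ) (s : S L), s.IsHomogeneous n ∧ ¬F ∣ s ∧
    C s * G ∈ Ideal.span {Q} ⊔ KK F}
  add_mem' := by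
    rintro a b ⟨n, s, h1, h2, h3⟩ ⟨m, t, h4, h5, h6⟩
    refine ⟨n + m, s * t, h1.mul h4, fun h => (hF.dvd_or_dvd h).elim h2 h5, ?_⟩
    rw [show C (s * t) * (a + b) = C t * (C s * a) + C s * (C t * b) by rw [map_mul]; ring]
    exact add_mem (Ideal.mul_mem_left _ _ h3) (Ideal.mul_mem_left _ _ h6)
  zero_mem' := ⟨0, 1, isHomogeneous_one _ _, hF.not_dvd_one, by simp⟩
  smul_mem' := by
    rintro c a ⟨n, s, h1, h2, h3⟩
    exact ⟨n, s, h1, h2, by rw [smul_eq_mul, mul_left_comm]; exact Ideal.mul_mem_left _ _ h3⟩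

/-- Derivative in the direction `o`. -/
noncomputable def dd (o : Fin 4 → L) : Derivation L (S L) (S L) := ∑ i, o i • pderiv i

/-- A linear change of coordinates. -/
noncomputable def lin (g : Matrix (Fin 4) (Fin 4) L) : S L →ₐ[L] S L :=
  aeval fun i => ∑ j, C (g i j) * X j

/-! ### Hilbert functions -/

/-- The Hilbert polynomial of the quotient by `I` is linear with slope `e`. -/
def HasDeg (I : Ideal (S L)) (e : ℤ) : Prop :=
  ∃ (c : ℤ) (n₀ : ℕ), ∀ n : ℕ, n₀ ≤ n → cod (frm L) I n = e * n + c

/-- The Hilbert polynomial of a surface of degree `d`. -/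
def PA (d : ℕ) (n : ℤ) : ℚ :=
  ((n + 3) * (n + 2) * (n + 1) - (n - d + 3) * (n - d + 2) * (n - d + 1)) / 6

/-- One term of the Euler characteristic of two-jets. -/
def phi (D : ℤ) (h : ℤ → ℚ) (i l : ℚ) (n : ℤ) : ℚ :=
  (i + 1) * (l + 1) * h n +
    ((i + 1) * (l * (l + 1) / 2) + i * (i + 1) / 2 * (l + 1)) * (h n - h (n - D)) +
      i * (i + 1) / 2 * (l * (l + 1) / 2) * (h n - 2 * h (n - D) + h (n - 2 * D))

/-- The Euler characteristic of two-jets of weight `a` and total degree `b`. -/
def Phi (D : ℤ) (h : ℤ → ℚ) (a : ℕ) (b : ℤ) : ℚ :=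
  ∑ l ∈ Finset.range (a / 2 + 1), phi D h (a - 2 * l) l (b - a + l)

/-- The rank of two-jets of weight `a`. -/
def rk (a : ℕ) : ℕ := ∑ l ∈ Finset.range (a / 2 + 1), (a - 2 * l + 1) * (l + 1)

/-- The numerical condition for the existence of a section vanishing to order `r`. -/
def NumOK (d ρ r b : ℕ) (H : ℤ → ℚ) : Prop :=
  (∀ n : ℕ, H (b + 1 + n) - H (b + n) = H (b + 1) - H b + ρ * d * n) ∧
    r * (H (b + 1) - H b - ρ * (d * (3 - d) / 2)) < H b

/-! ### Points -/

/-- The generic point of the surface. -/
structure GenPt (F : S L) where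
  K : Type u
  [fld : Field K]
  [alg : Algebra L K]
  y : Fin 4 → K
  y0 : y 0 = 1
  ker : ∀ (n : ℕ) (G : S L), G.IsHomogeneous n → (aeval y G = 0 ↔ F ∣ G)
  frac : ∀ k : K, ∃ (n : ℕ) (A B : S L), A.IsHomogeneous n ∧ B.IsHomogeneous n ∧
    aeval y B ≠ 0 ∧ k * aeval y B = aeval y A

attribute [instance] GenPt.fld GenPt.alg

/-- A curve on the surface, parametrised by the first affine coordinate. -/
structure Cv (F : S L) where
  K : Type u
  [fld : Field K]
  [alg : Algebra L K]
  [ff : FF L K]
  y : Fin 4 → K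
  δ : Derivation L K K
  y0 : y 0 = 1
  onX : aeval y F = 0
  dt : δ (y 1) = 1

attribute [instance] Cv.fld Cv.alg Cv.ff

/-- The generic point of a curve (or point) with homogeneous prime ideal `p`. -/
structure CPt (p : Ideal (S L)) where
  K : Type u
  [fld : Field K]
  [alg : Algebra L K]
  [ff : FF L K]
  ξ : Fin 4 → K
  ne : ξ ≠ 0
  ker : ∀ (n : ℕ) (G : S L), G.IsHomogeneous n → (aeval ξ G = 0 ↔ G ∈ p)

attribute [instance] CPt.fld CPt.alg CPt.ff

variable {F : S L}

/-- Evaluation of coefficients at the generic point. -/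
noncomputable def GenPt.e0 (γ : GenPt F) : S L →+* γ.K := (aeval γ.y : S L →ₐ[L] γ.K)

/-- Evaluation of coefficients at the generic point, two variables. -/
noncomputable def GenPt.e2 (γ : GenPt F) : (S L)[X][X] →+* γ.K[X][X] :=
  Polynomial.mapRingHom (Polynomial.mapRingHom γ.e0)

/-- Evaluation of coefficients on a curve. -/
noncomputable def Cv.e0 (c : Cv F) : S L →+* c.K := (aeval c.y : S L →ₐ[L] c.K)

/-- Evaluation at the one-jet of a curve. -/
noncomputable def Cv.e1 (c : Cv F) : (S L)[X] →+* c.K :=
  Polynomial.eval₂RingHom c.e0 (c.δ (c.y 2))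

/-- Evaluation at the two-jet of a curve. -/
noncomputable def Cv.e2 (c : Cv F) : (S L)[X][X] →+* c.K :=
  Polynomial.eval₂RingHom c.e1 (c.δ (c.δ (c.y 2)))

/-- Evaluation of a jet differential on a curve. -/
noncomputable def Cv.ev (c : Cv F) : U L →+* c.K :=
  eval₂Hom c.e0 (Sum.elim (fun i => c.δ (c.y i.succ)) fun i => c.δ (c.δ (c.y i.succ)))

/-- The point `x` lies on a second surface of degree at most `N`. -/
def On (F : S L) (N : ℕ) {K : Type u} [Field K] [Algebra L K] (x : Fin 4 → K) : Prop :=
  ∃ n ≤ N, ∃ G : S L, G.IsHomogeneous n ∧ ¬F ∣ G ∧ aeval x G = 0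

/-- The curves with property `P` have degree bounded by the genus or lie on surfaces of bounded
degree. -/
def Tame (F : S L) (P : Cv F → Prop) : Prop :=
  ∃ α N : ℕ, ∀ c : Cv F, P c → degree L c.y ≤ α * genus L c.K ∨ On F N c.y

/-- `P` lifts the polynomial `π` to an invariant jet differential of bidegree `(μ, j)`. -/
structure IsLift (γ : GenPt F) (π : γ.K[X][X]) (μ j : ℕ) (P : (U1 L)[X]) : Prop where
  deg : ∀ l, P.coeff l ≠ 0 →
    3 * l ≤ μ ∧ 2 * l ≤ j ∧ P.coeff l ∈ bih L w1 (μ - 3 * l, j - 2 * l)
  free : ∀ l, kill1 (S L) 2 (P.coeff l) = P.coeff l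
  nat : P.natDegree = π.natDegree
  spec : ∃ D : γ.K, D ≠ 0 ∧
    γ.e2 (P.map (sp1 (S L)).toRingHom) = Polynomial.C (Polynomial.C D) * π
  top : ∃ l, 3 * l ≤ μ ∧ ¬F ∣ coeff (Finsupp.single 1 (μ - 3 * l)) (P.coeff l)

/-- The subfield generated by the ratios of the coordinates. -/
noncomputable def ratios (L : Type u) [Field L] {K : Type u} [Field K] [Algebra L K]
    (x : Fin 4 → K) : IntermediateField L K :=
  IntermediateField.adjoin L {w | ∃ i j, w = x i / x j}

/-- The degree of a curve on the surface is bounded linearly in the geometric genus. -/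
def GenusBound (F : S L) : Prop :=
  ∃ α β : ℝ, ∀ (K : Type u) [Field K] [Algebra L K], (⊤ : IntermediateField L K).FG →
    Algebra.trdeg L K = 1 → ∀ x : Fin 4 → K, x ≠ 0 → aeval x F = 0 →
      IntermediateField.adjoin L {w | ∃ i j, w = x i / x j} = ⊤ →
        (degree L x : ℝ) ≤ α * genus L K + β

/-- Every map from a curve of genus at most one to the surface is constant. -/
def NoLowGenus (F : S L) : Prop :=
  ∀ (K : Type u) [Field K] [Algebra L K], (⊤ : IntermediateField L K).FG →
    Algebra.trdeg L K = 1 → genus L K ≤ 1 → ∀ x : Fin 4 → K, x ≠ 0 → aeval x F = 0 →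
      ∃ (c : Fin 4 → L) (g : K), ∀ i, x i = c i • g

/-! ### Plane webs -/

/-- The coordinate ring of the affine plane. -/
abbrev A2 (L : Type u) [Field L] := MvPolynomial (Fin 2) L

/-- A plane curve parametrised by the first coordinate. -/
structure PCv (L : Type u) [Field L] where
  K : Type u
  [fld : Field K]
  [alg : Algebra L K]
  y : Fin 2 → K
  δ : Derivation L K K
  dt : δ (y 0) = 1
  const : ∀ x, δ x = 0 → ∃ c, algebraMap L K c = x
  dep : ∃ φ : A2 L, φ ≠ 0 ∧ aeval y φ = 0

attribute [instance] PCv.fld PCv.alg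

/-- Evaluation on a plane curve. -/
noncomputable def PCv.e0 (c : PCv L) : A2 L →+* c.K := (aeval c.y : A2 L →ₐ[L] c.K)

/-- The plane curve has degree at most `N`. -/
def PCv.On (c : PCv L) (N : ℕ) : Prop :=
  ∃ φ : A2 L, φ ≠ 0 ∧ φ.totalDegree ≤ N ∧ aeval c.y φ = 0

/-- The differential equation `G (g * y') = 0` with `G` monic irreducible, and its field. -/
structure Web (L : Type u) [Field L] where
  g : A2 L
  G : (A2 L)[X]
  c : ℕ
  Δ : A2 L
  E : Type u
  [fld : Field E]
  [alg : Algebra L E]
  [alg2 : Algebra (A2 L) E]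
  [tower : IsScalarTower L (A2 L) E]
  u : E
  d : Fin 2 → Derivation L E E
  g_ne : g ≠ 0
  monic : G.Monic
  deg_pos : 0 < G.natDegree
  c_pos : 0 < c
  g_deg : g.totalDegree ≤ c
  fil : ∀ i ≤ G.natDegree, (G.coeff i).totalDegree + c * i ≤ c * G.natDegree
  ker : ∀ p : (A2 L)[X], Polynomial.aeval u p = 0 ↔ G ∣ p
  frac : ∀ x : E, ∃ (s : A2 L) (p : (A2 L)[X]), s ≠ 0 ∧
    algebraMap (A2 L) E s * x = Polynomial.aeval u p
  der : ∀ i a, d i (algebraMap (A2 L) E a) = algebraMap (A2 L) E (pderiv i a)
  Δ_ne : Δ ≠ 0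
  Δ_eq : ∃ b : (A2 L)[X], Polynomial.aeval u (b * G.derivative) = algebraMap (A2 L) E Δ

attribute [instance] Web.fld Web.alg Web.alg2 Web.tower

namespace Web

variable (W : Web L)

/-- The slope of the foliation. -/
noncomputable def z : W.E := W.u / algebraMap (A2 L) W.E W.g

/-- The vector field of the foliation. -/
noncomputable def D (x : W.E) : W.E := W.d 0 x + W.z * W.d 1 x

/-- The operator whose kernel consists of the integrating factors. -/
noncomputable def Lop (x : W.E) : W.E := W.D x + W.d 1 W.z * x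

/-- Regular along the curve `f = 0`. -/
def Loc (f : A2 L) (x : W.E) : Prop :=
  ∃ (s : A2 L) (p : (A2 L)[X]), ¬f ∣ s ∧ algebraMap (A2 L) W.E s * x = Polynomial.aeval W.u p

/-- The curve `f = 0` is invariant. -/
def Inv (f : A2 L) : Prop :=
  f ∣ ∑ i ∈ Finset.range (W.G.natDegree + 1),
    W.G.coeff i * (-(W.g * pderiv 0 f)) ^ i * pderiv 1 f ^ (W.G.natDegree - i)

/-- `h k` represents `f₂ * (g * slope) ^ k` on the curve `f = 0`, with controlled degree. -/
def Rep (f : A2 L) (h : ℕ → A2 L) : Prop :=
  ∀ k, (h k).totalDegree ≤ f.totalDegree + W.c * k ∧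
    f ∣ pderiv 1 f ^ k * h k - pderiv 1 f * (-(W.g * pderiv 0 f)) ^ k

/-- The function with a simple pole of residue one along the lifted curve. -/
noncomputable def kap (f : A2 L) (h : ℕ → A2 L) : W.E :=
  (∑ k ∈ Finset.range W.G.natDegree,
    Polynomial.aeval W.u (W.G /ₘ Polynomial.X ^ (k + 1)) * algebraMap (A2 L) W.E (h k)) /
      (algebraMap (A2 L) W.E f * Polynomial.aeval W.u W.G.derivative)

/-- The plane curve solves the differential equation. -/
def Sol (c : PCv L) : Prop := W.G.eval₂ c.e0 (c.e0 W.g * c.δ (c.y 1)) = 0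

end Web

end Pool.Agent.P.MP_6f117a_ag.Surf
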