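import Pool.Agent.P.MP_6f117a_ag.SIface

/-! Step EXAMPLE of the proof for surfaces in projective three-space. -/

namespace Pool.Agent.P.MP_6f117a_ag.Surf

open MvPolynomial Module
open Ideal (span)
open scoped Polynomial WithZero

universe u

section

variable {L : Type u} [Field L]

/-- The exponent vector supported on the first two coordinates. -/
noncomputable def ex_example (i j : ℕ) : Fin 4 →₀ ℕ := Finsupp.single 0 i + Finsupp.single 1 j

theorem mono_example (i j : ℕ) (c : L) :
    (C c * (X 0 ^ i * X 1 ^ j) : S L) = monomial (ex_example i j) c := by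
  rw [X_pow_eq_monomial, X_pow_eq_monomial, monomial_mul, C_mul_monomial, ex_example]
  simp

theorem mono1_example (k : Fin 4) (i : ℕ) (c : L) :
    (C c * X k ^ i : S L) = monomial (Finsupp.single k i) c := by
  rw [X_pow_eq_monomial, C_mul_monomial]
  simp

theorem d0_example (a b : ℕ) :
    pderiv 0 (∑ k, X k ^ (a + b) + X 0 ^ a * X 1 ^ b : S L) =
      C ((a + b : ℕ) : L) * X 0 ^ (a + b - 1) + C (a : L) * (X 0 ^ (a - 1) * X 1 ^ b) := by
  simp [Fin.sum_univ_four, Derivation.leibniz_pow, pderiv_X, Pi.single_apply]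
  ring

theorem d1_example (a b : ℕ) :
    pderiv 1 (∑ k, X k ^ (a + b) + X 0 ^ a * X 1 ^ b : S L) =
      C ((a + b : ℕ) : L) * X 1 ^ (a + b - 1) + C (b : L) * (X 0 ^ a * X 1 ^ (b - 1)) := by
  simp [Fin.sum_univ_four, Derivation.leibniz_pow, pderiv_X, Pi.single_apply]
  ring

theorem d2_example (a b : ℕ) :
    pderiv 2 (∑ k, X k ^ (a + b) + X 0 ^ a * X 1 ^ b : S L) =
      C ((a + b : ℕ) : L) * X 2 ^ (a + b - 1) := by
  simp [Fin.sum_univ_four, Derivation.leibniz_pow, pderiv_X, Pi.single_apply]

theorem d3_example (a b : ℕ) :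
    pderiv 3 (∑ k, X k ^ (a + b) + X 0 ^ a * X 1 ^ b : S L) =
      C ((a + b : ℕ) : L) * X 3 ^ (a + b - 1) := by
  simp [Fin.sum_univ_four, Derivation.leibniz_pow, pderiv_X, Pi.single_apply]

theorem d01_example (a b : ℕ) :
    pderiv 0 (pderiv 1 (∑ k, X k ^ (a + b) + X 0 ^ a * X 1 ^ b : S L)) =
      C ((a : L) * b) * (X 0 ^ (a - 1) * X 1 ^ (b - 1)) := by
  rw [d1_example]
  simp [Derivation.leibniz_pow, pderiv_X, Pi.single_apply]
  ring

theorem lt_example {a b : ℕ} (ha : 1 ≤ a) (hb : 1 ≤ b) : a ^ a * b ^ b < (a + b) ^ (a + b) := by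
  rw [pow_add]
  have h1 : a ^ a ≤ (a + b) ^ a := Nat.pow_le_pow_left (by omega) _
  have h2 : b ^ b < (a + b) ^ b := Nat.pow_lt_pow_left (by omega) (by omega)
  exact Nat.mul_lt_mul_of_le_of_lt h1 h2 (by positivity)

theorem smooth_example [CharZero L] {a b : ℕ} (ha : 1 ≤ a) (hb : 1 ≤ b) (p : Fin 4 → L)
    (h : ∀ i, eval p (pderiv i (∑ k, X k ^ (a + b) + X 0 ^ a * X 1 ^ b : S L)) = 0) : p = 0 := by
  have h0 := h 0
  have h1 := h 1
  have h2 := h 2
  have h3 := h 3
  rw [d0_example] at h0
  rw [d1_example] at h1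
  rw [d2_example] at h2
  rw [d3_example] at h3
  simp only [map_add, map_mul, eval_C, map_pow, eval_X] at h0 h1 h2 h3
  have hd : ((a + b : ℕ) : L) ≠ 0 := Nat.cast_ne_zero.mpr (by omega)
  have e2 : p 2 = 0 := pow_eq_zero_iff (n := a + b - 1) (by omega) |>.mp
    ((mul_eq_zero.mp h2).resolve_left hd)
  have e3 : p 3 = 0 := pow_eq_zero_iff (n := a + b - 1) (by omega) |>.mp
    ((mul_eq_zero.mp h3).resolve_left hd)
  have k0 : p 0 = 0 → p 1 = 0 := by
    intro e
    rw [e, zero_pow (by omega), zero_mul, mul_zero, add_zero] at h1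
    exact pow_eq_zero_iff (n := a + b - 1) (by omega) |>.mp ((mul_eq_zero.mp h1).resolve_left hd)
  have k1 : p 1 = 0 → p 0 = 0 := by
    intro e
    rw [e, zero_pow (by omega), mul_zero, mul_zero, add_zero] at h0
    exact pow_eq_zero_iff (n := a + b - 1) (by omega) |>.mp ((mul_eq_zero.mp h0).resolve_left hd)
  have e0 : p 0 = 0 := by
    by_contra n0
    have n1 : p 1 ≠ 0 := fun e => n0 (k1 e)
    have f0 : ((a + b : ℕ) : L) * p 0 ^ b = -(a : L) * p 1 ^ b := by
      apply mul_left_cancel₀ (pow_ne_zero (a - 1) n0)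
      rw [show a + b - 1 = (a - 1) + b by omega, pow_add] at h0
      linear_combination h0
    have f1 : ((a + b : ℕ) : L) * p 1 ^ a = -(b : L) * p 0 ^ a := by
      apply mul_left_cancel₀ (pow_ne_zero (b - 1) n1)
      rw [show a + b - 1 = (b - 1) + a by omega, pow_add] at h1
      linear_combination h1
    have g0 := congrArg (· ^ a) f0
    have g1 := congrArg (· ^ b) f1
    simp only [mul_pow, ← pow_mul] at g0 g1
    rw [mul_comm b a] at g0
    have g : ((a + b : ℕ) : L) ^ (a + b) = (-(a : L)) ^ a * (-(b : L)) ^ b := by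
      apply mul_right_cancel₀ (mul_ne_zero (pow_ne_zero (a * b) n0) (pow_ne_zero (a * b) n1))
      rw [pow_add]
      calc _ = (((a + b : ℕ) : L) ^ a * p 0 ^ (a * b)) * (((a + b : ℕ) : L) ^ b * p 1 ^ (a * b)) := by
            ring
        _ = _ := by rw [g0, g1]; ring
    have g' : ((a + b : ℕ) : ℤ) ^ (a + b) = (-(a : ℤ)) ^ a * (-(b : ℤ)) ^ b := by
      exact_mod_cast g
    have g'' := congrArg Int.natAbs g'
    simp only [Int.natAbs_pow, Int.natAbs_mul, Int.natAbs_neg, Int.natAbs_natCast] at g''
    exact absurd g'' (lt_example ha hb).ne'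
  funext i
  fin_cases i
  · exact e0
  · exact k0 e0
  · exact e2
  · exact e3

theorem le_ex_example {i j : ℕ} {m : Fin 4 →₀ ℕ} (h : ex_example i j ≤ m) : i ≤ m 0 ∧ j ≤ m 1 := by
  have h0 := h 0
  have h1 := h 1
  simp [ex_example] at h0 h1
  exact ⟨h0, h1⟩

theorem nosmall_example [CharZero L] {a b : ℕ} (ha : 5000000 ≤ a) (hab : a ≤ b) (hb : b ≤ a + 1) :
    NoSmall (a + b) (∑ k, X k ^ (a + b) + X 0 ^ a * X 1 ^ b : S L) := by
  intro n β hn hβ hh
  have hna : n + 1 < a := by
    by_contra hc
    have : (a - 1) ^ 2 ≤ n ^ 2 := Nat.pow_le_pow_left (by omega) 2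
    obtain ⟨c, rfl⟩ : ∃ c, a = c + 1 := ⟨a - 1, by omega⟩
    simp only [Nat.add_sub_cancel] at this
    nlinarith
  refine ⟨0, 1, fun hm => ?_⟩
  obtain ⟨A, hA⟩ := Ideal.mem_span_range_iff_exists_fun.mp hm
  rw [Fin.sum_univ_four, d01_example, d0_example, d1_example, d2_example, d3_example] at hA
  simp only [mono_example, mono1_example, mul_add] at hA
  have hd : ((a + b : ℕ) : L) ≠ 0 := Nat.cast_ne_zero.mpr (by omega)
  have z0 : ∀ m : Fin 4 →₀ ℕ, (∀ i, m i ≤ n) → coeff m (A 0) = 0 := by
    intro m hm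
    have h := congrArg (coeff (m + Finsupp.single 0 (a + b - 1))) hA
    have m1 := hm 1
    have m2 := hm 2
    have m3 := hm 3
    simp only [coeff_add, coeff_mul_monomial'] at h
    rw [if_pos le_add_self, if_neg, if_neg, if_neg, if_neg, if_neg, if_neg] at h
    · simp only [add_zero, add_tsub_cancel_right] at h
      exact (mul_eq_zero.mp h).resolve_right hd
    · intro e; have := (le_ex_example e).2; simp at this; omega
    · intro e; have := Finsupp.single_le_iff.mp e; simp at this; omega
    · intro e; have := Finsupp.single_le_iff.mp e; simp at this; omega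
    · intro e; have := (le_ex_example e).2; simp at this; omega
    · intro e; have := Finsupp.single_le_iff.mp e; simp at this; omega
    · intro e; have := (le_ex_example e).2; simp at this; omega
  have z1 : ∀ m : Fin 4 →₀ ℕ, (∀ i, m i ≤ n) → coeff m (A 1) = 0 := by
    intro m hm
    have h := congrArg (coeff (m + Finsupp.single 1 (a + b - 1))) hA
    have m0 := hm 0
    have m2 := hm 2
    have m3 := hm 3
    simp only [coeff_add, coeff_mul_monomial'] at h
    rw [if_neg, if_neg, if_pos le_add_self, if_neg, if_neg, if_neg, if_neg] at h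
    · simp only [add_zero, zero_add, add_tsub_cancel_right] at h
      exact (mul_eq_zero.mp h).resolve_right hd
    · intro e; have := (le_ex_example e).1; simp at this; omega
    · intro e; have := Finsupp.single_le_iff.mp e; simp at this; omega
    · intro e; have := Finsupp.single_le_iff.mp e; simp at this; omega
    · intro e; have := (le_ex_example e).1; simp at this; omega
    · intro e; have := (le_ex_example e).1; simp at this; omega
    · intro e; have := Finsupp.single_le_iff.mp e; simp at this; omega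
  obtain ⟨m, hm0⟩ := ne_zero_iff.mp hβ
  have hdeg : ∀ i, m i ≤ n := by
    intro i
    have e : m.degree = n := by
      by_contra hc
      exact hm0 (hh.coeff_eq_zero hc)
    exact e ▸ Finsupp.le_degree i m
  have h := congrArg (coeff (m + ex_example (a - 1) (b - 1))) hA
  have m0 := hdeg 0
  have m1 := hdeg 1
  have m2 := hdeg 2
  have m3 := hdeg 3
  simp only [coeff_add, coeff_mul_monomial'] at h
  rw [z0 (m + ex_example (a - 1) (b - 1) - ex_example (a - 1) b),
    z1 (m + ex_example (a - 1) (b - 1) - ex_example a (b - 1))] at h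
  rotate_left
  · intro i
    have := hdeg i
    fin_cases i <;> simp [ex_example] at this ⊢ <;> omega
  · intro i
    have := hdeg i
    fin_cases i <;> simp [ex_example] at this ⊢ <;> omega
  simp only [zero_mul, ite_self, add_zero] at h
  rw [if_neg, if_neg, if_neg, if_neg, if_pos le_add_self] at h
  · simp only [add_zero, add_tsub_cancel_right] at h
    have ha' : (a : L) ≠ 0 := Nat.cast_ne_zero.mpr (by omega)
    have hb' : (b : L) ≠ 0 := Nat.cast_ne_zero.mpr (by omega)
    exact mul_ne_zero hm0 (mul_ne_zero ha' hb') h.symm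
  · intro e; have := Finsupp.single_le_iff.mp e; simp [ex_example] at this; omega
  · intro e; have := Finsupp.single_le_iff.mp e; simp [ex_example] at this; omega
  · intro e; have := Finsupp.single_le_iff.mp e; simp [ex_example] at this; omega
  · intro e; have := Finsupp.single_le_iff.mp e; simp [ex_example] at this; omega

end

theorem pEXAMPLE (L : Type u) [Field L] [IsAlgClosed L] [CharZero L] :
    S_EXAMPLE L := by
  intro a b ha hab hb
  exact ⟨smooth_example (by omega) (by omega), nosmall_example ha hab hb⟩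

end Pool.Agent.P.MP_6f117a_ag.Surf
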