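import Mathlib

/-! Hilbert functions of homogeneous ideals in graded algebras, and saturation. -/

namespace Pool.Agent.P.MP_6f117a_ag.Surf

open Module DirectSum

universe u

section

variable {L : Type u} [Field L] {R : Type u} [CommRing R] [Algebra L R] {ι : Type}

/-- The dimension of the degree `i` part of an ideal. -/
noncomputable def hf (𝒜 : ι → Submodule L R) (I : Ideal R) (i : ι) : ℕ :=
  finrank L (I.restrictScalars L ⊓ 𝒜 i : Submodule L R)

/-- The Hilbert function of the quotient by an ideal. -/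
noncomputable def cod (𝒜 : ι → Submodule L R) (I : Ideal R) (i : ι) : ℤ :=
  (hf 𝒜 ⊤ i : ℤ) - hf 𝒜 I i

/-- Saturation with respect to four elements. -/
def sat (x : Fin 4 → R) (I : Ideal R) : Ideal R where
  carrier := {G | ∀ i, ∃ t : ℕ, x i ^ t * G ∈ I}
  add_mem' {a b} ha hb i := by
    obtain ⟨s, hs⟩ := ha i
    obtain ⟨t, ht⟩ := hb i
    refine ⟨s + t, ?_⟩
    rw [show x i ^ (s + t) * (a + b) = x i ^ t * (x i ^ s * a) + x i ^ s * (x i ^ t * b) by ring]
    exact I.add_mem (I.mul_mem_left _ hs) (I.mul_mem_left _ ht)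
  zero_mem' _ := ⟨0, by simp⟩
  smul_mem' c a ha i := by
    obtain ⟨s, hs⟩ := ha i
    exact ⟨s, by rw [smul_eq_mul, mul_left_comm]; exact I.mul_mem_left _ hs⟩

theorem mem_sat {x : Fin 4 → R} {I : Ideal R} {G : R} :
    G ∈ sat x I ↔ ∀ i, ∃ t : ℕ, x i ^ t * G ∈ I := Iff.rfl

theorem le_sat (x : Fin 4 → R) (I : Ideal R) : I ≤ sat x I := fun _ h _ => ⟨0, by simpa⟩

theorem sat_mono (x : Fin 4 → R) {I J : Ideal R} (h : I ≤ J) : sat x I ≤ sat x J :=
  fun _ hG i => (hG i).imp fun _ ht => h ht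

theorem sat_sat (x : Fin 4 → R) (I : Ideal R) : sat x (sat x I) = sat x I :=
  le_antisymm (fun G hG i => by
    obtain ⟨s, hs⟩ := hG i
    obtain ⟨t, ht⟩ := hs i
    exact ⟨t + s, by rwa [pow_add, mul_assoc]⟩) (le_sat _ _)

/-- A uniform exponent for finitely many elements of the saturation. -/
theorem exists_pow_of_le_sat {x : Fin 4 → R} {I : Ideal R} (s : Finset R)
    (h : ∀ G ∈ s, G ∈ sat x I) : ∃ t : ℕ, ∀ i, ∀ G ∈ s, ∀ N, t ≤ N → x i ^ N * G ∈ I := by
  choose! t ht using h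
  refine ⟨s.sup fun G => Finset.univ.sup (t G), fun i G hG N hN => ?_⟩
  have : t G i ≤ N := ((Finset.le_sup (Finset.mem_univ i)).trans
    (Finset.le_sup (f := fun G => Finset.univ.sup (t G)) hG)).trans hN
  rw [← Nat.sub_add_cancel this, pow_add, mul_assoc]
  exact I.mul_mem_left _ (ht G hG i)

/-- If powers of the `x i` lie in `I + (g k)`, saturation can be tested with the `g k`. -/
theorem mem_sat_of_pow {x : Fin 4 → R} {I : Ideal R} {κ : Type} [Fintype κ] (g : κ → R) {N : ℕ}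
    (hN : ∀ i, x i ^ N ∈ I ⊔ Ideal.span (Set.range g)) {G : R}
    (h : ∀ k, ∃ t : ℕ, g k ^ t * G ∈ I) : G ∈ sat x I := fun i => by
  have : I ⊔ Ideal.span (Set.range g) ≤ (I.colon {G}).radical :=
    sup_le (Ideal.le_colon.trans Ideal.le_radical) (Ideal.span_le.2 (by
      rintro _ ⟨k, rfl⟩
      exact (h k).imp fun t ht => Submodule.mem_colon_singleton.2 ht))
  obtain ⟨t, ht⟩ := this (hN i)
  exact ⟨N * t, by rw [pow_mul]; exact Submodule.mem_colon_singleton.1 ht⟩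

/-- The associated primes of an ideal. -/
theorem exists_ass [IsNoetherianRing R] (I : Ideal R) : ∃ T : Finset (Ideal R),
    (∀ P ∈ T, P.IsPrime ∧ ∃ z, P = I.colon {z}) ∧
      ∀ u, (∀ P ∈ T, u ∉ P) → ∀ G, u * G ∈ I → G ∈ I := by
  refine ⟨(associatedPrimes.finite R (R ⧸ I)).toFinset, fun P hP => ?_, fun u hu G hG => ?_⟩
  · obtain ⟨h1, z, h2⟩ := isAssociatedPrime_iff.1 ((Set.Finite.mem_toFinset _).1 hP)
    obtain ⟨z, rfl⟩ := Ideal.Quotient.mk_surjective z
    refine ⟨h1, z, h2.trans (Ideal.ext fun r => ?_)⟩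
    rw [Submodule.mem_colon_singleton, Submodule.mem_colon_singleton, Submodule.mem_bot,
      smul_eq_mul, ← Ideal.Quotient.eq_zero_iff_mem, map_mul]
    rfl
  · by_contra hc
    have : u ∈ ⋃ P ∈ associatedPrimes R (R ⧸ I), (P : Set R) := by
      rw [biUnion_associatedPrimes_eq_zero_divisors]
      exact ⟨Ideal.Quotient.mk I G, fun h => hc (Ideal.Quotient.eq_zero_iff_mem.1 h),
        (Ideal.Quotient.eq_zero_iff_mem.2 hG : Ideal.Quotient.mk I (u * G) = 0)⟩
    obtain ⟨P, h1, h2⟩ := Set.mem_iUnion₂.1 this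
    exact hu P ((Set.Finite.mem_toFinset _).2 h1) h2

/-- The associated primes of a saturated ideal miss one of the `x i`. -/
theorem exists_ass_sat [IsNoetherianRing R] (x : Fin 4 → R) (I : Ideal R) :
    ∃ T : Finset (Ideal R),
      (∀ P ∈ T, P.IsPrime ∧ I ≤ P ∧ (∃ i, x i ∉ P) ∧ ∃ z, P = (sat x I).colon {z}) ∧
      ∀ u, (∀ P ∈ T, u ∉ P) → ∀ G, u * G ∈ sat x I → G ∈ sat x I := by
  obtain ⟨T, h1, h2⟩ := exists_ass (sat x I)
  refine ⟨T, fun P hP => ?_, h2⟩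
  obtain ⟨hp, z, rfl⟩ := h1 P hP
  refine ⟨hp, (le_sat x I).trans Ideal.le_colon, ?_, z, rfl⟩
  by_contra hc
  push Not at hc
  refine hp.ne_top ((Ideal.eq_top_iff_one _).2 (Submodule.mem_colon_singleton.2 ?_))
  rw [one_smul, ← sat_sat]
  exact fun i => ⟨1, by simpa using Submodule.mem_colon_singleton.1 (hc i)⟩

/-- Avoiding finitely many ideals with an element of a subspace. -/
theorem exists_avoid [Infinite L] (V : Submodule L R) (T : Finset (Ideal R))
    (h : ∀ P ∈ T, ∃ v ∈ V, v ∉ P) : ∃ v ∈ V, ∀ P ∈ T, v ∉ P := by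
  classical
  have := Subspace.biUnion_ne_univ_of_top_notMem (k := L) (E := V)
    (s := T.image fun P => (P.restrictScalars L).comap V.subtype) (by
      simp only [Finset.mem_image, not_exists, not_and]
      intro P hP e
      obtain ⟨v, hv, h1⟩ := h P hP
      exact h1 (show (⟨v, hv⟩ : V) ∈ (P.restrictScalars L).comap V.subtype by rw [e]; trivial))
  obtain ⟨v, hv⟩ := (Set.ne_univ_iff_exists_notMem _).1 this
  exact ⟨v, v.2, fun P hP hc => hv (Set.mem_iUnion₂.2 ⟨_, Finset.mem_image_of_mem _ hP, hc⟩)⟩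

variable [DecidableEq ι] [AddCancelCommMonoid ι] {𝒜 : ι → Submodule L R} [GradedAlgebra 𝒜]

/-- Taking homogeneous components in a congruence. -/
theorem exists_comp {I J : Ideal R} (hI : I.IsHomogeneous 𝒜) (hJ : J.IsHomogeneous 𝒜) {g x : R}
    {i j : ι} (hg : g ∈ 𝒜 j) (hx : x ∈ 𝒜 (j + i)) (h : x ∈ Ideal.span {g} * I ⊔ J) :
    ∃ y ∈ I, y ∈ 𝒜 i ∧ x - g * y ∈ J := by
  obtain ⟨a, ha, b, hb, e⟩ := Submodule.mem_sup.1 h
  obtain ⟨y, hy, rfl⟩ := Ideal.mem_span_singleton_mul.1 ha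
  refine ⟨decompose 𝒜 y i, hI i hy, SetLike.coe_mem _, ?_⟩
  have := congrArg (fun z => (decompose 𝒜 z (j + i) : R)) e
  simp only [decompose_add, DirectSum.add_apply, Submodule.coe_add, decompose_of_mem_same 𝒜 hx,
    coe_decompose_mul_add_of_left_mem 𝒜 hg] at this
  rw [← this, add_sub_cancel_left]
  exact hJ _ hb

/-- If the degree of `x` is not reachable from the degree of `g`, then `g` is not needed. -/
theorem mem_of_comp {J : Ideal R} (hJ : J.IsHomogeneous 𝒜) {g x : R} {j k : ι} (hg : g ∈ 𝒜 j)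
    (hx : x ∈ 𝒜 k) (hk : ∀ i, j + i ≠ k) (h : x ∈ Ideal.span {g} ⊔ J) : x ∈ J := by
  classical
  obtain ⟨a, ha, b, hb, e⟩ := Submodule.mem_sup.1 h
  obtain ⟨y, rfl⟩ := Ideal.mem_span_singleton.1 ha
  have h0 : (decompose 𝒜 (g * y) k : R) = 0 := by
    rw [← sum_support_decompose 𝒜 y, Finset.mul_sum, decompose_sum, DFinsupp.finsetSum_apply,
      AddSubmonoidClass.coe_finsetSum]
    exact Finset.sum_eq_zero fun i _ =>
      decompose_of_mem_ne 𝒜 (SetLike.mul_mem_graded hg (SetLike.coe_mem _)) (hk i)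
  have := congrArg (fun z => (decompose 𝒜 z k : R)) e
  simp only [decompose_add, DirectSum.add_apply, Submodule.coe_add, decompose_of_mem_same 𝒜 hx, h0,
    zero_add] at this
  exact this ▸ hJ _ hb

theorem hom_span {g : R} {j : ι} (hg : g ∈ 𝒜 j) : (Ideal.span {g}).IsHomogeneous 𝒜 :=
  Ideal.homogeneous_span 𝒜 _ fun _ h => ⟨j, h ▸ hg⟩

theorem hom_colon {J : Ideal R} (hJ : J.IsHomogeneous 𝒜) {g : R} {j : ι} (hg : g ∈ 𝒜 j) :
    Ideal.IsHomogeneous 𝒜 (J.colon {g}) := fun i r hr => by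
  rw [Submodule.mem_colon_singleton, smul_eq_mul, mul_comm] at hr ⊢
  rw [← coe_decompose_mul_add_of_left_mem 𝒜 hg]
  exact hJ _ hr

theorem hom_sat {x : Fin 4 → R} {j : ι} (hx : ∀ i, x i ∈ 𝒜 j) {J : Ideal R}
    (hJ : J.IsHomogeneous 𝒜) : (sat x J).IsHomogeneous 𝒜 := fun i r hr k => by
  obtain ⟨t, ht⟩ := hr k
  refine ⟨t, ?_⟩
  rw [← coe_decompose_mul_add_of_left_mem 𝒜 (SetLike.pow_mem_graded t (hx k))]
  exact hJ _ ht

/-- To check an inclusion of a homogeneous ideal it suffices to look at homogeneous elements. -/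
theorem le_of_hom {I J : Ideal R} (hI : I.IsHomogeneous 𝒜)
    (h : ∀ i, ∀ x ∈ I, x ∈ 𝒜 i → x ∈ J) : I ≤ J := fun x hx => by
  classical
  rw [← sum_support_decompose 𝒜 x]
  exact J.sum_mem fun i _ => h i _ (hI i hx) (SetLike.coe_mem _)

/-- A homogeneous ideal of a Noetherian ring has finitely many homogeneous generators. -/
theorem exists_hom_gens [IsNoetherianRing R] {I : Ideal R} (hI : I.IsHomogeneous 𝒜) :
    ∃ s : Finset R, (∀ g ∈ s, ∃ j, g ∈ 𝒜 j) ∧ Ideal.span (s : Set R) = I := by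
  classical
  obtain ⟨s, hs⟩ := IsNoetherian.noetherian I
  refine ⟨s.biUnion fun g => (decompose 𝒜 g).support.image fun j => (decompose 𝒜 g j : R),
    fun g hg => ?_, le_antisymm (Ideal.span_le.2 fun g hg => ?_) ?_⟩
  · simp only [Finset.mem_biUnion, Finset.mem_image] at hg
    obtain ⟨a, -, j, -, rfl⟩ := hg
    exact ⟨j, SetLike.coe_mem _⟩
  · simp only [Finset.coe_biUnion, Set.mem_iUnion, Finset.mem_coe, Finset.mem_image] at hg
    obtain ⟨a, ha, j, -, rfl⟩ := hg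
    exact hI j (hs ▸ Submodule.subset_span ha)
  · rw [← hs]
    refine Ideal.span_le.2 fun g hg => ?_
    rw [← sum_support_decompose 𝒜 g]
    exact Ideal.sum_mem _ fun j hj => Ideal.subset_span (by
      simp only [Finset.coe_biUnion, Set.mem_iUnion, Finset.mem_coe, Finset.mem_image]
      exact ⟨g, hg, j, hj, rfl⟩)

variable [∀ i, FiniteDimensional L (𝒜 i)]

omit [DecidableEq ι] [AddCancelCommMonoid ι] [GradedAlgebra 𝒜] in
instance fd_inf (I : Ideal R) (i : ι) :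
    FiniteDimensional L (I.restrictScalars L ⊓ 𝒜 i : Submodule L R) :=
  Submodule.finiteDimensional_of_le inf_le_right

omit [DecidableEq ι] [AddCancelCommMonoid ι] [GradedAlgebra 𝒜] in
theorem hf_le {I J : Ideal R} {i : ι} (h : ∀ x ∈ I, x ∈ 𝒜 i → x ∈ J) : hf 𝒜 I i ≤ hf 𝒜 J i :=
  Submodule.finrank_mono fun x hx => ⟨h x hx.1 hx.2, hx.2⟩

omit [DecidableEq ι] [AddCancelCommMonoid ι] [GradedAlgebra 𝒜] in
theorem hf_mono {I J : Ideal R} (h : I ≤ J) (i : ι) : hf 𝒜 I i ≤ hf 𝒜 J i :=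
  hf_le fun _ hx _ => h hx

omit [DecidableEq ι] [AddCancelCommMonoid ι] [GradedAlgebra 𝒜] in
theorem cod_nonneg (I : Ideal R) (i : ι) : 0 ≤ cod 𝒜 I i :=
  sub_nonneg.2 (Int.ofNat_le.2 (hf_mono le_top i))

omit [DecidableEq ι] [AddCancelCommMonoid ι] [GradedAlgebra 𝒜] in
theorem exists_of_hf_lt {I J : Ideal R} {i : ι} (h : hf 𝒜 I i < hf 𝒜 J i) :
    ∃ x ∈ J, x ∈ 𝒜 i ∧ x ∉ I := by
  by_contra hc
  push Not at hc
  exact h.not_ge (hf_le hc)

theorem hf_sup_inf {I J : Ideal R} (hI : I.IsHomogeneous 𝒜) (hJ : J.IsHomogeneous 𝒜) (i : ι) :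
    hf 𝒜 (I ⊔ J) i + hf 𝒜 (I ⊓ J) i = hf 𝒜 I i + hf 𝒜 J i := by
  have e1 : ((I ⊔ J).restrictScalars L ⊓ 𝒜 i : Submodule L R) =
      (I.restrictScalars L ⊓ 𝒜 i) ⊔ (J.restrictScalars L ⊓ 𝒜 i) := by
    refine le_antisymm (fun x hx => ?_) (sup_le (inf_le_inf_right _ fun _ h => Ideal.mem_sup_left h)
      (inf_le_inf_right _ fun _ h => Ideal.mem_sup_right h))
    obtain ⟨y, hy, h1, h2⟩ := exists_comp hI hJ (g := 1) (i := i) (SetLike.one_mem_graded 𝒜)
      (by simpa using hx.2) (by rw [Ideal.span_singleton_one, Ideal.top_mul]; exact hx.1)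
    rw [one_mul] at h2
    exact Submodule.mem_sup.2 ⟨y, ⟨hy, h1⟩, x - y, ⟨h2, sub_mem hx.2 h1⟩, by simp⟩
  have e2 : ((I ⊓ J).restrictScalars L ⊓ 𝒜 i : Submodule L R) =
      (I.restrictScalars L ⊓ 𝒜 i) ⊓ (J.restrictScalars L ⊓ 𝒜 i) := by
    ext x; simp only [Submodule.mem_inf, Submodule.restrictScalars_mem]; tauto
  rw [hf, hf, e1, e2]
  exact Submodule.finrank_sup_add_finrank_inf_eq _ _

/-- The exact sequence of multiplication by a homogeneous element. -/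
theorem hf_mul {I J : Ideal R} (hI : I.IsHomogeneous 𝒜) (hJ : J.IsHomogeneous 𝒜) {g : R} {j : ι}
    (hg : g ∈ 𝒜 j) (i : ι) : hf 𝒜 (Ideal.span {g} * I ⊔ J) (j + i) + hf 𝒜 (I ⊓ J.colon {g}) i =
      hf 𝒜 I i + hf 𝒜 J (j + i) := by
  let q := (J.restrictScalars L).mkQ
  let A : Submodule L R := I.restrictScalars L ⊓ 𝒜 i
  let B : Submodule L R := (Ideal.span {g} * I ⊔ J).restrictScalars L ⊓ 𝒜 (j + i)
  let ψ := (q ∘ₗ LinearMap.mulLeft L g).domRestrict A
  have h1 := ψ.finrank_range_add_finrank_ker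
  have h2 := (q.domRestrict B).finrank_range_add_finrank_ker
  have e1 : LinearMap.range ψ = LinearMap.range (q.domRestrict B) := by
    refine le_antisymm ?_ ?_
    · rintro _ ⟨y, rfl⟩
      exact ⟨⟨g * y, Ideal.mem_sup_left (Ideal.mul_mem_mul (Ideal.mem_span_singleton_self g) y.2.1),
        SetLike.mul_mem_graded hg y.2.2⟩, rfl⟩
    · rintro _ ⟨x, rfl⟩
      obtain ⟨y, hy, h3, h4⟩ := exists_comp hI hJ hg x.2.2 x.2.1
      exact ⟨⟨y, hy, h3⟩, ((Submodule.Quotient.eq _).2 h4).symm⟩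
  have e2 : finrank L (LinearMap.ker ψ) = hf 𝒜 (I ⊓ J.colon {g}) i := by
    rw [← Submodule.finrank_map_subtype_eq, hf]
    refine congrArg (fun V : Submodule L R => finrank L V) ?_
    ext x
    simp only [Submodule.mem_map, LinearMap.mem_ker, Submodule.mem_inf,
      Submodule.restrictScalars_mem, Submodule.mem_colon_singleton, smul_eq_mul, mul_comm x g]
    constructor
    · rintro ⟨y, hy, rfl⟩
      exact ⟨⟨y.2.1, (Submodule.Quotient.mk_eq_zero _).1 hy⟩, y.2.2⟩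
    · rintro ⟨⟨a, b⟩, c⟩
      exact ⟨⟨x, a, c⟩, (Submodule.Quotient.mk_eq_zero _).2 b, rfl⟩
  have e3 : finrank L (LinearMap.ker (q.domRestrict B)) = hf 𝒜 J (j + i) := by
    rw [← Submodule.finrank_map_subtype_eq, hf]
    refine congrArg (fun V : Submodule L R => finrank L V) ?_
    ext x
    simp only [Submodule.mem_map, LinearMap.mem_ker, Submodule.mem_inf,
      Submodule.restrictScalars_mem]
    constructor
    · rintro ⟨y, hy, rfl⟩
      exact ⟨(Submodule.Quotient.mk_eq_zero _).1 hy, y.2.2⟩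
    · rintro ⟨a, b⟩
      exact ⟨⟨x, Ideal.mem_sup_right a, b⟩, (Submodule.Quotient.mk_eq_zero _).2 a, rfl⟩
  rw [e1, e2] at h1
  rw [e3] at h2
  change finrank L B + _ = finrank L A + _
  omega

/-- Multiplication by a homogeneous element outside a homogeneous prime `P ≤ I`. -/
theorem hf_mul_prime {I P : Ideal R} (hI : I.IsHomogeneous 𝒜) (hP : P.IsHomogeneous 𝒜)
    (hp : P.IsPrime) (h : P ≤ I) {g : R} {j : ι} (hg : g ∈ 𝒜 j) (hgP : g ∉ P) (i : ι) :
    hf 𝒜 (Ideal.span {g} * I ⊔ P) (j + i) + hf 𝒜 P i = hf 𝒜 I i + hf 𝒜 P (j + i) := by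
  rw [← hf_mul hI hP hg i]
  congr 2
  refine le_antisymm (le_inf h Ideal.le_colon) fun x hx => ?_
  exact (hp.mem_or_mem (Submodule.mem_colon_singleton.1 hx.2)).resolve_right hgP

/-- The quotient by one more homogeneous element. -/
theorem cod_sup_span {J : Ideal R} (hJ : J.IsHomogeneous 𝒜) {g : R} {j : ι} (hg : g ∈ 𝒜 j)
    (i : ι) : cod 𝒜 (Ideal.span {g} ⊔ J) (j + i) = cod 𝒜 J (j + i) - cod 𝒜 (J.colon {g}) i := by
  have := hf_mul (Ideal.IsHomogeneous.top 𝒜) hJ hg i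
  rw [Ideal.mul_top, top_inf_eq] at this
  simp only [cod]; omega

end

end Pool.Agent.P.MP_6f117a_ag.Surf
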