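import Pool.Agent.P.MP_6f117a_ag.SDefs

/-! The statements of the steps in the proof for surfaces in projective three-space. -/

namespace Pool.Agent.P.MP_6f117a_ag.Surf

open MvPolynomial Module
open Ideal (span)
open scoped Polynomial WithZero

universe u

variable (L : Type u) [Field L]

/-! ### Jet equations -/

variable {L} in
/-- First order facts. -/
structure Sig1 (d : ℕ) (F : S L) : Prop where
  dF_hom : ∀ i, (dF F i).IsHomogeneous (d - 1)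
  not_dvd_dF : ∀ i, ¬F ∣ dF F i
  not_dvd : ∀ (n : ℕ) (G : S L), n < d → G ≠ 0 → G.IsHomogeneous n → ¬F ∣ G
  ell1_mem : ell1 F ∈ bih L w1 (1, d)
  hess_mem : hess F ∈ bih L w1 (2, d)
  not_dvd_ell1 : ¬C F ∣ ell1 F
  sig1_ell1 : ∀ k, sig1 F k (ell1 F) = 0
  sig1_mem : ∀ k a b, ∀ G ∈ bih L w1 (a, b), sig1 F k G ∈ bih L w1 (a, b + 2 * a * (d - 1))
  sig1_sub : ∀ k a b, ∀ G ∈ bih L w1 (a, b),
    sig1 F k G - C (dF F k) ^ (2 * a) * G ∈ span {ell1 F}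
  kill_sig1 : ∀ k G, kill1 (S L) k (sig1 F k G) = sig1 F k G
  sig1_free : ∀ k a b, ∀ G ∈ bih L w1 (a, b), kill1 (S L) k G = G →
    sig1 F k G = C (dF F k) ^ (2 * a) * G
  mem_K1 : ∀ k G, G ∈ K1 F ↔ C F ∣ sig1 F k G
  K1_hom : (K1 F).IsHomogeneous (bih L w1)
  K1_prime : (K1 F).IsPrime
  free_mem_K1 : ∀ k G, kill1 (S L) k G = G → (G ∈ K1 F ↔ C F ∣ G)
  le_K1 : span {ell1 F} ⊔ span {C F} ≤ K1 F
  K1_pow : ∀ k, ∀ G ∈ K1 F, ∃ t : ℕ, C (dF F k) ^ t * G ∈ span {ell1 F} ⊔ span {C F}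

variable {L} in
/-- Second order facts. -/
structure Sig2 (d : ℕ) (F : S L) : Prop where
  inc_mem : ∀ p, ∀ G ∈ bih L w1 p, inc (S L) G ∈ bih L w2 p
  ell_mem : ell F ∈ bih L w2 (1, d)
  cee_mem : cee F ∈ bih L w2 (2, d)
  eta_mem : ∀ k, eta (S L) k ∈ bih L w2 (3, 2)
  not_dvd_ell : ¬C F ∣ ell F
  not_dvd_cee : ¬C F ∣ cee F
  sig_ell : ∀ k, sig F k (ell F) = 0
  sig_cee : ∀ k, sig F k (cee F) = 0
  sig_inc : ∀ k G, sig F k (inc (S L) G) = inc (S L) (sig1 F k G)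
  sig_mem : ∀ k a b, ∀ G ∈ bih L w2 (a, b), sig F k G ∈ bih L w2 (a, b + 2 * a * (d - 1))
  sig_sub : ∀ k a b, ∀ G ∈ bih L w2 (a, b),
    sig F k G - C (dF F k) ^ (2 * a) * G ∈ span {ell F} ⊔ span {cee F}
  kill_sig : ∀ k G, kill (S L) k (sig F k G) = sig F k G
  sig_free : ∀ k a b, ∀ G ∈ bih L w2 (a, b), kill (S L) k G = G →
    sig F k G = C (dF F k) ^ (2 * a) * G
  mem_KK : ∀ k G, G ∈ KK F ↔ C F ∣ sig F k G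
  KK_hom : (KK F).IsHomogeneous (bih L w2)
  KK_prime : (KK F).IsPrime
  free_mem_KK : ∀ k G, kill (S L) k G = G → (G ∈ KK F ↔ C F ∣ G)
  C_mem_KK : ∀ s, C s ∈ KK F ↔ F ∣ s
  inc_mem_KK : ∀ G, inc (S L) G ∈ KK F ↔ G ∈ K1 F
  le_KK : span {ell F} ⊔ span {cee F} ⊔ span {C F} ≤ KK F
  KK_pow : ∀ k, ∀ G ∈ KK F, ∃ t : ℕ,
    C (dF F k) ^ t * G ∈ span {ell F} ⊔ span {cee F} ⊔ span {C F}

variable {L} in
/-- The derivation `dl` and the invariants `eta`. -/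
structure Sig3 (d : ℕ) (F : S L) : Prop where
  dl_mem : ∀ a b, ∀ G ∈ bih L w2 (a + 1, b), dl (S L) G ∈ bih L w2 (a, b)
  dl_zero : ∀ b, ∀ G ∈ bih L w2 (0, b), dl (S L) G = 0
  dl_inc : ∀ G, dl (S L) (inc (S L) G) = 0
  dl_eta : ∀ k, dl (S L) (eta (S L) k) = 0
  dl_sig : ∀ k G, dl (S L) (sig F k G) = C (dF F k) ^ 2 * sig F k (dl (S L) G)
  dl_KK : ∀ G ∈ KK F, dl (S L) G ∈ KK F
  dl_sat : ∀ (I : Ideal (U L)) (s : S L), (∀ G ∈ I, dl (S L) G ∈ I) →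
    ∀ G ∈ sat (xj T2 L) (span {C s} ⊔ I), dl (S L) G ∈ sat (xj T2 L) (span {C s} ⊔ I)
  eta_rel : ∀ k, C (dF F (k + 1)) * eta (S L) (k + 2) - C (dF F (k + 2)) * eta (S L) (k + 1) +
    inc (S L) (hess F * X k) = X (.inl k) * cee F - X (.inr k) * ell F
  sig_eta : ∀ k, ∃ t ∈ bih L w1 (3, 2 + 6 * (d - 1)), kill1 (S L) k t = t ∧
    sig F k (eta (S L) 2) = C (dF F k ^ 5 * dF F 2) * eta (S L) k + inc (S L) t

def S_SIG1 : Prop := ∀ (d : ℕ) (F : S L), Good d F → Sig1 d F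

def S_SIG2 : Prop := ∀ (d : ℕ) (F : S L), Good d F → Sig2 d F

def S_SIG3 : Prop := ∀ (d : ℕ) (F : S L), Good d F → Sig3 d F

/-! ### Hilbert functions -/

variable {L} in
/-- Hilbert functions of the simplest ideals. -/
structure Hfa (d : ℕ) (F : S L) : Prop where
  top : ∀ n, hf (frm L) (⊤ : Ideal (S L)) n = (n + 3).choose 3
  codF : ∀ n : ℕ, d ≤ n → (cod (frm L) (span {F}) n : ℚ) = PA d n
  cod0 : ∀ n : ℕ, d < n → 2 * cod (frm L) (span {F, X 0}) n = 2 * d * n + d * (3 - d)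
  shift : ∀ (I : Ideal (S L)) (e : ℤ) (s : ℕ) (g : S L), I.IsHomogeneous (frm L) → F ∈ I →
    g.IsHomogeneous s → ¬F ∣ g → HasDeg I e → HasDeg (span {g} * I ⊔ span {F}) (e + s * d)
  form : ∀ (s : ℕ) (g : S L), g.IsHomogeneous s → ¬F ∣ g → HasDeg (span {g} ⊔ span {F}) (s * d)
  mono : ∀ (I J : Ideal (S L)) (e e' : ℤ), I.IsHomogeneous (frm L) → I ≤ sat X J →
    HasDeg I e → HasDeg J e' → e' ≤ e
  map1 : ∀ I : Ideal (S L), I.IsHomogeneous (frm L) →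
    (I.map (C : S L →+* U1 L)).IsHomogeneous (bih L w1)
  map2 : ∀ I : Ideal (S L), I.IsHomogeneous (frm L) →
    (I.map (C : S L →+* U L)).IsHomogeneous (bih L w2)

def S_HFA : Prop := ∀ (d : ℕ) (F : S L), Good d F → Hfa d F

def S_HFB : Prop := ∀ (I : Ideal (S L)) (a b : ℕ), a ≤ b →
  hf (bih L w1) (I.map (C : S L →+* U1 L)) (a, b) = (a + 2).choose 2 * hf (frm L) I (b - a) ∧
  hf (bih L w2) (I.map (C : S L →+* U L)) (a, b) = ∑ l ∈ Finset.range (a / 2 + 1),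
    (a - 2 * l + 2).choose 2 * (l + 2).choose 2 * hf (frm L) I (b - a + l)

def S_HS : Prop := ∀ (d : ℕ) (F : S L), Good d F → ∀ I : Ideal (S L), I.IsHomogeneous (frm L) →
  F ∈ I → (∃ g ∈ I, ¬F ∣ g) → ∃ e : ℕ, HasDeg I e

def S_KZ : Prop := ∀ (d : ℕ) (F : S L), Good d F → ∀ I : Ideal (S L), I.IsHomogeneous (frm L) →
  I.map C ⊓ K1 F ≤ sat (xj (Fin 3) L) (span {ell1 F} * I.map C ⊔ span {C F}) ∧
  I.map C ⊓ KK F ≤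
    sat (xj T2 L) ((span {ell F} * I.map C ⊔ span {C F}) ⊔ (span {cee F} * I.map C ⊔ span {C F})) ∧
  (span {ell F} * I.map C ⊔ span {C F}) ⊓ (span {cee F} * I.map C ⊔ span {C F}) ≤
    sat (xj T2 L) (span {ell F * cee F} * I.map C ⊔ span {C F})

def S_HFJ1 : Prop := ∀ (d : ℕ) (F : S L), Good d F → ∀ I : Ideal (S L),
  I.IsHomogeneous (frm L) → F ∈ I → ∃ c : ℕ, d ≤ c ∧ ∀ a b : ℕ, 1 ≤ a → a + c ≤ b →
    (hf (bih L w1) (I.map C ⊔ K1 F) (a, b) : ℤ) - hf (bih L w1) (K1 F) (a, b) =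
      (a + 2).choose 2 * ((hf (frm L) I (b - a) : ℤ) - hf (frm L) (span {F}) (b - a)) -
      (a + 1).choose 2 *
        ((hf (frm L) I (b - a - (d - 1)) : ℤ) - hf (frm L) (span {F}) (b - a - (d - 1)))

def S_HFJ : Prop := ∀ (d : ℕ) (F : S L), Good d F → ∀ I : Ideal (S L),
  I.IsHomogeneous (frm L) → F ∈ I → ∀ (h : ℤ → ℚ) (n₀ : ℕ),
    (∀ n : ℕ, n₀ ≤ n → (hf (frm L) I n : ℚ) - hf (frm L) (span {F}) n = h n) →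
    ∃ c : ℕ, ∀ a b : ℕ, 3 ≤ a → a + c ≤ b →
      (hf (bih L w2) (I.map C ⊔ KK F) (a, b) : ℚ) - hf (bih L w2) (KK F) (a, b) =
        Phi (d - 1) h a b

/-! ### Normality -/

def S_DIRE : Prop := ∀ (n : ℕ) (o : Fin (n + 1) → L), o ≠ 0 →
  ∃ e : MvPolynomial (Fin (n + 1)) L ≃ₐ[L] (MvPolynomial (Fin n) L)[X],
    (∀ a, Polynomial.derivative (e a) = e (∑ i, C (o i) * pderiv i a)) ∧
    (∀ (d : ℕ) a, a.IsHomogeneous d ↔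
      ∀ i, ((e a).coeff i ≠ 0 → i ≤ d) ∧ ((e a).coeff i).IsHomogeneous (d - i)) ∧
    ∀ (d : ℕ) a, a.IsHomogeneous d → (e a).coeff d = C (eval o a)

def S_DIR2 : Prop :=
  (∀ (n : ℕ) (F : MvPolynomial (Fin n) L) (T : Finset (Fin n → L)), F ≠ 0 → (∀ w ∈ T, w ≠ 0) →
    ∃ o, eval o F ≠ 0 ∧ ∀ w ∈ T, w ⬝ᵥ o ≠ 0) ∧
  (∀ (p : Ideal (S L)) (G : S L) (i : Fin 4), pderiv i G ∉ p →
    ∃ w : Fin 4 → L, w ≠ 0 ∧ ∀ o, w ⬝ᵥ o ≠ 0 → dd o G ∉ p) ∧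
  (∀ o q : Fin 4 → L, ∃ a₁ a₂ : S L, a₁.IsHomogeneous 1 ∧ a₂.IsHomogeneous 1 ∧ IsRelPrime a₁ a₂ ∧
    dd o a₁ = 0 ∧ dd o a₂ = 0 ∧ eval q a₁ = 0 ∧ eval q a₂ = 0) ∧
  (∀ (o o' : Fin 4 → L) (G : S L), dd o (dd o' G) = dd o' (dd o G)) ∧
  (∀ (o : Fin 4 → L) (n : ℕ) (G : S L), G.IsHomogeneous n → (dd o G).IsHomogeneous (n - 1)) ∧
  ∀ (o : Fin 4 → L) (G : S L), dd o G = ∑ i, C (o i) * pderiv i G

def S_COND0 : Prop := ∀ (R : Type u) [CommRing R] [IsDomain R] [IsIntegrallyClosed R] [CharZero R]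
  (f : R[X]), f.Monic → ∀ (K : Type u) [Field K] (φ : R[X] →+* K), (∀ G, φ G = 0 ↔ f ∣ G) →
    ∀ a b, φ b ≠ 0 → IsIntegral φ.range (φ a / φ b) → f.derivative * a ∈ span {f, b}

def S_COND : Prop := ∀ (n d : ℕ) (F : MvPolynomial (Fin n) L), F.IsHomogeneous d →
  F ≠ 0 → ∀ (K : Type u) [Field K] (φ : MvPolynomial (Fin n) L →+* K), (∀ G, φ G = 0 ↔ F ∣ G) →
    ∀ a b, φ b ≠ 0 → IsIntegral φ.range (φ a / φ b) → ∀ i, pderiv i F * a ∈ span {F, b}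

def S_KRON : Prop := ∀ (K : Type u) [Field K] (B : Subring K) (σ : Type) (P Q : MvPolynomial σ K),
  (∀ m, coeff m (P * Q) ∈ B) → ∀ m n, IsIntegral B (coeff m P * coeff n Q)

def S_QUE : Prop := ∀ (d : ℕ) (F : S L), Good d F → ∀ (μ j a b : ℕ) (Q G : U L) (f : S L),
  Q ∈ bih L w2 (μ, j) → G ∈ bih L w2 (a, b) → ¬F ∣ f → Q * G ∈ span {C f} ⊔ KK F →
    ∀ k, ∃ t : ℕ, C (dF F k) ^ t * G ∈ (bI F Q f).map C ⊔ KK F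

def S_SUPA : Prop := ∀ (d : ℕ) (F : S L), Good d F → ∀ I : Ideal (S L),
  I.IsHomogeneous (frm L) → F ∈ I → (∃ g ∈ I, ¬F ∣ g) → ∀ f : S L, ¬F ∣ f →
    ∃ (n m : ℕ) (g v : S L), g ∈ I ∧ g.IsHomogeneous n ∧ v.IsHomogeneous m ∧
      (∀ b ∈ I, v * b ∈ span {g} ⊔ span {F}) ∧
      ∀ G, v * G ∈ sat X (span {f} ⊔ span {F}) → G ∈ sat X (span {f} ⊔ span {F})

def S_SUP : Prop := ∀ (d : ℕ) (F : S L), Good d F → ∀ I : Ideal (S L),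
  I.IsHomogeneous (frm L) → F ∈ I → (∃ g ∈ I, ¬F ∣ g) → ∀ (k : ℕ) (e e' : ℤ),
    HasDeg I e → HasDeg (I ^ k ⊔ span {F}) e' → e' ≤ k * e

def S_P3 : Prop := ∀ (d : ℕ) (F : S L), Good d F → ∀ (I : Ideal (S L)) (e : ℤ) (s p j : ℕ)
  (f : S L) (R : U1 L), I.IsHomogeneous (frm L) → F ∈ I → HasDeg I e → f.IsHomogeneous s →
    ¬F ∣ f → R ∈ bih L w1 (p, j) → R ∉ K1 F →
    (∀ g ∈ I, ∀ k, ∃ t : ℕ, C (dF F k) ^ t * (C g * R) ∈ span {C f} ⊔ K1 F) →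
    ((s : ℤ) + p - j) * d ≤ e

/-! ### The hypersurface in jet space -/

def S_IZ : Prop := ∀ (d : ℕ) (F : S L) (hF : Good d F) (μ j : ℕ) (Q : U L),
  Q ∈ bih L w2 (μ, j) →
    (IZ hF.prime Q).IsHomogeneous (bih L w2) ∧ span {Q} ⊔ KK F ≤ IZ hF.prime Q ∧
    (∀ G, xj T2 L 0 * G ∈ IZ hF.prime Q → G ∈ IZ hF.prime Q) ∧
    (dl (S L) Q = 0 → ∀ G ∈ IZ hF.prime Q, dl (S L) G ∈ IZ hF.prime Q) ∧
    (∃ (s : ℕ) (f : S L), f.IsHomogeneous s ∧ ¬F ∣ f ∧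
      ∀ G ∈ IZ hF.prime Q, C f * G ∈ span {Q} ⊔ KK F) ∧
    ∀ (s : ℕ) (f : S L), f.IsHomogeneous s →
      (bI F Q f).IsHomogeneous (frm L) ∧ F ∈ bI F Q f ∧ f ∈ bI F Q f

def S_HFZ : Prop := ∀ (d : ℕ) (F : S L) (hF : Good d F) (μ j s : ℕ) (Q : U L) (f : S L) (e : ℤ),
  Q ∈ bih L w2 (μ, j) → Q ∉ KK F → f.IsHomogeneous s → ¬F ∣ f →
    (∀ G ∈ IZ hF.prime Q, C f * G ∈ span {Q} ⊔ KK F) → HasDeg (bI F Q f) e →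
    ∃ (c₁ : ℚ) (c : ℕ), ∀ a b : ℕ, μ + 3 ≤ a → a + c ≤ b →
      (cod (bih L w2) (IZ hF.prime Q) (a, b) : ℚ) = Phi (d - 1) (PA d) a b -
        Phi (d - 1) (fun n => PA d n - (((j : ℤ) - s) * d + e : ℤ) * n + c₁) (a - μ) b

/-! ### Existence of sections -/

def S_FREE : Prop := ∀ (d : ℕ) (F : S L), Good d F → ∀ (c : L) (n N : ℕ) (s s' : S L), n < N →
  s.IsHomogeneous n → (X 1 + C c * X 2) ^ N * s' - X 2 ^ N * s ∈ span {F, X 0} →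
    s ∈ span {F, X 0}

def S_SL1 : Prop := ∀ (d : ℕ) (F : S L), Good d F → ∀ M : Ideal (U L),
  M.IsHomogeneous (bih L w2) → C F ∈ M → xj T2 L 0 ∈ M → ∀ (a b ρ n₀ : ℕ) (q : ℤ), a ≤ b →
    (∀ n, n₀ ≤ n → cod (bih L w2) M (a, b + n) = ρ * cod (frm L) (span {F, X 0}) n + q) →
    ∃ e : Fin ρ → U L, (∀ ν, e ν ∈ bih L w2 (a, b)) ∧ ∀ (n : ℕ) (s : Fin ρ → S L),
      (∀ ν, (s ν).IsHomogeneous n) → ∑ ν, C (s ν) * e ν ∈ M → ∀ ν, s ν ∈ span {F, X 0}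

def S_SLICE : Prop := ∀ (d : ℕ) (F : S L), Good d F → ∀ I : Ideal (U L),
  I.IsHomogeneous (bih L w2) → C F ∈ I → (∀ G, xj T2 L 0 * G ∈ I → G ∈ I) →
    ∀ (a b ρ n₀ : ℕ) (q : ℤ), a ≤ b →
    (∀ n, n₀ ≤ n → cod (bih L w2) (span {xj T2 L 0} ⊔ I) (a, b + 1 + n) =
      ρ * cod (frm L) (span {F, X 0}) n + q) → ∀ k : ℕ,
    (hf (bih L w2) (sat (xj T2 L) (span {xj T2 L 0 ^ k} ⊔ I)) (a, b) : ℤ) ≤
      hf (bih L w2) (sat (xj T2 L) (span {xj T2 L 0 ^ (k + 1)} ⊔ I)) (a, b) + q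

def S_MORSE : Prop := ∀ (d : ℕ) (F : S L), Good d F → ∀ I : Ideal (U L),
  I.IsHomogeneous (bih L w2) → C F ∈ I → (∀ G, xj T2 L 0 * G ∈ I → G ∈ I) →
    ∀ (a b ρ r : ℕ) (H : ℤ → ℚ), a ≤ b →
    (∀ b' : ℕ, b ≤ b' → (cod (bih L w2) I (a, b') : ℚ) = H b') → NumOK d ρ r b H →
    ∃ Q ∈ bih L w2 (a, b), Q ∉ I ∧ Q ∈ sat (xj T2 L) (span {C (X 0 ^ r)} ⊔ I)

def S_NUM1 : Prop := ∀ d c : ℕ, 60 ≤ d → ∃ a : ℕ, 3 ≤ a ∧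
  NumOK d (rk a) (4 * a + c + 1) (a + c) (Phi (d - 1) (PA d) a)

def S_NUM2 : Prop := ∀ (d μ c : ℕ) (δ c₁ : ℚ),
  96 * μ * d * (d - 1) + 64 * δ < μ * d ^ 2 * (2 * d - 3) + 2 * δ * (3 * d - 1) →
    ∃ a : ℕ, μ + 3 ≤ a ∧ NumOK d (rk a - rk (a - μ)) (4 * a + c + 1) (a + c) fun b =>
      Phi (d - 1) (PA d) a b - Phi (d - 1) (fun n => PA d n - δ * n + c₁) (a - μ) b

/-! ### Curves -/

variable {L} in
/-- The largest value of a coordinate at a place. -/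
noncomputable def mx {K : Type u} [Field K] [Algebra L K] (P : Place L K) (ξ : Fin 4 → K) : ℤᵐ⁰ :=
  Finset.univ.sup fun i => P.v (ξ i)

variable {L} in
/-- The order of vanishing of a form `G` of degree `n` at a place. -/
noncomputable def ord {K : Type u} [Field K] [Algebra L K] (P : Place L K) (ξ : Fin 4 → K) (n : ℕ)
    (G : S L) : ℤ := n * WithZero.log (mx P ξ) - WithZero.log (P.v (aeval ξ G))

/-- Basic facts on degrees of points over function fields. -/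
structure DegApi {K : Type u} [Field K] [Algebra L K] (ξ : Fin 4 → K) : Prop where
  mx_ne : ∀ P : Place L K, mx P ξ ≠ 0
  mx_eq : ∀ P : Place L K, ∃ i, mx P ξ = P.v (ξ i)
  v_le : ∀ (P : Place L K) (n : ℕ) (G : S L), G.IsHomogeneous n → P.v (aeval ξ G) ≤ mx P ξ ^ n
  fin : {P : Place L K | mx P ξ ≠ 1}.Finite
  sum_mx : ∀ Z : Finset (Place L K), (∀ P, mx P ξ ≠ 1 → P ∈ Z) →
    ∑ P ∈ Z, WithZero.log (mx P ξ) = degree L ξ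
  ord_nonneg : ∀ (P : Place L K) (n : ℕ) (G : S L), G.IsHomogeneous n → aeval ξ G ≠ 0 →
    0 ≤ ord P ξ n G
  ord_fin : ∀ (n : ℕ) (G : S L), aeval ξ G ≠ 0 → {P : Place L K | ord P ξ n G ≠ 0}.Finite
  sum_ord : ∀ (n : ℕ) (G : S L) (Z : Finset (Place L K)), aeval ξ G ≠ 0 →
    (∀ P, ord P ξ n G ≠ 0 → P ∈ Z) → ∑ P ∈ Z, ord P ξ n G = n * degree L ξ
  ord_mul : ∀ (P : Place L K) (n m : ℕ) (G H : S L), aeval ξ G ≠ 0 → aeval ξ H ≠ 0 →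
    ord P ξ (n + m) (G * H) = ord P ξ n G + ord P ξ m H
  red : ∀ P : Place L K, ∃ p : Fin 4 → L, p ≠ 0 ∧ ∀ (n : ℕ) (G : S L), G.IsHomogeneous n →
    (eval p G ≠ 0 ↔ aeval ξ G ≠ 0 ∧ ord P ξ n G = 0)
  nonneg : 0 ≤ degree L ξ
  smul : ∀ t : K, t ≠ 0 → degree L (t • ξ) = degree L ξ
  pos : ∀ i j, Transcendental L (ξ j / ξ i) → 0 < degree L ξ
  le_sum : ∀ (i : Fin 4) (β : ℕ), ξ i ≠ 0 → (∀ j, Transcendental L (ξ j / ξ i) →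
    finrank (IntermediateField.adjoin L {ξ j / ξ i}) K ≤ β) → degree L ξ ≤ 4 * β

def S_DEG : Prop := ∀ (K : Type u) [Field K] [Algebra L K] [FF L K] (ξ : Fin 4 → K), ξ ≠ 0 →
  DegApi L ξ

def S_CURVE : Prop := ∀ (F : S L) (c : Cv F) (I : Ideal (U L)), I.IsHomogeneous (bih L w2) →
  (∀ G ∈ I, c.ev G = 0) → ∀ (a b r : ℕ) (Q : U L), Q ∈ bih L w2 (a, b) →
    Q ∈ sat (xj T2 L) (span {C (X 0 ^ r)} ⊔ I) → c.ev Q ≠ 0 →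
    0 ≤ degree L c.y ∧ ((r : ℤ) - b - 3 * a) * degree L c.y ≤ 4 * a * genus L c.K

def S_GEN : Prop := ∀ (d : ℕ) (F : S L), Good d F → Nonempty (GenPt F)

def S_SPREAD : Prop := ∀ (d : ℕ) (F : S L), Good d F → ∀ γ : GenPt F,
  (∀ (c : Cv F) (β : (S L)[X][X]), γ.e2 β = 0 → c.e2 β = 0) ∧
  (∀ π : γ.K[X][X], ∃ (β : (S L)[X][X]) (n : ℕ) (D : S L), D.IsHomogeneous n ∧ ¬F ∣ D ∧
    γ.e2 β = Polynomial.C (Polynomial.C (γ.e0 D)) * π) ∧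
  (∀ g : γ.K[X], ∃ (β : (S L)[X]) (n : ℕ) (D : S L), D.IsHomogeneous n ∧ ¬F ∣ D ∧
    β.map γ.e0 = Polynomial.C (γ.e0 D) * g) ∧
  (∀ (c : Cv F) (G : U L), kill (S L) 2 G = G → c.ev G = c.e2 (sp2 (S L) G)) ∧
  (∀ c : Cv F, ∀ G ∈ KK F, c.ev G = 0) ∧
  ∀ (c : Cv F) (a b : ℕ), ∀ G ∈ bih L w2 (a, b),
    c.e2 (sp2 (S L) (sig F 2 G)) = c.e0 (dF F 2) ^ (2 * a) * c.ev G

def S_LIFT : Prop := ∀ (d : ℕ) (F : S L), Good d F → ∀ (γ : GenPt F) (π : γ.K[X][X]), π ≠ 0 →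
  ∃ (μ j : ℕ) (P : (U1 L)[X]), IsLift γ π μ j P

def S_PI : Prop := ∀ (d : ℕ) (F : S L), Good d F → ∀ (γ : GenPt F) (π : γ.K[X][X]) (μ j : ℕ)
  (P : (U1 L)[X]), IsLift γ π μ j P →
    piOf P ∈ bih L w2 (μ, j) ∧ dl (S L) (piOf P) = 0 ∧ kill (S L) 2 (piOf P) = piOf P ∧
    sp2 (S L) (piOf P) = P.map (sp1 (S L)).toRingHom ∧ piOf P ∉ KK F ∧
    ¬X (.inl 0) ∣ MvPolynomial.map γ.e0 (piOf P)

def S_TAYC : Prop := ∀ (K : Type u) [Field K] [CharZero K] (a μ : ℕ) (G Q : MvPolynomial T2 K),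
  IsWeightedHomogeneous w2 G a → IsWeightedHomogeneous w2 Q μ → kill K 2 G = G →
    kill K 2 Q = Q → dl K Q = 0 → (∀ k : ℕ, sp2 K Q ∣ sp2 K ((dl K)^[k] G)) →
    ∃ N : ℕ, Q ∣ X (.inl 0) ^ N * G

def S_TAY : Prop := ∀ (d : ℕ) (F : S L) (hF : Good d F) (γ : GenPt F) (a b : ℕ) (G : U L),
  G ∈ bih L w2 (a, b) →
    ((∀ k : ℕ, γ.e2 (sp2 (S L) (sig F 2 ((dl (S L))^[k] G))) = 0) → G ∈ KK F) ∧
    ∀ (π : γ.K[X][X]) (μ j : ℕ) (P : (U1 L)[X]), IsLift γ π μ j P →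
      (∀ k : ℕ, π ∣ γ.e2 (sp2 (S L) (sig F 2 ((dl (S L))^[k] G)))) → G ∈ IZ hF.prime (piOf P)

/-! ### The discriminant -/

def S_RESC : Prop := ∀ (R : Type u) [CommRing R] [IsDomain R] (f g : R[X]) (m n : ℕ) (α t : R),
  α ≠ 0 → f.natDegree ≤ m → g.natDegree ≤ n →
    Polynomial.resultant (f.comp (Polynomial.C α * Polynomial.X + Polynomial.C t))
      (g.comp (Polynomial.C α * Polynomial.X + Polynomial.C t)) m n =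
      α ^ (m * n) * Polynomial.resultant f g m n

def S_RES1 : Prop := ∀ (d : ℕ) (F : S L), Good d F → ∀ (μ j p : ℕ) (P : (U1 L)[X]), 1 ≤ p →
  P.natDegree = p → (∀ l, P.coeff l ≠ 0 →
    3 * l ≤ μ ∧ 2 * l ≤ j ∧ P.coeff l ∈ bih L w1 (μ - 3 * l, j - 2 * l)) →
    disc F P p ∈ bih L w1 ((2 * p - 1) * μ - 3 * p ^ 2, (2 * p - 1) * j - 2 * p ^ 2 + (d - 1) * p ^ 2)

def S_RES2 : Prop := ∀ (d : ℕ) (F : S L), Good d F → ∀ (γ : GenPt F) (π : γ.K[X][X]) (μ j : ℕ)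
  (P : (U1 L)[X]), IsLift γ π μ j P → Irreducible π → 1 ≤ π.natDegree →
    disc F P π.natDegree ∉ K1 F

def S_RES3 : Prop := ∀ (d : ℕ) (F : S L), Good d F → ∀ (μ j p : ℕ) (P : (U1 L)[X]) (f : S L),
  1 ≤ p → P.natDegree = p → piOf P ∈ bih L w2 (μ, j) → (∀ l, P.coeff l ≠ 0 →
    3 * l ≤ μ ∧ 2 * l ≤ j ∧ P.coeff l ∈ bih L w1 (μ - 3 * l, j - 2 * l)) →
    ∀ g ∈ bI F (piOf P) f ^ (2 * p - 1), ∀ k, ∃ t : ℕ,
      C (dF F k) ^ t * (C g * disc F P p) ∈ span {C (f ^ (2 * p - 1))} ⊔ K1 F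

def S_DELTA : Prop := ∀ (d : ℕ) (F : S L), Good d F → ∀ (γ : GenPt F) (π : γ.K[X][X])
  (μ j s : ℕ) (P : (U1 L)[X]) (f : S L) (e : ℤ), IsLift γ π μ j P → Irreducible π →
    1 ≤ π.natDegree → f.IsHomogeneous s → ¬F ∣ f → HasDeg (bI F (piOf P) f) e →
    (μ = 3 ∧ π.natDegree = 1) ∨ (4 ≤ μ ∧ -(μ * d ^ 2 : ℤ) ≤ 4 * (((j : ℤ) - s) * d + e))

/-! ### The exceptional case -/

def S_REGSEQ : Prop := ∀ (n : Fin 4 → ℕ) (f : Fin 4 → S L), (∀ i, 0 < n i) →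
  (∀ i, (f i).IsHomogeneous (n i)) → (∃ N : ℕ, ∀ i, X i ^ N ∈ span (Set.range f)) →
    (∀ G, f 1 * G ∈ span {f 0} → G ∈ span {f 0}) ∧
    (∀ G, f 2 * G ∈ span {f 0, f 1} → G ∈ span {f 0, f 1}) ∧
    ∀ G, f 3 * G ∈ span {f 0, f 1, f 2} → G ∈ span {f 0, f 1, f 2}

def S_KOS : Prop := ∀ (d : ℕ) (F : S L), Good d F → ∀ (b f : S L) (Z₀ Z₁ : U1 L), ¬F ∣ f →
  C (f * dF F 0 ^ 5 * dF F 1 ^ 5) * (hess F * X 2) + C (dF F 1) ^ 6 * Z₀ - C (dF F 0) ^ 6 * Z₁ ∈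
    K1 F → (∀ m, b * coeff m Z₀ ∈ span {F, f}) → (∀ m, b * coeff m Z₁ ∈ span {F, f}) →
    ∀ i j, X 0 ^ 2 * b * pderiv i (pderiv j F) ∈ span (Set.range fun k => pderiv k F)

def S_CONE0 : Prop := ∀ o : Fin 4 → L,
  (∀ a a' : S L, a * a' ≠ 0 → dd o (a * a') = 0 → dd o a = 0) ∧
  (∀ (d : ℕ) (F a : S L), F.IsHomogeneous d → 0 < d → eval o F ≠ 0 → dd o a = 0 → F ∣ a → a = 0) ∧
  (∀ (a : S L) (n : ℕ), dd o a = 0 → dd o (homogeneousComponent n a) = 0) ∧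
  (o ≠ 0 → ∀ n : ℕ,
    finrank L (LinearMap.ker (dd o : S L →ₗ[L] S L) ⊓ frm L n : Submodule L (S L)) =
      (n + 2).choose 2)

def S_HART : Prop := ∀ (d : ℕ) (F : S L) (o : Fin 4 → L), F.IsHomogeneous d → Prime F →
  eval o F ≠ 0 → ∀ a₁ a₂ f y : S L, dd o a₁ = 0 → dd o a₂ = 0 → IsRelPrime a₁ a₂ → ¬F ∣ f →
    a₁ * y ∈ span {F, f} → a₂ * y ∈ span {F, f} → y ∈ span {F, f}

variable {L} in
/-- Closed under division by pairs of coprime cones with vertex `o`. -/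
def Hart (o : Fin 4 → L) (I : Ideal (S L)) : Prop :=
  ∀ a₁ a₂ y : S L, dd o a₁ = 0 → dd o a₂ = 0 → IsRelPrime a₁ a₂ → a₁ * y ∈ I → a₂ * y ∈ I → y ∈ I

def S_CONE : Prop := ∀ (o : Fin 4 → L) (I : Ideal (S L)) (e : ℤ), o ≠ 0 →
  I.IsHomogeneous (frm L) → Hart o I → HasDeg I e →
    ∃ (n : ℕ) (b : S L), b ≠ 0 ∧ b.IsHomogeneous n ∧ (n : ℤ) ≤ e ∧ dd o b = 0 ∧ b ∈ I ∧
      ∀ b' ∈ I, dd o b' = 0 → b ∣ b'

def S_ORD : Prop := ∀ (d : ℕ) (F : S L), Good d F → ∀ (p : Ideal (S L)) (f z : S L), p.IsPrime →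
  ¬F ∣ f → p = (span {F, f}).colon {z} → (∃ i, X i ∉ p) → ∃ v : S L → ℕ,
    (∀ a b, ¬F ∣ a → ¬F ∣ b → v (a * b) = v a + v b) ∧ (∀ a, ¬F ∣ a → (v a = 0 ↔ a ∉ p)) ∧
    (∀ a b, ¬F ∣ a → ¬F ∣ b → (v a ≤ v b ↔ ∃ s, s ∉ p ∧ s * b ∈ span {F, a})) ∧
    ∀ (D : Derivation L (S L) (S L)) (a : S L), D F = 0 → ¬F ∣ a → 2 ≤ v a → D a ∈ p

def S_GENC : Prop :=
  (∀ (I : Ideal (S L)) (z : S L), I.IsHomogeneous (frm L) → (I.colon {z}).IsPrime →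
    Ideal.IsHomogeneous (frm L) (I.colon {z})) ∧
  ∀ (p : Ideal (S L)) (e : ℤ), p.IsPrime → p.IsHomogeneous (frm L) → HasDeg p e →
    (∃ i, X i ∉ p) → ∃ ξ : CPt p, ∀ o, Hart o p → 0 < degree L ξ.ξ

def S_ORDSUM : Prop := ∀ (d : ℕ) (F : S L), Good d F → ∀ (K : Type u) [Field K] [Algebra L K]
  [FF L K] (ξ : Fin 4 → K) (o : Fin 4 → L), ξ ≠ 0 → aeval ξ F = 0 → aeval ξ (dd o F) ≠ 0 →
    ∃ T : Finset (Fin 4 → L), (∀ w ∈ T, w ≠ 0) ∧ ∀ o' : Fin 4 → L, (∀ w ∈ T, w ⬝ᵥ o' ≠ 0) →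
      ∀ (M n : ℕ) (A B : S L), A.IsHomogeneous n → B.IsHomogeneous n → aeval ξ B ≠ 0 →
        aeval ξ (A * dd o' F ^ M) = aeval ξ (B * dd o F ^ M) →
        (M * (d - 1) : ℤ) * degree L ξ ≤ n * degree L ξ

def S_RADHF : Prop := ∀ (I : Ideal (S L)) (e : ℤ) (T : Finset (Ideal (S L))) (N : ℕ),
  I.IsHomogeneous (frm L) → HasDeg I e → (∀ p ∈ T, I ≤ p ∧ ∃ ξ : CPt p, 0 < degree L ξ.ξ) →
    e * (N + 1) < (N + 3).choose 3 → ∃ b : S L, b ≠ 0 ∧ b.IsHomogeneous N ∧ ∀ p ∈ T, b ∈ p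

variable {L} in
/-- The data in the bound for the multiplicity of a polar curve. -/
structure MD (F : S L) (I p : Ideal (S L)) (T : Finset (Ideal (S L))) (e : ℤ) (s n₀ M : ℕ)
    (f z : S L) (v : S L → ℕ) : Prop where
  hom : I.IsHomogeneous (frm L)
  deg : HasDeg I e
  hart : ∀ o, eval o F ≠ 0 → Hart o I
  mem : p ∈ T
  primes : ∀ q ∈ T, q.IsPrime ∧ q.IsHomogeneous (frm L) ∧ F ∈ q ∧ (∃ g ∈ q, ¬F ∣ g) ∧
    (∃ i, X i ∉ q) ∧ ∀ o, eval o F ≠ 0 → Hart o q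
  pow : ∀ b, ¬F ∣ b → (∀ q ∈ T, b ∈ q) → b ^ M ∈ I
  f_hom : f.IsHomogeneous s
  z_hom : z.IsHomogeneous (s + n₀)
  f_nd : ¬F ∣ f
  z_nd : ¬F ∣ z
  mul_z : ∀ b ∈ I, b * z ∈ span {F, f}
  v_mul : ∀ a b, ¬F ∣ a → ¬F ∣ b → v (a * b) = v a + v b
  v_zero : ∀ a, ¬F ∣ a → (v a = 0 ↔ a ∉ p)
  v_le : ∀ a b, ¬F ∣ a → ¬F ∣ b → (v a ≤ v b ↔ ∃ s, s ∉ p ∧ s * b ∈ span {F, a})
  v_der : ∀ (D : Derivation L (S L) (S L)) (a : S L), D F = 0 → ¬F ∣ a → 2 ≤ v a → D a ∈ p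
  v_f : v f = M + v z

def S_MULT0 : Prop := ∀ (d : ℕ) (F : S L), Good d F → ∀ I p T e s n₀ M f z v,
  MD F I p T e s n₀ M f z v → ∀ (o : Fin 4 → L) (δ : ℕ) (G : S L), eval o F ≠ 0 → G ≠ 0 →
    G.IsHomogeneous δ → dd o G = 0 → G ∈ p → (∀ b ∈ p, dd o b = 0 → G ∣ b) → v G = 1 →
    ∃ (n : ℕ) (G' σ : S L), (M * δ + n : ℤ) ≤ e ∧ G'.IsHomogeneous n ∧ G' ∉ p ∧
      σ.IsHomogeneous (M * δ + n + n₀) ∧ σ ∉ p ∧ F ∣ G ^ M * G' * z - σ * f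

def S_MULT1 : Prop := ∀ (d : ℕ) (F : S L), Good d F → ∀ I p T e s n₀ M f z v,
  MD F I p T e s n₀ M f z v → (M * d : ℤ) ≤ 2 * e + n₀

def S_MULT : Prop := ∀ (d : ℕ) (F : S L), Good d F → ∀ (Z : Set (S L)) (e : ℤ) (s n₀ N : ℕ)
  (f : S L), Z.Finite → f.IsHomogeneous s → ¬F ∣ f → (∀ z ∈ Z, z.IsHomogeneous (s + n₀)) →
    HasDeg (⨅ z ∈ Z, (span {F, f}).colon {z}) e → e * (N + 1) < (N + 3).choose 3 → N < d →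
    ∃ (M : ℕ) (b : S L), (M * d : ℤ) ≤ 2 * e + n₀ ∧ b ≠ 0 ∧ b.IsHomogeneous (M * N) ∧
      ∀ z ∈ Z, b * z ∈ span {F, f}

def S_EXC : Prop := ∀ (d : ℕ) (F : S L), Good d F → 300 ≤ d → NoSmall d F → ∀ (γ : GenPt F)
  (π : γ.K[X][X]) (j s : ℕ) (P : (U1 L)[X]) (f : S L) (e : ℤ), IsLift γ π 3 j P →
    π.natDegree = 1 → f.IsHomogeneous s → ¬F ∣ f → HasDeg (bI F (piOf P) f) e →
    (43 * d - d ^ 2 : ℤ) ≤ ((j : ℤ) - s) * d + e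

/-! ### Webs -/

def S_WEBEX : Prop := ∀ (g : A2 L) (G : (A2 L)[X]), g ≠ 0 → G.Monic → Irreducible G →
  ∃ W : Web L, W.g = g ∧ W.G = G

def S_KERF : Prop := ∀ c : PCv L, ∃ f : A2 L, Prime f ∧ (∀ a, aeval c.y a = 0 ↔ f ∣ a) ∧
  ¬f ∣ pderiv 1 f ∧ ∀ W : Web L, W.Sol c → W.Inv f

def S_REP : Prop := ∀ (W : Web L) (f : A2 L), Prime f → ¬f ∣ pderiv 1 f → W.Inv f →
  ∃ h, W.Rep f h

def S_LOC : Prop := ∀ (W : Web L) (f : A2 L) (h : ℕ → A2 L), Prime f → ¬f ∣ W.g → ¬f ∣ W.Δ →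
  ¬f ∣ pderiv 1 f → W.Inv f → W.Rep f h → W.Loc f (W.Lop (W.kap f h)) ∧ ¬W.Loc f (W.kap f h)

def S_FILT : Prop := ∀ W : Web L, ∃ V : Submodule L W.E, FiniteDimensional L V ∧
  ∀ (f : A2 L) (h : ℕ → A2 L), Prime f → ¬f ∣ W.g → ¬f ∣ W.Δ → W.Rep f h →
    W.Loc f (W.Lop (W.kap f h)) → W.Lop (W.kap f h) ∈ V

def S_FINT : Prop := ∀ (W : Web L) (x : W.E), (∀ c, algebraMap L W.E c ≠ x) → W.D x = 0 →
  ∃ N, ∀ c : PCv L, W.Sol c → c.On N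

def S_JOUM : Prop := ∀ W : Web L, ∃ N, ∀ c : PCv L, W.Sol c → c.On N

def S_JOU : Prop := ∀ G : (A2 L)[X], G ≠ 0 →
  ∃ N, ∀ c : PCv L, G.eval₂ c.e0 (c.δ (c.y 1)) = 0 → c.On N

def S_WEB : Prop := ∀ (d : ℕ) (F : S L), Good d F → ∀ (γ : GenPt F) (β : (S L)[X]),
  β.map γ.e0 ≠ 0 → ∃ N, ∀ c : Cv F, c.e1 β = 0 → On F N c.y

/-! ### Assembly -/

def S_T0 : Prop := ∀ (d : ℕ) (F : S L), Good d F → 60 ≤ d → ∀ γ : GenPt F,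
  ∃ (β : (S L)[X][X]) (α : ℕ), γ.e2 β ≠ 0 ∧
    ∀ c : Cv F, degree L c.y ≤ α * genus L c.K ∨ c.e2 β = 0

def S_T1 : Prop := ∀ (d : ℕ) (F : S L), Good d F → 300 ≤ d → NoSmall d F → ∀ (γ : GenPt F)
  (π : γ.K[X][X]) (μ j : ℕ) (P : (U1 L)[X]), IsLift γ π μ j P → Irreducible π →
    1 ≤ π.natDegree → Tame F fun c => c.ev (piOf P) = 0

def S_T2 : Prop := ∀ (d : ℕ) (F : S L), Good d F → 300 ≤ d → NoSmall d F → Tame F fun _ => True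

def S_BND1 : Prop := ∀ (d : ℕ) (F : S L), Good d F → ∀ N : ℕ, ∃ β : ℕ,
  ∀ (K : Type u) [Field K] [Algebra L K] [FF L K] (x : Fin 4 → K), x ≠ 0 → aeval x F = 0 →
    On F N x → degree L x ≤ β * finrank (ratios L x) K

def S_BND2 : Prop := ∀ (K : Type u) [Field K] [Algebra L K] [FF L K] (E : IntermediateField L K),
  E ≠ ⊥ → 2 ≤ genus L E → finrank E K ≤ 2 * genus L K

def S_FIN : Prop := ∀ (d : ℕ) (F : S L), Good d F → (Tame F fun _ => True) →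
  GenusBound F ∧ (NoLowGenus F → AlgHyperbolic fun _ : Unit => F)

def S_PRIME : Prop := ∀ (n d : ℕ) (F : MvPolynomial (Fin (n + 3)) L), F.IsHomogeneous d → 0 < d →
  (∀ p : Fin (n + 3) → L, (∀ i, eval p (pderiv i F) = 0) → p = 0) → Prime F

def S_COORD : Prop := ∀ (d : ℕ) (F : S L), F.IsHomogeneous d → 2 ≤ d →
  (∀ p : Fin 4 → L, (∀ i, eval p (pderiv i F) = 0) → p = 0) →
    ∃ g : Matrix (Fin 4) (Fin 4) L, g.det ≠ 0 ∧ (lin g F).IsHomogeneous d ∧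
      (∀ p : Fin 4 → L, eval p (lin g F) = 0 → (∀ i, eval p (dF (lin g F) i) = 0) → p = 0) ∧
      ∀ i : Fin 3, eval (Pi.single i.succ 1) (lin g F) ≠ 0

def S_GOOD : Prop := ∀ (d : ℕ) (F : S L), F.IsHomogeneous d → 2 ≤ d →
  (∀ p : Fin 4 → L, eval p F = 0 → (∀ i, eval p (dF F i) = 0) → p = 0) →
    (∀ i : Fin 3, eval (Pi.single i.succ 1) F ≠ 0) → Good d F

def S_TRANS : Prop := ∀ (d : ℕ) (F : S L) (g : Matrix (Fin 4) (Fin 4) L), g.det ≠ 0 →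
  (NoSmall d F → NoSmall d (lin g F)) ∧ (GenusBound (lin g F) → GenusBound F) ∧
  (NoLowGenus F → NoLowGenus (lin g F)) ∧
  ((AlgHyperbolic fun _ : Unit => lin g F) → AlgHyperbolic fun _ : Unit => F)

def S_EXAMPLE : Prop := ∀ a b : ℕ, 5000000 ≤ a → a ≤ b → b ≤ a + 1 →
  (∀ p : Fin 4 → L, (∀ i, eval p
    (pderiv i (∑ k, X k ^ (a + b) + X 0 ^ a * X 1 ^ b : S L)) = 0) → p = 0) ∧
  NoSmall (a + b) (∑ k, X k ^ (a + b) + X 0 ^ a * X 1 ^ b : S L)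

end Pool.Agent.P.MP_6f117a_ag.Surf
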