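import Pool.Agent.P.MP_6f117a_ag.SIface

/-! Iterates of the derivation `dl` and the resulting degree bound. -/

namespace Pool.Agent.P.MP_6f117a_ag.Surf

open MvPolynomial Module
open Ideal (span)
open scoped Polynomial WithZero

universe u

variable {L : Type u} [Field L] {d : ℕ} {F : S L}

theorem iter_mem (h3 : Sig3 d F) {a b : ℕ} {Q : U L} (hQ : Q ∈ bih L w2 (a, b)) (k : ℕ) :
    ∃ a' ≤ a, (dl (S L))^[k] Q ∈ bih L w2 (a', b) := by
  induction k with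
  | zero => exact ⟨a, le_rfl, hQ⟩
  | succ k ih =>
    obtain ⟨a', h1, h2⟩ := ih
    rw [Function.iterate_succ_apply']
    cases a' with
    | zero => exact ⟨0, h1, by rw [h3.dl_zero b _ h2]; exact zero_mem _⟩
    | succ a' => exact ⟨a', by omega, h3.dl_mem a' b _ h2⟩

theorem iter_bound (h3 : Sig3 d F) (hC : S_CURVE L) {I : Ideal (U L)}
    (hI : I.IsHomogeneous (bih L w2)) (hd : ∀ G ∈ I, dl (S L) G ∈ I) {a c : ℕ} {Q : U L}
    (hQ : Q ∈ bih L w2 (a, a + c))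
    (hs : Q ∈ sat (xj T2 L) (span {C (X 0 ^ (4 * a + c + 1))} ⊔ I)) (k : ℕ) (cv : Cv F)
    (h0 : ∀ G ∈ I, cv.ev G = 0) (hne : cv.ev ((dl (S L))^[k] Q) ≠ 0) :
    degree L cv.y ≤ (4 * a : ℕ) * genus L cv.K := by
  obtain ⟨a', h1, h2⟩ := iter_mem h3 hQ k
  have h4 : (dl (S L))^[k] Q ∈ sat (xj T2 L) (span {C (X 0 ^ (4 * a + c + 1))} ⊔ I) := by
    clear hne h2
    induction k with
    | zero => exact hs
    | succ k ih => rw [Function.iterate_succ_apply']; exact h3.dl_sat I _ hd _ ih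
  obtain ⟨h5, h6⟩ := hC F cv I hI h0 a' _ _ _ h2 h4 hne
  have h7 : (a' : ℤ) ≤ a := by exact_mod_cast h1
  push_cast at h6 ⊢
  nlinarith [Int.natCast_nonneg (genus L cv.K)]

theorem On.mono {N N' : ℕ} (h : N ≤ N') {K : Type u} [Field K] [Algebra L K] {x : Fin 4 → K}
    (hx : On F N x) : On F N' x :=
  let ⟨n, h1, h2⟩ := hx; ⟨n, h1.trans h, h2⟩

end Pool.Agent.P.MP_6f117a_ag.Surf
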