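import Pool.Agent.P.MP_6f117a_ag.SGraded

/-! The bigraded rings of jet variables over the coordinate ring of projective three-space. -/

namespace Pool.Agent.P.MP_6f117a_ag.Surf

open MvPolynomial Module DirectSum

universe u

/-- The coordinate ring of projective three-space. -/
abbrev S (L : Type u) [Field L] := MvPolynomial (Fin 4) L

/-- Polynomials in jet variables `τ` with coefficients in `S`. -/
abbrev Jet (τ : Type) (L : Type u) [Field L] := MvPolynomial τ (S L)

variable {L : Type u} [Field L] {τ : Type}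

/-- Forms of degree `n`. -/
abbrev frm (L : Type u) [Field L] : ℕ → Submodule L (S L) := homogeneousSubmodule (Fin 4) L

noncomputable instance frmGraded : GradedAlgebra (frm L) := MvPolynomial.gradedAlgebra

instance frmFd (n : ℕ) : FiniteDimensional L (frm L n) :=
  Module.Finite.iff_fg.2 (weightedHomogeneousSubmodule_fg L (1 : Fin 4 → ℕ) (by simp) n)

/-- Elements of weight `p.1` and total degree `p.2`. -/
def bih (L : Type u) [Field L] (wt : τ → ℕ) (p : ℕ × ℕ) : Submodule L (Jet τ L) where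
  carrier := {G | ∀ m k, coeff k (coeff m G) ≠ 0 →
    Finsupp.weight wt m = p.1 ∧ m.degree + k.degree = p.2}
  add_mem' {a b} ha hb m k h := by
    by_cases e : coeff k (coeff m a) = 0
    · exact hb m k (by simpa [e] using h)
    · exact ha m k e
  zero_mem' m k h := by simp at h
  smul_mem' c a ha m k h := ha m k fun e => h (by simp [e])

theorem weight_one {σ : Type} (k : σ →₀ ℕ) : Finsupp.weight (1 : σ → ℕ) k = k.degree := by
  rw [Finsupp.degree_eq_weight_one]; rfl

theorem mem_bih {wt : τ → ℕ} {p : ℕ × ℕ} {G : Jet τ L} : G ∈ bih L wt p ↔ ∀ m k,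
    coeff k (coeff m G) ≠ 0 → Finsupp.weight wt m = p.1 ∧ m.degree + k.degree = p.2 := Iff.rfl

theorem mem_bih' {wt : τ → ℕ} {a b : ℕ} {G : Jet τ L} : G ∈ bih L wt (a, b) ↔ ∀ m,
    coeff m G ≠ 0 → Finsupp.weight wt m = a ∧ m.degree ≤ b ∧
      (coeff m G).IsHomogeneous (b - m.degree) := by
  refine ⟨fun h m hm => ?_, fun h m k hk => ?_⟩
  · obtain ⟨k, hk⟩ := ne_zero_iff.1 hm
    have := h m k hk
    refine ⟨this.1, by dsimp only at this; omega, fun k' hk' => ?_⟩
    have := (h m k' hk').2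
    rw [weight_one]
    dsimp only at this; omega
  · obtain ⟨h1, h2, h3⟩ := h m fun e => hk (by simp [e])
    have := h3 hk
    rw [weight_one] at this
    exact ⟨h1, by dsimp only; omega⟩

theorem coeff_hom {wt : τ → ℕ} {a b : ℕ} {G : Jet τ L} (h : G ∈ bih L wt (a, b)) (m : τ →₀ ℕ) :
    (coeff m G).IsHomogeneous (b - m.degree) := by
  by_cases e : coeff m G = 0
  · rw [e]; exact isHomogeneous_zero _ _ _
  · exact (mem_bih'.1 h m e).2.2

theorem monomial_mem_bih (wt : τ → ℕ) (m : τ →₀ ℕ) {s : S L} {n : ℕ} (hs : s.IsHomogeneous n) :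
    monomial m s ∈ bih L wt (Finsupp.weight wt m, m.degree + n) := by
  classical
  refine mem_bih'.2 fun m' h => ?_
  rw [coeff_monomial] at h ⊢
  split_ifs at h ⊢ with e
  · subst e; exact ⟨rfl, by omega, by simpa using hs⟩
  · exact absurd rfl h

theorem C_mem_bih (wt : τ → ℕ) {s : S L} {n : ℕ} (hs : s.IsHomogeneous n) :
    (C s : Jet τ L) ∈ bih L wt (0, n) := by
  simpa using monomial_mem_bih wt 0 hs

theorem X_mem_bih (wt : τ → ℕ) (j : τ) : (X j : Jet τ L) ∈ bih L wt (wt j, 1) := by
  simpa [Finsupp.weight_single, X] using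
    monomial_mem_bih wt (Finsupp.single j 1) (isHomogeneous_one (Fin 4) L)

/-- The weights on the flattened ring. -/
def flatWt (wt : τ → ℕ) : τ ⊕ Fin 4 → ℕ × ℕ := Sum.elim (fun j => (wt j, 1)) fun _ => (0, 1)

theorem weight_flat (wt : τ → ℕ) (n : τ ⊕ Fin 4 →₀ ℕ) : Finsupp.weight (flatWt wt) n =
    (Finsupp.weight wt (Finsupp.sumFinsuppAddEquivProdFinsupp n).1,
      (Finsupp.sumFinsuppAddEquivProdFinsupp n).1.degree +
        (Finsupp.sumFinsuppAddEquivProdFinsupp n).2.degree) := by
  induction n using Finsupp.induction_linear with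
  | zero => simp [Prod.ext_iff]
  | add a b ha hb => simp only [map_add, ha, hb, Prod.fst_add, Prod.snd_add, Prod.mk_add_mk]; ring_nf
  | single j c =>
    cases j <;> simp [flatWt, Finsupp.weight_single, Finsupp.comapDomain_single,
      Finsupp.comapDomain_single_of_not_mem_range]

theorem bih_eq_map (wt : τ → ℕ) (p : ℕ × ℕ) : bih L wt p =
    (weightedHomogeneousSubmodule L (flatWt wt) p).map
      (sumAlgEquiv L τ (Fin 4)).toLinearEquiv.toLinearMap := by
  ext G
  obtain ⟨H, rfl⟩ := (sumAlgEquiv L τ (Fin 4)).surjective G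
  rw [Submodule.mem_map_equiv, mem_bih]
  have e : ∀ n, coeff (Finsupp.sumFinsuppAddEquivProdFinsupp n).2 (coeff
      (Finsupp.sumFinsuppAddEquivProdFinsupp n).1 (sumAlgEquiv L τ (Fin 4) H)) = coeff n H :=
    fun n => by
      simp [sumAlgEquiv, coeff, AddMonoidAlgebra.curryAlgEquiv, AddMonoidAlgebra.curryRingEquiv,
        AddMonoidAlgebra.curryAddEquiv]
  rw [show (sumAlgEquiv L τ (Fin 4)).toLinearEquiv.symm (sumAlgEquiv L τ (Fin 4) H) = H from
    (sumAlgEquiv L τ (Fin 4)).symm_apply_apply H, mem_weightedHomogeneousSubmodule]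
  refine ⟨fun h n hn => ?_, fun h m k hk => ?_⟩
  · rw [weight_flat]
    exact Prod.ext_iff.2 (h _ _ (e n ▸ hn))
  · obtain ⟨n, hn⟩ := Finsupp.sumFinsuppAddEquivProdFinsupp.surjective (m, k)
    have := e n
    rw [hn] at this
    have := h (this ▸ hk)
    rw [weight_flat, hn] at this
    exact Prod.ext_iff.1 this

noncomputable instance bihGraded (wt : τ → ℕ) : GradedAlgebra (bih L wt) where
  one_mem := C_mem_bih wt (isHomogeneous_one (Fin 4) L)
  mul_mem i j a b ha hb := by
    rw [bih_eq_map] at *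
    obtain ⟨a, ha, rfl⟩ := ha
    obtain ⟨b, hb, rfl⟩ := hb
    exact ⟨a * b, IsWeightedHomogeneous.mul ha hb, map_mul (sumAlgEquiv L τ (Fin 4)) a b⟩
  __ := IsInternal.chooseDecomposition (bih L wt) (by
    let _ := weightedGradedAlgebra L (flatWt wt)
    have h := (isInternal_submodule_iff_iSupIndep_and_iSup_eq_top _).1
      (Decomposition.isInternal (weightedHomogeneousSubmodule L (flatWt wt)))
    rw [isInternal_submodule_iff_iSupIndep_and_iSup_eq_top, funext (bih_eq_map wt)]
    let e := Submodule.orderIsoMapComap (sumAlgEquiv L τ (Fin 4)).toLinearEquiv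
    exact ⟨(iSupIndep_map_orderIso_iff e).2 h.1, (e.map_iSup _).symm.trans (by rw [h.2, e.map_top])⟩)

instance bihFd [Finite τ] (wt : τ → ℕ) (p : ℕ × ℕ) : FiniteDimensional L (bih L wt p) := by
  have : FiniteDimensional L (homogeneousSubmodule (τ ⊕ Fin 4) L p.2) :=
    Module.Finite.iff_fg.2 (weightedHomogeneousSubmodule_fg L (1 : τ ⊕ Fin 4 → ℕ) (by simp) _)
  have : FiniteDimensional L (weightedHomogeneousSubmodule L (flatWt wt) p) :=
    Submodule.finiteDimensional_of_le (S₂ := homogeneousSubmodule (τ ⊕ Fin 4) L p.2)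
      fun H hH n hn => by
        rw [← hH hn]
        clear hn
        induction n using Finsupp.induction_linear with
        | zero => simp
        | add a b ha hb => simp only [map_add, ha, hb, Prod.snd_add]
        | single j c => cases j <;> simp [flatWt, Finsupp.weight_single]
  rw [bih_eq_map]
  infer_instance

/-- The coordinates inside the jet ring. -/
noncomputable abbrev xj (τ : Type) (L : Type u) [Field L] : Fin 4 → Jet τ L := fun i => C (X i)

theorem xj_mem (wt : τ → ℕ) (i : Fin 4) : xj τ L i ∈ bih L wt (0, 1) :=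
  C_mem_bih wt (isHomogeneous_X L i)

theorem form_mul_mem {R : Type u} [CommRing R] (φ : S L →+* R) {I : Ideal R} {g : R} {t n : ℕ}
    (ht : ∀ i, φ (X i) ^ t * g ∈ I) {s : S L} (hs : s.IsHomogeneous n) (hn : 4 * t ≤ n) :
    φ s * g ∈ I := by
  rw [s.as_sum, map_sum, Finset.sum_mul]
  refine I.sum_mem fun k hk => ?_
  have h1 := hs (mem_support_iff.1 hk)
  rw [weight_one, Finsupp.degree_eq_sum, Fin.sum_univ_four] at h1
  obtain ⟨i, hi⟩ : ∃ i, t ≤ k i := by
    by_contra hc
    push Not at hc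
    have := hc 0; have := hc 1; have := hc 2; have := hc 3
    rcases Nat.eq_zero_or_pos t with h | h <;> omega
  have : k = (k - Finsupp.single i t) + Finsupp.single i t :=
    (tsub_add_cancel_of_le (Finsupp.single_le_iff.2 hi)).symm
  rw [this, ← mul_one (coeff _ s), ← monomial_mul, ← X_pow_eq_monomial, map_mul, map_pow, mul_assoc]
  exact I.mul_mem_left _ (ht i)

theorem tors_aux {R : Type u} [CommRing R] [Algebra L R] [IsNoetherianRing R] {ι : Type}
    [DecidableEq ι] [AddCancelCommMonoid ι] {𝒜 : ι → Submodule L R} [GradedAlgebra 𝒜]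
    {x : Fin 4 → R} {I J : Ideal R} (hJ : J.IsHomogeneous 𝒜) (h : J ≤ sat x I) :
    ∃ (t : ℕ) (s : Finset ι), ∀ p, (∀ j ∈ s, ∀ q, q + j = p → ∀ u ∈ 𝒜 q, ∀ g,
      (∀ i, x i ^ t * g ∈ I) → u * g ∈ I) → ∀ G ∈ J, G ∈ 𝒜 p → G ∈ I := by
  classical
  obtain ⟨s, h1, rfl⟩ := exists_hom_gens hJ
  obtain ⟨t, ht⟩ := exists_pow_of_le_sat s fun g hg => h (Ideal.subset_span hg)
  choose! dg hdg using h1
  refine ⟨t, s.image dg, fun p hp G hG hGp => ?_⟩
  have : ∀ u, (decompose 𝒜 (u * G) p : R) ∈ I := by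
    clear hGp
    induction hG using Submodule.span_induction with
    | mem g hg =>
      intro u
      rw [← sum_support_decompose 𝒜 u, Finset.sum_mul, decompose_sum, DFinsupp.finsetSum_apply,
        AddSubmonoidClass.coe_finsetSum]
      refine I.sum_mem fun q _ => ?_
      have hm := SetLike.mul_mem_graded (SetLike.coe_mem (decompose 𝒜 u q)) (hdg g hg)
      by_cases e : q + dg g = p
      · rw [decompose_of_mem_same 𝒜 (e ▸ hm)]
        exact hp _ (Finset.mem_image_of_mem _ hg) q e _ (SetLike.coe_mem _) g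
          fun i => ht i g hg t le_rfl
      · rw [decompose_of_mem_ne 𝒜 hm e]; exact I.zero_mem
    | zero => simp
    | add a b _ _ ha hb =>
      intro u
      rw [mul_add, decompose_add, DirectSum.add_apply, Submodule.coe_add]
      exact I.add_mem (ha u) (hb u)
    | smul c a _ ha => intro u; rw [smul_eq_mul, ← mul_assoc]; exact ha _
  simpa [decompose_of_mem_same 𝒜 hGp] using this 1

/-- Saturation does not change forms of large degree. -/
theorem tors0 {I J : Ideal (S L)} (hJ : J.IsHomogeneous (frm L)) (h : J ≤ sat X I) :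
    ∃ n₀, ∀ n, n₀ ≤ n → ∀ G ∈ J, G.IsHomogeneous n → G ∈ I := by
  obtain ⟨t, s, hs⟩ := tors_aux hJ h
  refine ⟨4 * t + s.sup id, fun n hn => hs n fun j hj q e u hu g hg => ?_⟩
  have : j ≤ s.sup id := Finset.le_sup (f := id) hj
  exact form_mul_mem (RingHom.id _) hg hu (by omega)

/-- Saturation does not change the part of bidegree `(a, b)` if `b - a` is large. -/
theorem tors [Finite τ] {wt : τ → ℕ} (hw : ∀ j, 1 ≤ wt j) {I J : Ideal (Jet τ L)}
    (hJ : J.IsHomogeneous (bih L wt)) (h : J ≤ sat (xj τ L) I) :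
    ∃ c, ∀ a b, a + c ≤ b → ∀ G ∈ J, G ∈ bih L wt (a, b) → G ∈ I := by
  obtain ⟨t, s, hs⟩ := tors_aux hJ h
  refine ⟨4 * t + s.sup Prod.snd, fun a b hn => hs _ fun j hj q e u hu g hg => ?_⟩
  have : j.2 ≤ s.sup Prod.snd := Finset.le_sup (f := Prod.snd) hj
  obtain ⟨e1, e2⟩ := Prod.ext_iff.1 e
  simp only [Prod.fst_add, Prod.snd_add] at e1 e2
  rw [u.as_sum, Finset.sum_mul]
  refine I.sum_mem fun m hm => ?_
  obtain ⟨h1, h2, h3⟩ := (mem_bih' (a := q.1) (b := q.2)).1 hu m (mem_support_iff.1 hm)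
  have h4 : m.degree ≤ Finsupp.weight wt m := by
    rw [← weight_one, Finsupp.weight_apply, Finsupp.weight_apply]
    exact Finset.sum_le_sum fun j _ => Nat.mul_le_mul_left _ (hw j)
  rw [← mul_one (coeff m u), ← zero_add m, ← monomial_mul, mul_comm (monomial 0 _), mul_assoc]
  exact I.mul_mem_left _ (form_mul_mem C hg (by simpa using h3) (by omega))

end Pool.Agent.P.MP_6f117a_ag.Surf
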