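import Pool.Agent.P.MP_6f117a_ag.SIface

/-! Step JOU of the proof for surfaces in projective three-space. -/

namespace Pool.Agent.P.MP_6f117a_ag.Surf

open MvPolynomial Module
open Ideal (span)
open scoped Polynomial WithZero

universe u

theorem pJOU (L : Type u) [Field L] [IsAlgClosed L] [CharZero L]
    (hWEBEX : S_WEBEX L) (hJOUM : S_JOUM L) :
    S_JOU L := by
  intro G hG
  have hmono : ∀ (c : PCv L) (N M : ℕ), N ≤ M → c.On N → c.On M := by
    rintro c N M h ⟨φ, h1, h2, h3⟩
    exact ⟨φ, h1, h2.trans h, h3⟩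
  have hg : G.leadingCoeff ≠ 0 := Polynomial.leadingCoeff_ne_zero.mpr hG
  have key : ∀ (n : ℕ) (H : (A2 L)[X]), H.natDegree = n → H.Monic →
      ∃ N, ∀ c : PCv L, H.eval₂ c.e0 (c.e0 G.leadingCoeff * c.δ (c.y 1)) = 0 → c.On N := by
    intro n
    induction n using Nat.strong_induction_on with
    | _ n ih =>
      intro H hn hH
      by_cases h1 : H = 1
      · refine ⟨0, fun c hc => ?_⟩
        rw [h1, Polynomial.eval₂_one] at hc
        exact absurd hc one_ne_zero
      by_cases hirr : Irreducible H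
      · obtain ⟨W, hW1, hW2⟩ := hWEBEX _ H hg hH hirr
        obtain ⟨N, hN⟩ := hJOUM W
        refine ⟨N, fun c hc => hN c ?_⟩
        unfold Web.Sol
        rw [hW1, hW2]
        exact hc
      rw [Polynomial.irreducible_of_monic hH h1] at hirr
      push Not at hirr
      obtain ⟨a, b, ha, hb, hab, ha1, hb1⟩ := hirr
      have hd : a.natDegree + b.natDegree = n := by
        rw [← ha.natDegree_mul hb, hab, hn]
      have ha0 : a.natDegree ≠ 0 := fun h => ha1 (ha.natDegree_eq_zero.mp h)
      have hb0 : b.natDegree ≠ 0 := fun h => hb1 (hb.natDegree_eq_zero.mp h)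
      obtain ⟨N, hN⟩ := ih a.natDegree (by omega) a rfl ha
      obtain ⟨M, hM⟩ := ih b.natDegree (by omega) b rfl hb
      refine ⟨max N M, fun c hc => ?_⟩
      rw [← hab, Polynomial.eval₂_mul, mul_eq_zero] at hc
      rcases hc with hc | hc
      · exact hmono c _ _ (le_max_left _ _) (hN c hc)
      · exact hmono c _ _ (le_max_right _ _) (hM c hc)
  rcases Nat.eq_zero_or_pos G.natDegree with h0 | h0
  · refine ⟨(G.coeff 0).totalDegree, fun c hc => ⟨G.coeff 0, ?_, le_rfl, ?_⟩⟩
    · rw [← h0]; exact hg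
    · rw [Polynomial.eq_C_of_natDegree_eq_zero h0, Polynomial.eval₂_C] at hc
      exact hc
  · obtain ⟨N, hN⟩ := key _ _ rfl (Polynomial.monic_integralNormalization hG)
    refine ⟨N, fun c hc => hN c ?_⟩
    rw [Polynomial.integralNormalization_eval₂_leadingCoeff_mul h0, hc, mul_zero]

end Pool.Agent.P.MP_6f117a_ag.Surf
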