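import Pool.Agent.P.MP_6f117a_ag.SAll

/-! The degree bound in the main theorem for surfaces follows from the other hypotheses. -/

namespace Pool.Agent.P.MP_6f117a_ag.Surf

open MvPolynomial

universe u

theorem main' (L : Type u) [Field L] [IsAlgClosed L] [CharZero L] (d : ℕ) (F : S L)
    (hF : F.IsHomogeneous d)
    (hs : ∀ p : Fin 4 → L, (∀ i, eval p (pderiv i F) = 0) → p = 0) (H : NoSmall d F) :
    GenusBound F ∧ (NoLowGenus F → AlgHyperbolic fun _ : Unit => F) := by
  refine main L d F (by_contra fun hd => ?_) hF hs H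
  obtain ⟨k, hk⟩ : ∃ k, pderiv k F ≠ 0 := by_contra fun hc =>
    one_ne_zero (hs 1 fun i => by rw [not_not.1 (not_exists.1 hc i), map_zero])
  obtain ⟨i, j, h⟩ := H (d - 1) _ (by nlinarith [Nat.sub_le d 1]) hk hF.pderiv
  exact h (Ideal.mul_mem_right _ _ (Ideal.subset_span ⟨k, rfl⟩))

end Pool.Agent.P.MP_6f117a_ag.Surf
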