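import Pool.Agent.P.MP_6f117a_ag.SIface

/-! Step RADHF of the proof for surfaces in projective three-space. -/

namespace Pool.Agent.P.MP_6f117a_ag.Surf

open MvPolynomial Module
open Ideal (span)
open scoped Polynomial WithZero

universe u

namespace Radhf

variable {L : Type u} [Field L]

theorem hf_top (n : ℕ) : hf (frm L) (⊤ : Ideal (S L)) n = (n + 3).choose 3 := by
  classical
  have e : {d : Fin 4 →₀ ℕ | d.degree = n} = ↑((Finset.univ : Finset (Fin 4)).finsuppAntidiag n) := by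
    ext d
    simp [Finsupp.degree_eq_sum]
  rw [hf, Submodule.restrictScalars_top, top_inf_eq, frm, homogeneousSubmodule_eq_finsupp_supported,
    e]
  refine (AddMonoidAlgebra.supportedEquivFinsupp _).finrank_eq.trans ?_
  rw [finrank_finsupp_self]
  simp only [Finset.coe_sort_coe, Fintype.card_coe]
  rw [Finset.card_finsuppAntidiag_nat_eq_choose, Finset.card_univ, Fintype.card_fin,
    show 4 + n - 1 = n + 3 by omega]
  exact Nat.choose_symm_add

theorem hf_bot (n : ℕ) : hf (frm L) (⊥ : Ideal (S L)) n = 0 := by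
  rw [hf, Submodule.restrictScalars_bot, bot_inf_eq, finrank_bot]

theorem avoid [Infinite L] (W : Set (Ideal (S L))) (hW : W.Finite)
    (h : ∀ P ∈ W, ∃ i, X i ∉ P) : ∃ l : S L, l.IsHomogeneous 1 ∧ ∀ P ∈ W, l ∉ P := by
  obtain ⟨l, h1, h2⟩ := exists_avoid (frm L 1) hW.toFinset fun P hP => by
    obtain ⟨i, hi⟩ := h P (hW.mem_toFinset.1 hP)
    exact ⟨X i, isHomogeneous_X L i, hi⟩
  exact ⟨l, h1, fun P hP => h2 P (hW.mem_toFinset.2 hP)⟩

theorem cod_anti {I J : Ideal (S L)} (h : I ≤ J) (n : ℕ) : cod (frm L) J n ≤ cod (frm L) I n := by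
  have := hf_mono (𝒜 := frm L) h n
  simp only [cod]
  omega

theorem cod_sat_mono [Infinite L] {I : Ideal (S L)} (hI : I.IsHomogeneous (frm L)) :
    Monotone fun n => cod (frm L) (sat X I) n := by
  refine monotone_nat_of_le_succ fun n => ?_
  obtain ⟨T, h1, h2⟩ := exists_ass_sat (X : Fin 4 → S L) I
  obtain ⟨y, hy, h3⟩ := avoid (T : Set (Ideal (S L))) T.finite_toSet fun P hP => (h1 P hP).2.2.1
  have hJ : (sat X I).IsHomogeneous (frm L) := hom_sat (j := 1) (isHomogeneous_X L) hI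
  have h4 : (sat X I).colon {y} = sat X I :=
    le_antisymm (fun G hG => h2 y h3 G (by
      rw [mul_comm]; exact Submodule.mem_colon_singleton.1 hG)) Ideal.le_colon
  have h5 := cod_sup_span hJ (g := y) (j := 1) hy n
  have h6 := cod_nonneg (𝒜 := frm L) (span {y} ⊔ sat X I) (1 + n)
  rw [h4] at h5
  rw [add_comm n 1]
  omega

theorem cod_le [Infinite L] {I : Ideal (S L)} {e : ℤ} (hI : I.IsHomogeneous (frm L))
    (he : HasDeg I e) {l : S L} (hl : l.IsHomogeneous 1)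
    (h : ∀ G, l * G ∈ sat X I → G ∈ sat X I) (N : ℕ) :
    cod (frm L) (sat X (span {l} ⊔ I)) N ≤ e := by
  obtain ⟨c, n₀, hc⟩ := he
  have h1 : (I.colon {l}).IsHomogeneous (frm L) := hom_colon hI (j := 1) hl
  obtain ⟨n₁, h2⟩ := tors0 (I := I) h1 fun G hG => h G (le_sat X I (by
    rw [mul_comm]; exact Submodule.mem_colon_singleton.1 hG))
  set n := n₀ + n₁ + N with hn
  have h3 : hf (frm L) (I.colon {l}) n = hf (frm L) I n :=
    le_antisymm (hf_le fun x hx hx' => h2 n (by omega) x hx hx') (hf_mono Ideal.le_colon n)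
  have h4 : cod (frm L) (I.colon {l}) n = cod (frm L) I n := by simp only [cod, h3]
  have h5 := cod_sup_span hI (g := l) (j := 1) hl n
  rw [h4, hc _ (by omega : n₀ ≤ 1 + n), hc _ (by omega : n₀ ≤ n)] at h5
  have h6 := cod_anti (le_sat X (span {l} ⊔ I)) (1 + n)
  have h7 := cod_sat_mono ((hom_span (𝒜 := frm L) (j := 1) hl).sup hI) (by omega : N ≤ 1 + n)
  dsimp only at h7
  push_cast at h5
  linarith

theorem cod_inf_le (J : ℕ → Ideal (S L)) (hJ : ∀ i, (J i).IsHomogeneous (frm L)) (e : ℤ) (N : ℕ)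
    (he : ∀ i, cod (frm L) (J i) N ≤ e) (n : ℕ) :
    ((Finset.range n).inf J).IsHomogeneous (frm L) ∧
      cod (frm L) ((Finset.range n).inf J) N ≤ e * n := by
  induction n with
  | zero =>
    rw [Finset.range_zero, Finset.inf_empty]
    exact ⟨Ideal.IsHomogeneous.top _, by simp [cod]⟩
  | succ n ih =>
    rw [Finset.range_add_one, Finset.inf_insert]
    refine ⟨(hJ n).inf ih.1, ?_⟩
    have h1 := hf_sup_inf (hJ n) ih.1 N
    have h2 := cod_nonneg (𝒜 := frm L) (J n ⊔ (Finset.range n).inf J) N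
    have h3 := he n
    have h4 := ih.2
    simp only [cod] at h2 h3 h4 ⊢
    push_cast
    have h5 : (hf (frm L) (J n ⊔ (Finset.range n).inf J) N : ℤ) +
        hf (frm L) (J n ⊓ (Finset.range n).inf J) N =
        hf (frm L) (J n) N + hf (frm L) ((Finset.range n).inf J) N := by exact_mod_cast h1
    linarith

theorem ord_le {I p : Ideal (S L)} (hI : I.IsHomogeneous (frm L)) (hp : I ≤ p) (ξ : CPt p)
    (D : DegApi L ξ.ξ) {l b : S L} {N : ℕ} (hl : l.IsHomogeneous 1) (hb : b.IsHomogeneous N)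
    (hl0 : aeval ξ.ξ l ≠ 0) (hb0 : aeval ξ.ξ b ≠ 0) (h : b ∈ sat X (span {l} ⊔ I))
    (P : Place L ξ.K) : ord P ξ.ξ 1 l ≤ ord P ξ.ξ N b := by
  obtain ⟨j, hj⟩ := D.mx_eq P
  have hj0 : ξ.ξ j ≠ 0 := fun h0 => D.mx_ne P (by rw [hj, h0, map_zero])
  obtain ⟨t, ht⟩ := h j
  have h1 : X j ^ (t + 1) * b ∈ span {l} * ⊤ ⊔ I := by
    rw [Ideal.mul_top, pow_succ', mul_assoc]
    exact Ideal.mul_mem_left _ _ ht
  have h2 : (X j ^ (t + 1) * b : S L).IsHomogeneous (1 + (t + N)) := by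
    have := ((isHomogeneous_X L j).pow (t + 1)).mul hb
    rwa [show 1 * (t + 1) + N = 1 + (t + N) by omega] at this
  obtain ⟨w, -, hw, h3⟩ := exists_comp (𝒜 := frm L) (Ideal.IsHomogeneous.top _) hI (j := 1)
    (i := t + N) hl h2 h1
  have h4 := (ξ.ker _ _ (h2.sub (hl.mul hw))).2 (hp h3)
  rw [map_sub, sub_eq_zero] at h4
  have hx : aeval ξ.ξ (X j ^ (t + 1) : S L) ≠ 0 := by
    rw [map_pow, aeval_X]
    exact pow_ne_zero _ hj0
  have hw0 : aeval ξ.ξ w ≠ 0 := by
    intro h0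
    rw [map_mul, map_mul, h0, mul_zero] at h4
    exact mul_ne_zero hx hb0 h4
  have h5 := D.ord_mul P 1 (t + N) l w hl0 hw0
  have h6 := D.ord_mul P (t + 1) N (X j ^ (t + 1)) b hx hb0
  have h7 : ord P ξ.ξ (t + 1) (X j ^ (t + 1) : S L) = 0 := by
    rw [ord, map_pow, aeval_X, map_pow, WithZero.log_pow, hj, nsmul_eq_mul, sub_self]
  have h8 : ord P ξ.ξ (t + 1 + N) (X j ^ (t + 1) * b) = ord P ξ.ξ (1 + (t + N)) (l * w) := by
    rw [ord, ord, h4, show t + 1 + N = 1 + (t + N) by omega]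
  have h9 := D.ord_nonneg P _ w hw hw0
  linarith

theorem false_of_ord {K : Type u} [Field K] [Algebra L K] {ξ : Fin 4 → K} (D : DegApi L ξ)
    (hpos : 0 < degree L ξ) (l : ℕ → S L) {b : S L} {N : ℕ} (hb : b.IsHomogeneous N)
    (hl0 : ∀ i, aeval ξ (l i) ≠ 0) (hb0 : aeval ξ b ≠ 0)
    (hle : ∀ i ∈ Finset.range (N + 1), ∀ P : Place L K, ord P ξ 1 (l i) ≤ ord P ξ N b)
    (hrel : ∀ i k, i < k → ∀ P : Place L K, ord P ξ 1 (l i) ≠ 0 → ord P ξ 1 (l k) = 0) : False := by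
  classical
  let Z : Finset (Place L K) := (D.ord_fin N b hb0).toFinset ∪
    (Finset.range (N + 1)).biUnion fun i => (D.ord_fin 1 (l i) (hl0 i)).toFinset
  have h1 := D.sum_ord N b Z hb0 fun P hP =>
    Finset.mem_union_left _ ((Set.Finite.mem_toFinset _).2 hP)
  have h2 : ∀ i ∈ Finset.range (N + 1), ∑ P ∈ Z, ord P ξ 1 (l i) = degree L ξ := fun i hi => by
    simpa using D.sum_ord 1 (l i) Z (hl0 i) fun P hP => Finset.mem_union_right _
      (Finset.mem_biUnion.2 ⟨i, hi, (Set.Finite.mem_toFinset _).2 hP⟩)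
  have h3 : ∀ P ∈ Z, ∑ i ∈ Finset.range (N + 1), ord P ξ 1 (l i) ≤ ord P ξ N b := by
    intro P _
    by_cases h : ∃ i ∈ Finset.range (N + 1), ord P ξ 1 (l i) ≠ 0
    · obtain ⟨i, hi, h4⟩ := h
      rw [Finset.sum_eq_single_of_mem i hi]
      · exact hle i hi P
      · intro k _ hk
        rcases lt_or_gt_of_ne hk with h5 | h5
        · by_contra h6
          exact h4 (hrel k i h5 P h6)
        · exact hrel i k h5 P h4
    · push Not at h
      rw [Finset.sum_eq_zero h]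
      exact D.ord_nonneg P N b hb hb0
  have h4 := Finset.sum_le_sum h3
  rw [Finset.sum_comm, Finset.sum_congr rfl h2, h1, Finset.sum_const, Finset.card_range,
    nsmul_eq_mul] at h4
  push_cast at h4
  linarith

end Radhf

open Radhf in
theorem pRADHF (L : Type u) [Field L] [IsAlgClosed L] [CharZero L]
    (hDEG : S_DEG L) :
    S_RADHF L := by
  classical
  intro I e T N hI he hT hN
  have hξ : ∀ p : T, ∃ ξ : CPt p.1, 0 < degree L ξ.ξ := fun p => (hT p.1 p.2).2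
  choose ξ hpos using hξ
  have D : ∀ p : T, DegApi L (ξ p).ξ := fun p => hDEG _ _ (ξ p).ne
  choose q hq0 hq using fun p => (D p).red
  obtain ⟨A, hA1, hA2⟩ := exists_ass_sat (X : Fin 4 → S L) I
  obtain ⟨l, hl, hrel⟩ := exists_seq_of_forall_finset_exists
    (fun v : S L => v.IsHomogeneous 1 ∧ (∀ P ∈ A, v ∉ P) ∧ ∀ p, aeval (ξ p).ξ v ≠ 0)
    (fun v w => ∀ p P, ord P (ξ p).ξ 1 v ≠ 0 → ord P (ξ p).ξ 1 w = 0) fun s hs => by
      let W : Set (Ideal (S L)) := ⋃ p : T, ⋃ v ∈ s,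
        (fun P => RingHom.ker (eval (q p P))) '' {P | ord P (ξ p).ξ 1 v ≠ 0}
      have hW : W.Finite := Set.finite_iUnion fun p => s.finite_toSet.biUnion fun v hv =>
        ((D p).ord_fin 1 v ((hs v hv).2.2 p)).image _
      obtain ⟨w, hw, h1⟩ := avoid ((A : Set (Ideal (S L))) ∪ T ∪ W)
        ((A.finite_toSet.union T.finite_toSet).union hW) (by
          rintro P ((hP | hP) | hP)
          · exact (hA1 P hP).2.2.1
          · obtain ⟨i, hi⟩ := Function.ne_iff.1 (ξ ⟨P, hP⟩).ne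
            refine ⟨i, fun h => hi ?_⟩
            simpa using ((ξ ⟨P, hP⟩).ker 1 _ (isHomogeneous_X L i)).2 h
          · simp only [W, Set.mem_iUnion] at hP
            obtain ⟨p, v, -, P, -, rfl⟩ := hP
            obtain ⟨i, hi⟩ := Function.ne_iff.1 (hq0 p P)
            exact ⟨i, fun h => hi (by simpa using h)⟩)
      refine ⟨w, ⟨hw, fun P hP => h1 P (Or.inl (Or.inl hP)), fun p h => h1 p.1 (Or.inl (Or.inr p.2))
        (((ξ p).ker 1 w hw).1 h)⟩, fun v hv p P hP => ((hq p P 1 w hw).1 fun h => ?_).2⟩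
      refine h1 (RingHom.ker (eval (q p P))) (Or.inr ?_) h
      simp only [W, Set.mem_iUnion]
      exact ⟨p, v, hv, P, hP, rfl⟩
  have h1 := (cod_inf_le (fun i => sat X (span {l i} ⊔ I))
    (fun i => hom_sat (j := 1) (isHomogeneous_X L) ((hom_span (𝒜 := frm L) (j := 1) (hl i).1).sup hI))
    e N (fun i => cod_le hI he (hl i).1 (hA2 _ (hl i).2.1) N) (N + 1)).2
  have h2 : hf (frm L) (⊥ : Ideal (S L)) N <
      hf (frm L) ((Finset.range (N + 1)).inf fun i => sat X (span {l i} ⊔ I)) N := by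
    rw [cod, hf_top] at h1
    rw [hf_bot]
    push_cast at h1
    omega
  obtain ⟨b, hb1, hb2, hb3⟩ := exists_of_hf_lt h2
  refine ⟨b, hb3, hb2, fun p hp => ((ξ ⟨p, hp⟩).ker N b hb2).1 ?_⟩
  by_contra hb0
  exact false_of_ord (D ⟨p, hp⟩) (hpos _) l hb2 (fun i => (hl i).2.2 _) hb0
    (fun i hi P => ord_le hI (hT p hp).1 (ξ ⟨p, hp⟩) (D _) (hl i).1 hb2 ((hl i).2.2 _) hb0
      (Finset.inf_le (f := fun i => sat X (span {l i} ⊔ I)) hi hb1) P)
    fun i k hik P => hrel i k hik _ P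

end Pool.Agent.P.MP_6f117a_ag.Surf
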