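import Pool.Agent.P.MP_6f117a_ag.SIface

/-! Step RESC of the proof for surfaces in projective three-space. -/

namespace Pool.Agent.P.MP_6f117a_ag.Surf

open MvPolynomial Module
open Ideal (span)
open scoped Polynomial WithZero

universe u

namespace Resc

open Polynomial

theorem coeff_taylor_of_le {R : Type u} [CommRing R] (f : R[X]) (t : R) (n : ℕ)
    (h : f.natDegree ≤ n) : (taylor t f).coeff n = f.coeff n := by
  rcases h.eq_or_lt with rfl | h
  · exact coeff_taylor_natDegree _ _
  · rw [coeff_eq_zero_of_natDegree_lt h,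
      coeff_eq_zero_of_natDegree_lt (by rwa [natDegree_taylor])]

theorem res_taylor {R : Type u} [CommRing R] (f g : R[X]) (m n : ℕ) (t : R)
    (hf : f.natDegree ≤ m) (hg : g.natDegree ≤ n) :
    resultant (taylor t f) (taylor t g) m n = resultant f g m n := by
  obtain ⟨k, rfl⟩ := Nat.exists_eq_add_of_le hf
  obtain ⟨l, rfl⟩ := Nat.exists_eq_add_of_le hg
  have h := resultant_taylor f g t
  rw [natDegree_taylor, natDegree_taylor] at h
  rw [resultant_add_left_deg _ _ _ _ _ (natDegree_taylor f t).le,
    resultant_add_left_deg _ _ _ _ _ le_rfl,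
    resultant_add_right_deg _ _ _ _ _ (natDegree_taylor g t).le,
    resultant_add_right_deg _ _ _ _ _ le_rfl, h, coeff_taylor_of_le _ _ _ hg,
    coeff_taylor_of_le _ _ _ le_rfl]

theorem sum_add (m n : ℕ) :
    ∑ i : Fin (m + n), (i : ℕ) = m * n + (∑ i : Fin m, (i : ℕ) + ∑ i : Fin n, (i : ℕ)) := by
  rw [Fin.sum_univ_add]
  simp only [Fin.val_castAdd, Fin.val_natAdd, Finset.sum_add_distrib, Finset.sum_const,
    Finset.card_univ, Fintype.card_fin, smul_eq_mul]
  ring

theorem res_scale {R : Type u} [CommRing R] [IsDomain R] (f g : R[X]) (m n : ℕ) (α : R)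
    (hα : α ≠ 0) :
    resultant (f.comp (Polynomial.C α * Polynomial.X)) (g.comp (Polynomial.C α * Polynomial.X))
      m n = α ^ (m * n) * resultant f g m n := by
  let c : Fin (m + n) → ℕ := fun j => j.addCases (fun a => (a : ℕ)) (fun a => (a : ℕ))
  have h : sylvester (f.comp (Polynomial.C α * Polynomial.X))
      (g.comp (Polynomial.C α * Polynomial.X)) m n * Matrix.diagonal (fun j => α ^ c j) =
      Matrix.diagonal (fun i : Fin (m + n) => α ^ (i : ℕ)) * sylvester f g m n := by
    ext i j
    rw [Matrix.mul_diagonal, Matrix.diagonal_mul]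
    induction j using Fin.addCases with
    | left j =>
      simp only [sylvester, Matrix.of_apply, Fin.addCases_left, c, comp_C_mul_X_coeff, Set.mem_Icc]
      split_ifs with h
      · rw [mul_assoc, ← pow_add, Nat.sub_add_cancel h.1, mul_comm]
      · simp
    | right j =>
      simp only [sylvester, Matrix.of_apply, Fin.addCases_right, c, comp_C_mul_X_coeff,
        Set.mem_Icc]
      split_ifs with h
      · rw [mul_assoc, ← pow_add, Nat.sub_add_cancel h.1, mul_comm]
      · simp
  have h2 := congrArg Matrix.det h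
  have h3 : ∑ j, c j = ∑ i : Fin m, (i : ℕ) + ∑ i : Fin n, (i : ℕ) := by
    rw [Fin.sum_univ_add]
    simp [c]
  rw [Matrix.det_mul, Matrix.det_mul, Matrix.det_diagonal, Matrix.det_diagonal,
    Finset.prod_pow_eq_pow_sum, Finset.prod_pow_eq_pow_sum, h3, sum_add, pow_add α (m * n)] at h2
  apply mul_right_cancel₀ (pow_ne_zero (∑ i : Fin m, (i : ℕ) + ∑ i : Fin n, (i : ℕ)) hα)
  rw [resultant, resultant, h2]
  ring

end Resc

theorem pRESC : S_RESC.{u} := by
  intro R _ _ f g m n α t hα hf hg
  have e : ∀ p : R[X], p.comp (Polynomial.C α * Polynomial.X + Polynomial.C t) =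
      (Polynomial.taylor t p).comp (Polynomial.C α * Polynomial.X) := by
    intro p
    rw [Polynomial.taylor_apply, Polynomial.comp_assoc]
    simp
  rw [e, e, Resc.res_scale _ _ _ _ _ hα, Resc.res_taylor _ _ _ _ _ hf hg]

end Pool.Agent.P.MP_6f117a_ag.Surf
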