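import Pool.Agent.P.MP_6f117a_ag.SIface

/-! Step SIG1 of the proof for surfaces in projective three-space. -/

namespace Pool.Agent.P.MP_6f117a_ag.Surf

open MvPolynomial Module
open Ideal (span)
open scoped Polynomial WithZero

universe u

namespace Sig1A

variable {L : Type u} [Field L] {τ τ' : Type}

theorem monomial_eq {A : Type u} [CommRing A] (m : τ →₀ ℕ) (s : A) :
    monomial m s = C s * monomial m 1 := by rw [C_mul_monomial, mul_one]

/-- an algebra map that respects the bigrading up to a shift on the generators -/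
theorem map_bih {wt : τ → ℕ} {wt' : τ' → ℕ} {k : ℕ} (φ : Jet τ L →ₐ[S L] Jet τ' L)
    (h : ∀ j, φ (X j) ∈ bih L wt' (wt j, 1 + k * wt j)) {a b : ℕ} {G : Jet τ L}
    (hG : G ∈ bih L wt (a, b)) : φ G ∈ bih L wt' (a, b + k * a) := by
  have key : ∀ m : τ →₀ ℕ, φ (monomial m 1) ∈
      bih L wt' (Finsupp.weight wt m, m.degree + k * Finsupp.weight wt m) := fun m => by
    induction m using Finsupp.induction_linear with
    | zero =>
      have : (1 : Jet τ' L) ∈ bih L wt' (0, 0) := SetLike.one_mem_graded (bih L wt')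
      simpa using this
    | add x y hx hy =>
      have := SetLike.mul_mem_graded hx hy
      rw [← map_mul, monomial_mul, one_mul, Prod.mk_add_mk] at this
      rw [map_add, map_add, show x.degree + y.degree + k * (Finsupp.weight wt x + Finsupp.weight wt y) =
        x.degree + k * Finsupp.weight wt x + (y.degree + k * Finsupp.weight wt y) by ring]
      exact this
    | single j c =>
      have := SetLike.pow_mem_graded c (h j)
      rw [← map_pow, X_pow_eq_monomial, Prod.smul_mk, smul_eq_mul, smul_eq_mul] at this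
      rw [Finsupp.weight_single, Finsupp.degree_single, smul_eq_mul,
        show c + k * (c * wt j) = c * (1 + k * wt j) by ring]
      exact this
  rw [G.as_sum, map_sum]
  refine Submodule.sum_mem _ fun m hm => ?_
  obtain ⟨h1, h2, h3⟩ := mem_bih'.1 hG m (mem_support_iff.1 hm)
  have := SetLike.mul_mem_graded (C_mem_bih wt' h3) (key m)
  rw [Prod.mk_add_mk, zero_add, h1, ← add_assoc, Nat.sub_add_cancel h2] at this
  rw [monomial_eq, map_mul, algHom_C]
  exact this

theorem scale_monomial {A R : Type u} [CommRing A] [CommRing R] [Algebra A R] {wt : τ → ℕ}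
    (φ ψ : MvPolynomial τ A →ₐ[A] R) {c : R} (h : ∀ j, φ (X j) = c ^ wt j * ψ (X j)) (m : τ →₀ ℕ)
    (s : A) : φ (monomial m s) = c ^ Finsupp.weight wt m * ψ (monomial m s) := by
  have key : ∀ m : τ →₀ ℕ, φ (monomial m 1) = c ^ Finsupp.weight wt m * ψ (monomial m 1) :=
    fun m => by
    induction m using Finsupp.induction_linear with
    | zero => simp
    | add x y hx hy =>
      rw [← one_mul (1 : A), ← monomial_mul, map_mul, map_mul, hx, hy, map_add]; ring
    | single j n =>
      rw [← X_pow_eq_monomial, map_pow, map_pow, h, Finsupp.weight_single, smul_eq_mul]; ring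
  rw [monomial_eq, map_mul, map_mul, algHom_C, algHom_C, key]; ring

/-- two algebra maps that differ by a scaling of the generators -/
theorem scale_bih {R : Type u} [CommRing R] [Algebra (S L) R] {wt : τ → ℕ}
    (φ ψ : Jet τ L →ₐ[S L] R) {c : R} (h : ∀ j, φ (X j) = c ^ wt j * ψ (X j)) {a b : ℕ}
    {G : Jet τ L} (hG : G ∈ bih L wt (a, b)) : φ G = c ^ a * ψ G := by
  rw [G.as_sum, map_sum, map_sum, Finset.mul_sum]
  refine Finset.sum_congr rfl fun m hm => ?_
  rw [scale_monomial φ ψ h, (mem_bih'.1 hG m (mem_support_iff.1 hm)).1]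

/-- the preimage of a homogeneous ideal under a map that shifts degrees injectively -/
theorem hom_comap {R R' : Type u} [CommRing R] [CommRing R'] [Algebra L R] [Algebra L R']
    {ι : Type} [DecidableEq ι] [AddCommMonoid ι] {𝒜 : ι → Submodule L R} {ℬ : ι → Submodule L R'}
    [GradedAlgebra 𝒜] [GradedAlgebra ℬ] {Φ : Type u} [FunLike Φ R R'] [RingHomClass Φ R R'] (φ : Φ)
    {σ : ι → ι} (hσ : Function.Injective σ) (h : ∀ i, ∀ x ∈ 𝒜 i, φ x ∈ ℬ (σ i)) {J : Ideal R'}
    (hJ : J.IsHomogeneous ℬ) : (J.comap φ).IsHomogeneous 𝒜 := by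
  intro i r hr
  have key : ∀ r : R, φ (DirectSum.decompose 𝒜 r i : R) =
      (DirectSum.decompose ℬ (φ r) (σ i) : R') := fun r => by
    induction r using DirectSum.Decomposition.inductionOn 𝒜 with
    | zero => simp
    | @homogeneous j x =>
      by_cases e : j = i
      · subst e
        rw [DirectSum.decompose_of_mem_same 𝒜 x.2, DirectSum.decompose_of_mem_same ℬ (h _ _ x.2)]
      · rw [DirectSum.decompose_of_mem_ne 𝒜 x.2 e,
          DirectSum.decompose_of_mem_ne ℬ (h _ _ x.2) (hσ.ne e), map_zero]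
    | add x y hx hy =>
      simp only [map_add, DirectSum.decompose_add, DirectSum.add_apply, Submodule.coe_add, hx, hy]
  rw [Ideal.mem_comap, key]
  exact hJ _ hr

theorem not_dvd {d : ℕ} {F : S L} (hF : F.IsHomogeneous d) (n : ℕ) (G : S L) (hn : n < d)
    (h0 : G ≠ 0) (hG : G.IsHomogeneous n) : ¬F ∣ G := by
  rintro ⟨H, rfl⟩
  have h1 := hG.totalDegree h0
  rw [totalDegree_mul_of_isDomain (left_ne_zero_of_mul h0) (right_ne_zero_of_mul h0),
    hF.totalDegree (left_ne_zero_of_mul h0)] at h1
  omega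

theorem sig1_X (F : S L) (k j : Fin 3) : sig1 F k (X j) = C (dF F k) * om F k j := aeval_X _ _

theorem kill1_X (k j : Fin 3) : kill1 (S L) k (X j) = if j = k then 0 else X j := aeval_X _ _

theorem ell1_eq (F : S L) (k : Fin 3) :
    ell1 F = C (dF F k) * X k + ∑ i ∈ Finset.univ.erase k, C (dF F i) * X i :=
  (Finset.add_sum_erase _ (fun i => C (dF F i) * X i) (Finset.mem_univ k)).symm

theorem sig1_ell1 (F : S L) (k : Fin 3) : sig1 F k (ell1 F) = 0 := by
  have : ∀ i ∈ Finset.univ.erase k, sig1 F k (C (dF F i) * X i) =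
      C (dF F k) * C (dF F k) * (C (dF F i) * X i) := fun i hi => by
    rw [map_mul, algHom_C, sig1_X, om, if_neg (Finset.ne_of_mem_erase hi), algebraMap_eq]; ring
  rw [ell1_eq F k, map_add, map_sum, Finset.sum_congr rfl this, ← Finset.mul_sum, map_mul, algHom_C,
    sig1_X, om, if_pos rfl, algebraMap_eq]
  ring

theorem sig1_sub (F : S L) (k : Fin 3) {a b : ℕ} {G : U1 L} (hG : G ∈ bih L w1 (a, b)) :
    sig1 F k G - C (dF F k) ^ (2 * a) * G ∈ span {ell1 F} := by
  have := scale_bih ((Ideal.Quotient.mkₐ (S L) (span {ell1 F})).comp (sig1 F k))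
    (Ideal.Quotient.mkₐ (S L) (span {ell1 F}))
    (c := Ideal.Quotient.mkₐ (S L) (span {ell1 F}) (C (dF F k) ^ 2)) (fun j => by
      rw [w1, pow_one, ← map_mul, AlgHom.comp_apply, sig1_X, Ideal.Quotient.mkₐ_eq_mk,
        Ideal.Quotient.eq, om]
      split_ifs with e
      · rw [Ideal.mem_span_singleton, e]
        exact ⟨-C (dF F k), by rw [ell1_eq F k]; ring⟩
      · rw [show C (dF F k) * (C (dF F k) * X j) - C (dF F k) ^ 2 * X j = (0 : U1 L) by ring]
        exact Ideal.zero_mem _) hG
  rwa [← map_pow, ← map_mul, AlgHom.comp_apply, Ideal.Quotient.mkₐ_eq_mk, Ideal.Quotient.eq,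
    ← pow_mul] at this

theorem kill_sig1 (F : S L) (k : Fin 3) (G : U1 L) : kill1 (S L) k (sig1 F k G) = sig1 F k G := by
  have : (kill1 (S L) k).comp (sig1 F k) = sig1 F k := algHom_ext fun j => by
    rw [AlgHom.comp_apply, sig1_X, map_mul, algHom_C, algebraMap_eq, om]
    split_ifs with e
    · rw [map_neg, map_sum, Finset.sum_congr rfl fun i hi => by
        rw [map_mul, algHom_C, kill1_X, if_neg (Finset.ne_of_mem_erase hi), algebraMap_eq]]
    · rw [map_mul, algHom_C, kill1_X, if_neg e, algebraMap_eq]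
  exact AlgHom.congr_fun this G

theorem sig1_kill_X (F : S L) (k j : Fin 3) : ((sig1 F k).comp (kill1 (S L) k)) (X j) =
    (C (dF F k) ^ 2) ^ w1 j * kill1 (S L) k (X j) := by
  rw [w1, pow_one, AlgHom.comp_apply, kill1_X]
  split_ifs with e
  · simp
  · rw [sig1_X, om, if_neg e]; ring

theorem kill_monomial (k : Fin 3) (m : Fin 3 →₀ ℕ) (s : S L) :
    kill1 (S L) k (monomial m s) = if m k = 0 then monomial m s else 0 := by
  split_ifs with e
  · rw [kill1, aeval_monomial, MvPolynomial.monomial_eq, algebraMap_eq]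
    congr 1
    refine Finset.prod_congr rfl fun j hj => ?_
    have : j ≠ k := by rintro rfl; exact Finsupp.mem_support_iff.1 hj e
    simp only [if_neg this]
  · rw [kill1, aeval_monomial, Finsupp.prod,
      Finset.prod_eq_zero (Finsupp.mem_support_iff.2 e) (by simp [e]), mul_zero]

theorem coeff_sig1_kill (F : S L) (k : Fin 3) (G : U1 L) (m : Fin 3 →₀ ℕ) :
    coeff m (sig1 F k (kill1 (S L) k G)) =
      (dF F k ^ 2) ^ Finsupp.weight w1 m * coeff m (kill1 (S L) k G) := by
  induction G using MvPolynomial.induction_on' with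
  | monomial n s =>
    rw [← AlgHom.comp_apply, scale_monomial _ _ (sig1_kill_X F k), ← map_pow, ← map_pow, coeff_C_mul,
      kill_monomial]
    split_ifs
    · rw [coeff_monomial]
      split_ifs with e
      · rw [e]
      · simp
    · simp
  | add p q hp hq => simp only [map_add, coeff_add, hp, hq, mul_add]

end Sig1A

open Sig1A in
theorem pSIG1 (L : Type u) [Field L] [IsAlgClosed L] [CharZero L] :
    S_SIG1 L := by
  intro d F g
  have h2 := g.two
  have hd : ∀ i, (dF F i).IsHomogeneous (d - 1) := fun i => g.hom.pderiv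
  have nd : ∀ i, ¬F ∣ dF F i := fun i => by
    refine not_dvd g.hom (d - 1) _ (by omega) (fun e => g.mon i ?_) (hd i)
    have := congrArg (coeff (Finsupp.single i.succ (d - 1))) e
    rw [dF, coeff_pderiv, ← Finsupp.single_add, Nat.sub_add_cancel (by omega), coeff_zero] at this
    exact (mul_eq_zero.1 this).resolve_right (Nat.cast_add_one_ne_zero _)
  have cx : ∀ i j, C (dF F i) * X j ∈ bih L w1 (1, d) := fun i j => by
    have := SetLike.mul_mem_graded (C_mem_bih w1 (hd i)) (X_mem_bih w1 j)
    rwa [Prod.mk_add_mk, Nat.sub_add_cancel (by omega)] at this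
  have smem : ∀ k a b, ∀ G ∈ bih L w1 (a, b),
      sig1 F k G ∈ bih L w1 (a, b + 2 * a * (d - 1)) := fun k a b G hG => by
    rw [show 2 * a * (d - 1) = 2 * (d - 1) * a by ring]
    refine map_bih (sig1 F k) (fun j => ?_) hG
    have h1 : om F k j ∈ bih L w1 (1, d) := by
      unfold om
      split_ifs
      · exact neg_mem (Submodule.sum_mem _ fun i _ => cx i i)
      · exact cx k j
    have := SetLike.mul_mem_graded (C_mem_bih w1 (hd k)) h1
    rw [Prod.mk_add_mk, show d - 1 + d = 1 + 2 * (d - 1) * 1 by omega] at this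
    rw [sig1_X]
    exact this
  have pr : Prime (C F : U1 L) := (prime_C_iff _).2 g.prime
  have hom : ∀ k, ((span {C F} : Ideal (U1 L)).comap (sig1 F k)).IsHomogeneous (bih L w1) :=
    fun k => hom_comap (𝒜 := bih L w1) (ℬ := bih L w1) (sig1 F k) (σ := fun p : ℕ × ℕ => (p.1, p.2 + 2 * p.1 * (d - 1)))
      (fun p q e => by
        obtain ⟨e1, e2⟩ := Prod.ext_iff.1 e
        dsimp only at e1 e2
        rw [e1] at e2
        exact Prod.ext e1 (by omega))
      (fun p x hx => smem k p.1 p.2 x hx) (hom_span (C_mem_bih w1 g.hom))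
  have pw : ∀ k a b, ∀ G ∈ bih L w1 (a, b), C F ∣ sig1 F k G →
      C (dF F k) ^ (2 * a) * G ∈ span {ell1 F} ⊔ span {C F} := fun k a b G hG h => by
    have := sub_mem (Ideal.mem_sup_right (S := span {ell1 F}) (Ideal.mem_span_singleton.2 h))
      (Ideal.mem_sup_left (sig1_sub F k hG))
    rwa [sub_sub_cancel] at this
  have le : ∀ k, span {ell1 F} ⊔ span {C F} ≤ (span {C F} : Ideal (U1 L)).comap (sig1 F k) :=
    fun k => sup_le
      ((Ideal.span_singleton_le_iff_mem _).2 (by rw [Ideal.mem_comap, sig1_ell1]; exact zero_mem _))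
      ((Ideal.span_singleton_le_iff_mem _).2 (by
        rw [Ideal.mem_comap, algHom_C]; exact Ideal.mem_span_singleton_self _))
  have chart : ∀ k l, (span {C F} : Ideal (U1 L)).comap (sig1 F k) ≤
      (span {C F} : Ideal (U1 L)).comap (sig1 F l) := fun k l =>
    le_of_hom (hom k) fun p G h hG => by
      have := le l (pw k p.1 p.2 G hG (Ideal.mem_span_singleton.1 h))
      rw [Ideal.mem_comap, Ideal.mem_span_singleton, map_mul, map_pow, algHom_C, algebraMap_eq] at this
      refine Ideal.mem_span_singleton.2 ((pr.dvd_or_dvd this).resolve_left fun e => nd k ?_)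
      simpa using (C_dvd_iff_dvd_coeff _ _).1 (pr.dvd_of_dvd_pow e) 0
  have memK : ∀ k G, G ∈ K1 F ↔ C F ∣ sig1 F k G := fun k G =>
    ⟨fun h => Ideal.mem_span_singleton.1 (chart 2 k h),
      fun h => chart k 2 (Ideal.mem_span_singleton.2 h)⟩
  refine ⟨hd, nd, not_dvd g.hom, Submodule.sum_mem _ fun i _ => cx i i,
    Submodule.sum_mem _ fun i _ => Submodule.sum_mem _ fun j _ => ?_, fun h => nd 0 ?_,
    sig1_ell1 F, smem, fun k a b G hG => sig1_sub F k hG, kill_sig1 F, fun k a b G hG h => ?_, memK,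
    hom 2, ?_, fun k G h => ?_, le 2, fun k G hG => ?_⟩
  · have := SetLike.mul_mem_graded (SetLike.mul_mem_graded
      (C_mem_bih w1 ((hd i).pderiv (i := j.succ))) (X_mem_bih w1 i)) (X_mem_bih w1 j)
    rwa [Prod.mk_add_mk, Prod.mk_add_mk, show d - 1 - 1 + 1 + 1 = d by omega] at this
  · have := map_dvd (aeval (R := S L) (![1, 0, 0] : Fin 3 → S L)) h
    simpa [ell1, Fin.sum_univ_three] using this
  · have := scale_bih _ _ (sig1_kill_X F k) hG
    rwa [AlgHom.comp_apply, h, ← pow_mul] at this
  · have : (span {C F} : Ideal (U1 L)).IsPrime := (Ideal.span_singleton_prime pr.ne_zero).2 pr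
    exact Ideal.IsPrime.comap _
  · rw [memK k]
    refine ⟨fun e => (C_dvd_iff_dvd_coeff _ _).2 fun m => ?_, fun e => ?_⟩
    · have h1 := (C_dvd_iff_dvd_coeff _ _).1 e m
      have h3 := coeff_sig1_kill F k G m
      rw [h] at h3
      rw [h3, ← pow_mul] at h1
      exact (g.prime.dvd_or_dvd h1).resolve_left fun e => nd k (g.prime.dvd_of_dvd_pow e)
    · have := map_dvd (sig1 F k) e
      rwa [algHom_C] at this
  · have : K1 F ≤ sat (fun _ => C (dF F k)) (span {ell1 F} ⊔ span {C F}) :=
      le_of_hom (hom 2) fun p G h hG _ => ⟨_, pw k p.1 p.2 G hG ((memK k G).1 h)⟩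
    exact this hG 0

end Pool.Agent.P.MP_6f117a_ag.Surf
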