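import Pool.Agent.P.MP_6f117a_ag.SIface

/-! Step SLICE of the proof for surfaces in projective three-space. -/

namespace Pool.Agent.P.MP_6f117a_ag.Surf

open MvPolynomial Module
open Ideal (span)
open scoped Polynomial WithZero

universe u

section

variable {L : Type u} [Field L]

/-- Elements of weight zero are forms. -/
theorem eq_C_slice {n : ℕ} {G : U L} (h : G ∈ bih L w2 (0, n)) :
    ∃ s : S L, s.IsHomogeneous n ∧ G = C s := by
  classical
  refine ⟨coeff 0 G, by simpa using coeff_hom h 0, ?_⟩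
  ext1 m
  rw [coeff_C]
  split_ifs with e
  · rw [← e]
  · by_contra hc
    have h1 := (mem_bih'.1 h m hc).1
    have h4 : m.degree ≤ Finsupp.weight w2 m := by
      rw [← weight_one, Finsupp.weight_apply, Finsupp.weight_apply]
      exact Finset.sum_le_sum fun j _ => Nat.mul_le_mul_left _ (one_le_w2 j)
    exact e ((Finsupp.degree_eq_zero_iff m).1 (by omega)).symm

/-- Homogeneous elements of the ideal generated by `M` and finitely many elements of the same
weight. -/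
theorem decomp_slice {M : Ideal (U L)} (hM : M.IsHomogeneous (bih L w2)) {ρ a b n : ℕ}
    {e : Fin ρ → U L} (he : ∀ ν, e ν ∈ bih L w2 (a, b)) {G : U L}
    (hG : G ∈ bih L w2 (a, b + n)) (h : G ∈ M ⊔ span (Set.range e)) :
    ∃ s : Fin ρ → S L, (∀ ν, (s ν).IsHomogeneous n) ∧ G - ∑ ν, C (s ν) * e ν ∈ M := by
  obtain ⟨m, hm, r, hr, hs⟩ := Submodule.mem_sup.1 h
  obtain ⟨u, rfl⟩ := Ideal.mem_span_range_iff_exists_fun.1 hr
  choose s hs1 hs2 using fun ν =>
    eq_C_slice (SetLike.coe_mem (DirectSum.decompose (bih L w2) (u ν) (0, n)))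
  refine ⟨s, hs1, ?_⟩
  have e1 : ((0, n) : ℕ × ℕ) + (a, b) = (a, b + n) := by
    rw [Prod.mk_add_mk, zero_add, add_comm]
  have := congrArg (GradedRing.proj (bih L w2) ((0, n) + (a, b))) hs
  simp only [map_add, map_sum, GradedRing.proj_apply,
    DirectSum.decompose_of_mem_same (bih L w2) (e1 ▸ hG),
    DirectSum.coe_decompose_mul_add_of_right_mem (bih L w2) (he _), hs2] at this
  rw [← this, add_sub_cancel_right]
  exact hM _ hm

/-- The lower bound for the Hilbert function of the enlarged ideal. -/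
theorem hf_ge_slice {A R : Type u} [CommRing A] [CommRing R] [Algebra L A] [Algebra L R]
    {ι κ : Type} {𝒜 : ι → Submodule L A} {ℬ : κ → Submodule L R} [∀ i, FiniteDimensional L (𝒜 i)]
    [∀ i, FiniteDimensional L (ℬ i)] (φ : A →ₐ[L] R) {M : Ideal R} {P : Ideal A} {ρ : ℕ} {n : ι}
    {p : κ} {e : Fin ρ → R} (he : ∀ ν, ∀ s ∈ 𝒜 n, φ s * e ν ∈ ℬ p)
    (hi : ∀ s : Fin ρ → A, (∀ ν, s ν ∈ 𝒜 n) → ∑ ν, φ (s ν) * e ν ∈ M → ∀ ν, s ν ∈ P) :
    cod ℬ (M ⊔ span (Set.range e)) p + ρ * cod 𝒜 P n ≤ cod ℬ M p := by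
  let q := (M.restrictScalars L).mkQ
  let V : Submodule L A := (⊤ : Ideal A).restrictScalars L ⊓ 𝒜 n
  let V' : Submodule L A := P.restrictScalars L ⊓ 𝒜 n
  let B : Submodule L R := (M ⊔ span (Set.range e)).restrictScalars L ⊓ ℬ p
  let σ : (Fin ρ → V) →ₗ[L] R :=
    { toFun := fun s => ∑ ν, φ (s ν) * e ν
      map_add' := fun s t => by simp [add_mul, Finset.sum_add_distrib]
      map_smul' := fun c s => by simp [Finset.smul_sum] }
  have h1 := (q ∘ₗ σ).finrank_range_add_finrank_ker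
  have h2 := (q.domRestrict B).finrank_range_add_finrank_ker
  have e1 : LinearMap.range (q ∘ₗ σ) ≤ LinearMap.range (q.domRestrict B) := by
    rintro _ ⟨s, rfl⟩
    have a1 : ∑ ν, φ (s ν) * e ν ∈ span (Set.range e) := Ideal.sum_mem _ fun ν _ =>
      Ideal.mul_mem_left _ _ (Ideal.subset_span (Set.mem_range_self ν))
    have a2 : ∑ ν, φ (s ν) * e ν ∈ ℬ p := Submodule.sum_mem _ fun ν _ => he ν _ (s ν).2.2
    exact ⟨⟨σ s, Ideal.mem_sup_right a1, a2⟩, rfl⟩
  have e2 : finrank L (LinearMap.ker (q ∘ₗ σ)) ≤ ρ * hf 𝒜 P n := by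
    let τ : LinearMap.ker (q ∘ₗ σ) →ₗ[L] (Fin ρ → V') :=
      { toFun := fun s ν => ⟨s.1 ν, hi (fun ν => s.1 ν) (fun ν => (s.1 ν).2.2)
          ((Submodule.Quotient.mk_eq_zero _).1 s.2) ν, (s.1 ν).2.2⟩
        map_add' := fun s t => rfl
        map_smul' := fun c s => rfl }
    have := LinearMap.finrank_le_finrank_of_injective (f := τ) fun s t h =>
      Subtype.ext (funext fun ν => Subtype.ext
        (congrArg (fun z : V' => (z : A)) (congrFun h ν)))
    rwa [finrank_pi_fintype, Finset.sum_const, Finset.card_univ, Fintype.card_fin,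
      smul_eq_mul] at this
  have e3 : finrank L (LinearMap.ker (q.domRestrict B)) = hf ℬ M p := by
    rw [← Submodule.finrank_map_subtype_eq, hf]
    refine congrArg (fun V : Submodule L R => finrank L V) ?_
    ext x
    simp only [Submodule.mem_map, LinearMap.mem_ker, Submodule.mem_inf,
      Submodule.restrictScalars_mem]
    constructor
    · rintro ⟨y, hy, rfl⟩
      exact ⟨(Submodule.Quotient.mk_eq_zero _).1 hy, y.2.2⟩
    · rintro ⟨a, b⟩
      exact ⟨⟨x, Ideal.mem_sup_left a, b⟩, (Submodule.Quotient.mk_eq_zero _).2 a, rfl⟩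
  have e4 := Submodule.finrank_mono e1
  rw [finrank_pi_fintype, Finset.sum_const, Finset.card_univ, Fintype.card_fin, smul_eq_mul] at h1
  rw [e3] at h2
  change _ = ρ * hf 𝒜 ⊤ n at h1
  change _ = hf ℬ (M ⊔ span (Set.range e)) p at h2
  have h5 : ρ * hf 𝒜 ⊤ n + hf ℬ M p ≤ ρ * hf 𝒜 P n + hf ℬ (M ⊔ span (Set.range e)) p := by
    omega
  simp only [cod]
  zify at h5
  linarith

/-- A prime containing `F` and three coordinates contains the last one. -/
theorem not_both_slice {d : ℕ} {F : S L} (hF : Good d F) {P : Ideal (S L)} (hP : P.IsPrime)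
    (h : F ∈ P) (h0 : X 0 ∈ P) (h1 : X 1 ∈ P) (h2 : X 2 ∈ P) (i : Fin 4) : X i ∈ P := by
  classical
  have h3 : F - monomial (Finsupp.single 3 d) (coeff (Finsupp.single 3 d) F) ∈
      span (X '' {0, 1, 2} : Set (S L)) := by
    rw [mem_ideal_span_X_image]
    intro m hm
    rw [MvPolynomial.mem_support_iff, coeff_sub, coeff_monomial] at hm
    by_contra hc
    push Not at hc
    have e : m = Finsupp.single 3 (m 3) := by
      ext j
      fin_cases j
      · simpa using hc 0 (by simp)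
      · simpa using hc 1 (by simp)
      · simpa using hc 2 (by simp)
      · simp
    split_ifs at hm with e'
    · exact hm (by rw [e', sub_self])
    · have := hF.hom (show coeff m F ≠ 0 by simpa using hm)
      rw [weight_one, e, Finsupp.degree_single] at this
      exact e' (by rw [e, this])
  have h4 : span (X '' {0, 1, 2} : Set (S L)) ≤ P := Ideal.span_le.2 (by
    rintro _ ⟨j, hj, rfl⟩
    rcases hj with rfl | rfl | rfl <;> assumption)
  have h5 := sub_mem h (h4 h3)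
  rw [sub_sub_cancel, ← C_mul_X_pow_eq_monomial] at h5
  have h6 : X 3 ∈ P := hP.mem_of_pow_mem d ((hP.mem_or_mem h5).resolve_left fun hc =>
    hP.ne_top (P.eq_top_of_isUnit_mem hc ((hF.mon 2).isUnit.map C)))
  fin_cases i <;> assumption

/-- A linear form of the pencil outside finitely many primes. -/
theorem exists_c_slice [Infinite L] {d : ℕ} {F : S L} (hF : Good d F) (T : Finset (Ideal (U L)))
    (hT : ∀ P ∈ T, P.IsPrime ∧ C F ∈ P ∧ xj T2 L 0 ∈ P ∧ ∃ i, xj T2 L i ∉ P) :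
    ∃ c : L, ∀ P ∈ T, (C (X 1 + C c * X 2 : S L) : U L) ∉ P := by
  have : (⋃ P ∈ T, {c : L | (C (X 1 + C c * X 2 : S L) : U L) ∈ P}).Finite := by
    refine T.finite_toSet.biUnion fun P hP => Set.Subsingleton.finite fun c hc c' hc' => ?_
    obtain ⟨h1, h2, h3, i, h4⟩ := hT P hP
    by_contra hne
    let P' : Ideal (S L) := P.comap (C : S L →+* U L)
    have hP' : P'.IsPrime := Ideal.comap_isPrime _ _
    have a1 : (X 1 + C c * X 2 : S L) ∈ P' := hc
    have a2 : (X 1 + C c' * X 2 : S L) ∈ P' := hc'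
    have a3 : (C (c - c') * X 2 : S L) ∈ P' := by
      convert sub_mem a1 a2 using 1
      rw [map_sub]; ring
    have a4 : (X 2 : S L) ∈ P' := (hP'.mem_or_mem a3).resolve_left fun hc =>
      hP'.ne_top (P'.eq_top_of_isUnit_mem hc ((sub_ne_zero.2 hne).isUnit.map C))
    have a5 : (X 1 : S L) ∈ P' := by
      convert sub_mem a1 (P'.mul_mem_left (C c) a4) using 1
      ring
    exact h4 (not_both_slice hF hP' h2 h3 a5 a4 i)
  obtain ⟨c, hc⟩ := this.infinite_compl.nonempty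
  exact ⟨c, fun P hP h => hc (Set.mem_iUnion₂.2 ⟨P, hP, h⟩)⟩

theorem pow_cancel_slice {R : Type u} [CommRing R] {I : Ideal R} {x : R}
    (h : ∀ G, x * G ∈ I → G ∈ I) (k : ℕ) (G : R) (hG : x ^ k * G ∈ I) : G ∈ I := by
  induction k with
  | zero => simpa using hG
  | succ k ih => exact ih (h _ (by rwa [pow_succ', mul_assoc] at hG))

end

theorem pSLICE (L : Type u) [Field L] [IsAlgClosed L] [CharZero L]
    (hSIG1 : S_SIG1 L) (hHFA : S_HFA L) (hSL1 : S_SL1 L) (hFREE : S_FREE L) :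
    S_SLICE L := by
  classical
  intro d F hF I hI hFI hreg a b ρ n₀ q hab hq k
  set h : U L := xj T2 L 0 with hh
  have hh1 : h ∈ bih L w2 (0, 1) := xj_mem w2 0
  have hhk : ∀ k : ℕ, h ^ k ∈ bih L w2 (0, k) := fun k => by
    simpa using SetLike.pow_mem_graded k hh1
  set M : Ideal (U L) := span {h} ⊔ I with hMdef
  have hM : M.IsHomogeneous (bih L w2) := (hom_span hh1).sup hI
  have hhM : h ∈ M := Ideal.mem_sup_left (Ideal.mem_span_singleton_self h)
  obtain ⟨e, he, hi⟩ := hSL1 d F hF M hM (Ideal.mem_sup_right hFI) hhM a (b + 1) ρ n₀ q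
    (by omega) hq
  set NN : Ideal (U L) := M ⊔ span (Set.range e) with hNNdef
  have hNN : NN.IsHomogeneous (bih L w2) := hM.sup (Ideal.homogeneous_span _ _ (by
    rintro _ ⟨ν, rfl⟩
    exact ⟨_, he ν⟩))
  have hJ : ∀ k : ℕ, (span {h ^ k} ⊔ I).IsHomogeneous (bih L w2) := fun k =>
    (hom_span (hhk k)).sup hI
  have hsJ : (sat (xj T2 L) (span {h ^ k} ⊔ I)).IsHomogeneous (bih L w2) :=
    hom_sat (xj_mem w2) (hJ k)
  have hsN : (sat (xj T2 L) NN).IsHomogeneous (bih L w2) := hom_sat (xj_mem w2) hNN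
  obtain ⟨T₁, hT₁, hT₁'⟩ := exists_ass_sat (xj T2 L) (span {h ^ (k + 1)} ⊔ I)
  obtain ⟨T₂, hT₂, hT₂'⟩ := exists_ass_sat (xj T2 L) NN
  obtain ⟨c, hc⟩ := exists_c_slice hF (T₁ ∪ T₂) fun P hP => by
    rcases Finset.mem_union.1 hP with hP | hP
    · obtain ⟨h1, h2, h3, -⟩ := hT₁ P hP
      exact ⟨h1, h2 (Ideal.mem_sup_right hFI), h1.mem_of_pow_mem (k + 1)
        (h2 (Ideal.mem_sup_left (Ideal.mem_span_singleton_self _))), h3⟩
    · obtain ⟨h1, h2, h3, -⟩ := hT₂ P hP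
      exact ⟨h1, h2 (Ideal.mem_sup_left (Ideal.mem_sup_right hFI)), h2 (Ideal.mem_sup_left hhM), h3⟩
  have r1 := pow_cancel_slice (hT₁' _ fun P hP => hc P (Finset.mem_union_left _ hP))
  have r2 := pow_cancel_slice (hT₂' _ fun P hP => hc P (Finset.mem_union_right _ hP))
  obtain ⟨c₁, hc₁⟩ := tors (I := span {h ^ k} ⊔ I) one_le_w2 hsJ le_rfl
  obtain ⟨c₂, hc₂⟩ := tors (I := NN) one_le_w2 hsN le_rfl
  set x₀ : S L := X 1 + C c * X 2 with hx₀
  have hx₀h : x₀.IsHomogeneous 1 :=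
    (isHomogeneous_X L 1).add (by simpa using (isHomogeneous_C _ c).mul (isHomogeneous_X L 2))
  obtain ⟨n, hn0, hn1, hn2⟩ : ∃ n, n₀ ≤ n ∧ c₁ ≤ n ∧ c₂ ≤ n :=
    ⟨n₀ + c₁ + c₂, by omega, by omega, by omega⟩
  obtain ⟨N, hN⟩ : ∃ N, N = k + 1 + n := ⟨_, rfl⟩
  have hxN : (C x₀ : U L) ^ N ∈ bih L w2 (0, N) := by
    simpa using SetLike.pow_mem_graded N (C_mem_bih w2 hx₀h)
  have hyN : xj T2 L 2 ^ N ∈ bih L w2 (0, N) := by
    simpa using SetLike.pow_mem_graded N (xj_mem w2 2)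
  have ed : ((0, N) : ℕ × ℕ) + (a, b) = (0, k) + (a, b + 1 + n) := by
    rw [Prod.mk_add_mk, Prod.mk_add_mk, hN]; congr 1; omega
  have hin : ∀ z ∈ bih L w2 (0, N), ∀ Q ∈ sat (xj T2 L) (span {h ^ k} ⊔ I),
      Q ∈ bih L w2 (a, b) → z * Q ∈ span {h ^ k} * ⊤ ⊔ I := fun z hz Q hQ hQ' => by
    rw [Ideal.mul_top]
    refine hc₁ a (N + b) (by omega) _ (Ideal.mul_mem_left _ _ hQ) ?_
    simpa using SetLike.mul_mem_graded hz hQ'
  have hJ' : (span {h ^ k} * NN ⊔ I).IsHomogeneous (bih L w2) :=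
    ((hom_span (hhk k)).mul hNN).sup hI
  have E1 := hf_mul hsJ hJ' hxN (a, b)
  have E2 := hf_mul (Ideal.IsHomogeneous.top (bih L w2)) hI (hhk k) (a, b + 1 + n)
  have E3 := hf_mul hNN hI (hhk k) (a, b + 1 + n)
  have E4 : hf (bih L w2) (span {(C x₀ : U L) ^ N} * sat (xj T2 L) (span {h ^ k} ⊔ I) ⊔
      (span {h ^ k} * NN ⊔ I)) ((0, N) + (a, b)) ≤
      hf (bih L w2) (span {h ^ k} * ⊤ ⊔ I) ((0, N) + (a, b)) := hf_le fun z hz hz' => by
    obtain ⟨Q, hQ, hQ', hz⟩ := exists_comp hsJ hJ' hxN hz' hz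
    have := add_mem (hin _ hxN Q hQ hQ')
      ((sup_le_sup_right (Ideal.mul_mono_right le_top) I) hz)
    simpa using this
  have E5 : hf (bih L w2) (NN ⊓ I.colon {h ^ k}) (a, b + 1 + n) ≤
      hf (bih L w2) (⊤ ⊓ I.colon {h ^ k}) (a, b + 1 + n) :=
    hf_mono (inf_le_inf_right _ le_top) _
  have E6 := hf_ge_slice (𝒜 := frm L) (ℬ := bih L w2) (IsScalarTower.toAlgHom L (S L) (U L))
    (M := M) (P := span {F, X 0}) (n := n) (p := (a, b + 1 + n)) (e := e) (fun ν s hs => by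
      have := SetLike.mul_mem_graded (C_mem_bih w2 hs) (he ν)
      rwa [Prod.mk_add_mk, zero_add, add_comm] at this) (hi n)
  have E7 : hf (bih L w2) (sat (xj T2 L) (span {h ^ k} ⊔ I) ⊓
      (span {h ^ k} * NN ⊔ I).colon {(C x₀ : U L) ^ N}) (a, b) ≤
      hf (bih L w2) (sat (xj T2 L) (span {h ^ (k + 1)} ⊔ I)) (a, b) := hf_le fun Q hQ hQ' => by
    have hx : (C x₀ : U L) ^ N * Q ∈ span {h ^ k} * NN ⊔ I := by
      have := Submodule.mem_colon_singleton.1 hQ.2
      rwa [smul_eq_mul, mul_comm Q] at this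
    obtain ⟨G, hG, hG', hxG⟩ := exists_comp hNN hI (hhk k)
      (ed ▸ SetLike.mul_mem_graded hxN hQ') hx
    obtain ⟨G', -, hG'', hyG⟩ := exists_comp (Ideal.IsHomogeneous.top (bih L w2)) hI (hhk k)
      (ed ▸ SetLike.mul_mem_graded hyN hQ') (hin _ hyN Q hQ.1 hQ')
    have hIN : I ≤ NN := le_sup_right.trans le_sup_left
    have a1 : (C x₀ : U L) ^ N * G' - xj T2 L 2 ^ N * G ∈ I := by
      refine pow_cancel_slice hreg k _ ?_
      convert sub_mem (I.mul_mem_left (xj T2 L 2 ^ N) hxG)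
        (I.mul_mem_left ((C x₀ : U L) ^ N) hyG) using 1
      ring
    have a2 : G' ∈ NN := by
      refine hc₂ a (b + 1 + n) (by omega) _ (r2 N _ (le_sat _ _ ?_)) hG''
      simpa using add_mem (hIN a1) (NN.mul_mem_left (xj T2 L 2 ^ N) hG)
    obtain ⟨s, hs, hsG⟩ := decomp_slice hM he hG' hG
    obtain ⟨s', hs', hsG'⟩ := decomp_slice hM he hG'' a2
    have a3 := hi (N + n) (fun ν => x₀ ^ N * s' ν - X 2 ^ N * s ν) (fun ν =>
      (by simpa using (hx₀h.pow N).mul (hs' ν) : (x₀ ^ N * s' ν).IsHomogeneous (N + n)).sub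
        (by simpa using ((isHomogeneous_X L 2).pow N).mul (hs ν))) (by
      have := sub_mem (add_mem (Ideal.mem_sup_right a1 : _ ∈ M)
        (M.mul_mem_left (xj T2 L 2 ^ N) hsG)) (M.mul_mem_left ((C x₀ : U L) ^ N) hsG')
      convert this using 1
      simp only [map_sub, map_mul, map_pow, sub_mul, Finset.sum_sub_distrib, mul_assoc,
        ← Finset.mul_sum]
      ring)
    have a4 : ∀ ν, (C (s ν) : U L) ∈ M := fun ν => by
      have : span {F, X 0} ≤ M.comap (C : S L →+* U L) := Ideal.span_le.2 (by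
        rintro _ (rfl | rfl)
        · exact (Ideal.mem_sup_right hFI : C _ ∈ M)
        · exact hhM)
      exact this (hFREE d F hF c n N (s ν) (s' ν) (by omega) (hs ν) (a3 ν))
    have a5 : G ∈ M := by
      simpa using add_mem hsG (M.sum_mem fun ν (_ : ν ∈ Finset.univ) =>
        M.mul_mem_right (e ν) (a4 ν))
    obtain ⟨u, hu, v, hv, huv⟩ := Submodule.mem_sup.1 a5
    obtain ⟨w, rfl⟩ := Ideal.mem_span_singleton.1 hu
    refine r1 N _ (le_sat _ _ (Submodule.mem_sup.2 ⟨h ^ (k + 1) * w,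
      Ideal.mul_mem_right _ _ (Ideal.mem_span_singleton_self _), _,
      add_mem hxG (I.mul_mem_left (h ^ k) hv), ?_⟩))
    rw [← huv]; ring
  have E8 := hq n hn0
  rw [ed] at E1 E4
  simp only [cod] at E6 E8
  rw [← hNNdef] at E6
  omega

end Pool.Agent.P.MP_6f117a_ag.Surf
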